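import Mathlib

/-! Project CMF, module AlgA: the elements `w^a - 1` of the group ring of a free abelian group. -/

namespace Pool.Agent.CMF.AlgAX

theorem coeff_single_sub_one_mul {R : Type} [CommRing R] {J' : Type} (a : J' →₀ ℤ)
    (g : AddMonoidAlgebra R (J' →₀ ℤ)) (b : J' →₀ ℤ) :
    ((AddMonoidAlgebra.single a (1 : R) - 1) * g).coeff b = g.coeff (-a + b) - g.coeff b := by
  rw [sub_mul, one_mul, AddMonoidAlgebra.coeff_sub, Finsupp.sub_apply,
    AddMonoidAlgebra.coeff_single_mul_apply, one_mul]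

theorem nsmul_injective {J' : Type} (a : J' →₀ ℤ) (ha : a ≠ 0) (b : J' →₀ ℤ) :
    Function.Injective (fun n : ℕ => -(n • a) + b) := by
  intro m n h
  have h1 : m • a = n • a := by
    have := add_right_cancel h
    exact neg_injective this
  obtain ⟨i, hi⟩ : ∃ i, a i ≠ 0 := by
    by_contra hc
    push Not at hc
    exact ha (Finsupp.ext hc)
  have h2 := DFunLike.congr_fun h1 i
  simp only [Finsupp.smul_apply, nsmul_eq_mul] at h2
  exact_mod_cast mul_right_cancel₀ hi h2

theorem exists_far {R : Type} [CommRing R] {J' : Type} (a : J' →₀ ℤ) (ha : a ≠ 0)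
    (g : (J' →₀ ℤ) →₀ R) (b : J' →₀ ℤ) : ∃ n : ℕ, g (-(n • a) + b) = 0 := by
  obtain ⟨n, hn⟩ := Infinite.exists_notMem_finset
    (g.support.preimage (fun n : ℕ => -(n • a) + b) (nsmul_injective a ha b).injOn)
  refine ⟨n, ?_⟩
  by_contra hc
  exact hn (Finset.mem_preimage.2 (Finsupp.mem_support_iff.2 hc))

theorem mem_of_sub_mem {R : Type} [CommRing R] (I : Ideal R) {J' : Type} (a : J' →₀ ℤ)
    (ha : a ≠ 0) (g : (J' →₀ ℤ) →₀ R) (h : ∀ b, g (-a + b) - g b ∈ I) (b : J' →₀ ℤ) :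
    g b ∈ I := by
  have key : ∀ n : ℕ, g (-(n • a) + b) - g b ∈ I := by
    intro n
    induction n with
    | zero => simp
    | succ n ih =>
      have h1 := h (-(n • a) + b)
      have e : -((n + 1) • a) + b = -a + (-(n • a) + b) := by
        rw [succ_nsmul, neg_add_rev, add_assoc]
      rw [e]
      have := I.add_mem h1 ih
      simpa using this
  obtain ⟨n, hn⟩ := exists_far a ha g b
  have := key n
  rw [hn, zero_sub] at this
  exact (neg_mem_iff (S := Ideal R) (H := I)).1 this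

theorem dvd_iff {R : Type} [CommRing R] {J' : Type} (ξ : R)
    (g : AddMonoidAlgebra R (J' →₀ ℤ)) :
    algebraMap R (AddMonoidAlgebra R (J' →₀ ℤ)) ξ ∣ g ↔ ∀ b, g.coeff b ∈ Ideal.span {ξ} := by
  have ec : ∀ (q : AddMonoidAlgebra R (J' →₀ ℤ)) (b : J' →₀ ℤ),
      (algebraMap R (AddMonoidAlgebra R (J' →₀ ℤ)) ξ * q).coeff b = ξ * q.coeff b := by
    intro q b
    rw [AddMonoidAlgebra.coe_algebraMap]
    exact AddMonoidAlgebra.coeff_single_zero_mul q ξ b
  constructor
  · rintro ⟨q, rfl⟩ b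
    rw [ec]
    exact Ideal.mem_span_singleton.2 ⟨_, rfl⟩
  · intro h
    classical
    have hex : ∀ x : R, ∃ y : R, (x ∈ Ideal.span {ξ} → x = ξ * y) ∧ (x = 0 → y = 0) := by
      intro x
      by_cases hx : x = 0
      · exact ⟨0, fun _ => by simp [hx], fun _ => rfl⟩
      · by_cases hs : x ∈ Ideal.span {ξ}
        · obtain ⟨y, hy⟩ := Ideal.mem_span_singleton.1 hs
          exact ⟨y, fun _ => hy, fun h0 => absurd h0 hx⟩
        · exact ⟨0, fun h0 => absurd h0 hs, fun _ => rfl⟩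
    choose f hf using hex
    refine ⟨AddMonoidAlgebra.ofCoeff (g.coeff.mapRange f ((hf 0).2 rfl)), ?_⟩
    apply AddMonoidAlgebra.ext
    apply Finsupp.ext
    intro b
    rw [ec]
    exact (hf _).1 (h b)

theorem dvd_of_mul_dvd {R : Type} [CommRing R] {J' : Type} (ξ : R) (a : J' →₀ ℤ) (ha : a ≠ 0)
    (g : AddMonoidAlgebra R (J' →₀ ℤ))
    (h : algebraMap R (AddMonoidAlgebra R (J' →₀ ℤ)) ξ ∣
      (AddMonoidAlgebra.single a (1 : R) - 1) * g) :
    algebraMap R (AddMonoidAlgebra R (J' →₀ ℤ)) ξ ∣ g := by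
  rw [dvd_iff] at h ⊢
  refine mem_of_sub_mem _ a ha g.coeff ?_
  intro b
  have := h b
  rwa [coeff_single_sub_one_mul] at this

end Pool.Agent.CMF.AlgAX

namespace Pool.Agent.CMF

/-- `w^a - 1` is a non-zero-divisor of the group ring of a free abelian group. -/
theorem single_sub_one_nzd {R : Type} [CommRing R] {J' : Type} (a : J' →₀ ℤ) (ha : a ≠ 0) :
    (AddMonoidAlgebra.single a (1 : R) - 1) ∈ nonZeroDivisors (AddMonoidAlgebra R (J' →₀ ℤ)) := by
  rw [mem_nonZeroDivisors_iff_right]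
  intro g hg
  rw [mul_comm] at hg
  apply AddMonoidAlgebra.ext
  apply Finsupp.ext
  intro b
  have h := AlgAX.mem_of_sub_mem (⊥ : Ideal R) a ha g.coeff (by
    intro b
    rw [Ideal.mem_bot, ← AlgAX.coeff_single_sub_one_mul, hg]
    rfl) b
  simpa using h

/-- If a product of such elements times `g` is divisible by the constant `ξ`, so is `g`. -/
theorem dvd_of_prod_dvd {R : Type} [CommRing R] {J' : Type} (ξ : R) {J : Type} (s : Finset J)
    (a : J → J' →₀ ℤ) (ha : ∀ j ∈ s, a j ≠ 0) (g : AddMonoidAlgebra R (J' →₀ ℤ))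
    (h : algebraMap R (AddMonoidAlgebra R (J' →₀ ℤ)) ξ ∣
      (∏ j ∈ s, (AddMonoidAlgebra.single (a j) (1 : R) - 1)) * g) :
    algebraMap R (AddMonoidAlgebra R (J' →₀ ℤ)) ξ ∣ g := by
  classical
  induction s using Finset.induction_on with
  | empty => simpa using h
  | insert j s hj ih =>
    rw [Finset.prod_insert hj, mul_assoc] at h
    exact ih (fun i hi => ha i (Finset.mem_insert_of_mem hi))
      (AlgAX.dvd_of_mul_dvd ξ (a j) (ha j (Finset.mem_insert_self _ _)) _ h)

end Pool.Agent.CMF
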