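import Mathlib

/-! Project CMF, module AlgB: division by products of `X^j - 1` over a subring of the complex
numbers. -/

namespace Pool.Agent.CMF.AlgBX

open Polynomial

theorem prod_monic {A : Type} [CommRing A] (s : Finset ℕ) (j : ℕ → ℕ)
    (hj : ∀ i ∈ s, 0 < j i) : (∏ i ∈ s, (X ^ j i - 1 : A[X])).Monic := by
  apply monic_prod_of_monic
  intro i hi
  have h := monic_X_pow_sub_C (1 : A) (hj i hi).ne'
  rwa [C_1] at h

theorem prod_map (R : Subring ℂ) (s : Finset ℕ) (j : ℕ → ℕ) :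
    (∏ i ∈ s, (X ^ j i - 1 : R[X])).map R.subtype = ∏ i ∈ s, (X ^ j i - 1 : ℂ[X]) := by
  rw [Polynomial.map_prod]
  refine Finset.prod_congr rfl fun i _ => ?_
  rw [Polynomial.map_sub, Polynomial.map_pow, Polynomial.map_X, Polynomial.map_one]

theorem mult_zero (s : Finset ℕ) (j : ℕ → ℕ) (hj : ∀ i ∈ s, 0 < j i) (u : ℂ)
    (hu : ¬ ∃ m : ℕ, 0 < m ∧ u ^ m = 1) :
    (∏ i ∈ s, (X ^ j i - 1 : ℂ[X])).rootMultiplicity u = 0 := by
  apply rootMultiplicity_eq_zero
  intro hr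
  rw [IsRoot.def, eval_prod, Finset.prod_eq_zero_iff] at hr
  obtain ⟨i, hi, h0⟩ := hr
  apply hu
  refine ⟨j i, hj i hi, ?_⟩
  rw [eval_sub, eval_pow, eval_X, eval_one] at h0
  exact sub_eq_zero.1 h0

end Pool.Agent.CMF.AlgBX

namespace Pool.Agent.CMF

/-- Division by monic polynomials all of whose roots are roots of unity. -/
theorem monic_div (R : Subring ℂ) (s : Finset ℕ) (j : ℕ → ℕ) (hj : ∀ i ∈ s, 0 < j i)
    (p : Polynomial R)
    (hp : p ≠ 0)
    (h : ∀ u : ℂ, (∃ m : ℕ, 0 < m ∧ u ^ m = 1) →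
      (∏ i ∈ s, (Polynomial.X ^ j i - 1 : Polynomial ℂ)).rootMultiplicity u ≤
        (p.map R.subtype).rootMultiplicity u) :
    (∏ i ∈ s, (Polynomial.X ^ j i - 1 : Polynomial R)) ∣ p := by
  have hinj : Function.Injective R.subtype := Subtype.val_injective
  have hmon : (∏ i ∈ s, (Polynomial.X ^ j i - 1 : Polynomial R)).Monic :=
    AlgBX.prod_monic s j hj
  have hmonC : (∏ i ∈ s, (Polynomial.X ^ j i - 1 : Polynomial ℂ)).Monic :=
    AlgBX.prod_monic s j hj
  have hp' : p.map R.subtype ≠ 0 := by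
    rwa [Ne, Polynomial.map_eq_zero_iff hinj]
  rw [← Polynomial.map_dvd_map R.subtype hinj hmon, AlgBX.prod_map,
    IsAlgClosed.dvd_iff_roots_le_roots hmonC.ne_zero hp', Multiset.le_iff_count]
  intro u
  rw [Polynomial.count_roots, Polynomial.count_roots]
  by_cases hu : ∃ m : ℕ, 0 < m ∧ u ^ m = 1
  · exact h u hu
  · rw [AlgBX.mult_zero s j hj u hu]
    exact Nat.zero_le _

end Pool.Agent.CMF
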