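import Mathlib

/-!
# CMF-AlgC: integral solutions of linear systems

Complex solutions of a system of linear equations with integral coefficients are combinations of
integral solutions; there is an integral vector avoiding finitely many hyperplanes.
-/

namespace Pool.Agent.CMF

namespace AlgCX

/-- A finite family of rational numbers has a common denominator. -/
theorem common_den {ι κ : Type} [Fintype ι] [Fintype κ] (q : ι → κ → ℚ) :
    ∃ N : ℕ, N ≠ 0 ∧ ∀ i j, ∃ z : ℤ, (z : ℚ) = (N : ℚ) * q i j := by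
  refine ⟨∏ i, ∏ j, (q i j).den, ?_, ?_⟩
  · exact Finset.prod_ne_zero_iff.2 fun i _ => Finset.prod_ne_zero_iff.2 fun j _ =>
      (q i j).den_nz
  · intro i j
    have h1 : (q i j).den ∣ ∏ j, (q i j).den :=
      Finset.dvd_prod_of_mem (fun j => (q i j).den) (Finset.mem_univ j)
    have h2 : ∏ j, (q i j).den ∣ ∏ i, ∏ j, (q i j).den :=
      Finset.dvd_prod_of_mem (fun i => ∏ j, (q i j).den) (Finset.mem_univ i)
    obtain ⟨k, hk⟩ := h1.trans h2
    refine ⟨(k : ℤ) * (q i j).num, ?_⟩
    rw [hk]
    have h3 : ((q i j).den : ℚ) * q i j = ((q i j).num : ℚ) := Rat.den_mul_eq_num (q i j)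
    push_cast
    rw [← h3]
    ring

theorem avoid_finset {J' : Type} [Fintype J'] (s : Finset (J' → ℤ)) (h0 : ∀ a ∈ s, a ≠ 0) :
    ∃ l : J' → ℤ, ∀ a ∈ s, ∑ i, a i * l i ≠ 0 := by
  classical
  induction s using Finset.induction_on with
  | empty => exact ⟨0, fun a ha => absurd ha (Finset.notMem_empty a)⟩
  | insert a s has ih =>
    obtain ⟨l, hl⟩ := ih fun b hb => h0 b (Finset.mem_insert_of_mem hb)
    by_cases hal : ∑ i, a i * l i = 0
    · set N : ℤ := 1 + ∑ b ∈ s, |∑ i, b i * a i| with hN
      have hN1 : 1 ≤ N := by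
        have : 0 ≤ ∑ b ∈ s, |∑ i, b i * a i| := Finset.sum_nonneg fun b _ => abs_nonneg _
        omega
      have hNb : ∀ b ∈ s, |∑ i, b i * a i| < N := by
        intro b hb
        have := Finset.single_le_sum (f := fun b => |∑ i, b i * a i|)
          (fun b _ => abs_nonneg _) hb
        omega
      have key : ∀ b : J' → ℤ, ∑ i, b i * (N * l i + a i) =
          N * ∑ i, b i * l i + ∑ i, b i * a i := by
        intro b
        rw [Finset.mul_sum, ← Finset.sum_add_distrib]
        exact Finset.sum_congr rfl fun i _ => by ring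
      refine ⟨fun i => N * l i + a i, ?_⟩
      intro b hb
      rw [key b]
      rcases Finset.mem_insert.1 hb with rfl | hb
      · rw [hal, mul_zero, zero_add]
        have hb0 : b ≠ 0 := h0 b (Finset.mem_insert_self b s)
        obtain ⟨i, hi⟩ := Function.ne_iff.1 hb0
        refine ne_of_gt (Finset.sum_pos' (fun i _ => mul_self_nonneg (b i))
          ⟨i, Finset.mem_univ i, ?_⟩)
        exact mul_self_pos.2 hi
      · intro h
        have h1 := hl b hb
        have h2 := hNb b hb
        have h3 : ∑ i, b i * a i = -(N * ∑ i, b i * l i) := by linarith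
        rw [h3, abs_neg, abs_mul, abs_of_nonneg (by omega : (0 : ℤ) ≤ N)] at h2
        have h4 : 1 ≤ |∑ i, b i * l i| := Int.one_le_abs h1
        nlinarith
    · refine ⟨l, ?_⟩
      intro b hb
      rcases Finset.mem_insert.1 hb with rfl | hb
      · exact hal
      · exact hl b hb

end AlgCX

/-- Complex solutions of an integral linear system are combinations of integral solutions. -/
theorem int_solutions {J' : Type} [Fintype J'] (A : Set (J' → ℤ)) (x : J' → ℂ)
    (hx : ∀ a ∈ A, ∑ i, (a i : ℂ) * x i = 0) :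
    ∃ (r : ℕ) (b : Fin r → J' → ℤ) (c : Fin r → ℂ),
      (∀ j, ∀ a ∈ A, ∑ i, a i * b j i = 0) ∧ ∀ i, x i = ∑ j, c j * (b j i : ℂ) := by
  classical
  set W : Submodule ℚ ℂ := Submodule.span ℚ (Set.range x) with hW
  have : FiniteDimensional ℚ W := FiniteDimensional.span_of_finite ℚ (Set.finite_range x)
  set bas := Module.finBasis ℚ W with hbas
  set y : J' → W := fun i => ⟨x i, Submodule.subset_span ⟨i, rfl⟩⟩ with hy
  set q : J' → Fin (Module.finrank ℚ W) → ℚ := fun i j => bas.repr (y i) j with hq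
  have hxi : ∀ i, x i = ∑ j, (q i j : ℂ) * (bas j : ℂ) := by
    intro i
    have h := congrArg (Subtype.val : W → ℂ) (bas.sum_repr (y i))
    rw [AddSubmonoidClass.coe_finsetSum] at h
    have h2 : x i = ((y i : W) : ℂ) := rfl
    rw [h2, ← h]
    refine Finset.sum_congr rfl fun j _ => ?_
    rw [Submodule.coe_smul, Rat.smul_def]
  have hqa : ∀ a ∈ A, ∀ j, ∑ i, (a i : ℚ) * q i j = 0 := by
    intro a ha j
    have h1 : ∑ i, (a i : ℚ) • y i = 0 := by
      apply Subtype.ext
      rw [AddSubmonoidClass.coe_finsetSum, Submodule.coe_zero, ← hx a ha]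
      refine Finset.sum_congr rfl fun i _ => ?_
      rw [Submodule.coe_smul, Rat.smul_def, Rat.cast_intCast]
    have h2 := congrArg (fun v => bas.repr v j) h1
    simp only [map_sum, map_smul, map_zero, Finsupp.coe_finsetSum, Finset.sum_apply,
      Finsupp.smul_apply, smul_eq_mul, Finsupp.coe_zero, Pi.zero_apply] at h2
    exact h2
  obtain ⟨N, hN0, hN⟩ := AlgCX.common_den q
  choose z hz using hN
  have hN0' : (N : ℂ) ≠ 0 := Nat.cast_ne_zero.2 hN0
  refine ⟨Module.finrank ℚ W, fun j i => z i j, fun j => (bas j : ℂ) / (N : ℂ), ?_, ?_⟩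
  · intro j a ha
    have h1 : ((∑ i, a i * z i j : ℤ) : ℚ) = 0 := by
      push_cast
      calc ∑ i, (a i : ℚ) * (z i j : ℚ) = (N : ℚ) * ∑ i, (a i : ℚ) * q i j := by
            rw [Finset.mul_sum]
            refine Finset.sum_congr rfl fun i _ => ?_
            rw [hz]
            ring
        _ = 0 := by rw [hqa a ha j, mul_zero]
    exact_mod_cast h1
  · intro i
    rw [hxi i]
    refine Finset.sum_congr rfl fun j _ => ?_
    have h1 : ((z i j : ℤ) : ℂ) = (N : ℂ) * (q i j : ℂ) := by
      have := congrArg (fun t : ℚ => (t : ℂ)) (hz i j)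
      push_cast at this
      exact this
    simp only
    rw [h1]
    field_simp

/-- An integral vector avoiding finitely many hyperplanes. -/
theorem exists_avoid {J' : Type} [Fintype J'] (A : Set (J' → ℤ)) (hA : A.Finite)
    (h0 : ∀ a ∈ A, a ≠ 0) : ∃ l : J' → ℤ, ∀ a ∈ A, ∑ i, a i * l i ≠ 0 := by
  obtain ⟨l, hl⟩ := AlgCX.avoid_finset hA.toFinset fun a ha => h0 a (hA.mem_toFinset.1 ha)
  exact ⟨l, fun a ha => hl a (hA.mem_toFinset.2 ha)⟩

end Pool.Agent.CMF
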