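import Pool.Agent.CMF.DDefs
import Pool.Agent.CMF.Braid

/-! Project CMF: braid reflections. -/

namespace Pool.Agent.CMF

open Matrix Complex

variable {N : SG} [Fintype N] {v₀ : VReg N}

/-- `b` is a braid reflection around the reflecting line `H`: `s` is the distinguished
reflection of `H` (determinant `exp(2πi/e_H)`), `x = h + ν` with `0 ≠ h ∈ H`, `s ν = det(s) ν`, no other
reflecting line meets the disc `{h + zν : |z| ≤ 1}`, and `b` is the class of `(s, p · a · s(p⁻¹))`,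
`p` a path from `v₀` to `x` and `a t = h + exp(2πit/e_H) ν`. -/
def IsBraidRefl (H : Arr N) (b : Braid N v₀) : Prop :=
  ∃ (s : N) (_ : ∀ v ∈ H.1, s.1.1 *ᵥ v = v)
    (_ : s.1.1.det = exp (2 * Real.pi * I / eH N H.1))
    (h ν : Fin 2 → ℂ) (_ : h ∈ H.1) (_ : h ≠ 0)
    (_ : s.1.1 *ᵥ ν = exp (2 * Real.pi * I / eH N H.1) • ν)
    (x : VReg N) (_ : x.1 = h + ν)
    (_ : ∀ z : ℂ, 0 < ‖z‖ → ‖z‖ ≤ 1 → ∀ g ∈ N, IsRefl g → g.1 *ᵥ (h + z • ν) ≠ h + z • ν)
    (p : Path v₀ x) (a : Path x (s • x))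
    (_ : ∀ t : unitInterval, (a t).1 = h + exp (2 * Real.pi * I * (t : ℝ) / eH N H.1) • ν),
    b = Quotient.mk _ (BPath.ofPath s
      ((p.trans a).trans ((p.symm).map (continuous_const_smul s))))

end Pool.Agent.CMF
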