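import Pool.Agent.CMF.LDefs

/-! Project CMF, module BaireA: closure properties of `LineHol`, identity theorem, and the
density of the common non-vanishing set of countably many functions. -/

namespace Pool.Agent.CMF

open Matrix

variable {P : Type} [NormedAddCommGroup P] [NormedSpace ℂ P]

theorem LineHol.const (c : ℂ) : LineHol (fun _ : P => c) :=
  ⟨continuous_const, fun _ _ => differentiable_const c⟩

theorem LineHol.add {f g : P → ℂ} (hf : LineHol f) (hg : LineHol g) :
    LineHol (fun x => f x + g x) :=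
  ⟨hf.1.add hg.1, fun k k' => (hf.2 k k').add (hg.2 k k')⟩

theorem LineHol.mul {f g : P → ℂ} (hf : LineHol f) (hg : LineHol g) :
    LineHol (fun x => f x * g x) :=
  ⟨hf.1.mul hg.1, fun k k' => (hf.2 k k').mul (hg.2 k k')⟩

theorem LineHol.sum {ι : Type} (s : Finset ι) {f : ι → P → ℂ} (hf : ∀ i ∈ s, LineHol (f i)) :
    LineHol (fun x => ∑ i ∈ s, f i x) := by
  classical
  induction s using Finset.induction_on with
  | empty => simpa using LineHol.const (P := P) 0
  | insert a s ha ih =>
    simp only [Finset.sum_insert ha]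
    exact (hf a (Finset.mem_insert_self a s)).add
      (ih fun i hi => hf i (Finset.mem_insert_of_mem hi))

theorem LineHol.prod {ι : Type} (s : Finset ι) {f : ι → P → ℂ} (hf : ∀ i ∈ s, LineHol (f i)) :
    LineHol (fun x => ∏ i ∈ s, f i x) := by
  classical
  induction s using Finset.induction_on with
  | empty => simpa using LineHol.const (P := P) 1
  | insert a s ha ih =>
    simp only [Finset.prod_insert ha]
    exact (hf a (Finset.mem_insert_self a s)).mul
      (ih fun i hi => hf i (Finset.mem_insert_of_mem hi))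

theorem LineHol.clm (f : P →L[ℂ] ℂ) : LineHol (fun x => f x) :=
  ⟨f.continuous, fun k k' => f.differentiable.comp
    ((differentiable_const k).add (differentiable_id.smul_const k'))⟩

theorem LineHol.exp {f : P → ℂ} (hf : LineHol f) : LineHol (fun x => Complex.exp (f x)) :=
  ⟨Complex.continuous_exp.comp hf.1, fun k k' => (hf.2 k k').cexp⟩

/-- Composition with an affine map. -/
theorem LineHol.comp_affine {P' : Type} [NormedAddCommGroup P'] [NormedSpace ℂ P'] {f : P → ℂ}
    (hf : LineHol f) (L : P' →L[ℂ] P) (c : P) : LineHol (fun x => f (L x + c)) := by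
  refine ⟨hf.1.comp (L.continuous.add continuous_const), fun k k' => ?_⟩
  have h := hf.2 (L k + c) (L k')
  have h2 : (fun s : ℂ => f (L (k + s • k') + c)) = fun s : ℂ => f (L k + c + s • L k') := by
    funext s
    rw [map_add, map_smul]
    congr 1
    abel
  rw [h2]
  exact h

/-- Determinants. -/
theorem LineHol.det {n : Type} [Fintype n] [DecidableEq n] {M : P → Matrix n n ℂ}
    (hM : ∀ i j, LineHol (fun x => M x i j)) : LineHol (fun x => (M x).det) := by
  simp only [Matrix.det_apply]
  refine LineHol.sum _ fun σ _ => ?_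
  have h1 : (fun x => Equiv.Perm.sign σ • ∏ i, M x (σ i) i)
      = fun x => (((Equiv.Perm.sign σ : ℤˣ) : ℤ) : ℂ) * ∏ i, M x (σ i) i := by
    funext x
    rw [Units.smul_def, zsmul_eq_mul]
  rw [h1]
  exact (LineHol.const _).mul (LineHol.prod _ fun i _ => hM _ _)

/-- Identity theorem. -/
theorem LineHol.eq_zero_of_eventually {f : P → ℂ} (hf : LineHol f) (x₀ : P)
    (h : ∀ᶠ x in nhds x₀, f x = 0) : ∀ x, f x = 0 := by
  intro x
  have hg : AnalyticOnNhd ℂ (fun s : ℂ => f (x₀ + s • (x - x₀))) Set.univ :=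
    fun s _ => (hf.2 x₀ (x - x₀)).analyticAt s
  have h0 : (fun s : ℂ => f (x₀ + s • (x - x₀))) =ᶠ[nhds 0] 0 := by
    have hc : Filter.Tendsto (fun s : ℂ => x₀ + s • (x - x₀)) (nhds 0) (nhds x₀) := by
      have h1 : Continuous fun s : ℂ => x₀ + s • (x - x₀) := by fun_prop
      have h2 := h1.tendsto 0
      simpa using h2
    exact hc.eventually h
  have h3 := hg.eqOn_zero_of_preconnected_of_eventuallyEq_zero isPreconnected_univ
    (Set.mem_univ 0) h0 (Set.mem_univ (1 : ℂ))
  simpa using h3

theorem dense_generic [CompleteSpace P] {J : Type} [Countable J] (f : J → P → ℂ)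
    (hf : ∀ j, LineHol (f j)) (hne : ∀ j, ∃ x, f j x ≠ 0) : Dense {x | ∀ j, f j x ≠ 0} := by
  have ho : ∀ j, IsOpen {x | f j x ≠ 0} := fun j => isOpen_ne_fun (hf j).1 continuous_const
  have hd : ∀ j, Dense {x | f j x ≠ 0} := by
    intro j
    rw [dense_iff_inter_open]
    intro U hU hUne
    by_contra hcon
    obtain ⟨x₀, hx₀⟩ := hUne
    obtain ⟨y, hy⟩ := hne j
    refine hy ((hf j).eq_zero_of_eventually x₀ ?_ y)
    filter_upwards [hU.mem_nhds hx₀] with x hx
    by_contra hx2
    exact hcon ⟨x, hx, hx2⟩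
  have h := dense_iInter_of_isOpen ho hd
  have h2 : (⋂ j, {x | f j x ≠ 0}) = {x | ∀ j, f j x ≠ 0} := by
    ext x; simp
  rw [← h2]
  exact h

end Pool.Agent.CMF
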