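import Mathlib

namespace Pool.Agent.CMF

namespace BaireBX

/-- The character `x ↦ exp (c ∑ a_i x_i)`. -/
noncomputable def chr {J' : Type} [Fintype J'] (c : ℂ) (a : J' → ℤ) :
    Multiplicative (J' → ℂ) →* ℂ where
  toFun x := Complex.exp (c * ∑ i, (a i : ℂ) * (Multiplicative.toAdd x) i)
  map_one' := by simp
  map_mul' x y := by
    rw [← Complex.exp_add]
    congr 1
    rw [← mul_add, ← Finset.sum_add_distrib]
    congr 1
    apply Finset.sum_congr rfl
    intro i _
    rw [toAdd_mul, Pi.add_apply, mul_add]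

theorem chr_apply {J' : Type} [Fintype J'] (c : ℂ) (a : J' → ℤ) (x : J' → ℂ) :
    chr c a (Multiplicative.ofAdd x) = Complex.exp (c * ∑ i, (a i : ℂ) * x i) := rfl

theorem chr_injective {J' : Type} [Fintype J'] (c : ℂ) (hc : c ≠ 0) :
    Function.Injective (chr (J' := J') c) := by
  classical
  intro a b hab
  funext i
  by_contra hne
  have hd : ((a i : ℂ) - (b i : ℂ)) ≠ 0 := by
    intro h
    apply hne
    have h2 : (a i : ℂ) = (b i : ℂ) := sub_eq_zero.mp h
    exact_mod_cast h2
  have key : ∀ t : ℂ, Complex.exp (c * ((a i : ℂ) * t)) = Complex.exp (c * ((b i : ℂ) * t)) := by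
    intro t
    have h := congrArg (fun f => f (Multiplicative.ofAdd (Pi.single i t : J' → ℂ))) hab
    simp only [chr_apply] at h
    have e : ∀ d : J' → ℤ, (∑ j, (d j : ℂ) * (Pi.single i t : J' → ℂ) j) = (d i : ℂ) * t := by
      intro d
      rw [Finset.sum_eq_single i]
      · rw [Pi.single_eq_same]
      · intro j _ hj
        rw [Pi.single_eq_of_ne hj, mul_zero]
      · intro h
        exact absurd (Finset.mem_univ i) h
    rw [e a, e b] at h
    exact h
  have h1 := key (1 / (c * ((a i : ℂ) - (b i : ℂ))))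
  have h2 : Complex.exp 1 = 1 := by
    have h3 : (1 : ℂ) = c * ((a i : ℂ) * (1 / (c * ((a i : ℂ) - (b i : ℂ))))) -
        c * ((b i : ℂ) * (1 / (c * ((a i : ℂ) - (b i : ℂ))))) := by
      field_simp
    rw [h3, Complex.exp_sub, h1, div_self (Complex.exp_ne_zero _)]
    exact h3
  have h4 : (1 : ℝ) = 0 := by
    have h6 : Real.exp 1 = 1 := by
      have : ((Real.exp 1 : ℝ) : ℂ) = ((1 : ℝ) : ℂ) := by
        push_cast
        exact h2
      exact_mod_cast this
    exact (Real.exp_eq_one_iff 1).mp h6
  exact one_ne_zero h4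

end BaireBX

/-- Exponentials of rationally independent integral linear forms are algebraically independent:
a non-zero Laurent polynomial does not vanish identically. -/
theorem exists_laurent_ne_zero {J' : Type} [Fintype J'] (c : ℂ) (hc : c ≠ 0)
    (p : (J' → ℤ) →₀ ℂ) (hp : p ≠ 0) :
    ∃ x : J' → ℂ, p.sum (fun a z => z * Complex.exp (c * ∑ i, (a i : ℂ) * x i)) ≠ 0 := by
  classical
  by_contra hcon
  have hall : ∀ x : J' → ℂ,
      p.sum (fun a z => z * Complex.exp (c * ∑ i, (a i : ℂ) * x i)) = 0 := by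
    intro x
    by_contra h
    exact hcon ⟨x, h⟩
  apply hp
  have hli : LinearIndependent ℂ
      (fun a : J' → ℤ => ((BaireBX.chr c a : Multiplicative (J' → ℂ) →* ℂ) :
        Multiplicative (J' → ℂ) → ℂ)) :=
    (linearIndependent_monoidHom (Multiplicative (J' → ℂ)) ℂ).comp (BaireBX.chr c)
      (BaireBX.chr_injective c hc)
  rw [linearIndependent_iff] at hli
  apply hli p
  funext x
  rw [Finsupp.linearCombination_apply, Finsupp.sum_apply']
  have h := hall (Multiplicative.toAdd x)
  rw [Pi.zero_apply, ← h]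
  rfl

end Pool.Agent.CMF
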