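import Pool.Agent.CMF.Dun

/-! Project CMF, module CM1: from a central idempotent of the restricted rational Cherednik
algebra to a separating word of degree zero. -/

namespace Pool.Agent.CMF

open Matrix

noncomputable section

namespace CM1X

lemma evP_map {K A B : Type} [Field K] [Ring A] [Algebra K A] [Ring B] [Algebra K B]
    (φ : A →ₐ[K] B) (a : Fin 2 → A) (p : MvPolynomial (Fin 2) K) :
    φ (evP a p) = evP (fun i => φ (a i)) p := by
  unfold evP
  rw [map_sum]
  refine Finset.sum_congr rfl fun m _ => ?_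
  rw [map_mul, map_mul, map_pow, map_pow, AlgHom.commutes]

lemma exists_evHom {A : Type} [Ring A] [Algebra ℂ A] (a : Fin 2 → A) (h : a 0 * a 1 = a 1 * a 0) :
    ∃ φ : MvPolynomial (Fin 2) ℂ →ₐ[ℂ] A, (∀ i, φ (MvPolynomial.X i) = a i) ∧
      ∀ p, evP a p = φ p := by
  have hc : ∀ x ∈ Set.range a, ∀ y ∈ Set.range a, x * y = y * x := by
    rintro _ ⟨i, rfl⟩ _ ⟨j, rfl⟩
    fin_cases i <;> fin_cases j <;> simp [h]
  have hm := Algebra.isMulCommutative_adjoin ℂ hc
  let cr : CommRing (Algebra.adjoin ℂ (Set.range a)) :=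
    { (inferInstance : Ring (Algebra.adjoin ℂ (Set.range a))) with
      mul_comm := hm.is_comm.comm }
  let ψ : MvPolynomial (Fin 2) ℂ →ₐ[ℂ] Algebra.adjoin ℂ (Set.range a) :=
    MvPolynomial.aeval (fun i => ⟨a i, Algebra.subset_adjoin ⟨i, rfl⟩⟩)
  let φ : MvPolynomial (Fin 2) ℂ →ₐ[ℂ] A := (Algebra.adjoin ℂ (Set.range a)).val.comp ψ
  have h1 : ∀ i, φ (MvPolynomial.X i) = a i := by
    intro i; simp [φ, ψ]
  refine ⟨φ, h1, fun p => ?_⟩
  conv_rhs => rw [MvPolynomial.as_sum p, map_sum]
  unfold evP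
  refine Finset.sum_congr rfl fun m _ => ?_
  rw [MvPolynomial.monomial_eq, Finsupp.prod_fintype _ _ (fun i => pow_zero _),
    Fin.prod_univ_two, map_mul, map_mul, map_pow, map_pow, h1, h1]
  congr 1
  have : (MvPolynomial.C (MvPolynomial.coeff m p) : MvPolynomial (Fin 2) ℂ) =
    algebraMap ℂ _ (MvPolynomial.coeff m p) := rfl
  rw [this, AlgHom.commutes]

/-! ### Homogeneous parts -/

section parts

variable {ι : Type}

/-- Homogeneous parts of `E`-valued polynomials, degree in `ℤ`. -/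
def homZ (ι : Type) (m : ℤ) : Submodule ℂ (PolE ι) := if 0 ≤ m then homE ι m.toNat else ⊥

lemma homZ_nat (n : ℕ) : homZ ι (n : ℤ) = homE ι n := by
  unfold homZ
  rw [if_pos (Int.natCast_nonneg n), Int.toNat_natCast]

/-- The component of degree `n`. -/
def cmp (ι : Type) (n : ℕ) : PolE ι →ₗ[ℂ] PolE ι :=
  LinearMap.pi fun i => (MvPolynomial.homogeneousComponent n).comp (LinearMap.proj i)

lemma cmp_apply (n : ℕ) (f : PolE ι) (i : ι) :
    cmp ι n f i = MvPolynomial.homogeneousComponent n (f i) := rfl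

lemma cmp_homE (n m : ℕ) (f : PolE ι) (hf : f ∈ homE ι m) :
    cmp ι n f = if n = m then f else 0 := by
  funext i
  rw [cmp_apply, MvPolynomial.homogeneousComponent_of_mem (hf i)]
  split_ifs <;> rfl

lemma cmp_homZ (n : ℕ) (m : ℤ) (f : PolE ι) (hf : f ∈ homZ ι m) :
    cmp ι n f = if (n : ℤ) = m then f else 0 := by
  rcases lt_or_ge m 0 with hm | hm
  · have h0 : f = 0 := by
      unfold homZ at hf
      rw [if_neg (not_le.2 hm)] at hf
      simpa using hf
    rw [h0, map_zero]
    simp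
  · obtain ⟨k, rfl⟩ := Int.eq_ofNat_of_zero_le hm
    have hf' : f ∈ homE ι k := by rw [← homZ_nat]; exact hf
    rw [cmp_homE n k f hf']
    simp only [Int.natCast_inj]

lemma sum_cmp [Fintype ι] (f : PolE ι) : ∃ M : ℕ, f = ∑ n ∈ Finset.range M, cmp ι n f := by
  refine ⟨(Finset.univ.sup fun i => (f i).totalDegree) + 1, ?_⟩
  funext i
  rw [Finset.sum_apply]
  have h1 := MvPolynomial.sum_homogeneousComponent (f i)
  conv_lhs => rw [← h1]
  have h2 : (f i).totalDegree ≤ Finset.univ.sup fun i => (f i).totalDegree :=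
    Finset.le_sup (f := fun i => (f i).totalDegree) (Finset.mem_univ i)
  refine Finset.sum_subset (fun n hn => ?_) fun n _ hn => ?_
  · rw [Finset.mem_range] at hn ⊢; omega
  · apply MvPolynomial.homogeneousComponent_eq_zero
    rw [Finset.mem_range] at hn
    omega

end parts

/-! ### Degrees of words -/

section words

variable {N : SG} [Fintype N]

/-- The word `w` shifts the degree by `n`, for all representations and all parameters. -/
def IsHom (n : ℤ) (w : FA ℂ N) : Prop :=
  ∀ (d : ℕ) (ρ : N →* Matrix (Fin d) (Fin d) ℂ) (t : ℂ) (k : Idx N → ℂ) (m : ℤ),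
    ∀ f ∈ homZ (Fin d) m, act ρ t k w f ∈ homZ (Fin d) (m + n)

lemma act_X {ι : Type} [Fintype ι] [DecidableEq ι] (ρ : N →* Matrix ι ι ℂ) (t : ℂ)
    (k : Idx N → ℂ) (i : Fin 2) : act ρ t k (fX i) = xAct ι i := by
  unfold act fX
  rw [FreeAlgebra.lift_ι_apply]

lemma act_Y {ι : Type} [Fintype ι] [DecidableEq ι] (ρ : N →* Matrix ι ι ℂ) (t : ℂ)
    (k : Idx N → ℂ) (i : Fin 2) : act ρ t k (fY i) = dunkl ρ t k (Pi.single i 1) := by
  unfold act fY
  rw [FreeAlgebra.lift_ι_apply]

lemma act_T {ι : Type} [Fintype ι] [DecidableEq ι] (ρ : N →* Matrix ι ι ℂ) (t : ℂ)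
    (k : Idx N → ℂ) (g : N) : act ρ t k (fT g) = gAct ρ g := by
  unfold act fT
  rw [FreeAlgebra.lift_ι_apply]

lemma mem_homZ_neg {ι : Type} {m : ℤ} (hm : m < 0) {f : PolE ι} (hf : f ∈ homZ ι m) : f = 0 := by
  unfold homZ at hf
  rw [if_neg (not_le.2 hm)] at hf
  simpa using hf

lemma isHom_X (i : Fin 2) : IsHom (N := N) 1 (fX i) := by
  intro d ρ t k m f hf
  rw [act_X]
  rcases lt_or_ge m 0 with hm | hm
  · rw [mem_homZ_neg hm hf, map_zero]
    exact Submodule.zero_mem _
  · obtain ⟨j, rfl⟩ := Int.eq_ofNat_of_zero_le hm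
    have h1 : ((j : ℕ) : ℤ) + 1 = ((j + 1 : ℕ) : ℤ) := by push_cast; ring
    rw [h1, homZ_nat]
    rw [homZ_nat] at hf
    intro a
    have := (MvPolynomial.isHomogeneous_X ℂ i).mul (hf a)
    rw [add_comm] at this
    exact this

lemma isHom_Y (i : Fin 2) : IsHom (N := N) (-1) (fY i) := by
  intro d ρ t k m f hf
  rw [act_Y]
  rcases lt_or_ge m 0 with hm | hm
  · rw [mem_homZ_neg hm hf, map_zero]
    exact Submodule.zero_mem _
  · obtain ⟨j, rfl⟩ := Int.eq_ofNat_of_zero_le hm
    rw [homZ_nat] at hf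
    cases j with
    | zero =>
      rw [dunkl_deg0 ρ t k _ f hf]
      exact Submodule.zero_mem _
    | succ j =>
      have h1 : ((j + 1 : ℕ) : ℤ) + -1 = ((j : ℕ) : ℤ) := by push_cast; ring
      rw [h1, homZ_nat]
      exact dunkl_deg ρ t k _ j f hf

omit [Fintype N] in
lemma gAct_homE {ι : Type} [Fintype ι] [DecidableEq ι] (ρ : N →* Matrix ι ι ℂ) (g : N) (j : ℕ)
    (f : PolE ι) (hf : f ∈ homE ι j) : gAct ρ g f ∈ homE ι j := by
  intro a
  show MvPolynomial.IsHomogeneous (∑ b, MvPolynomial.C (ρ g a b) * MvPolynomial.bind₁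
    (fun a => ∑ b, MvPolynomial.C ((g⁻¹).1.1 a b) * MvPolynomial.X b) (f b)) j
  refine MvPolynomial.IsHomogeneous.sum _ _ _ fun b _ => ?_
  have h1 : MvPolynomial.IsHomogeneous (MvPolynomial.bind₁
    (fun a => ∑ b, MvPolynomial.C ((g⁻¹).1.1 a b) * MvPolynomial.X b) (f b)) (1 * j) := by
    refine MvPolynomial.IsHomogeneous.aeval (hf b) _ fun c => ?_
    refine MvPolynomial.IsHomogeneous.sum _ _ _ fun e _ => ?_
    have := (MvPolynomial.isHomogeneous_C (Fin 2) ((g⁻¹).1.1 c e)).mul
      (MvPolynomial.isHomogeneous_X ℂ e)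
    simpa using this
  have h2 := (MvPolynomial.isHomogeneous_C (Fin 2) (ρ g a b)).mul h1
  simpa using h2

lemma isHom_T (g : N) : IsHom (N := N) 0 (fT g) := by
  intro d ρ t k m f hf
  rw [act_T, add_zero]
  rcases lt_or_ge m 0 with hm | hm
  · rw [mem_homZ_neg hm hf, map_zero]
    exact Submodule.zero_mem _
  · obtain ⟨j, rfl⟩ := Int.eq_ofNat_of_zero_le hm
    rw [homZ_nat] at hf ⊢
    exact gAct_homE ρ g j f hf

/-- Every word is a finite sum of words which shift the degree by a constant. -/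
lemma exists_decomp (z : FA ℂ N) : ∃ (I : Type) (_ : Fintype I) (e : I → ℤ) (w : I → FA ℂ N),
    z = ∑ i, w i ∧ ∀ i, IsHom (e i) (w i) := by
  induction z using FreeAlgebra.induction with
  | grade0 r =>
    refine ⟨Unit, inferInstance, fun _ => 0, fun _ => algebraMap ℂ _ r, by simp, fun _ => ?_⟩
    intro d ρ t k m f hf
    rw [AlgHom.commutes, add_zero]
    have : (algebraMap ℂ (Module.End ℂ (PolE (Fin d))) r) f = r • f := by
      rw [Module.algebraMap_end_apply]
    rw [this]
    exact Submodule.smul_mem _ _ hf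
  | grade1 a =>
    refine ⟨Unit, inferInstance, fun _ => (match a with
      | Gen.X _ => 1
      | Gen.Y _ => -1
      | Gen.T _ => 0), fun _ => FreeAlgebra.ι ℂ a, by simp, fun _ => ?_⟩
    cases a with
    | X i => exact isHom_X i
    | Y i => exact isHom_Y i
    | T g => exact isHom_T g
  | mul a b ha hb =>
    obtain ⟨I, _, e, w, h1, h2⟩ := ha
    obtain ⟨J, _, e', w', h1', h2'⟩ := hb
    refine ⟨I × J, inferInstance, fun p => e' p.2 + e p.1, fun p => w p.1 * w' p.2, ?_, ?_⟩
    · rw [h1, h1', Finset.sum_mul_sum, Fintype.sum_prod_type]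
    · rintro ⟨i, j⟩ d ρ t k m f hf
      rw [map_mul, ← add_assoc]
      exact h2 i d ρ t k _ _ (h2' j d ρ t k m f hf)
  | add a b ha hb =>
    obtain ⟨I, _, e, w, h1, h2⟩ := ha
    obtain ⟨J, _, e', w', h1', h2'⟩ := hb
    refine ⟨I ⊕ J, inferInstance, Sum.elim e e', Sum.elim w w', ?_, ?_⟩
    · rw [h1, h1', Fintype.sum_sum_type]
      simp
    · rintro (i | j)
      · exact h2 i
      · exact h2' j

/-- The part of degree `0` of a word. -/
lemma exists_deg0 (z : FA ℂ N) : ∃ z₀ : FA ℂ N, IsHom 0 z₀ ∧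
    ∀ (d : ℕ) (ρ : N →* Matrix (Fin d) (Fin d) ℂ) (t : ℂ) (k : Idx N → ℂ) (m : ℕ),
      ∀ f ∈ homE (Fin d) m, cmp (Fin d) m (act ρ t k z f) = act ρ t k z₀ f := by
  classical
  obtain ⟨I, _, e, w, h1, h2⟩ := exists_decomp z
  refine ⟨∑ i, if e i = 0 then w i else 0, ?_, ?_⟩
  · intro d ρ t k m f hf
    rw [map_sum, LinearMap.sum_apply]
    refine Submodule.sum_mem _ fun i _ => ?_
    split_ifs with h
    · have := h2 i d ρ t k m f hf
      rw [h] at this
      exact this
    · rw [map_zero]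
      exact Submodule.zero_mem _
  · intro d ρ t k m f hf
    rw [h1, map_sum, map_sum, LinearMap.sum_apply, LinearMap.sum_apply, map_sum]
    refine Finset.sum_congr rfl fun i _ => ?_
    rw [cmp_homZ m _ _ (h2 i d ρ t k m f (by rw [homZ_nat]; exact hf))]
    by_cases h : e i = 0
    · rw [if_pos h, if_pos (by rw [h]; ring)]
    · rw [if_neg h, if_neg (by omega), map_zero]
      rfl

end words

/-! ### The submodule generated by the invariants without constant term -/

section IE

variable {N : SG} [Fintype N]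

/-- `E`-valued polynomials with components in the ideal generated by `ℂ[V]^N_+`. -/
def IE (N : SG) (ι : Type) : Submodule ℂ (PolE ι) :=
  Submodule.span ℂ {F | ∃ (p : MvPolynomial (Fin 2) ℂ) (f : PolE ι), InvX N p ∧
    F = fun i => p * f i}

/-- Substitution. -/
def sg (g : GL (Fin 2) ℂ) : MvPolynomial (Fin 2) ℂ →ₐ[ℂ] MvPolynomial (Fin 2) ℂ :=
  MvPolynomial.bind₁ (fun i => ∑ j, MvPolynomial.C (g.1 i j) * MvPolynomial.X j)

lemma eval_sg (g : GL (Fin 2) ℂ) (p : MvPolynomial (Fin 2) ℂ) (v : Fin 2 → ℂ) :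
    MvPolynomial.eval v (sg g p) = MvPolynomial.eval (g.1 *ᵥ v) p := by
  have h : (MvPolynomial.eval v).comp (sg g : MvPolynomial (Fin 2) ℂ →+* _) =
      MvPolynomial.eval (g.1 *ᵥ v) := by
    apply MvPolynomial.ringHom_ext
    · intro r
      simp [sg]
    · intro i
      fin_cases i <;> simp [sg, Matrix.mulVec, dotProduct]
  exact congrArg (fun φ : MvPolynomial (Fin 2) ℂ →+* ℂ => φ p) h

lemma inv_eval {p : MvPolynomial (Fin 2) ℂ} (hp : InvX N p) :
    ∀ g ∈ N, ∀ v : Fin 2 → ℂ, MvPolynomial.eval (g.1 *ᵥ v) p = MvPolynomial.eval v p := by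
  intro g hg v
  rw [← eval_sg]
  exact congrArg _ (hp.2 g hg)

lemma IE_X {ι : Type} (a : Fin 2) (f : PolE ι) (hf : f ∈ IE N ι) : xAct ι a f ∈ IE N ι := by
  unfold IE at hf
  induction hf using Submodule.span_induction with
  | mem F hF =>
    obtain ⟨p, f, hp, rfl⟩ := hF
    refine Submodule.subset_span ⟨p, xAct ι a f, hp, ?_⟩
    funext i
    show MvPolynomial.X a * (p * f i) = p * (MvPolynomial.X a * f i)
    ring
  | zero => rw [map_zero]; exact Submodule.zero_mem _
  | add x y _ _ hx hy => rw [map_add]; exact Submodule.add_mem _ hx hy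
  | smul c x _ hx => rw [map_smul]; exact Submodule.smul_mem _ _ hx

lemma IE_D {ι : Type} [Fintype ι] [DecidableEq ι] (ρ : N →* Matrix ι ι ℂ) (k : Idx N → ℂ)
    (y : Fin 2 → ℂ) (f : PolE ι) (hf : f ∈ IE N ι) : dunkl ρ 0 k y f ∈ IE N ι := by
  unfold IE at hf
  induction hf using Submodule.span_induction with
  | mem F hF =>
    obtain ⟨p, f, hp, rfl⟩ := hF
    rw [dunkl_inv ρ k y p (inv_eval hp) f]
    exact Submodule.subset_span ⟨p, dunkl ρ 0 k y f, hp, rfl⟩
  | zero => rw [map_zero]; exact Submodule.zero_mem _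
  | add x y _ _ hx hy => rw [map_add]; exact Submodule.add_mem _ hx hy
  | smul c x _ hx => rw [map_smul]; exact Submodule.smul_mem _ _ hx

lemma IE_g {ι : Type} [Fintype ι] [DecidableEq ι] (ρ : N →* Matrix ι ι ℂ) (g : N)
    (f : PolE ι) (hf : f ∈ IE N ι) : gAct ρ g f ∈ IE N ι := by
  unfold IE at hf
  induction hf using Submodule.span_induction with
  | mem F hF =>
    obtain ⟨p, f, hp, rfl⟩ := hF
    refine Submodule.subset_span ⟨p, gAct ρ g f, hp, ?_⟩
    funext i
    show ∑ j, MvPolynomial.C (ρ g i j) * (sg (g⁻¹).1) (p * f j) =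
      p * ∑ j, MvPolynomial.C (ρ g i j) * (sg (g⁻¹).1) (f j)
    rw [Finset.mul_sum]
    refine Finset.sum_congr rfl fun j _ => ?_
    have h1 : (sg (g⁻¹).1) p = p := hp.2 _ (g⁻¹).2
    rw [map_mul, h1]
    ring
  | zero => rw [map_zero]; exact Submodule.zero_mem _
  | add x y _ _ hx hy => rw [map_add]; exact Submodule.add_mem _ hx hy
  | smul c x _ hx => rw [map_smul]; exact Submodule.smul_mem _ _ hx

lemma IE_act {ι : Type} [Fintype ι] [DecidableEq ι] (ρ : N →* Matrix ι ι ℂ) (k : Idx N → ℂ)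
    (z : FA ℂ N) : ∀ f ∈ IE N ι, act ρ 0 k z f ∈ IE N ι := by
  induction z using FreeAlgebra.induction with
  | grade0 r =>
    intro f hf
    rw [AlgHom.commutes, Module.algebraMap_end_apply]
    exact Submodule.smul_mem _ _ hf
  | grade1 a =>
    intro f hf
    cases a with
    | X i => exact (act_X ρ 0 k i) ▸ IE_X i f hf
    | Y i => exact (act_Y ρ 0 k i) ▸ IE_D ρ k _ f hf
    | T g => exact (act_T ρ 0 k g) ▸ IE_g ρ g f hf
  | mul a b ha hb =>
    intro f hf
    rw [map_mul]
    exact ha _ (hb f hf)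
  | add a b ha hb =>
    intro f hf
    rw [map_add]
    exact Submodule.add_mem _ (ha f hf) (hb f hf)

/-- Multiplication by an invariant commutes with all words. -/
lemma act_inv {ι : Type} [Fintype ι] [DecidableEq ι] (ρ : N →* Matrix ι ι ℂ) (k : Idx N → ℂ)
    {p : MvPolynomial (Fin 2) ℂ} (hp : InvX N p) (z : FA ℂ N) :
    ∀ f : PolE ι, act ρ 0 k z (fun i => p * f i) = fun i => p * act ρ 0 k z f i := by
  induction z using FreeAlgebra.induction with
  | grade0 r =>
    intro f
    rw [AlgHom.commutes, Module.algebraMap_end_apply, Module.algebraMap_end_apply]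
    funext i
    simp only [Pi.smul_apply, mul_smul_comm]
  | grade1 a =>
    intro f
    cases a with
    | X i =>
      have h1 := act_X ρ 0 k i
      unfold fX at h1
      rw [h1]
      funext j
      show MvPolynomial.X i * (p * f j) = p * (MvPolynomial.X i * f j)
      ring
    | Y i =>
      have h1 := act_Y ρ 0 k i
      unfold fY at h1
      rw [h1]
      exact dunkl_inv ρ k _ p (inv_eval hp) f
    | T g =>
      have h1 := act_T ρ 0 k g
      unfold fT at h1
      rw [h1]
      funext i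
      show ∑ j, MvPolynomial.C (ρ g i j) * (sg (g⁻¹).1) (p * f j) =
        p * ∑ j, MvPolynomial.C (ρ g i j) * (sg (g⁻¹).1) (f j)
      rw [Finset.mul_sum]
      refine Finset.sum_congr rfl fun j _ => ?_
      have h1 : (sg (g⁻¹).1) p = p := hp.2 _ (g⁻¹).2
      rw [map_mul, h1]
      ring
  | mul a b ha hb =>
    intro f
    rw [map_mul]
    show act ρ 0 k a (act ρ 0 k b _) = fun i => p * act ρ 0 k a (act ρ 0 k b f) i
    rw [hb, ha]
  | add a b ha hb =>
    intro f
    rw [map_add]
    show act ρ 0 k a _ + act ρ 0 k b _ = fun i => p * (act ρ 0 k a f + act ρ 0 k b f) i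
    rw [ha, hb]
    funext i
    simp only [Pi.add_apply, mul_add]

/-- Homogeneous components of invariants are invariants. -/
lemma inv_comp {p : MvPolynomial (Fin 2) ℂ} (hp : InvX N p) (a : ℕ) :
    InvX N (MvPolynomial.homogeneousComponent a p) := by
  have hs : ∀ (g : GL (Fin 2) ℂ) (q : MvPolynomial (Fin 2) ℂ) (m : ℕ), q.IsHomogeneous m →
      (sg g q).IsHomogeneous m := by
    intro g q m hq
    have h1 : (sg g q).IsHomogeneous (1 * m) := by
      refine MvPolynomial.IsHomogeneous.aeval hq _ fun c => ?_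
      refine MvPolynomial.IsHomogeneous.sum _ _ _ fun e _ => ?_
      have := (MvPolynomial.isHomogeneous_C (Fin 2) (g.1 c e)).mul
        (MvPolynomial.isHomogeneous_X ℂ e)
      simpa using this
    simpa using h1
  refine ⟨?_, fun g hg => ?_⟩
  · rcases Nat.eq_zero_or_pos a with rfl | ha
    · rw [MvPolynomial.homogeneousComponent_zero, MvPolynomial.constantCoeff_C]
      exact hp.1
    · rw [MvPolynomial.constantCoeff_eq, MvPolynomial.coeff_homogeneousComponent, if_neg]
      simp
      omega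
  · show sg g (MvPolynomial.homogeneousComponent a p) = MvPolynomial.homogeneousComponent a p
    have h1 : MvPolynomial.homogeneousComponent a (sg g p) =
        sg g (MvPolynomial.homogeneousComponent a p) := by
      conv_lhs => rw [← MvPolynomial.sum_homogeneousComponent p, map_sum, map_sum]
      rw [Finset.sum_eq_single a]
      · rw [MvPolynomial.homogeneousComponent_of_mem
          (hs g _ a (MvPolynomial.homogeneousComponent_isHomogeneous a p)), if_pos rfl]
      · intro b _ hb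
        rw [MvPolynomial.homogeneousComponent_of_mem
          (hs g _ b (MvPolynomial.homogeneousComponent_isHomogeneous b p)), if_neg hb.symm]
      · intro ha
        rw [Finset.mem_range] at ha
        rw [MvPolynomial.homogeneousComponent_eq_zero a p (by omega), map_zero, map_zero]
    rw [← h1]
    congr 1
    exact hp.2 g hg

end IE


section quot

variable {N : SG} [Fintype N] {ι : Type} [Fintype ι] [DecidableEq ι]

/-- Constant vectors. -/
def cst (ι : Type) : (ι → ℂ) →ₗ[ℂ] PolE ι where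
  toFun u := fun i => MvPolynomial.C (u i)
  map_add' u v := by funext i; simp
  map_smul' c u := by
    funext i
    simp [MvPolynomial.smul_eq_C_mul]

omit [Fintype ι] [DecidableEq ι] in
lemma cst_homE (u : ι → ℂ) : cst ι u ∈ homE ι 0 := fun i =>
  MvPolynomial.isHomogeneous_C (Fin 2) (u i)

/-- A submodule containing the constants and stable under the `x_a` is everything. -/
lemma sub_top (S : Submodule ℂ (PolE ι)) (h0 : ∀ u, cst ι u ∈ S)
    (hx : ∀ a, ∀ f ∈ S, xAct ι a f ∈ S) (f : PolE ι) : f ∈ S := by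
  have h1 : ∀ (i : ι) (p : MvPolynomial (Fin 2) ℂ), (Pi.single i p : PolE ι) ∈ S := by
    intro i p
    induction p using MvPolynomial.induction_on with
    | C a =>
      have : (Pi.single i (MvPolynomial.C a) : PolE ι) = cst ι (Pi.single i a) := by
        funext j
        show _ = MvPolynomial.C ((Pi.single i a : ι → ℂ) j)
        rcases eq_or_ne j i with rfl | h
        · simp
        · simp [Pi.single_eq_of_ne h]
      rw [this]
      exact h0 _
    | add p q hp hq =>
      rw [Pi.single_add]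
      exact Submodule.add_mem _ hp hq
    | mul_X p a hp =>
      have : (Pi.single i (p * MvPolynomial.X a) : PolE ι) = xAct ι a (Pi.single i p) := by
        funext j
        show _ = MvPolynomial.X a * (Pi.single i p : PolE ι) j
        rcases eq_or_ne j i with rfl | h
        · simp [mul_comm]
        · simp [Pi.single_eq_of_ne h]
      rw [this]
      exact hx a _ hp
  have h2 : f = ∑ i, Pi.single i (f i) := by
    exact (Finset.univ_sum_single f).symm
  rw [h2]
  exact Submodule.sum_mem _ fun i _ => h1 i _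

/-- The action of words on the quotient by the invariants. -/
def actQ (ρ : N →* Matrix ι ι ℂ) (k : Idx N → ℂ) :
    FA ℂ N →ₐ[ℂ] Module.End ℂ (PolE ι ⧸ IE N ι) :=
  FreeAlgebra.lift ℂ fun a => (IE N ι).mapQ (IE N ι) (act ρ 0 k (FreeAlgebra.ι ℂ a))
    (IE_act ρ k (FreeAlgebra.ι ℂ a))

lemma actQ_mk (ρ : N →* Matrix ι ι ℂ) (k : Idx N → ℂ) (z : FA ℂ N) : ∀ f : PolE ι,
    actQ ρ k z (Submodule.Quotient.mk f) = Submodule.Quotient.mk (act ρ 0 k z f) := by
  induction z using FreeAlgebra.induction with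
  | grade0 r =>
    intro f
    rw [AlgHom.commutes, AlgHom.commutes, Module.algebraMap_end_apply, Module.algebraMap_end_apply]
    rfl
  | grade1 a =>
    intro f
    unfold actQ
    rw [FreeAlgebra.lift_ι_apply]
    rfl
  | mul a b ha hb =>
    intro f
    rw [map_mul, map_mul]
    show actQ ρ k a (actQ ρ k b _) = Submodule.Quotient.mk (act ρ 0 k a (act ρ 0 k b f))
    rw [hb, ha]
  | add a b ha hb =>
    intro f
    rw [map_add, map_add]
    show actQ ρ k a _ + actQ ρ k b _ = Submodule.Quotient.mk (act ρ 0 k a f + act ρ 0 k b f)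
    rw [hb, ha]
    rfl

lemma mulHom (p : MvPolynomial (Fin 2) ℂ) (φ : MvPolynomial (Fin 2) ℂ →ₐ[ℂ] Module.End ℂ (PolE ι))
    (h : ∀ i, φ (MvPolynomial.X i) = xAct ι i) : ∀ f : PolE ι, φ p f = fun i => p * f i := by
  induction p using MvPolynomial.induction_on with
  | C a =>
    intro f
    have h1 : (MvPolynomial.C a : MvPolynomial (Fin 2) ℂ) = algebraMap ℂ _ a := rfl
    rw [h1, AlgHom.commutes, Module.algebraMap_end_apply]
    funext i
    rw [Pi.smul_apply, Algebra.smul_def]
  | add p q hp hq =>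
    intro f
    rw [map_add, LinearMap.add_apply, hp, hq]
    funext i
    simp only [Pi.add_apply, add_mul]
  | mul_X p a hp =>
    intro f
    rw [map_mul, h, Module.End.mul_apply, hp]
    funext i
    show p * (MvPolynomial.X a * f i) = _
    ring

/-- Substitution on the other side. -/
def sd (g : GL (Fin 2) ℂ) : MvPolynomial (Fin 2) ℂ →ₐ[ℂ] MvPolynomial (Fin 2) ℂ :=
  MvPolynomial.bind₁ (fun i => ∑ j, MvPolynomial.C (g.1 j i) * MvPolynomial.X j)

/-- Equivariance. -/
lemma gAct_phi (ρ : N →* Matrix ι ι ℂ) (k : Idx N → ℂ)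
    (φ : MvPolynomial (Fin 2) ℂ →ₐ[ℂ] Module.End ℂ (PolE ι))
    (h : ∀ i, φ (MvPolynomial.X i) = dunkl ρ 0 k (Pi.single i 1)) (w : N)
    (p : MvPolynomial (Fin 2) ℂ) : gAct ρ w * φ p = φ (sd w.1 p) * gAct ρ w := by
  induction p using MvPolynomial.induction_on with
  | C a =>
    have h1 : (MvPolynomial.C a : MvPolynomial (Fin 2) ℂ) = algebraMap ℂ _ a := rfl
    rw [h1, AlgHom.commutes, AlgHom.commutes, AlgHom.commutes]
    exact (Algebra.commutes a (gAct ρ w)).symm
  | add p q hp hq =>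
    rw [map_add, map_add, map_add, mul_add, hp, hq, add_mul]
  | mul_X p a hp =>
    have h1 : w.1.1 *ᵥ (Pi.single a 1) = w.1.1 0 a • Pi.single 0 1 + w.1.1 1 a • Pi.single 1 1 := by
      funext i
      fin_cases i <;> simp
    have h2 : gAct ρ w * dunkl ρ 0 k (Pi.single a 1) =
        φ (sd w.1 (MvPolynomial.X a)) * gAct ρ w := by
      rw [gAct_dunkl, h1]
      have h3 : dunkl ρ 0 k (w.1.1 0 a • Pi.single 0 1 + w.1.1 1 a • Pi.single 1 1) =
          w.1.1 0 a • dunkl ρ 0 k (Pi.single 0 1) + w.1.1 1 a • dunkl ρ 0 k (Pi.single 1 1) := by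
        have h4 := dunkl_liny ρ 0 k (w.1.1 1 a) (Pi.single 1 1) 0
        have h5 : dunkl ρ 0 k 0 = 0 := by
          have := dunkl_liny ρ 0 k (-1) 0 0
          simpa using this
        rw [h5, add_zero, add_zero] at h4
        rw [dunkl_liny, h4]
      rw [h3]
      unfold sd
      rw [MvPolynomial.bind₁_X_right, Fin.sum_univ_two, map_add, map_mul, map_mul]
      have h6 : ∀ c : ℂ, φ (MvPolynomial.C c) = algebraMap ℂ _ c := fun c => φ.commutes c
      rw [h6, h6, h, h, ← Algebra.smul_def, ← Algebra.smul_def]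
    rw [map_mul, h, ← mul_assoc, hp, mul_assoc, h2, map_mul, map_mul, mul_assoc]

end quot


/-- A 2×2 matrix of determinant zero and not zero has rank one. -/
lemma rank_one (M : Matrix (Fin 2) (Fin 2) ℂ) (h0 : M ≠ 0) (hd : M.det = 0) :
    ∃ v α : Fin 2 → ℂ, v ≠ 0 ∧ ∀ j i, M j i = v j * α i := by
  have h1 : ∃ j₀ i₀, M j₀ i₀ ≠ 0 := by
    by_contra h
    push Not at h
    exact h0 (by ext i j; exact h i j)
  obtain ⟨j₀, i₀, h2⟩ := h1
  rw [Matrix.det_fin_two] at hd
  refine ⟨fun j => M j i₀, fun i => M j₀ i / M j₀ i₀, ?_, ?_⟩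
  · intro h
    exact h2 (congrFun h j₀)
  · intro j i
    rw [mul_div_assoc', eq_div_iff h2]
    fin_cases j <;> fin_cases i <;> fin_cases j₀ <;> fin_cases i₀ <;>
      simp at h2 hd ⊢ <;> first | ring1 | linear_combination hd | linear_combination -hd

section inv

variable {N : SG} [Fintype N] {ι : Type} [Fintype ι] [DecidableEq ι]

lemma comm_x (ρ : N →* Matrix ι ι ℂ) (k : Idx N → ℂ)
    (φ : MvPolynomial (Fin 2) ℂ →ₐ[ℂ] Module.End ℂ (PolE ι))
    (h : ∀ i, φ (MvPolynomial.X i) = dunkl ρ 0 k (Pi.single i 1)) (a : Fin 2)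
    (V A : N → Fin 2 → ℂ) (hVA : ∀ w : N, IsRefl w.1 → ∀ j i, (1 - w.1.1) j i = V w j * A w i)
    (p : MvPolynomial (Fin 2) ℂ) :
    ∃ q : N → MvPolynomial (Fin 2) ℂ,
      (∀ f, φ p (xAct ι a f) = xAct ι a (φ p f) + ∑ w, cK k w • φ (q w) (gAct ρ w f)) ∧
      ∀ w : N, IsRefl w.1 → (∑ j, MvPolynomial.C (V w j) * MvPolynomial.X j) * q w =
        MvPolynomial.C (V w a / (1 - w.1.1.det)) * (p - sd w.1 p) := by
  induction p using MvPolynomial.induction_on with
  | C c =>
    refine ⟨fun _ => 0, fun f => ?_, fun w _ => ?_⟩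
    · have h1 : (MvPolynomial.C c : MvPolynomial (Fin 2) ℂ) = algebraMap ℂ _ c := rfl
      rw [h1, AlgHom.commutes, Module.algebraMap_end_apply, Module.algebraMap_end_apply, map_smul]
      simp
    · unfold sd
      simp
  | add p q hp hq =>
    obtain ⟨q₁, h1, h2⟩ := hp
    obtain ⟨q₂, h3, h4⟩ := hq
    refine ⟨fun w => q₁ w + q₂ w, fun f => ?_, fun w hw => ?_⟩
    · rw [map_add, LinearMap.add_apply, LinearMap.add_apply, h1, h3, map_add]
      simp only [map_add, LinearMap.add_apply, smul_add, Finset.sum_add_distrib]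
      abel
    · rw [mul_add, h2 w hw, h4 w hw, map_add]
      ring
  | mul_X p i hp =>
    obtain ⟨q, h1, h2⟩ := hp
    refine ⟨fun w => q w * sd w.1 (MvPolynomial.X i) +
      MvPolynomial.C (((1 - w.1.1) *ᵥ (Pi.single i 1)) a / (1 - w.1.1.det)) * p,
      fun f => ?_, fun w hw => ?_⟩
    · rw [map_mul, h, Module.End.mul_apply, Module.End.mul_apply, dunkl_x, zero_mul, zero_smul,
        add_zero, map_add, h1, add_assoc, map_sum, ← Finset.sum_add_distrib]
      congr 1
      refine Finset.sum_congr rfl fun w _ => ?_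
      rw [map_smul, map_add, LinearMap.add_apply, smul_add]
      have h5 : gAct ρ w (dunkl ρ 0 k (Pi.single i 1) f) =
          φ (sd w.1 (MvPolynomial.X i)) (gAct ρ w f) := by
        have := gAct_phi ρ k φ h w (MvPolynomial.X i)
        rw [h] at this
        exact congrArg (fun B : Module.End ℂ (PolE ι) => B f) this
      have h6 : ∀ c : ℂ, φ (MvPolynomial.C c) = algebraMap ℂ _ c := fun c => φ.commutes c
      rw [h5, map_mul, map_mul, h6, Module.End.mul_apply, Module.End.mul_apply,
        Module.algebraMap_end_apply, smul_smul]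
    · have h7 : ((1 - w.1.1) *ᵥ (Pi.single i 1)) a = V w a * A w i := by
        rw [← hVA w hw a i]
        simp
      have h8 : (∑ j, MvPolynomial.C (V w j) * MvPolynomial.X j) * MvPolynomial.C (A w i) =
          (MvPolynomial.X i : MvPolynomial (Fin 2) ℂ) - sd w.1 (MvPolynomial.X i) := by
        unfold sd
        rw [MvPolynomial.bind₁_X_right, Fin.sum_univ_two, Fin.sum_univ_two]
        have h9 := hVA w hw 0 i
        have h10 := hVA w hw 1 i
        have h11 : (MvPolynomial.C (V w 0) * MvPolynomial.X 0 +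
            MvPolynomial.C (V w 1) * MvPolynomial.X 1) * MvPolynomial.C (A w i) =
            (MvPolynomial.C (V w 0 * A w i) * MvPolynomial.X 0 +
            MvPolynomial.C (V w 1 * A w i) * MvPolynomial.X 1 : MvPolynomial (Fin 2) ℂ) := by
          rw [map_mul, map_mul]
          ring
        rw [h11, ← h9, ← h10]
        fin_cases i <;> simp [sub_mul] <;> ring
      beta_reduce
      rw [h7, map_mul]
      have h12 := h2 w hw
      have h13 : (MvPolynomial.C (V w a * A w i / (1 - w.1.1.det)) : MvPolynomial (Fin 2) ℂ) =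
          MvPolynomial.C (V w a / (1 - w.1.1.det)) * MvPolynomial.C (A w i) := by
        rw [← map_mul]
        congr 1
        ring
      rw [h13]
      linear_combination (sd w.1 (MvPolynomial.X i)) * h12 +
        (MvPolynomial.C (V w a / (1 - w.1.1.det)) * p) * h8

end inv


section inv

variable {N : SG} [Fintype N] {ι : Type} [Fintype ι] [DecidableEq ι]

lemma cK_not (k : Idx N → ℂ) (w : N) (hw : ¬ IsRefl w.1) : cK k w = 0 := by
  unfold cK
  rw [dif_neg hw]

/-- Dunkl operators of invariants vanish. -/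
lemma phi_inv (ρ : N →* Matrix ι ι ℂ) (k : Idx N → ℂ)
    (φ : MvPolynomial (Fin 2) ℂ →ₐ[ℂ] Module.End ℂ (PolE ι))
    (h : ∀ i, φ (MvPolynomial.X i) = dunkl ρ 0 k (Pi.single i 1))
    (p : MvPolynomial (Fin 2) ℂ) (hp : InvY N p) : φ p = 0 := by
  classical
  have hr : ∀ w : N, IsRefl w.1 → ∃ v α : Fin 2 → ℂ, v ≠ 0 ∧
      ∀ j i, (1 - w.1.1) j i = v j * α i := by
    intro w hw
    refine rank_one _ ?_ ?_
    · intro h0
      refine hw.1 ?_
      have h1 : w.1.1 = 1 := by rw [sub_eq_zero] at h0; exact h0.symm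
      exact Units.ext h1
    · have h1 : (1 - w.1.1) = -(w.1.1 - 1) := by abel
      rw [h1, Matrix.det_neg, hw.2, mul_zero]
  choose! V A hV hVA using hr
  have hx : ∀ (a : Fin 2) (f : PolE ι), φ p (xAct ι a f) = xAct ι a (φ p f) := by
    intro a f
    obtain ⟨q, h1, h2⟩ := comm_x ρ k φ h a V A hVA p
    rw [h1, Finset.sum_eq_zero, add_zero]
    intro w _
    by_cases hw : IsRefl w.1
    · have h3 := h2 w hw
      have h4 : sd w.1 p = p := hp.2 w.1 w.2
      rw [h4, sub_self, mul_zero, mul_eq_zero] at h3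
      rcases h3 with h3 | h3
      · exfalso
        refine hV w hw ?_
        funext j
        have h5 := congrArg (MvPolynomial.coeff (Finsupp.single j 1)) h3
        rw [MvPolynomial.coeff_sum, MvPolynomial.coeff_zero] at h5
        simp only [MvPolynomial.coeff_C_mul] at h5
        rw [Fin.sum_univ_two, MvPolynomial.coeff_X', MvPolynomial.coeff_X'] at h5
        fin_cases j <;> simpa [Finsupp.single_eq_single_iff] using h5
      · rw [h3, map_zero, LinearMap.zero_apply, smul_zero]
    · rw [cK_not k w hw, zero_smul]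
  have hc : ∀ (r : MvPolynomial (Fin 2) ℂ) (u : ι → ℂ),
      φ r (cst ι u) = (MvPolynomial.constantCoeff r) • cst ι u := by
    intro r
    induction r using MvPolynomial.induction_on with
    | C c =>
      intro u
      have h1 : (MvPolynomial.C c : MvPolynomial (Fin 2) ℂ) = algebraMap ℂ _ c := rfl
      rw [MvPolynomial.constantCoeff_C, h1, AlgHom.commutes, Module.algebraMap_end_apply]
    | add r s hr hs =>
      intro u
      rw [map_add, map_add, LinearMap.add_apply, hr, hs, add_smul]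
    | mul_X r i hr =>
      intro u
      rw [map_mul, h, Module.End.mul_apply, dunkl_deg0 ρ 0 k _ _ (cst_homE u), map_zero]
      simp
  refine LinearMap.ext fun f => ?_
  have hS := sub_top (LinearMap.ker (φ p)) (fun u => ?_) (fun a f hf => ?_) f
  · exact hS
  · rw [LinearMap.mem_ker, hc, hp.1, zero_smul]
  · rw [LinearMap.mem_ker] at hf ⊢
    rw [hx, hf, map_zero]

lemma dunkl_e (ρ : N →* Matrix ι ι ℂ) (k : Idx N → ℂ) (c : Fin 2 → ℂ) :
    dunkl ρ 0 k c = ∑ j, c j • dunkl ρ 0 k (Pi.single j 1) := by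
  have h1 : c = c 0 • Pi.single 0 1 + c 1 • Pi.single 1 1 := by
    funext i
    fin_cases i <;> simp
  have h4 := dunkl_liny ρ 0 k (c 1) (Pi.single 1 1) 0
  have h5 : dunkl ρ 0 k 0 = 0 := by
    have := dunkl_liny ρ 0 k (-1) 0 0
    simpa using this
  rw [h5, add_zero, add_zero] at h4
  conv_lhs => rw [h1]
  rw [dunkl_liny, h4, Fin.sum_univ_two]

/-- The restricted algebra acts on the quotient. -/
lemma actQ_rel (ρ : N →* Matrix ι ι ℂ) (k : Idx N → ℂ) {a b : FA ℂ N} (hab : HbRel N (cK k) a b) :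
    actQ ρ k a = actQ ρ k b := by
  classical
  have key : ∀ a b : FA ℂ N, (∀ f, act ρ 0 k a f = act ρ 0 k b f) → actQ ρ k a = actQ ρ k b := by
    intro a b h
    refine LinearMap.ext fun x => ?_
    obtain ⟨f, rfl⟩ := Submodule.Quotient.mk_surjective _ x
    rw [actQ_mk, actQ_mk, h]
  cases hab with
  | one =>
    refine key _ _ fun f => ?_
    rw [act_T, map_one, gAct_one]
  | mul g h =>
    refine key _ _ fun f => ?_
    rw [act_T, map_mul, act_T, act_T, gAct_mul]
  | TY g i =>
    refine key _ _ fun f => ?_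
    rw [map_mul, map_mul, act_T, act_Y, gAct_dunkl, dunkl_e, map_sum]
    congr 2
    refine Finset.sum_congr rfl fun j _ => ?_
    rw [map_mul, AlgHom.commutes, act_Y, ← Algebra.smul_def]
    congr 1
    simp
  | TX g i =>
    refine key _ _ fun f => ?_
    rw [map_mul, map_mul, act_T, act_X, Module.End.mul_apply, gAct_x, map_sum,
      Module.End.mul_apply, LinearMap.sum_apply]
    refine Finset.sum_congr rfl fun j _ => ?_
    rw [map_mul, AlgHom.commutes, act_X, ← Algebra.smul_def]
    rfl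
  | XX i j =>
    refine key _ _ fun f => ?_
    rw [map_mul, map_mul, act_X, act_X]
    funext l
    show MvPolynomial.X i * (MvPolynomial.X j * f l) = MvPolynomial.X j * (MvPolynomial.X i * f l)
    ring
  | YY i j =>
    refine key _ _ fun f => ?_
    rw [map_mul, map_mul, act_Y, act_Y, dunkl_comm]
  | YX i j =>
    refine key _ _ fun f => ?_
    rw [map_mul, map_add, map_mul, act_Y, act_X, Module.End.mul_apply, dunkl_x, zero_mul,
      zero_smul, add_zero, LinearMap.add_apply, Module.End.mul_apply, map_sum,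
      LinearMap.sum_apply]
    congr 1
    refine Finset.sum_congr rfl fun w _ => ?_
    rw [map_mul, AlgHom.commutes, act_T, ← Algebra.smul_def, LinearMap.smul_apply]
    congr 1
    by_cases hw : IsRefl w.1
    · rw [if_pos hw]
      simp
    · rw [if_neg hw, cK_not k w hw, zero_mul]
  | invX p hp =>
    refine LinearMap.ext fun x => ?_
    obtain ⟨f, rfl⟩ := Submodule.Quotient.mk_surjective _ x
    rw [actQ_mk, map_zero, LinearMap.zero_apply, Submodule.Quotient.mk_eq_zero, evP_map]
    have h1 : (fun i => act ρ 0 k (fX i)) = fun i => xAct ι i := by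
      funext i
      rw [act_X]
    rw [h1]
    obtain ⟨φ, h2, h3⟩ := exists_evHom (fun i => xAct ι i) (by
      refine LinearMap.ext fun f => ?_
      funext l
      show MvPolynomial.X 0 * (MvPolynomial.X 1 * f l) =
        MvPolynomial.X 1 * (MvPolynomial.X 0 * f l)
      ring)
    rw [h3, mulHom p φ h2]
    exact Submodule.subset_span ⟨p, f, hp, rfl⟩
  | invY p hp =>
    refine key _ _ fun f => ?_
    rw [map_zero, LinearMap.zero_apply, evP_map]
    have h1 : (fun i => act ρ 0 k (fY i)) = fun i => dunkl ρ 0 k (Pi.single i 1) := by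
      funext i
      rw [act_Y]
    rw [h1]
    obtain ⟨φ, h2, h3⟩ := exists_evHom (fun i => dunkl ρ 0 k (Pi.single i 1))
      (dunkl_comm ρ 0 k _ _)
    rw [h3, phi_inv ρ k φ h2 p hp, LinearMap.zero_apply]

/-- The representation of the restricted algebra on the quotient. -/
def Th (ρ : N →* Matrix ι ι ℂ) (k : Idx N → ℂ) :
    Hbar N (cK k) →ₐ[ℂ] Module.End ℂ (PolE ι ⧸ IE N ι) :=
  RingQuot.liftAlgHom ℂ ⟨actQ ρ k, fun _ _ h => actQ_rel ρ k h⟩

lemma Th_mk (ρ : N →* Matrix ι ι ℂ) (k : Idx N → ℂ) (z : FA ℂ N) (f : PolE ι) :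
    Th ρ k (hq N (cK k) z) (Submodule.Quotient.mk f) =
      Submodule.Quotient.mk (act ρ 0 k z f) := by
  unfold Th
  rw [RingQuot.liftAlgHom_mkAlgHom_apply]
  exact actQ_mk ρ k z f

end inv


section ev

variable {N : SG} [Fintype N] {ι : Type} [Fintype ι] [DecidableEq ι]

omit [DecidableEq ι] in
/-- Homogeneous components of elements of `IE`. -/
lemma IE_cmp (n : ℕ) (f : PolE ι) (hf : f ∈ IE N ι) : cmp ι n f ∈ IE N ι := by
  unfold IE at hf
  induction hf using Submodule.span_induction with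
  | mem F hF =>
    obtain ⟨p, f, hp, rfl⟩ := hF
    obtain ⟨M, hM⟩ := sum_cmp f
    have h1 : (fun i => p * f i : PolE ι) = ∑ a ∈ Finset.range (p.totalDegree + 1),
        ∑ b ∈ Finset.range M, fun i => MvPolynomial.homogeneousComponent a p * cmp ι b f i := by
      funext i
      rw [Finset.sum_apply]
      simp only [Finset.sum_apply]
      rw [← Finset.sum_mul_sum, MvPolynomial.sum_homogeneousComponent]
      congr 1
      conv_lhs => rw [hM]
      rw [Finset.sum_apply]
    rw [h1, map_sum]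
    refine Submodule.sum_mem _ fun a _ => ?_
    rw [map_sum]
    refine Submodule.sum_mem _ fun b _ => ?_
    have h2 : (fun i => MvPolynomial.homogeneousComponent a p * cmp ι b f i : PolE ι) ∈
        homE ι (a + b) := fun i =>
      (MvPolynomial.homogeneousComponent_isHomogeneous a p).mul
        (MvPolynomial.homogeneousComponent_isHomogeneous b (f i))
    rw [cmp_homE n (a + b) _ h2]
    split_ifs
    · exact Submodule.subset_span ⟨_, _, inv_comp hp a, rfl⟩
    · exact Submodule.zero_mem _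
  | zero => rw [map_zero]; exact Submodule.zero_mem _
  | add x y _ _ hx hy => rw [map_add]; exact Submodule.add_mem _ hx hy
  | smul c x _ hx => rw [map_smul]; exact Submodule.smul_mem _ _ hx

/-- Constant coefficients. -/
def c0 (ι : Type) : PolE ι →ₗ[ℂ] (ι → ℂ) where
  toFun f := fun i => MvPolynomial.constantCoeff (f i)
  map_add' f g := by funext i; simp
  map_smul' c f := by
    funext i
    simp [MvPolynomial.smul_eq_C_mul]

omit [Fintype ι] [DecidableEq ι] in
lemma c0_cst (u : ι → ℂ) : c0 ι (cst ι u) = u := by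
  funext i
  show MvPolynomial.constantCoeff (MvPolynomial.C (u i)) = u i
  rw [MvPolynomial.constantCoeff_C]

omit [Fintype ι] [DecidableEq ι] in
lemma c0_x (a : Fin 2) (f : PolE ι) : c0 ι (xAct ι a f) = 0 := by
  funext i
  show MvPolynomial.constantCoeff (MvPolynomial.X a * f i) = 0
  simp

omit [Fintype ι] [DecidableEq ι] in
lemma cmp_zero (f : PolE ι) : cmp ι 0 f = cst ι (c0 ι f) := by
  funext i
  rw [cmp_apply, MvPolynomial.homogeneousComponent_zero]
  rfl

omit [Fintype N] [Fintype ι] [DecidableEq ι] in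
lemma c0_IE (f : PolE ι) (hf : f ∈ IE N ι) : c0 ι f = 0 := by
  unfold IE at hf
  induction hf using Submodule.span_induction with
  | mem F hF =>
    obtain ⟨p, f, hp, rfl⟩ := hF
    funext i
    show MvPolynomial.constantCoeff (p * f i) = 0
    rw [map_mul, hp.1, zero_mul]
  | zero => rw [map_zero]
  | add x y _ _ hx hy => rw [map_add, hx, hy, add_zero]
  | smul c x _ hx => rw [map_smul, hx, smul_zero]

lemma c0_g (ρ : N →* Matrix ι ι ℂ) (g : N) (f : PolE ι) : c0 ι (gAct ρ g f) = ρ g *ᵥ c0 ι f := by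
  have h1 : ∀ (f : PolE ι), c0 ι f = evE f 0 := by
    intro f
    funext i
    show MvPolynomial.constantCoeff (f i) = MvPolynomial.eval 0 (f i)
    rw [MvPolynomial.eval_zero]
  rw [h1, h1, evE_gAct]
  simp

omit [Fintype N] in
lemma gAct_cst (ρ : N →* Matrix ι ι ℂ) (g : N) (u : ι → ℂ) :
    gAct ρ g (cst ι u) = cst ι (ρ g *ᵥ u) := by
  funext i
  show ∑ j, MvPolynomial.C (ρ g i j) * MvPolynomial.bind₁ _ (MvPolynomial.C (u j)) =
    MvPolynomial.C (∑ j, ρ g i j * u j)
  rw [map_sum]
  refine Finset.sum_congr rfl fun j _ => ?_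
  rw [MvPolynomial.bind₁_C_right, map_mul]

/-- A linear map commuting with an irreducible representation is scalar. -/
lemma schur (ρ : N →* Matrix ι ι ℂ) (hρ : Submodule.span ℂ (Set.range ρ) = ⊤) [Nonempty ι]
    (M : Matrix ι ι ℂ) (h : ∀ g, M * ρ g = ρ g * M) : ∃ c : ℂ, M = c • (1 : Matrix ι ι ℂ) := by
  have h1 : ∀ X : Matrix ι ι ℂ, M * X = X * M := by
    intro X
    have hX : X ∈ Submodule.span ℂ (Set.range ρ) := by rw [hρ]; trivial
    induction hX using Submodule.span_induction with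
    | mem F hF =>
      obtain ⟨g, rfl⟩ := hF
      exact h g
    | zero => rw [mul_zero, zero_mul]
    | add x y _ _ hx hy => rw [mul_add, add_mul, hx, hy]
    | smul c x _ hx => rw [mul_smul_comm, smul_mul_assoc, hx]
  have h2 : M ∈ Set.range (Matrix.scalar ι) := by
    rw [Matrix.mem_range_scalar_iff_commute_single']
    intro i j
    exact (h1 _).symm
  obtain ⟨c, hc⟩ := h2
  refine ⟨c, ?_⟩
  rw [← hc]
  ext i j
  simp [Matrix.scalar, Matrix.diagonal_apply, Matrix.one_apply]

/-- The isotypic projector acts as the identity. -/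
lemma proj_one {d : ℕ} (hd : 0 < d) (ρ : N →* Matrix (Fin d) (Fin d) ℂ)
    (hρ : Submodule.span ℂ (Set.range ρ) = ⊤) :
    ∑ g : N, (((d : ℂ) / (Fintype.card N : ℂ)) * (ρ g⁻¹).trace) • ρ g = 1 := by
  have : Nonempty (Fin d) := ⟨⟨0, hd⟩⟩
  have hd' : (d : ℂ) ≠ 0 := by
    rw [Nat.cast_ne_zero]; omega
  have hN : (Fintype.card N : ℂ) ≠ 0 := by
    rw [Nat.cast_ne_zero]; exact Fintype.card_ne_zero
  have h1 : ∀ M : Matrix (Fin d) (Fin d) ℂ, ∑ g : N, ρ g * M * ρ g⁻¹ =
      ((Fintype.card N : ℂ) * M.trace / d) • (1 : Matrix (Fin d) (Fin d) ℂ) := by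
    intro M
    obtain ⟨c, hc⟩ := schur ρ hρ (∑ g : N, ρ g * M * ρ g⁻¹) (by
      intro h
      rw [Finset.sum_mul, Finset.mul_sum]
      refine Fintype.sum_equiv (Equiv.mulLeft h⁻¹) _ _ fun g => ?_
      show ρ g * M * ρ g⁻¹ * ρ h = ρ h * (ρ (h⁻¹ * g) * M * ρ (h⁻¹ * g)⁻¹)
      rw [_root_.mul_inv_rev, inv_inv, map_mul ρ g⁻¹ h, map_mul ρ h⁻¹ g]
      have h2 : ρ h * ρ h⁻¹ = 1 := by rw [← map_mul, mul_inv_cancel, map_one]
      rw [show ρ h * (ρ h⁻¹ * ρ g * M * (ρ g⁻¹ * ρ h)) =
        (ρ h * ρ h⁻¹) * (ρ g * M * ρ g⁻¹ * ρ h) by noncomm_ring, h2, one_mul])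
    have h3 := congrArg Matrix.trace hc
    rw [Matrix.trace_sum, Matrix.trace_smul, Matrix.trace_one, Fintype.card_fin, smul_eq_mul] at h3
    have h4 : ∀ g : N, (ρ g * M * ρ g⁻¹).trace = M.trace := by
      intro g
      rw [Matrix.trace_mul_comm, ← mul_assoc, ← map_mul, inv_mul_cancel, map_one, one_mul]
    simp only [h4, Finset.sum_const, Finset.card_univ, nsmul_eq_mul] at h3
    rw [hc, h3]
    congr 1
    field_simp
  ext i j
  rw [Matrix.sum_apply]
  simp only [Matrix.smul_apply, smul_eq_mul]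
  have h5 : ∀ a : Fin d, ∑ g : N, ρ g i j * ρ g⁻¹ a a =
      ((Fintype.card N : ℂ) * (if j = a then 1 else 0) / d) * (if i = a then 1 else 0) := by
    intro a
    have h6 := congrFun (congrFun (h1 (Matrix.single j a 1)) i) a
    rw [Matrix.sum_apply, Matrix.smul_apply, smul_eq_mul, Matrix.one_apply] at h6
    have h7 : ∀ g : N, (ρ g * Matrix.single j a (1 : ℂ) * ρ g⁻¹) i a = ρ g i j * ρ g⁻¹ a a := by
      intro g
      rw [Matrix.mul_apply, Finset.sum_eq_single a]
      · simp
      · intro b _ hb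
        rw [Matrix.mul_single_apply_of_ne]
        · rw [zero_mul]
        · exact hb
      · intro h
        exact absurd (Finset.mem_univ _) h
    simp only [h7] at h6
    rw [h6]
    congr 3
    rcases eq_or_ne j a with rfl | hja
    · rw [if_pos rfl, Matrix.trace_single_eq_same]
    · rw [if_neg hja, Matrix.trace_single_eq_of_ne _ _ _ hja]
  have h8 : ∀ g : N, (d : ℂ) / (Fintype.card N : ℂ) * (ρ g⁻¹).trace * ρ g i j =
      ∑ a, (d : ℂ) / (Fintype.card N : ℂ) * (ρ g i j * ρ g⁻¹ a a) := by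
    intro g
    rw [Matrix.trace, ← Finset.mul_sum, ← Finset.mul_sum]
    simp only [Matrix.diag_apply]
    ring
  simp only [h8]
  rw [Finset.sum_comm]
  simp only [← Finset.mul_sum, h5]
  rw [Matrix.one_apply, Finset.sum_eq_single j]
  · rw [if_pos rfl]
    split_ifs
    · field_simp
    · simp
  · intro b _ hb
    rw [if_neg hb.symm]
    simp
  · intro h
    exact absurd (Finset.mem_univ _) h

end ev


section fin

variable {N : SG} [Fintype N]

/-- Powers of the ideal of the invariants. -/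
def IEj (N : SG) (ι : Type) : ℕ → Submodule ℂ (PolE ι)
  | 0 => ⊤
  | j + 1 => Submodule.span ℂ {F | ∃ (p : MvPolynomial (Fin 2) ℂ) (f : PolE ι), InvX N p ∧
      f ∈ IEj N ι j ∧ F = fun i => p * f i}

omit [Fintype N] in
lemma IEj_ord {ι : Type} (j : ℕ) : ∀ f ∈ IEj N ι j, ∀ (i : ι) (m : Fin 2 →₀ ℕ), m.degree < j →
    (f i).coeff m = 0 := by
  induction j with
  | zero => intro f _ i m hm; omega
  | succ j ih =>
    intro f hf
    unfold IEj at hf
    induction hf using Submodule.span_induction with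
    | mem F hF =>
      obtain ⟨p, f, hp, hf, rfl⟩ := hF
      intro i m hm
      show (p * f i).coeff m = 0
      rw [MvPolynomial.coeff_mul]
      refine Finset.sum_eq_zero fun x hx => ?_
      rw [Finset.HasAntidiagonal.mem_antidiagonal] at hx
      rcases eq_or_ne x.1 0 with h0 | h0
      · have h1 : p.coeff x.1 = 0 := by
          rw [h0]
          have := hp.1
          rwa [MvPolynomial.constantCoeff_eq] at this
        rw [h1, zero_mul]
      · have h1 : x.1.degree ≠ 0 := by
          intro h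
          exact h0 ((Finsupp.degree_eq_zero_iff _).1 h)
        have h2 : x.1.degree + x.2.degree = m.degree := by
          rw [← hx, map_add]
        rw [ih f hf i x.2 (by omega), mul_zero]
    | zero => intro i m _; simp
    | add x y _ _ hx hy =>
      intro i m hm
      rw [Pi.add_apply, MvPolynomial.coeff_add, hx i m hm, hy i m hm, add_zero]
    | smul c x _ hx =>
      intro i m hm
      rw [Pi.smul_apply, MvPolynomial.coeff_smul, hx i m hm, smul_zero]

variable {d : ℕ}

lemma comm_mod (ρ : N →* Matrix (Fin d) (Fin d) ℂ) (k : Idx N → ℂ) (z w : FA ℂ N)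
    (h : hq N (cK k) z * hq N (cK k) w = hq N (cK k) w * hq N (cK k) z) (f : PolE (Fin d)) :
    act ρ 0 k z (act ρ 0 k w f) - act ρ 0 k w (act ρ 0 k z f) ∈ IE N (Fin d) := by
  rw [← Submodule.Quotient.eq, ← Th_mk, ← Th_mk, ← Th_mk, ← Th_mk, ← Module.End.mul_apply,
    ← Module.End.mul_apply, ← map_mul (Th ρ k), ← map_mul (Th ρ k), h]

theorem perRep (hd : 0 < d) (ρ : N →* Matrix (Fin d) (Fin d) ℂ)
    (hρ : Submodule.span ℂ (Set.range ρ) = ⊤) (k : Idx N → ℂ) (z z₀ : FA ℂ N)
    (he : hq N (cK k) z * hq N (cK k) z = hq N (cK k) z)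
    (hc : ∀ a, hq N (cK k) z * a = a * hq N (cK k) z)
    (h0 : IsHom 0 z₀) (h1 : ∀ m : ℕ, ∀ f ∈ homE (Fin d) m,
      cmp (Fin d) m (act ρ 0 k z f) = act ρ 0 k z₀ f) :
    ∃ c : ℂ, (c = 0 ∨ c = 1) ∧ (∀ u, c0 (Fin d) (act ρ 0 k z (cst (Fin d) u)) = c • u) ∧
      ∀ n : ℕ, ∀ f ∈ homE (Fin d) n,
        ((act ρ 0 k z₀ - algebraMap ℂ (Module.End ℂ (PolE (Fin d))) c) ^ (n + 1)) f = 0 := by
  have : Nonempty (Fin d) := ⟨⟨0, hd⟩⟩
  have hX : ∀ (a : Fin 2) (f : PolE (Fin d)),
      act ρ 0 k z (xAct (Fin d) a f) - xAct (Fin d) a (act ρ 0 k z f) ∈ IE N (Fin d) := by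
    intro a f
    have := comm_mod ρ k z (fX a) (hc _) f
    rwa [act_X] at this
  have hT : ∀ (g : N) (f : PolE (Fin d)),
      act ρ 0 k z (gAct ρ g f) - gAct ρ g (act ρ 0 k z f) ∈ IE N (Fin d) := by
    intro g f
    have := comm_mod ρ k z (fT g) (hc _) f
    rwa [act_T] at this
  have hE : ∀ (f : PolE (Fin d)),
      act ρ 0 k z (act ρ 0 k z f) - act ρ 0 k z f ∈ IE N (Fin d) := by
    intro f
    rw [← Submodule.Quotient.eq, ← Th_mk, ← Th_mk, ← Module.End.mul_apply, ← map_mul, he]
  -- the scalar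
  let L : (Fin d → ℂ) →ₗ[ℂ] (Fin d → ℂ) := (c0 (Fin d)).comp ((act ρ 0 k z).comp (cst (Fin d)))
  have hL : ∀ u, L u = c0 (Fin d) (act ρ 0 k z (cst (Fin d) u)) := fun u => rfl
  have hLg : ∀ (g : N) (u : Fin d → ℂ), L (ρ g *ᵥ u) = ρ g *ᵥ L u := by
    intro g u
    have h2 := c0_IE _ (hT g (cst (Fin d) u))
    rw [map_sub, sub_eq_zero, gAct_cst, c0_g] at h2
    exact h2
  obtain ⟨c, hcM⟩ := schur ρ hρ (LinearMap.toMatrix' L) (by
    intro g
    apply Matrix.toLin'.injective
    refine LinearMap.ext fun u => ?_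
    rw [Matrix.toLin'_mul, Matrix.toLin'_mul, Matrix.toLin'_toMatrix']
    exact hLg g u)
  have hLc : ∀ u, L u = c • u := by
    intro u
    have h2 : Matrix.toLin' (LinearMap.toMatrix' L) u = L u := by rw [Matrix.toLin'_toMatrix']
    rw [← h2, hcM, Matrix.toLin'_apply, Matrix.smul_mulVec, Matrix.one_mulVec]
  have hall : ∀ f : PolE (Fin d), c0 (Fin d) (act ρ 0 k z f) = c • c0 (Fin d) f := by
    intro f
    have h2 := sub_top (LinearMap.ker ((c0 (Fin d)).comp (act ρ 0 k z) - c • c0 (Fin d)))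
      (fun u => by
        rw [LinearMap.mem_ker, LinearMap.sub_apply, LinearMap.comp_apply, LinearMap.smul_apply,
          c0_cst, ← hL, hLc, sub_self])
      (fun a f _ => by
        rw [LinearMap.mem_ker, LinearMap.sub_apply, LinearMap.comp_apply, LinearMap.smul_apply,
          c0_x, smul_zero, sub_zero]
        have h3 := c0_IE _ (hX a f)
        rw [map_sub, c0_x, sub_zero] at h3
        exact h3) f
    rw [LinearMap.mem_ker, LinearMap.sub_apply, LinearMap.comp_apply, LinearMap.smul_apply,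
      sub_eq_zero] at h2
    exact h2
  have hcc : c = 0 ∨ c = 1 := by
    have h2 := c0_IE _ (hE (cst (Fin d) (Pi.single ⟨0, hd⟩ 1)))
    rw [map_sub, hall, hall, c0_cst, sub_eq_zero, smul_smul] at h2
    have h3 := congrFun h2 ⟨0, hd⟩
    simp only [Pi.smul_apply, Pi.single_eq_same, smul_eq_mul, mul_one] at h3
    have h4 : c * (c - 1) = 0 := by rw [mul_sub, h3, mul_one, sub_self]
    rcases mul_eq_zero.1 h4 with h5 | h5
    · exact Or.inl h5
    · exact Or.inr (sub_eq_zero.1 h5)
  refine ⟨c, hcc, fun u => by rw [← hL, hLc], ?_⟩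
  -- the operator `A`
  set A : Module.End ℂ (PolE (Fin d)) :=
    act ρ 0 k z₀ - algebraMap ℂ (Module.End ℂ (PolE (Fin d))) c with hA
  have hA' : ∀ f, A f = act ρ 0 k z₀ f - c • f := by
    intro f
    rw [hA, LinearMap.sub_apply, Module.algebraMap_end_apply]
  have hcst : ∀ u, A (cst (Fin d) u) = 0 := by
    intro u
    rw [hA', ← h1 0 _ (cst_homE u), cmp_zero, ← hL, hLc, map_smul, sub_self]
  have hx0 : ∀ (a : Fin 2) (f : PolE (Fin d)),
      act ρ 0 k z₀ (xAct (Fin d) a f) - xAct (Fin d) a (act ρ 0 k z₀ f) ∈ IE N (Fin d) := by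
    intro a f
    have h2 : ∀ (m : ℕ), ∀ f ∈ homE (Fin d) m,
        act ρ 0 k z₀ (xAct (Fin d) a f) - xAct (Fin d) a (act ρ 0 k z₀ f) ∈ IE N (Fin d) := by
      intro m f hf
      have h3 := IE_cmp (m + 1) _ (hX a f)
      have h4 : xAct (Fin d) a f ∈ homE (Fin d) (m + 1) := by
        intro i
        have := (MvPolynomial.isHomogeneous_X ℂ a).mul (hf i)
        rw [add_comm] at this
        exact this
      rw [map_sub, h1 (m + 1) _ h4] at h3
      have h5 : cmp (Fin d) (m + 1) (xAct (Fin d) a (act ρ 0 k z f)) =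
          xAct (Fin d) a (cmp (Fin d) m (act ρ 0 k z f)) := by
        obtain ⟨M, hM⟩ := sum_cmp (act ρ 0 k z f)
        generalize act ρ 0 k z f = g at hM ⊢
        conv_lhs => rw [hM]
        conv_rhs => rw [hM]
        rw [map_sum, map_sum, map_sum, map_sum]
        refine Finset.sum_congr rfl fun n _ => ?_
        have h6 : cmp (Fin d) n g ∈ homE (Fin d) n := fun i =>
          MvPolynomial.homogeneousComponent_isHomogeneous n (g i)
        have h7 : xAct (Fin d) a (cmp (Fin d) n g) ∈ homE (Fin d) (n + 1) := by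
          intro i
          have := (MvPolynomial.isHomogeneous_X ℂ a).mul (h6 i)
          rw [add_comm] at this
          exact this
        rw [cmp_homE _ _ _ h7, cmp_homE _ _ _ h6]
        by_cases hmn : m = n
        · rw [if_pos hmn, if_pos (by omega)]
        · rw [if_neg hmn, if_neg (by omega), map_zero]
      rw [h5, h1 m f hf] at h3
      exact h3
    obtain ⟨M, hM⟩ := sum_cmp f
    rw [hM, map_sum, map_sum, map_sum, map_sum, ← Finset.sum_sub_distrib]
    exact Submodule.sum_mem _ fun n _ => h2 n _ fun i =>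
      MvPolynomial.homogeneousComponent_isHomogeneous n (f i)
  have hAIE : ∀ f, A f ∈ IE N (Fin d) := by
    intro f
    refine sub_top ((IE N (Fin d)).comap A) (fun u => ?_) (fun a f hf => ?_) f
    · rw [Submodule.mem_comap, hcst]
      exact Submodule.zero_mem _
    · rw [Submodule.mem_comap] at hf ⊢
      have h2 : A (xAct (Fin d) a f) =
          (act ρ 0 k z₀ (xAct (Fin d) a f) - xAct (Fin d) a (act ρ 0 k z₀ f)) +
            xAct (Fin d) a (A f) := by
        rw [hA', hA', map_sub, map_smul]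
        abel
      rw [h2]
      exact Submodule.add_mem _ (hx0 a f) (IE_X a _ hf)
  have hAj : ∀ j : ℕ, ∀ f ∈ IEj N (Fin d) j, A f ∈ IEj N (Fin d) (j + 1) := by
    intro j
    induction j with
    | zero =>
      intro f _
      have h2 : IE N (Fin d) ≤ IEj N (Fin d) 1 := by
        refine Submodule.span_mono ?_
        rintro F ⟨p, f, hp, rfl⟩
        exact ⟨p, f, hp, Submodule.mem_top, rfl⟩
      exact h2 (hAIE f)
    | succ j ih =>
      intro f hf
      unfold IEj at hf
      induction hf using Submodule.span_induction with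
      | mem F hF =>
        obtain ⟨p, f, hp, hf, rfl⟩ := hF
        have h2 : A (fun i => p * f i) = fun i => p * A f i := by
          rw [hA', act_inv ρ k hp z₀ f, hA']
          funext i
          simp only [Pi.sub_apply, Pi.smul_apply, mul_sub, mul_smul_comm]
        rw [h2]
        exact Submodule.subset_span ⟨p, A f, hp, ih f hf, rfl⟩
      | zero => rw [map_zero]; exact Submodule.zero_mem _
      | add x y _ _ hx hy => rw [map_add]; exact Submodule.add_mem _ hx hy
      | smul c x _ hx => rw [map_smul]; exact Submodule.smul_mem _ _ hx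
  have hpow : ∀ (j : ℕ) (f : PolE (Fin d)), (A ^ j) f ∈ IEj N (Fin d) j := by
    intro j
    induction j with
    | zero => intro f; exact Submodule.mem_top
    | succ j ih =>
      intro f
      rw [pow_succ', Module.End.mul_apply]
      exact hAj j _ (ih f)
  have hhom : ∀ (j n : ℕ), ∀ f ∈ homE (Fin d) n, (A ^ j) f ∈ homE (Fin d) n := by
    intro j n
    induction j with
    | zero => intro f hf; exact hf
    | succ j ih =>
      intro f hf
      rw [pow_succ', Module.End.mul_apply, hA']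
      refine Submodule.sub_mem _ ?_ (Submodule.smul_mem _ _ (ih f hf))
      have h2 := h0 d ρ 0 k n _ (by rw [homZ_nat]; exact ih f hf)
      rw [add_zero, homZ_nat] at h2
      exact h2
  intro n f hf
  have h2 := hpow (n + 1) f
  have h3 := hhom (n + 1) n f hf
  funext i
  ext m
  rw [Pi.zero_apply, MvPolynomial.coeff_zero]
  rcases lt_or_ge m.degree (n + 1) with hm | hm
  · exact IEj_ord (n + 1) _ h2 i m hm
  · exact (h3 i).coeff_eq_zero (by omega)

lemma leftY_cst (ρ : N →* Matrix (Fin d) (Fin d) ℂ) (k : Idx N → ℂ) (a : Hbar N (cK k))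
    (ha : a ∈ leftY N (cK k)) (u : Fin d → ℂ) :
    Th ρ k a (Submodule.Quotient.mk (cst (Fin d) u)) = 0 := by
  unfold leftY Ideal.span at ha
  have hY : ∀ i, Th ρ k (hq N (cK k) (fY i)) (Submodule.Quotient.mk (cst (Fin d) u)) = 0 := by
    intro i
    rw [Th_mk, act_Y, dunkl_deg0 ρ 0 k _ _ (cst_homE u)]
    rfl
  induction ha using Submodule.span_induction with
  | mem F hF =>
    rcases hF with rfl | hF
    · exact hY 0
    · rw [Set.mem_singleton_iff] at hF
      rw [hF]
      exact hY 1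
  | zero => rw [map_zero, LinearMap.zero_apply]
  | add x y _ _ hx hy => rw [map_add, LinearMap.add_apply, hx, hy, add_zero]
  | smul c x _ hx => rw [smul_eq_mul, map_mul, Module.End.mul_apply, hx, map_zero]

lemma pRep_cst (hd : 0 < d) (ρ : N →* Matrix (Fin d) (Fin d) ℂ)
    (hρ : Submodule.span ℂ (Set.range ρ) = ⊤) (k : Idx N → ℂ) (u : Fin d → ℂ) :
    Th ρ k (pRep N (cK k) ρ) (Submodule.Quotient.mk (cst (Fin d) u)) =
      Submodule.Quotient.mk (cst (Fin d) u) := by
  unfold pRep
  rw [map_sum, LinearMap.sum_apply]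
  have h1 : ∀ g : N, Th ρ k (algebraMap ℂ _ (((d : ℂ) / (Fintype.card N : ℂ)) * (ρ g⁻¹).trace) *
      hq N (cK k) (fT g)) (Submodule.Quotient.mk (cst (Fin d) u)) =
      (Submodule.mkQ (IE N (Fin d))) (cst (Fin d)
        (((((d : ℂ) / (Fintype.card N : ℂ)) * (ρ g⁻¹).trace) • ρ g) *ᵥ u)) := by
    intro g
    rw [map_mul, AlgHom.commutes, ← Algebra.smul_def, LinearMap.smul_apply, Th_mk, act_T, gAct_cst,
      Matrix.smul_mulVec, map_smul, map_smul]
    rfl
  simp only [h1]
  rw [← map_sum, ← map_sum, ← Matrix.sum_mulVec, proj_one hd ρ hρ, Matrix.one_mulVec]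
  rfl

/-- Irreducibility from the Wedderburn isomorphism. -/
lemma span_top (Φ : IrrFam N) (l : Φ.Λ) : Submodule.span ℂ (Set.range (Φ.ρ l)) = ⊤ := by
  rw [eq_top_iff]
  intro M _
  obtain ⟨a, ha⟩ := Φ.bij.2 (Function.update 0 l M)
  have h1 := congrFun ha l
  simp only [Function.update_self] at h1
  rw [← h1, MonoidAlgebra.lift_apply]
  refine Submodule.sum_mem _ fun g _ => ?_
  exact Submodule.smul_mem _ _ (Submodule.subset_span ⟨g, rfl⟩)

end fin

end CM1X

/-- From a central idempotent of the restricted algebra to a separating word. -/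
theorem exists_sepWord {N : SG} [Fintype N] (Φ : IrrFam N) (k : Idx N → ℂ)
    (l₁ l₂ : Φ.Λ) (h : CMSep N (cK k) (Φ.ρ l₁) (Φ.ρ l₂)) :
    ∃ (Ft : Φ.Λ → Prop) (_ : DecidablePred Ft) (z : FA ℂ N),
      SepWord Φ k Ft z ∧ Ft l₁ ∧ ¬ Ft l₂ := by
  classical
  obtain ⟨e, he, hc, h1, h2⟩ := h
  obtain ⟨z, hz⟩ := RingQuot.mkAlgHom_surjective ℂ (HbRel N (cK k)) e
  obtain ⟨z₀, h3, h4⟩ := CM1X.exists_deg0 z
  have hz' : hq N (cK k) z = e := hz
  have key := fun l : Φ.Λ => CM1X.perRep (Φ.pos l) (Φ.ρ l) (CM1X.span_top Φ l) k z z₀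
    (by rw [hz', he]) (by rw [hz']; exact hc) h3 (h4 _ (Φ.ρ l) 0 k)
  choose c hc01 hcu hcn using key
  have hTh : ∀ (l : Φ.Λ) (u : Fin (Φ.d l) → ℂ),
      CM1X.Th (Φ.ρ l) k e (Submodule.Quotient.mk (CM1X.cst _ u)) =
      Submodule.Quotient.mk (act (Φ.ρ l) 0 k z (CM1X.cst _ u)) := by
    intro l u
    rw [← hz', CM1X.Th_mk]
  refine ⟨fun l => c l = 1, Classical.decPred _, z₀, ⟨?_, ?_⟩, ?_, ?_⟩
  · intro t k' l n f hf
    have h5 := h3 (Φ.d l) (Φ.ρ l) t k' n f (by rw [CM1X.homZ_nat]; exact hf)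
    rw [add_zero, CM1X.homZ_nat] at h5
    exact h5
  · intro l n f hf
    have h5 := hcn l n f hf
    have h6 : (if c l = 1 then 1 else 0 : Module.End ℂ (PolE (Fin (Φ.d l)))) =
        algebraMap ℂ (Module.End ℂ (PolE (Fin (Φ.d l)))) (c l) := by
      rcases hc01 l with h | h
      · rw [h, if_neg (by norm_num), map_zero]
      · rw [h, if_pos rfl, map_one]
    rw [h6]
    exact h5
  · -- `l₁`
    have h5 := CM1X.leftY_cst (Φ.ρ l₁) k _ h1 (Pi.single ⟨0, Φ.pos l₁⟩ 1)
    rw [map_sub, map_mul, LinearMap.sub_apply, Module.End.mul_apply,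
      CM1X.pRep_cst (Φ.pos l₁) (Φ.ρ l₁) (CM1X.span_top Φ l₁), hTh, sub_eq_zero,
      Submodule.Quotient.eq] at h5
    have h6 := CM1X.c0_IE _ h5
    rw [map_sub, hcu, CM1X.c0_cst, sub_eq_zero] at h6
    have h7 := congrFun h6 ⟨0, Φ.pos l₁⟩
    simpa using h7
  · -- `l₂`
    have h5 := CM1X.leftY_cst (Φ.ρ l₂) k _ h2 (Pi.single ⟨0, Φ.pos l₂⟩ 1)
    rw [map_mul, Module.End.mul_apply,
      CM1X.pRep_cst (Φ.pos l₂) (Φ.ρ l₂) (CM1X.span_top Φ l₂), hTh,
      Submodule.Quotient.mk_eq_zero] at h5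
    have h6 := CM1X.c0_IE _ h5
    rw [hcu] at h6
    have h7 := congrFun h6 ⟨0, Φ.pos l₂⟩
    have h8 : c l₂ = 0 := by simpa using h7
    show ¬ c l₂ = 1
    rw [h8]
    norm_num

end
end Pool.Agent.CMF
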