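import Pool.Agent.CMF.Dun

/-! Project CMF, module CM2: Lemma L. -/

namespace Pool.Agent.CMF

open Matrix

noncomputable section

namespace CM2X

open Polynomial in
/-- If `z₁ - 1` is locally nilpotent on `P₁`, `z₂` is locally nilpotent on `P₂` and both are
intertwined with `zN` by surjective maps to `N`, then `N = 0`. -/
theorem nilp_contra {K P₁ P₂ N : Type*} [Field K] [AddCommGroup P₁] [Module K P₁]
    [AddCommGroup P₂] [Module K P₂] [AddCommGroup N] [Module K N]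
    (Φ₁ : P₁ →ₗ[K] N) (Φ₂ : P₂ →ₗ[K] N) (hs₁ : Function.Surjective Φ₁)
    (hs₂ : Function.Surjective Φ₂)
    (z₁ : Module.End K P₁) (z₂ : Module.End K P₂) (zN : Module.End K N)
    (h₁ : ∀ f, Φ₁ (z₁ f) = zN (Φ₁ f)) (h₂ : ∀ f, Φ₂ (z₂ f) = zN (Φ₂ f))
    (n₁ : ∀ f, ∃ j : ℕ, ((z₁ - 1) ^ j) f = 0) (n₂ : ∀ f, ∃ j : ℕ, (z₂ ^ j) f = 0)
    (F : N) : F = 0 := by
  obtain ⟨f₁, hf₁⟩ := hs₁ F
  obtain ⟨f₂, hf₂⟩ := hs₂ F
  obtain ⟨j₁, hj₁⟩ := n₁ f₁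
  obtain ⟨j₂, hj₂⟩ := n₂ f₂
  have e₁ : ∀ (j : ℕ) (f : P₁), Φ₁ (((z₁ - 1) ^ j) f) = ((zN - 1) ^ j) (Φ₁ f) := by
    intro j
    induction j with
    | zero => intro f; simp
    | succ j ih =>
      intro f
      rw [pow_succ, pow_succ, Module.End.mul_apply, Module.End.mul_apply, ih]
      congr 1
      simp [h₁]
  have e₂ : ∀ (j : ℕ) (f : P₂), Φ₂ ((z₂ ^ j) f) = (zN ^ j) (Φ₂ f) := by
    intro j
    induction j with
    | zero => intro f; simp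
    | succ j ih =>
      intro f
      rw [pow_succ, pow_succ, Module.End.mul_apply, Module.End.mul_apply, ih, h₂]
  have a₁ : ((zN - 1) ^ j₁) F = 0 := by rw [← hf₁, ← e₁, hj₁, map_zero]
  have a₂ : (zN ^ j₂) F = 0 := by rw [← hf₂, ← e₂, hj₂, map_zero]
  have hc : IsCoprime ((X - C 1 : K[X]) ^ j₁) (X ^ j₂) := by
    apply IsCoprime.pow
    refine ⟨-1, 1, ?_⟩
    simp
  obtain ⟨a, b, hab⟩ := hc
  have := congrArg (fun p => Polynomial.aeval zN p F) hab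
  simp only [map_add, map_mul, map_pow, map_sub, Polynomial.aeval_X,
    map_one, LinearMap.add_apply, Module.End.mul_apply, Module.End.one_apply] at this
  rw [a₁, a₂] at this
  simpa using this.symm

/-- Intertwiners on generators are intertwiners. -/
theorem lift_intertwine {K L P N : Type*} [Field K] [AddCommGroup P] [Module K P]
    [AddCommGroup N] [Module K N] (a : L → Module.End K P) (b : L → Module.End K N)
    (Φ : P →ₗ[K] N) (h : ∀ l f, Φ (a l f) = b l (Φ f)) (w : FreeAlgebra K L) :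
    ∀ f, Φ (FreeAlgebra.lift K a w f) = FreeAlgebra.lift K b w (Φ f) := by
  induction w using FreeAlgebra.induction with
  | grade0 r => intro f; simp
  | grade1 x => intro f; simp [h]
  | mul x y hx hy => intro f; simp [hx, hy]
  | add x y hx hy => intro f; simp [hx, hy]

/-- Interpolation at finitely many points. -/
theorem exists_interp {K ι κ : Type*} [Field K] [Finite κ] (pt : κ → ι → K)
    (hpt : Function.Injective pt) (g : κ) :
    ∃ p : MvPolynomial ι K, MvPolynomial.eval (pt g) p = 1 ∧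
      ∀ h, h ≠ g → MvPolynomial.eval (pt h) p = 0 := by
  classical
  have := Fintype.ofFinite κ
  have hi : ∀ h : κ, h ≠ g → ∃ i, pt h i ≠ pt g i := by
    intro h hh
    by_contra hcon
    push Not at hcon
    exact hh (hpt (funext hcon))
  choose i hi using hi
  refine ⟨∏ h : {h : κ // h ≠ g}, (MvPolynomial.C ((pt g (i h h.2) - pt h (i h h.2))⁻¹) *
    (MvPolynomial.X (i h h.2) - MvPolynomial.C (pt h (i h h.2)))), ?_, ?_⟩
  · rw [map_prod]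
    apply Finset.prod_eq_one
    rintro ⟨h, hh⟩ -
    have hne : pt g (i h hh) - pt h (i h hh) ≠ 0 := sub_ne_zero.2 (hi h hh).symm
    simp [inv_mul_cancel₀ hne]
  · intro h hh
    rw [map_prod]
    apply Finset.prod_eq_zero (Finset.mem_univ ⟨h, hh⟩)
    simp

section

variable {N : SG} [Fintype N]

/-- letters on the polynomial module -/
def aL {ι : Type} [Fintype ι] [DecidableEq ι] (ρ : N →* Matrix ι ι ℂ) (t : ℂ)
    (k : Idx N → ℂ) : Gen N → Module.End ℂ (PolE ι) := fun a => match a with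
    | Gen.X i => xAct ι i
    | Gen.Y i => dunkl ρ t k (Pi.single i 1)
    | Gen.T g => gAct ρ g

theorem act_eq {ι : Type} [Fintype ι] [DecidableEq ι] (ρ : N →* Matrix ι ι ℂ) (t : ℂ)
    (k : Idx N → ℂ) : act ρ t k = FreeAlgebra.lift ℂ (aL ρ t k) := rfl

/-- The module of functions on the orbit of `x`: action of the coordinate functions. -/
def nX (x : Fin 2 → ℂ) (i : Fin 2) : Module.End ℂ (N → ℂ) where
  toFun F := fun g => (g.1.1 *ᵥ x) i * F g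
  map_add' F F' := by funext g; simp [mul_add]
  map_smul' c F := by funext g; simp; ring

/-- action of the group -/
def nT (h : N) : Module.End ℂ (N → ℂ) where
  toFun F := fun g => F (h⁻¹ * g)
  map_add' F F' := by funext g; simp
  map_smul' c F := by funext g; simp

/-- action of the Dunkl operators -/
def nY (k : Idx N → ℂ) (x ξ : Fin 2 → ℂ) (i : Fin 2) : Module.End ℂ (N → ℂ) where
  toFun F := fun g => ∑ w : N, (cr k w * rat (fixL w.1) (Pi.single i 1) (g.1.1 *ᵥ x)) *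
    F (w⁻¹ * g) - (ξ ⬝ᵥ ((g⁻¹).1.1 *ᵥ Pi.single i 1)) * F g
  map_add' F F' := by
    funext g
    simp only [Pi.add_apply, mul_add, Finset.sum_add_distrib]
    ring
  map_smul' c F := by
    funext g
    simp only [Pi.smul_apply, smul_eq_mul, RingHom.id_apply, mul_sub, Finset.mul_sum]
    congr 1
    · exact Finset.sum_congr rfl fun s _ => by ring
    · ring

/-- all letters -/
def nL (k : Idx N → ℂ) (x ξ : Fin 2 → ℂ) : Gen N → Module.End ℂ (N → ℂ) := fun a => match a with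
    | Gen.X i => nX x i
    | Gen.Y i => nY k x ξ i
    | Gen.T g => nT g

/-- The map to the functions on the orbit. -/
def toN {ι : Type} [Fintype ι] [DecidableEq ι] (ρ : N →* Matrix ι ι ℂ) (x : Fin 2 → ℂ)
    (η : ι → ℂ) : PolE ι →ₗ[ℂ] (N → ℂ) where
  toFun f := fun g => η ⬝ᵥ (ρ g⁻¹ *ᵥ evE f (g.1.1 *ᵥ x))
  map_add' f f' := by
    funext g
    have : evE (f + f') (g.1.1 *ᵥ x) = evE f (g.1.1 *ᵥ x) + evE f' (g.1.1 *ᵥ x) := by
      funext i; simp [evE]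
    show η ⬝ᵥ (ρ g⁻¹ *ᵥ evE (f + f') (g.1.1 *ᵥ x)) = η ⬝ᵥ (ρ g⁻¹ *ᵥ evE f (g.1.1 *ᵥ x)) +
      η ⬝ᵥ (ρ g⁻¹ *ᵥ evE f' (g.1.1 *ᵥ x))
    rw [this, Matrix.mulVec_add, dotProduct_add]
  map_smul' c f := by
    funext g
    have : evE (c • f) (g.1.1 *ᵥ x) = c • evE f (g.1.1 *ᵥ x) := by
      funext i; simp [evE, MvPolynomial.smul_eval]
    show η ⬝ᵥ (ρ g⁻¹ *ᵥ evE (c • f) (g.1.1 *ᵥ x)) = c • (η ⬝ᵥ (ρ g⁻¹ *ᵥ evE f (g.1.1 *ᵥ x)))
    rw [this, Matrix.mulVec_smul, dotProduct_smul]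

theorem toN_letter {ι : Type} [Fintype ι] [DecidableEq ι] (ρ : N →* Matrix ι ι ℂ)
    (k : Idx N → ℂ) (x : VReg N) (ξ : Fin 2 → ℂ) (η : ι → ℂ)
    (h : ∀ y, η ᵥ* gau ρ k x.1 y = (ξ ⬝ᵥ y) • η) (l : Gen N) (f : PolE ι) :
    toN ρ x.1 η (aL ρ 0 k l f) = nL k x.1 ξ l (toN ρ x.1 η f) := by
  funext g
  rcases l with i | i | w
  · show η ⬝ᵥ (ρ g⁻¹ *ᵥ evE (xAct ι i f) (g.1.1 *ᵥ x.1)) =
      (g.1.1 *ᵥ x.1) i * (η ⬝ᵥ (ρ g⁻¹ *ᵥ evE f (g.1.1 *ᵥ x.1)))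
    have : evE (xAct ι i f) (g.1.1 *ᵥ x.1) = (g.1.1 *ᵥ x.1) i • evE f (g.1.1 *ᵥ x.1) := by
      funext j; simp [evE, xAct]
    rw [this, Matrix.mulVec_smul, dotProduct_smul, smul_eq_mul]
  · show η ⬝ᵥ (ρ g⁻¹ *ᵥ evE (dunkl ρ 0 k (Pi.single i 1) f) (g.1.1 *ᵥ x.1)) =
      ∑ w : N, (cr k w * rat (fixL w.1) (Pi.single i 1) (g.1.1 *ᵥ x.1)) *
        (η ⬝ᵥ (ρ (w⁻¹ * g)⁻¹ *ᵥ evE f ((w⁻¹ * g).1.1 *ᵥ x.1))) -
        (ξ ⬝ᵥ ((g⁻¹).1.1 *ᵥ Pi.single i 1)) * (η ⬝ᵥ (ρ g⁻¹ *ᵥ evE f (g.1.1 *ᵥ x.1)))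
    have hD := dunkl_spec ρ 0 k (Pi.single i 1) f (g • x)
    rw [smul_val] at hD
    rw [hD, zero_smul, zero_add]
    have hg : ρ g⁻¹ * gau ρ k (g.1.1 *ᵥ x.1) (Pi.single i 1) =
        gau ρ k x.1 ((g⁻¹).1.1 *ᵥ Pi.single i 1) * ρ g⁻¹ := by
      have e := gau_equiv ρ k g⁻¹ (g.1.1 *ᵥ x.1) (Pi.single i 1)
      rw [inv_inv] at e
      have e2 : (g⁻¹).1.1 *ᵥ (g.1.1 *ᵥ x.1) = x.1 := by
        rw [Matrix.mulVec_mulVec, ← Units.val_mul]
        simp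
      rw [e2] at e
      rw [← e, mul_assoc (ρ g⁻¹ * _), ← map_mul, mul_inv_cancel, map_one, mul_one]
    have h2 : (ξ ⬝ᵥ ((g⁻¹).1.1 *ᵥ Pi.single i 1)) * (η ⬝ᵥ (ρ g⁻¹ *ᵥ evE f (g.1.1 *ᵥ x.1))) =
        ∑ w : N, (cr k w * rat (fixL w.1) (Pi.single i 1) (g.1.1 *ᵥ x.1)) *
          (η ⬝ᵥ (ρ g⁻¹ *ᵥ (ρ w *ᵥ evE f (g.1.1 *ᵥ x.1)))) := by
      have h3 := h ((g⁻¹).1.1 *ᵥ Pi.single i 1)
      have h4 : (ξ ⬝ᵥ ((g⁻¹).1.1 *ᵥ Pi.single i 1)) * (η ⬝ᵥ (ρ g⁻¹ *ᵥ evE f (g.1.1 *ᵥ x.1))) =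
          ((ξ ⬝ᵥ ((g⁻¹).1.1 *ᵥ Pi.single i 1)) • η) ⬝ᵥ (ρ g⁻¹ *ᵥ evE f (g.1.1 *ᵥ x.1)) := by
        rw [smul_dotProduct, smul_eq_mul]
      rw [h4, ← h3, ← Matrix.dotProduct_mulVec, Matrix.mulVec_mulVec, ← hg, ← Matrix.mulVec_mulVec,
        gau, Matrix.sum_mulVec, Matrix.mulVec_sum, dotProduct_sum]
      refine Finset.sum_congr rfl fun w _ => ?_
      rw [Matrix.smul_mulVec, Matrix.mulVec_smul, dotProduct_smul, smul_eq_mul]
    rw [h2, ← Finset.sum_sub_distrib, Matrix.mulVec_sum, dotProduct_sum]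
    refine Finset.sum_congr rfl fun w _ => ?_
    have h5 : ρ (w⁻¹ * g)⁻¹ = ρ g⁻¹ * ρ w := by rw [← map_mul, _root_.mul_inv_rev, inv_inv]
    have h6 : (w⁻¹ * g).1.1 *ᵥ x.1 = (w⁻¹).1.1 *ᵥ (g.1.1 *ᵥ x.1) := by
      rw [Matrix.mulVec_mulVec]
      rfl
    rw [h5, h6, ← Matrix.mulVec_mulVec, Matrix.mulVec_smul, dotProduct_smul, Matrix.mulVec_sub,
      Matrix.mulVec_sub, dotProduct_sub, smul_eq_mul, mul_sub]
  · show η ⬝ᵥ (ρ g⁻¹ *ᵥ evE (gAct ρ w f) (g.1.1 *ᵥ x.1)) =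
      η ⬝ᵥ (ρ (w⁻¹ * g)⁻¹ *ᵥ evE f ((w⁻¹ * g).1.1 *ᵥ x.1))
    have h5 : ρ (w⁻¹ * g)⁻¹ = ρ g⁻¹ * ρ w := by rw [← map_mul, _root_.mul_inv_rev, inv_inv]
    have h6 : (w⁻¹ * g).1.1 *ᵥ x.1 = (w⁻¹).1.1 *ᵥ (g.1.1 *ᵥ x.1) := by
      rw [Matrix.mulVec_mulVec]
      rfl
    rw [evE_gAct, h5, h6, ← Matrix.mulVec_mulVec]

theorem toN_surj {ι : Type} [Fintype ι] [DecidableEq ι] (ρ : N →* Matrix ι ι ℂ)
    (x : Fin 2 → ℂ) (hfree : ∀ g : N, g.1.1 *ᵥ x = x → g = 1) (η : ι → ℂ) (hη0 : η ≠ 0) :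
    Function.Surjective (toN ρ x η) := by
  classical
  obtain ⟨j, hj⟩ : ∃ j, η j ≠ 0 := by
    by_contra hcon
    push Not at hcon
    exact hη0 (funext hcon)
  have hinj : Function.Injective (fun g : N => g.1.1 *ᵥ x) := by
    intro g h hgh
    have hgh' : g.1.1 *ᵥ x = h.1.1 *ᵥ x := hgh
    have : (h⁻¹ * g).1.1 *ᵥ x = x := by
      have e : (h⁻¹ * g).1.1 *ᵥ x = (h⁻¹).1.1 *ᵥ (g.1.1 *ᵥ x) := by
        rw [Matrix.mulVec_mulVec]; rfl
      rw [e, hgh', Matrix.mulVec_mulVec]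
      have e2 : (h⁻¹).1.1 * h.1.1 = 1 := by
        have : (h⁻¹ * h : N).1.1 = 1 := by rw [inv_mul_cancel]; rfl
        exact this
      rw [e2, Matrix.one_mulVec]
    have := hfree _ this
    exact (inv_mul_eq_one.1 this).symm
  intro F
  choose p hp1 hp0 using fun g : N => exists_interp (fun g : N => g.1.1 *ᵥ x) hinj g
  refine ⟨∑ g : N, fun i => MvPolynomial.C (((F g * (η j)⁻¹) • (ρ g *ᵥ Pi.single j 1)) i) * p g, ?_⟩
  have hev : ∀ (g : N) (v : Fin 2 → ℂ), evE (fun i => MvPolynomial.C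
      (((F g * (η j)⁻¹) • (ρ g *ᵥ Pi.single j 1)) i) * p g) v =
      MvPolynomial.eval v (p g) • ((F g * (η j)⁻¹) • (ρ g *ᵥ Pi.single j 1)) := by
    intro g v
    funext i
    simp only [evE, map_mul, MvPolynomial.eval_C, Pi.smul_apply, smul_eq_mul]
    ring
  rw [map_sum]
  funext h
  rw [Finset.sum_apply, Finset.sum_eq_single h]
  · show η ⬝ᵥ (ρ h⁻¹ *ᵥ evE (fun i => MvPolynomial.C
      (((F h * (η j)⁻¹) • (ρ h *ᵥ Pi.single j 1)) i) * p h) (h.1.1 *ᵥ x)) = F h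
    rw [hev, hp1 h, one_smul, Matrix.mulVec_smul, Matrix.mulVec_mulVec, ← map_mul, inv_mul_cancel,
      map_one, Matrix.one_mulVec, dotProduct_smul, smul_eq_mul, dotProduct_single, mul_one,
      mul_assoc, inv_mul_cancel₀ hj, mul_one]
  · intro g _ hg
    show η ⬝ᵥ (ρ h⁻¹ *ᵥ evE (fun i => MvPolynomial.C
      (((F g * (η j)⁻¹) • (ρ g *ᵥ Pi.single j 1)) i) * p g) (h.1.1 *ᵥ x)) = 0
    rw [hev, hp0 g h hg.symm, zero_smul, Matrix.mulVec_zero, dotProduct_zero]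
  · intro hh; exact absurd (Finset.mem_univ h) hh

/-- Some vector has a free orbit. -/
theorem exists_free : ∃ v : Fin 2 → ℂ, ∀ g : N, g.1.1 *ᵥ v = v → g = 1 := by
  classical
  by_contra hcon
  push Not at hcon
  have hcov : (⋃ g : {g : N // g ≠ 1}, ((LinearMap.ker
      (Matrix.toLin' (g.1.1.1 - 1)) : Submodule ℂ (Fin 2 → ℂ)) : Set (Fin 2 → ℂ))) = Set.univ := by
    apply Set.eq_univ_of_forall
    intro v
    obtain ⟨g, hg, hg1⟩ := hcon v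
    simp only [Set.mem_iUnion]
    refine ⟨⟨g, hg1⟩, ?_⟩
    rw [SetLike.mem_coe, LinearMap.mem_ker, Matrix.toLin'_apply, Matrix.sub_mulVec,
      Matrix.one_mulVec, hg, sub_self]
  obtain ⟨⟨g, hg1⟩, htop⟩ := Subspace.exists_eq_top_of_iUnion_eq_univ hcov
  apply hg1
  rw [LinearMap.ker_eq_top] at htop
  have : g.1.1 - 1 = 0 := by
    apply (Matrix.toLin').injective
    rw [htop, map_zero]
  apply Subtype.ext
  apply Units.ext
  exact sub_eq_zero.1 this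

theorem key (Φ : IrrFam N) (k : Idx N → ℂ) (Ft : Φ.Λ → Prop)
    [DecidablePred Ft] (z : FA ℂ N) (hz : SepWord Φ k Ft z) (l l' : Φ.Λ) (x : VReg N)
    (hfree : ∀ g : N, g.1.1 *ᵥ x.1 = x.1 → g = 1)
    (ξ : Fin 2 → ℂ) (η : Fin (Φ.d l) → ℂ) (η' : Fin (Φ.d l') → ℂ) (hη : η ≠ 0) (hη' : η' ≠ 0)
    (h : ∀ y, η ᵥ* gau (Φ.ρ l) k x.1 y = (ξ ⬝ᵥ y) • η)
    (h' : ∀ y, η' ᵥ* gau (Φ.ρ l') k x.1 y = (ξ ⬝ᵥ y) • η') (h1 : Ft l) (h2 : ¬ Ft l') : False := by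
  have hn : ∀ (m : Φ.Λ) (c : Module.End ℂ (PolE (Fin (Φ.d m)))),
      c = act (Φ.ρ m) 0 k z - (if Ft m then 1 else 0) →
      ∀ f : PolE (Fin (Φ.d m)), ∃ j : ℕ, (c ^ j) f = 0 := by
    intro m c hc f
    subst hc
    have hfin : f = ∑ n ∈ Finset.range ((Finset.univ.sup fun i => (f i).totalDegree) + 1),
        fun i => MvPolynomial.homogeneousComponent n (f i) := by
      funext i
      rw [Finset.sum_apply]
      have hle : (f i).totalDegree ≤ Finset.univ.sup fun i => (f i).totalDegree :=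
        Finset.le_sup (f := fun i => (f i).totalDegree) (Finset.mem_univ i)
      conv_lhs => rw [← MvPolynomial.sum_homogeneousComponent (f i)]
      apply Finset.sum_subset
      · intro n hn
        rw [Finset.mem_range] at hn ⊢
        omega
      · intro n _ hn
        rw [Finset.mem_range] at hn
        exact MvPolynomial.homogeneousComponent_eq_zero _ _ (by omega)
    set M := (Finset.univ.sup fun i => (f i).totalDegree) with hM
    refine ⟨M + 1, ?_⟩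
    rw [hfin, map_sum]
    apply Finset.sum_eq_zero
    intro n hn
    rw [Finset.mem_range] at hn
    have hs := hz.sep m n (fun i => MvPolynomial.homogeneousComponent n (f i))
      (fun i => MvPolynomial.homogeneousComponent_isHomogeneous n (f i))
    obtain ⟨q, hq⟩ := Nat.exists_eq_add_of_le (show n + 1 ≤ M + 1 by omega)
    rw [hq, add_comm, pow_add, Module.End.mul_apply, hs, map_zero]
  have k1 := nilp_contra (toN (Φ.ρ l) x.1 η) (toN (Φ.ρ l') x.1 η')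
    (toN_surj _ _ hfree η hη) (toN_surj _ _ hfree η' hη')
    (act (Φ.ρ l) 0 k z) (act (Φ.ρ l') 0 k z) (FreeAlgebra.lift ℂ (nL k x.1 ξ) z)
    (by
      rw [act_eq]
      exact lift_intertwine _ _ _ (toN_letter (Φ.ρ l) k x ξ η h) z)
    (by
      rw [act_eq]
      exact lift_intertwine _ _ _ (toN_letter (Φ.ρ l') k x ξ η' h') z)
    (fun f => hn l _ (by rw [if_pos h1]) f) (fun f => hn l' _ (by rw [if_neg h2, sub_zero]) f)
    (fun _ => 1)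
  have := congrFun k1 1
  simp at this

end

end CM2X

open CM2X in
theorem lemmaL {N : SG} [Fintype N] (Φ : IrrFam N) (k : Idx N → ℂ) (Ft : Φ.Λ → Prop)
    [DecidablePred Ft] (z : FA ℂ N) (hz : SepWord Φ k Ft z) (l l' : Φ.Λ) (x : VReg N)
    (ξ : Fin 2 → ℂ) (η : Fin (Φ.d l) → ℂ) (η' : Fin (Φ.d l') → ℂ) (hη : η ≠ 0) (hη' : η' ≠ 0)
    (h : ∀ y, η ᵥ* gau (Φ.ρ l) k x.1 y = (ξ ⬝ᵥ y) • η)
    (h' : ∀ y, η' ᵥ* gau (Φ.ρ l') k x.1 y = (ξ ⬝ᵥ y) • η') : Ft l ↔ Ft l' := by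
  -- a point with a free orbit at which the same hypotheses hold
  obtain ⟨x', hx', g1, g2⟩ : ∃ x' : VReg N, (∀ g : N, g.1.1 *ᵥ x'.1 = x'.1 → g = 1) ∧
      (∀ y, η ᵥ* gau (Φ.ρ l) k x'.1 y = (ξ ⬝ᵥ y) • η) ∧
      (∀ y, η' ᵥ* gau (Φ.ρ l') k x'.1 y = (ξ ⬝ᵥ y) • η') := by
    by_cases hN : ∃ s ∈ N, IsRefl s
    · exact ⟨x, fun g hg => smul_free hN g x (Subtype.ext hg), h, h'⟩
    · push Not at hN
      obtain ⟨v, hv⟩ := exists_free (N := N)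
      have hcr : ∀ w : N, cr k w = 0 := fun w => by
        unfold cr
        rw [dif_neg (hN w.1 w.2)]
      have hg0 : ∀ {d : ℕ} (ρ : N →* Matrix (Fin d) (Fin d) ℂ) (v y : Fin 2 → ℂ),
          gau ρ k v y = 0 := by
        intro d ρ v y
        unfold gau
        exact Finset.sum_eq_zero fun w _ => by rw [hcr, zero_mul, zero_smul]
      refine ⟨⟨v, fun g hg hr => absurd hr (hN g hg)⟩, hv, fun y => ?_, fun y => ?_⟩
      · rw [← h y, hg0, hg0]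
      · rw [← h' y, hg0, hg0]
  constructor
  · intro h1
    by_contra h2
    exact key Φ k Ft z hz l l' x' hx' ξ η η' hη hη' g1 g2 h1 h2
  · intro h1
    by_contra h2
    exact key Φ k Ft z hz l' l x' hx' ξ η' η hη' hη g2 g1 h1 h2

end

end Pool.Agent.CMF
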