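import Pool.Agent.CMF.T0E

/-!
CMF, module CM3: common joint eigenvalues of the Gaudin operators (Theorem T0).
-/

namespace Pool.Agent.CMF

open Matrix

noncomputable section

namespace CM3X

variable {N : SG} [Fintype N]

omit [Fintype N] in
lemma lfv_dot (a v : Fin 2 → ℂ) : lfv a v = a ⬝ᵥ v := (DunAX.dot2 a v).symm

lemma br_ne (H H' : Arr N) (h : H ≠ H') : br (lf H.1) (lf H'.1) ≠ 0 := by
  intro hb
  apply h
  apply Subtype.ext
  have key : ∀ K K' : Arr N, br (lf K.1) (lf K'.1) = 0 → ∀ v ∈ K'.1, v ∈ K.1 := by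
    intro K K' hK v hv
    rw [(lf_spec K').2, ← lfv_dot, lf_zero_iff _ (lf_spec K').1] at hv
    obtain ⟨t, rfl⟩ := hv
    rw [(lf_spec K).2, ← lfv_dot, lf_smul, lf_jv, hK, mul_zero]
  have hb' : br (lf H'.1) (lf H.1) = 0 := by rw [br_swap, hb, neg_zero]
  ext v
  exact ⟨fun hv => key H' H hb' v hv, fun hv => key H H' hb v hv⟩

lemma exists_kappa (g : N) (H : Arr N) :
    ∃ c : ℂ, ∀ v, lfv (lf (permH g H).1) (g.1.1 *ᵥ v) = c * lfv (lf H.1) v := by
  set b := lf (permH g H).1 with hb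
  set a := lf H.1 with ha
  have ha0 : a ≠ 0 := (lf_spec H).1
  have h1 : lfv b (g.1.1 *ᵥ jv a) = 0 := by
    have h2 : jv a ∈ H.1 := by
      rw [(lf_spec H).2, ← lfv_dot]; exact lf_jv_self a
    have h3 : g.1.1 *ᵥ jv a ∈ (permH g H).1 := by
      show g.1.1 *ᵥ jv a ∈ mapL g.1 H.1
      rw [mem_mapL, Matrix.mulVec_mulVec, ← Units.val_mul, inv_mul_cancel]
      simpa using h2
    rw [(lf_spec (permH g H)).2, ← lfv_dot] at h3
    exact h3
  have h2 : ∀ v, lfv b (g.1.1 *ᵥ v) = (b 0 * g.1.1 0 0 + b 1 * g.1.1 1 0) * v 0 +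
      (b 0 * g.1.1 0 1 + b 1 * g.1.1 1 1) * v 1 := by
    intro v
    simp only [lfv, Matrix.mulVec, dotProduct, Fin.sum_univ_two]
    ring
  rw [h2] at h1
  simp only [jv, Matrix.cons_val_zero, Matrix.cons_val_one, Matrix.cons_val_fin_one] at h1
  by_cases h0 : a 0 = 0
  · have h01 : a 1 ≠ 0 := by
      intro h01; apply ha0; ext i; fin_cases i
      · exact h0
      · exact h01
    refine ⟨(b 0 * g.1.1 0 1 + b 1 * g.1.1 1 1) / a 1, fun v => ?_⟩
    rw [h2]
    rw [h0, neg_zero, mul_zero, add_zero] at h1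
    have h3 : b 0 * g.1.1 0 0 + b 1 * g.1.1 1 0 = 0 := by
      rcases mul_eq_zero.1 h1 with h | h
      · exact h
      · exact absurd h h01
    unfold lfv
    rw [h3, h0]
    field_simp
    ring
  · refine ⟨(b 0 * g.1.1 0 0 + b 1 * g.1.1 1 0) / a 0, fun v => ?_⟩
    rw [h2]
    have h3 : (b 0 * g.1.1 0 1 + b 1 * g.1.1 1 1) =
        (b 0 * g.1.1 0 0 + b 1 * g.1.1 1 0) / a 0 * a 1 := by
      field_simp
      linear_combination -h1
    rw [h3]
    unfold lfv
    field_simp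

/-- generator of the pointwise stabiliser -/
def gen (H : Arr N) : N := (exists_gen H).choose

lemma gen_fix (H : Arr N) : ∀ v ∈ H.1, (gen H).1.1 *ᵥ v = v := (exists_gen H).choose_spec.1

lemma gen_prim (H : Arr N) : IsPrimitiveRoot (gen H).1.1.det (eH N H.1) :=
  (exists_gen H).choose_spec.2.1

lemma gen_pow (H : Arr N) : (gen H) ^ (eH N H.1) = 1 := (exists_gen H).choose_spec.2.2.1

lemma gen_all (H : Arr N) : ∀ g : N, (∀ v ∈ H.1, g.1.1 *ᵥ v = v) → ∃ i : ℕ, g = (gen H) ^ i :=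
  (exists_gen H).choose_spec.2.2.2.1

lemma gen_refl (H : Arr N) : ∀ i, 0 < i → i < eH N H.1 → IsRefl ((gen H) ^ i).1 :=
  (exists_gen H).choose_spec.2.2.2.2

/-- the arrangement of `N` -/
def refArr (N : SG) [Fintype N] : RefArr (Arr N) where
  a H := lf H.1
  ha H := (lf_spec H).1
  hind H H' h := br_ne H H' h
  e H := eH N H.1
  he H := eH_pos N H
  ζ H := (gen H).1.1.det
  hζ H := gen_prim H
  w H := (gen H).1.1
  hw H v := by
    rw [lfv_dot, lfv_dot]
    exact lf_mul H (gen H) (gen_fix H) v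
  hwH H v hv := by
    rw [lfv_dot, ← (lf_spec H).2] at hv
    exact gen_fix H v hv
  σ H := permH (gen H)
  κ H H' := (exists_kappa (gen H) H').choose
  hperm H H' v := (exists_kappa (gen H) H').choose_spec v

/-- the sum of the operators of the lines is a scalar -/
lemma exists_scalar {d : ℕ} (ρ : N →* Matrix (Fin d) (Fin d) ℂ) (k : Idx N → ℂ)
    (hρ : Submodule.span ℂ (Set.range ρ) = ⊤) :
    ∃ c : ℂ, ∑ H : Arr N, opL ρ k H = c • (1 : Matrix (Fin d) (Fin d) ℂ) := by
  set T := ∑ H : Arr N, opL ρ k H with hT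
  have h1 : ∀ g : N, ρ g * T = T * ρ g := by
    intro g
    rw [hT, Finset.mul_sum, Finset.sum_mul]
    apply Finset.sum_equiv (permH g)
    · intro H; simp
    · intro H _; exact opL_conj ρ k H g
  have h2 : ∀ M : Matrix (Fin d) (Fin d) ℂ, M * T = T * M := by
    intro M
    have hM : M ∈ Submodule.span ℂ (Set.range ρ) := by rw [hρ]; trivial
    induction hM using Submodule.span_induction with
    | mem M hM => obtain ⟨g, rfl⟩ := hM; exact h1 g
    | zero => simp
    | add A B _ _ hA hB => rw [add_mul, mul_add, hA, hB]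
    | smul c A _ hA => rw [smul_mul_assoc, mul_smul_comm, hA]
  have h3 : T ∈ Set.range (Matrix.scalar (Fin d) : ℂ →+* _) := by
    apply Matrix.mem_range_scalar_of_commute_single
    intro i j _
    exact h2 _
  obtain ⟨c, hc⟩ := h3
  refine ⟨c, ?_⟩
  rw [← hc]
  ext i j
  simp [Matrix.scalar_apply, Matrix.one_apply, Matrix.diagonal_apply]

lemma trace_sum_opL {d : ℕ} (ρ : N →* Matrix (Fin d) (Fin d) ℂ) (k : Idx N → ℂ) :
    (∑ H : Arr N, opL ρ k H).trace =
      ∑ H : Arr N, ∑ w : N, (open Classical in if fixL w.1 = H.1 then cr k w else 0) *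
        (ρ w).trace := by
  classical
  rw [Matrix.trace_sum]
  apply Finset.sum_congr rfl
  intro H _
  unfold opL
  rw [Matrix.trace_sum]
  apply Finset.sum_congr rfl
  intro w _
  rw [Matrix.trace_smul, smul_eq_mul]

end CM3X

open CM3X in
/-- Common joint eigenvalue.  `χ`, `ψ` irreducible, with proportional characters on the
reflections. -/
theorem exists_common {N : SG} [Fintype N] (hN : ∃ s ∈ N, IsRefl s) (k : Idx N → ℂ) {d d' : ℕ}
    (hd : 0 < d) (hd' : 0 < d')
    (ρ : N →* Matrix (Fin d) (Fin d) ℂ) (σ : N →* Matrix (Fin d') (Fin d') ℂ)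
    (hρ : Submodule.span ℂ (Set.range ρ) = ⊤) (hσ : Submodule.span ℂ (Set.range σ) = ⊤)
    (h : ∀ w : N, IsRefl w.1 → (ρ w).trace * d' = (σ w).trace * d) (x : VReg N) :
    ∃ (ξ : Fin 2 → ℂ) (η : Fin d → ℂ) (η' : Fin d' → ℂ), η ≠ 0 ∧ η' ≠ 0 ∧
      (∀ y, η ᵥ* gau ρ k x.1 y = (ξ ⬝ᵥ y) • η) ∧
      (∀ y, η' ᵥ* gau σ k x.1 y = (ξ ⬝ᵥ y) • η') := by
  classical
  have hx : ∀ H : Arr N, lfv (lf H.1) x.1 ≠ 0 := by
    intro H
    rw [lfv_dot]
    exact (vreg_iff x.1).1 x.2 H
  have hd0 : (d : ℂ) ≠ 0 := by exact_mod_cast hd.ne'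
  have hd0' : (d' : ℂ) ≠ 0 := by exact_mod_cast hd'.ne'
  obtain ⟨c, hc⟩ := exists_scalar ρ k hρ
  obtain ⟨c', hc'⟩ := exists_scalar σ k hσ
  have hcc : c' = c := by
    have h1 := trace_sum_opL ρ k
    have h2 := trace_sum_opL σ k
    rw [hc, Matrix.trace_smul, Matrix.trace_one, Fintype.card_fin, smul_eq_mul] at h1
    rw [hc', Matrix.trace_smul, Matrix.trace_one, Fintype.card_fin, smul_eq_mul] at h2
    have h3 : (c * d) * d' = (c' * d') * d := by
      rw [h1, h2, Finset.sum_mul, Finset.sum_mul]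
      apply Finset.sum_congr rfl
      intro H _
      rw [Finset.sum_mul, Finset.sum_mul]
      apply Finset.sum_congr rfl
      intro w _
      by_cases hw : IsRefl w.1
      · rw [mul_assoc, mul_assoc, h w hw]
      · rw [cr_zero k w hw]; simp
    have h4 : (c' - c) * (d * d') = 0 := by linear_combination -h3
    rcases mul_eq_zero.1 h4 with h5 | h5
    · exact sub_eq_zero.1 h5
    · rcases mul_eq_zero.1 h5 with h6 | h6
      · exact absurd h6 hd0
      · exact absurd h6 hd0'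
  subst hcc
  -- inverses of generators
  have hinv : ∀ H : Arr N, (gen H)⁻¹ = (gen H) ^ (eH N H.1 - 1) := by
    intro H
    apply inv_eq_of_mul_eq_one_left
    rw [← pow_succ, Nat.sub_add_cancel (eH_pos N H), gen_pow]
  have hinvσ : ∀ H : Arr N, σ (gen H) ^ (eH N H.1 - 1) = σ (gen H)⁻¹ := by
    intro H
    rw [hinv, map_pow]
  let R : Arr N → Module.End ℂ (Matrix (Fin d) (Fin d') ℂ) :=
    fun H => opE (opL ρ k H) (opL σ k H)
  let W : Arr N → Module.End ℂ (Matrix (Fin d) (Fin d') ℂ) :=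
    fun H => conjE (ρ (gen H)) (σ (gen H) ^ (eH N H.1 - 1))
  have hR : ∑ H, R H = 0 := by
    apply LinearMap.ext
    intro X
    rw [LinearMap.sum_apply, LinearMap.zero_apply]
    show ∑ H : Arr N, (opL ρ k H * X - X * opL σ k H) = 0
    rw [Finset.sum_sub_distrib, ← Matrix.sum_mul, ← Matrix.mul_sum, hc, hc']
    simp
  have hρe : ∀ H : Arr N, ρ (gen H) ^ (eH N H.1) = 1 := by
    intro H; rw [← map_pow, gen_pow, map_one]
  have hσe : ∀ H : Arr N, σ (gen H) ^ (eH N H.1) = 1 := by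
    intro H; rw [← map_pow, gen_pow, map_one]
  have hW : ∀ H, W H ^ (refArr N).e H = 1 := by
    intro H
    show conjE (ρ (gen H)) (σ (gen H) ^ (eH N H.1 - 1)) ^ (eH N H.1) = 1
    rw [conjE_pow, hρe, ← pow_mul, mul_comm, pow_mul, hσe, one_pow]
    apply LinearMap.ext
    intro X
    simp [conjE]
  have hWR : ∀ H H', W H * R H' = R ((refArr N).σ H H') * W H := by
    intro H H'
    apply LinearMap.ext
    intro X
    show ρ (gen H) * (opL ρ k H' * X - X * opL σ k H') * σ (gen H) ^ (eH N H.1 - 1) =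
      opL ρ k (permH (gen H) H') * (ρ (gen H) * X * σ (gen H) ^ (eH N H.1 - 1)) -
      (ρ (gen H) * X * σ (gen H) ^ (eH N H.1 - 1)) * opL σ k (permH (gen H) H')
    have h1 := opL_conj ρ k H' (gen H)
    have h2 := opL_conj σ k H' (gen H)
    have h3 : opL σ k H' * σ (gen H)⁻¹ = σ (gen H)⁻¹ * opL σ k (permH (gen H) H') := by
      have h4 : σ (gen H)⁻¹ * σ (gen H) = 1 := by rw [← map_mul, inv_mul_cancel, map_one]
      have h5 : σ (gen H) * σ (gen H)⁻¹ = 1 := by rw [← map_mul, mul_inv_cancel, map_one]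
      calc opL σ k H' * σ (gen H)⁻¹
          = (σ (gen H)⁻¹ * σ (gen H)) * opL σ k H' * σ (gen H)⁻¹ := by rw [h4, one_mul]
        _ = σ (gen H)⁻¹ * (σ (gen H) * opL σ k H') * σ (gen H)⁻¹ := by
            simp only [mul_assoc]
        _ = σ (gen H)⁻¹ * opL σ k (permH (gen H) H') * (σ (gen H) * σ (gen H)⁻¹) := by
            rw [h2]; simp only [mul_assoc]
        _ = _ := by rw [h5, mul_one]
    rw [hinvσ, Matrix.mul_sub, Matrix.sub_mul]
    congr 1
    · rw [← Matrix.mul_assoc, h1]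
      simp only [Matrix.mul_assoc]
    · simp only [Matrix.mul_assoc]
      rw [h3]
  have hker : ∀ H X, W H X = X → R H X = 0 := by
    intro H X hX
    have h1 : ρ (gen H) * X * σ (gen H) ^ (eH N H.1 - 1) = X := hX
    rw [hinvσ] at h1
    have h2 : ρ (gen H) * X = X * σ (gen H) := by
      have h3 : σ (gen H)⁻¹ * σ (gen H) = 1 := by rw [← map_mul, inv_mul_cancel, map_one]
      calc ρ (gen H) * X = ρ (gen H) * X * (σ (gen H)⁻¹ * σ (gen H)) := by
            rw [h3, Matrix.mul_one]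
        _ = (ρ (gen H) * X * σ (gen H)⁻¹) * σ (gen H) := by simp only [Matrix.mul_assoc]
        _ = _ := by rw [h1]
    have h3 : ∀ i : ℕ, ρ (gen H ^ i) * X = X * σ (gen H ^ i) := by
      intro i
      induction i with
      | zero => simp
      | succ i ih =>
        rw [pow_succ, map_mul, map_mul, Matrix.mul_assoc, h2, ← Matrix.mul_assoc, ih,
          Matrix.mul_assoc]
    show opL ρ k H * X - X * opL σ k H = 0
    unfold opL
    rw [Matrix.sum_mul, Matrix.mul_sum, ← Finset.sum_sub_distrib]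
    apply Finset.sum_eq_zero
    intro w _
    by_cases hw : fixL w.1 = H.1
    · rw [if_pos hw]
      have h4 : ∀ v ∈ H.1, w.1.1 *ᵥ v = v := by
        intro v hv
        rw [← hw, DunAX.mem_fixL] at hv
        exact hv
      obtain ⟨i, rfl⟩ := gen_all H w h4
      rw [Matrix.smul_mul, Matrix.mul_smul, h3, sub_self]
    · rw [if_neg hw]; simp
  have hline : ∀ H : Arr N, d * d' ≤ eH N H.1 *
      Module.finrank ℂ (LinearMap.ker (W H - 1)) := by
    intro H
    apply line_count hd hd' _ _ _ (eH_pos N H) _ (gen_prim H) (hρe H) (hσe H)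
    intro i hi hie
    rw [← map_pow, ← map_pow]
    exact h _ (gen_refl H i hi hie)
  have hfr : Module.finrank ℂ (Matrix (Fin d) (Fin d') ℂ) = d * d' := by
    rw [Module.finrank_matrix, Fintype.card_fin, Fintype.card_fin, Module.finrank_self, mul_one]
  have hcount : Fintype.card (Arr N) * Module.finrank ℂ (Matrix (Fin d) (Fin d') ℂ) <
      ∑ H, (refArr N).e H * Module.finrank ℂ (LinearMap.ker (W H - 1)) +
        2 * Module.finrank ℂ (Matrix (Fin d) (Fin d') ℂ) := by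
    rw [hfr]
    have h1 : Fintype.card (Arr N) * (d * d') ≤
        ∑ H, (refArr N).e H * Module.finrank ℂ (LinearMap.ker (W H - 1)) := by
      rw [← Finset.card_univ, ← smul_eq_mul, ← Finset.sum_const]
      exact Finset.sum_le_sum (fun H _ => hline H)
    have h2 : 0 < d * d' := Nat.mul_pos hd hd'
    omega
  have key := (refArr N).det_qp_zero R W hR hW hWR hker hcount x.1
  obtain ⟨X, hX1, hX2⟩ := (Submodule.ne_bot_iff _).1
    (LinearMap.bot_lt_ker_of_det_eq_zero key).ne'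
  rw [LinearMap.mem_ker, LinearMap.sum_apply] at hX1
  let q : Arr N → ℂ := fun H => MvPolynomial.eval x.1 (qp (refArr N).a H)
  have hPQ : (∑ H, q H • opL ρ k H) * X = X * (∑ H, q H • opL σ k H) := by
    rw [← sub_eq_zero, Matrix.sum_mul, Matrix.mul_sum, ← Finset.sum_sub_distrib, ← hX1]
    apply Finset.sum_congr rfl
    intro H _
    rw [Matrix.smul_mul, Matrix.mul_smul, ← smul_sub]
    rfl
  obtain ⟨μ, η, η', hη, hη', h1, h2⟩ := common_eigen _ _ X hX2 hPQ
  -- the vector field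
  set θ := thv (refArr N).a x.1 with hθ
  have hq : ∀ H, q H = lfv (lf H.1) θ / lfv (lf H.1) x.1 := fun H =>
    eval_qp (refArr N).a x.1 hx H
  set δ := x.1 0 * θ 1 - x.1 1 * θ 0 with hδ
  have hδ0 : δ ≠ 0 := by
    have h3 : δ = - ((∏ H : Arr N, lfv (lf H.1) x.1) * (Fintype.card (Arr N) : ℂ)) := by
      rw [hδ, hθ]
      unfold thv
      simp only [Pi.smul_apply, Finset.sum_apply, smul_eq_mul]
      have h4 : ∀ H : Arr N, x.1 0 * ((lfv ((refArr N).a H) x.1)⁻¹ * jv ((refArr N).a H) 1) -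
          x.1 1 * ((lfv ((refArr N).a H) x.1)⁻¹ * jv ((refArr N).a H) 0) = -1 := by
        intro H
        have h5 : lfv ((refArr N).a H) x.1 ≠ 0 := hx H
        simp only [jv, Matrix.cons_val_zero, Matrix.cons_val_one, Matrix.cons_val_fin_one]
        field_simp
        unfold lfv; ring
      have h6 : (x.1 0 * ∑ H : Arr N, (lfv ((refArr N).a H) x.1)⁻¹ * jv ((refArr N).a H) 1) -
          (x.1 1 * ∑ H : Arr N, (lfv ((refArr N).a H) x.1)⁻¹ * jv ((refArr N).a H) 0) =
          - (Fintype.card (Arr N) : ℂ) := by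
        rw [Finset.mul_sum, Finset.mul_sum, ← Finset.sum_sub_distrib,
          Finset.sum_congr rfl (fun H _ => h4 H), Finset.sum_const, Finset.card_univ]
        simp
      have h7 : (∏ H : Arr N, lfv ((refArr N).a H) x.1) = ∏ H : Arr N, lfv (lf H.1) x.1 := rfl
      rw [h7]
      linear_combination (∏ H : Arr N, lfv (lf H.1) x.1) * h6
    rw [h3]
    apply neg_ne_zero.2
    apply mul_ne_zero
    · exact Finset.prod_ne_zero_iff.2 (fun H _ => hx H)
    · obtain ⟨s, hs, hr⟩ := hN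
      have : Nonempty (Arr N) := ⟨⟨fixL s, s, hs, hr, rfl⟩⟩
      exact_mod_cast (Fintype.card_pos (α := Arr N)).ne'
  have hrat : ∀ (H : Arr N) (y : Fin 2 → ℂ), rat H.1 y x.1 =
      (y 0 * θ 1 - y 1 * θ 0) / δ + (x.1 0 * y 1 - x.1 1 * y 0) / δ * q H := by
    intro H y
    rw [hq]
    unfold rat
    rw [← lfv_dot, ← lfv_dot]
    have h3 := hx H
    field_simp
    rw [hδ]
    unfold lfv
    ring
  have hgau : ∀ {m : ℕ} (τ : N →* Matrix (Fin m) (Fin m) ℂ) (ω : Fin m → ℂ) (y : Fin 2 → ℂ),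
      ∑ H : Arr N, opL τ k H = c' • (1 : Matrix (Fin m) (Fin m) ℂ) →
      ω ᵥ* (∑ H, q H • opL τ k H) = μ • ω →
      ω ᵥ* gau τ k x.1 y = ((y 0 * θ 1 - y 1 * θ 0) / δ * c' +
        (x.1 0 * y 1 - x.1 1 * y 0) / δ * μ) • ω := by
    intro m τ ω y h3 h4
    have h5 : gau τ k x.1 y = ((y 0 * θ 1 - y 1 * θ 0) / δ) • (∑ H : Arr N, opL τ k H) +
        ((x.1 0 * y 1 - x.1 1 * y 0) / δ) • (∑ H, q H • opL τ k H) := by
      rw [gau_eq, Finset.smul_sum, Finset.smul_sum, ← Finset.sum_add_distrib]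
      apply Finset.sum_congr rfl
      intro H _
      rw [hrat, add_smul, smul_smul]
    rw [h5, h3, Matrix.vecMul_add, Matrix.vecMul_smul, Matrix.vecMul_smul,
      Matrix.vecMul_smul, Matrix.vecMul_one, h4, add_smul, smul_smul, smul_smul]
  have hdot : ∀ y : Fin 2 → ℂ, (![(θ 1 * c' - x.1 1 * μ) / δ, (x.1 0 * μ - θ 0 * c') / δ] ⬝ᵥ y) =
      (y 0 * θ 1 - y 1 * θ 0) / δ * c' + (x.1 0 * y 1 - x.1 1 * y 0) / δ * μ := by
    intro y
    rw [DunAX.dot2]
    simp only [Matrix.cons_val_zero, Matrix.cons_val_one, Matrix.cons_val_fin_one]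
    field_simp
    ring
  refine ⟨![(θ 1 * c' - x.1 1 * μ) / δ, (x.1 0 * μ - θ 0 * c') / δ], η, η', hη, hη', ?_, ?_⟩
  · intro y
    rw [hdot]
    exact hgau ρ η y hc h1
  · intro y
    rw [hdot]
    exact hgau σ η' y hc' h2

end

end Pool.Agent.CMF
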