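import Pool.Agent.CMF.CM2
import Pool.Agent.CMF.CM3

/-! Project CMF, file CM3b: proportional characters on the reflections give the same
Calogero-Moser side (from CM2 and CM3). -/

namespace Pool.Agent.CMF

open Matrix

noncomputable section

namespace CM3bX

/-- `V^reg` is not empty. -/
lemma exists_vreg (N : SG) [Fintype N] : Nonempty (VReg N) := by
  have h1 : ∀ i : {s : N // IsRefl s.1}, fixL i.1.1 ≠ ⊤ := by
    rintro ⟨s, hs⟩ h
    apply hs.1
    have h2 : Matrix.toLin' (s.1.1 - 1) = 0 := LinearMap.ker_eq_top.1 h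
    have h3 : s.1.1 - 1 = 0 := by
      have := congrArg LinearMap.toMatrix' h2
      simpa using this
    apply Units.ext
    show s.1.1 = 1
    exact sub_eq_zero.1 h3
  obtain ⟨x, hx⟩ := Submodule.exists_forall_notMem_of_forall_ne_top
    (fun i : {s : N // IsRefl s.1} => fixL i.1.1) h1
  refine ⟨⟨x, fun g hg hr h => hx ⟨⟨g, hg⟩, hr⟩ ?_⟩⟩
  show x ∈ LinearMap.ker (Matrix.toLin' (g.1 - 1))
  rw [LinearMap.mem_ker, Matrix.toLin'_apply, Matrix.sub_mulVec, h, Matrix.one_mulVec, sub_self]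

/-- The image of an irreducible representation spans the matrix algebra. -/
lemma span_top {N : SG} [Fintype N] (Φ : IrrFam N) (l : Φ.Λ) :
    Submodule.span ℂ (Set.range (Φ.ρ l)) = ⊤ := by
  rw [eq_top_iff]
  intro M _
  obtain ⟨a, ha⟩ := Φ.bij.2 (fun l' => if h : l' = l then h ▸ M else 0)
  have h1 : MonoidAlgebra.lift ℂ _ N (Φ.ρ l) a = M := by
    have := congrFun ha l
    simpa using this
  rw [← h1, MonoidAlgebra.lift_apply]
  refine Submodule.sum_mem _ fun g _ => Submodule.smul_mem _ _ (Submodule.subset_span ⟨g, rfl⟩)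

end CM3bX

/-- Theorem T0 for words (from CM2 and CM3). -/
theorem sepWord_euler {N : SG} [Fintype N] (hN : ∃ s ∈ N, IsRefl s) (Φ : IrrFam N)
    (k : Idx N → ℂ) (Ft : Φ.Λ → Prop) [DecidablePred Ft] (z : FA ℂ N)
    (hz : SepWord Φ k Ft z) (l l' : Φ.Λ)
    (h : ∀ w : N, IsRefl w.1 → (Φ.ρ l w).trace * (Φ.d l' : ℂ) = (Φ.ρ l' w).trace * (Φ.d l : ℂ)) :
    Ft l ↔ Ft l' := by
  obtain ⟨x⟩ := CM3bX.exists_vreg N
  obtain ⟨ξ, η, η', hη, hη', h1, h2⟩ := exists_common hN k (Φ.pos l) (Φ.pos l') (Φ.ρ l)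
    (Φ.ρ l') (CM3bX.span_top Φ l) (CM3bX.span_top Φ l') h x
  exact lemmaL Φ k Ft z hz l l' x ξ η η' hη hη' h1 h2

end

end Pool.Agent.CMF
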