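import Pool.Agent.CMF.Dun

/-! Project CMF, module CM4: deformation of the separating word (section 3, C4). -/

namespace Pool.Agent.CMF

open Matrix

noncomputable section

namespace CM4X

/-! ### Polynomial families of vectors -/

section fam

variable {V : Type} [AddCommGroup V] [Module ℂ V] {I : Type}

/-- Functions of `τ : I → ℂ` with values in `V` which are polynomial in `τ`. -/
def PolyV (I V : Type) [AddCommGroup V] [Module ℂ V] : Submodule ℂ ((I → ℂ) → V) :=
  Submodule.span ℂ {F | ∃ (p : MvPolynomial I ℂ) (v : V), F = fun τ => MvPolynomial.eval τ p • v}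

lemma polyV_const (v : V) : (fun _ : I → ℂ => v) ∈ PolyV I V :=
  Submodule.subset_span ⟨1, v, by funext τ; simp⟩

lemma polyV_map (L : V →ₗ[ℂ] V) {F : (I → ℂ) → V} (hF : F ∈ PolyV I V) :
    (fun τ => L (F τ)) ∈ PolyV I V := by
  refine Submodule.span_induction (p := fun F _ => (fun τ => L (F τ)) ∈ PolyV I V)
    ?_ ?_ ?_ ?_ hF
  · rintro F ⟨p, v, rfl⟩
    exact Submodule.subset_span ⟨p, L v, by funext τ; simp⟩
  · have := Submodule.zero_mem (PolyV I V)
    refine (congrArg (· ∈ PolyV I V) ?_).mpr this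
    funext τ; simp
  · intro F G _ _ h1 h2
    have := Submodule.add_mem _ h1 h2
    refine (congrArg (· ∈ PolyV I V) ?_).mpr this
    funext τ; simp
  · intro c F _ h1
    have := Submodule.smul_mem _ c h1
    refine (congrArg (· ∈ PolyV I V) ?_).mpr this
    funext τ; simp

lemma polyV_smul (q : MvPolynomial I ℂ) {F : (I → ℂ) → V} (hF : F ∈ PolyV I V) :
    (fun τ => MvPolynomial.eval τ q • F τ) ∈ PolyV I V := by
  refine Submodule.span_induction
    (p := fun F _ => (fun τ => MvPolynomial.eval τ q • F τ) ∈ PolyV I V) ?_ ?_ ?_ ?_ hF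
  · rintro F ⟨p, v, rfl⟩
    exact Submodule.subset_span ⟨q * p, v, by funext τ; simp [smul_smul]⟩
  · have := Submodule.zero_mem (PolyV I V)
    refine (congrArg (· ∈ PolyV I V) ?_).mpr this
    funext τ; simp
  · intro F G _ _ h1 h2
    have := Submodule.add_mem _ h1 h2
    refine (congrArg (· ∈ PolyV I V) ?_).mpr this
    funext τ; simp
  · intro c F _ h1
    have := Submodule.smul_mem _ c h1
    refine (congrArg (· ∈ PolyV I V) ?_).mpr this
    funext τ; simp [smul_comm c]

lemma polyV_eval (φ : V →ₗ[ℂ] ℂ) {F : (I → ℂ) → V} (hF : F ∈ PolyV I V) :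
    ∃ P : MvPolynomial I ℂ, ∀ τ, φ (F τ) = MvPolynomial.eval τ P := by
  refine Submodule.span_induction
    (p := fun F _ => ∃ P : MvPolynomial I ℂ, ∀ τ, φ (F τ) = MvPolynomial.eval τ P)
    ?_ ?_ ?_ ?_ hF
  · rintro F ⟨p, v, rfl⟩
    exact ⟨p * MvPolynomial.C (φ v), fun τ => by simp⟩
  · exact ⟨0, fun τ => by simp⟩
  · rintro F G _ _ ⟨P, hP⟩ ⟨Q, hQ⟩
    exact ⟨P + Q, fun τ => by simp [hP, hQ]⟩
  · rintro c F _ ⟨P, hP⟩
    exact ⟨MvPolynomial.C c * P, fun τ => by simp [hP]⟩

end fam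

/-! ### The action of a word is polynomial in the parameters -/

section actp

variable {N : SG} [Fintype N] {ι : Type} [Fintype ι] [DecidableEq ι]

lemma dunkl_zero (ρ : N →* Matrix ι ι ℂ) (y : Fin 2 → ℂ) :
    dunkl ρ 0 (0 : Idx N → ℂ) y = 0 := by
  have h := dunkl_lin ρ 1 0 0 0 0 y
  simp only [mul_zero, add_zero, smul_zero, one_smul] at h
  exact left_eq_add.1 h

lemma dunkl_smul (ρ : N →* Matrix ι ι ℂ) (a t : ℂ) (k : Idx N → ℂ) (y : Fin 2 → ℂ) :
    dunkl ρ (a * t) (a • k) y = a • dunkl ρ t k y := by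
  have h := dunkl_lin ρ a t 0 k 0 y
  simpa [dunkl_zero] using h

lemma dunkl_sum (ρ : N →* Matrix ι ι ℂ) {J : Type} (s : Finset J) (a : J → ℂ)
    (β : J → Idx N → ℂ) (y : Fin 2 → ℂ) :
    dunkl ρ 0 (∑ j ∈ s, a j • β j) y = ∑ j ∈ s, a j • dunkl ρ 0 (β j) y := by
  classical
  induction s using Finset.induction_on with
  | empty => simpa using dunkl_zero ρ y
  | insert j s hj ih =>
    rw [Finset.sum_insert hj, Finset.sum_insert hj, ← ih]
    have h := dunkl_lin ρ (a j) 0 0 (β j) (∑ j ∈ s, a j • β j) y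
    simpa using h

/-- The parameter family. -/
def kk {R : ℕ} (β : Fin R → Idx N → ℂ) (l : Idx N → ℂ) (r : ℂ) (τ : Option (Fin R) → ℂ) :
    Idx N → ℂ :=
  (∑ j, τ (some j) • β j) + (τ none * r) • l

lemma dunkl_kk (ρ : N →* Matrix ι ι ℂ) {R : ℕ} (β : Fin R → Idx N → ℂ) (l : Idx N → ℂ) (r : ℂ)
    (τ : Option (Fin R) → ℂ) (y : Fin 2 → ℂ) :
    dunkl ρ (τ none) (kk β l r τ) y =
      τ none • dunkl ρ 1 (r • l) y + ∑ j, τ (some j) • dunkl ρ 0 (β j) y := by
  have h := dunkl_lin ρ (τ none) 1 0 (r • l) (∑ j, τ (some j) • β j) y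
  rw [← dunkl_sum, ← h]
  congr 1
  · simp
  · rw [kk, add_comm, smul_smul]

lemma act_poly (ρ : N →* Matrix ι ι ℂ) {R : ℕ} (β : Fin R → Idx N → ℂ) (l : Idx N → ℂ) (r : ℂ)
    (w : FA ℂ N) : ∀ F ∈ PolyV (Option (Fin R)) (PolE ι),
      (fun τ => act ρ (τ none) (kk β l r τ) w (F τ)) ∈ PolyV (Option (Fin R)) (PolE ι) := by
  refine FreeAlgebra.induction ℂ (Gen N) (motive := fun w => ∀ F ∈ PolyV (Option (Fin R)) (PolE ι),
      (fun τ => act ρ (τ none) (kk β l r τ) w (F τ)) ∈ PolyV (Option (Fin R)) (PolE ι))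
    ?_ ?_ ?_ ?_ w
  · intro c F hF
    have := Submodule.smul_mem _ c hF
    refine (congrArg (· ∈ PolyV (Option (Fin R)) (PolE ι)) ?_).mpr this
    funext τ
    simp [Algebra.algebraMap_eq_smul_one]
  · rintro (a | a | g) F hF
    · have := polyV_map (xAct ι a) hF
      refine (congrArg (· ∈ PolyV (Option (Fin R)) (PolE ι)) ?_).mpr this
      funext τ
      simp [act]
    · have h1 := polyV_smul (MvPolynomial.X none)
        (polyV_map (dunkl ρ 1 (r • l) (Pi.single a 1)) hF)
      have h2 := Submodule.sum_mem (PolyV (Option (Fin R)) (PolE ι)) (t := Finset.univ)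
        (fun (j : Fin R) _ => polyV_smul (MvPolynomial.X (some j))
          (polyV_map (dunkl ρ 0 (β j) (Pi.single a 1)) hF))
      have := Submodule.add_mem _ h1 h2
      refine (congrArg (· ∈ PolyV (Option (Fin R)) (PolE ι)) ?_).mpr this
      funext τ
      simp only [act, FreeAlgebra.lift_ι_apply, dunkl_kk]
      simp [Finset.sum_apply]
    · have := polyV_map (gAct ρ g) hF
      refine (congrArg (· ∈ PolyV (Option (Fin R)) (PolE ι)) ?_).mpr this
      funext τ
      simp [act]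
  · intro a b ha hb F hF
    have := ha _ (hb F hF)
    refine (congrArg (· ∈ PolyV (Option (Fin R)) (PolE ι)) ?_).mpr this
    funext τ
    simp [map_mul]
  · intro a b ha hb F hF
    have := Submodule.add_mem _ (ha F hF) (hb F hF)
    refine (congrArg (· ∈ PolyV (Option (Fin R)) (PolE ι)) ?_).mpr this
    funext τ
    simp [map_add]

/-- Rescaling of the letters `Y`. -/
def sigma (t : ℂ) : FA ℂ N →ₐ[ℂ] FA ℂ N :=
  FreeAlgebra.lift ℂ fun a => match a with
    | Gen.X i => fX i
    | Gen.Y i => t • fY i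
    | Gen.T g => fT g

lemma act_sigma (ρ : N →* Matrix ι ι ℂ) (t : ℂ) (k : Idx N → ℂ) (w : FA ℂ N) :
    act ρ 1 k (sigma t w) = act ρ t (t • k) w := by
  have h : (act ρ 1 k).comp (sigma t) = act ρ t (t • k) := by
    apply FreeAlgebra.hom_ext
    funext a
    rcases a with (i | i | g)
    · simp [sigma, act, fX]
    · have h2 := dunkl_smul ρ t 1 k (Pi.single i 1)
      rw [mul_one] at h2
      simp [sigma, act, fY, h2]
    · simp [sigma, act, fT]
  exact DFunLike.congr_fun h w

end actp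

/-! ### Degrees -/

section deg

variable {ι : Type}

instance finite_degE [Finite ι] (n : ℕ) : Module.Finite ℂ (degE ι n) := by
  let L : degE ι n →ₗ[ℂ] (ι → MvPolynomial.restrictTotalDegree (Fin 2) ℂ n) :=
    { toFun := fun f i => ⟨f.1 i, (MvPolynomial.mem_restrictTotalDegree _ _ _).2 (f.2 i)⟩
      map_add' := fun f g => rfl
      map_smul' := fun c f => rfl }
  refine Module.Finite.of_injective L ?_
  intro f g h
  apply Subtype.ext
  funext i
  exact congrArg Subtype.val (congrFun h i)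

lemma homE_le {n m : ℕ} (h : m ≤ n) : homE ι m ≤ degE ι n :=
  fun _ hf i => (hf i).totalDegree_le.trans h

/-- Homogeneous component. -/
def comp (m : ℕ) (f : PolE ι) : PolE ι := fun i => MvPolynomial.homogeneousComponent m (f i)

lemma comp_mem (m : ℕ) (f : PolE ι) : comp m f ∈ homE ι m :=
  fun i => MvPolynomial.homogeneousComponent_isHomogeneous m (f i)

lemma sum_comp {n : ℕ} {f : PolE ι} (hf : f ∈ degE ι n) :
    ∑ m ∈ Finset.range (n + 1), comp m f = f := by
  funext i
  rw [Finset.sum_apply]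
  show ∑ m ∈ Finset.range (n + 1), MvPolynomial.homogeneousComponent m (f i) = f i
  conv_rhs => rw [← MvPolynomial.sum_homogeneousComponent (f i)]
  symm
  refine Finset.sum_subset ?_ ?_
  · intro m hm
    have h2 : (f i).totalDegree ≤ n := hf i
    rw [Finset.mem_range] at hm ⊢
    omega
  · intro m _ hm
    rw [Finset.mem_range] at hm
    exact MvPolynomial.homogeneousComponent_eq_zero _ _ (by omega)

lemma deg_pres {T : Module.End ℂ (PolE ι)} (hT : ∀ n, ∀ f ∈ homE ι n, T f ∈ homE ι n) (n : ℕ) :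
    ∀ f ∈ degE ι n, T f ∈ degE ι n := by
  intro f hf
  rw [← sum_comp hf, map_sum]
  refine Submodule.sum_mem _ fun m hm => ?_
  rw [Finset.mem_range] at hm
  exact homE_le (by omega) (hT m _ (comp_mem m f))

lemma nil_deg {S : Module.End ℂ (PolE ι)} (hS : ∀ n, ∀ f ∈ homE ι n, (S ^ (n + 1)) f = 0) (n : ℕ) :
    ∀ f ∈ degE ι n, (S ^ (n + 1)) f = 0 := by
  intro f hf
  rw [← sum_comp hf, map_sum]
  refine Finset.sum_eq_zero fun m hm => ?_
  rw [Finset.mem_range] at hm
  have h1 : n + 1 = (n - m) + (m + 1) := by omega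
  rw [h1, pow_add, Module.End.mul_apply, hS m _ (comp_mem m f), map_zero]

end deg

/-! ### Matrices -/

section mat

open Polynomial

lemma exists_inv_poly {D : ℕ} (A : Matrix (Fin D) (Fin D) ℂ) (p : ℂ[X])
    (h : (aeval A p).det ≠ 0) : ∃ g : ℂ[X], aeval A (g * p) = 1 := by
  set B : Matrix (Fin D) (Fin D) ℂ := aeval A p with hB
  have hc : B.charpoly.coeff 0 ≠ 0 := by
    intro h0
    apply h
    rw [Matrix.det_eq_sign_charpoly_coeff, h0, mul_zero]
  have h1 : aeval B B.charpoly = 0 := Matrix.aeval_self_charpoly B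
  rw [← divX_mul_X_add B.charpoly, map_add, map_mul, aeval_X, aeval_C] at h1
  refine ⟨C (-(B.charpoly.coeff 0)⁻¹) * (B.charpoly.divX).comp p, ?_⟩
  rw [map_mul, map_mul, aeval_C, aeval_comp, ← hB, mul_assoc, eq_neg_of_add_eq_zero_left h1,
    mul_neg, ← map_mul, neg_mul, inv_mul_cancel₀ hc]
  simp

lemma det_aeval_ne {D : ℕ} (A : Matrix (Fin D) (Fin D) ℂ) (hA : IsNilpotent (A - 1)) (p : ℂ[X])
    (hp : p.eval 1 ≠ 0) : (aeval A p).det ≠ 0 := by
  obtain ⟨q, hq⟩ := Polynomial.X_sub_C_dvd_sub_C_eval (p := p) (a := (1 : ℂ))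
  have h1 : aeval A p = (A - 1) * aeval A q + algebraMap ℂ _ (p.eval 1) := by
    have h2 : p = (X - C 1) * q + C (p.eval 1) := by rw [← hq]; ring
    conv_lhs => rw [h2]
    simp
  have h2 : Commute (A - 1) (aeval A q) := by
    have h3 : Commute A (aeval A q) := by
      have := Polynomial.aeval_X (R := ℂ) A
      have h4 : (X : ℂ[X]) * q = q * X := mul_comm _ _
      have h5 := congrArg (aeval A) h4
      rw [map_mul, map_mul, this] at h5
      exact h5
    exact Commute.sub_left h3 (Commute.one_left _)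
  have h3 : IsNilpotent ((A - 1) * aeval A q) := h2.isNilpotent_mul_right hA
  have h4 : IsUnit (aeval A p) := by
    rw [h1]
    have h5 : IsUnit (algebraMap ℂ (Matrix (Fin D) (Fin D) ℂ) (p.eval 1)) :=
      (IsUnit.mk0 _ hp).map _
    rw [add_comm]
    exact h3.isUnit_add_left_of_commute h5 (Algebra.commutes _ _).symm
  exact ((Matrix.isUnit_iff_isUnit_det _).1 h4).ne_zero

lemma prod_one {D : ℕ} (A : Matrix (Fin D) (Fin D) ℂ) (p : ℂ[X]) (hp : aeval A p = 0)
    {J : Type} (g : J → ℂ[X]) (s : Finset J) : aeval A (∏ j ∈ s, (1 - g j * p)) = 1 := by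
  classical
  induction s using Finset.induction_on with
  | empty => simp
  | insert j s hj ih =>
    rw [Finset.prod_insert hj, map_mul, ih, map_sub, map_one, map_mul, hp, mul_zero, sub_zero,
      mul_one]

lemma eval_charpoly_ne {D : ℕ} (A : Matrix (Fin D) (Fin D) ℂ) (hA : IsNilpotent A) :
    A.charpoly.eval 1 ≠ 0 := by
  rw [Matrix.eval_charpoly, map_one]
  exact ((Matrix.isUnit_iff_isUnit_det _).1 hA.isUnit_one_sub).ne_zero

variable {V : Type} [AddCommGroup V] [Module ℂ V] {W : Submodule ℂ V} {D : ℕ}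
  (b : Module.Basis (Fin D) ℂ W)

/-- The matrix of the restriction of `T` to `W`. -/
def mt (T : Module.End ℂ V) (h : ∀ w ∈ W, T w ∈ W) : Matrix (Fin D) (Fin D) ℂ :=
  LinearMap.toMatrixAlgEquiv b (T.restrict h)

lemma aeval_restrict (T : Module.End ℂ V) (h : ∀ w ∈ W, T w ∈ W) (p : ℂ[X]) (w : W) :
    ((aeval (T.restrict h : Module.End ℂ W) p) w : V) = (aeval T p) w.1 := by
  induction p using Polynomial.induction_on' with
  | add p q hp hq => simp [hp, hq]
  | monomial m c =>
    rw [aeval_monomial, aeval_monomial]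
    have h1 : ∀ m : ℕ, (((T.restrict h : Module.End ℂ W) ^ m) w : V) = (T ^ m) w.1 := by
      intro m
      induction m with
      | zero => simp
      | succ m ih =>
        rw [pow_succ', pow_succ', Module.End.mul_apply, Module.End.mul_apply, ← ih]
        rfl
    simp [h1]

lemma aeval_mt (T : Module.End ℂ V) (h : ∀ w ∈ W, T w ∈ W) (p : ℂ[X]) :
    aeval (mt b T h) p = LinearMap.toMatrixAlgEquiv b (aeval (T.restrict h : Module.End ℂ W) p) := by
  rw [mt]
  exact Polynomial.aeval_algHom_apply (LinearMap.toMatrixAlgEquiv b) _ p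

lemma aeval_one_of (T : Module.End ℂ V) (h : ∀ w ∈ W, T w ∈ W) (p : ℂ[X])
    (hp : aeval (mt b T h) p = 1) (w : V) (hw : w ∈ W) : (aeval T p) w = w := by
  have h1 : aeval (T.restrict h : Module.End ℂ W) p = 1 := by
    apply (LinearMap.toMatrixAlgEquiv b).injective
    rw [← aeval_mt, hp, map_one]
  have h2 := aeval_restrict T h p ⟨w, hw⟩
  rw [h1] at h2
  exact h2.symm

lemma aeval_zero_of (T : Module.End ℂ V) (h : ∀ w ∈ W, T w ∈ W) (p : ℂ[X])
    (hp : aeval (mt b T h) p = 0) (w : V) (hw : w ∈ W) : (aeval T p) w = 0 := by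
  have h1 : aeval (T.restrict h : Module.End ℂ W) p = 0 := by
    apply (LinearMap.toMatrixAlgEquiv b).injective
    rw [← aeval_mt, hp, map_zero]
  have h2 := aeval_restrict T h p ⟨w, hw⟩
  rw [h1] at h2
  exact h2.symm

lemma aeval_mt_zero (T : Module.End ℂ V) (h : ∀ w ∈ W, T w ∈ W) (p : ℂ[X])
    (hp : ∀ w ∈ W, (aeval T p) w = 0) : aeval (mt b T h) p = 0 := by
  rw [aeval_mt]
  have h1 : aeval (T.restrict h : Module.End ℂ W) p = 0 := by
    apply LinearMap.ext
    intro w
    apply Subtype.ext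
    rw [aeval_restrict]
    exact hp w.1 w.2
  rw [h1, map_zero]

end mat

/-! ### The generic matrices -/

section gen

open Polynomial

lemma exists_mat {N : SG} [Fintype N] {ι : Type} [Fintype ι] [DecidableEq ι]
    (ρ : N →* Matrix ι ι ℂ) (z : FA ℂ N)
    (hdeg : ∀ (t : ℂ) (k : Idx N → ℂ) (n : ℕ), ∀ f ∈ homE ι n, act ρ t k z f ∈ homE ι n)
    {R : ℕ} (β : Fin R → Idx N → ℂ) (l : Idx N → ℂ) (r : ℂ) (n : ℕ) :
    ∃ (D : ℕ) (b : Module.Basis (Fin D) ℂ (degE ι n))
      (M : Matrix (Fin D) (Fin D) (MvPolynomial (Option (Fin R)) ℂ)),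
      ∀ τ : Option (Fin R) → ℂ, (MvPolynomial.eval τ).mapMatrix M =
        mt b (act ρ (τ none) (kk β l r τ) z) (deg_pres (hdeg _ _) n) := by
  have b := Module.finBasis ℂ (degE ι n)
  refine ⟨_, b, ?_⟩
  have h1 : ∀ i j, ∃ P : MvPolynomial (Option (Fin R)) ℂ, ∀ τ : Option (Fin R) → ℂ,
      mt b (act ρ (τ none) (kk β l r τ) z) (deg_pres (hdeg _ _) n) i j =
        MvPolynomial.eval τ P := by
    intro i j
    obtain ⟨φ, hφ⟩ := LinearMap.exists_extend (p := degE ι n) (b.coord i)
    obtain ⟨P, hP⟩ := polyV_eval φ (act_poly ρ β l r z _ (polyV_const (b j : PolE ι)))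
    refine ⟨P, fun τ => ?_⟩
    rw [← hP τ, mt, LinearMap.toMatrixAlgEquiv_apply]
    have h2 := DFunLike.congr_fun hφ ((act ρ (τ none) (kk β l r τ) z).restrict
      (deg_pres (hdeg _ _) n) (b j))
    exact h2.symm
  choose P hP using h1
  refine ⟨fun i j => P i j, fun τ => ?_⟩
  ext i j
  rw [hP i j τ]
  rfl

/-- The point `(t, t x)`. -/
def par {R : ℕ} (t : ℂ) (x : Fin R → ℂ) : Option (Fin R) → ℂ := fun o => o.elim t fun j => t * x j

lemma kk_par {N : SG} {R : ℕ} (β : Fin R → Idx N → ℂ) (l : Idx N → ℂ) (r t : ℂ)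
    (x : Fin R → ℂ) : kk β l r (par t x) = t • ((∑ j, x j • β j) + r • l) := by
  simp only [kk, par, Option.elim]
  rw [smul_add, Finset.smul_sum, smul_smul]
  congr 1
  refine Finset.sum_congr rfl fun j _ => ?_
  rw [smul_smul]

lemma lineHol_eval {R : ℕ} (H : MvPolynomial (Option (Fin R)) ℂ) (t : ℂ) :
    LineHol (fun x : Fin R → ℂ => MvPolynomial.eval (par t x) H) := by
  constructor
  · refine (MvPolynomial.continuous_eval H).comp ?_
    refine continuous_pi fun o => ?_
    cases o with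
    | none => exact continuous_const
    | some j => exact continuous_const.mul (continuous_apply j)
  · intro x x'
    induction H using MvPolynomial.induction_on with
    | C a => simp
    | add p q hp hq =>
      simp only [map_add]
      exact hp.add hq
    | mul_X p o hp =>
      simp only [map_mul, MvPolynomial.eval_X]
      refine hp.mul ?_
      cases o with
      | none => exact differentiable_const t
      | some j =>
        show Differentiable ℂ fun s : ℂ => t * ((x + s • x') j)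
        simp only [Pi.add_apply, Pi.smul_apply, smul_eq_mul]
        fun_prop

end gen

end CM4X

open Polynomial in
/-- Deformation of the separating word. -/
theorem deform {N : SG} [Fintype N] (Φ : IrrFam N) (k₀ : Idx N → ℂ) (Ft : Φ.Λ → Prop)
    [DecidablePred Ft] (z : FA ℂ N) (hz : SepWord Φ k₀ Ft z)
    {R : ℕ} (β : Fin R → Idx N → ℂ) (x₀ : Fin R → ℂ) (hk : k₀ = ∑ j, x₀ j • β j)
    (l : Idx N → ℂ) (r : ℂ) (n : ℕ) :
    ∃ h : (Fin R → ℂ) → ℂ, LineHol h ∧ (∃ x, h x ≠ 0) ∧ ∀ x, h x ≠ 0 →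
      ∃ z' : FA ℂ N, ∀ l' : Φ.Λ, ∀ f ∈ degE (Fin (Φ.d l')) n,
        act (Φ.ρ l') 1 ((∑ j, x j • β j) + r • l) z' f = if Ft l' then f else 0 := by
  classical
  have hdeg := fun l' : Φ.Λ => fun (t : ℂ) (k : Idx N → ℂ) (n : ℕ) => hz.deg t k l' n
  choose D b M hM using fun l' : Φ.Λ => CM4X.exists_mat (Φ.ρ l') z (hdeg l') β l r n
  -- the product of the characteristic polynomials outside `Ft`
  set P0 : Polynomial (MvPolynomial (Option (Fin R)) ℂ) :=
    ∏ l' ∈ Finset.univ.filter (fun l' => ¬ Ft l'), (M l').charpoly with hP0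
  set H : MvPolynomial (Option (Fin R)) ℂ :=
    ∏ l' ∈ Finset.univ.filter (fun l' => Ft l'), (aeval (M l') P0).det with hH
  -- evaluation
  let A : (Option (Fin R) → ℂ) → ∀ l' : Φ.Λ, Matrix (Fin (D l')) (Fin (D l')) ℂ :=
    fun τ l' => (MvPolynomial.eval τ).mapMatrix (M l')
  let p0 : (Option (Fin R) → ℂ) → ℂ[X] := fun τ =>
    ∏ l' ∈ Finset.univ.filter (fun l' => ¬ Ft l'), (A τ l').charpoly
  have hp0 : ∀ τ, P0.map (MvPolynomial.eval τ) = p0 τ := by
    intro τ
    rw [hP0, Polynomial.map_prod]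
    refine Finset.prod_congr rfl fun l' _ => ?_
    exact (Matrix.charpoly_map (M l') (MvPolynomial.eval τ)).symm
  have hHe : ∀ τ, MvPolynomial.eval τ H =
      ∏ l' ∈ Finset.univ.filter (fun l' => Ft l'), (aeval (A τ l') (p0 τ)).det := by
    intro τ
    rw [hH, map_prod]
    refine Finset.prod_congr rfl fun l' _ => ?_
    rw [RingHom.map_det]
    congr 1
    rw [← hp0 τ]
    refine Polynomial.map_aeval_eq_aeval_map (φ := MvPolynomial.eval τ)
      (ψ := (MvPolynomial.eval τ).mapMatrix) ?_ P0 (M l')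
    apply RingHom.ext
    intro p
    ext i j
    simp [Matrix.algebraMap_matrix_apply]
    split_ifs <;> simp
  -- the value at `(0, x₀)`
  have h0 : MvPolynomial.eval (fun o : Option (Fin R) => o.elim 0 x₀) H ≠ 0 := by
    rw [hHe, Finset.prod_ne_zero_iff]
    set τ₀ : Option (Fin R) → ℂ := fun o => o.elim 0 x₀ with hτ
    have hkk : CM4X.kk β l r τ₀ = k₀ := by
      rw [hk]
      simp [CM4X.kk, hτ]
    have hnil : ∀ l' : Φ.Λ, (A τ₀ l' - algebraMap ℂ (Matrix (Fin (D l')) (Fin (D l')) ℂ)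
        (if Ft l' then 1 else 0)) ^ (n + 1) = 0 := by
      intro l'
      have h1 : (A τ₀ l' - algebraMap ℂ (Matrix (Fin (D l')) (Fin (D l')) ℂ)
          (if Ft l' then 1 else 0)) ^ (n + 1) =
          aeval (A τ₀ l') ((X - C (if Ft l' then (1 : ℂ) else 0)) ^ (n + 1) : ℂ[X]) := by simp
      rw [h1]
      show aeval ((MvPolynomial.eval τ₀).mapMatrix (M l'))
        ((X - C (if Ft l' then (1 : ℂ) else 0)) ^ (n + 1) : ℂ[X]) = 0
      rw [hM l' τ₀]
      refine CM4X.aeval_mt_zero _ _ _ _ fun w hw => ?_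
      have h2 := CM4X.nil_deg (S := act (Φ.ρ l') 0 k₀ z - if Ft l' then 1 else 0)
        (fun m f hf => hz.sep l' m f hf) n w hw
      have h3 : act (Φ.ρ l') (τ₀ none) (CM4X.kk β l r τ₀) z = act (Φ.ρ l') 0 k₀ z := by
        rw [hkk]
        rfl
      rw [h3]
      rw [← h2]
      congr 1
      rw [map_pow, map_sub, aeval_X, aeval_C]
      congr 2
      split_ifs <;> simp
    intro l' hl'
    have hl : Ft l' := (Finset.mem_filter.1 hl').2
    refine CM4X.det_aeval_ne _ ⟨n + 1, ?_⟩ _ ?_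
    · have := hnil l'
      rwa [if_pos hl, map_one] at this
    · show (∏ l' ∈ Finset.univ.filter (fun l' => ¬ Ft l'), (A τ₀ l').charpoly).eval 1 ≠ 0
      rw [Polynomial.eval_prod, Finset.prod_ne_zero_iff]
      intro l'' hl''
      have hl2 : ¬ Ft l'' := (Finset.mem_filter.1 hl'').2
      refine CM4X.eval_charpoly_ne _ ⟨n + 1, ?_⟩
      have := hnil l''
      rwa [if_neg hl2, map_zero, sub_zero] at this
  -- choice of `t`
  obtain ⟨t, ht1, ht0⟩ : ∃ t : ℂ,
      MvPolynomial.eval (fun o : Option (Fin R) => o.elim t x₀) H ≠ 0 ∧ t ≠ 0 := by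
    have hc : Continuous fun t : ℂ =>
        MvPolynomial.eval (fun o : Option (Fin R) => o.elim t x₀) H := by
      refine (MvPolynomial.continuous_eval H).comp ?_
      refine continuous_pi fun o => ?_
      cases o with
      | none => exact continuous_id
      | some j => exact continuous_const
    have h1 : ∀ᶠ t in nhds (0 : ℂ),
        MvPolynomial.eval (fun o : Option (Fin R) => o.elim t x₀) H ≠ 0 :=
      hc.continuousAt.eventually_ne h0
    have h2 : ∀ᶠ t in nhdsWithin (0 : ℂ) {0}ᶜ,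
        MvPolynomial.eval (fun o : Option (Fin R) => o.elim t x₀) H ≠ 0 ∧ t ≠ 0 :=
      (h1.filter_mono nhdsWithin_le_nhds).and self_mem_nhdsWithin
    exact h2.exists
  refine ⟨fun x => MvPolynomial.eval (CM4X.par t x) H, CM4X.lineHol_eval H t,
    ⟨fun j => x₀ j / t, ?_⟩, ?_⟩
  · have h1 : CM4X.par t (fun j => x₀ j / t) = fun o : Option (Fin R) => o.elim t x₀ := by
      funext o
      cases o with
      | none => rfl
      | some j =>
        show t * (x₀ j / t) = x₀ j
        field_simp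
    show MvPolynomial.eval (CM4X.par t fun j => x₀ j / t) H ≠ 0
    rw [h1]
    exact ht1
  · intro x hx
    set τ : Option (Fin R) → ℂ := CM4X.par t x with hτ
    have hx' : MvPolynomial.eval τ H ≠ 0 := hx
    rw [hHe, Finset.prod_ne_zero_iff] at hx'
    have h1 : ∀ l' : Φ.Λ, ∃ g : ℂ[X], Ft l' → aeval (A τ l') (g * p0 τ) = 1 := by
      intro l'
      by_cases hl : Ft l'
      · obtain ⟨g, hg⟩ := CM4X.exists_inv_poly _ _
          (hx' l' (Finset.mem_filter.2 ⟨Finset.mem_univ _, hl⟩))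
        exact ⟨g, fun _ => hg⟩
      · exact ⟨0, fun h => absurd h hl⟩
    choose g hg using h1
    set G : ℂ[X] := 1 - ∏ l' ∈ Finset.univ.filter (fun l' => Ft l'), (1 - g l' * p0 τ) with hG
    have hG1 : ∀ l', Ft l' → aeval (A τ l') G = 1 := by
      intro l' hl
      rw [hG, map_sub, map_one,
        ← Finset.mul_prod_erase _ _ (Finset.mem_filter.2 ⟨Finset.mem_univ l', hl⟩), map_mul,
        map_sub, map_one, hg l' hl, sub_self, zero_mul, sub_zero]
    have hG0 : ∀ l', ¬ Ft l' → aeval (A τ l') G = 0 := by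
      intro l' hl
      have h2 : aeval (A τ l') (p0 τ) = 0 := by
        show aeval (A τ l') (∏ l' ∈ Finset.univ.filter (fun l' => ¬ Ft l'), (A τ l').charpoly) = 0
        rw [← Finset.mul_prod_erase _ _ (Finset.mem_filter.2 ⟨Finset.mem_univ l', hl⟩), map_mul,
          Matrix.aeval_self_charpoly, zero_mul]
      have h3 := CM4X.prod_one (A τ l') (p0 τ) h2 g (Finset.univ.filter (fun l' => Ft l'))
      rw [hG, map_sub, map_one, h3, sub_self]
    refine ⟨CM4X.sigma t (aeval z G), fun l' f hf => ?_⟩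
    rw [CM4X.act_sigma, ← CM4X.kk_par]
    have h3 : act (Φ.ρ l') t (CM4X.kk β l r (CM4X.par t x)) (aeval z G) =
        aeval (act (Φ.ρ l') t (CM4X.kk β l r (CM4X.par t x)) z) G :=
      (Polynomial.aeval_algHom_apply (act (Φ.ρ l') t (CM4X.kk β l r (CM4X.par t x))) z G).symm
    rw [h3]
    have h4 := hM l' τ
    split_ifs with hl
    · refine CM4X.aeval_one_of (b l') (act (Φ.ρ l') t (CM4X.kk β l r τ) z)
        (CM4X.deg_pres (hdeg l' _ _) n) G ?_ f hf
      have h5 := hG1 l' hl
      rw [← h5]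
      congr 1
      exact congrArg (fun B => aeval B) h4.symm
    · refine CM4X.aeval_zero_of (b l') (act (Φ.ρ l') t (CM4X.kk β l r τ) z)
        (CM4X.deg_pres (hdeg l' _ _) n) G ?_ f hf
      have h5 := hG0 l' hl
      rw [← h5]
      congr 1
      exact congrArg (fun B => aeval B) h4.symm

end

end Pool.Agent.CMF
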