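import Pool.Agent.CMF.Dun

/-! Project CMF, module CM5: submodules of the polynomial modules split. -/

namespace Pool.Agent.CMF

open Matrix

noncomputable section

variable {N : SG} [Fintype N]

/-- `totRep` for a subfamily (this version replaces the one of Stub2). -/
def totRep' (Φ : IrrFam N) {Λ' : Type} [Fintype Λ'] [DecidableEq Λ'] (j : Λ' → Φ.Λ) :
    N →* Matrix (Σ l : Λ', Fin (Φ.d (j l)) × Fin (Φ.d (j l)))
      (Σ l : Λ', Fin (Φ.d (j l)) × Fin (Φ.d (j l))) ℂ where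
  toFun g := Matrix.blockDiagonal' fun l => Matrix.kroneckerMap (fun a b => a * b) (Φ.ρ (j l) g)
    (1 : Matrix (Fin (Φ.d (j l))) (Fin (Φ.d (j l))) ℂ)
  map_one' := by
    have h : (fun l : Λ' => Matrix.kroneckerMap (fun a b => a * b) (Φ.ρ (j l) 1)
        (1 : Matrix (Fin (Φ.d (j l))) (Fin (Φ.d (j l))) ℂ)) = 1 := by
      funext l
      rw [map_one]
      exact Matrix.one_kronecker_one
    rw [h, Matrix.blockDiagonal'_one]
  map_mul' g h := by
    rw [← Matrix.blockDiagonal'_mul]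
    congr 1
    funext l
    rw [map_mul]
    have := Matrix.mul_kronecker_mul (Φ.ρ (j l) g) (Φ.ρ (j l) h)
      (1 : Matrix (Fin (Φ.d (j l))) (Fin (Φ.d (j l))) ℂ)
      (1 : Matrix (Fin (Φ.d (j l))) (Fin (Φ.d (j l))) ℂ)
    rw [mul_one] at this
    exact this

namespace CM5X

variable (Φ : IrrFam N) {Λ' : Type} [Fintype Λ'] [DecidableEq Λ'] (j : Λ' → Φ.Λ)

/-- Index set of the total representation. -/
abbrev TI (Φ : IrrFam N) {Λ' : Type} (j : Λ' → Φ.Λ) : Type :=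
  Σ l : Λ', Fin (Φ.d (j l)) × Fin (Φ.d (j l))

lemma tot_eq (g : N) : totRep' Φ j g = Matrix.blockDiagonal' fun l =>
    Matrix.kroneckerMap (fun a b => a * b) (Φ.ρ (j l) g)
      (1 : Matrix (Fin (Φ.d (j l))) (Fin (Φ.d (j l))) ℂ) := rfl

lemma tot_sum {A : Type} [CommRing A] (c : ℂ →+* A) (g : N) (l : Λ') (i m : Fin (Φ.d (j l)))
    (F : TI Φ j → A) :
    ∑ y, c (totRep' Φ j g ⟨l, (i, m)⟩ y) * F y =
      ∑ i', c (Φ.ρ (j l) g i i') * F ⟨l, (i', m)⟩ := by
  rw [tot_eq, Fintype.sum_sigma, Fintype.sum_eq_single l]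
  · rw [Fintype.sum_prod_type]
    apply Finset.sum_congr rfl
    intro i' _
    rw [Fintype.sum_eq_single m]
    · rw [Matrix.blockDiagonal'_apply_eq]
      simp [Matrix.kroneckerMap]
    · intro m' hm'
      rw [Matrix.blockDiagonal'_apply_eq]
      simp [Matrix.kroneckerMap, Matrix.one_apply_ne (Ne.symm hm')]
  · intro l' hl'
    apply Finset.sum_eq_zero
    intro x _
    rw [Matrix.blockDiagonal'_apply_ne _ _ _ (Ne.symm hl')]
    simp

/-- Restriction to the `m`-th column of the `l`-block. -/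
def rr (l : Λ') (m : Fin (Φ.d (j l))) (f : PolE (TI Φ j)) : PolE (Fin (Φ.d (j l))) :=
  fun i => f ⟨l, (i, m)⟩

lemma rr_add (l : Λ') (m : Fin (Φ.d (j l))) (f f' : PolE (TI Φ j)) :
    rr Φ j l m (f + f') = rr Φ j l m f + rr Φ j l m f' := rfl

lemma rr_x (l : Λ') (m : Fin (Φ.d (j l))) (a : Fin 2) (f : PolE (TI Φ j)) :
    rr Φ j l m (xAct _ a f) = xAct _ a (rr Φ j l m f) := rfl

lemma rr_g (l : Λ') (m : Fin (Φ.d (j l))) (g : N) (f : PolE (TI Φ j)) :
    rr Φ j l m (gAct (totRep' Φ j) g f) = gAct (Φ.ρ (j l)) g (rr Φ j l m f) := by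
  funext i
  exact tot_sum Φ j MvPolynomial.C g l i m _

lemma rr_mulVec (l : Λ') (m : Fin (Φ.d (j l))) (g : N) (u : TI Φ j → ℂ) :
    (fun i => (totRep' Φ j g *ᵥ u) ⟨l, (i, m)⟩) =
      Φ.ρ (j l) g *ᵥ (fun i => u ⟨l, (i, m)⟩) := by
  funext i
  exact tot_sum Φ j (RingHom.id ℂ) g l i m u

lemma rr_dunkl (l : Λ') (m : Fin (Φ.d (j l))) (t : ℂ) (k : Idx N → ℂ) (y : Fin 2 → ℂ)
    (f : PolE (TI Φ j)) :
    rr Φ j l m (dunkl (totRep' Φ j) t k y f) = dunkl (Φ.ρ (j l)) t k y (rr Φ j l m f) := by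
  apply evE_ext (N := N)
  intro v
  rw [dunkl_spec (Φ.ρ (j l)) t k y (rr Φ j l m f) v]
  have h := dunkl_spec (totRep' Φ j) t k y f v
  have h2 : evE (rr Φ j l m (dunkl (totRep' Φ j) t k y f)) v.1 =
      fun i => evE (dunkl (totRep' Φ j) t k y f) v.1 ⟨l, (i, m)⟩ := rfl
  rw [h2, h]
  funext i
  simp only [Pi.add_apply, Pi.smul_apply, Finset.sum_apply]
  congr 1
  apply Finset.sum_congr rfl
  intro w _
  congr 1
  exact congrFun (rr_mulVec Φ j l m w _) i

lemma rr_act (l : Λ') (m : Fin (Φ.d (j l))) (t : ℂ) (k : Idx N → ℂ) (z : FA ℂ N) :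
    ∀ f : PolE (TI Φ j), rr Φ j l m (act (totRep' Φ j) t k z f) =
      act (Φ.ρ (j l)) t k z (rr Φ j l m f) := by
  induction z using FreeAlgebra.induction with
  | grade0 c =>
    intro f
    rw [AlgHom.commutes, AlgHom.commutes, Module.algebraMap_end_apply,
      Module.algebraMap_end_apply]
    rfl
  | grade1 a =>
    intro f
    unfold act
    rw [FreeAlgebra.lift_ι_apply, FreeAlgebra.lift_ι_apply]
    cases a with
    | X i => exact rr_x Φ j l m i f
    | Y i => exact rr_dunkl Φ j l m t k _ f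
    | T g => exact rr_g Φ j l m g f
  | mul a b ha hb =>
    intro f
    rw [map_mul, map_mul, Module.End.mul_apply, Module.End.mul_apply, ha, hb]
  | add a b ha hb =>
    intro f
    rw [map_add, map_add, LinearMap.add_apply, LinearMap.add_apply, rr_add, ha, hb]

lemma act_mem {ι : Type} [Fintype ι] [DecidableEq ι] (ρ : N →* Matrix ι ι ℂ) (t : ℂ)
    (k : Idx N → ℂ) (M : Submodule ℂ (PolE ι))
    (hx : ∀ a, ∀ f ∈ M, xAct _ a f ∈ M) (hg : ∀ g, ∀ f ∈ M, gAct ρ g f ∈ M)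
    (hD : ∀ y, ∀ f ∈ M, dunkl ρ t k y f ∈ M) (z : FA ℂ N) : ∀ f ∈ M, act ρ t k z f ∈ M := by
  induction z using FreeAlgebra.induction with
  | grade0 c =>
    intro f hf
    rw [AlgHom.commutes, Module.algebraMap_end_apply]
    exact M.smul_mem c hf
  | grade1 a =>
    intro f hf
    unfold act
    rw [FreeAlgebra.lift_ι_apply]
    cases a with
    | X i => exact hx i f hf
    | Y i => exact hD _ f hf
    | T g => exact hg g f hf
  | mul a b ha hb =>
    intro f hf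
    rw [map_mul, Module.End.mul_apply]
    exact ha _ (hb f hf)
  | add a b ha hb =>
    intro f hf
    rw [map_add, LinearMap.add_apply]
    exact M.add_mem (ha f hf) (hb f hf)

end CM5X

open CM5X

theorem split_sub' (Φ : IrrFam N) {Λ' : Type} [Fintype Λ'] [DecidableEq Λ'] (j : Λ' → Φ.Λ)
    (k' : Idx N → ℂ) (Ft : Φ.Λ → Prop) [DecidablePred Ft] (hs : SplitAt Φ k' Ft)
    (M : Submodule ℂ (PolE (Σ l : Λ', Fin (Φ.d (j l)) × Fin (Φ.d (j l)))))
    (hx : ∀ a, ∀ f ∈ M, xAct _ a f ∈ M) (hg : ∀ g, ∀ f ∈ M, gAct (totRep' Φ j) g f ∈ M)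
    (hD : ∀ y, ∀ f ∈ M, dunkl (totRep' Φ j) 1 k' y f ∈ M) :
    ∀ f ∈ M, (fun i => if Ft (j i.1) then f i else 0) ∈ M := by
  intro f hf
  obtain ⟨z, hz⟩ := hs (Finset.univ.sup fun i => (f i).totalDegree)
  have h1 : act (totRep' Φ j) 1 k' z f = fun i => if Ft (j i.1) then f i else 0 := by
    funext ⟨l, (i, m)⟩
    have h2 := rr_act Φ j l m 1 k' z f
    have h3 : rr Φ j l m f ∈ degE (Fin (Φ.d (j l)))
        (Finset.univ.sup fun i => (f i).totalDegree) := by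
      intro i'
      exact Finset.le_sup (f := fun i => (f i).totalDegree)
        (Finset.mem_univ (⟨l, (i', m)⟩ : TI Φ j))
    rw [hz (j l) _ h3] at h2
    have h4 := congrFun h2 i
    show act (totRep' Φ j) 1 k' z f ⟨l, (i, m)⟩ = if Ft (j l) then f ⟨l, (i, m)⟩ else 0
    have h5 : act (totRep' Φ j) 1 k' z f ⟨l, (i, m)⟩ =
      rr Φ j l m (act (totRep' Φ j) 1 k' z f) i := rfl
    rw [h5, h4]
    split_ifs <;> rfl
  rw [← h1]
  exact act_mem (totRep' Φ j) 1 k' M hx hg hD z f hf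

end

end Pool.Agent.CMF
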