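import Pool.Agent.CMF.DDefs

/-! Project CMF, module DunA: geometry of reflections in the plane. -/

namespace Pool.Agent.CMF

open Matrix

noncomputable section

namespace DunAX

/-- A nonzero singular `2 × 2` matrix: its kernel is the kernel of a nonzero linear form. -/
lemma exists_form (M : Matrix (Fin 2) (Fin 2) ℂ) (h0 : M ≠ 0) (hd : M.det = 0) :
    ∃ a : Fin 2 → ℂ, a ≠ 0 ∧ ∀ v, M *ᵥ v = 0 ↔ a ⬝ᵥ v = 0 := by
  rw [Matrix.det_fin_two] at hd
  by_cases hr : M 0 = 0
  · -- the first row vanishes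
    refine ⟨M 1, ?_, ?_⟩
    · intro h1
      apply h0
      ext i j
      fin_cases i
      · simpa using congrFun hr j
      · simpa using congrFun h1 j
    · intro v
      constructor
      · intro h
        have := congrFun h 1
        simpa [Matrix.mulVec] using this
      · intro h
        funext i
        fin_cases i
        · show M 0 ⬝ᵥ v = 0
          rw [hr]; simp
        · exact h
  · refine ⟨M 0, hr, ?_⟩
    intro v
    constructor
    · intro h
      exact congrFun h 0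
    · intro h
      have h' : M 0 0 * v 0 + M 0 1 * v 1 = 0 := by
        simpa [dotProduct, Fin.sum_univ_two] using h
      have h1 : M 1 0 * v 0 + M 1 1 * v 1 = 0 := by
        by_cases h00 : M 0 0 = 0
        · have h01 : M 0 1 ≠ 0 := by
            intro h01
            apply hr
            funext j
            fin_cases j
            · exact h00
            · exact h01
          have hv : v 1 = 0 := by
            rw [h00] at h'
            simpa [h01] using h'
          have h10 : M 1 0 = 0 := by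
            rw [h00] at hd
            have : M 0 1 * M 1 0 = 0 := by linear_combination -hd
            simpa [h01] using this
          rw [hv, h10]; ring
        · apply mul_left_cancel₀ h00
          linear_combination M 1 0 * h' + v 1 * hd
      funext i
      fin_cases i
      · exact h
      · show M 1 ⬝ᵥ v = 0
        simpa [dotProduct, Fin.sum_univ_two] using h1

lemma mem_fixL {g : GL (Fin 2) ℂ} {v : Fin 2 → ℂ} : v ∈ fixL g ↔ g.1 *ᵥ v = v := by
  show Matrix.toLin' (g.1 - 1) v = 0 ↔ _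
  rw [Matrix.toLin'_apply, Matrix.sub_mulVec, Matrix.one_mulVec, sub_eq_zero]

lemma exists_lf (H : Submodule ℂ (Fin 2 → ℂ)) (s : GL (Fin 2) ℂ) (hs : IsRefl s)
    (hH : H = fixL s) : ∃ a : Fin 2 → ℂ, a ≠ 0 ∧ ∀ v, v ∈ H ↔ a ⬝ᵥ v = 0 := by
  have h0 : s.1 - 1 ≠ 0 := by
    intro h
    apply hs.1
    ext1
    exact sub_eq_zero.1 h
  obtain ⟨a, ha, hav⟩ := exists_form (s.1 - 1) h0 hs.2
  refine ⟨a, ha, ?_⟩
  intro v
  rw [← hav v, hH]
  show Matrix.toLin' (s.1 - 1) v = 0 ↔ _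
  rw [Matrix.toLin'_apply]

/-- Coordinates. -/
lemma dot2 (a v : Fin 2 → ℂ) : a ⬝ᵥ v = a 0 * v 0 + a 1 * v 1 := by
  simp [dotProduct, Fin.sum_univ_two]

end DunAX

open DunAX

variable {N : SG} [Fintype N]

/-- In the plane: the fixed space of a reflection is a line, cut out by `lf`. -/
theorem lf_spec (H : Arr N) : lf H.1 ≠ 0 ∧ ∀ v, v ∈ H.1 ↔ lf H.1 ⬝ᵥ v = 0 := by
  obtain ⟨H, s, hsN, hs, hH⟩ := H
  have h := exists_lf H s hs hH
  show lf H ≠ 0 ∧ ∀ v, v ∈ H ↔ lf H ⬝ᵥ v = 0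
  unfold lf
  rw [dif_pos h]
  exact h.choose_spec

namespace DunAX

/-- A vector in the line `a ⬝ᵥ v = 0`. -/
lemma perp_mem (a : Fin 2 → ℂ) : a ⬝ᵥ ![a 1, - a 0] = 0 := by
  rw [dot2]; simp; ring

/-- Key computation: if `w` fixes the line `a = 0` pointwise then `a ∘ w = det w * a`. -/
lemma form_mul (a : Fin 2 → ℂ) (W : Matrix (Fin 2) (Fin 2) ℂ)
    (hw : ∀ v, a ⬝ᵥ v = 0 → W *ᵥ v = v) (v : Fin 2 → ℂ) :
    a ⬝ᵥ (W *ᵥ v) = W.det * (a ⬝ᵥ v) := by
  have h1 := hw _ (perp_mem a)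
  have e0 : W 0 0 * a 1 - W 0 1 * a 0 = a 1 := by
    have := congrFun h1 0
    simp [Matrix.mulVec, dotProduct, Fin.sum_univ_two] at this
    linear_combination this
  have e1 : W 1 0 * a 1 - W 1 1 * a 0 = - a 0 := by
    have := congrFun h1 1
    simp [Matrix.mulVec, dotProduct, Fin.sum_univ_two] at this
    linear_combination this
  have hd : W.det = W 0 0 * W 1 1 - W 0 1 * W 1 0 := Matrix.det_fin_two W
  have hv0 : (W *ᵥ v) 0 = W 0 0 * v 0 + W 0 1 * v 1 := by
    simp [Matrix.mulVec, dotProduct, Fin.sum_univ_two]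
  have hv1 : (W *ᵥ v) 1 = W 1 0 * v 0 + W 1 1 * v 1 := by
    simp [Matrix.mulVec, dotProduct, Fin.sum_univ_two]
  rw [dot2, dot2, hv0, hv1, hd]
  -- the matrix (a_0 W_00 + a_1 W_10 - det a_0, ...) is zero
  have c0 : a 0 * W 0 0 + a 1 * W 1 0 = (W 0 0 * W 1 1 - W 0 1 * W 1 0) * a 0 := by
    linear_combination (W 0 0) * e1 - W 1 0 * e0
  have c1 : a 0 * W 0 1 + a 1 * W 1 1 = (W 0 0 * W 1 1 - W 0 1 * W 1 0) * a 1 := by
    linear_combination (-W 1 1) * e0 + W 0 1 * e1
  linear_combination v 0 * c0 + v 1 * c1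

end DunAX

/-- `α_H(w v) = det(w) α_H(v)` for `w` fixing `H` pointwise. -/
theorem lf_mul (H : Arr N) (w : N) (hw : ∀ v ∈ H.1, w.1.1 *ᵥ v = v) (v : Fin 2 → ℂ) :
    lf H.1 ⬝ᵥ (w.1.1 *ᵥ v) = w.1.1.det * (lf H.1 ⬝ᵥ v) := by
  have h := lf_spec H
  exact form_mul _ _ (fun v hv => hw v ((h.2 v).2 hv)) v

namespace DunAX

lemma gl_ext {g h : GL (Fin 2) ℂ} (e : g.1 = h.1) : g = h := Units.ext e

/-- An element of a finite subgroup of determinant one which fixes a nonzero vector is trivial. -/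
lemma eq_one_of_fix {N : SG} [Fintype N] (g : N) (u : Fin 2 → ℂ) (hu : u ≠ 0)
    (hf : g.1.1 *ᵥ u = u) (hd : g.1.1.det = 1) : g = 1 := by
  -- (g-1)^2 = 0 by Cayley-Hamilton, and g has finite order
  have hd1 : (g.1.1 - 1).det = 0 := by
    apply Matrix.exists_mulVec_eq_zero_iff.1
    refine ⟨u, hu, ?_⟩
    rw [Matrix.sub_mulVec, Matrix.one_mulVec, hf, sub_self]
  have hsq : (g.1.1 - 1) * (g.1.1 - 1) = 0 := by
    rw [Matrix.det_fin_two] at hd hd1
    simp only [Matrix.sub_apply, Matrix.one_apply_eq] at hd1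
    have e01 : (1 : Matrix (Fin 2) (Fin 2) ℂ) 0 1 = 0 := by simp
    have e10 : (1 : Matrix (Fin 2) (Fin 2) ℂ) 1 0 = 0 := by simp
    rw [e01, e10] at hd1
    have htr : g.1.1 0 0 + g.1.1 1 1 = 2 := by linear_combination hd - hd1
    ext i j
    rw [Matrix.mul_apply, Fin.sum_univ_two]
    fin_cases i <;> fin_cases j <;> simp
    · linear_combination g.1.1 0 0 * htr - hd
    · linear_combination g.1.1 0 1 * htr
    · linear_combination g.1.1 1 0 * htr
    · linear_combination g.1.1 1 1 * htr - hd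
  have hpow : ∀ n : ℕ, g.1.1 ^ n = 1 + (n : ℂ) • (g.1.1 - 1) := by
    intro n
    induction n with
    | zero => simp
    | succ n ih =>
      rw [pow_succ, ih]
      have : g.1.1 = 1 + (g.1.1 - 1) := by abel
      calc (1 + (n : ℂ) • (g.1.1 - 1)) * g.1.1
          = (1 + (n : ℂ) • (g.1.1 - 1)) * (1 + (g.1.1 - 1)) := by rw [← this]
        _ = 1 + (g.1.1 - 1) + (n : ℂ) • (g.1.1 - 1) + (n : ℂ) • ((g.1.1 - 1) * (g.1.1 - 1)) := by
            rw [mul_add, mul_one, add_mul, one_mul, smul_mul_assoc]; abel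
        _ = 1 + ((n + 1 : ℕ) : ℂ) • (g.1.1 - 1) := by
            rw [hsq, smul_zero, add_zero, Nat.cast_succ, add_smul, one_smul]; abel
  have hord : g ^ Fintype.card N = 1 := pow_card_eq_one
  have hc : ∀ n : ℕ, (g ^ n).1.1 = g.1.1 ^ n := by
    intro n
    simp
  have h1 : g.1.1 ^ Fintype.card N = 1 := by
    rw [← hc, hord]
    rfl
  rw [hpow] at h1
  have h2 : (Fintype.card N : ℂ) • (g.1.1 - 1) = 0 := by
    simpa using h1
  have h3 : (Fintype.card N : ℂ) ≠ 0 := by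
    exact_mod_cast Fintype.card_ne_zero
  have h4 : g.1.1 - 1 = 0 := (smul_eq_zero.1 h2).resolve_left h3
  apply Subtype.ext
  apply gl_ext
  show g.1.1 = 1
  exact sub_eq_zero.1 h4

end DunAX

/-- Elements with the same fixed line and the same determinant coincide. -/
theorem refl_ext (H : Arr N) (w w' : N) (hw : ∀ v ∈ H.1, w.1.1 *ᵥ v = v)
    (hw' : ∀ v ∈ H.1, w'.1.1 *ᵥ v = v) (h : w.1.1.det = w'.1.1.det) : w = w' := by
  have hs := lf_spec H
  have hu : ![lf H.1 1, - lf H.1 0] ∈ H.1 := (hs.2 _).2 (perp_mem _)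
  have hu0 : (![lf H.1 1, - lf H.1 0] : Fin 2 → ℂ) ≠ 0 := by
    intro h0
    apply hs.1
    funext j
    fin_cases j
    · have h1 : - lf H.1 0 = 0 := congrFun h0 1
      exact neg_eq_zero.1 h1
    · have h1 : lf H.1 1 = 0 := congrFun h0 0
      exact h1
  have key : w'⁻¹ * w = 1 := by
    apply eq_one_of_fix (w'⁻¹ * w) _ hu0
    · show ((w'⁻¹).1.1 * w.1.1) *ᵥ _ = _
      rw [← Matrix.mulVec_mulVec, hw _ hu]
      have := hw' _ hu
      conv_lhs => rw [← this]
      rw [Matrix.mulVec_mulVec]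
      have e : (w'⁻¹).1.1 * w'.1.1 = 1 := by
        have h3 : w'⁻¹ * w' = 1 := inv_mul_cancel w'
        exact congrArg (fun z : N => z.1.1) h3
      rw [e, Matrix.one_mulVec]
    · show ((w'⁻¹).1.1 * w.1.1).det = 1
      rw [Matrix.det_mul, h, ← Matrix.det_mul]
      have e : (w'⁻¹).1.1 * w'.1.1 = 1 := by
        have h3 : w'⁻¹ * w' = 1 := inv_mul_cancel w'
        exact congrArg (fun z : N => z.1.1) h3
      rw [e, Matrix.det_one]
  exact (inv_mul_eq_one.1 key).symm

theorem vreg_iff (v : Fin 2 → ℂ) : (∀ g ∈ N, IsRefl g → g.1 *ᵥ v ≠ v) ↔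
    ∀ H : Arr N, lf H.1 ⬝ᵥ v ≠ 0 := by
  constructor
  · intro h H h0
    have hm : v ∈ H.1 := ((lf_spec H).2 v).2 h0
    obtain ⟨H, s, hsN, hs, hH⟩ := H
    have hm' : v ∈ fixL s := by rw [← hH]; exact hm
    exact h s hsN hs (mem_fixL.1 hm')
  · intro h g hg hr h0
    exact h ⟨fixL g, g, hg, hr, rfl⟩ (((lf_spec (N := N) ⟨fixL g, g, hg, hr, rfl⟩).2 v).1
      (mem_fixL.2 h0))

/-- `N` acts freely on `V^reg` (if it contains a reflection). -/
theorem smul_free (hN : ∃ s ∈ N, IsRefl s) (g : N) (v : VReg N) (h : g • v = v) : g = 1 := by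
  by_contra hg
  have hv : g.1.1 *ᵥ v.1 = v.1 := congrArg (fun z : VReg N => z.1) h
  -- v is not zero because a reflection moves it
  obtain ⟨s, hsN, hs⟩ := hN
  have hv0 : v.1 ≠ 0 := by
    intro h0
    apply v.2 s hsN hs
    rw [h0]; simp
  apply v.2 g.1 g.2 ⟨?_, ?_⟩ hv
  · intro h1
    exact hg (Subtype.ext h1)
  · apply Matrix.exists_mulVec_eq_zero_iff.1
    refine ⟨v.1, hv0, ?_⟩
    rw [Matrix.sub_mulVec, Matrix.one_mulVec, hv, sub_self]

end

end Pool.Agent.CMF
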