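import Mathlib

/-!
Linear ODE: uniqueness, and exponential growth on a half plane.
-/

set_option linter.unusedSectionVars false

namespace Pool.Agent.CMF

open Set

noncomputable section

namespace ODE2X

variable {n : Type} [Fintype n] [DecidableEq n]

lemma det_diff {F : ℂ → Matrix n n ℂ} {z : ℂ} (h : ∀ p q, DifferentiableAt ℂ (fun z => F z p q) z) :
    DifferentiableAt ℂ (fun z => (F z).det) z := by
  simp only [Matrix.det_apply']
  exact DifferentiableAt.fun_sum fun σ _ =>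
    (differentiableAt_const _).mul (DifferentiableAt.fun_finsetProd fun i _ => h _ _)

lemma adj_diff {F : ℂ → Matrix n n ℂ} {z : ℂ} (h : ∀ p q, DifferentiableAt ℂ (fun z => F z p q) z)
    (p q : n) : DifferentiableAt ℂ (fun z => (F z).adjugate p q) z := by
  simp only [Matrix.adjugate_apply]
  refine det_diff fun a b => ?_
  by_cases hab : a = q
  · subst hab
    simp only [Matrix.updateRow_self]
    exact differentiableAt_const _
  · simp only [Matrix.updateRow_ne hab]
    exact h a b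

lemma inv_diff {F : ℂ → Matrix n n ℂ} {z : ℂ} (h : ∀ p q, DifferentiableAt ℂ (fun z => F z p q) z)
    (hu : IsUnit (F z)) (p q : n) : DifferentiableAt ℂ (fun z => (F z)⁻¹ p q) z := by
  have e : (fun z => (F z)⁻¹ p q) = fun z => ((F z).det)⁻¹ * (F z).adjugate p q := by
    funext w
    rw [Matrix.inv_def, Ring.inverse_eq_inv']
    rfl
  rw [e]
  have h0 : (F z).det ≠ 0 := ((Matrix.isUnit_iff_isUnit_det _).1 hu).ne_zero
  exact ((det_diff h).inv h0).mul (adj_diff h p q)

lemma mul_diff {F G : ℂ → Matrix n n ℂ} {z : ℂ} (hF : ∀ p q, DifferentiableAt ℂ (fun z => F z p q) z)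
    (hG : ∀ p q, DifferentiableAt ℂ (fun z => G z p q) z) (p q : n) :
    DifferentiableAt ℂ (fun z => (F z * G z) p q) z := by
  simp only [Matrix.mul_apply]
  exact DifferentiableAt.fun_sum fun l _ => (hF p l).mul (hG l q)

lemma mul_deriv {F G : ℂ → Matrix n n ℂ} {F' G' : Matrix n n ℂ} {z : ℂ}
    (hF : ∀ p q, HasDerivAt (fun z => F z p q) (F' p q) z)
    (hG : ∀ p q, HasDerivAt (fun z => G z p q) (G' p q) z) (p q : n) :
    HasDerivAt (fun z => (F z * G z) p q) ((F' * G z + F z * G') p q) z := by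
  have h1 : HasDerivAt (fun z => ∑ l, F z p l * G z l q)
      (∑ l, (F' p l * G z l q + F z p l * G' l q)) z :=
    HasDerivAt.fun_sum fun l _ => (hF p l).mul (hG l q)
  have e : (F' * G z + F z * G') p q = ∑ l, (F' p l * G z l q + F z p l * G' l q) := by
    rw [Matrix.add_apply, Matrix.mul_apply, Matrix.mul_apply, Finset.sum_add_distrib]
  rw [e]
  have e2 : (fun z => (F z * G z) p q) = fun z => ∑ l, F z p l * G z l q := by
    funext w
    rw [Matrix.mul_apply]
  rw [e2]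
  exact h1

end ODE2X

variable {n : Type} [Fintype n] [DecidableEq n]

/-- Uniqueness. -/
theorem ode_unique (U : Set ℂ) (hU : IsOpen U) (hc : Convex ℝ U)
    (B F G : ℂ → Matrix n n ℂ)
    (hF : ∀ z ∈ U, ∀ p q, HasDerivAt (fun z => F z p q) ((B z * F z) p q) z)
    (hG : ∀ z ∈ U, ∀ p q, HasDerivAt (fun z => G z p q) ((B z * G z) p q) z)
    (hu : ∀ z ∈ U, IsUnit (F z)) :
    ∀ z ∈ U, ∀ w ∈ U, (F z)⁻¹ * G z = (F w)⁻¹ * G w := by
  intro z hz w hw
  have hd : ∀ x ∈ U, ∀ p q, DifferentiableAt ℂ (fun z => ((F z)⁻¹ * G z) p q) x := fun x hx =>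
    ODE2X.mul_diff (ODE2X.inv_diff (fun p q => (hF x hx p q).differentiableAt) (hu x hx))
      (fun p q => (hG x hx p q).differentiableAt)
  have hzero : ∀ x ∈ U, ∀ p q, deriv (fun z => ((F z)⁻¹ * G z) p q) x = 0 := by
    intro x hx
    set D : Matrix n n ℂ := fun p q => deriv (fun z => ((F z)⁻¹ * G z) p q) x with hD
    have h1 : ∀ p q, HasDerivAt (fun z => (F z * ((F z)⁻¹ * G z)) p q)
        ((B x * F x * ((F x)⁻¹ * G x) + F x * D) p q) x :=
      ODE2X.mul_deriv (hF x hx) (fun p q => (hd x hx p q).hasDerivAt)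
    have hdet : IsUnit (F x).det := (Matrix.isUnit_iff_isUnit_det _).1 (hu x hx)
    have h2 : ∀ p q, HasDerivAt (fun z => (F z * ((F z)⁻¹ * G z)) p q) ((B x * G x) p q) x := by
      intro p q
      refine (hG x hx p q).congr_of_eventuallyEq ?_
      filter_upwards [hU.mem_nhds hx] with y hy
      have hy' : IsUnit (F y).det := (Matrix.isUnit_iff_isUnit_det _).1 (hu y hy)
      rw [Matrix.mul_nonsing_inv_cancel_left _ _ hy']
    have h3 : B x * F x * ((F x)⁻¹ * G x) + F x * D = B x * G x := by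
      ext p q
      exact (h1 p q).unique (h2 p q)
    rw [Matrix.mul_assoc (B x), Matrix.mul_nonsing_inv_cancel_left _ _ hdet, add_eq_left] at h3
    have h4 : D = 0 := by
      have h5 := congrArg (fun M => (F x)⁻¹ * M) h3
      simp only [Matrix.mul_zero] at h5
      rwa [Matrix.nonsing_inv_mul_cancel_left _ _ hdet] at h5
    intro p q
    exact congrFun (congrFun h4 p) q
  ext p q
  exact hU.is_const_of_deriv_eq_zero hc.isPreconnected
    (fun x hx => (hd x hx p q).differentiableWithinAt) (fun x hx => hzero x hx p q) hz hw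

/-- Growth along a half plane `Re w < r` (coordinate `w = log (z - a)`). -/
theorem ode_growth (r : ℝ) (B F : ℂ → Matrix n n ℂ) (K : ℝ)
    (hB : ∀ w : ℂ, w.re < r → ∀ p q, ‖B w p q‖ ≤ K)
    (hF : ∀ w : ℂ, w.re < r → ∀ p q, HasDerivAt (fun w => F w p q) ((B w * F w) p q) w)
    (w₀ : ℂ) (hw₀ : w₀.re < r) :
    ∃ C c : ℝ, ∀ w : ℂ, w.re < r → ∀ p q, ‖F w p q‖ ≤ C * Real.exp (c * ‖w - w₀‖) := by
  set c : ℝ := Fintype.card n * |K| with hcdef
  refine ⟨‖fun x : n × n => F w₀ x.1 x.2‖, c, fun w hw p q => ?_⟩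
  have hγ : ∀ t : ℝ, HasDerivAt (fun t : ℝ => w₀ + (t : ℂ) * (w - w₀)) (w - w₀) t := by
    intro t
    have h := ((hasDerivAt_id t).ofReal_comp.mul_const (w - w₀)).const_add w₀
    simpa using h
  have hmem : ∀ t ∈ Icc (0:ℝ) 1, (w₀ + (t : ℂ) * (w - w₀)).re < r := by
    intro t ht
    have h2 : (w₀ + (t : ℂ) * (w - w₀)).re = (1 - t) * w₀.re + t * w.re := by
      simp only [Complex.add_re, Complex.mul_re, Complex.ofReal_re, Complex.ofReal_im,
        Complex.sub_re, Complex.sub_im]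
      ring
    rw [h2]
    rcases eq_or_lt_of_le ht.1 with h0 | h0
    · rw [← h0]
      linarith
    · nlinarith [ht.2, mul_lt_mul_of_pos_left hw h0,
        mul_le_mul_of_nonneg_left (le_of_lt hw₀) (sub_nonneg.2 ht.2)]
  set f : ℝ → (n × n → ℂ) := fun t x => F (w₀ + (t : ℂ) * (w - w₀)) x.1 x.2 with hf
  set f' : ℝ → (n × n → ℂ) := fun t x => (w - w₀) *
    (B (w₀ + (t : ℂ) * (w - w₀)) * F (w₀ + (t : ℂ) * (w - w₀))) x.1 x.2 with hf'
  have hder : ∀ t ∈ Icc (0:ℝ) 1, HasDerivAt f (f' t) t := by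
    intro t ht
    rw [hasDerivAt_pi]
    intro x
    exact HasDerivAt.scomp t (hF _ (hmem t ht) x.1 x.2) (hγ t)
  have hbound : ∀ t ∈ Icc (0:ℝ) 1, ‖f' t‖ ≤ (c * ‖w - w₀‖) * ‖f t‖ + 0 := by
    intro t ht
    rw [add_zero]
    refine (pi_norm_le_iff_of_nonneg (by positivity)).2 fun x => ?_
    rw [hf']
    simp only [norm_mul]
    have h3 : ‖(B (w₀ + (t : ℂ) * (w - w₀)) * F (w₀ + (t : ℂ) * (w - w₀))) x.1 x.2‖ ≤
        c * ‖f t‖ := by
      rw [Matrix.mul_apply]
      refine (norm_sum_le _ _).trans ?_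
      calc ∑ l, ‖B (w₀ + (t : ℂ) * (w - w₀)) x.1 l * F (w₀ + (t : ℂ) * (w - w₀)) l x.2‖
          ≤ ∑ _l : n, |K| * ‖f t‖ := by
            refine Finset.sum_le_sum fun l _ => ?_
            rw [norm_mul]
            refine mul_le_mul ((hB _ (hmem t ht) x.1 l).trans (le_abs_self K)) ?_ (norm_nonneg _)
              (abs_nonneg K)
            exact norm_le_pi_norm (f t) (l, x.2)
        _ = c * ‖f t‖ := by
            rw [Finset.sum_const, nsmul_eq_mul, Finset.card_univ, hcdef, mul_assoc]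
    calc ‖w - w₀‖ * ‖(B (w₀ + (t : ℂ) * (w - w₀)) * F (w₀ + (t : ℂ) * (w - w₀))) x.1 x.2‖
        ≤ ‖w - w₀‖ * (c * ‖f t‖) := mul_le_mul_of_nonneg_left h3 (norm_nonneg _)
      _ = (c * ‖w - w₀‖) * ‖f t‖ := by ring
  have hg := norm_le_gronwallBound_of_norm_deriv_right_le (f := f) (f' := f')
    (δ := ‖fun x : n × n => F w₀ x.1 x.2‖) (K := c * ‖w - w₀‖) (ε := 0) (a := 0) (b := 1)
    (fun t ht => (hder t ht).continuousAt.continuousWithinAt)
    (fun t ht => (hder t (Ico_subset_Icc_self ht)).hasDerivWithinAt)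
    (by simp [hf]) (fun t ht => hbound t (Ico_subset_Icc_self ht)) 1 (right_mem_Icc.2 zero_le_one)
  rw [gronwallBound_ε0, sub_zero, mul_one] at hg
  have e1 : w₀ + ((1:ℝ) : ℂ) * (w - w₀) = w := by push_cast; ring
  have h5 := norm_le_pi_norm (f 1) (p, q)
  have h6 : f 1 (p, q) = F w p q := by
    rw [hf]
    simp only [e1]
  rw [h6] at h5
  exact h5.trans hg

end

end Pool.Agent.CMF
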