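import Pool.Agent.CMF.DDefs
import Pool.Agent.CMF.DunA
import Pool.Agent.CMF.ODE2

/-! Project CMF (MP_4af2a6_al), module FrameA: the residue at infinity of the KZ connection, and
uniqueness of horizontal functions on convex open sets. -/

namespace Pool.Agent.CMF

open Matrix

noncomputable section

variable {N : SG} [Fintype N] {ι : Type} [Fintype ι] [DecidableEq ι]

/-- `A_∞ = Σ_H a_H(k)`. -/
def Ainf (ρ : N →* Matrix ι ι ℂ) (k : Idx N → ℂ) : Matrix ι ι ℂ :=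
  ∑ w : N, cr k w • ρ w + (∑ H : Arr N, cs k H) • (1 : Matrix ι ι ℂ)

namespace FrameAX

/-! ### Conjugation -/

lemma fixL_conj (g w : GL (Fin 2) ℂ) : fixL (g * w * g⁻¹) = mapL g (fixL w) := by
  have hgi : g⁻¹.1 * g.1 = 1 := by
    rw [← Units.val_mul]; simp
  have hgi' : g.1 * g⁻¹.1 = 1 := by
    rw [← Units.val_mul]; simp
  have hmem : ∀ (s : GL (Fin 2) ℂ) (v : Fin 2 → ℂ), v ∈ fixL s ↔ s.1 *ᵥ v = v := by
    intro s v
    show Matrix.toLin' (s.1 - 1) v = 0 ↔ _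
    rw [Matrix.toLin'_apply, Matrix.sub_mulVec, Matrix.one_mulVec, sub_eq_zero]
  ext v
  rw [hmem]
  constructor
  · intro h
    refine ⟨g⁻¹.1 *ᵥ v, ?_, ?_⟩
    · show g⁻¹.1 *ᵥ v ∈ fixL w
      rw [hmem]
      have h1 : g⁻¹.1 *ᵥ ((g * w * g⁻¹).1 *ᵥ v) = g⁻¹.1 *ᵥ v := by rw [h]
      have h2 : g⁻¹.1 * (g * w * g⁻¹).1 = w.1 * g⁻¹.1 := by
        have : (g * w * g⁻¹).1 = g.1 * w.1 * g⁻¹.1 := rfl
        rw [this, ← mul_assoc, ← mul_assoc, hgi, one_mul]
      rw [Matrix.mulVec_mulVec, h2, ← Matrix.mulVec_mulVec] at h1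
      exact h1
    · rw [Matrix.toLin'_apply, Matrix.mulVec_mulVec, hgi', Matrix.one_mulVec]
  · rintro ⟨u, hu, rfl⟩
    have hu' : w.1 *ᵥ u = u := (hmem w u).1 hu
    rw [Matrix.toLin'_apply, Matrix.mulVec_mulVec]
    have h2 : (g * w * g⁻¹).1 * g.1 = g.1 * w.1 := by
      have : (g * w * g⁻¹).1 = g.1 * w.1 * g⁻¹.1 := rfl
      rw [this, mul_assoc, hgi, mul_one]
    rw [h2, ← Matrix.mulVec_mulVec, hu']

lemma mem_mapL (g : GL (Fin 2) ℂ) (H : Submodule ℂ (Fin 2 → ℂ)) (u : Fin 2 → ℂ) (hu : u ∈ H) :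
    g.1 *ᵥ u ∈ mapL g H := ⟨u, hu, by rw [Matrix.toLin'_apply]⟩

lemma mem_mapL_iff (g : GL (Fin 2) ℂ) (H : Submodule ℂ (Fin 2 → ℂ)) (u : Fin 2 → ℂ) :
    u ∈ mapL g H ↔ g⁻¹.1 *ᵥ u ∈ H := by
  have hgi : g⁻¹.1 * g.1 = 1 := by
    rw [← Units.val_mul]; simp
  have hgi' : g.1 * g⁻¹.1 = 1 := by
    rw [← Units.val_mul]; simp
  constructor
  · rintro ⟨x, hx, rfl⟩
    rw [Matrix.toLin'_apply, Matrix.mulVec_mulVec, hgi, Matrix.one_mulVec]
    exact hx
  · intro h
    refine ⟨_, h, ?_⟩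
    rw [Matrix.toLin'_apply, Matrix.mulVec_mulVec, hgi', Matrix.one_mulVec]

omit [Fintype N] in
lemma ptStab_mapL (g : N) (H : Submodule ℂ (Fin 2 → ℂ)) (w : GL (Fin 2) ℂ) :
    w ∈ ptStab N H ↔ g.1 * w * g.1⁻¹ ∈ ptStab N (mapL g.1 H) := by
  have hgi : g.1⁻¹.1 * g.1.1 = 1 := by
    rw [← Units.val_mul]; simp
  constructor
  · rintro ⟨h1, h2⟩
    refine ⟨N.mul_mem (N.mul_mem g.2 h1) (N.inv_mem g.2), ?_⟩
    rintro v ⟨u, hu, rfl⟩
    rw [Matrix.toLin'_apply, Matrix.mulVec_mulVec]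
    have : (g.1 * w * g.1⁻¹).1 = g.1.1 * w.1 * g.1⁻¹.1 := rfl
    rw [this, mul_assoc, hgi, mul_one, ← Matrix.mulVec_mulVec, h2 u hu]
  · rintro ⟨h1, h2⟩
    have hw : w = g.1⁻¹ * (g.1 * w * g.1⁻¹) * g.1 := by group
    refine ⟨?_, ?_⟩
    · rw [hw]
      exact N.mul_mem (N.mul_mem (N.inv_mem g.2) h1) g.2
    · intro u hu
      have h3 := h2 _ (mem_mapL g.1 H u hu)
      have e : w.1 = g.1⁻¹.1 * (g.1 * w * g.1⁻¹).1 * g.1.1 := congrArg (fun z : GL (Fin 2) ℂ => z.1) hw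
      rw [e, ← Matrix.mulVec_mulVec, ← Matrix.mulVec_mulVec, h3, Matrix.mulVec_mulVec, hgi,
        Matrix.one_mulVec]

omit [Fintype N] in
lemma eH_mapL (g : N) (H : Submodule ℂ (Fin 2 → ℂ)) : eH N (mapL g.1 H) = eH N H := by
  unfold eH
  refine (Nat.card_congr (Equiv.ofBijective
    (fun w : ptStab N H => (⟨g.1 * w.1 * g.1⁻¹, (ptStab_mapL g H w.1).1 w.2⟩ :
      ptStab N (mapL g.1 H))) ⟨?_, ?_⟩)).symm
  · intro a b h
    have h1 : g.1 * a.1 * g.1⁻¹ = g.1 * b.1 * g.1⁻¹ := congrArg (fun z => z.1) h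
    apply Subtype.ext
    exact mul_left_cancel (mul_right_cancel h1)
  · intro b
    have e : g.1 * (g.1⁻¹ * b.1 * g.1) * g.1⁻¹ = b.1 := by group
    refine ⟨⟨g.1⁻¹ * b.1 * g.1, (ptStab_mapL g H _).2 ?_⟩, ?_⟩
    · rw [e]; exact b.2
    · apply Subtype.ext
      exact e

lemma isRefl_conj_iff (g w : GL (Fin 2) ℂ) : IsRefl (g * w * g⁻¹) ↔ IsRefl w := by
  constructor
  · intro h
    have := isRefl_conj (G := (⊤ : SG)) (g := g⁻¹) h
    have e : g⁻¹ * (g * w * g⁻¹) * g⁻¹⁻¹ = w := by group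
    rw [e] at this
    exact this
  · exact isRefl_conj (G := (⊤ : SG))

lemma det_conj (g w : GL (Fin 2) ℂ) : (g * w * g⁻¹).1.det = w.1.det := by
  have hgi' : g.1 * g⁻¹.1 = 1 := by
    rw [← Units.val_mul]; simp
  have : (g * w * g⁻¹).1 = g.1 * w.1 * g⁻¹.1 := rfl
  have h2 : g.1.det * g⁻¹.1.det = 1 := by rw [← Matrix.det_mul, hgi', Matrix.det_one]
  rw [this, Matrix.det_mul, Matrix.det_mul]
  linear_combination w.1.det * h2

omit [Fintype N] in
/-- `cf_k` only depends on the orbit. -/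
lemma cf_mapL (k : Idx N → ℂ) (g : N) (H H' : Arr N) (hH : H'.1 = mapL g.1 H.1)
    (w w' : GL (Fin 2) ℂ) (hw : w'.1.det = w.1.det) : cf k H' w' = cf k H w := by
  have he : eH N H'.1 = eH N H.1 := by rw [hH, eH_mapL]
  unfold cf
  rw [he, hw]
  refine Finset.sum_congr rfl fun j _ => ?_
  have : idx H' (j : ℤ) = idx H (j : ℤ) := by
    symm
    refine Quot.sound ⟨⟨g.1, g.2, hH⟩, ?_⟩
    show (eH N H.1 : ℤ) ∣ (j : ℤ) - (j : ℤ)
    rw [sub_self]
    exact dvd_zero _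
  rw [this]

omit [Fintype N] in
lemma cr_conj (k : Idx N → ℂ) (g w : N) : cr k (g * w * g⁻¹) = cr k w := by
  unfold cr
  by_cases h : IsRefl w.1
  · have h' : IsRefl (g * w * g⁻¹).1 := (isRefl_conj_iff g.1 w.1).2 h
    rw [dif_pos h, dif_pos h']
    exact cf_mapL k g _ _ (fixL_conj g.1 w.1) _ _ (det_conj g.1 w.1)
  · have h' : ¬ IsRefl (g * w * g⁻¹).1 := fun h2 => h ((isRefl_conj_iff g.1 w.1).1 h2)
    rw [dif_neg h, dif_neg h']


lemma inv_mul_rho (ρ : N →* Matrix ι ι ℂ) (g : N) : ρ g⁻¹ * ρ g = 1 := by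
  rw [← map_mul, inv_mul_cancel, map_one]

/-- The element `Σ_w cf_k(w) ρ(w)` commutes with the group. -/
lemma sum_comm (ρ : N →* Matrix ι ι ℂ) (k : Idx N → ℂ) (g : N) :
    (∑ w : N, cr k w • ρ w) * ρ g = ρ g * ∑ w : N, cr k w • ρ w := by
  have h1 : (∑ w : N, cr k w • ρ w) = ∑ w : N, cr k w • ρ (g * w * g⁻¹) := by
    rw [← Equiv.sum_comp (MulAut.conj g).toEquiv (fun w : N => cr k w • ρ w)]
    refine Finset.sum_congr rfl fun w _ => ?_
    have e : (MulAut.conj g).toEquiv w = g * w * g⁻¹ := rfl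
    rw [e, cr_conj]
  calc (∑ w : N, cr k w • ρ w) * ρ g
      = (∑ w : N, cr k w • ρ (g * w * g⁻¹)) * ρ g := by rw [← h1]
    _ = ρ g * ∑ w : N, cr k w • ρ w := by
        rw [Finset.sum_mul, Finset.mul_sum]
        refine Finset.sum_congr rfl fun w _ => ?_
        rw [smul_mul_assoc, mul_smul_comm, map_mul, map_mul, mul_assoc, mul_assoc,
          inv_mul_rho, mul_one]

/-- A matrix commuting with all matrices is a scalar matrix. -/
lemma scalar_of_comm [Nonempty ι] (A : Matrix ι ι ℂ) (h : ∀ B : Matrix ι ι ℂ, A * B = B * A) :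
    A = (A.trace / Fintype.card ι) • (1 : Matrix ι ι ℂ) := by
  have h1 : A ∈ Set.range (Matrix.scalar ι (α := ℂ)) := by
    rw [Matrix.mem_range_scalar_iff_commute_single']
    intro i j
    exact (h _).symm
  obtain ⟨c, hc⟩ := h1
  have hcard : (Fintype.card ι : ℂ) ≠ 0 := by
    exact_mod_cast Fintype.card_ne_zero
  have e : A = c • (1 : Matrix ι ι ℂ) := by
    rw [← hc, Matrix.scalar_apply, ← Matrix.smul_one_eq_diagonal]
  have ht : A.trace = c * Fintype.card ι := by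
    rw [e, Matrix.trace_smul, Matrix.trace_one, smul_eq_mul]
  rw [ht, mul_div_assoc, div_self hcard, mul_one]
  exact e

end FrameAX

theorem Ainf_comm (ρ : N →* Matrix ι ι ℂ) (k : Idx N → ℂ) (g : N) :
    Ainf ρ k * ρ g = ρ g * Ainf ρ k := by
  unfold Ainf
  rw [add_mul, mul_add, FrameAX.sum_comm, smul_mul_assoc, mul_smul_comm, one_mul, mul_one]

/-- On an irreducible representation `A_∞` is a scalar. -/
theorem Ainf_scalar (ρ : N →* Matrix ι ι ℂ) (k : Idx N → ℂ) [Nonempty ι]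
    (h : Submodule.span ℂ (Set.range ρ) = ⊤) : Ainf ρ k =
      ((∑ w : N, cr k w * (ρ w).trace) / Fintype.card ι + ∑ H : Arr N, cs k H) •
        (1 : Matrix ι ι ℂ) := by
  have hc : ∀ B : Matrix ι ι ℂ,
      (∑ w : N, cr k w • ρ w) * B = B * ∑ w : N, cr k w • ρ w := by
    intro B
    have hB : B ∈ Submodule.span ℂ (Set.range ρ) := by rw [h]; exact Submodule.mem_top
    induction hB using Submodule.span_induction with
    | mem x hx =>
      obtain ⟨g, rfl⟩ := hx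
      exact FrameAX.sum_comm ρ k g
    | zero => rw [mul_zero, zero_mul]
    | add x y _ _ hx hy => rw [mul_add, add_mul, hx, hy]
    | smul a x _ hx => rw [mul_smul_comm, smul_mul_assoc, hx]
  have hs := FrameAX.scalar_of_comm _ hc
  have ht : (∑ w : N, cr k w • ρ w).trace = ∑ w : N, cr k w * (ρ w).trace := by
    rw [Matrix.trace_sum]
    refine Finset.sum_congr rfl fun w _ => ?_
    rw [Matrix.trace_smul, smul_eq_mul]
  rw [ht] at hs
  unfold Ainf
  rw [add_smul, ← hs]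

/-- Two horizontal functions (the second not necessarily invertible) on a convex open set. -/
theorem horiz_unique (ρ : N →* Matrix ι ι ℂ) (k : Idx N → ℂ) (U : Set (Fin 2 → ℂ))
    (hU : IsOpen U) (hc : Convex ℝ U) (F G : (Fin 2 → ℂ) → Matrix ι ι ℂ) (hF : Horiz ρ k U F)
    (hG : ∀ v ∈ U, ∀ p q, DifferentiableAt ℂ (fun v => G v p q) v ∧
      ∀ y, fderiv ℂ (fun v => G v p q) v y = (om ρ k v y * G v) p q) :
    ∀ v ∈ U, ∀ w ∈ U, (F v)⁻¹ * G v = (F w)⁻¹ * G w := by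
  intro v hv w hw
  have hLd : ∀ z : ℂ, HasDerivAt (fun z : ℂ => v + z • (w - v)) (w - v) z := by
    intro z
    have h1 := ((hasDerivAt_id z).smul_const (w - v)).const_add v
    simpa using h1
  have hLc : Continuous (fun z : ℂ => v + z • (w - v)) := by fun_prop
  have hO : IsOpen ((fun z : ℂ => v + z • (w - v)) ⁻¹' U) := hU.preimage hLc
  have hC : Convex ℝ ((fun z : ℂ => v + z • (w - v)) ⁻¹' U) := by
    intro a ha b hb s t hs ht hst
    have h1 := hc ha hb hs ht hst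
    have e : s • (v + a • (w - v)) + t • (v + b • (w - v))
        = v + (s • a + t • b) • (w - v) := by
      have e1 : v = s • v + t • v := by rw [← add_smul, hst, one_smul]
      calc s • (v + a • (w - v)) + t • (v + b • (w - v))
          = (s • v + t • v) + (s • a • (w - v) + t • b • (w - v)) := by
            rw [smul_add, smul_add]; abel
        _ = v + (s • a + t • b) • (w - v) := by
            rw [← e1, add_smul, smul_assoc, smul_assoc]
    show v + (s • a + t • b) • (w - v) ∈ U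
    rw [← e]
    exact h1
  have key := ode_unique ((fun z : ℂ => v + z • (w - v)) ⁻¹' U) hO hC
    (fun z => om ρ k (v + z • (w - v)) (w - v))
    (fun z => F (v + z • (w - v))) (fun z => G (v + z • (w - v)))
    (fun z hz p q => by
      have h1 := (hF _ hz).2 p q
      have h2 := h1.1.hasFDerivAt.comp_hasDerivAt z (hLd z)
      rw [h1.2] at h2
      exact h2)
    (fun z hz p q => by
      have h1 := hG _ hz p q
      have h2 := h1.1.hasFDerivAt.comp_hasDerivAt z (hLd z)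
      rw [h1.2] at h2
      exact h2)
    (fun z hz => (hF _ hz).1)
    0 (by show v + (0 : ℂ) • (w - v) ∈ U; rw [zero_smul, add_zero]; exact hv)
    1 (by show v + (1 : ℂ) • (w - v) ∈ U; rw [one_smul, add_sub_cancel]; exact hw)
  have e0 : v + (0 : ℂ) • (w - v) = v := by rw [zero_smul, add_zero]
  have e1 : v + (1 : ℂ) • (w - v) = w := by rw [one_smul, add_sub_cancel]
  simp only [e0, e1] at key
  exact key

end

end Pool.Agent.CMF
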