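import Pool.Agent.CMF.LDefs

/-!
Linear ODE on convex open sets, with entire dependence on parameters (Dyson series).
-/

set_option linter.unusedSectionVars false

namespace Pool.Agent.CMF

open Set Metric

noncomputable section

namespace ODE1X

section LH

variable {P : Type} [NormedAddCommGroup P] [NormedSpace ℂ P]

lemma lh_const (c : ℂ) : LineHol (fun _ : P => c) :=
  ⟨continuous_const, fun _ _ => differentiable_const _⟩

lemma lh_add {f g : P → ℂ} (hf : LineHol f) (hg : LineHol g) : LineHol (fun x => f x + g x) :=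
  ⟨hf.1.add hg.1, fun k k' => (hf.2 k k').add (hg.2 k k')⟩

lemma lh_mul {f g : P → ℂ} (hf : LineHol f) (hg : LineHol g) : LineHol (fun x => f x * g x) :=
  ⟨hf.1.mul hg.1, fun k k' => (hf.2 k k').mul (hg.2 k k')⟩

lemma lh_neg {f : P → ℂ} (hf : LineHol f) : LineHol (fun x => -f x) :=
  ⟨hf.1.neg, fun k k' => (hf.2 k k').neg⟩

lemma lh_sum {ι : Type} (s : Finset ι) {f : ι → P → ℂ} (hf : ∀ i ∈ s, LineHol (f i)) :
    LineHol (fun x => ∑ i ∈ s, f i x) := by
  refine ⟨continuous_finsetSum _ fun i hi => (hf i hi).1, fun k k' => ?_⟩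
  exact Differentiable.fun_sum fun i hi => (hf i hi).2 k k'

end LH

/-- primitives on convex sets -/
lemma prim {U : Set ℂ} (hU : IsOpen U) (hc : Convex ℝ U) (z₀ : ℂ) {h : ℂ → ℂ}
    (hh : DifferentiableOn ℂ h U) : ∃ H : ℂ → ℂ, H z₀ = 0 ∧ ∀ z ∈ U, HasDerivAt H (h z) z := by
  obtain ⟨g, hg⟩ := hc.exists_forall_hasDerivWithinAt hh
  refine ⟨fun z => g z - g z₀, sub_self _, fun z hz => ?_⟩
  exact ((hg z hz).hasDerivAt (hU.mem_nhds hz)).sub_const _

variable {n : Type} [Fintype n] [DecidableEq n]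
variable {P : Type} [NormedAddCommGroup P] [NormedSpace ℂ P]
variable {J : Type} [Fintype J]

/-- separated functions of the parameter and of the variable -/
def Sep (U : Set ℂ) (D : P → ℂ → Matrix n n ℂ) : Prop :=
  ∃ (ι : Type) (_ : Fintype ι) (u : ι → ℂ → ℂ) (m : ι → P → Matrix n n ℂ),
    (∀ i, DifferentiableOn ℂ (u i) U) ∧ (∀ i p q, LineHol (fun k => m i k p q)) ∧
    ∀ k z, D k z = ∑ i, u i z • m i k

lemma Sep.lineHol {U : Set ℂ} {D : P → ℂ → Matrix n n ℂ} (h : Sep U D) (z : ℂ) (p q : n) :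
    LineHol (fun k => D k z p q) := by
  obtain ⟨ι, _, u, m, -, hm, hD⟩ := h
  have e : (fun k => D k z p q) = fun k => ∑ i, u i z * m i k p q := by
    funext k
    rw [hD, Matrix.sum_apply]
    rfl
  rw [e]
  exact lh_sum _ fun i _ => lh_mul (lh_const _) (hm i p q)

lemma sep_one (U : Set ℂ) : Sep U (fun (_ : P) (_ : ℂ) => (1 : Matrix n n ℂ)) :=
  ⟨Unit, inferInstance, fun _ _ => 1, fun _ _ => 1, fun _ => differentiableOn_const _,
    fun _ _ _ => lh_const _, fun _ _ => by simp⟩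

lemma sep_step {U : Set ℂ} (hU : IsOpen U) (hc : Convex ℝ U) (z₀ : ℂ)
    {c : J → ℂ → ℂ} (hcd : ∀ j, DifferentiableOn ℂ (c j) U)
    {a : J → P → Matrix n n ℂ} (ha : ∀ j p q, LineHol (fun k => a j k p q))
    {D : P → ℂ → Matrix n n ℂ} (hD : Sep U D) :
    ∃ D' : P → ℂ → Matrix n n ℂ, Sep U D' ∧ (∀ k, D' k z₀ = 0) ∧
      ∀ k, ∀ z ∈ U, ∀ p q, HasDerivAt (fun z => D' k z p q) (((∑ j, c j z • a j k) * D k z) p q) z := by
  obtain ⟨ι, _, u, m, hu, hm, hD⟩ := hD
  have : ∀ x : J × ι, ∃ H : ℂ → ℂ, H z₀ = 0 ∧ ∀ z ∈ U, HasDerivAt H (c x.1 z * u x.2 z) z :=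
    fun x => prim hU hc z₀ ((hcd x.1).mul (hu x.2))
  choose H hH0 hH using this
  refine ⟨fun k z => ∑ x : J × ι, H x z • (a x.1 k * m x.2 k),
    ⟨J × ι, inferInstance, H, fun x k => a x.1 k * m x.2 k, fun x z hz => ?_, fun x p q => ?_,
      fun _ _ => rfl⟩, fun k => ?_, fun k z hz p q => ?_⟩
  · exact (hH x z hz).differentiableAt.differentiableWithinAt
  · simp only [Matrix.mul_apply]
    exact lh_sum _ fun l _ => lh_mul (ha _ _ _) (hm _ _ _)
  · simp [hH0]
  · have e1 : (fun z => (∑ x : J × ι, H x z • (a x.1 k * m x.2 k)) p q) =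
        fun z => ∑ x : J × ι, H x z * (a x.1 k * m x.2 k) p q := by
      funext z
      rw [Matrix.sum_apply]
      rfl
    have e2 : ((∑ j, c j z • a j k) * D k z) p q =
        ∑ x : J × ι, (c x.1 z * u x.2 z) * (a x.1 k * m x.2 k) p q := by
      rw [hD, Finset.sum_mul_sum, Matrix.sum_apply, Fintype.sum_prod_type]
      refine Finset.sum_congr rfl fun j _ => ?_
      rw [Matrix.sum_apply]
      refine Finset.sum_congr rfl fun i _ => ?_
      rw [smul_mul_smul_comm]
      rfl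
    rw [e2]
    change HasDerivAt (fun z => (∑ x : J × ι, H x z • (a x.1 k * m x.2 k)) p q) _ z
    rw [e1]
    exact HasDerivAt.fun_sum fun x _ => (hH x z hz).mul_const _

/-- the terms of the Dyson series -/
lemma exists_dyson {U : Set ℂ} (hU : IsOpen U) (hc : Convex ℝ U) (z₀ : ℂ)
    {c : J → ℂ → ℂ} (hcd : ∀ j, DifferentiableOn ℂ (c j) U)
    {a : J → P → Matrix n n ℂ} (ha : ∀ j p q, LineHol (fun k => a j k p q)) :
    ∃ D : ℕ → P → ℂ → Matrix n n ℂ, (∀ k z, D 0 k z = 1) ∧ (∀ m k, D (m + 1) k z₀ = 0) ∧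
      (∀ m z p q, LineHol (fun k => D m k z p q)) ∧
      ∀ m k, ∀ z ∈ U, ∀ p q, HasDerivAt (fun z => D (m + 1) k z p q)
        (((∑ j, c j z • a j k) * D m k z) p q) z := by
  let step : {D : P → ℂ → Matrix n n ℂ // Sep U D} → {D : P → ℂ → Matrix n n ℂ // Sep U D} :=
    fun D => ⟨(sep_step hU hc z₀ hcd ha D.2).choose, (sep_step hU hc z₀ hcd ha D.2).choose_spec.1⟩
  let D : ℕ → {D : P → ℂ → Matrix n n ℂ // Sep U D} := fun m => Nat.rec ⟨_, sep_one U⟩ (fun _ => step) m
  have hs : ∀ m, (D (m + 1)).1 = (sep_step hU hc z₀ hcd ha (D m).2).choose := fun m => rfl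
  refine ⟨fun m => (D m).1, fun k z => rfl, fun m k => ?_, fun m z p q => (D m).2.lineHol z p q,
    fun m k z hz p q => ?_⟩
  · show (D (m + 1)).1 k z₀ = 0
    rw [hs]
    exact (sep_step hU hc z₀ hcd ha (D m).2).choose_spec.2.1 k
  · show HasDerivAt (fun z => (D (m + 1)).1 k z p q) (((∑ j, c j z • a j k) * (D m).1 k z) p q) z
    rw [hs]
    exact (sep_step hU hc z₀ hcd ha (D m).2).choose_spec.2.2 k z hz p q

/-- bound of a product -/
lemma mul_bound (A B : Matrix n n ℂ) {M L : ℝ} (hA : ∀ p q, ‖A p q‖ ≤ M) (hB : ∀ p q, ‖B p q‖ ≤ L)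
    (hM : 0 ≤ M) (p q : n) : ‖(A * B) p q‖ ≤ Fintype.card n * (M * L) := by
  rw [Matrix.mul_apply]
  refine (norm_sum_le _ _).trans ?_
  calc ∑ l, ‖A p l * B l q‖ ≤ ∑ _l : n, M * L := by
        refine Finset.sum_le_sum fun l _ => ?_
        rw [norm_mul]
        exact mul_le_mul (hA p l) (hB l q) (norm_nonneg _) hM
    _ = Fintype.card n * (M * L) := by rw [Finset.sum_const, nsmul_eq_mul, Finset.card_univ]

/-- estimate of the terms -/
lemma dyson_bound {U : Set ℂ} {z₀ : ℂ} {B : ℂ → Matrix n n ℂ} {D : ℕ → ℂ → Matrix n n ℂ}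
    (h0 : ∀ z, D 0 z = 1) (h1 : ∀ m, D (m + 1) z₀ = 0)
    (hd : ∀ m, ∀ z ∈ U, ∀ p q, HasDerivAt (fun z => D (m + 1) z p q) ((B z * D m z) p q) z)
    {V : Set ℂ} (hV : Convex ℝ V) (hz₀ : z₀ ∈ V) (hVU : V ⊆ U) {M R : ℝ} (hM : 0 ≤ M)
    (hB : ∀ w ∈ V, ∀ p q, ‖B w p q‖ ≤ M) (hR : ∀ w ∈ V, ‖w - z₀‖ ≤ R) (y : ℂ) (hy : y ∈ V) (m : ℕ)
    (p q : n) : ‖D m y p q‖ ≤ (Fintype.card n * M * R) ^ m / m.factorial := by
  have hR0 : 0 ≤ R := (norm_nonneg _).trans (hR z₀ hz₀)
  set A : ℝ := Fintype.card n * M * R with hA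
  have hA0 : 0 ≤ A := by positivity
  have hγ : ∀ t : ℝ, HasDerivAt (fun t : ℝ => z₀ + (t : ℂ) * (y - z₀)) (y - z₀) t := by
    intro t
    have h := ((hasDerivAt_id t).ofReal_comp.mul_const (y - z₀)).const_add z₀
    simpa using h
  have hmem : ∀ t ∈ Icc (0:ℝ) 1, z₀ + (t : ℂ) * (y - z₀) ∈ V := by
    intro t ht
    have h2 : z₀ + (t : ℂ) * (y - z₀) = (1 - t) • z₀ + t • y := by
      rw [Complex.real_smul, Complex.real_smul]
      push_cast
      ring
    rw [h2]
    exact hV hz₀ hy (by linarith [ht.2]) ht.1 (by ring)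
  have key : ∀ m : ℕ, ∀ t ∈ Icc (0:ℝ) 1, ∀ p q,
      ‖D m (z₀ + (t : ℂ) * (y - z₀)) p q‖ ≤ (A * t) ^ m / m.factorial := by
    intro m
    induction m with
    | zero =>
      intro t _ p q
      rw [h0, Matrix.one_apply]
      split_ifs <;> simp
    | succ m ih =>
      intro t ht p q
      have hcont : ∀ t ∈ Icc (0:ℝ) 1, HasDerivAt (fun t : ℝ => D (m + 1) (z₀ + (t : ℂ) * (y - z₀)) p q)
          ((y - z₀) * (B (z₀ + (t : ℂ) * (y - z₀)) * D m (z₀ + (t : ℂ) * (y - z₀))) p q) t := by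
        intro t ht
        have h2 := hd m (z₀ + (t : ℂ) * (y - z₀)) (hVU (hmem t ht)) p q
        exact HasDerivAt.scomp t h2 (hγ t)
      have hBd : ∀ t : ℝ, HasDerivAt (fun t : ℝ => (A * t) ^ (m + 1) / ((m + 1).factorial : ℝ))
          (A * ((A * t) ^ m / m.factorial)) t := by
        intro t
        have h2 := (((hasDerivAt_id t).const_mul A).pow (m + 1)).div_const ((m + 1).factorial : ℝ)
        refine h2.congr_deriv ?_
        have h3 : ((m + 1).factorial : ℝ) = (m + 1) * m.factorial := by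
          rw [Nat.factorial_succ]; push_cast; ring
        have h4 : (m.factorial : ℝ) ≠ 0 := by positivity
        have h5 : ((m : ℝ) + 1) ≠ 0 := by positivity
        simp only [id, Nat.add_sub_cancel]
        rw [h3]
        push_cast
        field_simp
      have h2 := image_norm_le_of_norm_deriv_right_le_deriv_boundary'
        (f := fun t : ℝ => D (m + 1) (z₀ + (t : ℂ) * (y - z₀)) p q)
        (f' := fun t : ℝ => (y - z₀) * (B (z₀ + (t : ℂ) * (y - z₀)) * D m (z₀ + (t : ℂ) * (y - z₀))) p q)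
        (a := 0) (b := 1) (fun t ht => (hcont t ht).continuousAt.continuousWithinAt)
        (fun t ht => (hcont t (Ico_subset_Icc_self ht)).hasDerivWithinAt)
        (B := fun t : ℝ => (A * t) ^ (m + 1) / ((m + 1).factorial : ℝ))
        (B' := fun t : ℝ => A * ((A * t) ^ m / m.factorial))
        (by simp [h1]) (fun t _ => (hBd t).continuousAt.continuousWithinAt)
        (fun t _ => (hBd t).hasDerivWithinAt) (fun t ht => ?_)
      · exact h2 ht
      · have ht' := Ico_subset_Icc_self ht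
        rw [norm_mul]
        have h3 := mul_bound (B (z₀ + (t : ℂ) * (y - z₀))) (D m (z₀ + (t : ℂ) * (y - z₀)))
          (hB _ (hmem t ht')) (ih t ht') hM p q
        have h4 : 0 ≤ (A * t) ^ m / m.factorial := by
          have := ht.1
          positivity
        calc ‖y - z₀‖ * ‖(B (z₀ + (t : ℂ) * (y - z₀)) * D m (z₀ + (t : ℂ) * (y - z₀))) p q‖
            ≤ R * (Fintype.card n * (M * ((A * t) ^ m / m.factorial))) :=
              mul_le_mul (hR y hy) h3 (norm_nonneg _) hR0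
          _ = A * ((A * t) ^ m / m.factorial) := by rw [hA]; ring
  have h2 := key m 1 (right_mem_Icc.2 zero_le_one) p q
  have h3 : z₀ + ((1:ℝ) : ℂ) * (y - z₀) = y := by push_cast; ring
  rw [h3, mul_one] at h2
  exact h2

/-- sum of the Dyson series -/
def dsum (D : ℕ → ℂ → Matrix n n ℂ) (z : ℂ) : Matrix n n ℂ :=
  fun p q => (1 : Matrix n n ℂ) p q + ∑' m, D (m + 1) z p q

lemma dsum_apply (D : ℕ → ℂ → Matrix n n ℂ) (z : ℂ) (p q : n) :
    dsum D z p q = (1 : Matrix n n ℂ) p q + ∑' m, D (m + 1) z p q := rfl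

/-- the sum solves the equation -/
lemma dsum_hasDerivAt {U : Set ℂ} (hU : IsOpen U) (hc : Convex ℝ U) {z₀ : ℂ} (hz₀ : z₀ ∈ U)
    {B : ℂ → Matrix n n ℂ} (hBc : ∀ p q, ContinuousOn (fun z => B z p q) U) {D : ℕ → ℂ → Matrix n n ℂ}
    (h0 : ∀ z, D 0 z = 1) (h1 : ∀ m, D (m + 1) z₀ = 0)
    (hd : ∀ m, ∀ z ∈ U, ∀ p q, HasDerivAt (fun z => D (m + 1) z p q) ((B z * D m z) p q) z)
    (z : ℂ) (hz : z ∈ U) (p q : n) :
    HasDerivAt (fun z => dsum D z p q) ((B z * dsum D z) p q) z := by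
  -- a convex neighbourhood of the segment
  have hseg : IsCompact (segment ℝ z₀ z) := by
    rw [segment_eq_image_lineMap]
    exact isCompact_Icc.image (by fun_prop)
  obtain ⟨δ, hδ, hδU⟩ := hseg.exists_cthickening_subset_open hU (hc.segment_subset hz₀ hz)
  set K := cthickening δ (segment ℝ z₀ z) with hK
  have hKc : IsCompact K := hseg.cthickening
  set V := thickening δ (segment ℝ z₀ z) with hVdef
  have hVK : V ⊆ K := thickening_subset_cthickening _ _
  have hV : Convex ℝ V := (convex_segment z₀ z).thickening δ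
  have hVo : IsOpen V := isOpen_thickening
  have hz₀V : z₀ ∈ V := self_subset_thickening hδ _ (left_mem_segment ℝ z₀ z)
  have hzV : z ∈ V := self_subset_thickening hδ _ (right_mem_segment ℝ z₀ z)
  have hVU : V ⊆ U := hVK.trans hδU
  obtain ⟨M, hM0, hM⟩ : ∃ M : ℝ, 0 ≤ M ∧ ∀ w ∈ K, ∀ p q, ‖B w p q‖ ≤ M := by
    have h2 : ∀ x : n × n, ∃ C : ℝ, ∀ w ∈ K, ‖B w x.1 x.2‖ ≤ C := fun x =>
      hKc.exists_bound_of_continuousOn ((hBc x.1 x.2).mono hδU)
    choose C hC using h2
    refine ⟨∑ x, |C x|, Finset.sum_nonneg fun _ _ => abs_nonneg _, fun w hw p q => ?_⟩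
    refine (hC (p, q) w hw).trans ((le_abs_self _).trans ?_)
    exact Finset.single_le_sum (f := fun x => |C x|) (fun x _ => abs_nonneg _) (Finset.mem_univ (p, q))
  obtain ⟨R, hR⟩ : ∃ R : ℝ, ∀ w ∈ K, ‖w - z₀‖ ≤ R :=
    hKc.exists_bound_of_continuousOn (by fun_prop)
  have hbd : ∀ y ∈ V, ∀ m p q, ‖D m y p q‖ ≤ (Fintype.card n * M * R) ^ m / m.factorial :=
    fun y hy m p q => dyson_bound h0 h1 hd hV hz₀V hVU hM0 (fun w hw => hM w (hVK hw))
      (fun w hw => hR w (hVK hw)) y hy m p q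
  set A : ℝ := Fintype.card n * M * R with hA
  have hsumA : Summable fun m : ℕ => A ^ m / m.factorial := Real.summable_pow_div_factorial A
  have hsum : ∀ y ∈ V, ∀ p q, Summable fun m => D m y p q := fun y hy p q =>
    Summable.of_norm_bounded hsumA fun m => hbd y hy m p q
  have hmain := hasDerivAt_tsum_of_isPreconnected (g := fun m z => D (m + 1) z p q)
    (g' := fun m z => (B z * D m z) p q) (u := fun m : ℕ => Fintype.card n * (M * (A ^ m / m.factorial)))
    ((hsumA.mul_left M).mul_left _) hVo hV.isPreconnected (fun m y hy => hd m y (hVU hy) p q)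
    (fun m y hy => mul_bound _ _ (hM y (hVK hy)) (fun p q => hbd y hy m p q) hM0 p q) hz₀V
    (by simp only [h1, Matrix.zero_apply]; exact summable_zero) hzV
  have e : ∑' m, (B z * D m z) p q = (B z * dsum D z) p q := by
    simp only [Matrix.mul_apply]
    rw [Summable.tsum_finsetSum fun l _ => (hsum z hzV l q).mul_left _]
    refine Finset.sum_congr rfl fun l _ => ?_
    rw [tsum_mul_left, (hsum z hzV l q).tsum_eq_zero_add, h0, dsum_apply]
  rw [e] at hmain
  exact hmain.const_add _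

/-- dependence of the sum on parameters -/
lemma dsum_lineHol {U : Set ℂ} (hc : Convex ℝ U) {z₀ : ℂ} (hz₀ : z₀ ∈ U)
    {c : J → ℂ → ℂ} (hcd : ∀ j, DifferentiableOn ℂ (c j) U)
    {a : J → P → Matrix n n ℂ} (ha : ∀ j p q, LineHol (fun k => a j k p q))
    {D : ℕ → P → ℂ → Matrix n n ℂ} (h0 : ∀ k z, D 0 k z = 1) (h1 : ∀ m k, D (m + 1) k z₀ = 0)
    (hL : ∀ m z p q, LineHol (fun k => D m k z p q))
    (hd : ∀ m k, ∀ z ∈ U, ∀ p q, HasDerivAt (fun z => D (m + 1) k z p q)
        (((∑ j, c j z • a j k) * D m k z) p q) z) (z : ℂ) (hz : z ∈ U) (p q : n) :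
    LineHol (fun k => dsum (fun m => D m k) z p q) := by
  have hseg : IsCompact (segment ℝ z₀ z) := by
    rw [segment_eq_image_lineMap]
    exact isCompact_Icc.image (by fun_prop)
  have hsU : segment ℝ z₀ z ⊆ U := hc.segment_subset hz₀ hz
  obtain ⟨C, hC0, hC⟩ : ∃ C : ℝ, 0 ≤ C ∧ ∀ w ∈ segment ℝ z₀ z, ∀ j, ‖c j w‖ ≤ C := by
    have h2 : ∀ j, ∃ C : ℝ, ∀ w ∈ segment ℝ z₀ z, ‖c j w‖ ≤ C := fun j =>
      hseg.exists_bound_of_continuousOn ((hcd j).continuousOn.mono hsU)
    choose C hC using h2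
    refine ⟨∑ j, |C j|, Finset.sum_nonneg fun _ _ => abs_nonneg _, fun w hw j => ?_⟩
    refine (hC j w hw).trans ((le_abs_self _).trans ?_)
    exact Finset.single_le_sum (f := fun j => |C j|) (fun x _ => abs_nonneg _) (Finset.mem_univ j)
  set Mk : P → ℝ := fun k => ∑ j, ∑ p, ∑ q, C * ‖a j k p q‖ with hMk
  have hMkc : Continuous Mk := continuous_finsetSum _ fun j _ => continuous_finsetSum _ fun p _ =>
    continuous_finsetSum _ fun q _ => continuous_const.mul (ha j p q).1.norm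
  have hB : ∀ k, ∀ w ∈ segment ℝ z₀ z, ∀ p q, ‖(∑ j, c j w • a j k) p q‖ ≤ Mk k := by
    intro k w hw p q
    rw [Matrix.sum_apply]
    refine (norm_sum_le _ _).trans (Finset.sum_le_sum fun j _ => ?_)
    have h2 : ‖(c j w • a j k) p q‖ ≤ C * ‖a j k p q‖ := by
      change ‖c j w * a j k p q‖ ≤ _
      rw [norm_mul]
      exact mul_le_mul_of_nonneg_right (hC w hw j) (norm_nonneg _)
    refine h2.trans ?_
    refine le_trans ?_ (Finset.single_le_sum (f := fun p => ∑ q, C * ‖a j k p q‖)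
      (fun p _ => Finset.sum_nonneg fun q _ => by positivity) (Finset.mem_univ p))
    exact Finset.single_le_sum (f := fun q => C * ‖a j k p q‖) (fun q _ => by positivity)
      (Finset.mem_univ q)
  have hbd : ∀ (M : ℝ), 0 ≤ M → ∀ k, Mk k ≤ M → ∀ m, ‖D (m + 1) k z p q‖ ≤
      (Fintype.card n * M * ‖z - z₀‖) ^ (m + 1) / (m + 1).factorial := by
    intro M hM k hk m
    refine dyson_bound (D := fun m => D m k) (B := fun w => ∑ j, c j w • a j k) (h0 k)
      (fun m => h1 m k) (fun m => hd m k) (convex_segment z₀ z) (left_mem_segment ℝ z₀ z) hsU hM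
      (fun w hw p q => (hB k w hw p q).trans hk) (fun w hw => ?_) z (right_mem_segment ℝ z₀ z) (m + 1) p q
    rw [segment_eq_image_lineMap] at hw
    obtain ⟨t, ht, rfl⟩ := hw
    rw [AffineMap.lineMap_apply, vsub_eq_sub, vadd_eq_add, add_sub_cancel_right, norm_smul,
      Real.norm_of_nonneg ht.1]
    exact mul_le_of_le_one_left (norm_nonneg _) ht.2
  have hsumA : ∀ A : ℝ, Summable fun m : ℕ => A ^ (m + 1) / ((m + 1).factorial : ℝ) := fun A =>
    (summable_nat_add_iff 1).2 (Real.summable_pow_div_factorial A)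
  have hMk0 : ∀ k, 0 ≤ Mk k := fun k => Finset.sum_nonneg fun j _ => Finset.sum_nonneg fun p _ =>
    Finset.sum_nonneg fun q _ => by positivity
  simp only [dsum_apply]
  refine lh_add (lh_const _) ⟨?_, fun k k' => ?_⟩
  · rw [continuous_iff_continuousAt]
    intro k₀
    have hW : IsOpen {k | Mk k < Mk k₀ + 1} := isOpen_lt hMkc continuous_const
    have h2 : ContinuousOn (fun k => ∑' m, D (m + 1) k z p q) {k | Mk k < Mk k₀ + 1} :=
      continuousOn_tsum (fun m => (hL (m + 1) z p q).1.continuousOn)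
        (hsumA (Fintype.card n * (Mk k₀ + 1) * ‖z - z₀‖))
        (fun m k hk => hbd _ (by linarith [hMk0 k₀]) k (le_of_lt hk) m)
    exact h2.continuousAt (hW.mem_nhds (by show Mk k₀ < Mk k₀ + 1; linarith))
  · intro s₀
    have hcl : Continuous fun s : ℂ => Mk (k + s • k') := hMkc.comp (by fun_prop)
    have hW : IsOpen {s : ℂ | Mk (k + s • k') < Mk (k + s₀ • k') + 1} := isOpen_lt hcl continuous_const
    have h2 : DifferentiableOn ℂ (fun s : ℂ => ∑' m, D (m + 1) (k + s • k') z p q)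
        {s : ℂ | Mk (k + s • k') < Mk (k + s₀ • k') + 1} :=
      Complex.differentiableOn_tsum_of_summable_norm
        (hsumA (Fintype.card n * (Mk (k + s₀ • k') + 1) * ‖z - z₀‖))
        (fun m => ((hL (m + 1) z p q).2 k k').differentiableOn) hW
        (fun m s hs => hbd _ (by linarith [hMk0 (k + s₀ • k')]) _ (le_of_lt hs) m)
    exact (h2 s₀ (by show Mk (k + s₀ • k') < Mk (k + s₀ • k') + 1; linarith)).differentiableAt
      (hW.mem_nhds (by show Mk (k + s₀ • k') < Mk (k + s₀ • k') + 1; linarith))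

/-- existence without the inverse -/
lemma exists_core {U : Set ℂ} (hU : IsOpen U) (hc : Convex ℝ U) {z₀ : ℂ} (hz₀ : z₀ ∈ U)
    {c : J → ℂ → ℂ} (hcd : ∀ j, DifferentiableOn ℂ (c j) U)
    {a : J → P → Matrix n n ℂ} (ha : ∀ j p q, LineHol (fun k => a j k p q)) :
    ∃ F : P → ℂ → Matrix n n ℂ, (∀ k, F k z₀ = 1) ∧
      (∀ k, ∀ z ∈ U, ∀ p q, HasDerivAt (fun z => F k z p q) (((∑ j, c j z • a j k) * F k z) p q) z) ∧
      (∀ z ∈ U, ∀ p q, LineHol (fun k => F k z p q)) := by
  obtain ⟨D, h0, h1, hL, hd⟩ := exists_dyson hU hc z₀ hcd ha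
  refine ⟨fun k => dsum fun m => D m k, fun k => ?_, fun k z hz p q => ?_, fun z hz p q => ?_⟩
  · ext p q
    show dsum (fun m => D m k) z₀ p q = (1 : Matrix n n ℂ) p q
    rw [dsum_apply]
    simp only [h1, Matrix.zero_apply, tsum_zero, add_zero]
  · refine dsum_hasDerivAt (B := fun z => ∑ j, c j z • a j k) hU hc hz₀ (fun p q => ?_) (h0 k)
      (fun m => h1 m k) (fun m => hd m k) z hz p q
    have e : (fun z => (∑ j, c j z • a j k) p q) = fun z => ∑ j, c j z * a j k p q := by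
      funext z
      rw [Matrix.sum_apply]
      rfl
    rw [e]
    exact continuousOn_finsetSum _ fun j _ => (hcd j).continuousOn.mul continuousOn_const
  · exact dsum_lineHol hc hz₀ hcd ha h0 h1 hL hd z hz p q

end ODE1X

variable {n : Type} [Fintype n] [DecidableEq n]

/-- Linear ODE on a convex open set, with parameters: `B k z = Σ_j c_j(z) a_j(k)`. -/
theorem exists_ode_param {P : Type} [NormedAddCommGroup P] [NormedSpace ℂ P]
    {J : Type} [Fintype J] (U : Set ℂ) (hU : IsOpen U) (hc : Convex ℝ U) (z₀ : ℂ) (hz₀ : z₀ ∈ U)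
    (c : J → ℂ → ℂ) (hcd : ∀ j, DifferentiableOn ℂ (c j) U)
    (a : J → P → Matrix n n ℂ) (ha : ∀ j p q, LineHol (fun k => a j k p q)) :
    ∃ F : P → ℂ → Matrix n n ℂ, (∀ k, F k z₀ = 1) ∧
      (∀ k, ∀ z ∈ U, ∀ p q, HasDerivAt (fun z => F k z p q) (((∑ j, c j z • a j k) * F k z) p q) z) ∧
      (∀ k, ∀ z ∈ U, IsUnit (F k z)) ∧
      (∀ z ∈ U, ∀ p q, LineHol (fun k => F k z p q)) ∧
      (∀ z ∈ U, ∀ p q, LineHol (fun k => (F k z)⁻¹ p q)) := by
  obtain ⟨F, hF0, hFd, hFL⟩ := ODE1X.exists_core hU hc hz₀ hcd ha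
  obtain ⟨G, hG0, hGd, hGL⟩ := ODE1X.exists_core (a := fun j k => -(a j k).transpose) hU hc hz₀ hcd
    (fun j p q => ODE1X.lh_neg (ha j q p))
  have hGF : ∀ k, ∀ z ∈ U, (G k z).transpose * F k z = 1 := by
    intro k z hz
    ext p q
    have hder : ∀ w ∈ U, HasDerivAt (fun w => ((G k w).transpose * F k w) p q) 0 w := by
      intro w hw
      have h1 : HasDerivAt (fun w => ∑ l, G k w l p * F k w l q)
          (∑ l, (((∑ j, c j w • -(a j k).transpose) * G k w) l p * F k w l q +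
            G k w l p * ((∑ j, c j w • a j k) * F k w) l q)) w :=
        HasDerivAt.fun_sum fun l _ => (hGd k w hw l p).mul (hFd k w hw l q)
      have h2 : ∑ l, (((∑ j, c j w • -(a j k).transpose) * G k w) l p * F k w l q +
            G k w l p * ((∑ j, c j w • a j k) * F k w) l q) = 0 := by
        have e1 : ∑ j, c j w • -(a j k).transpose = -(∑ j, c j w • a j k).transpose := by
          rw [Matrix.transpose_sum, ← Finset.sum_neg_distrib]
          refine Finset.sum_congr rfl fun j _ => ?_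
          rw [Matrix.transpose_smul, smul_neg]
        rw [Finset.sum_add_distrib, e1]
        have e2 : ∑ l, ((-(∑ j, c j w • a j k).transpose) * G k w) l p * F k w l q =
            (((-(∑ j, c j w • a j k).transpose) * G k w).transpose * F k w) p q := by
          rw [Matrix.mul_apply]; rfl
        have e3 : ∑ l, G k w l p * ((∑ j, c j w • a j k) * F k w) l q =
            ((G k w).transpose * ((∑ j, c j w • a j k) * F k w)) p q := by
          rw [Matrix.mul_apply]; rfl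
        rw [e2, e3, Matrix.transpose_mul, Matrix.transpose_neg, Matrix.transpose_transpose, Matrix.mul_neg,
          Matrix.neg_mul, Matrix.mul_assoc, Matrix.neg_apply, neg_add_cancel]
      rw [h2] at h1
      have e : (fun w => ((G k w).transpose * F k w) p q) = fun w => ∑ l, G k w l p * F k w l q := by
        funext w
        rw [Matrix.mul_apply]
        rfl
      rw [e]
      exact h1
    have hconst := hU.is_const_of_deriv_eq_zero hc.isPreconnected
      (fun w hw => (hder w hw).differentiableAt.differentiableWithinAt)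
      (fun w hw => (hder w hw).deriv) hz hz₀
    rw [hconst, hG0, hF0, Matrix.transpose_one, Matrix.one_mul]
  have hinv : ∀ k, ∀ z ∈ U, (F k z)⁻¹ = (G k z).transpose := fun k z hz =>
    Matrix.inv_eq_left_inv (hGF k z hz)
  refine ⟨F, hF0, hFd, fun k z hz => ?_, hFL, fun z hz p q => ?_⟩
  · exact (Matrix.isUnit_iff_isUnit_det _).2 (Matrix.isUnit_det_of_left_inverse (hGF k z hz))
  · have e : (fun k => (F k z)⁻¹ p q) = fun k => G k z q p := by
      funext k
      rw [hinv k z hz]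
      rfl
    rw [e]
    exact hGL z hz q p

/-- Linear ODE on a convex open set. -/
theorem exists_ode (U : Set ℂ) (hU : IsOpen U) (hc : Convex ℝ U) (z₀ : ℂ) (hz₀ : z₀ ∈ U)
    (B : ℂ → Matrix n n ℂ) (hB : ∀ p q, DifferentiableOn ℂ (fun z => B z p q) U) :
    ∃ F : ℂ → Matrix n n ℂ, F z₀ = 1 ∧
      (∀ z ∈ U, ∀ p q, HasDerivAt (fun z => F z p q) ((B z * F z) p q) z) ∧
      (∀ z ∈ U, IsUnit (F z)) := by
  obtain ⟨F, h0, hd, hu, -, -⟩ := exists_ode_param (P := ℂ) (J := n × n) (n := n) U hU hc z₀ hz₀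
    (fun x z => B z x.1 x.2) (fun x => hB x.1 x.2) (fun x _ => Matrix.single x.1 x.2 1)
    (fun _ _ _ => ODE1X.lh_const _)
  have e : ∀ z, ∑ x : n × n, B z x.1 x.2 • Matrix.single x.1 x.2 (1:ℂ) = B z := by
    intro z
    rw [Fintype.sum_prod_type]
    conv_rhs => rw [Matrix.matrix_eq_sum_single (B z)]
    refine Finset.sum_congr rfl fun i _ => Finset.sum_congr rfl fun j _ => ?_
    rw [Matrix.smul_single, smul_eq_mul, mul_one]
  refine ⟨F 0, h0 0, fun z hz p q => ?_, fun z hz => hu 0 z hz⟩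
  have h := hd 0 z hz p q
  simp only [e] at h
  exact h

end

end Pool.Agent.CMF
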