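import Pool.Agent.CMF.BaireA
import Pool.Agent.CMF.DunA
import Pool.Agent.CMF.ODE1
import Pool.Agent.CMF.ODE2
import Pool.Agent.CMF.FrameA

/-!
Project CMF, module FrameB: local horizontal frames of the KZ connection, in polar coordinates
`F(w) = exp(log(w_i/v_i) A_∞) G(w_j/w_i)`.
-/

set_option linter.unusedSectionVars false

namespace Pool.Agent.CMF

open Matrix

noncomputable section

variable {N : SG} [Fintype N] {ι : Type} [Fintype ι] [DecidableEq ι]

namespace FrameBX

lemma dot_ij {i j : Fin 2} (h : i ≠ j) (a v : Fin 2 → ℂ) : a ⬝ᵥ v = a i * v i + a j * v j := by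
  rw [dotProduct, Fin.sum_univ_two]
  fin_cases i <;> fin_cases j
  · exact absurd rfl h
  · rfl
  · exact add_comm _ _
  · exact absurd rfl h

/-- coefficient function of the slope coordinate -/
def cc (i j : Fin 2) (a : Fin 2 → ℂ) (z : ℂ) : ℂ := a j / (a i + a j * z)

lemma rat_polar {i j : Fin 2} (h : i ≠ j) (a w y : Fin 2 → ℂ) (hw : w i ≠ 0) (ha : a ⬝ᵥ w ≠ 0) :
    (a ⬝ᵥ y) / (a ⬝ᵥ w) = y i / w i + cc i j a (w j / w i) * ((y j * w i - w j * y i) / w i ^ 2) := by
  rw [dot_ij h] at ha ⊢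
  rw [dot_ij h a w]
  have h1 : a i + a j * (w j / w i) = (a i * w i + a j * w j) / w i := by field_simp
  unfold cc
  rw [h1]
  field_simp
  ring

open Classical in
/-- coefficient functions of the slope form -/
def cJ (i j : Fin 2) : (N ⊕ Arr N) → ℂ → ℂ
  | Sum.inl g => fun z => if IsRefl g.1 then cc i j (lf (fixL g.1)) z else 0
  | Sum.inr H => fun z => cc i j (lf H.1) z

/-- coefficient matrices of the slope form -/
def aJ (ρ : N →* Matrix ι ι ℂ) : (N ⊕ Arr N) → (Idx N → ℂ) → Matrix ι ι ℂ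
  | Sum.inl g => fun k => cr k g • ρ g
  | Sum.inr H => fun k => cs k H • (1 : Matrix ι ι ℂ)

lemma cr_zero (k : Idx N → ℂ) (g : N) (h : ¬ IsRefl g.1) : cr k g = 0 := by
  unfold cr
  rw [dif_neg h]

lemma refl_arr (g : N) (h : IsRefl g.1) : ∃ H : Arr N, H.1 = fixL g.1 :=
  ⟨⟨fixL g.1, g.1, g.2, h, rfl⟩, rfl⟩

/-- the KZ form in polar coordinates -/
lemma om_polar {i j : Fin 2} (h : i ≠ j) (ρ : N →* Matrix ι ι ℂ) (k : Idx N → ℂ) (w y : Fin 2 → ℂ)
    (hw : w i ≠ 0) (hr : ∀ H : Arr N, lf H.1 ⬝ᵥ w ≠ 0) :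
    om ρ k w y = (y i / w i) • Ainf ρ k +
      ((y j * w i - w j * y i) / w i ^ 2) • ∑ x, cJ i j x (w j / w i) • aJ ρ x k := by
  set s := y i / w i with hs
  set d := (y j * w i - w j * y i) / w i ^ 2 with hd
  have h1 : ∀ g : N, (cr k g * rat (fixL g.1) y w) • ρ g =
      s • (cr k g • ρ g) + d • (cJ i j (Sum.inl g : N ⊕ Arr N) (w j / w i) • aJ ρ (Sum.inl g) k) := by
    intro g
    by_cases hg : IsRefl g.1
    · obtain ⟨H, hH⟩ := refl_arr g hg
      have h2 : rat (fixL g.1) y w = s + cc i j (lf (fixL g.1)) (w j / w i) * d := by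
        unfold rat
        exact rat_polar h _ w y hw (by rw [← hH]; exact hr H)
      simp only [cJ, aJ, if_pos hg]
      rw [h2, smul_smul, smul_smul, smul_smul, ← add_smul]
      congr 1
      ring
    · simp only [cJ, aJ, if_neg hg, cr_zero k g hg, zero_mul, zero_smul, smul_zero, add_zero]
  have h3 : ∀ H : Arr N, (cs k H * rat H.1 y w) • (1 : Matrix ι ι ℂ) =
      s • (cs k H • (1 : Matrix ι ι ℂ)) +
        d • (cJ i j (Sum.inr H : N ⊕ Arr N) (w j / w i) • aJ ρ (Sum.inr H) k) := by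
    intro H
    have h2 : rat H.1 y w = s + cc i j (lf H.1) (w j / w i) * d := by
      unfold rat
      exact rat_polar h _ w y hw (hr H)
    simp only [cJ, aJ]
    rw [h2, smul_smul, smul_smul, smul_smul, ← add_smul]
    congr 1
    ring
  unfold om gau Ainf
  rw [Finset.sum_smul, Fintype.sum_sum_type, smul_add, smul_add, Finset.sum_smul, Finset.smul_sum,
    Finset.smul_sum, Finset.smul_sum, Finset.smul_sum, Finset.sum_congr rfl fun g _ => h1 g,
    Finset.sum_congr rfl fun H _ => h3 H, Finset.sum_add_distrib, Finset.sum_add_distrib]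
  abel

lemma comm_slope (ρ : N →* Matrix ι ι ℂ) (k : Idx N → ℂ) (i j : Fin 2) (z : ℂ) :
    Ainf ρ k * (∑ x, cJ i j x z • aJ ρ x k) = (∑ x, cJ i j x z • aJ ρ x k) * Ainf ρ k := by
  rw [Finset.mul_sum, Finset.sum_mul]
  refine Finset.sum_congr rfl fun x _ => ?_
  rw [mul_smul_comm, smul_mul_assoc]
  congr 1
  cases x with
  | inl g => simp only [aJ]; rw [mul_smul_comm, smul_mul_assoc, Ainf_comm]
  | inr H => simp only [aJ]; rw [mul_smul_comm, smul_mul_assoc, mul_one, one_mul]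

lemma lh_coord (x : Idx N) : LineHol (fun k : Idx N → ℂ => k x) :=
  LineHol.clm (ContinuousLinearMap.proj (R := ℂ) (φ := fun _ : Idx N => ℂ) x)

lemma lh_cf (H : Arr N) (g : GL (Fin 2) ℂ) : LineHol (fun k : Idx N → ℂ => cf k H g) := by
  unfold cf
  exact LineHol.sum _ fun j _ => LineHol.mul (lh_coord _) (LineHol.const _)

lemma lh_cr (g : N) : LineHol (fun k : Idx N → ℂ => cr k g) := by
  by_cases hg : IsRefl g.1
  · have e : (fun k : Idx N → ℂ => cr k g) = fun k => cf k ⟨fixL g.1, g.1, g.2, hg, rfl⟩ g.1 := by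
      funext k
      unfold cr
      rw [dif_pos hg]
    rw [e]
    exact lh_cf _ _
  · have e : (fun k : Idx N → ℂ => cr k g) = fun _ => 0 := by
      funext k
      exact cr_zero k g hg
    rw [e]
    exact LineHol.const _

lemma lh_cs (H : Arr N) : LineHol (fun k : Idx N → ℂ => cs k H) := by
  unfold cs
  exact LineHol.sum _ fun j _ => lh_coord _

lemma lh_aJ (ρ : N →* Matrix ι ι ℂ) (x : N ⊕ Arr N) (p q : ι) : LineHol (fun k => aJ ρ x k p q) := by
  cases x with
  | inl g => exact LineHol.mul (lh_cr g) (LineHol.const (ρ g p q))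
  | inr H => exact LineHol.mul (lh_cs H) (LineHol.const ((1 : Matrix ι ι ℂ) p q))

lemma lh_Ainf (ρ : N →* Matrix ι ι ℂ) (p q : ι) : LineHol (fun k => Ainf ρ k p q) := by
  have e : (fun k => Ainf ρ k p q) = fun k => ∑ g : N, cr k g * ρ g p q +
      (∑ H : Arr N, cs k H) * (1 : Matrix ι ι ℂ) p q := by
    funext k
    unfold Ainf
    rw [Matrix.add_apply, Matrix.sum_apply]
    rfl
  rw [e]
  exact LineHol.add (LineHol.sum _ fun g _ => LineHol.mul (lh_cr g) (LineHol.const _))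
    (LineHol.mul (LineHol.sum _ fun H _ => lh_cs H) (LineHol.const _))

/-- solutions of the constant equation commute with the commutant -/
lemma exp_comm {X : ℂ → Matrix ι ι ℂ} {A B : Matrix ι ι ℂ} (h0 : X 0 = 1)
    (hX : ∀ s ∈ (Set.univ : Set ℂ), ∀ p q, HasDerivAt (fun s => X s p q) ((A * X s) p q) s)
    (hu : ∀ s ∈ (Set.univ : Set ℂ), IsUnit (X s)) (hAB : A * B = B * A) (s : ℂ) : X s * B = B * X s := by
  have hG : ∀ s ∈ (Set.univ : Set ℂ), ∀ p q,
      HasDerivAt (fun s => (B * X s - X s * B) p q) ((A * (B * X s - X s * B)) p q) s := by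
    intro s hs p q
    have h1 : HasDerivAt (fun s => ∑ l, B p l * X s l q - ∑ l, X s p l * B l q)
        (∑ l, B p l * (A * X s) l q - ∑ l, (A * X s) p l * B l q) s :=
      (HasDerivAt.fun_sum fun l _ => (hX s hs l q).const_mul (B p l)).sub
        (HasDerivAt.fun_sum fun l _ => (hX s hs p l).mul_const (B l q))
    have e1 : (fun s => (B * X s - X s * B) p q) = fun s => ∑ l, B p l * X s l q - ∑ l, X s p l * B l q := by
      funext s
      rw [Matrix.sub_apply, Matrix.mul_apply, Matrix.mul_apply]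
    have e2 : (A * (B * X s - X s * B)) p q =
        ∑ l, B p l * (A * X s) l q - ∑ l, (A * X s) p l * B l q := by
      rw [Matrix.mul_sub, ← Matrix.mul_assoc, hAB, Matrix.mul_assoc, ← Matrix.mul_assoc A, Matrix.sub_apply,
        Matrix.mul_apply, Matrix.mul_apply]
    rw [e1, e2]
    exact h1
  have h2 := ode_unique Set.univ isOpen_univ convex_univ (fun _ => A) X (fun s => B * X s - X s * B)
    hX hG hu s (Set.mem_univ _) 0 (Set.mem_univ _)
  have h3 : B * X 0 - X 0 * B = 0 := by rw [h0, Matrix.mul_one, Matrix.one_mul, sub_self]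
  simp only [h3, Matrix.mul_zero] at h2
  have h4 : IsUnit (X s).det := (Matrix.isUnit_iff_isUnit_det _).1 (hu s (Set.mem_univ _))
  have h5 : X s * ((X s)⁻¹ * (B * X s - X s * B)) = B * X s - X s * B := by
    rw [← Matrix.mul_assoc, Matrix.mul_nonsing_inv _ h4, Matrix.one_mul]
  rw [h2, Matrix.mul_zero] at h5
  exact (sub_eq_zero.1 h5.symm).symm

lemma hasFDerivAt_slope {i j : Fin 2} (w : Fin 2 → ℂ) (hw : w i ≠ 0) :
    ∃ L : (Fin 2 → ℂ) →L[ℂ] ℂ, HasFDerivAt (fun w : Fin 2 → ℂ => w j / w i) L w ∧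
      ∀ y, L y = (y j * w i - w j * y i) / w i ^ 2 := by
  have h1 : HasFDerivAt (fun w : Fin 2 → ℂ => w j) (ContinuousLinearMap.proj (R := ℂ) j) w :=
    hasFDerivAt_apply j w
  have h2 : HasFDerivAt (fun w : Fin 2 → ℂ => w i) (ContinuousLinearMap.proj (R := ℂ) i) w :=
    hasFDerivAt_apply i w
  have h3 := h1.mul ((hasDerivAt_inv hw).comp_hasFDerivAt w h2)
  refine ⟨_, h3, fun y => ?_⟩
  simp
  field_simp
  ring

lemma hasFDerivAt_log {i : Fin 2} (w : Fin 2 → ℂ) (c : ℂ) (hc : c ≠ 0) (hw : w i ≠ 0)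
    (hs : w i / c ∈ Complex.slitPlane) :
    ∃ L : (Fin 2 → ℂ) →L[ℂ] ℂ, HasFDerivAt (fun w : Fin 2 → ℂ => Complex.log (w i / c)) L w ∧
      ∀ y, L y = y i / w i := by
  have h2 : HasFDerivAt (fun w : Fin 2 → ℂ => w i) (ContinuousLinearMap.proj (R := ℂ) i) w :=
    hasFDerivAt_apply i w
  have h3 := (h2.mul_const c⁻¹).clog (by rw [← div_eq_mul_inv]; exact hs)
  have e : (fun w : Fin 2 → ℂ => Complex.log (w i / c)) = fun w => Complex.log (w i * c⁻¹) := by
    funext w
    rw [div_eq_mul_inv]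
  rw [e]
  refine ⟨_, h3, fun y => ?_⟩
  simp
  field_simp

lemma sum_clm_apply {U V W G : Matrix ι ι ℂ} (p q : ι) (L1 L2 : (Fin 2 → ℂ) →L[ℂ] ℂ) (y : Fin 2 → ℂ) :
    (∑ l, (U p l • (V l q • L2) + G l q • (W p l • L1))) y = (U * V) p q * L2 y + (W * G) p q * L1 y := by
  rw [Matrix.mul_apply, Matrix.mul_apply, Finset.sum_mul, Finset.sum_mul, ← Finset.sum_add_distrib,
    _root_.sum_apply]
  refine Finset.sum_congr rfl fun l _ => ?_
  simp only [_root_.add_apply, _root_.smul_apply, smul_eq_mul]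
  ring

end FrameBX

open FrameBX

/-- Local horizontal frames. -/
theorem exists_frame (hN : ∃ s ∈ N, IsRefl s) (ρ : N →* Matrix ι ι ℂ) (v : VReg N) :
    ∃ (r : ℝ) (F : (Idx N → ℂ) → (Fin 2 → ℂ) → Matrix ι ι ℂ), 0 < r ∧
      (∀ w ∈ Metric.ball v.1 r, ∀ g ∈ N, IsRefl g → g.1 *ᵥ w ≠ w) ∧
      (∀ k, F k v.1 = 1) ∧ (∀ k, Horiz ρ k (Metric.ball v.1 r) (F k)) ∧
      ∀ w ∈ Metric.ball v.1 r, ∀ p q,
        LineHol (fun k => F k w p q) ∧ LineHol (fun k => (F k w)⁻¹ p q) := by
  -- a non-zero coordinate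
  obtain ⟨i, hi⟩ : ∃ i, v.1 i ≠ 0 := by
    by_contra hcon
    push Not at hcon
    obtain ⟨s, hs, hsr⟩ := hN
    refine v.2 s hs hsr ?_
    have h0 : v.1 = 0 := funext hcon
    rw [h0, Matrix.mulVec_zero]
  obtain ⟨j, hij⟩ : ∃ j, i ≠ j := by
    fin_cases i
    · exact ⟨1, by decide⟩
    · exact ⟨0, by decide⟩
  have hreg : ∀ H : Arr N, lf H.1 ⬝ᵥ v.1 ≠ 0 := (vreg_iff v.1).1 v.2
  set z₀ := v.1 j / v.1 i with hz₀
  -- the slope disc
  have hden : ∀ᶠ z in nhds z₀, ∀ H : Arr N, lf H.1 i + lf H.1 j * z ≠ 0 := by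
    rw [Filter.eventually_all]
    intro H
    have hc : Continuous fun z : ℂ => lf H.1 i + lf H.1 j * z := by fun_prop
    apply hc.continuousAt.eventually_ne
    have h1 := hreg H
    rw [dot_ij hij] at h1
    have h2 : lf H.1 i + lf H.1 j * z₀ = (lf H.1 i * v.1 i + lf H.1 j * v.1 j) / v.1 i := by
      rw [hz₀]; field_simp
    rw [h2]
    exact div_ne_zero h1 hi
  obtain ⟨δ, hδ, hball⟩ := Metric.eventually_nhds_iff_ball.1 hden
  -- the frames in each variable
  obtain ⟨X, hX0, hXd, hXu, hXL, hXL'⟩ := exists_ode_param (P := Idx N → ℂ) (J := Unit) (n := ι)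
    Set.univ isOpen_univ convex_univ 0 (Set.mem_univ _) (fun _ _ => 1)
    (fun _ => differentiableOn_const _) (fun _ k => Ainf ρ k) (fun _ p q => lh_Ainf ρ p q)
  have hcc : ∀ a : Fin 2 → ℂ, (∀ z ∈ Metric.ball z₀ δ, a i + a j * z ≠ 0) →
      DifferentiableOn ℂ (cc i j a) (Metric.ball z₀ δ) := by
    intro a ha
    unfold cc
    refine DifferentiableOn.div (differentiableOn_const _) (by fun_prop) ha
  obtain ⟨G, hG0, hGd, hGu, hGL, hGL'⟩ := exists_ode_param (P := Idx N → ℂ) (J := N ⊕ Arr N) (n := ι)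
    (Metric.ball z₀ δ) Metric.isOpen_ball (convex_ball z₀ δ) z₀ (Metric.mem_ball_self hδ) (cJ i j)
    (fun x => by
      cases x with
      | inl g =>
        by_cases hg : IsRefl g.1
        · simp only [cJ, if_pos hg]
          obtain ⟨H, hH⟩ := refl_arr g hg
          exact hcc _ fun z hz => by rw [← hH]; exact hball z hz H
        · simp only [cJ, if_neg hg]
          exact differentiableOn_const _
      | inr H => exact hcc _ fun z hz => hball z hz H) (aJ ρ) (fun x p q => lh_aJ ρ x p q)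
  have hXd' : ∀ k, ∀ s ∈ (Set.univ : Set ℂ), ∀ p q,
      HasDerivAt (fun s => X k s p q) ((Ainf ρ k * X k s) p q) s := by
    intro k s hs p q
    have h1 := hXd k s hs p q
    simpa using h1
  -- the ball
  have hev : ∀ᶠ w in nhds v.1, (∀ H : Arr N, lf H.1 ⬝ᵥ w ≠ 0) ∧ w i ≠ 0 ∧
      w i / v.1 i ∈ Complex.slitPlane ∧ w j / w i ∈ Metric.ball z₀ δ := by
    have hci : Continuous fun w : Fin 2 → ℂ => w i := continuous_apply i
    have hcj : Continuous fun w : Fin 2 → ℂ => w j := continuous_apply j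
    refine Filter.Eventually.and ?_ (Filter.Eventually.and ?_ (Filter.Eventually.and ?_ ?_))
    · rw [Filter.eventually_all]
      intro H
      have hc : Continuous fun w : Fin 2 → ℂ => lf H.1 ⬝ᵥ w := by
        unfold dotProduct
        fun_prop
      exact hc.continuousAt.eventually_ne (hreg H)
    · exact hci.continuousAt.eventually_ne hi
    · have hc : Continuous fun w : Fin 2 → ℂ => w i / v.1 i := hci.div_const _
      apply hc.continuousAt.eventually_mem
      apply Complex.isOpen_slitPlane.mem_nhds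
      rw [div_self hi]
      exact Complex.one_mem_slitPlane
    · have hc : ContinuousAt (fun w : Fin 2 → ℂ => w j / w i) v.1 :=
        hcj.continuousAt.div hci.continuousAt hi
      exact hc.eventually_mem (Metric.isOpen_ball.mem_nhds (Metric.mem_ball_self hδ))
  obtain ⟨r, hr, hrb⟩ := Metric.eventually_nhds_iff_ball.1 hev
  refine ⟨r, fun k w => X k (Complex.log (w i / v.1 i)) * G k (w j / w i), hr, ?_, ?_, ?_, ?_⟩
  · intro w hw
    exact (vreg_iff w).2 (hrb w hw).1
  · intro k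
    show X k (Complex.log (v.1 i / v.1 i)) * G k (v.1 j / v.1 i) = 1
    rw [div_self hi, Complex.log_one, hX0, ← hz₀, hG0, Matrix.one_mul]
  · intro k w hw
    obtain ⟨h1, h2, h3, h4⟩ := hrb w hw
    refine ⟨(hXu k _ (Set.mem_univ _)).mul (hGu k _ h4), fun p q => ?_⟩
    obtain ⟨L1, hL1, hL1'⟩ := hasFDerivAt_log (i := i) w (v.1 i) hi h2 h3
    obtain ⟨L2, hL2, hL2'⟩ := hasFDerivAt_slope (i := i) (j := j) w h2
    set B := ∑ x, cJ i j x (w j / w i) • aJ ρ x k with hB
    have hd : HasFDerivAt (fun w : Fin 2 → ℂ => (X k (Complex.log (w i / v.1 i)) * G k (w j / w i)) p q)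
        (∑ l, (X k (Complex.log (w i / v.1 i)) p l • ((B * G k (w j / w i)) l q • L2) +
          G k (w j / w i) l q • ((Ainf ρ k * X k (Complex.log (w i / v.1 i))) p l • L1))) w := by
      have e : (fun w : Fin 2 → ℂ => (X k (Complex.log (w i / v.1 i)) * G k (w j / w i)) p q) =
          fun w => ∑ l, X k (Complex.log (w i / v.1 i)) p l * G k (w j / w i) l q := by
        funext w
        rw [Matrix.mul_apply]
      rw [e]
      refine HasFDerivAt.fun_sum fun l _ => ?_
      have hA := (hXd' k (Complex.log (w i / v.1 i)) (Set.mem_univ _) p l).comp_hasFDerivAt w hL1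
      have hC := (hGd k (w j / w i) h4 l q).comp_hasFDerivAt w hL2
      exact hA.mul hC
    refine ⟨hd.differentiableAt, fun y => ?_⟩
    rw [hd.fderiv, om_polar hij ρ k w y h2 h1, ← hB]
    have hcomm : X k (Complex.log (w i / v.1 i)) * B = B * X k (Complex.log (w i / v.1 i)) :=
      exp_comm (hX0 k) (hXd' k) (fun s hs => hXu k s hs) (comm_slope ρ k i j _) _
    rw [sum_clm_apply p q L1 L2 y]
    rw [hL1', hL2', ← Matrix.mul_assoc, hcomm]
    rw [Matrix.add_mul, Matrix.smul_mul, Matrix.smul_mul, Matrix.add_apply, Matrix.smul_apply,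
      Matrix.smul_apply, smul_eq_mul, smul_eq_mul, Matrix.mul_assoc, Matrix.mul_assoc]
    ring
  · intro w hw p q
    obtain ⟨h1, h2, h3, h4⟩ := hrb w hw
    constructor
    · simp only [Matrix.mul_apply]
      exact LineHol.sum _ fun l _ => LineHol.mul (hXL _ (Set.mem_univ _) p l) (hGL _ h4 l q)
    · simp only [Matrix.mul_inv_rev, Matrix.mul_apply]
      exact LineHol.sum _ fun l _ => LineHol.mul (hGL' _ h4 p l) (hXL' _ (Set.mem_univ _) l q)

end

end Pool.Agent.CMF
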