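import Pool.Agent.CMF.PP
import Pool.Agent.CMF.FrameA
import Pool.Agent.CMF.FrameB
import Pool.Agent.CMF.ODE2

/-! CMF-Curve: transport along holomorphic curves. -/

namespace Pool.Agent.CMF

open Matrix

noncomputable section

namespace CurveX

variable {N : SG} [Fintype N] {ι : Type} [Fintype ι] [DecidableEq ι]

/-- Chain rule for a horizontal function along a holomorphic curve. -/
lemma comp_deriv (ρ : N →* Matrix ι ι ℂ) (k : Idx N → ℂ) {V : Set (Fin 2 → ℂ)}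
    {F : (Fin 2 → ℂ) → Matrix ι ι ℂ} (hF : Horiz ρ k V F) {g g' : ℂ → Fin 2 → ℂ} {w : ℂ}
    (hg : ∀ a, HasDerivAt (fun w => g w a) (g' w a) w) (hw : g w ∈ V) (p q : ι) :
    HasDerivAt (fun w => F (g w) p q) ((om ρ k (g w) (g' w) * F (g w)) p q) w := by
  have hgd : HasDerivAt g (g' w) w := hasDerivAt_pi.2 hg
  have h1 := (((hF _ hw).2 p q).1.hasFDerivAt).comp_hasDerivAt w hgd
  rw [((hF _ hw).2 p q).2 (g' w)] at h1
  exact h1

end CurveX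

theorem PP_curve {N : SG} [Fintype N] {ι : Type} [Fintype ι] [DecidableEq ι]
    (hN : ∃ s ∈ N, IsRefl s) (ρ : N →* Matrix ι ι ℂ) (k : Idx N → ℂ)
    (U : Set ℂ) (hU : IsOpen U) (hc : Convex ℝ U) (g g' : ℂ → Fin 2 → ℂ)
    (hg : ∀ w ∈ U, ∀ a, HasDerivAt (fun w => g w a) (g' w a) w)
    (hv : ∀ w ∈ U, ∀ s ∈ N, IsRefl s → s.1 *ᵥ g w ≠ g w)
    (Φ : ℂ → Matrix ι ι ℂ)
    (hΦ : ∀ w ∈ U, ∀ p q, HasDerivAt (fun w => Φ w p q) ((om ρ k (g w) (g' w) * Φ w) p q) w)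
    (hu : ∀ w ∈ U, IsUnit (Φ w)) (γ : C(unitInterval, VReg N)) (c : C(unitInterval, ℂ))
    (hγ : ∀ t, c t ∈ U ∧ (γ t).1 = g (c t)) :
    PP hN ρ k γ = Φ (c 1) * (Φ (c 0))⁻¹ := by
  have hdet : ∀ w ∈ U, IsUnit (Φ w).det := fun w hw => (Matrix.isUnit_iff_isUnit_det _).1 (hu w hw)
  refine PP_lift hN ρ k γ (fun t => Φ (c t) * (Φ (c 0))⁻¹)
    (Matrix.mul_nonsing_inv _ (hdet _ (hγ 0).1)) ?_
  intro t₀
  obtain ⟨r, F, hr, -, -, hH, -⟩ := exists_frame hN ρ (γ t₀)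
  have hmem : (γ t₀).1 ∈ Metric.ball (γ t₀).1 r := Metric.mem_ball_self hr
  refine ⟨Metric.ball (γ t₀).1 r, F k, Metric.isOpen_ball, hmem, hH k, ?_⟩
  have hgc : ContinuousAt g (c t₀) := (hasDerivAt_pi.2 (hg _ (hγ t₀).1)).continuousAt
  have hev : ∀ᶠ w in nhds (c t₀), w ∈ U ∧ g w ∈ Metric.ball (γ t₀).1 r := by
    have e1 : ∀ᶠ w in nhds (c t₀), w ∈ U := hU.mem_nhds (hγ t₀).1
    have hm2 : g (c t₀) ∈ Metric.ball (γ t₀).1 r := by
      rw [← (hγ t₀).2]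
      exact hmem
    have e2 : ∀ᶠ w in nhds (c t₀), g w ∈ Metric.ball (γ t₀).1 r :=
      hgc.eventually_mem (Metric.isOpen_ball.mem_nhds hm2)
    exact e1.and e2
  obtain ⟨δ, hδ, hb⟩ := Metric.eventually_nhds_iff_ball.1 hev
  have huni := ode_unique (Metric.ball (c t₀) δ) Metric.isOpen_ball (convex_ball _ _)
    (fun w => om ρ k (g w) (g' w)) (fun w => F k (g w)) Φ
    (fun z hz p q => CurveX.comp_deriv ρ k (hH k) (hg z (hb z hz).1) (hb z hz).2 p q)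
    (fun z hz p q => hΦ z (hb z hz).1 p q) (fun z hz => (hH k _ (hb z hz).2).1)
  have hct : ∀ᶠ t in nhds t₀, c t ∈ Metric.ball (c t₀) δ :=
    c.continuous.continuousAt.eventually_mem (Metric.isOpen_ball.mem_nhds (Metric.mem_ball_self hδ))
  filter_upwards [hct] with t ht
  have h1 := huni (c t) ht (c t₀) (Metric.mem_ball_self hδ)
  have hd : IsUnit (F k (g (c t))).det :=
    (Matrix.isUnit_iff_isUnit_det _).1 (hH k _ (hb _ ht).2).1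
  have h2 : Φ (c t) = F k (g (c t)) * ((F k (g (c t₀)))⁻¹ * Φ (c t₀)) := by
    rw [← h1, Matrix.mul_nonsing_inv_cancel_left _ _ hd]
  show Φ (c t) * (Φ (c 0))⁻¹ = F k (γ t).1 * (F k (γ t₀).1)⁻¹ * (Φ (c t₀) * (Φ (c 0))⁻¹)
  rw [(hγ t).2, (hγ t₀).2, h2]
  simp only [Matrix.mul_assoc]

end

end Pool.Agent.CMF
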