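import Mathlib

/-! Project CMF: general definitions for the analytic part. -/

namespace Pool.Agent.CMF

open unitInterval

/-- Continuous, and entire on every complex line. -/
def LineHol {P : Type} [NormedAddCommGroup P] [NormedSpace ℂ P] (f : P → ℂ) : Prop :=
  Continuous f ∧ ∀ k k' : P, Differentiable ℂ (fun s : ℂ => f (k + s • k'))

/-- A local system on `X` with values in a group, given by local frames: `F i y (F i x)⁻¹` is the
transport from `x` to `y` inside `U i`. -/
structure LocSys (X Γ : Type) [TopologicalSpace X] [Group Γ] where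
  ι : Type
  U : ι → Set X
  F : ι → X → Γ
  isOpen : ∀ i, IsOpen (U i)
  cover : ∀ x, ∃ i, x ∈ U i
  compat : ∀ i j x y, x ∈ U i → x ∈ U j → y ∈ U i → y ∈ U j →
    F i y * (F i x)⁻¹ = F j y * (F j x)⁻¹

/-- `P s t` is the transport along `γ` from parameter `s` to parameter `t`. -/
structure IsTransport {X Γ : Type} [TopologicalSpace X] [Group Γ] (L : LocSys X Γ)
    (γ : C(I, X)) (P : I → I → Γ) : Prop where
  comp : ∀ s t u, P t u * P s t = P s u
  loc : ∀ i s t, (∀ r ∈ Set.uIcc s t, γ r ∈ L.U i) → P s t = L.F i (γ t) * (L.F i (γ s))⁻¹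

end Pool.Agent.CMF
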