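import Mathlib

/-! Project CMF (MP_4af2a6_al): basic definitions.  Plan: store file cmf_h33.md. -/

namespace Pool.Agent.CMF

open Matrix

noncomputable section

/-! ### Reflections, reflecting lines, parameters (over any field) -/

section Field

variable {K : Type} [Field K]

/-- A reflection of the plane `K²`: not the identity, but fixing a non-zero vector. -/
def IsRefl (g : GL (Fin 2) K) : Prop := g ≠ 1 ∧ (g.1 - 1).det = 0

/-- The fixed space of `g`. -/
def fixL (g : GL (Fin 2) K) : Submodule K (Fin 2 → K) :=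
  LinearMap.ker (Matrix.toLin' (g.1 - 1))

/-- Image of a subspace under `g`. -/
def mapL (g : GL (Fin 2) K) (H : Submodule K (Fin 2 → K)) : Submodule K (Fin 2 → K) :=
  H.map (Matrix.toLin' g.1)

/-- The reflecting lines of `N`. -/
def Arr (N : Subgroup (GL (Fin 2) K)) : Type :=
  {H : Submodule K (Fin 2 → K) // ∃ s ∈ N, IsRefl s ∧ H = fixL s}

/-- Pointwise stabiliser of `H` in `N`. -/
def ptStab (N : Subgroup (GL (Fin 2) K)) (H : Submodule K (Fin 2 → K)) :
    Set (GL (Fin 2) K) :=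
  {g | g ∈ N ∧ ∀ v ∈ H, g.1 *ᵥ v = v}

/-- Order `e_H` of the pointwise stabiliser. -/
def eH (N : Subgroup (GL (Fin 2) K)) (H : Submodule K (Fin 2 → K)) : ℕ :=
  Nat.card (ptStab N H)

/-- `(H,j)` and `(H',j')` are the same index: `H' = gH` and `j' ≡ j` modulo `e_H`. -/
def idxRel (N : Subgroup (GL (Fin 2) K)) (a b : Arr N × ℤ) : Prop :=
  (∃ g ∈ N, b.1.1 = mapL g a.1.1) ∧ (eH N a.1.1 : ℤ) ∣ b.2 - a.2

/-- The index set of the parameters `k_{Ω,j}`. -/
def Idx (N : Subgroup (GL (Fin 2) K)) : Type := Quot (idxRel N)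

/-- The index `(Ω, j)` of a line `H` in the orbit `Ω` and an integer `j`. -/
def idx {N : Subgroup (GL (Fin 2) K)} (H : Arr N) (j : ℤ) : Idx N := Quot.mk _ (H, j)

/-- The involution `(Ω, j) ↦ (Ω, -j)`. -/
def sharp {N : Subgroup (GL (Fin 2) K)} : Idx N → Idx N :=
  Quot.map (fun a => (a.1, -a.2)) (by
    rintro ⟨H, i⟩ ⟨H', j⟩ ⟨h1, h2⟩
    refine ⟨h1, ?_⟩
    have h3 : (-j : ℤ) - -i = -(j - i) := by ring
    show (eH N H.1 : ℤ) ∣ -j - -i
    rw [h3]
    exact (dvd_neg).2 h2)

@[simp] lemma sharp_idx {N : Subgroup (GL (Fin 2) K)} (H : Arr N) (j : ℤ) :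
    sharp (idx H j) = idx H (-j) := rfl

/-- `cf_k(w) = Σ_{j<e_H} k_{H,j} det(w)^j` for an element `w` fixing `H` pointwise. -/
def cf {N : Subgroup (GL (Fin 2) K)} (k : Idx N → K) (H : Arr N) (w : GL (Fin 2) K) : K :=
  ∑ j ∈ Finset.range (eH N H.1), k (idx H j) * w.1.det ^ j

open Classical in
/-- The parameter `c_k(s) = Σ_j det(s)^j (k_{Ω,j+1} - k_{Ω,j})` of the rational Cherednik
algebra (zero outside the reflections). -/
def cK {N : Subgroup (GL (Fin 2) K)} (k : Idx N → K) (s : N) : K :=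
  if h : IsRefl s.1 then
    ∑ j ∈ Finset.range (eH N (fixL s.1)),
      s.1.1.det ^ j * (k (idx ⟨fixL s.1, s.1, s.2, h, rfl⟩ (j + 1))
        - k (idx ⟨fixL s.1, s.1, s.2, h, rfl⟩ j))
  else 0

/-! ### The restricted rational Cherednik algebra at `t = 0` -/

/-- Letters: coordinate functions `x_i`, basis vectors `y_i`, group elements. -/
inductive Gen (N : Type) : Type
  | X (i : Fin 2) : Gen N
  | Y (i : Fin 2) : Gen N
  | T (g : N) : Gen N

/-- Free algebra on the letters. -/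
abbrev FA (K : Type) [Field K] (N : Type) := FreeAlgebra K (Gen N)

variable {N : Type}

def fX (i : Fin 2) : FA K N := FreeAlgebra.ι K (Gen.X i)
def fY (i : Fin 2) : FA K N := FreeAlgebra.ι K (Gen.Y i)
def fT (g : N) : FA K N := FreeAlgebra.ι K (Gen.T g)

/-- The value of a polynomial at two elements of an algebra (ordered monomials). -/
def evP {A : Type} [Ring A] [Algebra K A] (a : Fin 2 → A) (p : MvPolynomial (Fin 2) K) : A :=
  p.support.sum fun m => algebraMap K A (p.coeff m) * (a 0 ^ m 0 * a 1 ^ m 1)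

/-- `p ∈ K[V]^N`, without constant term. -/
def InvX (N : Subgroup (GL (Fin 2) K)) (p : MvPolynomial (Fin 2) K) : Prop :=
  MvPolynomial.constantCoeff p = 0 ∧ ∀ g ∈ N,
    MvPolynomial.bind₁ (fun i => ∑ j, MvPolynomial.C (g.1 i j) * MvPolynomial.X j) p = p

/-- `p ∈ K[V*]^N`, without constant term. -/
def InvY (N : Subgroup (GL (Fin 2) K)) (p : MvPolynomial (Fin 2) K) : Prop :=
  MvPolynomial.constantCoeff p = 0 ∧ ∀ g ∈ N,
    MvPolynomial.bind₁ (fun i => ∑ j, MvPolynomial.C (g.1 j i) * MvPolynomial.X j) p = p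

open Classical in
/-- Defining relations of `H̄_c = H_{0,c}/(K[V]^N_+, K[V*]^N_+)`.
`[y,x] = Σ_s c(s) (y,x)_s s` with `(y,x)_s = x((1-s)y)/(1-det s)`. -/
inductive HbRel (N : Subgroup (GL (Fin 2) K)) [Fintype N] (c : N → K) :
    FA K N → FA K N → Prop
  | one : HbRel N c (fT 1) 1
  | mul (g h : N) : HbRel N c (fT (g * h)) (fT g * fT h)
  | TY (g : N) (i : Fin 2) :
      HbRel N c (fT g * fY i) ((∑ j, algebraMap K _ (g.1.1 j i) * fY j) * fT g)
  | TX (g : N) (i : Fin 2) :
      HbRel N c (fT g * fX i) ((∑ j, algebraMap K _ ((g⁻¹).1.1 i j) * fX j) * fT g)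
  | XX (i j : Fin 2) : HbRel N c (fX i * fX j) (fX j * fX i)
  | YY (i j : Fin 2) : HbRel N c (fY i * fY j) (fY j * fY i)
  | YX (i j : Fin 2) : HbRel N c (fY i * fX j)
      (fX j * fY i + ∑ s : N, algebraMap K _ (if IsRefl s.1 then
        c s * ((1 - s.1.1) j i / (1 - s.1.1.det)) else 0) * fT s)
  | invX (p : MvPolynomial (Fin 2) K) (hp : InvX N p) : HbRel N c (evP fX p) 0
  | invY (p : MvPolynomial (Fin 2) K) (hp : InvY N p) : HbRel N c (evP fY p) 0

/-- The restricted rational Cherednik algebra `H̄_c`. -/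
abbrev Hbar (N : Subgroup (GL (Fin 2) K)) [Fintype N] (c : N → K) : Type :=
  RingQuot (HbRel N c)

/-- The quotient map from the free algebra. -/
abbrev hq (N : Subgroup (GL (Fin 2) K)) [Fintype N] (c : N → K) : FA K N →ₐ[K] Hbar N c :=
  RingQuot.mkAlgHom K (HbRel N c)

/-- `p_ρ = (d/|N|) Σ_g tr ρ(g⁻¹) g`, for a matrix representation `ρ` of degree `d`. -/
def pRep (N : Subgroup (GL (Fin 2) K)) [Fintype N] (c : N → K) {d : ℕ}
    (ρ : N →* Matrix (Fin d) (Fin d) K) : Hbar N c :=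
  ∑ g : N, algebraMap K _ (((d : K) / (Fintype.card N : K)) * (ρ g⁻¹).trace) * hq N c (fT g)

/-- The left ideal generated by `V`; `(H̄/J) p_ρ` is a sum of `d` copies of the Verma
module of `ρ`. -/
def leftY (N : Subgroup (GL (Fin 2) K)) [Fintype N] (c : N → K) : Ideal (Hbar N c) :=
  Ideal.span {hq N c (fY 0), hq N c (fY 1)}

/-- Some central idempotent of `H̄_c` acts as `1` on the Verma module of `ρ` and as `0` on the
Verma module of `σ`: `ρ` and `σ` lie in different Calogero-Moser families. -/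
def CMSep (N : Subgroup (GL (Fin 2) K)) [Fintype N] (c : N → K) {d d' : ℕ}
    (ρ : N →* Matrix (Fin d) (Fin d) K) (σ : N →* Matrix (Fin d') (Fin d') K) : Prop :=
  ∃ e : Hbar N c, e * e = e ∧ (∀ a, e * a = a * e) ∧
    e * pRep N c ρ - pRep N c ρ ∈ leftY N c ∧ e * pRep N c σ ∈ leftY N c

/-- Irreducibility of a matrix representation (over an algebraically closed field, by
Burnside: its image spans the matrix algebra). -/
def IsIrr {G : Type} [Group G] {ι : Type} [Fintype ι] [DecidableEq ι]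
    (ρ : G →* Matrix ι ι K) : Prop :=
  Nonempty ι ∧ Submodule.span K (Set.range ρ) = ⊤

end Field

end

end Pool.Agent.CMF
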