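import Pool.Agent.CMF.DunA
import Pool.Agent.CMF.DunB
import Pool.Agent.CMF.DunC
import Pool.Agent.CMF.DunD
import Pool.Agent.CMF.DunE
import Pool.Agent.CMF.DunF
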