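import Pool.Agent.CMF.Pres

/-! Project CMF, module ExM: integral parameters on the same essential hyperplanes exist. -/

namespace Pool.Agent.CMFP.Lef

noncomputable section

/-- Integral parameters on exactly the same hyperplanes of a finite family. -/
theorem exists_int_param {K : Type} [Field K] [CharZero K] {ι J : Type} [Finite ι] [Finite J]
    (κ : ι → K) (a : J → (ι →₀ ℤ)) :
    ∃ m : ι → ℤ, ∀ j, pairing (a j) κ = 0 ↔ pairing (a j) m = 0 := by
  classical
  have := Fintype.ofFinite ι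
  obtain ⟨f, hf⟩ := Module.exists_dual_forall_apply_ne_zero (K := ℚ) (M := K)
    (fun j : {j : J // pairing (a j) κ ≠ 0} => pairing (a j.1) κ) (fun j => j.2)
  let q : ι → ℚ := fun x => f (κ x)
  let N : ℕ := ∏ x, (q x).den
  have hN : N ≠ 0 := Finset.prod_ne_zero_iff.2 fun x _ => (q x).den_ne_zero
  have hdvd : ∀ x, (q x).den ∣ N := fun x => Finset.dvd_prod_of_mem _ (Finset.mem_univ x)
  let m : ι → ℤ := fun x => (q x).num * ((N / (q x).den : ℕ) : ℤ)
  have hm : ∀ x, ((m x : ℤ) : ℚ) = N * q x := by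
    intro x
    obtain ⟨c, hc⟩ := hdvd x
    have h1 : N / (q x).den = c := by
      rw [hc]; exact Nat.mul_div_cancel_left _ (q x).den_pos
    have h2 : ((q x).den : ℚ) ≠ 0 := Nat.cast_ne_zero.2 (q x).den_ne_zero
    have h3 : (N : ℚ) = (q x).den * c := by rw [← Nat.cast_mul, ← hc]
    show (((q x).num * ((N / (q x).den : ℕ) : ℤ) : ℤ) : ℚ) = N * q x
    rw [h1, h3]
    push_cast
    have h4 : ((q x).num : ℚ) = q x * (q x).den := (Rat.mul_den_eq_num (q x)).symm
    rw [h4]
    ring
  have hp : ∀ b : ι →₀ ℤ, ((pairing b m : ℤ) : ℚ) = N * f (pairing b κ) := by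
    intro b
    unfold pairing Finsupp.sum
    rw [map_sum, Finset.mul_sum]
    push_cast
    refine Finset.sum_congr rfl fun x _ => ?_
    have h5 : ((b x : ℤ) : K) * κ x = (b x : ℤ) • κ x := by rw [zsmul_eq_mul]
    rw [h5, map_zsmul, zsmul_eq_mul, hm]
    show (b x : ℚ) * (N * q x) = N * ((b x : ℚ) * q x)
    ring
  refine ⟨m, fun j => ⟨fun h => ?_, fun h => ?_⟩⟩
  · have h6 := hp (a j)
    rw [h, map_zero, mul_zero] at h6
    exact_mod_cast h6
  · by_contra h7
    have h6 := hp (a j)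
    rw [h, Int.cast_zero] at h6
    rcases mul_eq_zero.1 h6.symm with h8 | h8
    · exact hN (by exact_mod_cast h8)
    · exact hf ⟨j, h7⟩ h8

/-- Integral parameters on exactly the same essential hyperplanes exist. -/
theorem exists_sameEssential {K : Type} [Field K] [CharZero K] {F : Type} [Field F]
    [Algebra F ℂ] {ι Λ : Type} [Finite ι] [Finite Λ]
    {s : Λ → Laur (NumberField.RingOfIntegers F) ι} (S : SchurForm F s) (κ : ι → K) :
    ∃ m : ι → ℤ, SameEssential S κ m := by
  obtain ⟨m, hm⟩ := exists_int_param (J := Σ l, Fin (S.r l)) κ (fun j => S.a j.1 j.2)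
  exact ⟨m, fun l i _ => hm ⟨l, i⟩⟩

end

end Pool.Agent.CMFP.Lef
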