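import Pool.Agent.CMF.Pres
import Pool.Agent.CMF.DDefs

/-! Project CMF, Glue 1: a reflection group `(G, V)` of rank 2 and its image in `GL₂(ℂ)`. -/

namespace Pool.Agent.CMF

open Matrix

noncomputable section

namespace G1

variable {G : Type} [Group G] {V : G → Matrix (Fin 2) (Fin 2) ℂ}

/-- The homomorphism `G → GL₂(ℂ)`. -/
def toGL (hV : CMFP.IsRep V) : G →* GL (Fin 2) ℂ where
  toFun g := ⟨V g, V g⁻¹, by rw [← hV.2, mul_inv_cancel, hV.1], by
    rw [← hV.2, inv_mul_cancel, hV.1]⟩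
  map_one' := Units.ext hV.1
  map_mul' g h := Units.ext (hV.2 g h)

lemma toGL_val (hV : CMFP.IsRep V) (g : G) : (toGL hV g).1 = V g := rfl

lemma toGL_inj (hV : CMFP.IsRep V) (hi : Function.Injective V) : Function.Injective (toGL hV) :=
  fun g h e => hi (congrArg (fun z : GL (Fin 2) ℂ => z.1) e)

/-- The image of `G` in `GL₂(ℂ)`. -/
def img (hV : CMFP.IsRep V) : SG := (toGL hV).range

/-- `G` is isomorphic to its image. -/
def iso (hV : CMFP.IsRep V) (hi : Function.Injective V) : G ≃* img hV :=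
  MonoidHom.ofInjective (toGL_inj hV hi)

lemma iso_val (hV : CMFP.IsRep V) (hi : Function.Injective V) (g : G) :
    (iso hV hi g).1.1 = V g := rfl

lemma iso_val' (hV : CMFP.IsRep V) (hi : Function.Injective V) (g : G) :
    (iso hV hi g).1 = toGL hV g := rfl

lemma iso_symm_val (hV : CMFP.IsRep V) (hi : Function.Injective V) (a : img hV) :
    V ((iso hV hi).symm a) = a.1.1 := by
  rw [← iso_val hV hi, MulEquiv.apply_symm_apply]

/-- rank one = non-zero of determinant zero, for 2×2 matrices. -/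
lemma rank_one_iff (M : Matrix (Fin 2) (Fin 2) ℂ) : M.rank = 1 ↔ M ≠ 0 ∧ M.det = 0 := by
  constructor
  · intro h
    refine ⟨?_, ?_⟩
    · rintro rfl
      simp at h
    · by_contra hd
      have h1 : IsUnit M := (Matrix.isUnit_iff_isUnit_det _).2 (isUnit_iff_ne_zero.2 hd)
      have h2 := Matrix.rank_of_isUnit M h1
      rw [h2] at h
      simp at h
  · rintro ⟨h0, hd⟩
    have h1 : M.rank ≤ 2 := by simpa using M.rank_le_card_width
    have h2 : M.rank ≠ 0 := by
      intro h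
      apply h0
      unfold Matrix.rank at h
      rw [Submodule.finrank_eq_zero, LinearMap.range_eq_bot] at h
      have h5 : Matrix.toLin' M = 0 := h
      exact Matrix.toLin'.map_eq_zero_iff.1 h5
    have h3 : M.rank ≠ 2 := by
      intro h
      have h4 : IsUnit M := by
        rw [← Matrix.mulVec_surjective_iff_isUnit]
        unfold Matrix.rank at h
        have h5 : LinearMap.range M.mulVecLin = ⊤ :=
          Submodule.eq_top_of_finrank_eq (by rw [h]; simp)
        exact LinearMap.range_eq_top.1 h5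
      rw [Matrix.isUnit_iff_isUnit_det, hd] at h4
      simp at h4
    omega

lemma isRefl_iff (hV : CMFP.IsRep V) (g : G) : IsRefl (toGL hV g) ↔ CMFP.IsRefl V g := by
  unfold CMFP.IsRefl IsRefl
  rw [rank_one_iff, toGL_val, sub_ne_zero]
  refine and_congr_left fun _ => not_congr ?_
  constructor
  · intro h
    exact congrArg (fun z : GL (Fin 2) ℂ => z.1) h
  · intro h
    exact Units.ext h

variable (hV : CMFP.IsRep V) (hi : Function.Injective V)

lemma mem_fix (g : GL (Fin 2) ℂ) (v : Fin 2 → ℂ) : v ∈ fixL g ↔ g.1 *ᵥ v = v := by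
  unfold fixL
  rw [LinearMap.mem_ker, Matrix.toLin'_apply, Matrix.sub_mulVec, Matrix.one_mulVec, sub_eq_zero]

/-- The reflecting line of a reflection. -/
def lineOf (s : {s : G // CMFP.IsRefl V s}) : Arr (img hV) :=
  ⟨fixL (toGL hV s.1), toGL hV s.1, ⟨s.1, rfl⟩, (isRefl_iff hV s.1).2 s.2, rfl⟩

lemma mem_line (s : {s : G // CMFP.IsRefl V s}) (v : Fin 2 → ℂ) :
    v ∈ (lineOf hV s).1 ↔ V s.1 *ᵥ v = v := mem_fix _ _

lemma fixes_iff (s : {s : G // CMFP.IsRefl V s}) (g : G) :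
    CMFP.Fixes V s.1 g ↔ toGL hV g ∈ ptStab (img hV) (lineOf hV s).1 := by
  constructor
  · intro h
    exact ⟨⟨g, rfl⟩, fun v hv => h v ((mem_line hV s v).1 hv)⟩
  · intro h v hv
    exact h.2 v ((mem_line hV s v).2 hv)

include hi in
lemma ordH_eq (s : {s : G // CMFP.IsRefl V s}) :
    CMFP.ordH V s.1 = eH (img hV) (lineOf hV s).1 := by
  unfold CMFP.ordH eH
  refine Nat.card_congr (Equiv.ofBijective
    (fun g => ⟨toGL hV g.1, (fixes_iff hV s g.1).1 g.2⟩) ⟨?_, ?_⟩)
  · intro a b h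
    exact Subtype.ext (toGL_inj hV hi (congrArg Subtype.val h))
  · rintro ⟨a, ha⟩
    obtain ⟨g, rfl⟩ := ha.1
    exact ⟨⟨g, (fixes_iff hV s g).2 ha⟩, rfl⟩

/-- Lines as images. -/
lemma mapL_line (s : {s : G // CMFP.IsRefl V s}) (g : G) (v : Fin 2 → ℂ) :
    v ∈ mapL (toGL hV g) (lineOf hV s).1 ↔ V (g * s.1 * g⁻¹) *ᵥ v = v := by
  have h1 : V g * V g⁻¹ = 1 := by rw [← hV.2, mul_inv_cancel, hV.1]
  have h2 : V g⁻¹ * V g = 1 := by rw [← hV.2, inv_mul_cancel, hV.1]
  unfold mapL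
  rw [Submodule.mem_map]
  constructor
  · rintro ⟨u, hu, rfl⟩
    rw [mem_line] at hu
    rw [Matrix.toLin'_apply, toGL_val, Matrix.mulVec_mulVec, hV.2, hV.2, mul_assoc, h2, mul_one,
      ← Matrix.mulVec_mulVec, hu]
  · intro h
    refine ⟨V g⁻¹ *ᵥ v, ?_, ?_⟩
    · rw [mem_line, Matrix.mulVec_mulVec]
      have h3 : V g⁻¹ * V (g * s.1 * g⁻¹) = V s.1 * V g⁻¹ := by
        rw [hV.2, hV.2, ← mul_assoc, ← mul_assoc, h2, one_mul]
      rw [← h3, ← Matrix.mulVec_mulVec, h]
    · rw [Matrix.toLin'_apply, toGL_val, Matrix.mulVec_mulVec, h1, Matrix.one_mulVec]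

lemma finrank_fix (s : GL (Fin 2) ℂ) (hs : IsRefl s) : Module.finrank ℂ (fixL s) = 1 := by
  have h1 : (s.1 - 1).rank = 1 := by
    rw [rank_one_iff]
    refine ⟨?_, hs.2⟩
    rw [sub_ne_zero]
    intro h
    exact hs.1 (Units.ext h)
  have h2 := LinearMap.finrank_range_add_finrank_ker (Matrix.toLin' (s.1 - 1))
  have h3 : Module.finrank ℂ (LinearMap.range (Matrix.toLin' (s.1 - 1))) = 1 := h1
  rw [h3] at h2
  have h4 : Module.finrank ℂ (Fin 2 → ℂ) = 2 := by simp
  rw [h4] at h2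
  unfold fixL
  omega

include hi in
lemma idxRel_iff (a b : {s : G // CMFP.IsRefl V s} × ℤ) :
    CMFP.IdxRel V a b ↔ idxRel (img hV) (lineOf hV a.1, a.2) (lineOf hV b.1, b.2) := by
  unfold CMFP.IdxRel idxRel
  rw [ordH_eq hV hi]
  refine and_congr_left fun _ => ?_
  constructor
  · rintro ⟨g, hg⟩
    refine ⟨toGL hV g, ⟨g, rfl⟩, ?_⟩
    have h1 : (lineOf hV b.1).1 ≤ mapL (toGL hV g) (lineOf hV a.1).1 := by
      intro v hv
      rw [mapL_line]
      exact hg v ((mem_line hV b.1 v).1 hv)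
    refine Submodule.eq_of_le_of_finrank_eq h1 ?_
    have h2 : Module.finrank ℂ (lineOf hV b.1).1 = 1 :=
      finrank_fix _ ((isRefl_iff hV b.1.1).2 b.1.2)
    have h3 : mapL (toGL hV g) (lineOf hV a.1).1 = fixL (toGL hV (g * a.1.1 * g⁻¹)) := by
      ext v
      rw [mapL_line, mem_fix, toGL_val]
    have h4 : IsRefl (toGL hV (g * a.1.1 * g⁻¹)) := by
      rw [map_mul, map_mul, map_inv]
      exact isRefl_conj (G := img hV) ((isRefl_iff hV a.1.1).2 a.1.2)
    rw [h2, h3, finrank_fix _ h4]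
  · rintro ⟨_, ⟨g, rfl⟩, h⟩
    refine ⟨g, fun v hv => ?_⟩
    rw [← mapL_line]
    show v ∈ mapL (toGL hV g) (lineOf hV a.1).1
    rw [← h]
    exact (mem_line hV b.1 v).2 hv

/-- The map of indices. -/
def idxMap : CMFP.Idx V → Idx (img hV) :=
  Quot.map (fun a => (lineOf hV a.1, a.2)) fun a b h => (idxRel_iff hV hi a b).1 h

lemma idxMap_idx (s : G) (hs : CMFP.IsRefl V s) (j : ℤ) :
    idxMap hV hi (CMFP.idx V s hs j) = idx (lineOf hV ⟨s, hs⟩) j := rfl

lemma lineOf_surj (H : Arr (img hV)) : ∃ s, lineOf hV s = H := by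
  obtain ⟨H, s, ⟨g, rfl⟩, hs, rfl⟩ := H
  exact ⟨⟨g, (isRefl_iff hV g).1 hs⟩, rfl⟩

/-- A reflection with a given line. -/
def reflOf (H : Arr (img hV)) : {s : G // CMFP.IsRefl V s} := (lineOf_surj hV H).choose

lemma lineOf_reflOf (H : Arr (img hV)) : lineOf hV (reflOf hV H) = H :=
  (lineOf_surj hV H).choose_spec

/-- The inverse map of indices. -/
def idxInv : Idx (img hV) → CMFP.Idx V :=
  Quot.map (fun a => (reflOf hV a.1, a.2)) fun a b h => by
    rw [idxRel_iff hV hi]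
    simpa only [lineOf_reflOf] using h

lemma idxRel_self {N : SG} (H : Arr N) (j : ℤ) : idxRel N (H, j) (H, j) := by
  refine ⟨⟨1, N.one_mem, ?_⟩, ?_⟩
  · simp [mapL]
  · simp

/-- The bijection of the indices. -/
def idxEquiv : CMFP.Idx V ≃ Idx (img hV) where
  toFun := idxMap hV hi
  invFun := idxInv hV hi
  left_inv x := by
    induction x using Quot.inductionOn with
    | h a =>
      refine Quot.sound ?_
      rw [idxRel_iff hV hi]
      show idxRel (img hV) (lineOf hV (reflOf hV (lineOf hV a.1)), a.2) (lineOf hV a.1, a.2)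
      rw [lineOf_reflOf]
      exact idxRel_self _ _
  right_inv x := by
    induction x using Quot.inductionOn with
    | h a =>
      show Quot.mk _ (lineOf hV (reflOf hV a.1), a.2) = Quot.mk _ a
      rw [lineOf_reflOf]

/-- Parameters of the image. -/
def par {K : Type} (k : CMFP.Idx V → K) : Idx (img hV) → K := fun i => k ((idxEquiv hV hi).symm i)

lemma par_idx {K : Type} (k : CMFP.Idx V → K) (s : G) (hs : CMFP.IsRefl V s) (j : ℤ) :
    par hV hi k (idx (lineOf hV ⟨s, hs⟩) j) = k (CMFP.idx V s hs j) := by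
  have h1 : idx (lineOf hV ⟨s, hs⟩) j = idxEquiv hV hi (CMFP.idx V s hs j) := rfl
  unfold par
  rw [h1, Equiv.symm_apply_apply]

lemma par_equiv {K : Type} (k : CMFP.Idx V → K) (i : CMFP.Idx V) :
    par hV hi k (idxEquiv hV hi i) = k i := by
  unfold par
  rw [Equiv.symm_apply_apply]

lemma idxEquiv_idx (s : G) (hs : CMFP.IsRefl V s) (j : ℤ) :
    idxEquiv hV hi (CMFP.idx V s hs j) = idx (lineOf hV ⟨s, hs⟩) j := rfl

/-- The involution. -/
lemma par_sharp {K : Type} (k κ : CMFP.Idx V → K)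
    (h : ∀ s hs j, κ (CMFP.idx V s hs j) = k (CMFP.idx V s hs (-j))) (i : Idx (img hV)) :
    par hV hi κ i = par hV hi k (sharp i) := by
  induction i using Quot.inductionOn with
  | h a =>
    obtain ⟨H, j⟩ := a
    obtain ⟨⟨s, hs⟩, rfl⟩ := lineOf_surj hV H
    show par hV hi κ (idx (lineOf hV ⟨s, hs⟩) j) = par hV hi k (idx (lineOf hV ⟨s, hs⟩) (-j))
    rw [par_idx, par_idx, h]

/-- The parameter of the rational Cherednik algebra. -/
lemma cPar_eq (k : CMFP.Idx V → ℂ) (s : G) :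
    CMFP.cPar V V k s = cK (par hV hi k) (iso hV hi s) := by
  unfold CMFP.cPar cK
  by_cases hs : CMFP.IsRefl V s
  · have hs' : IsRefl (iso hV hi s).1 := (isRefl_iff hV s).2 hs
    rw [dif_pos hs, dif_pos hs', ordH_eq hV hi ⟨s, hs⟩]
    refine Finset.sum_congr rfl fun j _ => ?_
    have h1 := par_idx hV hi k s hs ((j : ℤ) + 1)
    have h2 := par_idx hV hi k s hs (j : ℤ)
    rw [← h1, ← h2]
    rfl
  · have hs' : ¬ IsRefl (iso hV hi s).1 := fun h => hs ((isRefl_iff hV s).1 h)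
    rw [dif_neg hs, dif_neg hs']

instance [Finite G] : Finite (img hV) :=
  Finite.of_surjective (toGL hV).rangeRestrict (toGL hV).rangeRestrict_surjective

instance [Finite G] : Fintype (img hV) := Fintype.ofFinite _

lemma isRefl_iso (s : G) : IsRefl (iso hV hi s).1 ↔ CMFP.IsRefl V s := isRefl_iff hV s

/-- Regular vectors. -/
lemma reg_iff (v : Fin 2 → ℂ) :
    CMFP.Reg V v ↔ ∀ g ∈ img hV, IsRefl g → g.1 *ᵥ v ≠ v := by
  constructor
  · rintro h _ ⟨g, rfl⟩ hg
    exact h g ((isRefl_iff hV g).1 hg)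
  · intro h s hs
    exact h (toGL hV s) ⟨s, rfl⟩ ((isRefl_iff hV s).2 hs)

end G1

end

end Pool.Agent.CMF
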