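import Pool.Agent.CMF.Pres

/-! Project CMF (MP_4af2a6_al), glue (helper77): finiteness and countability. -/

namespace Pool.Agent.CMF

open Matrix Pool.Agent.CMFP

noncomputable section

theorem G10a_ordH_pos {K G : Type} [Field K] [Group G] [Finite G] {n : ℕ}
    {V : G → Matrix (Fin n) (Fin n) K} (hV : IsRep V) (s : G) : 0 < ordH V s := by
  rw [ordH, Nat.card_pos_iff]
  refine ⟨⟨⟨1, fun v _ => ?_⟩⟩, inferInstance⟩
  rw [hV.1, Matrix.one_mulVec]

/-- The index set is finite. -/
theorem idx_finite {K G : Type} [Field K] [Group G] [Finite G] {n : ℕ}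
    {V : G → Matrix (Fin n) (Fin n) K} (hV : IsRep V) : Finite (Idx V) := by
  have := Fintype.ofFinite G
  apply Finite.of_surjective
    (fun p : {s : G // IsRefl V s} × Fin (Nat.card G + 1) => idx V p.1.1 p.1.2 (p.2.1 : ℤ))
  intro q
  induction q using Quot.ind with
  | mk q =>
    obtain ⟨s, j⟩ := q
    have he := G10a_ordH_pos hV s.1
    have hle : ordH V s.1 ≤ Nat.card G := Nat.card_le_card_of_injective _ Subtype.val_injective
    have h0 : 0 ≤ j % (ordH V s.1 : ℤ) := Int.emod_nonneg _ (by omega)
    have h1 : j % (ordH V s.1 : ℤ) < (ordH V s.1 : ℤ) := Int.emod_lt_of_pos _ (by omega)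
    refine ⟨(s, ⟨(j % (ordH V s.1 : ℤ)).toNat, by omega⟩), ?_⟩
    apply Quot.sound
    refine ⟨⟨1, fun v hv => ?_⟩, ?_⟩
    · simpa using hv
    · simp only
      rw [Int.toNat_of_nonneg h0]
      exact Int.dvd_self_sub_emod

theorem countable_field {G : Type} [Finite G] {F : Type} [Field F] [Algebra F ℂ] (t : G → ℂ)
    (hF : (algebraMap F ℂ).fieldRange = Subfield.closure (Set.range t)) : Countable F := by
  have h1 : Countable (Subfield.closure (Set.range t)) := by
    rw [← Cardinal.mk_le_aleph0_iff]
    refine (Subfield.cardinalMk_closure_le_max _).trans ?_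
    rw [max_le_iff]
    refine ⟨?_, le_refl _⟩
    rw [Cardinal.mk_le_aleph0_iff]
    exact (Set.finite_range t).countable.to_subtype
  have h2 : ∀ x : F, algebraMap F ℂ x ∈ Subfield.closure (Set.range t) := by
    intro x
    rw [← hF]
    exact ⟨x, rfl⟩
  exact Function.Injective.countable (f := fun x : F =>
    (⟨algebraMap F ℂ x, h2 x⟩ : Subfield.closure (Set.range t)))
    (fun x y h => (algebraMap F ℂ).injective (congrArg Subtype.val h))

theorem countable_int {G : Type} [Finite G] {F : Type} [Field F] [Algebra F ℂ] (t : G → ℂ)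
    (hF : (algebraMap F ℂ).fieldRange = Subfield.closure (Set.range t)) :
    Countable (NumberField.RingOfIntegers F) := by
  have := countable_field t hF
  exact Function.Injective.countable (f := fun x : NumberField.RingOfIntegers F => (x : F))
    NumberField.RingOfIntegers.coe_injective

theorem inj_int {F : Type} [Field F] [Algebra F ℂ] :
    Function.Injective (algebraMap (NumberField.RingOfIntegers F) ℂ) := by
  rw [IsScalarTower.algebraMap_eq (NumberField.RingOfIntegers F) F ℂ]
  exact (algebraMap F ℂ).injective.comp NumberField.RingOfIntegers.coe_injective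

end

end Pool.Agent.CMF
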