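import Pool.Agent.CMF.Pres

/-! Project CMF, G7a: the span condition at the parameter `0`. -/

namespace Pool.Agent.CMF

open Matrix

/-- If the values `φ l h` contain all `(ρ_l(g))_l`, for a complete family of irreducible
representations `ρ_l`, then they span the product of the matrix algebras. -/
theorem span0_of_irr {G : Type} [Group G] [Fintype G] {Λ : Type} {d : Λ → ℕ}
    {ρ : ∀ l, G → Matrix (Fin (d l)) (Fin (d l)) ℂ} (hρ : CMFP.IsIrrFam d ρ) {H : Type}
    (φ : ∀ l, H → Matrix (Fin (d l)) (Fin (d l)) ℂ) (hφ : ∀ g, ∃ h, ∀ l, φ l h = ρ l g) :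
    Submodule.span ℂ (Set.range fun h : H => fun l => φ l h) = ⊤ := by
  rw [eq_top_iff]
  intro M _
  obtain ⟨a, ha⟩ := hρ.2.2 M
  rw [← ha]
  show (fun (l : Λ) => ∑ g, a g • ρ l g) ∈ _
  have h1 : (fun (l : Λ) => ∑ g, a g • ρ l g) = ∑ g, a g • (fun l => ρ l g) := by
    funext l
    rw [Finset.sum_apply]
    rfl
  rw [h1]
  refine Submodule.sum_mem _ fun g _ => Submodule.smul_mem _ _ (Submodule.subset_span ?_)
  obtain ⟨h, hh⟩ := hφ g
  exact ⟨h, funext hh⟩

/-- The same, with braids: `B → G` surjective, `T : B → H`, and `φ_l(T b) = ρ_l(proj b)`. -/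
theorem span0_of_braid {G : Type} [Group G] [Fintype G] {Λ : Type} {d : Λ → ℕ}
    {ρ : ∀ l, G → Matrix (Fin (d l)) (Fin (d l)) ℂ} (hρ : CMFP.IsIrrFam d ρ) {B H : Type}
    (proj : B → G) (hproj : Function.Surjective proj) (T : B → H)
    (φ : ∀ l, H → Matrix (Fin (d l)) (Fin (d l)) ℂ) (hφ : ∀ l b, φ l (T b) = ρ l (proj b)) :
    Submodule.span ℂ (Set.range fun h : H => fun l => φ l h) = ⊤ := by
  refine span0_of_irr hρ φ fun g => ?_
  obtain ⟨b, rfl⟩ := hproj g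
  exact ⟨T b, fun l => hφ l b⟩

/-- A path in `V^reg` from `v₀` to `g v₀` gives an element of `BP V v₀` over `g`. -/
theorem exists_bp {G : Type} [Group G] {n : ℕ} {V : G → Matrix (Fin n) (Fin n) ℂ}
    {v₀ : Fin n → ℂ} (g : G) (h : JoinedIn {v | CMFP.Reg V v} v₀ (V g *ᵥ v₀)) :
    ∃ b : CMFP.BP V v₀, b.g = g := by
  obtain ⟨p, hp⟩ := h
  refine ⟨⟨g, fun t => p.extend t, p.continuous_extend.continuousOn, fun t ht => ?_, ?_, ?_⟩, rfl⟩
  · have h1 : p.extend t = p ⟨t, ht⟩ := p.extend_apply ht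
    rw [h1]
    exact hp _
  · exact p.extend_zero
  · exact p.extend_one

/-- The same, from a path in the subtype. -/
theorem exists_bp' {G : Type} [Group G] {n : ℕ} {V : G → Matrix (Fin n) (Fin n) ℂ}
    {v₀ : Fin n → ℂ} (g : G) (X : Set (Fin n → ℂ)) (hX : ∀ v ∈ X, CMFP.Reg V v)
    (a b : X) (ha : a.1 = v₀) (hb : b.1 = V g *ᵥ v₀) (h : Nonempty (Path a b)) :
    ∃ b : CMFP.BP V v₀, b.g = g := by
  obtain ⟨p⟩ := h
  refine exists_bp g ?_
  refine ⟨(p.map continuous_subtype_val).cast ha.symm hb.symm, fun t => ?_⟩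
  exact hX _ (p t).2

end Pool.Agent.CMF
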