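import Mathlib

/-! Project CMF (MP_4af2a6_al): Laurent polynomials, the pairing of exponents with parameters, and
the specialisation `v_i ↦ y^{m_i}`. -/

namespace Pool.Agent.CMF

noncomputable section

/-- Laurent polynomials in the variables `v_i`, `i ∈ ι`: the group ring of `ι →₀ ℤ`. -/
abbrev Lau (R : Type) [CommRing R] (ι : Type) := AddMonoidAlgebra R (ι →₀ ℤ)

/-- The monomial `v^a`. -/
def mon {R : Type} [CommRing R] {ι : Type} (a : ι →₀ ℤ) : Lau R ι := AddMonoidAlgebra.single a 1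

/-- `⟨a, κ⟩ = Σ_i a_i κ_i`. -/
def pair {K : Type} [CommRing K] {ι : Type} (a : ι →₀ ℤ) (κ : ι → K) : K :=
  a.sum fun i n => (n : K) * κ i

/-- The additive map `a ↦ ⟨a, m⟩`. -/
def pairHom {ι : Type} (m : ι → ℤ) : (ι →₀ ℤ) →+ ℤ where
  toFun a := pair a m
  map_zero' := by simp [pair]
  map_add' a b := by
    simp only [pair]
    rw [Finsupp.sum_add_index'] <;> intros <;> simp [add_mul]

/-- The multiplicative set generated by the `y^n - 1`, `n ≥ 1`. -/
def yMon (Z : Type) [CommRing Z] : Submonoid (LaurentPolynomial Z) :=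
  Submonoid.closure {p | ∃ n : ℕ, 0 < n ∧ p = LaurentPolynomial.T (n : ℤ) - 1}

/-- `O_y = Z[y^{±1}, (y^n - 1)^{-1} : n ≥ 1]`. -/
abbrev Oy (Z : Type) [CommRing Z] := Localization (yMon Z)

/-- The specialisation `v_i ↦ y^{m_i}`. -/
def spec (Z : Type) [CommRing Z] {ι : Type} (m : ι → ℤ) : Lau Z ι →+* Oy Z :=
  (algebraMap (LaurentPolynomial Z) (Oy Z)).comp
    (AddMonoidAlgebra.mapDomainRingHom Z (pairHom m))

end

end Pool.Agent.CMF
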