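import Pool.Agent.CMF.LDefs
import Pool.Agent.CMF.LauDefs

/-! Project CMF (MP_4af2a6_al), block I/N: abstract data for the integrality argument
(helper77).  Sections 7 and 8 of the plan cmf_h33.md, with `G := N`. -/

namespace Pool.Agent.CMF

open Matrix Polynomial

noncomputable section

/-- `⟨a, κ⟩ = Σ a_i κ_i` (complex `κ`). -/
abbrev pairC {ι : Type} (a : ι →₀ ℤ) (κ : ι → ℂ) : ℂ := pair a κ

/-- `⟨a, m⟩ = Σ a_i m_i` (integral `m`). -/
abbrev pairZ {ι : Type} (a : ι →₀ ℤ) (m : ι → ℤ) : ℤ := pair a m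

/-- The character `a ↦ exp(-2πi ⟨a, κ⟩ / M)` of `ℤ^ι`. -/
def expChar {ι : Type} (M : ℕ) (κ : ι → ℂ) : Multiplicative (ι →₀ ℤ) →* ℂ where
  toFun a := Complex.exp (-(2 * Real.pi * Complex.I / M) * pairC (Multiplicative.toAdd a) κ)
  map_one' := by simp [pair]
  map_mul' a b := by
    rw [← Complex.exp_add]
    congr 1
    simp only [toAdd_mul, pairC, pair]
    rw [Finsupp.sum_add_index']
    · ring
    · simp
    · intro i m n; push_cast; ring

/-- `ev_κ`: `v_i ↦ exp(-2πi κ_i / M)`. -/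
def evL (Z : Type) [CommRing Z] [Algebra Z ℂ] {ι : Type} (M : ℕ) (κ : ι → ℂ) : Lau Z ι →+* ℂ :=
  (AddMonoidAlgebra.lift Z ℂ (ι →₀ ℤ) (expChar M κ)).toRingHom

/-- The data of the generic Hecke algebra over `Z_F[v^±1]`: free, symmetric, split, with Schur
elements. -/
structure HData (Z : Type) [CommRing Z] (ι : Type) where
  H : Type
  [ringH : Ring H]
  [algH : Algebra (Lau Z ι) H]
  J : Type
  [finJ : Fintype J]
  [decJ : DecidableEq J]
  b : Module.Basis J (Lau Z ι) H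
  b' : J → H
  τ : H →ₗ[Lau Z ι] Lau Z ι
  τ_comm : ∀ x y, τ (x * y) = τ (y * x)
  dual : ∀ i j, τ (b i * b' j) = if i = j then 1 else 0
  Λ : Type
  [finΛ : Fintype Λ]
  [decΛ : DecidableEq Λ]
  d : Λ → ℕ
  d_pos : ∀ l, 0 < d l
  /-- the irreducible representations over `K = F(v)` (here: any field containing `A`) -/
  K : Type
  [fieldK : Field K]
  [algK : Algebra (Lau Z ι) K]
  injK : Function.Injective (algebraMap (Lau Z ι) K)
  R : ∀ l, H →+* Matrix (Fin (d l)) (Fin (d l)) K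
  R_smul : ∀ l a h, R l (a • h) = algebraMap (Lau Z ι) K a • R l h
  X : Λ → H →ₗ[Lau Z ι] Lau Z ι
  trR : ∀ l h, (R l h).trace = algebraMap (Lau Z ι) K (X l h)
  /-- split semisimple -/
  card : ∑ l, d l ^ 2 = Fintype.card J
  split : Submodule.span K (Set.range fun h : H => fun l => R l h) = ⊤
  s : Λ → Lau Z ι
  schur : ∀ h, (∏ l, s l) * τ h = ∑ l, (∏ m ∈ Finset.univ.erase l, s m) * X l h
  s_ne : ∀ l, s l ≠ 0

attribute [instance] HData.ringH HData.algH HData.finJ HData.decJ HData.finΛ HData.decΛ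
  HData.fieldK HData.algK

variable {Z : Type} [CommRing Z] {ι : Type}

/-- `C_λ = Σ_j X_λ(b_j^∨) b_j`. -/
def HData.C (D : HData Z ι) (l : D.Λ) : D.H := ∑ j, D.X l (D.b' j) • D.b j

/-- `Π_λ s_λ`. -/
def HData.S (D : HData Z ι) : Lau Z ι := ∏ l, D.s l

/-- `S · Σ_{λ ∈ F} C_λ / s_λ`. -/
def HData.CF (D : HData Z ι) (F : D.Λ → Prop) [DecidablePred F] : D.H :=
  ∑ l, if F l then (∏ m ∈ Finset.univ.erase l, D.s m) • D.C l else 0

/-- The monodromy representations, for all parameters `κ` (`κ = k^♯`). -/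
structure KZData [Algebra Z ℂ] [Fintype ι] (D : HData Z ι) (M : ℕ) where
  ρ : (ι → ℂ) → ∀ l, D.H →+* Matrix (Fin (D.d l)) (Fin (D.d l)) ℂ
  ρ_smul : ∀ κ l a h, ρ κ l (a • h) = evL Z M κ a • ρ κ l h
  tr : ∀ κ l h, (ρ κ l h).trace = evL Z M κ (D.X l h)
  hol : ∀ l h p q, LineHol (fun κ : ι → ℂ => ρ κ l h p q)
  /-- at `κ = 0`: the irreducible representations of the finite group -/
  span0 : Submodule.span ℂ (Set.range fun h : D.H => fun l => ρ 0 l h) = ⊤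
  /-- the full twist -/
  π : D.H
  a : D.Λ → (ι →₀ ℤ)
  ρπ : ∀ κ l, ρ κ l π = evL Z M κ (mon (a l)) • (1 : Matrix (Fin (D.d l)) (Fin (D.d l)) ℂ)

/-- Theorem S, as it is used: at a generic point of every affine line transversal to a family of
parameters through `κ₀` the set `F` is separated by an element with constant coefficients. -/
def ThmS [Algebra Z ℂ] [Fintype ι] (D : HData Z ι) {M : ℕ} (Q : KZData D M) (F : D.Λ → Prop) [DecidablePred F]
    (κ₀ : ι → ℂ) : Prop :=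
  ∀ (n : ℕ) (B : Fin n → ι → ℂ) (x₀ : Fin n → ℂ), (∑ j, x₀ j • B j) = κ₀ →
    ∀ (l : ι → ℂ) (r : ℂ), ∃ f : ℕ → (Fin n → ℂ) → ℂ, (∀ j, LineHol (f j)) ∧
      (∀ j, ∃ x, f j x ≠ 0) ∧ ∀ x, (∀ j, f j x ≠ 0) →
        ∃ c : D.J → ℂ, ∀ l', (∑ i, c i • Q.ρ ((∑ j, x j • B j) + r • l) l' (D.b i)) =
          if F l' then 1 else 0

/-- Factorisation of the Schur elements: `s_λ = ξ_λ v^{N_λ} Π_i Ψ_{λ,i}(v^{M_{λ,i}})`. -/
structure SchurFac (D : HData Z ι) where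
  ξ : D.Λ → Z
  N : D.Λ → (ι →₀ ℤ)
  n : D.Λ → ℕ
  Ψ : ∀ l, Fin (n l) → Polynomial Z
  E : ∀ l, Fin (n l) → (ι →₀ ℤ)
  cyc : ∀ l i, ∃ j : ℕ, 0 < j ∧ Ψ l i ∣ (Polynomial.X ^ j - 1 : Polynomial Z)
  fac : ∀ l, D.s l = algebraMap Z (Lau Z ι) (ξ l) * mon (N l) *
    ∏ i, Polynomial.eval₂ (algebraMap Z (Lau Z ι)) (mon (E l i)) (Ψ l i)

/-- `m` and `κ₀` lie on exactly the same essential hyperplanes. -/
def SameEss {D : HData Z ι} (Φ : SchurFac D) (κ₀ : ι → ℂ) (m : ι → ℤ) : Prop :=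
  ∀ l i, ¬ IsUnit (Polynomial.eval 1 (Φ.Ψ l i)) →
    (pairC (Φ.E l i) κ₀ = 0 ↔ pairZ (Φ.E l i) m = 0)

/-! ### The full twist element: separation of the Euler classes -/

section Euler

variable [Algebra Z ℂ] [Fintype ι] {D : HData Z ι} {M : ℕ} (Q : KZData D M)

open Classical in
/-- The exponents of the full twist. -/
def KZData.T : Finset (ι →₀ ℤ) := Finset.univ.image Q.a

open Classical in
/-- `Π_{a' ≠ a} (v^a - v^{a'})`. -/
def KZData.P (a : ι →₀ ℤ) : Lau Z ι := ∏ a' ∈ Q.T.erase a, (mon a - mon a')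

/-- `B = Π_a Π_{a' ≠ a} (v^a - v^{a'})`. -/
def KZData.Bden : Lau Z ι := ∏ a ∈ Q.T, Q.P a

open Classical in
/-- `Σ_{a ∈ F} (B / P_a) Π_{a' ≠ a} (π - v^{a'})`. -/
def KZData.XF (F : D.Λ → Prop) : D.H :=
  ∑ a ∈ Q.T, if ∃ l, Q.a l = a ∧ F l then
    (∏ c ∈ Q.T.erase a, Q.P c) •
      Polynomial.aeval Q.π (∏ a' ∈ Q.T.erase a, (Polynomial.X - Polynomial.C (mon a' : Lau Z ι)))
  else 0

end Euler

end

end Pool.Agent.CMF
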