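import Pool.Agent.CMF.Pres
import Pool.Agent.CMF.IDefs

/-! Project CMF (MP_4af2a6_al), glue G5, G6 (helper77): the abstract data `HData`, `SchurFac`
from the standard assumptions. -/

namespace Pool.Agent.CMF

open Matrix Polynomial Pool.Agent.CMFP

noncomputable section

/-! ### G5 -/

section G5

variable {Z ι : Type} [CommRing Z] [IsDomain Z] {H : Type} [Ring H] [Algebra (Laur Z ι) H] {N : ℕ}
  {Λ : Type} [Fintype Λ] {d : Λ → ℕ}

theorem std_card (D : Std (Laur Z ι) H N d) : ∑ l, d l ^ 2 = N := by
  have hB := Module.Basis.mk D.indep D.split.ge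
  have h1 := Module.finrank_eq_card_basis hB
  rw [Module.finrank_pi_fintype, Fintype.card_fin] at h1
  rw [← h1]
  refine Finset.sum_congr rfl fun l _ => ?_
  rw [Module.finrank_matrix]
  simp [sq]

theorem std_schur [DecidableEq Λ] (D : Std (Laur Z ι) H N d) (h : H) :
    (∏ l, D.s l) * D.τ h = ∑ l, (∏ m ∈ Finset.univ.erase l, D.s m) * D.X l h := by
  have hinj : Function.Injective (algebraMap (Laur Z ι) (FractionRing (Laur Z ι))) :=
    IsFractionRing.injective _ _
  apply hinj
  rw [map_mul, D.schur, map_sum, Finset.mul_sum]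
  refine Finset.sum_congr rfl fun l _ => ?_
  rw [map_mul, ← Finset.prod_erase_mul _ _ (Finset.mem_univ l), map_mul]
  have h1 : algebraMap (Laur Z ι) (FractionRing (Laur Z ι)) (D.s l) ≠ 0 := by
    rw [Ne, map_eq_zero_iff _ hinj]
    exact D.s_ne l
  field_simp

open Classical in
/-- The abstract data of a symmetric split algebra. -/
def stdHData (D : Std (Laur Z ι) H N d) (hd : ∀ l, 0 < d l) : HData Z ι where
  H := H
  algH := (inferInstance : Algebra (Laur Z ι) H)
  J := Fin N
  b := D.b
  b' := D.b'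
  τ := D.τ
  τ_comm := D.symm
  dual := D.dual
  Λ := Λ
  d := d
  d_pos := hd
  K := FractionRing (Laur Z ι)
  algK := (inferInstance : Algebra (Laur Z ι) (FractionRing (Laur Z ι)))
  injK := IsFractionRing.injective (Laur Z ι) (FractionRing (Laur Z ι))
  R := fun l => (D.R l).toRingHom
  R_smul := fun l (a : Laur Z ι) (h : H) => by
    have h1 : D.R l (a • h) = a • D.R l h := map_smul (D.R l) a h
    exact h1.trans (algebraMap_smul (FractionRing (Laur Z ι)) a (D.R l h)).symm
  X := D.X
  trR := fun l h => D.trace l h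
  card := by
    rw [Fintype.card_fin]
    exact std_card D
  split := by
    rw [eq_top_iff, ← D.split]
    apply Submodule.span_mono
    rintro _ ⟨j, rfl⟩
    exact ⟨D.b j, rfl⟩
  s := D.s
  schur := fun h => std_schur D h
  s_ne := D.s_ne

end G5

/-! ### G6 -/

section G6

variable {F : Type} [Field F] [Algebra F ℂ]

theorem fcyc_dvd {ψ : Polynomial (NumberField.RingOfIntegers F)} (h : IsFCyc F ψ) :
    ∃ j : ℕ, 0 < j ∧ ψ ∣ (Polynomial.X ^ j - 1 : Polynomial (NumberField.RingOfIntegers F)) := by
  obtain ⟨u, ⟨j, hj, hu⟩, hψ⟩ := h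
  have hinj : Function.Injective (algebraMap (NumberField.RingOfIntegers F) F) :=
    NumberField.RingOfIntegers.coe_injective
  have hint : IsIntegral F u := by
    refine ⟨Polynomial.X ^ j - 1, ?_, ?_⟩
    · have := Polynomial.monic_X_pow_sub_C (1 : F) hj.ne'
      rwa [map_one] at this
    · simp [hu]
  have hmon : ψ.Monic := by
    have h1 : (ψ.map (algebraMap (NumberField.RingOfIntegers F) F)).Monic := by
      rw [hψ]; exact minpoly.monic hint
    exact Polynomial.monic_of_injective hinj h1
  refine ⟨j, hj, ?_⟩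
  rw [← Polynomial.map_dvd_map _ hinj hmon, hψ]
  apply minpoly.dvd
  simp [hu]

variable {ι Λ : Type} [Fintype Λ] {H : Type} [Ring H]
  [Algebra (Laur (NumberField.RingOfIntegers F) ι) H] {N : ℕ} {d : Λ → ℕ}

/-- The factorisation of the Schur elements. -/
def schurFac (D : Std (Laur (NumberField.RingOfIntegers F) ι) H N d) (hd : ∀ l, 0 < d l)
    (S : SchurForm F D.s) : SchurFac (stdHData D hd) where
  ξ := S.ξ
  N := S.c
  n := S.r
  Ψ := S.Ψ
  E := S.a
  cyc := fun l i => fcyc_dvd (S.cyc l i)
  fac := fun l => S.form l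

theorem sameEss_of (D : Std (Laur (NumberField.RingOfIntegers F) ι) H N d) (hd : ∀ l, 0 < d l)
    (S : SchurForm F D.s) (κ : ι → ℂ) (m : ι → ℤ) (h : SameEssential S κ m) :
    SameEss (schurFac D hd S) κ m := by
  intro l i hu
  exact h l i hu

end G6

end

end Pool.Agent.CMF
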