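import Pool.Agent.CMF.IDefs

/-! Project CMF, block I: symmetric algebra identities (helper23). -/

namespace Pool.Agent.CMF

open Matrix Polynomial

noncomputable section

variable {Z : Type} [CommRing Z] {ι : Type}

namespace I1X

variable (D : HData Z ι)

lemma R_b_sum (l : D.Λ) (h : D.H) :
    D.R l h = ∑ j, algebraMap (Lau Z ι) D.K (D.b.repr h j) • D.R l (D.b j) := by
  conv_lhs => rw [← D.b.sum_repr h]
  rw [map_sum]
  exact Finset.sum_congr rfl fun j _ => D.R_smul l _ _

/-- The map `K ⊗ H → Π Mat`. -/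
def Phi : (D.J → D.K) →ₗ[D.K] (∀ l, Matrix (Fin (D.d l)) (Fin (D.d l)) D.K) :=
  Fintype.linearCombination D.K (fun j => fun l => D.R l (D.b j))

lemma Phi_surj : Function.Surjective (Phi D) := by
  rw [← LinearMap.range_eq_top, eq_top_iff, ← D.split, Submodule.span_le]
  rintro _ ⟨h, rfl⟩
  refine ⟨fun j => algebraMap (Lau Z ι) D.K (D.b.repr h j), ?_⟩
  funext l
  show (Phi D _) l = D.R l h
  rw [R_b_sum D l h, Phi, Fintype.linearCombination_apply, Finset.sum_apply]
  rfl

lemma Phi_inj : Function.Injective (Phi D) := by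
  have hfr : Module.finrank D.K (D.J → D.K) =
      Module.finrank D.K (∀ l, Matrix (Fin (D.d l)) (Fin (D.d l)) D.K) := by
    rw [Module.finrank_fintype_fun_eq_card, ← D.card, Module.finrank_pi_fintype]
    refine Finset.sum_congr rfl fun l _ => ?_
    rw [Module.finrank_matrix, Module.finrank_self, Fintype.card_fin, mul_one, pow_two]
  exact (LinearMap.injective_iff_surjective_of_finrank_eq_finrank hfr).2 (Phi_surj D)

lemma repr_eq0 (h : D.H) (i : D.J) : D.b.repr h i = D.τ (h * D.b' i) := by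
  conv_rhs => rw [← D.b.sum_repr h]
  rw [Finset.sum_mul, map_sum]
  simp only [smul_mul_assoc, map_smul, D.dual, smul_eq_mul, mul_ite, mul_one, mul_zero]
  rw [Finset.sum_ite_eq']
  simp

lemma nondeg (h : D.H) (h0 : ∀ x, D.τ (h * x) = 0) : h = 0 := by
  apply D.b.repr.injective
  ext1 i
  rw [repr_eq0 D h i, h0]
  simp

lemma dual_sum (h : D.H) : h = ∑ j, D.τ (D.b j * h) • D.b' j := by
  have hb : ∀ i, D.τ (D.b i * (h - ∑ j, D.τ (D.b j * h) • D.b' j)) = 0 := by
    intro i
    rw [mul_sub, map_sub, Finset.mul_sum, map_sum]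
    simp only [mul_smul_comm, map_smul, D.dual, smul_eq_mul, mul_ite, mul_one, mul_zero]
    rw [Finset.sum_ite_eq]
    simp
  have hx : ∀ x, D.τ ((h - ∑ j, D.τ (D.b j * h) • D.b' j) * x) = 0 := by
    intro x
    rw [D.τ_comm, ← D.b.sum_repr x, Finset.sum_mul, map_sum]
    refine Finset.sum_eq_zero fun i _ => ?_
    rw [smul_mul_assoc, map_smul, hb i, smul_zero]
  exact sub_eq_zero.1 (nondeg D _ hx)

lemma X_comm (l : D.Λ) (x y : D.H) : D.X l (x * y) = D.X l (y * x) := by
  apply D.injK
  rw [← D.trR, ← D.trR, map_mul, map_mul, Matrix.trace_mul_comm]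

lemma span_R (m : D.Λ) (P : Matrix (Fin (D.d m)) (Fin (D.d m)) D.K → Prop)
    (h1 : ∀ h, P (D.R m h)) (h0 : P 0) (ha : ∀ x y, P x → P y → P (x + y))
    (hs : ∀ (c : D.K) x, P x → P (c • x)) : ∀ x, P x := by
  intro x
  have hx : (Pi.single m x : ∀ l, Matrix (Fin (D.d l)) (Fin (D.d l)) D.K) ∈
      Submodule.span D.K (Set.range fun h : D.H => fun l => D.R l h) := by
    rw [D.split]; trivial
  have key : ∀ z ∈ Submodule.span D.K (Set.range fun h : D.H => fun l => D.R l h), P (z m) := by
    intro z hz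
    induction hz using Submodule.span_induction with
    | mem y hy => obtain ⟨h, rfl⟩ := hy; exact h1 h
    | zero => exact h0
    | add y z _ _ hy hz => exact ha _ _ hy hz
    | smul c y _ hy => exact hs c _ hy
  have := key _ hx
  rwa [Pi.single_eq_same] at this

/-- A functional vanishing on all `(R_l h)_l` vanishes. -/
lemma functional_zero (f : (∀ l, Matrix (Fin (D.d l)) (Fin (D.d l)) D.K) →ₗ[D.K] D.K)
    (h0 : ∀ h : D.H, f (fun l => D.R l h) = 0) : f = 0 := by
  refine LinearMap.ext_on (s := Set.range fun h : D.H => fun l => D.R l h) D.split ?_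
  rintro _ ⟨h, rfl⟩
  exact h0 h

/-- Independence of the characters. -/
lemma char_indep (c : D.Λ → D.K)
    (h0 : ∀ h : D.H, ∑ l, c l * algebraMap (Lau Z ι) D.K (D.X l h) = 0) (m : D.Λ) : c m = 0 := by
  let f : (∀ l, Matrix (Fin (D.d l)) (Fin (D.d l)) D.K) →ₗ[D.K] D.K :=
    ∑ l, c l • (Matrix.traceLinearMap (Fin (D.d l)) D.K D.K).comp (LinearMap.proj l)
  have hf : f = 0 := by
    apply functional_zero
    intro h
    rw [← h0 h]
    simp only [f, LinearMap.sum_apply, LinearMap.smul_apply, LinearMap.comp_apply,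
      LinearMap.proj_apply, Matrix.traceLinearMap_apply, smul_eq_mul, D.trR]
  have h1 : f (Pi.single m (Matrix.single ⟨0, D.d_pos m⟩ ⟨0, D.d_pos m⟩ 1)) = c m := by
    simp only [f, LinearMap.sum_apply, LinearMap.smul_apply, LinearMap.comp_apply,
      LinearMap.proj_apply, Matrix.traceLinearMap_apply, smul_eq_mul]
    rw [Finset.sum_eq_single m]
    · rw [Pi.single_eq_same, Matrix.trace_single_eq_same, mul_one]
    · intro l _ hl
      rw [Pi.single_eq_of_ne hl, Matrix.trace_zero, mul_zero]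
    · intro h; exact absurd (Finset.mem_univ m) h
  rw [← h1, hf, LinearMap.zero_apply]

end I1X

open I1X

namespace HData
variable (D : HData Z ι)

theorem R_inj (h : D.H) (h0 : ∀ l, D.R l h = 0) : h = 0 := by
  have h1 : Phi D (fun j => algebraMap (Lau Z ι) D.K (D.b.repr h j)) = Phi D 0 := by
    rw [map_zero]
    funext l
    show (Phi D _) l = 0
    rw [← h0 l, R_b_sum D l h, Phi, Fintype.linearCombination_apply, Finset.sum_apply]
    rfl
  have h2 := Phi_inj D h1
  apply D.b.repr.injective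
  ext1 j
  apply D.injK
  have := congrFun h2 j
  simpa using this

/-- `h = Σ_i τ(h b_i^∨) b_i`. -/
theorem repr_eq (h : D.H) (i : D.J) : D.b.repr h i = D.τ (h * D.b' i) := repr_eq0 D h i

theorem τ_C (l : D.Λ) (h : D.H) : D.τ (D.C l * h) = D.X l h := by
  conv_rhs => rw [dual_sum D h]
  rw [HData.C, Finset.sum_mul, map_sum, map_sum]
  refine Finset.sum_congr rfl fun j _ => ?_
  rw [smul_mul_assoc, map_smul, map_smul, smul_eq_mul, smul_eq_mul, mul_comm]

theorem C_comm (l : D.Λ) (h : D.H) : D.C l * h = h * D.C l := by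
  rw [← sub_eq_zero]
  apply nondeg D
  intro x
  rw [sub_mul, map_sub, mul_assoc, D.τ_C, mul_assoc, D.τ_comm h, mul_assoc, D.τ_C,
    X_comm D l h x, sub_self]

theorem R_C (l m : D.Λ) : D.R m (D.C l) =
    if m = l then algebraMap (Lau Z ι) D.K (D.s l) • 1 else 0 := by
  -- scalars
  have hsc : ∀ m, ∃ c : D.K, D.R m (D.C l) = c • 1 := by
    intro m
    have hcom : ∀ x : Matrix (Fin (D.d m)) (Fin (D.d m)) D.K,
        D.R m (D.C l) * x = x * D.R m (D.C l) := by
      apply span_R D m
      · intro h; rw [← map_mul, ← map_mul, D.C_comm]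
      · rw [mul_zero, zero_mul]
      · intro x y hx hy; rw [mul_add, add_mul, hx, hy]
      · intro c x hx; rw [mul_smul_comm, smul_mul_assoc, hx]
    have hmem : D.R m (D.C l) ∈ Set.range (Matrix.scalar (Fin (D.d m)) (α := D.K)) := by
      rw [Matrix.mem_range_scalar_iff_commute_single']
      intro i j
      exact (hcom _).symm
    obtain ⟨c, hc⟩ := hmem
    refine ⟨c, ?_⟩
    rw [← hc, Matrix.smul_one_eq_diagonal]
    rfl
  choose c hc using hsc
  have hs : ∀ m, algebraMap (Lau Z ι) D.K (D.s m) ≠ 0 := fun m h =>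
    D.s_ne m (D.injK (by rw [h, map_zero]))
  have hX : ∀ m h, algebraMap (Lau Z ι) D.K (D.X m (D.C l * h)) =
      c m * algebraMap (Lau Z ι) D.K (D.X m h) := by
    intro m h
    rw [← D.trR, ← D.trR, map_mul, hc, smul_mul_assoc, one_mul, Matrix.trace_smul, smul_eq_mul]
  have hprod : ∀ m, algebraMap (Lau Z ι) D.K (∏ k ∈ Finset.univ.erase m, D.s k) =
      algebraMap (Lau Z ι) D.K D.S / algebraMap (Lau Z ι) D.K (D.s m) := by
    intro m
    rw [eq_div_iff (hs m), ← map_mul, HData.S, Finset.prod_erase_mul _ _ (Finset.mem_univ m)]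
  have hS : algebraMap (Lau Z ι) D.K D.S ≠ 0 := by
    rw [HData.S, map_prod]
    exact Finset.prod_ne_zero_iff.2 fun m _ => hs m
  have hind : ∀ m, c m / algebraMap (Lau Z ι) D.K (D.s m) - (if m = l then 1 else 0) = 0 := by
    intro m
    refine char_indep D (fun m => c m / algebraMap (Lau Z ι) D.K (D.s m) -
      (if m = l then 1 else 0)) ?_ m
    intro h
    have h1 := congrArg (algebraMap (Lau Z ι) D.K) (D.schur (D.C l * h))
    rw [D.τ_C, map_mul, map_sum] at h1
    simp only [map_mul, hX, hprod] at h1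
    have h2 : algebraMap (Lau Z ι) D.K D.S * ∑ m, (c m / algebraMap (Lau Z ι) D.K (D.s m) -
        (if m = l then 1 else 0)) * algebraMap (Lau Z ι) D.K (D.X m h) = 0 := by
      have h3 : ∑ m, (c m / algebraMap (Lau Z ι) D.K (D.s m) -
          (if m = l then 1 else 0)) * algebraMap (Lau Z ι) D.K (D.X m h) =
          ∑ m, c m / algebraMap (Lau Z ι) D.K (D.s m) * algebraMap (Lau Z ι) D.K (D.X m h) -
          algebraMap (Lau Z ι) D.K (D.X l h) := by
        simp only [sub_mul, ite_mul, one_mul, zero_mul, Finset.sum_sub_distrib,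
          Finset.sum_ite_eq', Finset.mem_univ, if_true]
      rw [h3, mul_sub, Finset.mul_sum, sub_eq_zero]
      rw [← HData.S] at h1
      rw [h1]
      refine Finset.sum_congr rfl fun m _ => ?_
      ring
    exact (mul_eq_zero.1 h2).resolve_left hS
  have := hind m
  rw [hc m]
  split_ifs with hm
  · subst hm
    rw [if_pos rfl, sub_eq_zero, div_eq_one_iff_eq (hs m)] at this
    rw [this]
  · rw [if_neg hm, sub_zero, div_eq_zero_iff] at this
    rw [this.resolve_right (hs m), zero_smul]

theorem X_C_mul (l m : D.Λ) (h : D.H) : D.X m (D.C l * h) =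
    if m = l then D.s l * D.X l h else 0 := by
  apply D.injK
  rw [← D.trR, map_mul, D.R_C]
  split_ifs with hm
  · subst hm
    rw [smul_mul_assoc, one_mul, Matrix.trace_smul, D.trR, smul_eq_mul, map_mul]
  · rw [zero_mul, Matrix.trace_zero, map_zero]

theorem X_one (l : D.Λ) : D.X l 1 = (D.d l : Lau Z ι) := by
  apply D.injK
  rw [← D.trR, map_one, Matrix.trace_one, Fintype.card_fin, map_natCast]

theorem R_CF (F : D.Λ → Prop) [DecidablePred F] (m : D.Λ) : D.R m (D.CF F) =
    if F m then algebraMap (Lau Z ι) D.K D.S • 1 else 0 := by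
  rw [HData.CF, map_sum, Finset.sum_eq_single m]
  · split_ifs with hF
    · rw [D.R_smul, D.R_C, if_pos rfl, smul_smul, ← map_mul, HData.S,
        Finset.prod_erase_mul _ _ (Finset.mem_univ m)]
    · rw [map_zero]
  · intro l _ hl
    split_ifs
    · rw [D.R_smul, D.R_C, if_neg (Ne.symm hl), smul_zero]
    · rw [map_zero]
  · intro h; exact absurd (Finset.mem_univ m) h

theorem CF_comm (F : D.Λ → Prop) [DecidablePred F] (h : D.H) : D.CF F * h = h * D.CF F := by
  rw [HData.CF, Finset.sum_mul, Finset.mul_sum]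
  refine Finset.sum_congr rfl fun l _ => ?_
  split_ifs
  · rw [smul_mul_assoc, mul_smul_comm, D.C_comm]
  · rw [zero_mul, mul_zero]

theorem CF_sq (F : D.Λ → Prop) [DecidablePred F] : D.CF F * D.CF F = D.S • D.CF F := by
  rw [← sub_eq_zero]
  apply D.R_inj
  intro m
  rw [map_sub, map_mul, D.R_smul, D.R_CF]
  split_ifs
  · rw [smul_mul_assoc, one_mul, sub_self]
  · rw [mul_zero, smul_zero, sub_self]

theorem X_CF (F : D.Λ → Prop) [DecidablePred F] (m : D.Λ) : D.X m (D.CF F) =
    if F m then D.S * (D.d m : Lau Z ι) else 0 := by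
  apply D.injK
  rw [← D.trR, D.R_CF]
  split_ifs
  · rw [Matrix.trace_smul, Matrix.trace_one, Fintype.card_fin, smul_eq_mul, map_mul, map_natCast]
  · rw [Matrix.trace_zero, map_zero]

/-- Coordinates: `S τ(h b_i^∨)` in terms of characters; here for `h = b_j`. -/
theorem schur_dual (i j : D.J) : (if j = i then D.S else 0) =
    ∑ l, (∏ m ∈ Finset.univ.erase l, D.s m) * D.X l (D.b j * D.b' i) := by
  rw [← D.schur, D.dual, HData.S]
  split_ifs
  · rw [mul_one]
  · rw [mul_zero]

end HData

end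

end Pool.Agent.CMF
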