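import Pool.Agent.CMF.IDefs
import Pool.Agent.CMF.I1
import Pool.Agent.CMF.BaireA
import Pool.Agent.CMF.BaireB

/-! Project CMF, block I/N (helper77): the representations `ρ κ l`. -/

set_option linter.unusedSectionVars false

namespace Pool.Agent.CMF

open Matrix Polynomial

noncomputable section

variable {Z : Type} [CommRing Z] [IsDomain Z] [Algebra Z ℂ] {ι : Type}

theorem evL_mon {M : ℕ} (κ : ι → ℂ) (a : ι →₀ ℤ) : evL Z M κ (mon a) =
    Complex.exp (-(2 * Real.pi * Complex.I / M) * pairC a κ) := by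
  simp [evL, mon, expChar]

theorem evL_single {M : ℕ} (κ : ι → ℂ) (a : ι →₀ ℤ) (z : Z) :
    evL Z M κ (AddMonoidAlgebra.single a z) =
    algebraMap Z ℂ z * Complex.exp (-(2 * Real.pi * Complex.I / M) * pairC a κ) := by
  simp [evL, expChar, AddMonoidAlgebra.lift_single, Algebra.smul_def]

theorem evL_eq_sum {M : ℕ} (κ : ι → ℂ) (p : Lau Z ι) : evL Z M κ p =
    p.coeff.sum fun a z =>
      algebraMap Z ℂ z * Complex.exp (-(2 * Real.pi * Complex.I / M) * pairC a κ) := by
  induction p using AddMonoidAlgebra.induction_linear with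
  | zero => simp
  | add f g hf hg =>
    rw [map_add, hf, hg, AddMonoidAlgebra.coeff_add, Finsupp.sum_add_index']
    · intro a; simp
    · intro a z w; rw [map_add]; ring
  | single a z =>
    rw [evL_single, AddMonoidAlgebra.coeff_single, Finsupp.sum_single_index]
    simp

lemma pairC_add {ι : Type} (a : ι →₀ ℤ) (κ κ' : ι → ℂ) :
    pairC a (κ + κ') = pairC a κ + pairC a κ' := by
  simp only [pairC, pair, Finsupp.sum, ← Finset.sum_add_distrib, Pi.add_apply, mul_add]

lemma pairC_smul {ι : Type} (a : ι →₀ ℤ) (c : ℂ) (κ : ι → ℂ) :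
    pairC a (c • κ) = c * pairC a κ := by
  simp only [pairC, pair, Finsupp.sum, Finset.mul_sum, Pi.smul_apply, smul_eq_mul]
  exact Finset.sum_congr rfl fun i _ => by ring

lemma pairC_zero {ι : Type} (a : ι →₀ ℤ) : pairC a (0 : ι → ℂ) = 0 := by simp [pairC, pair]

lemma pairC_eq_sum {ι : Type} [Fintype ι] (a : ι →₀ ℤ) (κ : ι → ℂ) :
    pairC a κ = ∑ i, (a i : ℂ) * κ i := by
  rw [pairC, pair, Finsupp.sum_fintype]; simp

variable [Fintype ι]

theorem pairC_hol (a : ι →₀ ℤ) : LineHol (fun κ : ι → ℂ => pairC a κ) := by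
  have h : (fun κ : ι → ℂ => pairC a κ) = fun κ => ∑ i, (a i : ℂ) * κ i :=
    funext (pairC_eq_sum a)
  rw [h]
  apply LineHol.sum
  intro i _
  refine LineHol.mul (LineHol.const _) ?_
  exact LineHol.clm (ContinuousLinearMap.proj (R := ℂ) (φ := fun _ : ι => ℂ) i)

theorem evL_hol {M : ℕ} (p : Lau Z ι) : LineHol (fun κ : ι → ℂ => evL Z M κ p) := by
  simp only [evL_eq_sum, Finsupp.sum]
  apply LineHol.sum
  intro a _
  exact LineHol.mul (LineHol.const _) (LineHol.exp (LineHol.mul (LineHol.const _) (pairC_hol a)))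

theorem evL_inj (hinj : Function.Injective (algebraMap Z ℂ)) {M : ℕ} (hM : 0 < M)
    (p : Lau Z ι) (h : ∀ κ : ι → ℂ, evL Z M κ p = 0) :
    p = 0 := by
  by_contra hp
  have hc : (-(2 * Real.pi * Complex.I / M) : ℂ) ≠ 0 := by
    have : (M : ℂ) ≠ 0 := by exact_mod_cast hM.ne'
    simp [Real.pi_ne_zero, Complex.I_ne_zero, this]
  let e : (ι →₀ ℤ) ≃ (ι → ℤ) := Finsupp.equivFunOnFinite
  let q : (ι → ℤ) →₀ ℂ := (Finsupp.mapRange (algebraMap Z ℂ) (map_zero _) p.coeff).mapDomain e
  have hq : q ≠ 0 := by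
    intro h0
    apply hp
    have h1 : Finsupp.mapRange (algebraMap Z ℂ) (map_zero _) p.coeff = 0 := by
      apply Finsupp.mapDomain_injective e.injective
      rw [Finsupp.mapDomain_zero]; exact h0
    ext a
    have h2 := DFunLike.congr_fun h1 a
    rw [Finsupp.mapRange_apply, Finsupp.zero_apply, map_eq_zero_iff _ hinj] at h2
    rw [h2]
    rfl
  obtain ⟨x, hx⟩ := exists_laurent_ne_zero _ hc q hq
  apply hx
  have h3 := h x
  rw [evL_eq_sum] at h3
  rw [Finsupp.sum_mapDomain_index, Finsupp.sum_mapRange_index]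
  · rw [← h3]
    apply Finsupp.sum_congr
    intro a _
    rw [pairC_eq_sum]
    rfl
  · intro a; simp
  · intro a; simp
  · intro a z w; ring

namespace KZData
variable {D : HData Z ι} {M : ℕ} (Q : KZData D M)

theorem ρ_inj (hinj : Function.Injective (algebraMap Z ℂ)) (hM : 0 < M) (h : D.H) (h0 : ∀ κ l, Q.ρ κ l h = 0) : h = 0 := by
  have hS : D.S ≠ 0 := by
    rw [HData.S, Finset.prod_ne_zero_iff]
    exact fun l _ => D.s_ne l
  apply D.b.repr.injective
  ext1 i
  rw [map_zero, Finsupp.zero_apply]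
  have h1 : D.S * D.b.repr h i = 0 := by
    rw [D.repr_eq, HData.S, D.schur]
    apply Finset.sum_eq_zero
    intro l _
    have h2 : D.X l (h * D.b' i) = 0 := by
      apply evL_inj hinj hM
      intro κ
      rw [← Q.tr, map_mul, h0, zero_mul, Matrix.trace_zero]
    rw [h2, mul_zero]
  rcases mul_eq_zero.1 h1 with h3 | h3
  · exact absurd h3 hS
  · exact h3

/-- A generic parameter has the property that the `ρ κ m` is surjective on matrices. -/
theorem dense_span (m : D.Λ) : Dense {κ : ι → ℂ |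
    Submodule.span ℂ (Set.range fun h : D.H => Q.ρ κ m h) = ⊤} := by
  have h0 : Submodule.span ℂ (Set.range fun h : D.H => Q.ρ 0 m h) = ⊤ := by
    have h1 := congrArg (Submodule.map (LinearMap.proj m :
      (∀ l, Matrix (Fin (D.d l)) (Fin (D.d l)) ℂ) →ₗ[ℂ] _)) Q.span0
    rw [Submodule.map_span, Submodule.map_top, LinearMap.range_eq_top.2
      (LinearMap.proj_surjective m)] at h1
    rw [← h1, ← Set.range_comp]
    rfl
  obtain ⟨f, hf⟩ : ∃ f : Fin (D.d m) × Fin (D.d m) → D.H,
      LinearIndependent ℂ (fun i => Q.ρ 0 m (f i)) := by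
    have h2 := exists_linearIndependent ℂ (Set.range fun h : D.H => Q.ρ 0 m h)
    obtain ⟨b, hb, hspan, hli⟩ := h2
    rw [h0] at hspan
    have hB : Module.Basis b ℂ (Matrix (Fin (D.d m)) (Fin (D.d m)) ℂ) :=
      Module.Basis.mk hli (by rw [Subtype.range_coe]; exact hspan.ge)
    have : Fintype b := Module.Basis.fintypeIndexOfRankLtAleph0 hB (Module.rank_lt_aleph0 ℂ _)
    have hcard : Fintype.card b = Fintype.card (Fin (D.d m) × Fin (D.d m)) := by
      rw [← Module.finrank_eq_card_basis hB, Module.finrank_matrix]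
      simp
    let e : (Fin (D.d m) × Fin (D.d m)) ≃ b := (Fintype.equivOfCardEq hcard).symm
    have hx : ∀ i, ∃ h : D.H, Q.ρ 0 m h = (e i : Matrix (Fin (D.d m)) (Fin (D.d m)) ℂ) :=
      fun i => hb (e i).2
    choose f hf using hx
    refine ⟨f, ?_⟩
    simp only [hf]
    exact hli.comp e e.injective
  -- determinant
  let G : (ι → ℂ) → Matrix (Fin (D.d m) × Fin (D.d m)) (Fin (D.d m) × Fin (D.d m)) ℂ :=
    fun κ => Matrix.of fun i j => Q.ρ κ m (f i) j.1 j.2
  have hG : LineHol (fun κ => (G κ).det) := LineHol.det fun i j => Q.hol m (f i) j.1 j.2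
  have hli : ∀ κ, (G κ).det ≠ 0 → Submodule.span ℂ (Set.range fun h : D.H => Q.ρ κ m h) = ⊤ := by
    intro κ hκ
    rw [eq_top_iff]
    intro A _
    have hu : IsUnit (G κ) := (Matrix.isUnit_iff_isUnit_det _).2 (isUnit_iff_ne_zero.2 hκ)
    -- solve c * G = A
    let c : Fin (D.d m) × Fin (D.d m) → ℂ := (fun j => A j.1 j.2) ᵥ* (G κ)⁻¹
    have hc : c ᵥ* G κ = fun j => A j.1 j.2 := by
      rw [Matrix.vecMul_vecMul, Matrix.nonsing_inv_mul _ (isUnit_iff_ne_zero.2 hκ),
        Matrix.vecMul_one]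
    have hA : A = ∑ i, c i • Q.ρ κ m (f i) := by
      ext p q
      have := congrFun hc (p, q)
      simp only [Matrix.vecMul, dotProduct, G, Matrix.of_apply] at this
      rw [← this, Matrix.sum_apply]
      rfl
    rw [hA]
    exact Submodule.sum_mem _ fun i _ => Submodule.smul_mem _ _
      (Submodule.subset_span ⟨f i, rfl⟩)
  have hG0 : (G 0).det ≠ 0 := by
    rw [← isUnit_iff_ne_zero, ← Matrix.isUnit_iff_isUnit_det]
    rw [← Matrix.linearIndependent_rows_iff_isUnit]
    have h3 := hf.map' (LinearEquiv.toLinearMap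
      ({ toFun := fun A (j : Fin (D.d m) × Fin (D.d m)) => A j.1 j.2
         invFun := fun v => Matrix.of fun i j => v (i, j)
         map_add' := fun _ _ => rfl
         map_smul' := fun _ _ => rfl
         left_inv := fun _ => rfl
         right_inv := fun _ => rfl } :
        Matrix (Fin (D.d m)) (Fin (D.d m)) ℂ ≃ₗ[ℂ] (Fin (D.d m) × Fin (D.d m) → ℂ)))
      (LinearEquiv.ker _)
    exact h3
  have := dense_generic (J := Unit) (fun _ κ => (G κ).det) (fun _ => hG) (fun _ => ⟨0, hG0⟩)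
  refine this.mono ?_
  intro κ hκ
  exact hli κ (hκ ())

lemma eq_of_trace {n : Type} [Fintype n] [DecidableEq n] (S : Set (Matrix n n ℂ))
    (hS : Submodule.span ℂ S = ⊤) (A : Matrix n n ℂ) (h : ∀ B ∈ S, (A * B).trace = 0) :
    A = 0 := by
  have h1 : ∀ B : Matrix n n ℂ, (A * B).trace = 0 := by
    intro B
    have hB : B ∈ Submodule.span ℂ S := by rw [hS]; trivial
    induction hB using Submodule.span_induction with
    | mem x hx => exact h x hx
    | zero => simp
    | add x y _ _ hx hy => rw [mul_add, Matrix.trace_add, hx, hy, add_zero]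
    | smul c x _ hx => rw [mul_smul_comm, Matrix.trace_smul, hx, smul_zero]
  ext i j
  have := h1 (Matrix.single j i 1)
  rw [Matrix.trace_mul_single] at this
  simpa using this

theorem ρ_C (κ : ι → ℂ) (l m : D.Λ) : Q.ρ κ m (D.C l) =
    if m = l then evL Z M κ (D.s l) • 1 else 0 := by
  ext p q
  have hf : LineHol (fun κ => Q.ρ κ m (D.C l) p q) := Q.hol m _ p q
  have hg : LineHol (fun κ => (if m = l then evL Z M κ (D.s l) • 1 else 0 :
      Matrix (Fin (D.d m)) (Fin (D.d m)) ℂ) p q) := by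
    by_cases h : m = l
    · simp only [h, if_true, Matrix.smul_apply, smul_eq_mul]
      exact (evL_hol _).mul (LineHol.const _)
    · simp only [h, if_false, Matrix.zero_apply]
      exact LineHol.const _
  refine congrFun (Continuous.ext_on (Q.dense_span m) hf.1 hg.1 ?_) κ
  intro κ hκ
  have key : Q.ρ κ m (D.C l) - (if m = l then evL Z M κ (D.s l) • 1 else 0) = 0 := by
    apply eq_of_trace _ hκ
    rintro _ ⟨h, rfl⟩
    simp only
    rw [sub_mul, Matrix.trace_sub, ← map_mul, Q.tr, D.X_C_mul]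
    by_cases hml : m = l
    · subst hml
      rw [if_pos rfl, if_pos rfl, smul_mul_assoc, one_mul, Matrix.trace_smul, Q.tr, map_mul]
      simp
    · rw [if_neg hml, if_neg hml]
      simp
  exact congrFun (congrFun (sub_eq_zero.1 key) p) q

theorem ρ_CF (κ : ι → ℂ) (F : D.Λ → Prop) [DecidablePred F] (m : D.Λ) :
    Q.ρ κ m (D.CF F) = if F m then evL Z M κ D.S • 1 else 0 := by
  rw [HData.CF, map_sum]
  rw [Finset.sum_eq_single m]
  · by_cases h : F m
    · rw [if_pos h, if_pos h, Q.ρ_smul, Q.ρ_C, if_pos rfl, smul_smul, ← map_mul]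
      congr 2
      rw [HData.S, ← Finset.prod_erase_mul _ _ (Finset.mem_univ m)]
    · rw [if_neg h, if_neg h, map_zero]
  · intro l _ hl
    by_cases h : F l
    · rw [if_pos h, Q.ρ_smul, Q.ρ_C, if_neg (Ne.symm hl), smul_zero]
    · rw [if_neg h, map_zero]
  · intro h; exact absurd (Finset.mem_univ m) h

/-- The `ρ 0 l (b j)` form a basis of the product of matrix algebras. -/
theorem li_zero : LinearIndependent ℂ (fun j : D.J => fun l => Q.ρ 0 l (D.b j)) := by
  have hspan : Submodule.span ℂ (Set.range (fun j : D.J => fun l => Q.ρ 0 l (D.b j))) = ⊤ := by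
    rw [eq_top_iff, ← Q.span0, Submodule.span_le]
    rintro _ ⟨h, rfl⟩
    have : (fun l => Q.ρ 0 l h) = ∑ j, evL Z M 0 (D.b.repr h j) • (fun l => Q.ρ 0 l (D.b j)) := by
      funext l
      rw [Finset.sum_apply]
      conv_lhs => rw [← D.b.sum_repr h, map_sum]
      refine Finset.sum_congr rfl fun j _ => ?_
      rw [Q.ρ_smul]
      rfl
    rw [SetLike.mem_coe]
    show (fun l => Q.ρ 0 l h) ∈ _
    rw [this]
    exact Submodule.sum_mem _ fun j _ => Submodule.smul_mem _ _
      (Submodule.subset_span ⟨j, rfl⟩)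
  apply linearIndependent_of_top_le_span_of_card_eq_finrank hspan.ge
  rw [Module.finrank_pi_fintype, ← D.card]
  refine Finset.sum_congr rfl fun l _ => ?_
  rw [Module.finrank_matrix]
  simp [sq]

include Q in
theorem s_zero_ne (l : D.Λ) : evL Z M 0 (D.s l) ≠ 0 := by
  intro h0
  have h1 : ∀ m, Q.ρ 0 m (D.C l) = 0 := by
    intro m
    rw [Q.ρ_C]
    split_ifs with h
    · rw [h0, zero_smul]
    · rfl
  have h2 : ∑ j, evL Z M 0 (D.X l (D.b' j)) • (fun m => Q.ρ 0 m (D.b j)) = 0 := by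
    funext m
    rw [Finset.sum_apply]
    have := h1 m
    rw [HData.C, map_sum] at this
    simp only [Q.ρ_smul] at this
    exact this
  have h3 := Fintype.linearIndependent_iff.1 Q.li_zero _ h2
  have h4 : evL Z M 0 (D.X l 1) = 0 := by
    have h5 : D.X l 1 = ∑ j, D.X l (D.b' j) * D.τ (D.b j) := by
      have := D.τ_C l 1
      rw [mul_one, HData.C, map_sum] at this
      rw [← this]
      refine Finset.sum_congr rfl fun j _ => ?_
      rw [map_smul, smul_eq_mul]
    rw [h5, map_sum]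
    refine Finset.sum_eq_zero fun j _ => ?_
    rw [map_mul, h3 j, zero_mul]
  rw [D.X_one, map_natCast] at h4
  exact absurd h4 (by exact_mod_cast (D.d_pos l).ne')

theorem coord (κ : ι → ℂ) (γ : D.J → ℂ) (i : D.J) : evL Z M κ D.S * γ i =
    ∑ l, evL Z M κ (∏ m ∈ Finset.univ.erase l, D.s m) *
      ((∑ j, γ j • Q.ρ κ l (D.b j)) * Q.ρ κ l (D.b' i)).trace := by
  have h1 : ∀ j, γ j * evL Z M κ (if j = i then D.S else 0) = ∑ l,
      evL Z M κ (∏ m ∈ Finset.univ.erase l, D.s m) *
        (γ j * (Q.ρ κ l (D.b j) * Q.ρ κ l (D.b' i)).trace) := by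
    intro j
    rw [D.schur_dual i j, map_sum, Finset.mul_sum]
    refine Finset.sum_congr rfl fun l _ => ?_
    rw [map_mul, ← Q.tr, map_mul]
    ring
  have h2 : evL Z M κ D.S * γ i = ∑ j, γ j * evL Z M κ (if j = i then D.S else 0) := by
    rw [Finset.sum_eq_single i]
    · rw [if_pos rfl, mul_comm]
    · intro j _ hj
      rw [if_neg hj, map_zero, mul_zero]
    · intro h; exact absurd (Finset.mem_univ i) h
  rw [h2, Finset.sum_congr rfl fun j _ => h1 j, Finset.sum_comm]
  refine Finset.sum_congr rfl fun l _ => ?_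
  rw [← Finset.mul_sum]
  congr 1
  rw [Finset.sum_mul, Matrix.trace_sum]
  refine Finset.sum_congr rfl fun j _ => ?_
  rw [smul_mul_assoc, Matrix.trace_smul, smul_eq_mul]

theorem ρ_algebraMap (κ : ι → ℂ) (l : D.Λ) (a : Lau Z ι) :
    Q.ρ κ l (algebraMap (Lau Z ι) D.H a) = evL Z M κ a • 1 := by
  rw [Algebra.algebraMap_eq_smul_one, Q.ρ_smul, map_one]

theorem ρ_aeval (κ : ι → ℂ) (l : D.Λ) (q : Polynomial (Lau Z ι)) :
    Q.ρ κ l (Polynomial.aeval Q.π q) =
      (q.eval₂ (evL Z M κ) (evL Z M κ (mon (Q.a l)))) •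
        (1 : Matrix (Fin (D.d l)) (Fin (D.d l)) ℂ) := by
  induction q using Polynomial.induction_on' with
  | add p q hp hq =>
    rw [map_add, map_add, hp, hq, Polynomial.eval₂_add, add_smul]
  | monomial n a =>
    rw [Polynomial.aeval_monomial, map_mul, map_pow, Q.ρπ, Q.ρ_algebraMap,
      Polynomial.eval₂_monomial, _root_.smul_pow, one_pow, smul_mul_smul_comm, mul_one]

theorem ρ_XF (F : D.Λ → Prop) [DecidablePred F] (hF : ∀ l m, Q.a l = Q.a m → (F l ↔ F m))
    (κ : ι → ℂ) (l : D.Λ) :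
    Q.ρ κ l (Q.XF F) = if F l then evL Z M κ Q.Bden • 1 else 0 := by
  classical
  have hT : Q.a l ∈ Q.T := Finset.mem_image_of_mem _ (Finset.mem_univ l)
  rw [XF, map_sum, Finset.sum_eq_single (Q.a l)]
  · by_cases h : F l
    · rw [if_pos ⟨l, rfl, h⟩, if_pos h, Q.ρ_smul, Q.ρ_aeval, Polynomial.eval₂_finsetProd,
        smul_smul]
      congr 1
      rw [Bden, ← Finset.prod_erase_mul _ _ hT, map_mul, P, map_prod]
      congr 1
      rw [map_prod]
      refine Finset.prod_congr rfl fun a' _ => ?_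
      simp
    · rw [if_neg, if_neg h, map_zero]
      rintro ⟨m, hm, hm'⟩
      exact h ((hF m l hm).1 hm')
  · intro a ha hal
    split_ifs with h
    · have hz : (∏ a' ∈ Q.T.erase a, Polynomial.eval₂ (evL Z M κ) (evL Z M κ (mon (Q.a l)))
          (Polynomial.X - Polynomial.C (mon a' : Lau Z ι))) = 0 :=
        Finset.prod_eq_zero (i := Q.a l) (Finset.mem_erase.2 ⟨Ne.symm hal, hT⟩) (by simp)
      rw [Q.ρ_smul, Q.ρ_aeval, Polynomial.eval₂_finsetProd, hz, zero_smul, smul_zero]
    · rw [map_zero]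
  · intro h; exact absurd hT h

theorem S_XF (hinj : Function.Injective (algebraMap Z ℂ)) (hM : 0 < M) (F : D.Λ → Prop) [DecidablePred F]
    (hF : ∀ l m, Q.a l = Q.a m → (F l ↔ F m)) : D.S • Q.XF F = Q.Bden • D.CF F := by
  rw [← sub_eq_zero]
  apply Q.ρ_inj hinj hM
  intro κ l
  rw [map_sub, Q.ρ_smul, Q.ρ_smul, Q.ρ_XF F hF, Q.ρ_CF]
  split_ifs
  · rw [smul_smul, smul_smul, mul_comm, sub_self]
  · simp

end KZData

end

end Pool.Agent.CMF
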