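import Pool.Agent.CMF.Pres
import Pool.Agent.CMF.I2
import Pool.Agent.CMF.G5

/-! Project CMF (MP_4af2a6_al), glue G7b (helper93): the exponents of the full twist are
integral (freeness of the Hecke algebra at integral parameters). -/

set_option linter.unusedSectionVars false

namespace Pool.Agent.CMF

open Matrix

noncomputable section

section exps

variable {Z : Type} [CommRing Z] {ι : Type}

/-- Freeness: an element killed by a spanning family of representations over `ev` is killed by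
every representation over `ev`. -/
theorem killed_of_span (D : HData Z ι) (ev : Lau Z ι →+* ℂ)
    (φ : ∀ l : D.Λ, D.H →+* Matrix (Fin (D.d l)) (Fin (D.d l)) ℂ)
    (hφ : ∀ l a h, φ l (a • h) = ev a • φ l h)
    (hs : Submodule.span ℂ (Set.range fun h : D.H => fun l => φ l h) = ⊤)
    (x : D.H) (hx : ∀ l, φ l x = 0) {m : Type} [Fintype m] [DecidableEq m]
    (ψ : D.H →+* Matrix m m ℂ) (hψ : ∀ a h, ψ (a • h) = ev a • ψ h) : ψ x = 0 := by
  classical
  have hexp : ∀ h : D.H, h = ∑ j, D.b.repr h j • D.b j := fun h => (D.b.sum_repr h).symm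
  have hφs : ∀ h : D.H, (fun l => φ l h) = ∑ j, ev (D.b.repr h j) • (fun l => φ l (D.b j)) := by
    intro h
    funext l
    rw [Finset.sum_apply]
    conv_lhs => rw [hexp h]
    rw [map_sum]
    refine Finset.sum_congr rfl fun j _ => ?_
    rw [hφ]; rfl
  have hspan : ⊤ ≤ Submodule.span ℂ (Set.range fun j => fun l => φ l (D.b j)) := by
    rw [← hs]
    apply Submodule.span_le.2
    rintro _ ⟨h, rfl⟩
    simp only [SetLike.mem_coe]
    rw [hφs h]
    exact Submodule.sum_mem _ fun j _ => Submodule.smul_mem _ _ (Submodule.subset_span ⟨j, rfl⟩)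
  have hcard : Fintype.card D.J =
      Module.finrank ℂ (∀ l : D.Λ, Matrix (Fin (D.d l)) (Fin (D.d l)) ℂ) := by
    rw [Module.finrank_pi_fintype, ← D.card]
    refine Finset.sum_congr rfl fun l _ => ?_
    rw [Module.finrank_matrix]
    simp [sq]
  have hli := linearIndependent_of_top_le_span_of_card_eq_finrank hspan hcard
  have h0 : ∑ j, ev (D.b.repr x j) • (fun l => φ l (D.b j)) = 0 := by
    rw [← hφs x]
    funext l
    exact hx l
  have h1 := Fintype.linearIndependent_iff.1 hli _ h0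
  rw [hexp x, map_sum]
  refine Finset.sum_eq_zero fun j _ => ?_
  rw [hψ, h1 j, zero_smul]

variable [Fintype ι] [IsDomain Z] [Algebra Z ℂ]

/-- The full twist acts through a monomial. -/
theorem exists_exponents (D : HData Z ι) {M : ℕ} (hM : 0 < M)
    (ρ : (ι → ℂ) → ∀ l, D.H →+* Matrix (Fin (D.d l)) (Fin (D.d l)) ℂ)
    (hsmul : ∀ κ l a h, ρ κ l (a • h) = evL Z M κ a • ρ κ l h)
    (π : D.H) (c : D.Λ → ι → ℂ)
    (hπ : ∀ κ l, ρ κ l π = Complex.exp (-(2 * Real.pi * Complex.I) * ∑ i, c l i * κ i) •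
      (1 : Matrix (Fin (D.d l)) (Fin (D.d l)) ℂ))
    (φ : (ι → ℤ) → ∀ l, D.H →+* Matrix (Fin (D.d l)) (Fin (D.d l)) ℂ)
    (hφ : ∀ e l a h, φ e l (a • h) = evL Z M (fun i => (e i : ℂ)) a • φ e l h)
    (hs : ∀ e, Submodule.span ℂ (Set.range fun h : D.H => fun l => φ e l h) = ⊤)
    (hφπ : ∀ e l, φ e l π = 1) :
    ∃ a : D.Λ → (ι →₀ ℤ), (∀ l i, ((a l i : ℤ) : ℂ) = M * c l i) ∧
      ∀ κ l, ρ κ l π = evL Z M κ (mon (a l)) • (1 : Matrix (Fin (D.d l)) (Fin (D.d l)) ℂ) := by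
  classical
  have hone : ∀ (e : ι → ℤ) l, ρ (fun i => (e i : ℂ)) l π = 1 := by
    intro e l
    have h1 := killed_of_span D (evL Z M (fun i => (e i : ℂ))) (φ e) (hφ e) (hs e) (π - 1)
      (fun l => by rw [map_sub, hφπ, map_one, sub_self]) (ρ (fun i => (e i : ℂ)) l)
      (hsmul _ l)
    rw [map_sub, map_one, sub_eq_zero] at h1
    exact h1
  have hint : ∀ l i, ∃ n : ℤ, c l i = n := by
    intro l i
    have h1 := hone (Pi.single i 1) l
    rw [hπ] at h1
    have h2 : ∑ j, c l j * (((Pi.single i 1 : ι → ℤ) j : ℤ) : ℂ) = c l i := by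
      rw [Finset.sum_eq_single i]
      · simp
      · intro j _ hj
        simp [Pi.single_eq_of_ne hj]
      · simp
    rw [h2] at h1
    have h3 := congrFun (congrFun h1 ⟨0, D.d_pos l⟩) ⟨0, D.d_pos l⟩
    simp only [Matrix.smul_apply, Matrix.one_apply_eq, smul_eq_mul, mul_one] at h3
    rw [Complex.exp_eq_one_iff] at h3
    obtain ⟨n, hn⟩ := h3
    refine ⟨-n, ?_⟩
    have h4 : (2 * Real.pi * Complex.I : ℂ) ≠ 0 := by
      simp [Real.pi_ne_zero, Complex.I_ne_zero]
    have h5 : (2 * Real.pi * Complex.I : ℂ) * c l i = (2 * Real.pi * Complex.I : ℂ) * ((-n : ℤ) : ℂ) := by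
      push_cast
      linear_combination -hn
    exact mul_left_cancel₀ h4 h5
  choose n hn using hint
  refine ⟨fun l => Finsupp.equivFunOnFinite.symm fun i => (M : ℤ) * n l i, ?_, ?_⟩
  · intro l i
    rw [hn]
    simp
  · intro κ l
    rw [hπ, evL_mon, pairC_eq_sum]
    congr 2
    have hM' : (M : ℂ) ≠ 0 := by exact_mod_cast hM.ne'
    have h1 : ∑ i, ((Finsupp.equivFunOnFinite.symm (fun i => (M : ℤ) * n l i) i : ℤ) : ℂ) * κ i =
        M * ∑ i, c l i * κ i := by
      rw [Finset.mul_sum]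
      refine Finset.sum_congr rfl fun i _ => ?_
      rw [hn]
      simp [mul_assoc]
    rw [h1]
    field_simp

end exps

section lift

open Pool.Agent.CMFP

variable {G : Type} [Group G] {n : ℕ} (Z : Type) [CommRing Z] [Algebra Z ℂ]
  (V : G → Matrix (Fin n) (Fin n) ℂ) (v₀ : Fin n → ℂ) {R : Type} [CommRing R] [Algebra Z R]
  (u : Idx V → R) {A : Type} [Ring A] [Algebra ℂ A] (ev : R →+* ℂ)

/-- Ring homomorphisms out of the Hecke algebra, semilinear over `ev`. -/
theorem exists_lift (f : BP V v₀ → A) (hh : ∀ a b, Homot a b → f a = f b)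
    (h1 : ∀ a, a.g = 1 → (∀ t ∈ Set.Icc (0 : ℝ) 1, a.f t = v₀) → f a = 1)
    (hm : ∀ a b c : BP V v₀, c.g = a.g * b.g →
      (∀ t ∈ Set.Icc (0 : ℝ) (1 / 2), c.f t = a.f (2 * t)) →
      (∀ t ∈ Set.Icc (1 / 2 : ℝ) 1, c.f t = V a.g *ᵥ b.f (2 * t - 1)) → f c = f a * f b)
    (hk : ∀ (b : BP V v₀) (hs : CMFP.IsRefl V b.g), CMFP.IsBraidRefl b → ∀ ζ : Z,
      algebraMap Z ℂ ζ = rot V b.g 1 →
      ((List.range (ordH V b.g)).map fun j : ℕ => f b - algebraMap ℂ A
        (ev (algebraMap Z R ζ) ^ j * ev (u (CMFP.idx V b.g hs (j : ℤ))) ^ mu Z)).prod = 0) :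
    ∃ φ : Hk Z V v₀ u →+* A, (∀ (a : R) h, φ (a • h) = ev a • φ h) ∧ ∀ b, φ (hT Z u b) = f b := by
  let alg : Algebra R A := RingHom.toAlgebra' ((algebraMap ℂ A).comp ev)
    (fun c x => Algebra.commutes (ev c) x)
  have hmap : ∀ r : R, algebraMap R A r = algebraMap ℂ A (ev r) := fun r => rfl
  let φ₀ : FreeAlgebra R (BP V v₀) →ₐ[R] A := FreeAlgebra.lift R f
  have hι : ∀ b, φ₀ (FreeAlgebra.ι R b) = f b := fun b => FreeAlgebra.lift_ι_apply f b
  have hrel : ∀ ⦃x y⦄, HkRel Z V v₀ u x y → φ₀ x = φ₀ y := by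
    intro x y h
    induction h with
    | homot a b h => rw [hι, hι]; exact hh a b h
    | one a hg h => rw [hι, map_one]; exact h1 a hg h
    | mul a b c hg h1 h2 => rw [map_mul, hι, hι, hι]; exact hm a b c hg h1 h2
    | hecke b hs hb ζ hζ =>
      rw [map_list_prod, List.map_map, map_zero]
      rw [← hk b hs hb ζ hζ]
      congr 1
      apply List.map_congr_left
      intro j _
      simp only [Function.comp_apply, map_sub, hι, AlgHom.commutes, hmap, map_mul, map_pow]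
  let φ₁ : Hk Z V v₀ u →ₐ[R] A := RingQuot.liftAlgHom R ⟨φ₀, hrel⟩
  have hφ₁ : ∀ x, φ₁ (RingQuot.mkAlgHom R (HkRel Z V v₀ u) x) = φ₀ x := fun x =>
    RingQuot.liftAlgHom_mkAlgHom_apply R φ₀ hrel x
  refine ⟨φ₁.toRingHom, ?_, ?_⟩
  · intro a h
    have h2 : φ₁ (a • h) = a • φ₁ h := map_smul φ₁ a h
    have h3 : a • φ₁ h = ev a • φ₁ h := by
      rw [Algebra.smul_def, Algebra.smul_def, hmap]
    exact h2.trans h3
  · intro b
    have h2 : hT Z u b = RingQuot.mkAlgHom R (HkRel Z V v₀ u) (FreeAlgebra.ι R b) := by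
      rw [hT, ← RingQuot.mkAlgHom_coe R]
      rfl
    show φ₁ (hT Z u b) = f b
    rw [h2, hφ₁, hι]

end lift

section integral

open Pool.Agent.CMFP

lemma list_prod_root {A : Type} [Ring A] [Algebra ℂ A] {e : ℕ} (he : 0 < e) {ζ : ℂ}
    (hζ : IsPrimitiveRoot ζ e) (T : A) (hT : T ^ e = 1) :
    ((List.range e).map fun j : ℕ => T - algebraMap ℂ A (ζ ^ j)).prod = 0 := by
  have h1 : (Polynomial.X ^ e - Polynomial.C (1 : ℂ) : Polynomial ℂ) =
      ((List.range e).map fun j : ℕ => (Polynomial.X - Polynomial.C (ζ ^ j * 1) : Polynomial ℂ)).prod :=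
    X_pow_sub_C_eq_prod hζ he (one_pow e)
  have h2 := congrArg (Polynomial.aeval T) h1
  rw [map_list_prod, List.map_map] at h2
  rw [map_sub, map_pow, Polynomial.aeval_X, Polynomial.aeval_C, hT, map_one, sub_self] at h2
  rw [h2]
  congr 1
  apply List.map_congr_left
  intro j _
  simp

variable {G : Type} [Group G] {n : ℕ} {V : G → Matrix (Fin n) (Fin n) ℂ}

lemma pow_ordH (hV : IsRep V) (s : G) : s ^ ordH V s = 1 := by
  let S : Subgroup G :=
    { carrier := {g | Fixes V s g}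
      mul_mem' := by
        intro a b ha hb v hv
        rw [hV.2, ← Matrix.mulVec_mulVec, hb v hv, ha v hv]
      one_mem' := by
        intro v _
        rw [hV.1, Matrix.one_mulVec]
      inv_mem' := by
        intro a ha v hv
        have h1 := ha v hv
        conv_lhs => rw [← h1]
        rw [Matrix.mulVec_mulVec, ← hV.2, inv_mul_cancel, hV.1, Matrix.one_mulVec] }
  have h1 : (⟨s, fun v hv => hv⟩ : S) ^ Nat.card S = 1 := pow_card_eq_one'
  exact congrArg Subtype.val h1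

lemma ordH_pos [Finite G] (s : G) : 0 < ordH V s := by
  have : Nonempty {g : G // Fixes V s g} := ⟨⟨s, fun v hv => hv⟩⟩
  exact Nat.card_pos

lemma rot_one_prim [Finite G] (s : G) : IsPrimitiveRoot (rot V s 1) (ordH V s) := by
  have h1 := Complex.isPrimitiveRoot_exp (ordH V s) (ordH_pos s).ne'
  have h2 : rot V s 1 = Complex.exp (2 * Real.pi * Complex.I / (ordH V s)) := by
    rw [rot]; simp
  rw [h2]
  exact h1

variable {v₀ : Fin n → ℂ} {Z : Type} [CommRing Z] [Algebra Z ℂ]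

lemma evL_algebraMap {ι : Type} {M : ℕ} (κ : ι → ℂ) (z : Z) :
    evL Z M κ (algebraMap Z (Laur Z ι) z) = algebraMap Z ℂ z := by
  have h1 : (algebraMap Z (Laur Z ι) z : Lau Z ι) = AddMonoidAlgebra.single 0 z := rfl
  rw [h1]
  simp [evL, expChar, AddMonoidAlgebra.lift_single, Algebra.smul_def, pair]

lemma evL_var_pow {ι : Type} {M : ℕ} (hM : 0 < M) (κ : ι → ℂ) (i : ι) :
    evL Z M κ (var Z i) ^ M = Complex.exp (-(2 * Real.pi * Complex.I) * κ i) := by
  have h1 : (var Z i : Lau Z ι) = AddMonoidAlgebra.single (Finsupp.single i 1) 1 := rfl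
  have h2 : evL Z M κ (var Z i) = Complex.exp (-(2 * Real.pi * Complex.I / M) * κ i) := by
    rw [h1]
    simp [evL, expChar, AddMonoidAlgebra.lift_single, Algebra.smul_def, pair]
  rw [h2, ← Complex.exp_nat_mul]
  congr 1
  have hM' : (M : ℂ) ≠ 0 := by exact_mod_cast hM.ne'
  field_simp

lemma exp_int_eq_one (e : ℤ) : Complex.exp (-(2 * Real.pi * Complex.I) * e) = 1 := by
  rw [Complex.exp_eq_one_iff]
  exact ⟨-e, by push_cast; ring⟩

/-- At integral parameters the Hecke algebra acts through the group. -/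
theorem exists_integral_rep [Finite G] (hV : IsRep V) (hM : 0 < mu Z) {d : ℕ}
    (ρ : G → Matrix (Fin d) (Fin d) ℂ) (hρ : IsRep ρ) (e : Idx V → ℤ) :
    ∃ φ : Hk Z V v₀ (var Z) →+* Matrix (Fin d) (Fin d) ℂ,
      (∀ (a : Laur Z (Idx V)) h, φ (a • h) = evL Z (mu Z) (fun i => (e i : ℂ)) a • φ h) ∧
      ∀ b, φ (hT Z (var Z) b) = ρ b.g := by
  refine exists_lift Z V v₀ (var Z) (evL Z (mu Z) (fun i => (e i : ℂ))) (fun b => ρ b.g)
    ?_ ?_ ?_ ?_
  · intro a b h
    show ρ a.g = ρ b.g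
    rw [h.1]
  · intro a hg _
    show ρ a.g = 1
    rw [hg, hρ.1]
  · intro a b c hg _ _
    show ρ c.g = ρ a.g * ρ b.g
    rw [hg, hρ.2]
  · intro b hs hb ζ hζ
    have hpow : ∀ m : ℕ, ρ b.g ^ m = ρ (b.g ^ m) := by
      intro m
      induction m with
      | zero => simp [hρ.1]
      | succ m ih => rw [pow_succ, ih, pow_succ, hρ.2]
    have h1 := list_prod_root (A := Matrix (Fin d) (Fin d) ℂ) (ordH_pos (V := V) b.g)
      (rot_one_prim b.g) (ρ b.g) (by rw [hpow, pow_ordH hV, hρ.1])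
    rw [← h1]
    congr 1
    apply List.map_congr_left
    intro j _
    have key : ∀ x y : ℂ, x = rot V b.g 1 → y ^ mu Z = 1 →
        x ^ j * y ^ mu Z = rot V b.g 1 ^ j := by
      rintro x y rfl h
      rw [h, mul_one]
    exact congrArg (fun z => ρ b.g - algebraMap ℂ (Matrix (Fin d) (Fin d) ℂ) z)
      (key _ _ ((evL_algebraMap _ ζ).trans hζ)
        ((evL_var_pow hM _ _).trans (exp_int_eq_one _)))

/-- The twist acts through monomials: the hypotheses are the ones produced by the KZ side. -/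
theorem exists_twist [Fintype G] [IsDomain Z] [Fintype (Idx V)] (hV : IsRep V) (hM : 0 < mu Z)
    {Λ : Type} [Fintype Λ] {d : Λ → ℕ} (ρ : ∀ l, G → Matrix (Fin (d l)) (Fin (d l)) ℂ)
    (hρ : IsIrrFam d ρ) {N : ℕ} (D : Std (Laur Z (Idx V)) (Hk Z V v₀ (var Z)) N d)
    (hb : ∀ g : G, ∃ b : BP V v₀, b.g = g)
    (P : (Idx V → ℂ) → ∀ l, Hk Z V v₀ (var Z) →+* Matrix (Fin (d l)) (Fin (d l)) ℂ)
    (hP : ∀ κ l (a : Laur Z (Idx V)) h, P κ l (a • h) = evL Z (mu Z) κ a • P κ l h)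
    (p : BP V v₀) (hp : p.g = 1) (c : Λ → Idx V → ℂ)
    (hc : ∀ κ l, P κ l (hT Z (var Z) p) =
      Complex.exp (-(2 * Real.pi * Complex.I) * ∑ i, c l i * κ i) •
        (1 : Matrix (Fin (d l)) (Fin (d l)) ℂ)) :
    ∃ a : Λ → (Idx V →₀ ℤ), (∀ l i, ((a l i : ℤ) : ℂ) = mu Z * c l i) ∧
      ∀ κ l, P κ l (hT Z (var Z) p) =
        evL Z (mu Z) κ (mon (a l)) • (1 : Matrix (Fin (d l)) (Fin (d l)) ℂ) := by
  classical
  choose φ hφ hφb using fun (e : Idx V → ℤ) (l : Λ) =>
    exists_integral_rep (v₀ := v₀) (Z := Z) hV hM (ρ l) (hρ.1 l).2 e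
  have hspan : ∀ e, Submodule.span ℂ (Set.range fun (h : Hk Z V v₀ (var Z)) =>
      fun l => φ e l h) = ⊤ := by
    intro e
    rw [eq_top_iff]
    intro x _
    obtain ⟨α, rfl⟩ := hρ.2.2 x
    have h1 : (fun l => ∑ g, α g • ρ l g) = ∑ g, α g • (fun l => ρ l g) := by
      funext l
      rw [Finset.sum_apply]
      rfl
    show (fun l => ∑ g, α g • ρ l g) ∈ _
    rw [h1]
    refine Submodule.sum_mem _ fun g _ => Submodule.smul_mem _ _ ?_
    obtain ⟨b, hb⟩ := hb g
    refine Submodule.subset_span ⟨hT Z (var Z) b, ?_⟩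
    funext l
    show φ e l (hT Z (var Z) b) = ρ l g
    rw [hφb, hb]
  exact exists_exponents (stdHData D (fun l => (hρ.1 l).1)) hM P hP (hT Z (var Z) p) c hc φ hφ
    hspan (fun e l => (hφb e l p).trans ((congrArg (ρ l) hp).trans (hρ.1 l).2.1))

end integral

end

end Pool.Agent.CMF
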