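import Mathlib

/-! Project CMF (MP_4af2a6_al): the definitions used in the final statement. -/

namespace Pool.Agent.CMFP

open Matrix

noncomputable section

/-! ### Reflections and parameters -/

section Par

variable {K : Type} [Field K] {G : Type} [Group G] {n : ℕ}

/-- `ρ` is a matrix representation of the group `G`. -/
def IsRep (ρ : G → Matrix (Fin n) (Fin n) K) : Prop :=
  ρ 1 = 1 ∧ ∀ g h, ρ (g * h) = ρ g * ρ h

/-- A complete family of irreducible representations of the finite group `G`: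
`KG → Π_l M_{d_l}(K)` is bijective. -/
def IsIrrFam [Fintype G] {Λ : Type} (d : Λ → ℕ) (ρ : ∀ l, G → Matrix (Fin (d l)) (Fin (d l)) K) :
    Prop :=
  (∀ l, 0 < d l ∧ IsRep (ρ l)) ∧
    Function.Bijective (fun (a : G → K) (l : Λ) => ∑ g, a g • ρ l g)

/-- `s` acts as a reflection. -/
def IsRefl (V : G → Matrix (Fin n) (Fin n) K) (s : G) : Prop := (V s - 1).rank = 1

/-- `V` is a faithful irreducible representation, and its reflections generate `G`. -/
def IsReflGroup (V : G → Matrix (Fin n) (Fin n) K) : Prop :=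
  IsRep V ∧ Function.Injective V ∧ Subgroup.closure {s | IsRefl V s} = ⊤ ∧
    ∀ v, v ≠ 0 → Submodule.span K (Set.range fun g => V g *ᵥ v) = ⊤

/-- `g` fixes all the fixed points of `s`. -/
def Fixes (V : G → Matrix (Fin n) (Fin n) K) (s g : G) : Prop :=
  ∀ v, V s *ᵥ v = v → V g *ᵥ v = v

/-- The order `e` of the pointwise stabiliser of the reflecting hyperplane of `s`. -/
def ordH (V : G → Matrix (Fin n) (Fin n) K) (s : G) : ℕ := Nat.card {g : G // Fixes V s g}

/-- `(s,i)` and `(t,j)` define the same index `(Ω, j)`: the hyperplanes of `s` and `t` are in one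
orbit, and `i ≡ j` modulo `e`. -/
def IdxRel (V : G → Matrix (Fin n) (Fin n) K) (a b : {s : G // IsRefl V s} × ℤ) : Prop :=
  (∃ g : G, Fixes V b.1.1 (g * a.1.1 * g⁻¹)) ∧ (ordH V a.1.1 : ℤ) ∣ b.2 - a.2

/-- The index set of the parameters `k_{Ω,j}`. -/
def Idx (V : G → Matrix (Fin n) (Fin n) K) : Type := Quot (IdxRel V)

/-- The index `(Ω, j)`, `Ω` the orbit of the hyperplane of the reflection `s`. -/
def idx (V : G → Matrix (Fin n) (Fin n) K) (s : G) (hs : IsRefl V s) (j : ℤ) : Idx V :=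
  Quot.mk _ (⟨s, hs⟩, j)

/-- `c_k(s) = Σ_j det(s)^j (k_{Ω,j+1} - k_{Ω,j})` for a reflection `s`, and `0` otherwise; `V` is
the reflection representation over `K`, and the parameters are indexed by means of a form `W` of it
over a field `L`. -/
def cPar {L : Type} [Field L] (W : G → Matrix (Fin n) (Fin n) L)
    (V : G → Matrix (Fin n) (Fin n) K) (k : Idx W → K) (s : G) : K :=
  open Classical in if hs : IsRefl W s then
    ∑ j ∈ Finset.range (ordH W s), (V s).det ^ j * (k (idx W s hs (j + 1)) - k (idx W s hs j))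
  else 0

end Par

/-! ### The restricted rational Cherednik algebra at `t = 0` -/

section CM

/-- Letters: coordinate functions `x_i`, basis vectors `y_i`, group elements. -/
inductive Gen (n : ℕ) (G : Type) : Type
  | X (i : Fin n) : Gen n G
  | Y (i : Fin n) : Gen n G
  | T (g : G) : Gen n G

variable {K : Type} [Field K] {G : Type} [Group G] {n : ℕ}

/-- The letters as elements of the free algebra. -/
def gX (i : Fin n) : FreeAlgebra K (Gen n G) := FreeAlgebra.ι K (Gen.X i)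
@[inherit_doc gX] def gY (i : Fin n) : FreeAlgebra K (Gen n G) := FreeAlgebra.ι K (Gen.Y i)
@[inherit_doc gX] def gT (g : G) : FreeAlgebra K (Gen n G) := FreeAlgebra.ι K (Gen.T g)

/-- The value of a polynomial at elements `a_i` of an algebra (ordered monomials). -/
def evP {A : Type} [Ring A] [Algebra K A] (a : Fin n → A) (p : MvPolynomial (Fin n) K) : A :=
  p.support.sum fun m => p.coeff m • (List.ofFn fun i => a i ^ m i).prod

/-- `p` is invariant (`p(V_g x) = p(x)` for all `g`), without constant term. -/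
def IsInv (V : G → Matrix (Fin n) (Fin n) K) (p : MvPolynomial (Fin n) K) : Prop :=
  MvPolynomial.constantCoeff p = 0 ∧ ∀ g,
    MvPolynomial.bind₁ (fun i => ∑ j, MvPolynomial.C (V g i j) * MvPolynomial.X j) p = p

/-- Defining relations of `H_{0,c}` modulo the ideal generated by `K[V]^G_+` and `K[V*]^G_+`;
`[y,x] = Σ_s c(s) (y,x)_s s` with `(y,x)_s = x((1-s)y)/(1-det s)`. -/
inductive HRel [Fintype G] (V : G → Matrix (Fin n) (Fin n) K) (c : G → K) :
    FreeAlgebra K (Gen n G) → FreeAlgebra K (Gen n G) → Prop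
  | one : HRel V c (gT 1) 1
  | mul (g h : G) : HRel V c (gT (g * h)) (gT g * gT h)
  | TY (g : G) (i : Fin n) : HRel V c (gT g * gY i) ((∑ j, V g j i • gY j) * gT g)
  | TX (g : G) (i : Fin n) : HRel V c (gT g * gX i) ((∑ j, V g⁻¹ i j • gX j) * gT g)
  | XX (i j : Fin n) : HRel V c (gX i * gX j) (gX j * gX i)
  | YY (i j : Fin n) : HRel V c (gY i * gY j) (gY j * gY i)
  | YX (i j : Fin n) : HRel V c (gY i * gX j)
      (gX j * gY i + ∑ s : G, (c s * ((1 - V s) j i / (1 - (V s).det))) • gT s)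
  | invX (p : MvPolynomial (Fin n) K) (hp : IsInv V p) : HRel V c (evP gX p) 0
  | invY (p : MvPolynomial (Fin n) K) (hp : IsInv (fun g => (V g)ᵀ) p) : HRel V c (evP gY p) 0

/-- The restricted rational Cherednik algebra `H̄_c`. -/
def Hbar [Fintype G] (V : G → Matrix (Fin n) (Fin n) K) (c : G → K) : Type := RingQuot (HRel V c)

instance [Fintype G] (V : G → Matrix (Fin n) (Fin n) K) (c : G → K) : Ring (Hbar V c) :=
  RingQuot.instRing (HRel V c)

/-- The quotient map. -/
def toH [Fintype G] (V : G → Matrix (Fin n) (Fin n) K) (c : G → K) :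
    FreeAlgebra K (Gen n G) →+* Hbar V c := RingQuot.mkRingHom (HRel V c)

/-- `p_ρ = (d/|G|) Σ_g tr ρ(g⁻¹) g`. -/
def pRep [Fintype G] (V : G → Matrix (Fin n) (Fin n) K) (c : G → K) {d : ℕ}
    (ρ : G → Matrix (Fin d) (Fin d) K) : Hbar V c :=
  toH V c (∑ g : G, ((d : K) / (Fintype.card G : K) * (ρ g⁻¹).trace) • gT g)

/-- The left ideal `J` generated by `V`.  `(H̄/J) p_ρ` is a sum of copies of the Verma module
`Δ(ρ)`. -/
def leftY [Fintype G] (V : G → Matrix (Fin n) (Fin n) K) (c : G → K) : Ideal (Hbar V c) :=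
  Ideal.span (Set.range fun i => toH V c (gY i))

/-- `ρ` and `σ` lie in different Calogero-Moser families: some central idempotent of `H̄_c` acts
as `1` on the Verma module of `ρ` and as `0` on that of `σ`. -/
def CMSep [Fintype G] (V : G → Matrix (Fin n) (Fin n) K) (c : G → K) {d d' : ℕ}
    (ρ : G → Matrix (Fin d) (Fin d) K) (σ : G → Matrix (Fin d') (Fin d') K) : Prop :=
  ∃ e : Hbar V c, e * e = e ∧ (∀ a, e * a = a * e) ∧
    e * pRep V c ρ - pRep V c ρ ∈ leftY V c ∧ e * pRep V c σ ∈ leftY V c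

end CM

/-! ### Braid group and generic Hecke algebra -/

section Hecke

variable {G : Type} [Group G] {n : ℕ}

/-- `v` lies on no reflecting hyperplane. -/
def Reg (V : G → Matrix (Fin n) (Fin n) ℂ) (v : Fin n → ℂ) : Prop :=
  ∀ s, IsRefl V s → V s *ᵥ v ≠ v

/-- A pair `(g, f)`, `f` a path in `V^reg` from `v₀` to `g v₀`: its image in `V^reg/G` is a loop,
and the braid group is the group of homotopy classes of such pairs. -/
structure BP (V : G → Matrix (Fin n) (Fin n) ℂ) (v₀ : Fin n → ℂ) where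
  g : G
  f : ℝ → Fin n → ℂ
  cont : ContinuousOn f (Set.Icc 0 1)
  reg : ∀ t ∈ Set.Icc (0 : ℝ) 1, Reg V (f t)
  start : f 0 = v₀
  stop : f 1 = V g *ᵥ v₀

variable {V : G → Matrix (Fin n) (Fin n) ℂ} {v₀ : Fin n → ℂ}

/-- Homotopy of pairs, with fixed end points. -/
def Homot (a b : BP V v₀) : Prop :=
  a.g = b.g ∧ ∃ F : ℝ × ℝ → Fin n → ℂ, ContinuousOn F (Set.Icc 0 1) ∧
    (∀ p ∈ Set.Icc (0 : ℝ × ℝ) 1, Reg V (F p)) ∧
    ∀ t ∈ Set.Icc (0 : ℝ) 1, F (0, t) = a.f t ∧ F (1, t) = b.f t ∧ F (t, 0) = v₀ ∧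
      F (t, 1) = V a.g *ᵥ v₀

/-- `exp(2πi t/e)`, `e` the order attached to `s`. -/
def rot (V : G → Matrix (Fin n) (Fin n) ℂ) (s : G) (t : ℝ) : ℂ :=
  Complex.exp (2 * Real.pi * Complex.I * t / ordH V s)

/-- `b` is a braid reflection: `s = b.g` is a distinguished reflection (`det s = exp(2πi/e)`), and
the path consists of a path from `v₀` to a point `h + ν`, the arc `h + exp(2πiu/e) ν`, and the image
under `s` of the first part reversed; here `h` is fixed by `s`, `s ν = det(s) ν`, and no other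
reflecting hyperplane meets the disc `{h + zν : |z| ≤ 1}`. -/
def IsBraidRefl (b : BP V v₀) : Prop :=
  (V b.g).det = rot V b.g 1 ∧ ∃ h ν : Fin n → ℂ, V b.g *ᵥ h = h ∧ V b.g *ᵥ ν = rot V b.g 1 • ν ∧
    (∀ z : ℂ, ‖z‖ ≤ 1 → ∀ s, IsRefl V s → V s *ᵥ (h + z • ν) = h + z • ν →
      z = 0 ∧ Fixes V b.g s) ∧
    (∀ t ∈ Set.Icc (1 / 4 : ℝ) (1 / 2), b.f t = h + rot V b.g (4 * t - 1) • ν) ∧
    ∀ t ∈ Set.Icc (1 / 2 : ℝ) 1, b.f t = V b.g *ᵥ b.f ((1 - t) / 2)

/-- The number of roots of unity. -/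
def mu (Z : Type) [CommRing Z] : ℕ := Nat.card {x : Z // ∃ j : ℕ, 0 < j ∧ x ^ j = 1}

/-- The relations of the Hecke algebra with parameters `u_{Ω,j}` in an algebra `R` over `Z`: those
of the braid group (homotopy, unit, product) and `Π_j (b - ζ_e^j u_{Ω,j}^μ) = 0` for the braid
reflections `b`; here `ζ_e = exp(2πi/e)` and `μ` is the number of roots of unity of `Z`. -/
inductive HkRel (Z : Type) [CommRing Z] [Algebra Z ℂ] (V : G → Matrix (Fin n) (Fin n) ℂ)
    (v₀ : Fin n → ℂ) {R : Type} [CommRing R] [Algebra Z R] (u : Idx V → R) :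
    FreeAlgebra R (BP V v₀) → FreeAlgebra R (BP V v₀) → Prop
  | homot (a b : BP V v₀) (h : Homot a b) : HkRel Z V v₀ u (FreeAlgebra.ι R a) (FreeAlgebra.ι R b)
  | one (a : BP V v₀) (hg : a.g = 1) (h : ∀ t ∈ Set.Icc (0 : ℝ) 1, a.f t = v₀) :
      HkRel Z V v₀ u (FreeAlgebra.ι R a) 1
  | mul (a b c : BP V v₀) (hg : c.g = a.g * b.g)
      (h1 : ∀ t ∈ Set.Icc (0 : ℝ) (1 / 2), c.f t = a.f (2 * t))
      (h2 : ∀ t ∈ Set.Icc (1 / 2 : ℝ) 1, c.f t = V a.g *ᵥ b.f (2 * t - 1)) :
      HkRel Z V v₀ u (FreeAlgebra.ι R c) (FreeAlgebra.ι R a * FreeAlgebra.ι R b)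
  | hecke (b : BP V v₀) (hs : IsRefl V b.g) (hb : IsBraidRefl b) (ζ : Z)
      (hζ : algebraMap Z ℂ ζ = rot V b.g 1) :
      HkRel Z V v₀ u ((List.range (ordH V b.g)).map fun j : ℕ => FreeAlgebra.ι R b -
        algebraMap R _ (algebraMap Z R ζ ^ j * u (idx V b.g hs (j : ℤ)) ^ mu Z)).prod 0

/-- The Hecke algebra with parameters `u`. -/
def Hk (Z : Type) [CommRing Z] [Algebra Z ℂ] (V : G → Matrix (Fin n) (Fin n) ℂ)
    (v₀ : Fin n → ℂ) {R : Type} [CommRing R] [Algebra Z R] (u : Idx V → R) : Type :=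
  RingQuot (HkRel Z V v₀ u)

variable (Z : Type) [CommRing Z] [Algebra Z ℂ] (V : G → Matrix (Fin n) (Fin n) ℂ)
    (v₀ : Fin n → ℂ) {R : Type} [CommRing R] [Algebra Z R] (u : Idx V → R)

instance : Ring (Hk Z V v₀ u) := RingQuot.instRing (HkRel Z V v₀ u)

instance : Algebra R (Hk Z V v₀ u) := RingQuot.instAlgebra (HkRel Z V v₀ u)

variable {V v₀}

/-- The element of the Hecke algebra given by a braid. -/
def hT (b : BP V v₀) : Hk Z V v₀ u := RingQuot.mkRingHom (HkRel Z V v₀ u) (FreeAlgebra.ι R b)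

variable (V v₀)

/-- Some central idempotent `ε` of the Hecke algebra has value `d` at the linear form `X` with
values `θ b` on the braids `b`, and value `0` at the one with values `θ' b`.  (For the characters
of two representations, the first one of degree `d`: they lie in different blocks.) -/
def BlockSep (θ θ' : BP V v₀ → R) (d : ℕ) : Prop :=
  ∃ (ε : Hk Z V v₀ u) (X X' : Hk Z V v₀ u →ₗ[R] R), ε * ε = ε ∧ (∀ x, ε * x = x * ε) ∧
    (∀ b, X (hT Z u b) = θ b) ∧ (∀ b, X' (hT Z u b) = θ' b) ∧ X ε = d ∧ X' ε = 0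

end Hecke

/-! ### Standard assumptions, essential hyperplanes, Rouquier families -/

section Std

/-- The standard assumptions on an algebra `H` over `A = ℤ_F[v^{±1}]`: `H` is free of rank `N`,
symmetric with symmetrising form `τ` (dual bases `b`, `b'`), and split: `Frac(A) ⊗ H` is the
product of the `M_{d_l}(Frac A)`; its irreducible characters `X_l` take values in `A`, and
`τ = Σ_l X_l / s_l` with the Schur elements `s_l`. -/
structure Std (A H : Type) [CommRing A] [IsDomain A] [Ring H] [Algebra A H] (N : ℕ)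
    {Λ : Type} [Fintype Λ] (d : Λ → ℕ) where
  b : Module.Basis (Fin N) A H
  b' : Fin N → H
  τ : H →ₗ[A] A
  symm : ∀ x y, τ (x * y) = τ (y * x)
  dual : ∀ i j, τ (b i * b' j) = if i = j then 1 else 0
  R : ∀ l, H →ₐ[A] Matrix (Fin (d l)) (Fin (d l)) (FractionRing A)
  indep : LinearIndependent (FractionRing A) (fun j l => R l (b j))
  split : Submodule.span (FractionRing A) (Set.range fun j l => R l (b j)) = ⊤
  X : Λ → H →ₗ[A] A
  trace : ∀ l h, (R l h).trace = algebraMap A (FractionRing A) (X l h)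
  s : Λ → A
  s_ne : ∀ l, s l ≠ 0
  schur : ∀ h, algebraMap A (FractionRing A) (τ h) =
    ∑ l, algebraMap A (FractionRing A) (X l h) / algebraMap A (FractionRing A) (s l)

/-- Laurent polynomials over `Z` in the variables `v_i`, `i ∈ ι`: the group ring of `ι →₀ ℤ`. -/
def Laur (Z ι : Type) [CommRing Z] : Type := AddMonoidAlgebra Z (ι →₀ ℤ)

section Laur

variable (Z ι : Type) [CommRing Z]

instance : CommRing (Laur Z ι) := AddMonoidAlgebra.commRing

instance [IsDomain Z] : IsDomain (Laur Z ι) :=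
  AddMonoidAlgebra.instIsDomainOfIsCancelAddOfUniqueSums

instance : Algebra Z (Laur Z ι) := AddMonoidAlgebra.algebra

variable {ι}

/-- The monomial `v^a`. -/
def mono (a : ι →₀ ℤ) : Laur Z ι := AddMonoidAlgebra.single a 1

/-- The variable `v_i`. -/
def var (i : ι) : Laur Z ι := mono Z (Finsupp.single i 1)

/-- The value at `v = 1`. -/
def atOne (p : Laur Z ι) : Z := AddMonoidAlgebra.lift Z Z (ι →₀ ℤ) 1 p

/-- The multiplicative set generated by the `y^n - 1`, `n ≥ 1`. -/
def yMon : Submonoid (LaurentPolynomial Z) :=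
  Submonoid.closure {p | ∃ n : ℕ, 0 < n ∧ p = LaurentPolynomial.T (n : ℤ) - 1}

/-- `O_y = Z[y^{±1}, (y^n - 1)^{-1} : n ≥ 1]`. -/
def Oy : Type := Localization (yMon Z)

instance : CommRing (Oy Z) := OreLocalization.instCommRing

instance : Algebra Z (Oy Z) := OreLocalization.instAlgebra

/-- `⟨a, κ⟩ = Σ_i a_i κ_i`. -/
def pairing {K : Type} [CommRing K] (a : ι →₀ ℤ) (κ : ι → K) : K := a.sum fun i n => (n : K) * κ i

/-- The specialisation `v_i ↦ y^{m_i}`. -/
def special (m : ι → ℤ) (p : Laur Z ι) : Oy Z :=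
  algebraMap (LaurentPolynomial Z) (Localization (yMon Z))
    (AddMonoidAlgebra.mapDomain (fun a => pairing a m) p)

end Laur

/-- `ψ` is the minimal polynomial over `F` of a root of unity. -/
def IsFCyc (F : Type) [Field F] [Algebra F ℂ] (ψ : Polynomial (NumberField.RingOfIntegers F)) :
    Prop :=
  ∃ u : ℂ, (∃ j : ℕ, 0 < j ∧ u ^ j = 1) ∧ ψ.map (algebraMap _ F) = minpoly F u

/-- The form of the Schur elements: `s_l = ξ_l v^{c_l} Π_i Ψ_{l,i}(M_{l,i})`, with `ξ_l ∈ ℤ_F`,
`F`-cyclotomic polynomials `Ψ_{l,i}` and monomials `M_{l,i} = v^{a_{l,i}}` with coprime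
exponents. -/
structure SchurForm (F : Type) [Field F] [Algebra F ℂ] {ι Λ : Type}
    (s : Λ → Laur (NumberField.RingOfIntegers F) ι) where
  ξ : Λ → NumberField.RingOfIntegers F
  c : Λ → (ι →₀ ℤ)
  r : Λ → ℕ
  Ψ : ∀ l, Fin (r l) → Polynomial (NumberField.RingOfIntegers F)
  cyc : ∀ l i, IsFCyc F (Ψ l i)
  a : ∀ l, Fin (r l) → (ι →₀ ℤ)
  coprime : ∀ l i, ∀ q : ℤ, (∀ x, q ∣ a l i x) → IsUnit q
  form : ∀ l, s l = algebraMap _ (Laur (NumberField.RingOfIntegers F) ι) (ξ l) * mono _ (c l) *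
    ∏ i, Polynomial.aeval (mono (NumberField.RingOfIntegers F) (a l i)) (Ψ l i)

/-- `m` lies on exactly the same essential hyperplanes as `κ`: the hyperplane
`Σ_x a_{l,i}(x) κ_x = 0` is essential if `Ψ_{l,i}(1)` is not a unit of `ℤ_F`. -/
def SameEssential {K : Type} [Field K] {F : Type} [Field F] [Algebra F ℂ] {ι Λ : Type}
    {s : Λ → Laur (NumberField.RingOfIntegers F) ι} (S : SchurForm F s) (κ : ι → K) (m : ι → ℤ) :
    Prop :=
  ∀ l i, ¬ IsUnit (Polynomial.eval 1 (S.Ψ l i)) →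
    (pairing (S.a l i) κ = 0 ↔ pairing (S.a l i) m = 0)

end Std

/-! ### The generic Hecke algebra of a complex reflection group -/

section Gen

variable {G : Type} [Group G] [Fintype G] {n : ℕ} {F : Type} [Field F] [Algebra F ℂ]
  {V : G → Matrix (Fin n) (Fin n) ℂ} {v₀ : Fin n → ℂ} {Λ : Type} [Fintype Λ] {d : Λ → ℕ}

/-- The generic Hecke algebra of `V` over `A = ℤ_F[v_{Ω,j}^{±1}]`, with the parameters
`v_{Ω,j}`, satisfies the standard assumptions, with irreducible characters `X_l` of degrees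
`d_l`. -/
def StdHk (F : Type) [Field F] [Algebra F ℂ] (V : G → Matrix (Fin n) (Fin n) ℂ)
    (v₀ : Fin n → ℂ) (d : Λ → ℕ) : Type :=
  Std (Laur (NumberField.RingOfIntegers F) (Idx V))
    (Hk (NumberField.RingOfIntegers F) V v₀ (var (NumberField.RingOfIntegers F)))
    (Fintype.card G) d

/-- The value of `X_l` at the braid `b`. -/
def StdHk.chi (D : StdHk F V v₀ d) (l : Λ) (b : BP V v₀) :
    Laur (NumberField.RingOfIntegers F) (Idx V) := Std.X D l (hT _ _ b)

/-- The Schur element of `X_l`. -/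
def StdHk.schurElt (D : StdHk F V v₀ d) (l : Λ) : Laur (NumberField.RingOfIntegers F) (Idx V) :=
  Std.s D l

/-- `X_l` specialises at `v = 1` to the character of `ρ_l`. -/
def StdHk.Specialises (D : StdHk F V v₀ d) (ρ : ∀ l, G → Matrix (Fin (d l)) (Fin (d l)) ℂ) :
    Prop :=
  ∀ l b, algebraMap (NumberField.RingOfIntegers F) ℂ (atOne _ (D.chi l b)) = (ρ l b.g).trace

/-- `χ` and `ψ` lie in different Rouquier families at `m`, that is, in different blocks of the
specialisation `v_i ↦ y^{m_i}` of the generic Hecke algebra over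
`O_y = ℤ_F[y^{±1}, (y^n - 1)^{-1} : n ≥ 1]`. -/
def StdHk.RouSep (D : StdHk F V v₀ d) (m : Idx V → ℤ) (χ ψ : Λ) : Prop :=
  BlockSep (NumberField.RingOfIntegers F) V v₀
    (fun i => special _ m (var (NumberField.RingOfIntegers F) i))
    (fun b => special _ m (D.chi χ b)) (fun b => special _ m (D.chi ψ b)) (d χ)

end Gen

end

end Pool.Agent.CMFP
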