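import Pool.Agent.CMF.Twist
import Pool.Agent.CMF.Pres

/-! Project CMF, G7b (KZ side): the full twist acts on the monodromy representations by
`exp(-2πi c(k))`, with `c` linear in the parameters. -/

namespace Pool.Agent.CMF

open Matrix

noncomputable section

variable {N : SG} [Fintype N] {ι : Type} [Fintype ι] [DecidableEq ι]

section Exponent

omit [Fintype N] in
lemma cf_add' (k k' : Idx N → ℂ) (H : Arr N) (w : GL (Fin 2) ℂ) :
    cf (k + k') H w = cf k H w + cf k' H w := by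
  unfold cf
  rw [← Finset.sum_add_distrib]
  refine Finset.sum_congr rfl fun j _ => ?_
  rw [Pi.add_apply, add_mul]

omit [Fintype N] in
lemma cf_smul' (a : ℂ) (k : Idx N → ℂ) (H : Arr N) (w : GL (Fin 2) ℂ) :
    cf (a • k) H w = a * cf k H w := by
  unfold cf
  rw [Finset.mul_sum]
  refine Finset.sum_congr rfl fun j _ => ?_
  rw [Pi.smul_apply, smul_eq_mul, mul_assoc]

omit [Fintype N] in
lemma cr_add' (k k' : Idx N → ℂ) (w : N) : cr (k + k') w = cr k w + cr k' w := by
  unfold cr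
  by_cases h : IsRefl w.1
  · rw [dif_pos h, dif_pos h, dif_pos h]
    exact cf_add' k k' _ _
  · rw [dif_neg h, dif_neg h, dif_neg h, add_zero]

omit [Fintype N] in
lemma cr_smul' (a : ℂ) (k : Idx N → ℂ) (w : N) : cr (a • k) w = a * cr k w := by
  unfold cr
  by_cases h : IsRefl w.1
  · rw [dif_pos h, dif_pos h]
    exact cf_smul' a k _ _
  · rw [dif_neg h, dif_neg h, mul_zero]

omit [Fintype N] in
lemma cs_add' (k k' : Idx N → ℂ) (H : Arr N) : cs (k + k') H = cs k H + cs k' H := by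
  unfold cs
  rw [← Finset.sum_add_distrib]
  rfl

omit [Fintype N] in
lemma cs_smul' (a : ℂ) (k : Idx N → ℂ) (H : Arr N) : cs (a • k) H = a * cs k H := by
  unfold cs
  rw [Finset.mul_sum]
  rfl

/-- The scalar by which `A_∞` acts: `(Σ_w cf_k(w) tr ρ(w)) / dim + Σ_H cf_k(1)`; it is linear
in `k`. -/
def cInf (ρ : N →* Matrix ι ι ℂ) : (Idx N → ℂ) →ₗ[ℂ] ℂ where
  toFun k := (∑ w : N, cr k w * (ρ w).trace) / Fintype.card ι + ∑ H : Arr N, cs k H
  map_add' k k' := by
    have h1 : (∑ w : N, cr (k + k') w * (ρ w).trace) =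
        (∑ w : N, cr k w * (ρ w).trace) + ∑ w : N, cr k' w * (ρ w).trace := by
      rw [← Finset.sum_add_distrib]
      exact Finset.sum_congr rfl fun w _ => by rw [cr_add', add_mul]
    have h2 : (∑ H : Arr N, cs (k + k') H) = (∑ H : Arr N, cs k H) + ∑ H : Arr N, cs k' H := by
      rw [← Finset.sum_add_distrib]
      exact Finset.sum_congr rfl fun H _ => cs_add' k k' H
    rw [h1, h2, add_div]
    ring
  map_smul' a k := by
    have h1 : (∑ w : N, cr (a • k) w * (ρ w).trace) =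
        a * ∑ w : N, cr k w * (ρ w).trace := by
      rw [Finset.mul_sum]
      exact Finset.sum_congr rfl fun w _ => by rw [cr_smul', mul_assoc]
    have h2 : (∑ H : Arr N, cs (a • k) H) = a * ∑ H : Arr N, cs k H := by
      rw [Finset.mul_sum]
      exact Finset.sum_congr rfl fun H _ => cs_smul' a k H
    rw [h1, h2, RingHom.id_apply, smul_eq_mul, mul_div_assoc, mul_add]

theorem cInf_apply (ρ : N →* Matrix ι ι ℂ) (k : Idx N → ℂ) : cInf ρ k =
    (∑ w : N, cr k w * (ρ w).trace) / Fintype.card ι + ∑ H : Arr N, cs k H := rfl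

/-- The same in the coordinates `κ = k ∘ sharp`. -/
def cInfS (ρ : N →* Matrix ι ι ℂ) : (Idx N → ℂ) →ₗ[ℂ] ℂ :=
  (cInf ρ).comp (LinearMap.funLeft ℂ ℂ (sharp : Idx N → Idx N))

theorem cInfS_apply (ρ : N →* Matrix ι ι ℂ) (κ : Idx N → ℂ) :
    cInfS ρ κ = cInf ρ (κ ∘ sharp) := rfl

/-- The exponent depends on the character only. -/
theorem cInf_congr {ι' : Type} [Fintype ι'] [DecidableEq ι'] (ρ : N →* Matrix ι ι ℂ)
    (ρ' : N →* Matrix ι' ι' ℂ) (h : ∀ g, (ρ g).trace = (ρ' g).trace)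
    (hc : Fintype.card ι = Fintype.card ι') : cInf ρ = cInf ρ' := by
  refine LinearMap.ext fun k => ?_
  rw [cInf_apply, cInf_apply, hc]
  congr 2
  exact Finset.sum_congr rfl fun w _ => by rw [h]

end Exponent

section Twist

variable (hN : ∃ s ∈ N, IsRefl s) {v₀ : VReg N}

open Complex in
/-- The full twist acts by the scalar `exp(-2πi c(k))`. -/
theorem KZ_piB_exp (ρ : N →* Matrix ι ι ℂ) [Nonempty ι]
    (h : Submodule.span ℂ (Set.range ρ) = ⊤) (k : Idx N → ℂ) :
    KZ hN ρ k (piB v₀) = exp (-(2 * Real.pi * I) * cInf ρ k) • (1 : Matrix ι ι ℂ) :=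
  KZ_piB hN ρ k (cInf ρ k) (Ainf_scalar ρ k h)

open Complex in
/-- The same in the coordinates `κ = k ∘ sharp`. -/
theorem KZ_piB_expS (ρ : N →* Matrix ι ι ℂ) [Nonempty ι]
    (h : Submodule.span ℂ (Set.range ρ) = ⊤) (κ : Idx N → ℂ) :
    KZ hN ρ (κ ∘ sharp) (piB v₀) =
      exp (-(2 * Real.pi * I) * cInfS ρ κ) • (1 : Matrix ι ι ℂ) :=
  KZ_piB_exp hN ρ h (κ ∘ sharp)

end Twist

section Irr

variable {G : Type} [Group G] [Fintype G] {Λ : Type} {d : Λ → ℕ}
  {ρ : ∀ l, G → Matrix (Fin (d l)) (Fin (d l)) ℂ}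

/-- Each member of a complete family of irreducible representations spans its matrix algebra. -/
theorem span_of_irrFam (hρ : CMFP.IsIrrFam d ρ) (l : Λ) :
    Submodule.span ℂ (Set.range (ρ l)) = ⊤ := by
  classical
  rw [eq_top_iff]
  intro M _
  obtain ⟨a, ha⟩ := hρ.2.2 (Pi.single l M)
  have h1 : (∑ g, a g • ρ l g) = M := by
    have h2 := congrFun ha l
    rw [Pi.single_eq_same] at h2
    exact h2
  rw [← h1]
  exact Submodule.sum_mem _ fun g _ => Submodule.smul_mem _ _ (Submodule.subset_span ⟨g, rfl⟩)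

omit [Fintype N] in
/-- The same for a representation of a group `N` identified with `G`. -/
theorem span_of_irrFam' (hρ : CMFP.IsIrrFam d ρ) (l : Λ) (e : N ≃* G)
    (ρN : N →* Matrix (Fin (d l)) (Fin (d l)) ℂ) (h : ∀ g, ρN g = ρ l (e g)) :
    Submodule.span ℂ (Set.range ρN) = ⊤ := by
  have h1 : Set.range ρN = Set.range (ρ l) := by
    ext M
    constructor
    · rintro ⟨g, rfl⟩
      exact ⟨e g, (h g).symm⟩
    · rintro ⟨g, rfl⟩
      refine ⟨e.symm g, ?_⟩
      rw [h, MulEquiv.apply_symm_apply]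
  rw [h1]
  exact span_of_irrFam hρ l

theorem nonempty_of_irrFam (hρ : CMFP.IsIrrFam d ρ) (l : Λ) : Nonempty (Fin (d l)) :=
  ⟨⟨0, (hρ.1 l).1⟩⟩

/-- The representation of `N` defined by a representation of `G`. -/
def repN {n : ℕ} {σ : G → Matrix (Fin n) (Fin n) ℂ} (hσ : CMFP.IsRep σ) (e : N ≃* G) :
    N →* Matrix (Fin n) (Fin n) ℂ where
  toFun g := σ (e g)
  map_one' := by rw [map_one, hσ.1]
  map_mul' g h := by rw [map_mul, hσ.2]

omit [Fintype N] [Fintype G] in
theorem repN_apply {n : ℕ} {σ : G → Matrix (Fin n) (Fin n) ℂ} (hσ : CMFP.IsRep σ) (e : N ≃* G)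
    (g : N) : repN hσ e g = σ (e g) := rfl

open Complex in
/-- The full twist in the monodromy representations of a complete family of irreducible
representations: `ρ_l(π) = exp(-2πi c_l(κ))`, `c_l` linear in `κ`. -/
theorem KZ_piB_irrFam (hN : ∃ s ∈ N, IsRefl s) {v₀ : VReg N} (hρ : CMFP.IsIrrFam d ρ)
    (e : N ≃* G) (ρN : ∀ l, N →* Matrix (Fin (d l)) (Fin (d l)) ℂ)
    (h : ∀ l g, ρN l g = ρ l (e g)) :
    ∃ c : Λ → ((Idx N → ℂ) →ₗ[ℂ] ℂ), ∀ l (κ : Idx N → ℂ),
      KZ hN (ρN l) (κ ∘ sharp) (piB v₀) = exp (-(2 * Real.pi * I) * c l κ) •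
        (1 : Matrix (Fin (d l)) (Fin (d l)) ℂ) := by
  refine ⟨fun l => cInfS (ρN l), fun l κ => ?_⟩
  have := nonempty_of_irrFam hρ l
  exact KZ_piB_expS hN (ρN l) (span_of_irrFam' hρ l e (ρN l) (h l)) κ

end Irr

/-! ### The full twist as a pair -/

section Pair

variable {G : Type} [Group G] {n : ℕ} {V : G → Matrix (Fin n) (Fin n) ℂ}

omit [Group G] in
lemma reg_smul {v : Fin n → ℂ} (hv : CMFP.Reg V v) {z : ℂ} (hz : z ≠ 0) :
    CMFP.Reg V (z • v) := by
  intro s hs h
  rw [Matrix.mulVec_smul] at h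
  exact hv s hs (smul_right_injective _ hz h)

open Complex in
/-- The full twist `t ↦ exp(2πit) v₀`, as a pair. -/
def piBP (hV : V 1 = 1) {v₀ : Fin n → ℂ} (hv : CMFP.Reg V v₀) : CMFP.BP V v₀ where
  g := 1
  f t := exp (2 * Real.pi * I * (t : ℝ)) • v₀
  cont := by
    refine Continuous.continuousOn ?_
    refine Continuous.smul (f := fun t : ℝ => exp (2 * Real.pi * I * (t : ℝ)))
      (g := fun _ => v₀) ?_ continuous_const
    exact Complex.continuous_exp.comp (continuous_const.mul Complex.continuous_ofReal)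
  reg t _ := reg_smul hv (Complex.exp_ne_zero _)
  start := by rw [Complex.ofReal_zero, mul_zero, Complex.exp_zero, one_smul]
  stop := by
    rw [Complex.ofReal_one, mul_one, Complex.exp_two_pi_mul_I, one_smul, hV, Matrix.one_mulVec]

end Pair

end

end Pool.Agent.CMF
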