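import Pool.Agent.CMF.Pres

/-! Project CMF, glue G3b: units and products of the pairs `(g, f)`; the braids span the Hecke
algebra. -/

namespace Pool.Agent.CMFG

open Matrix Pool.Agent

noncomputable section

namespace G3bX

section general

variable {K : Type} [Field K] {G : Type} [Group G] {n : ℕ} {V : G → Matrix (Fin n) (Fin n) K}

lemma isUnit_det (hV : CMFP.IsRep V) (g : G) : IsUnit (V g).det := by
  have h : V g * V g⁻¹ = 1 := by rw [← hV.2, mul_inv_cancel, hV.1]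
  have h2 : (V g).det * (V g⁻¹).det = 1 := by rw [← Matrix.det_mul, h, Matrix.det_one]
  exact IsUnit.of_mul_eq_one _ h2

lemma isRefl_conj (hV : CMFP.IsRep V) {s : G} (hs : CMFP.IsRefl V s) (g : G) :
    CMFP.IsRefl V (g⁻¹ * s * g) := by
  unfold CMFP.IsRefl at hs ⊢
  have h : V (g⁻¹ * s * g) - 1 = V g⁻¹ * (V s - 1) * V g := by
    rw [hV.2, hV.2, mul_sub, sub_mul, mul_one, ← hV.2 g⁻¹ g, inv_mul_cancel, hV.1]
  rw [h, Matrix.rank_mul_eq_left_of_isUnit_det _ _ (isUnit_det hV g),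
    Matrix.rank_mul_eq_right_of_isUnit_det _ _ (isUnit_det hV g⁻¹)]
  exact hs

end general

variable {G : Type} [Group G] {n : ℕ} {V : G → Matrix (Fin n) (Fin n) ℂ}

lemma reg_smul (hV : CMFP.IsRep V) {v : Fin n → ℂ} (hv : CMFP.Reg V v) (g : G) :
    CMFP.Reg V (V g *ᵥ v) := by
  intro s hs h
  refine hv (g⁻¹ * s * g) (isRefl_conj hV hs g) ?_
  rw [hV.2, hV.2, ← Matrix.mulVec_mulVec, ← Matrix.mulVec_mulVec, h, Matrix.mulVec_mulVec,
    ← hV.2, inv_mul_cancel, hV.1, Matrix.one_mulVec]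

/-- The constant pair. -/
def one (hV : CMFP.IsRep V) {v₀ : Fin n → ℂ} (hv₀ : CMFP.Reg V v₀) : CMFP.BP V v₀ where
  g := 1
  f := fun _ => v₀
  cont := continuousOn_const
  reg := fun _ _ => hv₀
  start := rfl
  stop := by rw [hV.1, Matrix.one_mulVec]

/-- The path of a product. -/
def mulf {v₀ : Fin n → ℂ} (a b : CMFP.BP V v₀) (t : ℝ) : Fin n → ℂ :=
  if t ≤ 1 / 2 then a.f (2 * t) else V a.g *ᵥ b.f (2 * t - 1)

lemma mulf_left {v₀ : Fin n → ℂ} (a b : CMFP.BP V v₀) {t : ℝ} (ht : t ∈ Set.Icc (0 : ℝ) (1 / 2)) :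
    mulf a b t = a.f (2 * t) := by
  unfold mulf
  rw [if_pos ht.2]

lemma mulf_right {v₀ : Fin n → ℂ} (a b : CMFP.BP V v₀) {t : ℝ}
    (ht : t ∈ Set.Icc (1 / 2 : ℝ) 1) : mulf a b t = V a.g *ᵥ b.f (2 * t - 1) := by
  unfold mulf
  by_cases h : t ≤ 1 / 2
  · have h2 : t = 1 / 2 := le_antisymm h ht.1
    rw [if_pos h, h2]
    have e1 : (2 : ℝ) * (1 / 2) = 1 := by norm_num
    have e2 : (2 : ℝ) * (1 / 2) - 1 = 0 := by norm_num
    rw [e2, e1, b.start, a.stop]
  · rw [if_neg h]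

lemma mulf_cont {v₀ : Fin n → ℂ} (a b : CMFP.BP V v₀) :
    ContinuousOn (mulf a b) (Set.Icc 0 1) := by
  have h1 : ContinuousOn (mulf a b) (Set.Icc 0 (1 / 2)) := by
    refine ContinuousOn.congr (f := fun t => a.f (2 * t)) ?_ fun t ht => mulf_left a b ht
    refine a.cont.comp (by fun_prop) ?_
    intro t ht
    exact ⟨by linarith [ht.1], by linarith [ht.2]⟩
  have h2 : ContinuousOn (mulf a b) (Set.Icc (1 / 2) 1) := by
    refine ContinuousOn.congr (f := fun t => V a.g *ᵥ b.f (2 * t - 1)) ?_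
      fun t ht => mulf_right a b ht
    have h3 : ContinuousOn (fun t : ℝ => b.f (2 * t - 1)) (Set.Icc (1 / 2) 1) := by
      refine b.cont.comp (by fun_prop) ?_
      intro t ht
      exact ⟨by linarith [ht.1], by linarith [ht.2]⟩
    have h4 : Continuous fun v : Fin n → ℂ => V a.g *ᵥ v := by fun_prop
    exact h4.comp_continuousOn h3
  have h3 := h1.union_of_isClosed h2 isClosed_Icc isClosed_Icc
  rwa [Set.Icc_union_Icc_eq_Icc (by norm_num) (by norm_num)] at h3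

/-- The product of two pairs. -/
def mul (hV : CMFP.IsRep V) {v₀ : Fin n → ℂ} (a b : CMFP.BP V v₀) : CMFP.BP V v₀ where
  g := a.g * b.g
  f := mulf a b
  cont := mulf_cont a b
  reg := by
    intro t ht
    by_cases h : t ≤ 1 / 2
    · rw [mulf_left a b ⟨ht.1, h⟩]
      exact a.reg _ ⟨by linarith [ht.1], by linarith⟩
    · rw [mulf_right a b ⟨(not_le.1 h).le, ht.2⟩]
      exact reg_smul hV (b.reg _ ⟨by linarith [not_le.1 h], by linarith [ht.2]⟩) _
  start := by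
    rw [mulf_left a b ⟨le_refl _, by norm_num⟩, mul_zero]
    exact a.start
  stop := by
    rw [mulf_right a b ⟨by norm_num, le_refl _⟩]
    have e : (2 : ℝ) * 1 - 1 = 1 := by norm_num
    rw [e, b.stop, Matrix.mulVec_mulVec, hV.2]

variable {v₀ : Fin n → ℂ} (Z : Type) [CommRing Z] [Algebra Z ℂ] {R : Type} [CommRing R]
  [Algebra Z R] (u : CMFP.Idx V → R)

lemma hT_one (hV : CMFP.IsRep V) (hv₀ : CMFP.Reg V v₀) :
    CMFP.hT Z u (one hV hv₀) = (1 : CMFP.Hk Z V v₀ u) := by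
  have h := RingQuot.mkRingHom_rel (CMFP.HkRel.one (Z := Z) (u := u) (one hV hv₀) rfl
    (fun _ _ => rfl))
  rw [map_one] at h
  exact h

lemma hT_mul (hV : CMFP.IsRep V) (a b : CMFP.BP V v₀) :
    CMFP.hT Z u a * CMFP.hT Z u b = (CMFP.hT Z u (mul hV a b) : CMFP.Hk Z V v₀ u) := by
  have h := RingQuot.mkRingHom_rel (CMFP.HkRel.mul (Z := Z) (u := u) a b (mul hV a b) rfl
    (fun t ht => mulf_left a b ht) (fun t ht => mulf_right a b ht))
  rw [map_mul] at h
  exact h.symm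

theorem span_hT' (hV : CMFP.IsRep V) (hv₀ : CMFP.Reg V v₀) :
    Submodule.span R (Set.range fun b : CMFP.BP V v₀ => CMFP.hT Z u b) = ⊤ := by
  rw [eq_top_iff]
  intro x _
  set S : Submodule R (CMFP.Hk Z V v₀ u) :=
    Submodule.span R (Set.range fun b : CMFP.BP V v₀ => CMFP.hT Z u b) with hS
  have hmul : ∀ x ∈ S, ∀ y ∈ S, x * y ∈ S := by
    intro x hx y hy
    refine Submodule.span_induction (p := fun x _ => x * y ∈ S) ?_ ?_ ?_ ?_ hx
    · rintro _ ⟨a, rfl⟩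
      refine Submodule.span_induction (p := fun y _ => CMFP.hT Z u a * y ∈ S) ?_ ?_ ?_ ?_ hy
      · rintro _ ⟨b, rfl⟩
        show CMFP.hT Z u a * CMFP.hT Z u b ∈ S
        rw [hT_mul Z u hV]
        exact Submodule.subset_span ⟨_, rfl⟩
      · rw [mul_zero]; exact S.zero_mem
      · intro y z _ _ h1 h2
        rw [mul_add]; exact S.add_mem h1 h2
      · intro c y _ h
        rw [mul_smul_comm]; exact S.smul_mem c h
    · rw [zero_mul]; exact S.zero_mem
    · intro x z _ _ h1 h2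
      rw [add_mul]; exact S.add_mem h1 h2
    · intro c x _ h
      rw [smul_mul_assoc]; exact S.smul_mem c h
  have key : ∀ w : FreeAlgebra R (CMFP.BP V v₀),
      (RingQuot.mkAlgHom R (CMFP.HkRel Z V v₀ u) w : CMFP.Hk Z V v₀ u) ∈ S := by
    intro w
    induction w using FreeAlgebra.induction with
    | grade0 c =>
      have h : (RingQuot.mkAlgHom R (CMFP.HkRel Z V v₀ u) (algebraMap R _ c) :
          CMFP.Hk Z V v₀ u) = c • CMFP.hT Z u (one hV hv₀) := by
        rw [hT_one, AlgHom.commutes, Algebra.smul_def, mul_one]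
        rfl
      rw [h]
      exact S.smul_mem c (Submodule.subset_span ⟨_, rfl⟩)
    | grade1 b =>
      have h : (RingQuot.mkAlgHom R (CMFP.HkRel Z V v₀ u) (FreeAlgebra.ι R b) :
          CMFP.Hk Z V v₀ u) = CMFP.hT Z u b := by
        show _ = RingQuot.mkRingHom (CMFP.HkRel Z V v₀ u) (FreeAlgebra.ι R b)
        rw [← RingQuot.mkAlgHom_coe R (CMFP.HkRel Z V v₀ u)]
        rfl
      rw [h]
      exact Submodule.subset_span ⟨_, rfl⟩
    | mul x y hx hy =>
      rw [map_mul]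
      exact hmul _ hx _ hy
    | add x y hx hy =>
      rw [map_add]
      exact S.add_mem hx hy
  obtain ⟨w, hw⟩ := RingQuot.mkAlgHom_surjective R (CMFP.HkRel Z V v₀ u) x
  have := key w
  rw [hw] at this
  exact this

end G3bX

open G3bX

variable {G : Type} [Group G] [Fintype G] {V : G → Matrix (Fin 2) (Fin 2) ℂ}

/-- Products and units exist among the pairs `(g, f)`. -/
theorem exists_one {v₀ : Fin 2 → ℂ} (hV : CMFP.IsReflGroup V) (hv₀ : CMFP.Reg V v₀) :
    ∃ a : CMFP.BP V v₀, a.g = 1 ∧ ∀ t ∈ Set.Icc (0 : ℝ) 1, a.f t = v₀ :=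
  ⟨one hV.1 hv₀, rfl, fun _ _ => rfl⟩

theorem exists_mul {v₀ : Fin 2 → ℂ} (hV : CMFP.IsReflGroup V) (a b : CMFP.BP V v₀) :
    ∃ c : CMFP.BP V v₀, c.g = a.g * b.g ∧
      (∀ t ∈ Set.Icc (0 : ℝ) (1 / 2), c.f t = a.f (2 * t)) ∧
      (∀ t ∈ Set.Icc (1 / 2 : ℝ) 1, c.f t = V a.g *ᵥ b.f (2 * t - 1)) :=
  ⟨G3bX.mul hV.1 a b, rfl, fun _ ht => mulf_left a b ht, fun _ ht => mulf_right a b ht⟩

theorem span_hT {v₀ : Fin 2 → ℂ} (hV : CMFP.IsReflGroup V) (hv₀ : CMFP.Reg V v₀)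
    (Z : Type) [CommRing Z] [Algebra Z ℂ] {R : Type} [CommRing R] [Algebra Z R]
    (u : CMFP.Idx V → R) :
    Submodule.span R (Set.range fun b : CMFP.BP V v₀ => CMFP.hT Z u b) = ⊤ :=
  span_hT' Z u hV.1 hv₀

end

end Pool.Agent.CMFG
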