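import Pool.Agent.CMF.FrameA
import Pool.Agent.CMF.DunA

/-! Project CMF (MP_4af2a6_al), glue (helper93): representations with equal Euler values for all
parameters have proportional characters on the reflections. -/

set_option linter.unusedSectionVars false

namespace Pool.Agent.CMFG

open Matrix Pool.Agent Pool.Agent.CMF Pool.Agent.CMF.DunAX Pool.Agent.CMF.FrameAX

noncomputable section

variable {N : CMF.SG} [Fintype N]

lemma pow_eH (H : CMF.Arr N) (w : GL (Fin 2) ℂ) (hw : w ∈ CMF.ptStab N H.1) :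
    w ^ CMF.eH N H.1 = 1 := by
  let S : Subgroup (GL (Fin 2) ℂ) :=
    { carrier := CMF.ptStab N H.1
      mul_mem' := by
        intro a b ha hb
        refine ⟨N.mul_mem ha.1 hb.1, fun v hv => ?_⟩
        rw [Units.val_mul, ← Matrix.mulVec_mulVec, hb.2 v hv, ha.2 v hv]
      one_mem' := ⟨N.one_mem, fun v _ => by simp⟩
      inv_mem' := by
        intro a ha
        refine ⟨N.inv_mem ha.1, fun v hv => ?_⟩
        have h1 := ha.2 v hv
        conv_lhs => rw [← h1]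
        rw [Matrix.mulVec_mulVec, ← Units.val_mul, inv_mul_cancel, Units.val_one,
          Matrix.one_mulVec] }
  have h1 : (⟨w, hw⟩ : S) ^ Nat.card S = 1 := pow_card_eq_one'
  exact congrArg Subtype.val h1

lemma det_pow_eH (H : CMF.Arr N) (w : GL (Fin 2) ℂ) (hw : w ∈ CMF.ptStab N H.1) :
    w.1.det ^ CMF.eH N H.1 = 1 := by
  have h1 := pow_eH H w hw
  have h2 := congrArg (fun u : GL (Fin 2) ℂ => u.1.det) h1
  simpa using h2

lemma refl_mem (w : N) : w.1 ∈ CMF.ptStab N (CMF.fixL w.1) :=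
  ⟨w.2, fun _ hv => mem_fixL.1 hv⟩

lemma det_ne_one (w : N) (hw : CMF.IsRefl w.1) : w.1.1.det ≠ 1 := by
  intro h
  apply hw.1
  have h1 : w = 1 := by
    refine refl_ext (⟨CMF.fixL w.1, w.1, w.2, hw, rfl⟩ : CMF.Arr N) w 1
      (fun v hv => mem_fixL.1 hv) (fun v _ => by simp) ?_
    rw [h]; simp
  exact congrArg Subtype.val h1

lemma geom_root (e : ℕ) (z : ℂ) (hz : z ^ e = 1) :
    ∑ j ∈ Finset.range e, z ^ j = if z = 1 then (e : ℂ) else 0 := by
  split_ifs with h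
  · rw [h]; simp
  · rw [geom_sum_eq h, hz, sub_self, zero_div]

/-- Separation of the conjugacy class of a reflection by the Euler element. -/
theorem exists_euler_param (w : N) (hw : CMF.IsRefl w.1) :
    ∃ (k : CMF.Idx N → ℂ) (C : Finset N), C.Nonempty ∧
      (∀ w' ∈ C, ∃ g : N, w' = g * w * g⁻¹) ∧
      ∀ (ι : Type) [Fintype ι] [DecidableEq ι] (ρ : N →* Matrix ι ι ℂ),
        CMF.Ainf ρ k = ∑ w' ∈ C, ρ w' := by
  classical
  let H : CMF.Arr N := ⟨CMF.fixL w.1, w.1, w.2, hw, rfl⟩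
  let e : ℕ := CMF.eH N H.1
  have he : 0 < e := CMF.eH_pos N H
  have he' : (e : ℂ) ≠ 0 := by exact_mod_cast he.ne'
  let δ : ℂ := w.1.1.det
  have hδe : δ ^ e = 1 := det_pow_eH H w.1 (refl_mem w)
  have hδ0 : δ ≠ 0 := by
    intro h
    rw [h, zero_pow he.ne'] at hδe
    exact zero_ne_one hδe
  have hδ1 : δ ≠ 1 := det_ne_one w hw
  let inO : Submodule ℂ (Fin 2 → ℂ) → Prop := fun L => ∃ g : N, L = CMF.mapL g.1 H.1
  have heO : ∀ L, inO L → CMF.eH N L = e := by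
    rintro L ⟨g, rfl⟩
    exact eH_mapL g H.1
  have hmap : ∀ (g g' : N) (L : Submodule ℂ (Fin 2 → ℂ)),
      CMF.mapL (g * g').1 L = CMF.mapL g.1 (CMF.mapL g'.1 L) := by
    intro g g' L
    ext x
    simp only [CMF.mapL, Submodule.mem_map]
    constructor
    · rintro ⟨y, hy, rfl⟩
      refine ⟨_, ⟨y, hy, rfl⟩, ?_⟩
      simp
    · rintro ⟨_, ⟨y, hy, rfl⟩, rfl⟩
      refine ⟨y, hy, ?_⟩
      simp
  have hmapone : ∀ L : Submodule ℂ (Fin 2 → ℂ), CMF.mapL (1 : GL (Fin 2) ℂ) L = L := by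
    intro L
    simp [CMF.mapL]
  have hinO : ∀ (g : N) L, inO (CMF.mapL g.1 L) ↔ inO L := by
    intro g L
    constructor
    · rintro ⟨g', hg'⟩
      refine ⟨g⁻¹ * g', ?_⟩
      rw [hmap, ← hg', ← hmap, inv_mul_cancel]
      exact (hmapone L).symm
    · rintro ⟨g', rfl⟩
      exact ⟨g * g', (hmap g g' H.1).symm⟩
  let k : CMF.Idx N → ℂ := Quot.lift
    (fun a : CMF.Arr N × ℤ => if inO a.1.1 then (e : ℂ)⁻¹ * δ ^ (-a.2) else 0) (by
      rintro ⟨L, i⟩ ⟨L', i'⟩ ⟨⟨g, hg, hL⟩, hd⟩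
      show (if inO L.1 then (e : ℂ)⁻¹ * δ ^ (-i) else 0) =
        if inO L'.1 then (e : ℂ)⁻¹ * δ ^ (-i') else 0
      have hL' : L'.1 = CMF.mapL (⟨g, hg⟩ : N).1 L.1 := hL
      by_cases h : inO L.1
      · have h' : inO L'.1 := by rw [hL']; exact (hinO _ _).2 h
        rw [if_pos h, if_pos h']
        have hd' : (CMF.eH N L.1 : ℤ) ∣ i' - i := hd
        rw [heO _ h] at hd'
        obtain ⟨c, hc⟩ := hd'
        have h3 : -i = -i' + e * c := by rw [← hc]; ring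
        rw [h3, zpow_add₀ hδ0, _root_.zpow_mul, zpow_natCast, hδe, _root_.one_zpow, mul_one]
      · have h' : ¬ inO L'.1 := by rw [hL']; exact fun h' => h ((hinO _ _).1 h')
        rw [if_neg h, if_neg h'])
  have hk : ∀ (L : CMF.Arr N) (j : ℤ), k (CMF.idx L j) =
      if inO L.1 then (e : ℂ)⁻¹ * δ ^ (-j) else 0 := fun L j => rfl
  have hcs : ∀ L : CMF.Arr N, CMF.cs k L = 0 := by
    intro L
    unfold CMF.cs
    by_cases h : inO L.1
    · simp only [hk, if_pos h]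
      rw [← Finset.mul_sum, heO _ h]
      have h1 : ∑ j ∈ Finset.range e, δ ^ (-(j : ℤ)) = ∑ j ∈ Finset.range e, (δ⁻¹) ^ j := by
        refine Finset.sum_congr rfl fun j _ => ?_
        rw [_root_.zpow_neg, zpow_natCast, inv_pow]
      rw [h1, geom_root e δ⁻¹ (by rw [inv_pow, hδe, inv_one]), if_neg, mul_zero]
      intro h2
      exact hδ1 (inv_eq_one.1 h2)
    · simp only [hk, if_neg h, Finset.sum_const_zero]
  let C : Finset N := Finset.univ.filter fun w' : N => CMF.IsRefl w'.1 ∧ inO (CMF.fixL w'.1) ∧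
    w'.1.1.det = δ
  have hcf1 : ∀ (L : CMF.Arr N) (w' : GL (Fin 2) ℂ), inO L.1 → w'.1.det ^ e = 1 →
      CMF.cf k L w' = if w'.1.det = δ then 1 else 0 := by
    intro L w' h2 hd'
    unfold CMF.cf
    simp only [hk, if_pos h2]
    rw [heO _ h2]
    have h1 : ∑ j ∈ Finset.range e, (e : ℂ)⁻¹ * δ ^ (-(j : ℤ)) * w'.1.det ^ j =
        (e : ℂ)⁻¹ * ∑ j ∈ Finset.range e, (δ⁻¹ * w'.1.det) ^ j := by
      rw [Finset.mul_sum]
      refine Finset.sum_congr rfl fun j _ => ?_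
      rw [_root_.zpow_neg, zpow_natCast, mul_pow, inv_pow]
      ring
    rw [h1, geom_root e _ (by rw [mul_pow, inv_pow, hδe, hd']; simp)]
    by_cases h3 : w'.1.det = δ
    · rw [if_pos h3, if_pos (by rw [h3, inv_mul_cancel₀ hδ0]), inv_mul_cancel₀ he']
    · rw [if_neg h3, if_neg, mul_zero]
      intro h5
      apply h3
      have h6 : δ * (δ⁻¹ * w'.1.det) = δ * 1 := by rw [h5]
      rw [← mul_assoc, mul_inv_cancel₀ hδ0, one_mul, mul_one] at h6
      exact h6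
  have hcf0 : ∀ (L : CMF.Arr N) (w' : GL (Fin 2) ℂ), ¬ inO L.1 → CMF.cf k L w' = 0 := by
    intro L w' h2
    unfold CMF.cf
    simp only [hk, if_neg h2, zero_mul, Finset.sum_const_zero]
  have hcr : ∀ w' : N, CMF.cr k w' = if w' ∈ C then 1 else 0 := by
    intro w'
    unfold CMF.cr
    by_cases h : CMF.IsRefl w'.1
    · rw [dif_pos h]
      by_cases h2 : inO (CMF.fixL w'.1)
      · have hd' : w'.1.1.det ^ e = 1 := by
          have := det_pow_eH (⟨CMF.fixL w'.1, w'.1, w'.2, h, rfl⟩ : CMF.Arr N) w'.1 (refl_mem w')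
          rw [← heO _ h2]
          exact this
        refine (hcf1 (⟨CMF.fixL w'.1, w'.1, w'.2, h, rfl⟩ : CMF.Arr N) _ h2 hd').trans ?_
        by_cases h3 : w'.1.1.det = δ
        · have h4 : w' ∈ C := Finset.mem_filter.2 ⟨Finset.mem_univ _, h, h2, h3⟩
          rw [if_pos h4, if_pos h3]
        · have h4 : w' ∉ C := fun h4 => h3 (Finset.mem_filter.1 h4).2.2.2
          rw [if_neg h4, if_neg h3]
      · have h4 : w' ∉ C := fun h4 => h2 (Finset.mem_filter.1 h4).2.2.1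
        rw [if_neg h4]
        exact hcf0 (⟨CMF.fixL w'.1, w'.1, w'.2, h, rfl⟩ : CMF.Arr N) _ h2
    · have h4 : w' ∉ C := fun h4 => h (Finset.mem_filter.1 h4).2.1
      rw [dif_neg h, if_neg h4]
  refine ⟨k, C, ⟨w, ?_⟩, ?_, ?_⟩
  · refine Finset.mem_filter.2 ⟨Finset.mem_univ _, hw, ⟨1, (hmapone _).symm⟩, rfl⟩
  · intro w' hw'
    obtain ⟨_, hr, ⟨g, hg⟩, hd⟩ := Finset.mem_filter.1 hw'
    refine ⟨g, ?_⟩
    have h1 : CMF.fixL (g * w * g⁻¹).1 = CMF.mapL g.1 (CMF.fixL w.1) := fixL_conj g.1 w.1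
    refine refl_ext (⟨CMF.fixL w'.1, w'.1, w'.2, hr, rfl⟩ : CMF.Arr N) w' (g * w * g⁻¹)
      (fun v hv => mem_fixL.1 hv) (fun v hv => ?_) ?_
    · apply mem_fixL.1
      rw [h1]
      have : v ∈ CMF.fixL w'.1 := hv
      rw [hg] at this
      exact this
    · rw [hd]
      exact (FrameAX.det_conj g.1 w.1).symm
  · intro ι _ _ ρ
    unfold CMF.Ainf
    simp only [hcs, Finset.sum_const_zero, zero_smul, add_zero]
    rw [← Finset.sum_filter_add_sum_filter_not Finset.univ (fun w' : N => w' ∈ C)]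
    have h1 : ∑ w' ∈ Finset.univ.filter (fun w' : N => ¬ w' ∈ C), CMF.cr k w' • ρ w' = 0 := by
      refine Finset.sum_eq_zero fun w' hw' => ?_
      rw [hcr, if_neg (Finset.mem_filter.1 hw').2, zero_smul]
    rw [h1, add_zero]
    have h2 : Finset.univ.filter (fun w' : N => w' ∈ C) = C := by
      ext x; simp
    rw [h2]
    refine Finset.sum_congr rfl fun w' hw' => ?_
    rw [hcr, if_pos hw', one_smul]

/-- Representations with equal Euler values for all `k`. -/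
theorem euler_eq {N : CMF.SG} [Fintype N] (Φ : CMF.IrrFam N) (l l' : Φ.Λ)
    (h : ∀ k : CMF.Idx N → ℂ, ∃ c : ℂ, CMF.Ainf (Φ.ρ l) k = c • 1 ∧ CMF.Ainf (Φ.ρ l') k = c • 1)
    (w : N) (hw : CMF.IsRefl w.1) :
    (Φ.ρ l w).trace * (Φ.d l' : ℂ) = (Φ.ρ l' w).trace * (Φ.d l : ℂ) := by
  obtain ⟨k, C, hC, hconj, hA⟩ := exists_euler_param w hw
  obtain ⟨c, h1, h2⟩ := h k
  have htr : ∀ l : Φ.Λ, (∑ w' ∈ C, Φ.ρ l w').trace = (C.card : ℂ) * (Φ.ρ l w).trace := by
    intro l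
    rw [Matrix.trace_sum]
    have h3 : ∀ w' ∈ C, (Φ.ρ l w').trace = (Φ.ρ l w).trace := by
      intro w' hw'
      obtain ⟨g, rfl⟩ := hconj w' hw'
      rw [map_mul, map_mul, Matrix.trace_mul_comm, ← mul_assoc, ← map_mul, inv_mul_cancel,
        map_one, one_mul]
    rw [Finset.sum_congr rfl h3, Finset.sum_const, nsmul_eq_mul]
  have e1 := congrArg Matrix.trace h1
  have e2 := congrArg Matrix.trace h2
  rw [hA, htr, Matrix.trace_smul, Matrix.trace_one, Fintype.card_fin, smul_eq_mul] at e1 e2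
  have hC' : (C.card : ℂ) ≠ 0 := by exact_mod_cast hC.card_pos.ne'
  apply mul_left_cancel₀ hC'
  linear_combination (Φ.d l' : ℂ) * e1 - (Φ.d l : ℂ) * e2

end

end Pool.Agent.CMFG
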