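import Pool.Agent.CMF.TS
import Pool.Agent.CMF.IDefs

/-! Project CMF, module G8: Theorem S in the form used by the integrality argument. -/

namespace Pool.Agent.CMF

open Matrix

noncomputable section

namespace G8X

variable {Z : Type} [CommRing Z] [Algebra Z ℂ] {ι : Type} [Fintype ι]

/-- The image of an element in terms of a basis. -/
lemma rho_repr (D : HData Z ι) {M : ℕ} (Q : KZData D M) (κ : ι → ℂ) (l : D.Λ) (h : D.H) :
    Q.ρ κ l h = ∑ i, evL Z M κ (D.b.repr h i) • Q.ρ κ l (D.b i) := by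
  conv_lhs => rw [← D.b.sum_repr h, map_sum]
  apply Finset.sum_congr rfl
  intro i _
  rw [Q.ρ_smul]

end G8X

open G8X

/-- Theorem S for abstract data whose representations are given by the monodromy of the KZ
connection, `κ ↦ sg κ` being the (linear) translation of the parameters. -/
theorem thmS_abs {N : SG} [Fintype N] (hN : ∃ s ∈ N, IsRefl s) {v₀ : VReg N} (Φ : IrrFam N)
    {Z : Type} [CommRing Z] [Algebra Z ℂ] {ι : Type} [Fintype ι] (D : HData Z ι) {M : ℕ}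
    (Q : KZData D M) (sg : (ι → ℂ) →ₗ[ℂ] (Idx N → ℂ)) (eL : D.Λ → Φ.Λ)
    (hd : ∀ l, D.d l = Φ.d (eL l)) (T : Braid N v₀ → D.H)
    (hT : ∀ κ l b p q, Q.ρ κ l (T b) p q =
      KZ hN (Φ.ρ (eL l)) (sg κ) b (Fin.cast (hd l) p) (Fin.cast (hd l) q))
    (κ₀ : ι → ℂ) (Ft : Φ.Λ → Prop) [DecidablePred Ft] (z : FA ℂ N)
    (hz : SepWord Φ (sg κ₀) Ft z) (F : D.Λ → Prop) [DecidablePred F]
    (hF : ∀ l, F l ↔ Ft (eL l)) : ThmS D Q F κ₀ := by
  intro n B x₀ hB l r
  obtain ⟨f, hf, hne, hx⟩ := thmS_generic hN (v₀ := v₀) Φ (sg κ₀) Ft z hz (fun j => sg (B j)) x₀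
    (by rw [← hB, map_sum]; simp only [map_smul]) (sg l) r
  refine ⟨f, hf, hne, fun x hx' => ?_⟩
  obtain ⟨h, hh⟩ := hx x hx'
  have hκ : (∑ j, x j • sg (B j)) + r • sg l = sg ((∑ j, x j • B j) + r • l) := by
    simp only [map_add, map_sum, map_smul]
  rw [hκ] at hh
  set κ : ι → ℂ := (∑ j, x j • B j) + r • l with hκd
  refine ⟨fun i => h.coeff.sum (fun b c => c * evL Z M κ (D.b.repr (T b) i)), fun l' => ?_⟩
  have h1 : (∑ i, (h.coeff.sum (fun b c => c * evL Z M κ (D.b.repr (T b) i))) • Q.ρ κ l' (D.b i)) =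
      h.coeff.sum (fun b c => c • Q.ρ κ l' (T b)) := by
    simp only [Finsupp.sum]
    rw [Finset.sum_congr rfl (fun i _ => Finset.sum_smul), Finset.sum_comm]
    apply Finset.sum_congr rfl
    intro b _
    rw [rho_repr D Q κ l' (T b), Finset.smul_sum]
    apply Finset.sum_congr rfl
    intro i _
    rw [mul_smul]
  rw [h1]
  ext p q
  have h2 := congrFun (congrFun (hh (eL l')) (Fin.cast (hd l') p)) (Fin.cast (hd l') q)
  have h3 : (h.coeff.sum (fun b c => c • Q.ρ κ l' (T b))) p q =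
      (MonoidAlgebra.lift ℂ _ (Braid N v₀) (KZ hN (Φ.ρ (eL l')) (sg κ)) h)
        (Fin.cast (hd l') p) (Fin.cast (hd l') q) := by
    rw [MonoidAlgebra.lift_apply]
    simp only [Finsupp.sum, Matrix.sum_apply, Matrix.smul_apply]
    apply Finset.sum_congr rfl
    intro b _
    rw [hT]
  rw [h3, h2]
  by_cases hl : F l'
  · rw [if_pos hl, if_pos ((hF l').1 hl)]
    rw [Matrix.one_apply, Matrix.one_apply]
    by_cases hpq : p = q
    · subst hpq
      rw [if_pos rfl, if_pos rfl]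
    · rw [if_neg hpq, if_neg]
      intro h4
      apply hpq
      have h5 := congrArg Fin.val h4
      exact Fin.ext h5
  · rw [if_neg hl, if_neg (fun h => hl ((hF l').2 h))]
    rfl

/-- The same, the braids being given by a surjection `pr` from a set of pairs (group element,
path). -/
theorem thmS_abs' {N : SG} [Fintype N] (hN : ∃ s ∈ N, IsRefl s) {v₀ : VReg N} (Φ : IrrFam N)
    {Z : Type} [CommRing Z] [Algebra Z ℂ] {ι : Type} [Fintype ι] (D : HData Z ι) {M : ℕ}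
    (Q : KZData D M) (sg : (ι → ℂ) →ₗ[ℂ] (Idx N → ℂ)) (eL : D.Λ → Φ.Λ)
    (hd : ∀ l, D.d l = Φ.d (eL l)) {P : Type} (pr : P → Braid N v₀)
    (hpr : Function.Surjective pr) (T : P → D.H)
    (hT : ∀ κ l b p q, Q.ρ κ l (T b) p q =
      KZ hN (Φ.ρ (eL l)) (sg κ) (pr b) (Fin.cast (hd l) p) (Fin.cast (hd l) q))
    (κ₀ : ι → ℂ) (Ft : Φ.Λ → Prop) [DecidablePred Ft] (z : FA ℂ N)
    (hz : SepWord Φ (sg κ₀) Ft z) (F : D.Λ → Prop) [DecidablePred F]
    (hF : ∀ l, F l ↔ Ft (eL l)) : ThmS D Q F κ₀ := by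
  refine thmS_abs hN (v₀ := v₀) Φ D Q sg eL hd (fun b => T (Function.surjInv hpr b)) ?_ κ₀ Ft z
    hz F hF
  intro κ l b p q
  rw [hT, Function.surjInv_eq hpr b]

/-- The translation of the parameters: `κ ↦ k`, `k_i = κ_(e i^♯)`, as a linear map. -/
def sgMap {ι : Type} {N : SG} (e : Idx N → ι) : (ι → ℂ) →ₗ[ℂ] (Idx N → ℂ) where
  toFun κ := fun i => κ (e (sharp i))
  map_add' _ _ := rfl
  map_smul' _ _ := rfl

end

end Pool.Agent.CMF
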