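import Pool.Agent.CMF.I8

/-! Project CMF, block I/N (helper77): the block idempotent in the tensor product. -/

set_option linter.unusedSectionVars false

namespace Pool.Agent.CMF

open scoped TensorProduct

noncomputable section

/-- From coordinates to the base change of the algebra. -/
theorem tensor_of_coord {A O H J : Type} [CommRing A] [CommRing O] [Ring H] [Algebra A H]
    [Algebra A O] [Fintype J] (b : Module.Basis J A H) (e : J → O)
    (hsq : ∀ k, ∑ i, ∑ j, e i * e j * algebraMap A O (b.repr (b i * b j) k) = e k)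
    (hc : ∀ j k, ∑ i, e i * algebraMap A O (b.repr (b i * b j) k) =
      ∑ i, e i * algebraMap A O (b.repr (b j * b i) k)) :
    (∑ i, e i ⊗ₜ[A] b i : O ⊗[A] H) * (∑ i, e i ⊗ₜ[A] b i) = ∑ i, e i ⊗ₜ[A] b i ∧
    (∀ x : O ⊗[A] H, x * (∑ i, e i ⊗ₜ[A] b i) = (∑ i, e i ⊗ₜ[A] b i) * x) ∧
    ∀ X : H →ₗ[A] A, X.baseChange O (∑ i, e i ⊗ₜ[A] b i : O ⊗[A] H) =
      (∑ i, e i * algebraMap A O (X (b i))) ⊗ₜ[A] (1 : A) := by
  have hexp : ∀ (o : O) (h : H), o ⊗ₜ[A] h = ∑ k, (o * algebraMap A O (b.repr h k)) ⊗ₜ[A] b k := by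
    intro o h
    conv_lhs => rw [← b.sum_repr h]
    rw [TensorProduct.tmul_sum]
    refine Finset.sum_congr rfl fun k _ => ?_
    rw [← TensorProduct.smul_tmul, Algebra.smul_def, mul_comm]
  refine ⟨?_, ?_, ?_⟩
  · rw [Finset.sum_mul_sum]
    calc ∑ i, ∑ j, (e i ⊗ₜ[A] b i : O ⊗[A] H) * (e j ⊗ₜ[A] b j)
        = ∑ i, ∑ j, ∑ k, (e i * e j * algebraMap A O (b.repr (b i * b j) k)) ⊗ₜ[A] b k := by
          refine Finset.sum_congr rfl fun i _ => Finset.sum_congr rfl fun j _ => ?_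
          rw [Algebra.TensorProduct.tmul_mul_tmul, hexp]
      _ = ∑ i, ∑ k, ∑ j, (e i * e j * algebraMap A O (b.repr (b i * b j) k)) ⊗ₜ[A] b k :=
          Finset.sum_congr rfl fun i _ => Finset.sum_comm
      _ = ∑ k, ∑ i, ∑ j, (e i * e j * algebraMap A O (b.repr (b i * b j) k)) ⊗ₜ[A] b k :=
          Finset.sum_comm
      _ = ∑ k, (∑ i, ∑ j, e i * e j * algebraMap A O (b.repr (b i * b j) k)) ⊗ₜ[A] b k := by
          simp only [TensorProduct.sum_tmul]
      _ = _ := by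
          refine Finset.sum_congr rfl fun k _ => ?_
          rw [hsq k]
  · have hb : ∀ j, (1 ⊗ₜ[A] b j : O ⊗[A] H) * (∑ i, e i ⊗ₜ[A] b i) =
        (∑ i, e i ⊗ₜ[A] b i) * (1 ⊗ₜ[A] b j) := by
      intro j
      rw [Finset.sum_mul, Finset.mul_sum]
      calc ∑ i, (1 ⊗ₜ[A] b j : O ⊗[A] H) * (e i ⊗ₜ[A] b i)
          = ∑ i, ∑ k, (e i * algebraMap A O (b.repr (b j * b i) k)) ⊗ₜ[A] b k := by
            refine Finset.sum_congr rfl fun i _ => ?_
            rw [Algebra.TensorProduct.tmul_mul_tmul, hexp, one_mul]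
        _ = ∑ k, (∑ i, e i * algebraMap A O (b.repr (b j * b i) k)) ⊗ₜ[A] b k := by
            rw [Finset.sum_comm]
            simp only [TensorProduct.sum_tmul]
        _ = ∑ k, (∑ i, e i * algebraMap A O (b.repr (b i * b j) k)) ⊗ₜ[A] b k := by
            refine Finset.sum_congr rfl fun k _ => ?_
            rw [hc j k]
        _ = ∑ i, ∑ k, (e i * algebraMap A O (b.repr (b i * b j) k)) ⊗ₜ[A] b k := by
            rw [Finset.sum_comm]
            simp only [TensorProduct.sum_tmul]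
        _ = _ := by
            refine Finset.sum_congr rfl fun i _ => ?_
            rw [Algebra.TensorProduct.tmul_mul_tmul, hexp, mul_one]
    intro x
    induction x using TensorProduct.induction_on with
    | zero => rw [zero_mul, mul_zero]
    | add x y hx hy => rw [add_mul, mul_add, hx, hy]
    | tmul o h =>
      rw [hexp o h, Finset.sum_mul (Finset.univ : Finset J) (fun k =>
        ((o * algebraMap A O (b.repr h k)) ⊗ₜ[A] b k : O ⊗[A] H)), Finset.mul_sum
        (Finset.univ : Finset J) (fun k =>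
        ((o * algebraMap A O (b.repr h k)) ⊗ₜ[A] b k : O ⊗[A] H))]
      refine Finset.sum_congr rfl fun j _ => ?_
      have h1 : ((o * algebraMap A O (b.repr h j)) ⊗ₜ[A] b j : O ⊗[A] H) =
          (o * algebraMap A O (b.repr h j)) • (1 ⊗ₜ[A] b j) := by
        rw [TensorProduct.smul_tmul', smul_eq_mul, mul_one]
      rw [h1, smul_mul_assoc, mul_smul_comm, hb j]
  · intro X
    rw [map_sum, TensorProduct.sum_tmul]
    refine Finset.sum_congr rfl fun i _ => ?_
    rw [LinearMap.baseChange_tmul]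
    have h1 : X (b i) = X (b i) • (1 : A) := by rw [smul_eq_mul, mul_one]
    conv_lhs => rw [h1]
    rw [← TensorProduct.smul_tmul, Algebra.smul_def, mul_comm]

variable {Z : Type} [CommRing Z] [IsDomain Z] [Algebra Z ℂ] {ι : Type}

open Classical in
/-- The main theorem of the block: the block idempotent of `O_y ⊗ H`. -/
theorem HData.final_tensor [Fintype ι] (hZ : Countable Z)
    (hinj : Function.Injective (algebraMap Z ℂ))
    (D : HData Z ι) {M : ℕ} (hM : 0 < M) (Q : KZData D M) (Φ : SchurFac D) (F : D.Λ → Prop)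
    [DecidablePred F] (hF : ∀ l m, Q.a l = Q.a m → (F l ↔ F m)) (κ₀ : ι → ℂ) (m : ι → ℤ)
    (hess : SameEss Φ κ₀ m) (hS : ThmS D Q F κ₀) :
    letI : Algebra (Lau Z ι) (Oy Z) := (spec Z m).toAlgebra
    ∃ ε : Oy Z ⊗[Lau Z ι] D.H, ε * ε = ε ∧ (∀ x, x * ε = ε * x) ∧
      ∀ μ, (D.X μ).baseChange (Oy Z) ε =
        (if F μ then (D.d μ : Oy Z) else 0) ⊗ₜ[Lau Z ι] (1 : Lau Z ι) := by
  letI : Algebra (Lau Z ι) (Oy Z) := (spec Z m).toAlgebra
  obtain ⟨e, h1, h2, h3⟩ := HData.final hZ hinj D hM Q Φ F hF κ₀ m hess hS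
  obtain ⟨h4, h5, h6⟩ := tensor_of_coord (A := Lau Z ι) (O := Oy Z) D.b e h1 h2
  refine ⟨∑ i, e i ⊗ₜ[Lau Z ι] D.b i, h4, h5, fun μ => ?_⟩
  rw [h6 (D.X μ)]
  congr 1
  exact h3 μ

end

end Pool.Agent.CMF
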