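import Pool.Agent.CMF.G5
import Pool.Agent.CMF.I9

/-! Project CMF (MP_4af2a6_al), glue G9 (helper77): base change of the Hecke algebra. -/

namespace Pool.Agent.CMF

open Matrix Pool.Agent.CMFP
open scoped TensorProduct

noncomputable section

section G9

variable {G : Type} [Group G] {n : ℕ} {V : G → Matrix (Fin n) (Fin n) ℂ} {v₀ : Fin n → ℂ}

/-- `f` satisfies the relations of the Hecke algebra. -/
def HkRep (Z : Type) [CommRing Z] [Algebra Z ℂ] {R B : Type} [CommRing R] [Algebra Z R] [Ring B]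
    [Algebra R B] (u : Idx V → R) (f : BP V v₀ → B) : Prop :=
  (∀ a b, Homot a b → f a = f b) ∧
  (∀ a : BP V v₀, a.g = 1 → (∀ t ∈ Set.Icc (0 : ℝ) 1, a.f t = v₀) → f a = 1) ∧
  (∀ a b c : BP V v₀, c.g = a.g * b.g →
    (∀ t ∈ Set.Icc (0 : ℝ) (1 / 2), c.f t = a.f (2 * t)) →
    (∀ t ∈ Set.Icc (1 / 2 : ℝ) 1, c.f t = V a.g *ᵥ b.f (2 * t - 1)) → f c = f a * f b) ∧
  ∀ (b : BP V v₀) (hs : IsRefl V b.g) (_ : IsBraidRefl b) (ζ : Z)
    (_ : algebraMap Z ℂ ζ = rot V b.g 1),
    ((List.range (ordH V b.g)).map fun j : ℕ => f b -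
      algebraMap R B (algebraMap Z R ζ ^ j * u (idx V b.g hs (j : ℤ)) ^ mu Z)).prod = 0

variable {Z : Type} [CommRing Z] [Algebra Z ℂ]

/-- The quotient map as an algebra homomorphism. -/
def toHk {R : Type} [CommRing R] [Algebra Z R] (u : Idx V → R) :
    FreeAlgebra R (BP V v₀) →ₐ[R] Hk Z V v₀ u := RingQuot.mkAlgHom R (HkRel Z V v₀ u)

theorem toHk_ι {R : Type} [CommRing R] [Algebra Z R] (u : Idx V → R) (b : BP V v₀) :
    toHk (Z := Z) u (FreeAlgebra.ι R b) = hT Z u b := by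
  have := RingQuot.mkAlgHom_coe R (HkRel Z V v₀ u)
  rw [hT, ← this]
  rfl

theorem toHk_rel {R : Type} [CommRing R] [Algebra Z R] (u : Idx V → R)
    {x y : FreeAlgebra R (BP V v₀)} (h : HkRel Z V v₀ u x y) :
    toHk (Z := Z) u x = toHk u y :=
  RingQuot.mkAlgHom_rel R h

/-- The relations hold in the Hecke algebra. -/
theorem hkRep_hT {R : Type} [CommRing R] [Algebra Z R] (u : Idx V → R) :
    HkRep (v₀ := v₀) Z u (hT Z u) := by
  refine ⟨fun a b h => ?_, fun a hg h => ?_, fun a b c hg h h' => ?_, fun b hs hb ζ hζ => ?_⟩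
  · have := toHk_rel (Z := Z) u (HkRel.homot a b h)
    rwa [toHk_ι, toHk_ι] at this
  · have := toHk_rel (Z := Z) u (HkRel.one a hg h)
    rwa [toHk_ι, map_one] at this
  · have := toHk_rel (Z := Z) u (HkRel.mul a b c hg h h')
    rwa [toHk_ι, map_mul, toHk_ι, toHk_ι] at this
  · have h := toHk_rel u (HkRel.hecke b hs hb ζ hζ)
    rw [map_zero, map_list_prod, List.map_map] at h
    rw [← h]
    congr 1
    refine List.map_congr_left fun j _ => ?_
    simp only [Function.comp_apply]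
    rw [map_sub, toHk_ι, AlgHom.commutes]

theorem HkRep.rel {R B : Type} [CommRing R] [Algebra Z R] [Ring B] [Algebra R B]
    {u : Idx V → R} {f : BP V v₀ → B} (hf : HkRep Z u f)
    (x y : FreeAlgebra R (BP V v₀)) (h : HkRel Z V v₀ u x y) :
    FreeAlgebra.lift R f x = FreeAlgebra.lift R f y := by
  obtain ⟨h1, h2, h3, h4⟩ := hf
  cases h with
  | homot a b h => rw [FreeAlgebra.lift_ι_apply, FreeAlgebra.lift_ι_apply]; exact h1 a b h
  | one a hg h => rw [FreeAlgebra.lift_ι_apply, map_one]; exact h2 a hg h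
  | mul a b c hg h h' =>
    rw [map_mul, FreeAlgebra.lift_ι_apply, FreeAlgebra.lift_ι_apply, FreeAlgebra.lift_ι_apply]
    exact h3 a b c hg h h'
  | hecke b hs hb ζ hζ =>
    rw [map_zero, map_list_prod, List.map_map, ← h4 b hs hb ζ hζ]
    congr 1
    refine List.map_congr_left fun j _ => ?_
    simp only [Function.comp_apply]
    rw [map_sub, FreeAlgebra.lift_ι_apply, AlgHom.commutes]

/-- An algebra homomorphism from the Hecke algebra. -/
def hkLift {R B : Type} [CommRing R] [Algebra Z R] [Ring B] [Algebra R B] (u : Idx V → R)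
    (f : BP V v₀ → B) (hf : HkRep Z u f) : Hk Z V v₀ u →ₐ[R] B :=
  RingQuot.liftAlgHom R ⟨FreeAlgebra.lift R f, fun x y h => hf.rel x y h⟩

theorem hkLift_hT {R B : Type} [CommRing R] [Algebra Z R] [Ring B] [Algebra R B] (u : Idx V → R)
    (f : BP V v₀ → B) (hf : HkRep Z u f) (b : BP V v₀) : hkLift u f hf (hT Z u b) = f b := by
  rw [← toHk_ι]
  have := RingQuot.liftAlgHom_mkAlgHom_apply R (FreeAlgebra.lift R f) (fun x y h => hf.rel x y h)
    (s := HkRel Z V v₀ u) (FreeAlgebra.ι R b)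
  refine this.trans ?_
  rw [FreeAlgebra.lift_ι_apply]

theorem hk_ext {R B : Type} [CommRing R] [Algebra Z R] [Ring B] [Algebra R B] (u : Idx V → R)
    (f g : Hk Z V v₀ u →ₐ[R] B) (h : ∀ b, f (hT Z u b) = g (hT Z u b)) : f = g := by
  have h1 : f.comp (toHk u) = g.comp (toHk u) := by
    apply FreeAlgebra.hom_ext
    funext b
    simp only [Function.comp_apply, AlgHom.comp_apply]
    rw [toHk_ι]
    exact h b
  exact RingQuot.ringQuot_ext' R f g h1

variable {A O : Type} [CommRing A] [CommRing O] [Algebra Z A] [Algebra Z O] [Algebra A O]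
  [IsScalarTower Z A O] (u : Idx V → A)

theorem HkRep.tensor {H : Type} [Ring H] [Algebra A H] {f : BP V v₀ → H} (hf : HkRep Z u f) :
    HkRep Z (fun i => algebraMap A O (u i)) (fun b => (1 : O) ⊗ₜ[A] f b : BP V v₀ → O ⊗[A] H) := by
  obtain ⟨h1, h2, h3, h4⟩ := hf
  refine ⟨fun a b h => ?_, fun a hg h => ?_, fun a b c hg h h' => ?_, fun b hs hb ζ hζ => ?_⟩
  · simp only [h1 a b h]
  · simp only [h2 a hg h]
    exact Algebra.TensorProduct.one_def.symm
  · simp only [h3 a b c hg h h', Algebra.TensorProduct.tmul_mul_tmul, one_mul]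
  · have h5 := congrArg (Algebra.TensorProduct.includeRight : H →ₐ[A] O ⊗[A] H) (h4 b hs hb ζ hζ)
    rw [map_zero, map_list_prod, List.map_map] at h5
    rw [← h5]
    congr 1
    refine List.map_congr_left fun j _ => ?_
    simp only [Function.comp_apply]
    rw [map_sub, Algebra.TensorProduct.includeRight_apply, AlgHom.commutes]
    congr 1
    rw [IsScalarTower.algebraMap_apply A O (O ⊗[A] H), map_mul (algebraMap A O),
      map_pow (algebraMap A O), map_pow (algebraMap A O), ← IsScalarTower.algebraMap_apply Z A O]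

theorem HkRep.restrict {H : Type} [Ring H] [Algebra A H] [Algebra O H] [IsScalarTower A O H]
    {f : BP V v₀ → H} (hf : HkRep Z (fun i => algebraMap A O (u i)) f) : HkRep Z u f := by
  obtain ⟨h1, h2, h3, h4⟩ := hf
  refine ⟨h1, h2, h3, fun b hs hb ζ hζ => ?_⟩
  rw [← h4 b hs hb ζ hζ]
  congr 1
  refine List.map_congr_left fun j _ => ?_
  rw [IsScalarTower.algebraMap_apply A O H, map_mul (algebraMap A O),
      map_pow (algebraMap A O), map_pow (algebraMap A O), ← IsScalarTower.algebraMap_apply Z A O]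

/-- Abstract form: two algebras with the two universal properties. -/
theorem sep_of_tensor {B HA HO : Type} [Ring HA] [Algebra A HA] [Ring HO] [Algebra O HO]
    [Algebra A HO] [IsScalarTower A O HO] (T : B → HA) (T' : B → HO)
    (ψ : HO →ₐ[O] O ⊗[A] HA) (hψ : ∀ b, ψ (T' b) = 1 ⊗ₜ[A] T b)
    (Φ : HA →ₐ[A] HO) (hΦ : ∀ b, Φ (T b) = T' b)
    (extA : ∀ f g : HA →ₐ[A] O ⊗[A] HA, (∀ b, f (T b) = g (T b)) → f = g)
    (extO : ∀ f g : HO →ₐ[O] HO, (∀ b, f (T' b) = g (T' b)) → f = g)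
    (ε : O ⊗[A] HA) (h1 : ε * ε = ε) (h2 : ∀ x, x * ε = ε * x) :
    ∃ ε' : HO, ε' * ε' = ε' ∧ (∀ x, ε' * x = x * ε') ∧ ψ ε' = ε := by
  let φ : O ⊗[A] HA →ₐ[O] HO := Algebra.TensorProduct.lift (Algebra.ofId O HO) Φ
    (fun o h => Algebra.commutes o _)
  have hφ : ∀ b, φ (1 ⊗ₜ[A] T b) = T' b := by
    intro b
    have h3 : φ (1 ⊗ₜ[A] T b) = Algebra.ofId O HO 1 * Φ (T b) :=
      Algebra.TensorProduct.lift_tmul _ _ _ _ _
    rw [h3, map_one, one_mul, hΦ]
  have hφψ : φ.comp ψ = AlgHom.id O HO := by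
    apply extO
    intro b
    rw [AlgHom.comp_apply, hψ, hφ, AlgHom.id_apply]
  have hψφ : ψ.comp φ = AlgHom.id O (O ⊗[A] HA) := by
    apply Algebra.TensorProduct.ext
    · ext
    · apply extA
      intro b
      simp only [AlgHom.comp_apply, AlgHom.restrictScalars_apply,
        Algebra.TensorProduct.includeRight_apply, AlgHom.id_apply]
      rw [hφ, hψ]
  refine ⟨φ ε, ?_, ?_, ?_⟩
  · rw [← map_mul, h1]
  · intro x
    have hx : x = φ (ψ x) := (DFunLike.congr_fun hφψ x).symm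
    rw [hx, ← map_mul, ← map_mul, h2]
  · exact DFunLike.congr_fun hψφ ε

/-- The same with coordinates and linear forms. -/
theorem sep_of_coord {B HA HO J : Type} [Ring HA] [Algebra A HA] [Ring HO] [Algebra O HO]
    [Algebra A HO] [IsScalarTower A O HO] [Fintype J] (T : B → HA) (T' : B → HO)
    (ψ : HO →ₐ[O] O ⊗[A] HA) (hψ : ∀ b, ψ (T' b) = 1 ⊗ₜ[A] T b)
    (Φ : HA →ₐ[A] HO) (hΦ : ∀ b, Φ (T b) = T' b)
    (extA : ∀ f g : HA →ₐ[A] O ⊗[A] HA, (∀ b, f (T b) = g (T b)) → f = g)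
    (extO : ∀ f g : HO →ₐ[O] HO, (∀ b, f (T' b) = g (T' b)) → f = g)
    (b : Module.Basis J A HA) (e : J → O)
    (hsq : ∀ k, ∑ i, ∑ j, e i * e j * algebraMap A O (b.repr (b i * b j) k) = e k)
    (hc : ∀ j k, ∑ i, e i * algebraMap A O (b.repr (b i * b j) k) =
      ∑ i, e i * algebraMap A O (b.repr (b j * b i) k))
    (X X' : HA →ₗ[A] A) (d : ℕ) (hX : ∑ i, e i * algebraMap A O (X (b i)) = (d : O))
    (hX' : ∑ i, e i * algebraMap A O (X' (b i)) = 0) :
    ∃ (ε : HO) (Y Y' : HO →ₗ[O] O), ε * ε = ε ∧ (∀ x, ε * x = x * ε) ∧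
      (∀ b, Y (T' b) = algebraMap A O (X (T b))) ∧ (∀ b, Y' (T' b) = algebraMap A O (X' (T b))) ∧
      Y ε = d ∧ Y' ε = 0 := by
  obtain ⟨h1, h2, h3⟩ := tensor_of_coord b e hsq hc
  obtain ⟨ε, h4, h5, h6⟩ := sep_of_tensor T T' ψ hψ Φ hΦ extA extO _ h1 h2
  let r : O ⊗[A] A →ₗ[O] O := (TensorProduct.AlgebraTensorModule.rid A O O).toLinearMap
  have hr : ∀ (o : O) (a : A), r (o ⊗ₜ[A] a) = algebraMap A O a * o := by
    intro o a
    have : r (o ⊗ₜ[A] a) = a • o := TensorProduct.AlgebraTensorModule.rid_tmul _ a o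
    rw [this, Algebra.smul_def]
  let Y : (HA →ₗ[A] A) → HO →ₗ[O] O := fun X => r ∘ₗ X.baseChange O ∘ₗ ψ.toLinearMap
  have hY : ∀ X x, Y X x = r (X.baseChange O (ψ x)) := fun _ _ => rfl
  refine ⟨ε, Y X, Y X', h4, h5, ?_, ?_, ?_, ?_⟩
  · intro b
    rw [hY, hψ, LinearMap.baseChange_tmul, hr, mul_one]
  · intro b
    rw [hY, hψ, LinearMap.baseChange_tmul, hr, mul_one]
  · rw [hY, h6, h3, hr, map_one, one_mul, hX]
  · rw [hY, h6, h3, hr, map_one, one_mul, hX']

/-- Block separation for the specialised Hecke algebra. -/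
theorem blockSep_of_coord {J : Type} [Fintype J] (b : Module.Basis J A (Hk Z V v₀ u)) (e : J → O)
    (hsq : ∀ k, ∑ i, ∑ j, e i * e j * algebraMap A O (b.repr (b i * b j) k) = e k)
    (hc : ∀ j k, ∑ i, e i * algebraMap A O (b.repr (b i * b j) k) =
      ∑ i, e i * algebraMap A O (b.repr (b j * b i) k))
    (X X' : Hk Z V v₀ u →ₗ[A] A) (d : ℕ) (hX : ∑ i, e i * algebraMap A O (X (b i)) = (d : O))
    (hX' : ∑ i, e i * algebraMap A O (X' (b i)) = 0) :
    BlockSep Z V v₀ (fun i => algebraMap A O (u i)) (fun b => algebraMap A O (X (hT Z u b)))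
      (fun b => algebraMap A O (X' (hT Z u b))) d := by
  let _ : Algebra A (Hk Z V v₀ (fun i => algebraMap A O (u i))) :=
    Algebra.compHom _ (algebraMap A O)
  have _ : IsScalarTower A O (Hk Z V v₀ (fun i => algebraMap A O (u i))) :=
    IsScalarTower.of_algebraMap_eq fun _ => rfl
  have hO := hkRep_hT (v₀ := v₀) (Z := Z) (fun i => algebraMap A O (u i))
  have hA := hkRep_hT (v₀ := v₀) (Z := Z) u
  exact sep_of_coord (hT Z u) (hT Z (fun i => algebraMap A O (u i)))
    (hkLift _ _ (hA.tensor (O := O) u)) (hkLift_hT _ _ _)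
    (hkLift u _ (hO.restrict (A := A) u)) (hkLift_hT _ _ _)
    (hk_ext _) (hk_ext _) b e hsq hc X X' d hX hX'

end G9

/-! ### Rouquier families -/

section Rou

/-- `special` as a ring homomorphism. -/
def specialHom (Z : Type) [CommRing Z] {ι : Type} (m : ι → ℤ) : Laur Z ι →+* CMFP.Oy Z :=
  (spec Z m : Lau Z ι →+* Oy Z)

theorem specialHom_apply (Z : Type) [CommRing Z] {ι : Type} (m : ι → ℤ) (p : Laur Z ι) :
    specialHom Z m p = special Z m p := rfl

theorem specialHom_algebraMap (Z : Type) [CommRing Z] [IsDomain Z] [Algebra Z ℂ] {ι : Type} (m : ι → ℤ) (z : Z) :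
    algebraMap Z (CMFP.Oy Z) z = specialHom Z m (algebraMap Z (Laur Z ι) z) :=
  (spec_algebraMap (Z := Z) m z).symm

variable {G : Type} [Group G] [Fintype G] {n : ℕ} {V : G → Matrix (Fin n) (Fin n) ℂ}
  {v₀ : Fin n → ℂ} {F : Type} [Field F] [Algebra F ℂ] {Λ : Type} [Fintype Λ] {d : Λ → ℕ}

open Classical in
/-- The final step: separation in the specialised Hecke algebra. -/
theorem rouSep_final (D : StdHk F V v₀ d) (hd : ∀ l, 0 < d l) (S : SchurForm F D.schurElt)
    [Fintype (Idx V)] (hZ : Countable (NumberField.RingOfIntegers F))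
    (hinj : Function.Injective (algebraMap (NumberField.RingOfIntegers F) ℂ))
    {M : ℕ} (hM : 0 < M) (Q : KZData (stdHData D hd) M) (P : (stdHData D hd).Λ → Prop)
    [DecidablePred P]
    (hP : ∀ l m, Q.a l = Q.a m → (P l ↔ P m)) (κ₀ : Idx V → ℂ) (m : Idx V → ℤ)
    (hm : SameEssential S κ₀ m) (hS : ThmS (stdHData D hd) Q P κ₀) (χ ψ : Λ) (hχ : P χ)
    (hψ : ¬ P ψ) : D.RouSep m χ ψ := by
  obtain ⟨e, h1, h2, h3⟩ := HData.final hZ hinj (stdHData D hd) hM Q (schurFac D hd S) P hP κ₀ m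
    (sameEss_of D hd S κ₀ m hm) hS
  let _ : Algebra (Laur (NumberField.RingOfIntegers F) (Idx V))
    (CMFP.Oy (NumberField.RingOfIntegers F)) :=
    (specialHom (NumberField.RingOfIntegers F) m).toAlgebra
  have _ : IsScalarTower (NumberField.RingOfIntegers F)
      (Laur (NumberField.RingOfIntegers F) (Idx V)) (CMFP.Oy (NumberField.RingOfIntegers F)) :=
    IsScalarTower.of_algebraMap_eq (specialHom_algebraMap _ m)
  have h4 := h3 χ
  have h5 := h3 ψ
  rw [if_pos hχ] at h4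
  rw [if_neg hψ] at h5
  exact blockSep_of_coord (O := CMFP.Oy (NumberField.RingOfIntegers F))
    (var (NumberField.RingOfIntegers F)) (Std.b D) e h1 h2 (Std.X D χ) (Std.X D ψ) (d χ) h4 h5

end Rou

end

end Pool.Agent.CMF
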