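import Pool.Agent.CMF.Pres

/-! Project CMF, glue: the field of definition is a number field; it has finitely many roots of
unity. -/

namespace Pool.Agent.CMFP

open Matrix

/-- A root of the characteristic polynomial of a matrix of finite order is a root of unity. -/
theorem root_pow {n : ℕ} (A : Matrix (Fin n) (Fin n) ℂ) (m : ℕ) (hA : A ^ m = 1) (x : ℂ)
    (hx : x ∈ A.charpoly.roots) : x ^ m = 1 := by
  have h1 : A.charpoly.IsRoot x := (Polynomial.mem_roots'.1 hx).2
  have h2 : (Matrix.scalar (Fin n) x - A).det = 0 := by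
    rw [← Matrix.eval_charpoly]
    exact h1
  obtain ⟨v, hv, hv2⟩ := Matrix.exists_mulVec_eq_zero_iff.2 h2
  have h3 : A *ᵥ v = x • v := by
    rw [Matrix.sub_mulVec, sub_eq_zero] at hv2
    rw [← hv2]
    ext i
    simp [Matrix.scalar_apply, Matrix.mulVec_diagonal]
  have h4 : ∀ j : ℕ, A ^ j *ᵥ v = x ^ j • v := by
    intro j
    induction j with
    | zero => simp
    | succ j ih =>
      rw [pow_succ', ← Matrix.mulVec_mulVec, ih, Matrix.mulVec_smul, h3, smul_smul, pow_succ]
  have h5 := h4 m
  rw [hA, Matrix.one_mulVec] at h5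
  by_contra hne
  apply hv
  have h6 : (1 - x ^ m) • v = 0 := by
    rw [sub_smul, one_smul, ← h5, sub_self]
  rcases smul_eq_zero.1 h6 with h | h
  · exact absurd (sub_eq_zero.1 h).symm hne
  · exact h

/-- The trace of a matrix of finite order is an algebraic number. -/
theorem isIntegral_trace {n : ℕ} (A : Matrix (Fin n) (Fin n) ℂ) (m : ℕ) (hm : 0 < m)
    (hA : A ^ m = 1) : IsIntegral ℚ A.trace := by
  rw [Matrix.trace_eq_sum_roots_charpoly]
  refine IsIntegral.multiset_sum fun x hx => ?_
  refine IsIntegral.of_pow hm ?_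
  rw [root_pow A m hA x hx]
  exact isIntegral_one

variable {G : Type} [Group G] [Finite G] {n : ℕ} {V : G → Matrix (Fin n) (Fin n) ℂ}

omit [Finite G] in
theorem rep_pow (hV : IsRep V) (g : G) (m : ℕ) : V (g ^ m) = V g ^ m := by
  induction m with
  | zero => rw [pow_zero, pow_zero, hV.1]
  | succ m ih => rw [pow_succ, pow_succ, hV.2, ih]

/-- The field of definition is a number field. -/
theorem numberField_of (hV : IsRep V) (F : Type) [Field F] [Algebra F ℂ]
    (hF : (algebraMap F ℂ).fieldRange = Subfield.closure (Set.range fun g => (V g).trace)) :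
    NumberField F := by
  have hc : CharZero F := (algebraMap F ℂ).charZero
  suffices hfdF : FiniteDimensional ℚ F from NumberField.mk
  set S : Set ℂ := Set.range fun g => (V g).trace with hS
  have hfin : S.Finite := Set.finite_range _
  have hint : ∀ x ∈ S, IsIntegral ℚ x := by
    rintro _ ⟨g, rfl⟩
    obtain ⟨m, hm, hg⟩ := (isOfFinOrder_of_finite g).exists_pow_eq_one
    refine isIntegral_trace (V g) m hm ?_
    rw [← rep_pow hV, hg, hV.1]
  have hfd : FiniteDimensional ℚ (IntermediateField.adjoin ℚ S) := by
    have := hfin.to_subtype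
    exact IntermediateField.finiteDimensional_adjoin hint
  have hle : Subfield.closure S ≤ (IntermediateField.adjoin ℚ S).toSubfield := by
    rw [Subfield.closure_le]
    exact IntermediateField.subset_adjoin ℚ S
  have hmem : ∀ x : F, algebraMap F ℂ x ∈ IntermediateField.adjoin ℚ S := by
    intro x
    apply hle
    rw [← hF]
    exact ⟨x, rfl⟩
  let f : F →ₗ[ℚ] IntermediateField.adjoin ℚ S :=
    { toFun := fun x => ⟨algebraMap F ℂ x, hmem x⟩
      map_add' := fun x y => Subtype.ext (map_add _ _ _)
      map_smul' := fun q x => by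
        apply Subtype.ext
        show algebraMap F ℂ (q • x) = q • algebraMap F ℂ x
        rw [Algebra.smul_def, map_mul, Algebra.smul_def]
        congr 1
        simp }
  refine FiniteDimensional.of_injective f ?_
  intro x y h
  exact (algebraMap F ℂ).injective (congrArg Subtype.val h)

/-- A number field has a finite positive number of roots of unity. -/
theorem mu_pos_of (F : Type) [Field F] [NumberField F] : 0 < mu (NumberField.RingOfIntegers F) := by
  have hfin : Finite {x : NumberField.RingOfIntegers F // ∃ j : ℕ, 0 < j ∧ x ^ j = 1} := by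
    have h1 : ∀ x : {x : NumberField.RingOfIntegers F // ∃ j : ℕ, 0 < j ∧ x ^ j = 1},
        ∃ u : NumberField.Units.torsion F, ((u.1 : (NumberField.RingOfIntegers F)ˣ) :
          NumberField.RingOfIntegers F) = x.1 := by
      rintro ⟨x, j, hj, hx⟩
      have hu : IsUnit x := IsUnit.of_pow_eq_one hx hj.ne'
      refine ⟨⟨hu.unit, ?_⟩, hu.unit_spec⟩
      show hu.unit ∈ CommGroup.torsion _
      rw [CommGroup.mem_torsion, isOfFinOrder_iff_pow_eq_one]
      refine ⟨j, hj, Units.ext ?_⟩
      rw [Units.val_pow_eq_pow_val, hu.unit_spec, hx]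
      rfl
    choose f hf using h1
    refine Finite.of_injective f fun x y h => ?_
    apply Subtype.ext
    rw [← hf x, ← hf y, h]
  have : Nonempty {x : NumberField.RingOfIntegers F // ∃ j : ℕ, 0 < j ∧ x ^ j = 1} :=
    ⟨⟨1, 1, one_pos, one_pow 1⟩⟩
  exact Nat.card_pos

theorem mu_pos (hV : IsRep V) (F : Type) [Field F] [Algebra F ℂ]
    (hF : (algebraMap F ℂ).fieldRange = Subfield.closure (Set.range fun g => (V g).trace)) :
    0 < mu (NumberField.RingOfIntegers F) := by
  have := numberField_of hV F hF
  exact mu_pos_of F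

end Pool.Agent.CMFP
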