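import Pool.Agent.CMF.LocMonA
import Pool.Agent.CMF.LocMonC
import Pool.Agent.CMF.KZ
import Pool.Agent.CMF.BRefl
import Pool.Agent.CMF.BaireA

/-! Project CMF: the Hecke relation for braid reflections. -/

namespace Pool.Agent.CMF

open Matrix Complex

noncomputable section

variable {N : SG} [Fintype N] {ι : Type} [Fintype ι] [DecidableEq ι]

variable (hN : ∃ s ∈ N, IsRefl s) {v₀ : VReg N}

namespace LocMonX

/-- A `LineHol` function that vanishes at the purely imaginary points vanishes identically. -/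
theorem lineHol_zero {J : Type} [Fintype J] (f : (J → ℂ) → ℂ) (hf : LineHol f)
    (h : ∀ y : J → ℝ, f (fun j => (y j : ℂ) * I) = 0) : ∀ k, f k = 0 := by
  intro k
  -- `g s = f (i x + s y)`, `x, y` imaginary
  let u : J → ℂ := fun j => ((k j).im : ℂ) * I
  let v : J → ℂ := fun j => ((k j).re : ℂ) * I
  have hg : Differentiable ℂ (fun s : ℂ => f (u + s • v)) := hf.2 u v
  have hreal : ∀ s : ℝ, f (u + (s : ℂ) • v) = 0 := by
    intro s
    have h1 : u + (s : ℂ) • v = fun j => (((k j).im + s * (k j).re : ℝ) : ℂ) * I := by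
      funext j
      simp only [u, v, Pi.add_apply, Pi.smul_apply, smul_eq_mul]
      push_cast
      ring
    rw [h1]
    exact h _
  have hzero : (fun s : ℂ => f (u + s • v)) = 0 := by
    have hA : AnalyticOnNhd ℂ (fun s : ℂ => f (u + s • v)) Set.univ :=
      fun z _ => (hg.analyticAt z)
    have hB : AnalyticOnNhd ℂ (fun _ : ℂ => (0 : ℂ)) Set.univ := analyticOnNhd_const
    refine funext fun z => ?_
    refine hA.eqOn_of_preconnected_of_frequently_eq hB isPreconnected_univ (Set.mem_univ 0) ?_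
      (Set.mem_univ z)
    rw [frequently_nhdsWithin_iff]
    rw [Filter.frequently_iff]
    intro U hU
    obtain ⟨r, hr, hrU⟩ := Metric.mem_nhds_iff.1 hU
    refine ⟨((r / 2 : ℝ) : ℂ), hrU ?_, hreal _, ?_⟩
    · rw [Metric.mem_ball, dist_zero_right, Complex.norm_real, Real.norm_of_nonneg (by linarith)]
      linarith
    · simp only [Set.mem_compl_iff, Set.mem_singleton_iff]
      intro h0
      have : (r / 2 : ℝ) = 0 := by exact_mod_cast h0
      linarith
  have h2 := congrFun hzero (-I)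
  have h3 : u + (-I) • v = k := by
    funext j
    simp only [u, v, Pi.add_apply, Pi.smul_apply, smul_eq_mul]
    have h4 : -I * (((k j).re : ℂ) * I) = (k j).re := by
      have := Complex.I_mul_I
      linear_combination (-((k j).re : ℂ)) * this
    rw [h4]
    rw [add_comm]
    exact Complex.re_add_im (k j)
  simp only [h3, Pi.zero_apply] at h2
  exact h2

theorem idx_eq_of_dvd (H : Arr N) (a b : ℤ) (h : (eH N H.1 : ℤ) ∣ b - a) : idx H a = idx H b := by
  refine Quot.sound ⟨⟨1, N.one_mem, ?_⟩, h⟩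
  show H.1 = mapL 1 H.1
  simp [mapL]

/-- the value of a product of linear factors, entrywise -/
theorem lineHol_aeval {P : Type} [NormedAddCommGroup P] [NormedSpace ℂ P]
    (T : P → Matrix ι ι ℂ) (hT : ∀ p q, LineHol (fun k => T k p q)) (c : ℕ → P → ℂ)
    (hc : ∀ j, LineHol (c j)) (m : ℕ) : ∀ p q, LineHol (fun k => (Polynomial.aeval (T k)
      (∏ j ∈ Finset.range m, (Polynomial.X - Polynomial.C (c j k)))) p q) := by
  induction m with
  | zero =>
    intro p q
    simp only [Finset.range_zero, Finset.prod_empty, map_one]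
    exact LineHol.const _
  | succ m ih =>
    intro p q
    have h1 : (fun k => (Polynomial.aeval (T k)
        (∏ j ∈ Finset.range (m + 1), (Polynomial.X - Polynomial.C (c j k)))) p q) =
        fun k => ∑ r, (Polynomial.aeval (T k)
          (∏ j ∈ Finset.range m, (Polynomial.X - Polynomial.C (c j k)))) p r *
          (T k r q + (-(if r = q then (1 : ℂ) else 0)) * c m k) := by
      funext k
      rw [Finset.prod_range_succ, map_mul, Matrix.mul_apply]
      refine Finset.sum_congr rfl fun r _ => ?_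
      congr 1
      rw [map_sub, Polynomial.aeval_X, Polynomial.aeval_C, Matrix.sub_apply,
        Algebra.algebraMap_eq_smul_one, Matrix.smul_apply, Matrix.one_apply, smul_eq_mul]
      ring
    rw [h1]
    exact LineHol.sum _ fun r _ => (ih p r).mul ((hT r q).add ((LineHol.const _).mul (hc m)))

end LocMonX

open LocMonX

/-- the Hecke relation for imaginary parameters -/
theorem LocMonX.hecke_imag (ρ : N →* Matrix ι ι ℂ) (k : Idx N → ℂ) (hk : ∀ i, (k i).re = 0)
    (H : Arr N) (b : Braid N v₀) (hb : IsBraidRefl H b) :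
    Polynomial.aeval (KZ hN ρ k b) (∏ j ∈ Finset.range (eH N H.1),
      (Polynomial.X - Polynomial.C (exp (2 * Real.pi * I / eH N H.1) ^ j *
        exp (-(2 * Real.pi * I) * k (sharp (idx H j)))))) = 0 := by
  obtain ⟨s, hs, hd, h, ν, hh, hh0, hsν, x, hx, hreg, p, a, ha, rfl⟩ := hb
  obtain ⟨R, hR, hreg', hR2⟩ := om_disc ρ H h ν hh hh0 hreg
  obtain ⟨hom, hB⟩ := hR2 k
  obtain ⟨X, hX0, hXu, hX1, hXa, hXq⟩ := exists_X hN ρ k H s hs h ν hh R hR hsν x hx hreg' hom hB a ha
  obtain ⟨ε, he1, he2, he3, he4⟩ := exists_eps ρ H s hs hd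
  set n : ℕ := eH N H.1 with hn
  have hn0 : 0 < n := eH_pos N H
  have hlogR : 0 < Real.log R := Real.log_pos hR
  set P0 : Matrix ι ι ℂ := PP hN ρ k p.toContinuousMap with hP0
  have hP0u : IsUnit P0 := PP_unit hN ρ k _
  -- the bound for the regular part
  obtain ⟨K, hK⟩ : ∃ K : ℝ, ∀ z : ℂ, ‖z‖ ≤ 1 → ∀ p q, ‖BH ρ k H h ν z p q‖ ≤ K := by
    have h1 : ∀ p q, ∃ C : ℝ, ∀ z ∈ Metric.closedBall (0 : ℂ) 1, ‖BH ρ k H h ν z p q‖ ≤ C := by
      intro p q
      refine (isCompact_closedBall (0 : ℂ) 1).exists_bound_of_continuousOn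
        ((hB p q).continuousOn.mono ?_)
      exact Metric.closedBall_subset_ball hR
    choose C hC using h1
    refine ⟨∑ p, ∑ q, |C p q|, fun z hz p q => ?_⟩
    have h2 : z ∈ Metric.closedBall (0 : ℂ) 1 := by rwa [mem_closedBall_zero_iff]
    calc ‖BH ρ k H h ν z p q‖ ≤ C p q := hC p q z h2
      _ ≤ |C p q| := le_abs_self _
      _ ≤ ∑ q, |C p q| :=
        Finset.single_le_sum (f := fun q => |C p q|) (fun _ _ => abs_nonneg _) (Finset.mem_univ q)
      _ ≤ ∑ p, ∑ q, |C p q| :=
        Finset.single_le_sum (f := fun p => ∑ q, |C p q|)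
          (fun _ _ => Finset.sum_nonneg fun _ _ => abs_nonneg _) (Finset.mem_univ p)
  let D : Dat ι :=
    { n := n
      ε := ε
      κ := fun j => (n : ℂ) * k (idx H j)
      a := aH ρ k H
      B := BH ρ k H h ν
      X := fun w => X w * P0
      K := K
      sum_ε := he1
      mul_ε := he2
      mul_a := he4 k
      re_κ := fun j => by
        rw [Complex.mul_re, hk, Complex.natCast_im]
        ring
      hB := hK
      hX := fun w hw p q => by
        have h1 := hX1 w (hw.trans_lt hlogR)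
        have h2 : HasDerivAt (fun w => ∑ r, X w p r * P0 r q)
            (∑ r, ((aH ρ k H + exp w • BH ρ k H h ν (exp w)) * X w) p r * P0 r q) w :=
          HasDerivAt.fun_sum fun r _ => (h1 p r).mul_const (P0 r q)
        rw [← Matrix.mul_assoc, Matrix.mul_apply]
        exact h2 }
  set θ : ℝ := 2 * Real.pi / n with hθ
  have hθ0 : 0 ≤ θ := by positivity
  have hθI : (θ : ℂ) * I = 2 * Real.pi * I / n := by
    rw [hθ]
    push_cast
    ring
  -- the monodromy
  set T : Matrix ι ι ℂ := KZ hN ρ k (Quotient.mk _ (BPath.ofPath s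
      ((p.trans a).trans ((p.symm).map (continuous_const_smul s)))) : Braid N v₀) with hTdef
  have hss : ρ s⁻¹ * ρ s = 1 := by rw [← map_mul, inv_mul_cancel, map_one]
  have hXθu : IsUnit (X (2 * Real.pi * I / n)) := by
    apply hXu
    rw [← hθI]
    simpa using hlogR
  have hT1 : X (2 * Real.pi * I / n) * P0 * T = ρ s * P0 := by
    have h1 : PP hN ρ k (BPath.ofPath s
        ((p.trans a).trans ((p.symm).map (continuous_const_smul s)))).f =
        (ρ s * P0⁻¹ * ρ s⁻¹) * (X (2 * Real.pi * I / n) * P0) := by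
      show PP hN ρ k ((p.trans a).trans
        ((p.symm).map (continuous_const_smul s))).toContinuousMap = _
      rw [PP_trans, PP_trans, hXa, ← PP_symm hN ρ k p]
      congr 1
      exact PP_smul hN ρ k s p.symm.toContinuousMap _ (fun t => rfl)
    have h2 : T = (PP hN ρ k (BPath.ofPath s
        ((p.trans a).trans ((p.symm).map (continuous_const_smul s)))).f)⁻¹ * ρ s :=
      KZ_mk hN ρ k _
    have h3 : IsUnit ((ρ s * P0⁻¹ * ρ s⁻¹) * (X (2 * Real.pi * I / n) * P0)) := by
      rw [← h1]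
      exact PP_unit hN ρ k _
    have h4 : ((ρ s * P0⁻¹ * ρ s⁻¹) * (X (2 * Real.pi * I / n) * P0)) * T = ρ s := by
      rw [h2, h1, ← Matrix.mul_assoc, Matrix.mul_nonsing_inv _
        ((Matrix.isUnit_iff_isUnit_det _).1 h3), Matrix.one_mul]
    have h5 : P0 * P0⁻¹ = 1 :=
      Matrix.mul_nonsing_inv _ ((Matrix.isUnit_iff_isUnit_det _).1 hP0u)
    have hss' : ρ s * ρ s⁻¹ = 1 := by rw [← map_mul, mul_inv_cancel, map_one]
    calc X (2 * Real.pi * I / n) * P0 * T
        = (ρ s * (P0 * (ρ s⁻¹ * ρ s) * P0⁻¹) * ρ s⁻¹) * (X (2 * Real.pi * I / n) * P0 * T) := by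
          rw [hss, Matrix.mul_one, h5, Matrix.mul_one, hss', Matrix.one_mul]
      _ = ρ s * P0 * ρ s⁻¹ * (((ρ s * P0⁻¹ * ρ s⁻¹) * (X (2 * Real.pi * I / n) * P0)) * T) := by
          simp only [Matrix.mul_assoc]
      _ = ρ s * P0 * ρ s⁻¹ * ρ s := by rw [h4]
      _ = ρ s * P0 := by rw [Matrix.mul_assoc, hss, Matrix.mul_one]
  refine D.main θ hθ0 (ρ s) T (fun j => (exp (2 * Real.pi * I / n))⁻¹ ^ j) he3 ?_ ?_ _ ?_
  · intro w hw
    show X (w + θ * I) * P0 * T = ρ s * (X w * P0)
    rw [hθI, hXq w (hw.trans_lt hlogR)]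
    calc ρ s * X w * ρ s⁻¹ * X (2 * Real.pi * I / n) * P0 * T
        = ρ s * X w * ρ s⁻¹ * (X (2 * Real.pi * I / n) * P0 * T) := by
          simp only [Matrix.mul_assoc]
      _ = ρ s * (X w * ((ρ s⁻¹ * ρ s) * P0)) := by
          rw [hT1]
          simp only [Matrix.mul_assoc]
      _ = ρ s * (X w * P0) := by rw [hss, Matrix.one_mul]
  · show IsUnit (X 0 * P0)
    rw [hX0, Matrix.one_mul]
    exact hP0u
  · intro j hj
    have hjn : j < n := Finset.mem_range.1 hj
    have hζn : exp (2 * Real.pi * I / n) ^ n = 1 := by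
      rw [← Complex.exp_nat_mul]
      have : (n : ℂ) * (2 * Real.pi * I / n) = 2 * Real.pi * I := by
        have : (n : ℂ) ≠ 0 := by exact_mod_cast hn0.ne'
        field_simp
      rw [this, Complex.exp_two_pi_mul_I]
    have hζ0 : exp (2 * Real.pi * I / n) ≠ 0 := Complex.exp_ne_zero _
    have hmem : (n - j) % n ∈ Finset.range n := Finset.mem_range.2 (Nat.mod_lt _ hn0)
    have hpow : exp (2 * Real.pi * I / n) ^ ((n - j) % n) = (exp (2 * Real.pi * I / n))⁻¹ ^ j := by
      rw [← pow_eq_pow_mod _ hζn, inv_pow]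
      apply eq_inv_of_mul_eq_one_left
      rw [← pow_add, Nat.sub_add_cancel hjn.le, hζn]
    have hidx : sharp (idx H (((n - j) % n : ℕ) : ℤ)) = idx H j := by
      rw [sharp_idx]
      apply idx_eq_of_dvd
      rw [sub_neg_eq_add]
      rcases Nat.eq_zero_or_pos j with rfl | hj0
      · simp
      · rw [Nat.mod_eq_of_lt (by omega)]
        rw [Nat.cast_sub hjn.le, add_sub_cancel]
    have heq : (exp (2 * Real.pi * I / n))⁻¹ ^ j * exp (-(D.κ j * (θ * I))) =
        exp (2 * Real.pi * I / n) ^ ((n - j) % n) *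
          exp (-(2 * Real.pi * I) * k (sharp (idx H (((n - j) % n : ℕ) : ℤ)))) := by
      rw [hpow, hidx]
      congr 2
      show -((n : ℂ) * k (idx H j) * (θ * I)) = _
      rw [hθI]
      have : (n : ℂ) ≠ 0 := by exact_mod_cast hn0.ne'
      field_simp
    rw [heq]
    exact Finset.dvd_prod_of_mem (fun j : ℕ => (Polynomial.X - Polynomial.C
      (exp (2 * Real.pi * I / n) ^ j * exp (-(2 * Real.pi * I) * k (sharp (idx H j)))))) hmem

/-- The Hecke relation. -/
theorem KZ_hecke (ρ : N →* Matrix ι ι ℂ) (k : Idx N → ℂ) (H : Arr N) (b : Braid N v₀)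
    (hb : IsBraidRefl H b) :
    Polynomial.aeval (KZ hN ρ k b) (∏ j ∈ Finset.range (eH N H.1),
      (Polynomial.X - Polynomial.C (exp (2 * Real.pi * I / eH N H.1) ^ j *
        exp (-(2 * Real.pi * I) * k (sharp (idx H j)))))) = 0 := by
  ext p q
  have hf := lineHol_aeval (fun k => KZ hN ρ k b) (fun p q => KZ_lineHol hN ρ b p q)
    (fun j k => exp (2 * Real.pi * I / eH N H.1) ^ j *
        exp (-(2 * Real.pi * I) * k (sharp (idx H j))))
    (fun j => (LineHol.const _).mul (LineHol.exp ((LineHol.const _).mul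
      (LineHol.clm (ContinuousLinearMap.proj (R := ℂ) (φ := fun _ : Idx N => ℂ)
        (sharp (idx H j))))))) (eH N H.1) p q
  refine lineHol_zero _ hf (fun y => ?_) k
  have h1 := hecke_imag hN ρ (fun i => (y i : ℂ) * I) (fun i => by simp) H b hb
  simp only
  rw [h1]
  rfl

end

end Pool.Agent.CMF
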