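import Pool.Agent.CMF.GRepA
import Pool.Agent.CMF.G1
import Pool.Agent.CMF.LocMon
import Pool.Agent.CMF.IDefs

/-! Project CMF, Glue 4: the monodromy representations as representations of the Hecke algebra `Hk`. -/

namespace Pool.Agent.CMF

open Matrix

noncomputable section

namespace G4

open G1

variable {G : Type} [Group G] {V : G → Matrix (Fin 2) (Fin 2) ℂ} (hV : CMFP.IsRep V)
  (hi : Function.Injective V)

/-- A representation of `G` as a representation of the image of `G` in `GL₂(ℂ)`. -/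
def repN {d : ℕ} (ρ : G → Matrix (Fin d) (Fin d) ℂ) (hρ : CMFP.IsRep ρ) :
    img hV →* Matrix (Fin d) (Fin d) ℂ where
  toFun a := ρ ((iso hV hi).symm a)
  map_one' := by rw [map_one, hρ.1]
  map_mul' a b := by rw [map_mul, hρ.2]

lemma repN_iso {d : ℕ} (ρ : G → Matrix (Fin d) (Fin d) ℂ) (hρ : CMFP.IsRep ρ) (g : G) :
    repN hV hi ρ hρ (iso hV hi g) = ρ g := by
  show ρ ((iso hV hi).symm (iso hV hi g)) = ρ g
  rw [MulEquiv.symm_apply_apply]

/-- The parameters of the monodromy: `k = κ^♯`. -/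
def kN (κ : CMFP.Idx V → ℂ) : Idx (img hV) → ℂ := fun i => par hV hi κ (sharp i)

lemma kN_sharp (κ : CMFP.Idx V → ℂ) (s : G) (hs : CMFP.IsRefl V s) (j : ℤ) :
    kN hV hi κ (sharp (idx (lineOf hV ⟨s, hs⟩) j)) = κ (CMFP.idx V s hs j) := by
  unfold kN
  rw [sharp_idx, sharp_idx, neg_neg, par_idx]

/-- If `κ = k^♯` then `kN κ` is `k`. -/
lemma kN_of (k κ : CMFP.Idx V → ℂ)
    (h : ∀ s hs j, κ (CMFP.idx V s hs j) = k (CMFP.idx V s hs (-j))) :
    kN hV hi κ = par hV hi k := by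
  funext i
  show par hV hi κ (sharp i) = par hV hi k i
  rw [par_sharp hV hi k κ h]
  congr 1
  induction i using Quot.inductionOn with
  | h a =>
    obtain ⟨H, j⟩ := a
    show sharp (sharp (idx H j)) = idx H j
    rw [sharp_idx, sharp_idx, neg_neg]

variable [Fintype G]

/-- The Hecke relation, in the form used in `Pres`. -/
theorem hecke_list {d : ℕ} (ρ : img hV →* Matrix (Fin d) (Fin d) ℂ)
    (hN : ∃ s ∈ img hV, IsRefl s) {v : VReg (img hV)} (κ : CMFP.Idx V → ℂ) (g : G)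
    (hs : CMFP.IsRefl V g) (b : Braid (img hV) v) (hb : IsBraidRefl (lineOf hV ⟨g, hs⟩) b)
    (q : ℕ → ℂ) (hq : ∀ j, q j = Complex.exp (-(2 * Real.pi * Complex.I) *
      κ (CMFP.idx V g hs (j : ℤ)))) :
    ((List.range (CMFP.ordH V g)).map fun j : ℕ => KZ hN ρ (kN hV hi κ) b -
      (CMFP.rot V g 1 ^ j * q j) • (1 : Matrix (Fin d) (Fin d) ℂ)).prod = 0 := by
  have h1 := KZ_hecke hN ρ (kN hV hi κ) (lineOf hV ⟨g, hs⟩) b hb
  have e1 : CMFP.ordH V g = eH (img hV) (lineOf hV ⟨g, hs⟩).1 := ordH_eq hV hi ⟨g, hs⟩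
  have e2 : CMFP.rot V g 1 =
      Complex.exp (2 * Real.pi * Complex.I / (eH (img hV) (lineOf hV ⟨g, hs⟩).1)) := by
    unfold CMFP.rot
    rw [e1]
    congr 1
    push_cast
    ring
  rw [← e2, ← e1] at h1
  have h2 : (∏ j ∈ Finset.range (CMFP.ordH V g),
      (Polynomial.X - Polynomial.C (CMFP.rot V g 1 ^ j *
        Complex.exp (-(2 * Real.pi * Complex.I) *
          kN hV hi κ (sharp (idx (lineOf hV ⟨g, hs⟩) (j : ℤ))))))) =
      ((List.range (CMFP.ordH V g)).map fun j : ℕ =>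
        (Polynomial.X - Polynomial.C (CMFP.rot V g 1 ^ j * q j) : Polynomial ℂ)).prod := by
    rw [Finset.prod_eq_multiset_prod, Finset.range_val, ← Multiset.coe_range, Multiset.map_coe,
      Multiset.prod_coe]
    congr 1
    refine List.map_congr_left fun j _ => ?_
    rw [kN_sharp, hq]
  rw [h2, map_list_prod, List.map_map] at h1
  rw [← h1]
  congr 1
  refine List.map_congr_left fun j _ => ?_
  simp only [Function.comp_apply, map_sub, Polynomial.aeval_X, Polynomial.aeval_C]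
  rw [Algebra.algebraMap_eq_smul_one]

/-- The monodromy representation as a representation of the Hecke algebra over any ring `R` with an
evaluation `ev : R → ℂ`, `ev(u_i)^μ = exp(-2πi κ_i)`. -/
theorem exists_rep {d : ℕ} (ρ : G → Matrix (Fin d) (Fin d) ℂ) (hρ : CMFP.IsRep ρ)
    (hN : ∃ s ∈ img hV, IsRefl s) {v₀ : Fin 2 → ℂ} {v : VReg (img hV)}
    (Φ : CMFP.BP V v₀ → Braid (img hV) v)
    (homot : ∀ a b, CMFP.Homot a b → Φ a = Φ b)
    (one : ∀ a : CMFP.BP V v₀, a.g = 1 → (∀ t ∈ Set.Icc (0 : ℝ) 1, a.f t = v₀) → Φ a = 1)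
    (mul : ∀ a b c : CMFP.BP V v₀, c.g = a.g * b.g →
      (∀ t ∈ Set.Icc (0 : ℝ) (1 / 2), c.f t = a.f (2 * t)) →
      (∀ t ∈ Set.Icc (1 / 2 : ℝ) 1, c.f t = V a.g *ᵥ b.f (2 * t - 1)) → Φ c = Φ a * Φ b)
    (refl : ∀ (b : CMFP.BP V v₀) (hs : CMFP.IsRefl V b.g), CMFP.IsBraidRefl b →
      IsBraidRefl (lineOf hV ⟨b.g, hs⟩) (Φ b))
    {Z : Type} [CommRing Z] [Algebra Z ℂ] {R : Type} [CommRing R] [Algebra Z R]
    (u : CMFP.Idx V → R) (ev : R →+* ℂ) (hev : ∀ z, ev (algebraMap Z R z) = algebraMap Z ℂ z)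
    (κ : CMFP.Idx V → ℂ)
    (hu : ∀ i, ev (u i) ^ CMFP.mu Z = Complex.exp (-(2 * Real.pi * Complex.I) * κ i)) :
    ∃ P : CMFP.Hk Z V v₀ u →+* Matrix (Fin d) (Fin d) ℂ,
      (∀ (r : R) (h : CMFP.Hk Z V v₀ u), P (r • h) = ev r • P h) ∧
      ∀ b, P (CMFP.hT Z u b) = KZ hN (repN hV hi ρ hρ) (kN hV hi κ) (Φ b) := by
  refine CMFP.GRepX.exists_lift u ev hev (fun b => KZ hN (repN hV hi ρ hρ) (kN hV hi κ) (Φ b))
    (fun a b h => ?_) (fun a hg h => ?_) (fun a b c hg h1 h2 => ?_) (fun b hs hb => ?_)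
  · simp only [homot a b h]
  · simp only [one a hg h, map_one]
  · simp only [mul a b c hg h1 h2, map_mul]
  · exact hecke_list hV hi (repN hV hi ρ hρ) hN κ b.g hs (Φ b) (refl b hs hb) _ fun j => hu _

/-- The evaluation `v_i ↦ exp(-2πi κ_i / M)` of Laurent polynomials. -/
def evLaur (Z : Type) [CommRing Z] [Algebra Z ℂ] {ι : Type} (M : ℕ) (κ : ι → ℂ) :
    CMFP.Laur Z ι →+* ℂ := evL Z M κ

lemma evLaur_algebraMap {Z : Type} [CommRing Z] [Algebra Z ℂ] {ι : Type} (M : ℕ) (κ : ι → ℂ)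
    (z : Z) : evLaur Z M κ (algebraMap Z (CMFP.Laur Z ι) z) = algebraMap Z ℂ z :=
  (AddMonoidAlgebra.lift Z ℂ (ι →₀ ℤ) (expChar M κ)).commutes z

lemma evL_mon {Z : Type} [CommRing Z] [Algebra Z ℂ] {ι : Type} (M : ℕ) (κ : ι → ℂ)
    (a : ι →₀ ℤ) : evL Z M κ (mon a) =
      Complex.exp (-(2 * Real.pi * Complex.I / M) * pairC a κ) := by
  show AddMonoidAlgebra.lift Z ℂ (ι →₀ ℤ) (expChar M κ) (AddMonoidAlgebra.single a 1) = _
  rw [AddMonoidAlgebra.lift_single, one_smul]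
  rfl

lemma evLaur_var {Z : Type} [CommRing Z] [Algebra Z ℂ] {ι : Type} {M : ℕ} (hM : 0 < M)
    (κ : ι → ℂ) (i : ι) :
    evLaur Z M κ (CMFP.var Z i) ^ M = Complex.exp (-(2 * Real.pi * Complex.I) * κ i) := by
  have h1 : evLaur Z M κ (CMFP.var Z i) =
      Complex.exp (-(2 * Real.pi * Complex.I / M) * pairC (Finsupp.single i 1) κ) :=
    evL_mon M κ _
  have h2 : pairC (Finsupp.single i (1 : ℤ)) κ = κ i := by
    simp [pair]
  have h3 : (M : ℂ) ≠ 0 := by exact_mod_cast hM.ne'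
  rw [h1, h2, ← Complex.exp_nat_mul]
  congr 1
  field_simp

/-- The monodromy representation of the generic Hecke algebra. -/
theorem exists_rep_generic {d : ℕ} (ρ : G → Matrix (Fin d) (Fin d) ℂ) (hρ : CMFP.IsRep ρ)
    (hN : ∃ s ∈ img hV, IsRefl s) {v₀ : Fin 2 → ℂ} {v : VReg (img hV)}
    (Φ : CMFP.BP V v₀ → Braid (img hV) v)
    (homot : ∀ a b, CMFP.Homot a b → Φ a = Φ b)
    (one : ∀ a : CMFP.BP V v₀, a.g = 1 → (∀ t ∈ Set.Icc (0 : ℝ) 1, a.f t = v₀) → Φ a = 1)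
    (mul : ∀ a b c : CMFP.BP V v₀, c.g = a.g * b.g →
      (∀ t ∈ Set.Icc (0 : ℝ) (1 / 2), c.f t = a.f (2 * t)) →
      (∀ t ∈ Set.Icc (1 / 2 : ℝ) 1, c.f t = V a.g *ᵥ b.f (2 * t - 1)) → Φ c = Φ a * Φ b)
    (refl : ∀ (b : CMFP.BP V v₀) (hs : CMFP.IsRefl V b.g), CMFP.IsBraidRefl b →
      IsBraidRefl (lineOf hV ⟨b.g, hs⟩) (Φ b))
    (Z : Type) [CommRing Z] [Algebra Z ℂ] (hM : 0 < CMFP.mu Z) (κ : CMFP.Idx V → ℂ) :
    ∃ P : CMFP.Hk Z V v₀ (CMFP.var Z) →+* Matrix (Fin d) (Fin d) ℂ,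
      (∀ (r : CMFP.Laur Z (CMFP.Idx V)) (h : CMFP.Hk Z V v₀ (CMFP.var Z)),
        P (r • h) = evLaur Z (CMFP.mu Z) κ r • P h) ∧
      ∀ b, P (CMFP.hT Z (CMFP.var Z) b) = KZ hN (repN hV hi ρ hρ) (kN hV hi κ) (Φ b) :=
  exists_rep hV hi ρ hρ hN Φ homot one mul refl _ (evLaur Z (CMFP.mu Z) κ)
    (evLaur_algebraMap _ κ) κ fun i => evLaur_var hM κ i

end G4

end

end Pool.Agent.CMF
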