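import Pool.Agent.CMF.I1
import Pool.Agent.CMF.I2
import Pool.Agent.CMF.BaireA

/-! Project CMF, module TR: traces of the monodromy representations.  A family of
representations over the evaluations `ev_κ`, holomorphic in `κ`, complete and with the right
characters at `κ = 0`, has the right characters at every `κ`. -/

set_option linter.unusedSectionVars false

namespace Pool.Agent.CMF

open Matrix

noncomputable section

variable {Z : Type} [CommRing Z] [IsDomain Z] {ι : Type}

namespace TRX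

/-- A trace form on a matrix algebra is a multiple of the trace. -/
lemma trace_form {n : ℕ} (hn : 0 < n) (φ : Matrix (Fin n) (Fin n) ℂ →ₗ[ℂ] ℂ)
    (h : ∀ x y, φ (x * y) = φ (y * x)) : ∃ a : ℂ, ∀ x, φ x = a * x.trace := by
  let o : Fin n := ⟨0, hn⟩
  refine ⟨φ (Matrix.single o o 1), fun x => ?_⟩
  have h1 : ∀ i j, φ (Matrix.single i j 1) = if i = j then φ (Matrix.single o o 1) else 0 := by
    intro i j
    have h2 : (Matrix.single i j (1 : ℂ)) = Matrix.single i o 1 * Matrix.single o j 1 := by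
      rw [Matrix.single_mul_single_same, one_mul]
    rw [h2, h]
    by_cases hij : i = j
    · subst hij
      rw [if_pos rfl, Matrix.single_mul_single_same, one_mul]
    · rw [if_neg hij, Matrix.single_mul_single_of_ne _ _ _ _ (Ne.symm hij), map_zero]
  have h3 : x = ∑ i, ∑ j, x i j • Matrix.single i j (1 : ℂ) := by
    conv_lhs => rw [Matrix.matrix_eq_sum_single x]
    refine Finset.sum_congr rfl fun i _ => Finset.sum_congr rfl fun j _ => ?_
    rw [Matrix.smul_single, smul_eq_mul, mul_one]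
  conv_lhs => rw [h3]
  rw [map_sum, Matrix.trace, Finset.mul_sum]
  refine Finset.sum_congr rfl fun i _ => ?_
  rw [map_sum, Finset.sum_eq_single i]
  · rw [map_smul, h1, if_pos rfl, smul_eq_mul, Matrix.diag_apply, mul_comm]
  · intro j _ hj
    rw [map_smul, h1, if_neg (Ne.symm hj), smul_zero]
  · intro hi
    exact absurd (Finset.mem_univ i) hi

variable [Algebra Z ℂ] [Fintype ι] {M : ℕ} (D : HData Z ι)

/-- The product of the matrix algebras. -/
abbrev B (D : HData Z ι) : Type := ∀ l : D.Λ, Matrix (Fin (D.d l)) (Fin (D.d l)) ℂ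

lemma finrank_B : Module.finrank ℂ (B D) = Fintype.card D.J := by
  rw [Module.finrank_pi_fintype, ← D.card]
  refine Finset.sum_congr rfl fun l _ => ?_
  rw [Module.finrank_matrix]
  simp [sq]

/-- The vector of the values of a representation at `h`. -/
def vec (r : ∀ l, D.H →+* Matrix (Fin (D.d l)) (Fin (D.d l)) ℂ) (h : D.H) : B D :=
  fun l => r l h

lemma vec_mul (r : ∀ l, D.H →+* Matrix (Fin (D.d l)) (Fin (D.d l)) ℂ) (h h' : D.H) :
    vec D r (h * h') = vec D r h * vec D r h' := by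
  funext l
  exact map_mul (r l) h h'

lemma vec_sum (r : ∀ l, D.H →+* Matrix (Fin (D.d l)) (Fin (D.d l)) ℂ) (e : Lau Z ι →+* ℂ)
    (hr : ∀ l a h, r l (a • h) = e a • r l h) (h : D.H) :
    vec D r h = ∑ j, e (D.b.repr h j) • vec D r (D.b j) := by
  funext l
  rw [Finset.sum_apply]
  show r l h = _
  conv_lhs => rw [← D.b.sum_repr h, map_sum]
  refine Finset.sum_congr rfl fun j _ => ?_
  rw [hr]
  rfl

lemma span_of (r : ∀ l, D.H →+* Matrix (Fin (D.d l)) (Fin (D.d l)) ℂ)
    (hli : LinearIndependent ℂ (fun j : D.J => vec D r (D.b j))) :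
    Submodule.span ℂ (Set.range fun j : D.J => vec D r (D.b j)) = ⊤ :=
  hli.span_eq_top_of_card_eq_finrank' (finrank_B D).symm

/-- `C_l` acts as a scalar. -/
lemma scalar (r : ∀ l, D.H →+* Matrix (Fin (D.d l)) (Fin (D.d l)) ℂ)
    (hli : LinearIndependent ℂ (fun j : D.J => vec D r (D.b j))) (l m : D.Λ) :
    r m (D.C l) = (r m (D.C l) ⟨0, D.d_pos m⟩ ⟨0, D.d_pos m⟩) • 1 := by
  have hcom : ∀ x : Matrix (Fin (D.d m)) (Fin (D.d m)) ℂ,
      r m (D.C l) * x = x * r m (D.C l) := by
    intro x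
    have key : ∀ z ∈ Submodule.span ℂ (Set.range fun j : D.J => vec D r (D.b j)),
        r m (D.C l) * z m = z m * r m (D.C l) := by
      intro z hz
      induction hz using Submodule.span_induction with
      | mem y hy =>
        obtain ⟨j, rfl⟩ := hy
        show r m (D.C l) * r m (D.b j) = r m (D.b j) * r m (D.C l)
        rw [← map_mul, ← map_mul, D.C_comm]
      | zero => rw [Pi.zero_apply, mul_zero, zero_mul]
      | add y z _ _ hy hz => rw [Pi.add_apply, mul_add, add_mul, hy, hz]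
      | smul c y _ hy => rw [Pi.smul_apply, mul_smul_comm, smul_mul_assoc, hy]
    have h1 := key (Pi.single m x) (by rw [span_of D r hli]; trivial)
    rwa [Pi.single_eq_same] at h1
  have hmem : r m (D.C l) ∈ Set.range (Matrix.scalar (Fin (D.d m)) (α := ℂ)) := by
    rw [Matrix.mem_range_scalar_iff_commute_single']
    intro i j
    exact (hcom _).symm
  obtain ⟨c, hc⟩ := hmem
  have h2 : r m (D.C l) = c • 1 := by
    rw [← hc, Matrix.smul_one_eq_diagonal]
    rfl
  rw [h2]
  simp

/-- `C_l² = s_l C_l`. -/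
lemma C_sq (l : D.Λ) : D.C l * D.C l = D.s l • D.C l := by
  rw [← sub_eq_zero]
  apply D.R_inj
  intro m
  rw [map_sub, map_mul, D.R_smul, D.R_C]
  split_ifs
  · rw [smul_mul_assoc, one_mul, sub_self]
  · rw [mul_zero, smul_zero, sub_self]

/-- The scalar of `C_l` is a root of `c² = ev(s_l) c`. -/
lemma scalar_sq (r : ∀ l, D.H →+* Matrix (Fin (D.d l)) (Fin (D.d l)) ℂ) (e : Lau Z ι →+* ℂ)
    (hr : ∀ l a h, r l (a • h) = e a • r l h)
    (hli : LinearIndependent ℂ (fun j : D.J => vec D r (D.b j))) (l m : D.Λ) :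
    (r m (D.C l) ⟨0, D.d_pos m⟩ ⟨0, D.d_pos m⟩) *
      (r m (D.C l) ⟨0, D.d_pos m⟩ ⟨0, D.d_pos m⟩ - e (D.s l)) = 0 := by
  have h1 := congrArg (r m) (C_sq D l)
  rw [map_mul, hr] at h1
  have h2 := scalar D r hli l m
  set c := r m (D.C l) ⟨0, D.d_pos m⟩ ⟨0, D.d_pos m⟩ with hc
  rw [h2] at h1
  have h3 := congrFun (congrFun h1 ⟨0, D.d_pos m⟩) ⟨0, D.d_pos m⟩
  rw [smul_mul_smul_comm, mul_one] at h3
  simp only [Matrix.smul_apply, Matrix.one_apply_eq, smul_eq_mul, mul_one] at h3
  rw [mul_sub, h3, mul_comm, sub_self]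

/-- Traces, once the values at the `C_l` are known. -/
lemma traces (r : ∀ l, D.H →+* Matrix (Fin (D.d l)) (Fin (D.d l)) ℂ) (e : Lau Z ι →+* ℂ)
    (hr : ∀ l a h, r l (a • h) = e a • r l h)
    (hli : LinearIndependent ℂ (fun j : D.J => vec D r (D.b j)))
    (hC : ∀ l m, r m (D.C l) = if m = l then e (D.s l) • 1 else 0) (l : D.Λ) (h : D.H) :
    (r l h).trace = e (D.X l h) := by
  have hspan := span_of D r hli
  let bas : Module.Basis D.J ℂ (B D) := Module.Basis.mk hli hspan.ge
  let t : B D →ₗ[ℂ] ℂ := bas.constr ℂ (fun j => e (D.τ (D.b j)))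
  have ht0 : ∀ j, t (vec D r (D.b j)) = e (D.τ (D.b j)) := by
    intro j
    have h1 : bas j = vec D r (D.b j) := Module.Basis.mk_apply hli hspan.ge j
    rw [← h1]
    exact bas.constr_basis ℂ _ j
  have ht : ∀ h, t (vec D r h) = e (D.τ h) := by
    intro h
    rw [vec_sum D r e hr h, map_sum]
    conv_rhs => rw [← D.b.sum_repr h, map_sum, map_sum]
    refine Finset.sum_congr rfl fun j _ => ?_
    rw [map_smul, ht0, map_smul, smul_eq_mul, smul_eq_mul, map_mul]
  have hvecmem : ∀ x : B D, x ∈ Submodule.span ℂ (Set.range fun j : D.J => vec D r (D.b j)) := by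
    intro x
    rw [hspan]
    trivial
  have hcomm : ∀ x y : B D, t (x * y) = t (y * x) := by
    intro x y
    induction hvecmem x using Submodule.span_induction with
    | mem x hx =>
      obtain ⟨i, rfl⟩ := hx
      induction hvecmem y using Submodule.span_induction with
      | mem y hy =>
        obtain ⟨j, rfl⟩ := hy
        rw [← vec_mul, ← vec_mul, ht, ht, D.τ_comm]
      | zero => rw [mul_zero, zero_mul]
      | add y z _ _ hy hz => rw [mul_add, add_mul, map_add, map_add, hy, hz]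
      | smul c y _ hy => rw [mul_smul_comm, smul_mul_assoc, map_smul, map_smul, hy]
    | zero => rw [mul_zero, zero_mul]
    | add x z _ _ hx hz => rw [mul_add, add_mul, map_add, map_add, hx, hz]
    | smul c x _ hx => rw [mul_smul_comm, smul_mul_assoc, map_smul, map_smul, hx]
  obtain ⟨a, ha⟩ := trace_form (D.d_pos l) (t.comp (LinearMap.single ℂ
    (fun m : D.Λ => Matrix (Fin (D.d m)) (Fin (D.d m)) ℂ) l)) (by
    intro x y
    rw [LinearMap.comp_apply, LinearMap.comp_apply, LinearMap.single_apply,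
      LinearMap.single_apply, Pi.single_mul, Pi.single_mul]
    exact hcomm _ _)
  have hv : ∀ h, vec D r (D.C l * h) = Pi.single l (e (D.s l) • r l h) := by
    intro h
    funext m
    show r m (D.C l * h) = _
    rw [map_mul, hC]
    by_cases hm : m = l
    · subst hm
      rw [if_pos rfl, Pi.single_eq_same, smul_mul_assoc, one_mul]
    · rw [if_neg hm, zero_mul, Pi.single_eq_of_ne hm]
  have hX : ∀ h, e (D.X l h) = e (D.s l) * a * (r l h).trace := by
    intro h
    have h1 := ha (e (D.s l) • r l h)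
    rw [LinearMap.comp_apply, LinearMap.single_apply, ← hv, ht, D.τ_C, Matrix.trace_smul,
      smul_eq_mul] at h1
    rw [h1]
    ring
  have h1 := hX 1
  rw [D.X_one, map_natCast, map_one, Matrix.trace_one, Fintype.card_fin] at h1
  have hd : ((D.d l : ℕ) : ℂ) ≠ 0 := by
    exact_mod_cast (D.d_pos l).ne'
  have h2 : e (D.s l) * a = 1 := by
    have h3 : (e (D.s l) * a - 1) * ((D.d l : ℕ) : ℂ) = 0 := by
      rw [sub_mul, ← h1, one_mul, sub_self]
    exact sub_eq_zero.1 ((mul_eq_zero.1 h3).resolve_right hd)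
  rw [hX, h2, one_mul]

/-- Linear independence at `0`. -/
lemma li0 (r : ∀ l, D.H →+* Matrix (Fin (D.d l)) (Fin (D.d l)) ℂ) (e : Lau Z ι →+* ℂ)
    (hr : ∀ l a h, r l (a • h) = e a • r l h)
    (span0 : Submodule.span ℂ (Set.range fun h : D.H => fun l => r l h) = ⊤) :
    LinearIndependent ℂ (fun j : D.J => vec D r (D.b j)) := by
  have hspan : Submodule.span ℂ (Set.range (fun j : D.J => vec D r (D.b j))) = ⊤ := by
    rw [eq_top_iff, ← span0, Submodule.span_le]
    rintro _ ⟨h, rfl⟩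
    show vec D r h ∈ _
    rw [vec_sum D r e hr h]
    exact Submodule.sum_mem _ fun j _ => Submodule.smul_mem _ _
      (Submodule.subset_span ⟨j, rfl⟩)
  exact linearIndependent_of_top_le_span_of_card_eq_finrank hspan.ge (finrank_B D).symm

/-- Values of the `C_l` at `0`. -/
lemma scalar0 (r : ∀ l, D.H →+* Matrix (Fin (D.d l)) (Fin (D.d l)) ℂ) (e : Lau Z ι →+* ℂ)
    (hli : LinearIndependent ℂ (fun j : D.J => vec D r (D.b j)))
    (htr : ∀ l h, (r l h).trace = e (D.X l h)) (l m : D.Λ) :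
    r m (D.C l) ⟨0, D.d_pos m⟩ ⟨0, D.d_pos m⟩ = if m = l then e (D.s l) else 0 := by
  have h1 := congrArg Matrix.trace (scalar D r hli l m)
  rw [htr, Matrix.trace_smul, Matrix.trace_one, Fintype.card_fin, smul_eq_mul] at h1
  have h2 := D.X_C_mul l m 1
  rw [mul_one] at h2
  rw [h2] at h1
  have hd : ((D.d m : ℕ) : ℂ) ≠ 0 := by
    exact_mod_cast (D.d_pos m).ne'
  apply mul_right_cancel₀ hd
  rw [← h1]
  split_ifs with hm
  · subst hm
    rw [D.X_one, map_mul, map_natCast]
  · rw [map_zero, zero_mul]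

/-- The Schur elements do not vanish at `0`. -/
lemma s_ne (r : ∀ l, D.H →+* Matrix (Fin (D.d l)) (Fin (D.d l)) ℂ) (e : Lau Z ι →+* ℂ)
    (hr : ∀ l a h, r l (a • h) = e a • r l h)
    (hli : LinearIndependent ℂ (fun j : D.J => vec D r (D.b j)))
    (htr : ∀ l h, (r l h).trace = e (D.X l h)) (l : D.Λ) : e (D.s l) ≠ 0 := by
  intro h0
  have h1 : vec D r (D.C l) = 0 := by
    funext m
    show r m (D.C l) = 0
    rw [scalar D r hli l m, scalar0 D r e hli htr l m, h0]
    split_ifs <;> exact zero_smul _ _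
  have h2 : ∑ j, e (D.X l (D.b' j)) • vec D r (D.b j) = 0 := by
    rw [← h1]
    funext m
    rw [Finset.sum_apply]
    show _ = r m (D.C l)
    rw [HData.C, map_sum]
    refine Finset.sum_congr rfl fun j _ => ?_
    rw [hr]
    rfl
  have h3 := Fintype.linearIndependent_iff.1 hli _ h2
  have h4 : e (D.X l 1) = 0 := by
    have h5 : D.X l 1 = ∑ j, D.X l (D.b' j) * D.τ (D.b j) := by
      have h6 := D.τ_C l 1
      rw [mul_one, HData.C, map_sum] at h6
      rw [← h6]
      refine Finset.sum_congr rfl fun j _ => ?_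
      rw [map_smul, smul_eq_mul]
    rw [h5, map_sum]
    refine Finset.sum_eq_zero fun j _ => ?_
    rw [map_mul, h3 j, zero_mul]
  rw [D.X_one, map_natCast] at h4
  exact absurd h4 (by exact_mod_cast (D.d_pos l).ne')

/-- The product of matrix algebras as a space of functions. -/
def toFun (D : HData Z ι) : B D ≃ₗ[ℂ] (∀ l : D.Λ, Fin (D.d l) → Fin (D.d l) → ℂ) where
  toFun A := fun l i k => A l i k
  invFun A := fun l => Matrix.of (A l)
  map_add' _ _ := rfl
  map_smul' _ _ := rfl
  left_inv _ := rfl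
  right_inv _ := rfl

/-- Linear independence is an open condition. -/
lemma li_near (ρ : (ι → ℂ) → ∀ l, D.H →+* Matrix (Fin (D.d l)) (Fin (D.d l)) ℂ)
    (hol : ∀ l h p q, LineHol (fun κ : ι → ℂ => ρ κ l h p q))
    (hli : LinearIndependent ℂ (fun j : D.J => vec D (ρ 0) (D.b j))) :
    ∀ᶠ κ in nhds (0 : ι → ℂ), LinearIndependent ℂ (fun j : D.J => vec D (ρ κ) (D.b j)) := by
  have h1 : LinearIndependent ℂ (fun j : D.J => toFun D (vec D (ρ 0) (D.b j))) :=
    hli.map' (toFun D).toLinearMap (LinearEquiv.ker _)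
  have h2 : ContinuousAt (fun κ : ι → ℂ => fun j : D.J => toFun D (vec D (ρ κ) (D.b j))) 0 := by
    refine continuousAt_pi.2 fun j => continuousAt_pi.2 fun l => continuousAt_pi.2 fun p =>
      continuousAt_pi.2 fun q => ?_
    exact (hol l (D.b j) p q).1.continuousAt
  have h3 := h2.eventually h1.eventually
  refine h3.mono fun κ hκ => ?_
  exact LinearIndependent.of_comp (toFun D).toLinearMap hκ

end TRX

/-- A family of representations over the evaluations `ev_κ`, holomorphic in `κ`, which at `κ = 0`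
is complete and has the characters `X_l`, has the characters `X_l` at every `κ`. -/
theorem trace_of_zero [Algebra Z ℂ] [Fintype ι] (hinj : Function.Injective (algebraMap Z ℂ))
    {M : ℕ} (hM : 0 < M) (D : HData Z ι)
    (ρ : (ι → ℂ) → ∀ l, D.H →+* Matrix (Fin (D.d l)) (Fin (D.d l)) ℂ)
    (hsmul : ∀ κ l a h, ρ κ l (a • h) = evL Z M κ a • ρ κ l h)
    (hol : ∀ l h p q, LineHol (fun κ : ι → ℂ => ρ κ l h p q))
    (span0 : Submodule.span ℂ (Set.range fun h : D.H => fun l => ρ 0 l h) = ⊤)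
    (tr0 : ∀ l h, (ρ 0 l h).trace = evL Z M 0 (D.X l h)) :
    ∀ κ l h, (ρ κ l h).trace = evL Z M κ (D.X l h) := by
  have hli0 := TRX.li0 D (ρ 0) (evL Z M 0) (hsmul 0) span0
  have hs0 := TRX.s_ne D (ρ 0) (evL Z M 0) (hsmul 0) hli0 tr0
  have hval0 := TRX.scalar0 D (ρ 0) (evL Z M 0) hli0 tr0
  have hnear := TRX.li_near D ρ hol hli0
  -- the values at the central elements, near `0`
  have hC : ∀ᶠ κ in nhds (0 : ι → ℂ), ∀ l m, ρ κ m (D.C l) =
      if m = l then evL Z M κ (D.s l) • 1 else 0 := by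
    rw [Filter.eventually_all]
    intro l
    rw [Filter.eventually_all]
    intro m
    by_cases hm : m = l
    · have h1 : ∀ᶠ κ in nhds (0 : ι → ℂ),
          ρ κ m (D.C l) ⟨0, D.d_pos m⟩ ⟨0, D.d_pos m⟩ ≠ 0 := by
        refine (hol m (D.C l) _ _).1.continuousAt.eventually_ne ?_
        rw [hval0, if_pos hm]
        exact hs0 l
      filter_upwards [hnear, h1] with κ hκ h2
      have h3 := (mul_eq_zero.1 (TRX.scalar_sq D (ρ κ) (evL Z M κ) (hsmul κ) hκ l m)).resolve_left
        h2
      rw [if_pos hm, TRX.scalar D (ρ κ) hκ l m, sub_eq_zero.1 h3]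
    · have h1 : ∀ᶠ κ in nhds (0 : ι → ℂ),
          ρ κ m (D.C l) ⟨0, D.d_pos m⟩ ⟨0, D.d_pos m⟩ - evL Z M κ (D.s l) ≠ 0 := by
        refine ((hol m (D.C l) _ _).1.sub (evL_hol (D.s l)).1).continuousAt.eventually_ne ?_
        show ρ 0 m (D.C l) ⟨0, D.d_pos m⟩ ⟨0, D.d_pos m⟩ - evL Z M 0 (D.s l) ≠ 0
        rw [hval0, if_neg hm, zero_sub, neg_ne_zero]
        exact hs0 l
      filter_upwards [hnear, h1] with κ hκ h2
      have h3 := (mul_eq_zero.1 (TRX.scalar_sq D (ρ κ) (evL Z M κ) (hsmul κ) hκ l m)).resolve_right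
        h2
      rw [if_neg hm, TRX.scalar D (ρ κ) hκ l m, h3, zero_smul]
  have hfin : ∀ l h, ∀ᶠ κ in nhds (0 : ι → ℂ),
      (ρ κ l h).trace - evL Z M κ (D.X l h) = 0 := by
    intro l h
    filter_upwards [hnear, hC] with κ hκ h1
    rw [TRX.traces D (ρ κ) (evL Z M κ) (hsmul κ) hκ h1 l h, sub_self]
  intro κ l h
  have hhol : LineHol (fun κ : ι → ℂ => (ρ κ l h).trace - evL Z M κ (D.X l h)) := by
    have h1 : LineHol (fun κ : ι → ℂ => (∑ i, ρ κ l h i i) + (-1) * evL Z M κ (D.X l h)) :=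
      (LineHol.sum _ fun i _ => hol l h i i).add ((LineHol.const _).mul (evL_hol _))
    have h2 : (fun κ : ι → ℂ => (ρ κ l h).trace - evL Z M κ (D.X l h)) =
        fun κ : ι → ℂ => (∑ i, ρ κ l h i i) + (-1) * evL Z M κ (D.X l h) := by
      funext κ
      rw [Matrix.trace]
      simp only [Matrix.diag_apply]
      ring
    rw [h2]
    exact h1
  exact sub_eq_zero.1 (hhol.eq_zero_of_eventually 0 (hfin l h) κ)

end

end Pool.Agent.CMF
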