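import Pool.Agent.CMF.G2
import Pool.Agent.CMF.G7a
import Pool.Agent.CMF.G7b
import Pool.Agent.CMF.G7bB
import Pool.Agent.CMF.G8
import Pool.Agent.CMF.G9
import Pool.Agent.CMF.G10a
import Pool.Agent.CMF.GMu
import Pool.Agent.CMF.GRep
import Pool.Agent.CMF.TR
import Pool.Agent.CMF.CM1
import Pool.Agent.CMF.CM3b
import Pool.Agent.CMF.G3
import Pool.Agent.CMF.G7c
import Pool.Agent.CMF.G7e

/-! Project CMF: assembly of the rank 2 theorem. -/

set_option linter.unusedSectionVars false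

namespace Pool.Agent.CMF

open Matrix G1 G4

noncomputable section

section Fam

variable {G : Type} [Group G] [Fintype G] {V : G → Matrix (Fin 2) (Fin 2) ℂ}
  {Λ : Type} [Fintype Λ] {d : Λ → ℕ} {ρ : ∀ l, G → Matrix (Fin (d l)) (Fin (d l)) ℂ}

/-- There is a reflection. -/
theorem exists_refl (hV : CMFP.IsReflGroup V) : ∃ s ∈ img hV.1, IsRefl s := by
  by_contra hne
  have h1 : ∀ s, ¬ CMFP.IsRefl V s := by
    intro s hs
    exact hne ⟨toGL hV.1 s, ⟨s, rfl⟩, (isRefl_iff hV.1 s).2 hs⟩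
  have h2 : {s | CMFP.IsRefl V s} = ∅ := Set.eq_empty_of_forall_notMem h1
  have h3 := hV.2.2.1
  rw [h2, Subgroup.closure_empty] at h3
  have h4 : ∀ g : G, g = 1 := by
    intro g
    have : g ∈ (⊤ : Subgroup G) := trivial
    rw [← h3] at this
    exact (Subgroup.mem_bot).1 this
  have h5 := hV.2.2.2 (Pi.single 0 1) (by
    intro h
    have := congrFun h 0
    simp at this)
  have h6 : (Set.range fun g => V g *ᵥ (Pi.single 0 1 : Fin 2 → ℂ)) ⊆ {Pi.single 0 1} := by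
    rintro _ ⟨g, rfl⟩
    rw [h4 g]
    show V 1 *ᵥ (Pi.single 0 1 : Fin 2 → ℂ) = _
    rw [hV.1.1, Matrix.one_mulVec]
  have h7 : Submodule.span ℂ {(Pi.single 0 1 : Fin 2 → ℂ)} = ⊤ := by
    rw [eq_top_iff, ← h5]
    exact Submodule.span_mono h6
  have h8 : Module.finrank ℂ (Submodule.span ℂ {(Pi.single 0 1 : Fin 2 → ℂ)}) ≤ 1 :=
    (finrank_span_le_card _).trans (by simp)
  rw [h7, finrank_top] at h8
  simp at h8

theorem repN_bij (hV : CMFP.IsReflGroup V) (hρ : CMFP.IsIrrFam d ρ) :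
    Function.Bijective (fun (a : MonoidAlgebra ℂ (img hV.1)) (l : Λ) =>
      MonoidAlgebra.lift ℂ _ (img hV.1) (G4.repN hV.1 hV.2.1 (ρ l) (hρ.1 l).2) a) := by
  have key : ∀ (a : MonoidAlgebra ℂ (img hV.1)) (l : Λ),
      MonoidAlgebra.lift ℂ _ (img hV.1) (G4.repN hV.1 hV.2.1 (ρ l) (hρ.1 l).2) a =
        ∑ g : G, a.coeff (iso hV.1 hV.2.1 g) • ρ l g := by
    intro a l
    rw [MonoidAlgebra.lift_apply, Finsupp.sum_fintype _ _ (fun _ => by rw [zero_smul])]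
    rw [← (iso hV.1 hV.2.1).toEquiv.sum_comp]
    refine Finset.sum_congr rfl fun g _ => ?_
    congr 1
    exact repN_iso hV.1 hV.2.1 (ρ l) (hρ.1 l).2 g
  have h2 : (fun (a : MonoidAlgebra ℂ (img hV.1)) (l : Λ) =>
      MonoidAlgebra.lift ℂ _ (img hV.1) (G4.repN hV.1 hV.2.1 (ρ l) (hρ.1 l).2) a) =
      (fun (a : G → ℂ) (l : Λ) => ∑ g, a g • ρ l g) ∘
        (fun a : MonoidAlgebra ℂ (img hV.1) => fun g : G => a.coeff (iso hV.1 hV.2.1 g)) := by
    funext a l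
    exact key a l
  rw [h2]
  refine hρ.2.comp ⟨?_, ?_⟩
  · intro a b hab
    apply MonoidAlgebra.ext
    apply Finsupp.ext
    intro x
    have := congrFun hab ((iso hV.1 hV.2.1).symm x)
    simpa using this
  · intro f
    refine ⟨MonoidAlgebra.ofCoeff (Finsupp.equivFunOnFinite.symm fun x => f ((iso hV.1 hV.2.1).symm x)), ?_⟩
    funext g
    simp

/-- The complete family of irreducible representations of the image. -/
def famG [DecidableEq Λ] (hV : CMFP.IsReflGroup V) (hρ : CMFP.IsIrrFam d ρ) :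
    IrrFam (img hV.1) where
  Λ := Λ
  d := d
  pos l := (hρ.1 l).1
  ρ l := G4.repN hV.1 hV.2.1 (ρ l) (hρ.1 l).2
  bij := repN_bij hV hρ

end Fam

section Main

variable {G : Type} [Group G] [Fintype G] {V : G → Matrix (Fin 2) (Fin 2) ℂ}
  {Λ : Type} [Fintype Λ] {d : Λ → ℕ} {ρ : ∀ l, G → Matrix (Fin (d l)) (Fin (d l)) ℂ}

/-- The translation of the parameters, as a linear map. -/
def kNL (hV : CMFP.IsReflGroup V) : (CMFP.Idx V → ℂ) →ₗ[ℂ] (Idx (img hV.1) → ℂ) where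
  toFun κ := kN hV.1 hV.2.1 κ
  map_add' _ _ := rfl
  map_smul' _ _ := rfl

/-- Equal Euler values for all parameters give proportional characters on the reflections. -/
theorem euler_eq {N : SG} [Fintype N] (Φ : IrrFam N) (l l' : Φ.Λ)
    (h : ∀ k : Idx N → ℂ, cInf (Φ.ρ l) k = cInf (Φ.ρ l') k)
    (w : N) (hw : IsRefl w.1) :
    (Φ.ρ l w).trace * (Φ.d l' : ℂ) = (Φ.ρ l' w).trace * (Φ.d l : ℂ) := by
  refine CMFG.euler_eq Φ l l' (fun k => ⟨cInf (Φ.ρ l) k, ?_, ?_⟩) w hw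
  · have : Nonempty (Fin (Φ.d l)) := ⟨⟨0, Φ.pos l⟩⟩
    exact Ainf_scalar (Φ.ρ l) k (ThmSX.span_top Φ l)
  · have : Nonempty (Fin (Φ.d l')) := ⟨⟨0, Φ.pos l'⟩⟩
    rw [h]
    exact Ainf_scalar (Φ.ρ l') k (ThmSX.span_top Φ l')

/-- The pairs of the presentation and the braids of the image. -/
theorem exists_br (hV : CMFP.IsReflGroup V) {v₀ : Fin 2 → ℂ} (hv₀ : CMFP.Reg V v₀)
    (v : VReg (img hV.1)) (hv : v.1 = v₀) :
    ∃ Φ : CMFP.BP V v₀ → Braid (img hV.1) v,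
      (∀ a b, CMFP.Homot a b → Φ a = Φ b) ∧
      (∀ a : CMFP.BP V v₀, a.g = 1 → (∀ t ∈ Set.Icc (0 : ℝ) 1, a.f t = v₀) → Φ a = 1) ∧
      (∀ a b c : CMFP.BP V v₀, c.g = a.g * b.g →
        (∀ t ∈ Set.Icc (0 : ℝ) (1 / 2), c.f t = a.f (2 * t)) →
        (∀ t ∈ Set.Icc (1 / 2 : ℝ) 1, c.f t = V a.g *ᵥ b.f (2 * t - 1)) → Φ c = Φ a * Φ b) ∧
      (∀ (b : CMFP.BP V v₀) (hs : CMFP.IsRefl V b.g), CMFP.IsBraidRefl b →
        IsBraidRefl (lineOf hV.1 ⟨b.g, hs⟩) (Φ b)) ∧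
      (∀ b, Braid.proj (Φ b) = iso hV.1 hV.2.1 b.g) ∧ Function.Surjective Φ ∧
      Φ (piBP hV.1.1 hv₀) = piB v := by
  obtain ⟨Φ, h1, h2, h3, h4, h5, h6, h7⟩ := G3.exists_br hV v hv
  refine ⟨Φ, h1, h2, h3, h4, h5, h6, ?_⟩
  refine h7 (piBP hV.1.1 hv₀) _ ?_ ?_
  · exact map_one _
  · intro t
    show Complex.exp _ • v₀ = Complex.exp _ • v.1
    rw [hv]

/-- Martino's conjecture for the irreducible plane reflection groups, `K = ℂ`. -/
theorem plane_main (hV : CMFP.IsReflGroup V) (hρ : CMFP.IsIrrFam d ρ)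
    {F : Type} [Field F] [Algebra F ℂ]
    (hF : (algebraMap F ℂ).fieldRange = Subfield.closure (Set.range fun g => (V g).trace))
    {v₀ : Fin 2 → ℂ} (hv₀ : CMFP.Reg V v₀) (D : CMFP.StdHk F V v₀ d) (hD : D.Specialises ρ)
    (S : CMFP.SchurForm F D.schurElt) (k κ : CMFP.Idx V → ℂ)
    (hκ : ∀ s hs j, κ (CMFP.idx V s hs j) = k (CMFP.idx V s hs (-j)))
    (m : CMFP.Idx V → ℤ) (hm : CMFP.SameEssential S κ m) (χ ψ : Λ)
    (h : CMFP.CMSep V (CMFP.cPar V V k) (ρ χ) (ρ ψ)) : D.RouSep m χ ψ := by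
  classical
  have hfin : Finite (CMFP.Idx V) := idx_finite hV.1
  letI : Fintype (CMFP.Idx V) := Fintype.ofFinite _
  have hd : ∀ l, 0 < d l := fun l => (hρ.1 l).1
  have hM := CMFP.mu_pos hV.1 F hF
  have hN := exists_refl hV
  let v : VReg (img hV.1) := ⟨v₀, (reg_iff hV.1 v₀).1 hv₀⟩
  obtain ⟨Φ, homot, one, mul, refl, proj, surj, hpi⟩ := exists_br hV hv₀ v rfl
  -- the monodromy representations
  choose P hP hP' using fun (κ : CMFP.Idx V → ℂ) (l : Λ) =>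
    exists_rep_generic hV.1 hV.2.1 (ρ l) (hρ.1 l).2 hN Φ homot one mul refl
      (NumberField.RingOfIntegers F) hM κ
  have hP0 : ∀ l b, P 0 l (CMFP.hT _ (CMFP.var _) b) = ρ l b.g := by
    intro l b
    rw [hP']
    have h0 : kN hV.1 hV.2.1 (0 : CMFP.Idx V → ℂ) = 0 := rfl
    rw [h0, KZ_zero, proj, repN_iso]
  have hsurj : Function.Surjective (fun b : CMFP.BP V v₀ => b.g) := by
    intro g
    obtain ⟨b', hb'⟩ := proj_surj hN v (iso hV.1 hV.2.1 g)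
    obtain ⟨b, rfl⟩ := surj b'
    refine ⟨b, ?_⟩
    rw [proj] at hb'
    exact (iso hV.1 hV.2.1).injective hb'
  have hol := fun l h p q => G4.rho_hol hV.1 hV.2.1 (ρ l) (hρ.1 l).2 hN hv₀ Φ
    (NumberField.RingOfIntegers F) (fun κ => P κ l) (fun κ => hP κ l) (fun κ => hP' κ l) h p q
  have tr0 := fun l h => G4.rho_tr0 hV.1 hV.2.1 (ρ l) (hρ.1 l).2 hN hv₀ Φ
    (NumberField.RingOfIntegers F) (fun κ => P κ l) (fun κ => hP κ l) (fun κ => hP' κ l) proj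
    (CMFP.Std.X D l) (hD l) h
  have span0 := span0_of_braid hρ (fun b : CMFP.BP V v₀ => b.g) hsurj
    (CMFP.hT (NumberField.RingOfIntegers F) (CMFP.var _)) (fun l h => P 0 l h) hP0
  have tr := trace_of_zero inj_int hM (stdHData D hd) P hP hol span0 tr0
  -- the full twist
  have hne : ∀ l, Nonempty (Fin (d l)) := fun l => ⟨⟨0, hd l⟩⟩
  have hspan : ∀ l, Submodule.span ℂ
      (Set.range (G4.repN hV.1 hV.2.1 (ρ l) (hρ.1 l).2)) = ⊤ := fun l =>
    span_of_irrFam' hρ l (iso hV.1 hV.2.1).symm _ fun g => rfl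
  let cL : Λ → ((CMFP.Idx V → ℂ) →ₗ[ℂ] ℂ) := fun l =>
    (cInf (G4.repN hV.1 hV.2.1 (ρ l) (hρ.1 l).2)).comp (kNL hV)
  have hcL : ∀ l (κ : CMFP.Idx V → ℂ), cL l κ = ∑ i, cL l (Pi.single i 1) * κ i := by
    intro l κ
    rw [LinearMap.pi_apply_eq_sum_univ (cL l) κ]
    refine Finset.sum_congr rfl fun i _ => ?_
    rw [smul_eq_mul, mul_comm]
    have h1 : (fun j => if i = j then (1 : ℂ) else 0) = Pi.single i 1 := by
      funext j
      rw [Pi.single_apply]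
      simp only [eq_comm]
    rw [h1]
  have hc : ∀ κ l, P κ l (CMFP.hT _ (CMFP.var _) (piBP hV.1.1 hv₀)) =
      Complex.exp (-(2 * Real.pi * Complex.I) * ∑ i, cL l (Pi.single i 1) * κ i) •
        (1 : Matrix (Fin (d l)) (Fin (d l)) ℂ) := by
    intro κ l
    have := hne l
    rw [hP', hpi, ← hcL]
    exact KZ_piB_exp hN _ (hspan l) _
  obtain ⟨a, ha, ha'⟩ := exists_twist hV.1 hM ρ hρ D hsurj P hP (piBP hV.1.1 hv₀) rfl
    (fun l i => cL l (Pi.single i 1)) hc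
  let Q : KZData (stdHData D hd) (CMFP.mu (NumberField.RingOfIntegers F)) :=
    { ρ := P, ρ_smul := hP, tr := tr, hol := hol, span0 := span0
      π := CMFP.hT _ (CMFP.var _) (piBP hV.1.1 hv₀), a := a, ρπ := ha' }
  -- the Calogero-Moser side
  have hCM : CMSep (img hV.1) (cK (par hV.1 hV.2.1 k)) ((famG hV hρ).ρ χ) ((famG hV hρ).ρ ψ) := by
    refine cmSep_of V (img hV.1) (iso hV.1 hV.2.1) (iso_val hV.1 hV.2.1) (CMFP.cPar V V k) _
      ?_ ?_ (ρ χ) (ρ ψ) _ _ ?_ ?_ h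
    · intro g _
      exact (cPar_eq hV.1 hV.2.1 k g).symm
    · intro g hg
      rw [isRefl_iso] at hg
      unfold CMFP.cPar
      rw [dif_neg hg]
    · exact repN_iso hV.1 hV.2.1 (ρ χ) (hρ.1 χ).2
    · exact repN_iso hV.1 hV.2.1 (ρ ψ) (hρ.1 ψ).2
  obtain ⟨Ft, hdec, z, hz, hχ, hψ⟩ := exists_sepWord (famG hV hρ) (par hV.1 hV.2.1 k) χ ψ hCM
  have hkN : kN hV.1 hV.2.1 κ = par hV.1 hV.2.1 k := kN_of hV.1 hV.2.1 k κ hκ
  have hS : ThmS (stdHData D hd) Q Ft κ := by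
    refine thmS_abs' hN (famG hV hρ) (stdHData D hd) Q (kNL hV) id (fun _ => rfl) Φ surj
      (CMFP.hT _ (CMFP.var _)) ?_ κ Ft z ?_ Ft (fun _ => Iff.rfl)
    · intro κ' l b p q
      exact congrFun (congrFun (hP' κ' l b) p) q
    · show SepWord (famG hV hρ) (kN hV.1 hV.2.1 κ) Ft z
      rw [hkN]
      exact hz
  refine rouSep_final D hd S (countable_int (fun g => (V g).trace) hF) inj_int hM Q Ft ?_ κ m hm
    hS χ ψ hχ hψ
  intro l l' hll
  refine sepWord_euler hN (famG hV hρ) _ Ft z hz l l' fun w hw => ?_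
  refine euler_eq (famG hV hρ) l l' (fun k' => ?_) w hw
  have hM0 : (CMFP.mu (NumberField.RingOfIntegers F) : ℂ) ≠ 0 := by exact_mod_cast hM.ne'
  have h1 : ∀ i, cL l (Pi.single i 1) = cL l' (Pi.single i 1) := by
    intro i
    have e1 := ha l i
    have e2 := ha l' i
    have e3 : a l = a l' := hll
    rw [e3, e2] at e1
    exact (mul_left_cancel₀ hM0 e1).symm
  have h2 : ∀ κ', cL l κ' = cL l' κ' := by
    intro κ'
    rw [hcL, hcL]
    exact Finset.sum_congr rfl fun i _ => by rw [h1]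
  have h3 := h2 (fun i => k' (sharp (idxEquiv hV.1 hV.2.1 i)))
  have h4 : kN hV.1 hV.2.1 (fun i => k' (sharp (idxEquiv hV.1 hV.2.1 i))) = k' := by
    funext x
    show k' (sharp (idxEquiv hV.1 hV.2.1 ((idxEquiv hV.1 hV.2.1).symm (sharp x)))) = k' x
    rw [Equiv.apply_symm_apply]
    induction x using Quot.inductionOn with
    | h y =>
      obtain ⟨H, j⟩ := y
      show k' (sharp (sharp (idx H j))) = k' (idx H j)
      rw [sharp_idx, sharp_idx, neg_neg]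
  have h5 : ∀ l, cL l (fun i => k' (sharp (idxEquiv hV.1 hV.2.1 i))) =
      cInf (G4.repN hV.1 hV.2.1 (ρ l) (hρ.1 l).2) k' := by
    intro l
    show cInf _ (kN hV.1 hV.2.1 _) = _
    rw [h4]
  rw [h5, h5] at h3
  exact h3

end Main

end

end Pool.Agent.CMF
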