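import Pool.Agent.CMF.Pres

/-! Project CMF: representations over two fields with the same character. -/

namespace Pool.Agent.CMFP

/-- `σ` (over `K`) and `ρ` (over `L`) have the same character, with values in `F`. -/
def SameChar (F : Type) [Field F] {K L G : Type} [Field K] [Field L] [Algebra F K] [Algebra F L]
    {n : ℕ} (σ : G → Matrix (Fin n) (Fin n) K) (ρ : G → Matrix (Fin n) (Fin n) L) : Prop :=
  ∀ g, ∃ a : F, algebraMap F K a = (σ g).trace ∧ algebraMap F L a = (ρ g).trace

end Pool.Agent.CMFP
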