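import Mathlib

namespace Pool.Agent.CMFP.Lef

open Cardinal

/-- A countable extension of `F` embeds into `ℂ` over `F`. -/
theorem exists_embedding (F L : Type) [Field F] [Field L] [Algebra F L] [Algebra F ℂ]
    [Countable L] [Countable F] : Nonempty (L →ₐ[F] ℂ) := by
  obtain ⟨ι, x, hx⟩ := exists_isTranscendenceBasis' F L
  obtain ⟨κ, y, hy⟩ := exists_isTranscendenceBasis' F ℂ
  have hι : #ι ≤ ℵ₀ := by
    have : Countable ι := hx.1.injective.countable
    exact Cardinal.mk_le_aleph0
  have hκ : ℵ₀ ≤ #κ := by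
    by_contra hlt
    have hlt' : #κ ≤ ℵ₀ := le_of_lt (not_le.1 hlt)
    have h1 := IsAlgClosed.cardinal_le_max_transcendence_basis y hy
    simp only [Cardinal.lift_id] at h1
    have h2 : #ℂ ≤ ℵ₀ := h1.trans (max_le (max_le (Cardinal.mk_le_aleph0) hlt') le_rfl)
    rw [Cardinal.mk_complex] at h2
    exact absurd h2 (not_le.2 Cardinal.aleph0_lt_continuum)
  obtain ⟨j⟩ : Nonempty (ι ↪ κ) := Cardinal.le_def _ _ |>.1 (hι.trans hκ)
  have hz : AlgebraicIndependent F (y ∘ j) := hy.1.comp j j.injective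
  let A := Algebra.adjoin F (Set.range x)
  let f : A →ₐ[F] ℂ := (MvPolynomial.aeval (y ∘ j)).comp (hx.1.aevalEquiv.symm : A →ₐ[F] _)
  have hf : Function.Injective f := by
    intro a b hab
    have h1 : MvPolynomial.aeval (y ∘ j) (hx.1.aevalEquiv.symm a) =
      MvPolynomial.aeval (y ∘ j) (hx.1.aevalEquiv.symm b) := hab
    exact hx.1.aevalEquiv.symm.injective (algebraicIndependent_iff_injective_aeval.1 hz h1)
  let _ : Algebra A ℂ := f.toRingHom.toAlgebra
  have : IsScalarTower F A ℂ := IsScalarTower.of_algebraMap_eq fun a => (f.commutes a).symm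
  have : Module.IsTorsionFree A ℂ := by
    rw [Module.isTorsionFree_iff_algebraMap_injective]
    exact hf
  have : Algebra.IsAlgebraic A L := hx.isAlgebraic
  exact ⟨(IsAlgClosed.lift (R := A) (S := L) (M := ℂ)).restrictScalars F⟩

end Pool.Agent.CMFP.Lef
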