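import Pool.Agent.CMF.Pres

/-! Project CMF, module LefG: representations with the same character. -/

namespace Pool.Agent.CMFP.Lef

open Matrix

noncomputable section

section

variable {K : Type} [Field K] {n : ℕ}

lemma trace_two_sided (X Y : Matrix (Fin n) (Fin n) K) :
    LinearMap.trace K (Matrix (Fin n) (Fin n) K)
      ((LinearMap.mulLeft K X) ∘ₗ (LinearMap.mulRight K Y)) = X.trace * Y.trace := by
  rw [LinearMap.trace_eq_matrix_trace K (Matrix.stdBasis K (Fin n) (Fin n)), Matrix.trace,
    Fintype.sum_prod_type]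
  simp only [Matrix.diag_apply, LinearMap.toMatrix_apply, Matrix.stdBasis_eq_single]
  have h : ∀ i j : Fin n, (Matrix.stdBasis K (Fin n) (Fin n)).repr
      (((LinearMap.mulLeft K X) ∘ₗ (LinearMap.mulRight K Y)) (Matrix.single i j 1)) (i, j) =
      X i i * Y j j := by
    intro i j
    have h1 : (Matrix.stdBasis K (Fin n) (Fin n)).repr
      (((LinearMap.mulLeft K X) ∘ₗ (LinearMap.mulRight K Y)) (Matrix.single i j 1)) (i, j) =
      (X * (Matrix.single i j (1 : K) * Y) : Matrix (Fin n) (Fin n) K) i j := rfl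
    rw [h1, Matrix.mul_apply, Finset.sum_eq_single i]
    · rw [Matrix.mul_apply, Finset.sum_eq_single j]
      · rw [Matrix.single_apply_same, one_mul]
      · intro k _ hk
        rw [Matrix.single_apply_of_col_ne _ _ (Ne.symm hk), zero_mul]
      · intro h; exact absurd (Finset.mem_univ _) h
    · intro k _ hk
      rw [Matrix.mul_apply, Finset.sum_eq_zero, mul_zero]
      intro l _
      rw [Matrix.single_apply_of_row_ne (Ne.symm hk), zero_mul]
    · intro h; exact absurd (Finset.mem_univ _) h
  simp only [h, ← Finset.mul_sum, ← Finset.sum_mul]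
  rfl

end

variable {K : Type} [Field K] [CharZero K] {G : Type} [Group G] [Fintype G] {n : ℕ}

lemma sum_trace_ne {W : G → Matrix (Fin n) (Fin n) K} (hW : IsRep W) (hn : 0 < n) :
    ∑ g, (W g).trace * (W g⁻¹).trace ≠ 0 := by
  intro h0
  let f : Matrix (Fin n) (Fin n) K →ₗ[K] Matrix (Fin n) (Fin n) K :=
    ((Fintype.card G : K)⁻¹) • ∑ g : G, (LinearMap.mulLeft K (W g)) ∘ₗ (LinearMap.mulRight K (W g⁻¹))
  have hf : ∀ A, f A = ((Fintype.card G : K)⁻¹) • ∑ g : G, W g * (A * W g⁻¹) := by
    intro A
    simp [f]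
  let C : Submodule K (Matrix (Fin n) (Fin n) K) :=
    { carrier := {A | ∀ g, W g * A = A * W g}
      add_mem' := fun {a b} ha hb g => by rw [mul_add, add_mul, ha g, hb g]
      zero_mem' := fun g => by simp
      smul_mem' := fun c a ha g => by rw [mul_smul_comm, smul_mul_assoc, ha g] }
  have hcard : (Fintype.card G : K) ≠ 0 := Nat.cast_ne_zero.2 Fintype.card_ne_zero
  have hproj : LinearMap.IsProj C f := by
    constructor
    · intro A g
      rw [hf, mul_smul_comm, smul_mul_assoc]
      congr 1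
      rw [Finset.mul_sum, Finset.sum_mul]
      refine Fintype.sum_equiv (Equiv.mulLeft g) _ _ fun h => ?_
      show W g * (W h * (A * W h⁻¹)) = W (g * h) * (A * W (g * h)⁻¹) * W g
      rw [hW.2, _root_.mul_inv_rev, Matrix.mul_assoc, Matrix.mul_assoc, Matrix.mul_assoc, ← hW.2,
        inv_mul_cancel_right]
    · intro A hA
      rw [hf]
      have h1 : ∀ g : G, W g * (A * W g⁻¹) = A := by
        intro g
        rw [← Matrix.mul_assoc, hA g, Matrix.mul_assoc, ← hW.2, mul_inv_cancel, hW.1,
          Matrix.mul_one]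
      simp only [h1, Finset.sum_const, Finset.card_univ]
      rw [← Nat.cast_smul_eq_nsmul K, smul_smul, inv_mul_cancel₀ hcard, one_smul]
  have htr := hproj.trace
  have h1 : LinearMap.trace K _ f = 0 := by
    simp only [f, map_smul, map_sum, trace_two_sided, h0, smul_zero]
  rw [h1] at htr
  have h2 : Module.finrank K C = 0 := by exact_mod_cast htr.symm
  have h3 : C = ⊥ := Submodule.finrank_eq_zero.1 h2
  have h4 : (1 : Matrix (Fin n) (Fin n) K) ∈ C := fun g => by rw [mul_one, one_mul]
  rw [h3, Submodule.mem_bot] at h4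
  have h5 := congrFun (congrFun h4 ⟨0, hn⟩) ⟨0, hn⟩
  rw [Matrix.one_apply_eq] at h5
  exact one_ne_zero h5

/-- Two representations with the same character, one of them irreducible, are conjugate. -/
theorem exists_conj {V W : G → Matrix (Fin n) (Fin n) K} (hV : IsRep V) (hW : IsRep W)
    (hirr : ∀ v, v ≠ 0 → Submodule.span K (Set.range fun g => W g *ᵥ v) = ⊤)
    (ht : ∀ g, (V g).trace = (W g).trace) :
    ∃ P Q : Matrix (Fin n) (Fin n) K, P * Q = 1 ∧ Q * P = 1 ∧ ∀ g, W g * P = P * V g := by
  rcases Nat.eq_zero_or_pos n with rfl | hn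
  · exact ⟨1, 1, mul_one 1, mul_one 1, fun g => Subsingleton.elim _ _⟩
  let Av : Matrix (Fin n) (Fin n) K → Matrix (Fin n) (Fin n) K :=
    fun A => ∑ g : G, W g * (A * V g⁻¹)
  have hAv : ∀ A h, W h * Av A = Av A * V h := by
    intro A h
    simp only [Av]
    rw [Finset.mul_sum, Finset.sum_mul]
    refine Fintype.sum_equiv (Equiv.mulLeft h) _ _ fun g => ?_
    show W h * (W g * (A * V g⁻¹)) = W (h * g) * (A * V (h * g)⁻¹) * V h
    rw [hW.2, _root_.mul_inv_rev, Matrix.mul_assoc, Matrix.mul_assoc, Matrix.mul_assoc, ← hV.2,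
      inv_mul_cancel_right]
  obtain ⟨A, hA⟩ : ∃ A, Av A ≠ 0 := by
    by_contra hcon
    push Not at hcon
    apply sum_trace_ne hW hn
    have h1 : ∀ i j : Fin n, ∑ g, W g i i * V g⁻¹ j j = 0 := by
      intro i j
      have h2 := congrFun (congrFun (hcon (Matrix.single i j 1)) i) j
      simp only [Av] at h2
      rw [Matrix.sum_apply] at h2
      rw [Matrix.zero_apply] at h2
      rw [← h2]
      refine Finset.sum_congr rfl fun g _ => ?_
      rw [Matrix.mul_apply, Finset.sum_eq_single i]
      · rw [Matrix.mul_apply, Finset.sum_eq_single j]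
        · rw [Matrix.single_apply_same, one_mul]
        · intro k _ hk
          rw [Matrix.single_apply_of_col_ne _ _ (Ne.symm hk), zero_mul]
        · intro h; exact absurd (Finset.mem_univ _) h
      · intro k _ hk
        rw [Matrix.mul_apply, Finset.sum_eq_zero, mul_zero]
        intro l _
        rw [Matrix.single_apply_of_row_ne (Ne.symm hk), zero_mul]
      · intro h; exact absurd (Finset.mem_univ _) h
    have h3 : ∑ g, (W g).trace * (W g⁻¹).trace = ∑ i, ∑ j, ∑ g, W g i i * V g⁻¹ j j := by
      have h4 : ∀ g, (W g).trace * (W g⁻¹).trace = ∑ i, ∑ j, W g i i * V g⁻¹ j j := by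
        intro g
        rw [← ht g⁻¹]
        simp only [Matrix.trace, Matrix.diag_apply, Finset.sum_mul_sum]
      simp only [h4]
      rw [Finset.sum_comm]
      refine Finset.sum_congr rfl fun i _ => ?_
      rw [Finset.sum_comm]
    rw [h3]
    simp only [h1, Finset.sum_const_zero]
  set P := Av A with hP
  obtain ⟨v, hv⟩ : ∃ v, P *ᵥ v ≠ 0 := by
    by_contra hcon
    push Not at hcon
    apply hA
    ext i j
    have := congrFun (hcon (Pi.single j 1)) i
    simpa using this
  have hsurj : Function.Surjective (fun w => P *ᵥ w) := by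
    have h1 : LinearMap.range (Matrix.toLin' P) = ⊤ := by
      rw [eq_top_iff, ← hirr _ hv, Submodule.span_le]
      rintro _ ⟨g, rfl⟩
      refine ⟨V g *ᵥ v, ?_⟩
      rw [Matrix.toLin'_apply, Matrix.mulVec_mulVec, ← hAv A g, ← Matrix.mulVec_mulVec]
    intro w
    obtain ⟨u, hu⟩ := LinearMap.range_eq_top.1 h1 w
    exact ⟨u, by rw [← hu, Matrix.toLin'_apply]⟩
  have hu : IsUnit P := Matrix.mulVec_surjective_iff_isUnit.1 hsurj
  have hd := (Matrix.isUnit_iff_isUnit_det P).1 hu
  exact ⟨P, P⁻¹, Matrix.mul_nonsing_inv _ hd, Matrix.nonsing_inv_mul _ hd, fun g => hAv A g⟩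

end

end Pool.Agent.CMFP.Lef
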