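import Pool.Agent.CMF.LefD
import Pool.Agent.CMF.LefE
import Pool.Agent.CMF.LefG

/-! Project CMF, module LefF: from an arbitrary field of characteristic `0` to `ℂ`. -/

namespace Pool.Agent.CMFP.Lef

open Matrix

noncomputable section

/-- The coefficients of an element of a free algebra form a finite set. -/
lemma exists_coeff {F K X : Type} [Field F] [Field K] [Algebra F K] (w : FreeAlgebra K X) :
    ∃ S : Set K, S.Finite ∧ ∀ L : IntermediateField F K, S ⊆ L →
      ∃ w₁ : FreeAlgebra L X, bc L K X w₁ = w := by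
  induction w using FreeAlgebra.induction with
  | grade0 r =>
    refine ⟨{r}, Set.finite_singleton r, fun L hL => ?_⟩
    refine ⟨algebraMap L _ ⟨r, hL rfl⟩, ?_⟩
    rw [AlgHom.commutes]
    exact IsScalarTower.algebraMap_apply L K (FreeAlgebra K X) ⟨r, hL rfl⟩
  | grade1 a =>
    exact ⟨∅, Set.finite_empty, fun L _ => ⟨FreeAlgebra.ι L a, bc_ι K a⟩⟩
  | mul a b ha hb =>
    obtain ⟨S, hS, h⟩ := ha
    obtain ⟨T, hT, h'⟩ := hb
    refine ⟨S ∪ T, hS.union hT, fun L hL => ?_⟩
    obtain ⟨u, hu⟩ := h L (Set.subset_union_left.trans hL)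
    obtain ⟨v, hv⟩ := h' L (Set.subset_union_right.trans hL)
    exact ⟨u * v, by rw [map_mul, hu, hv]⟩
  | add a b ha hb =>
    obtain ⟨S, hS, h⟩ := ha
    obtain ⟨T, hT, h'⟩ := hb
    refine ⟨S ∪ T, hS.union hT, fun L hL => ?_⟩
    obtain ⟨u, hu⟩ := h L (Set.subset_union_left.trans hL)
    obtain ⟨v, hv⟩ := h' L (Set.subset_union_right.trans hL)
    exact ⟨u + v, by rw [map_add, hu, hv]⟩

lemma pairing_map {L K ι : Type} [Field L] [Field K] (f : L →+* K) (a : ι →₀ ℤ) (κ : ι → L) :
    f (pairing a κ) = pairing a (fun i => f (κ i)) := by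
  unfold pairing Finsupp.sum
  rw [map_sum]
  refine Finset.sum_congr rfl fun i _ => ?_
  rw [map_mul, map_intCast]

section

variable {L K : Type} [Field L] [Field K] [Algebra L K] {G : Type} [Group G] {n : ℕ}

lemma cPar_map (W : G → Matrix (Fin n) (Fin n) ℂ) (V : G → Matrix (Fin n) (Fin n) L)
    (k : Idx W → L) (s : G) :
    algebraMap L K (cPar W V k s) = cPar W (mapV K V) (fun i => algebraMap L K (k i)) s := by
  unfold cPar
  split_ifs with h
  · rw [map_sum]
    refine Finset.sum_congr rfl fun j _ => ?_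
    rw [map_mul, map_pow, map_sub, RingHom.map_det]
    rfl
  · rw [map_zero]

lemma cPar_det (W : G → Matrix (Fin n) (Fin n) ℂ) (V V' : G → Matrix (Fin n) (Fin n) K)
    (k : Idx W → K) (h : ∀ s, (V s).det = (V' s).det) : cPar W V k = cPar W V' k := by
  funext s
  unfold cPar
  simp only [h]

end

lemma countable_adjoin {F K : Type} [Field F] [Field K] [Algebra F K] [Countable F] (S : Set K)
    (hS : S.Countable) : Countable (IntermediateField.adjoin F S) := by
  have h := IntermediateField.cardinalMk_adjoin_le F S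
  rw [← Cardinal.mk_le_aleph0_iff]
  refine h.trans (max_le (max_le Cardinal.mk_le_aleph0 ?_) le_rfl)
  exact Cardinal.mk_le_aleph0_iff.2 hS.to_subtype

lemma countable_of_range (F : Type) [Field F] [Algebra F ℂ] (S : Set ℂ) (hS : S.Countable)
    (h : (algebraMap F ℂ).fieldRange = Subfield.closure S) : Countable F := by
  have h1 := countable_adjoin (F := ℚ) S hS
  have h2 : ∀ x : F, algebraMap F ℂ x ∈ IntermediateField.adjoin ℚ S := by
    intro x
    have h3 : algebraMap F ℂ x ∈ (algebraMap F ℂ).fieldRange := ⟨x, rfl⟩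
    rw [h] at h3
    have h4 : Subfield.closure S ≤ (IntermediateField.adjoin ℚ S).toSubfield :=
      Subfield.closure_le.2 (IntermediateField.subset_adjoin ℚ S)
    exact h4 h3
  have h5 : Function.Injective
      (fun x : F => (⟨algebraMap F ℂ x, h2 x⟩ : IntermediateField.adjoin ℚ S)) := by
    intro x y hxy
    exact (algebraMap F ℂ).injective (congrArg Subtype.val hxy)
  exact h5.countable

theorem cmsep_descend {G : Type} [Group G] [Fintype G] {n : ℕ} {K : Type} [Field K]
    {F : Type} [Field F] [Countable F] [Algebra F K] [Algebra F ℂ]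
    (V : G → Matrix (Fin n) (Fin n) K) (W : G → Matrix (Fin n) (Fin n) ℂ)
    (hV : IsRep V) (hW : IsRep W)
    (hirr : ∀ v, v ≠ 0 → Submodule.span ℂ (Set.range fun g => W g *ᵥ v) = ⊤)
    (t : G → F) (htV : ∀ g, algebraMap F K (t g) = (V g).trace)
    (htW : ∀ g, algebraMap F ℂ (t g) = (W g).trace)
    {d d' : ℕ} (σ : G → Matrix (Fin d) (Fin d) K) (σ' : G → Matrix (Fin d') (Fin d') K)
    (ρ : G → Matrix (Fin d) (Fin d) ℂ) (ρ' : G → Matrix (Fin d') (Fin d') ℂ) (x x' : G → F)
    (hσ : ∀ g, algebraMap F K (x g) = (σ g).trace) (hρ : ∀ g, algebraMap F ℂ (x g) = (ρ g).trace)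
    (hσ' : ∀ g, algebraMap F K (x' g) = (σ' g).trace)
    (hρ' : ∀ g, algebraMap F ℂ (x' g) = (ρ' g).trace)
    (k κ : Idx W → K) (h : CMSep V (cPar W V k) σ σ') :
    ∃ k' κ' : Idx W → ℂ, (∀ i j, κ i = k j → κ' i = k' j) ∧
      (∀ a : Idx W →₀ ℤ, pairing a κ = 0 ↔ pairing a κ' = 0) ∧
      CMSep W (cPar W W k') ρ ρ' := by
  rw [cmsep_iff] at h
  obtain ⟨e, h1, h2, h3, h4⟩ := h
  obtain ⟨w, hw⟩ := toH_surj V (cPar W V k) e
  obtain ⟨S₀, hS₀, hw₀⟩ := exists_coeff (F := F) w
  have hI : Countable (Idx W) := by unfold Idx; infer_instance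
  let S : Set K := S₀ ∪ (Set.range (fun p : G × Fin n × Fin n => V p.1 p.2.1 p.2.2) ∪
    (Set.range k ∪ Set.range κ))
  have hS : S.Countable := hS₀.countable.union ((Set.countable_range _).union
    ((Set.countable_range _).union (Set.countable_range _)))
  let L := IntermediateField.adjoin F S
  have hL : S ⊆ L := IntermediateField.subset_adjoin F S
  have hcL : Countable L := countable_adjoin S hS
  obtain ⟨w₁, hw₁⟩ := hw₀ L (Set.subset_union_left.trans hL)
  let V₁ : G → Matrix (Fin n) (Fin n) L := fun g i j =>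
    ⟨V g i j, hL (Or.inr (Or.inl ⟨(g, i, j), rfl⟩))⟩
  let k₁ : Idx W → L := fun i => ⟨k i, hL (Or.inr (Or.inr (Or.inl ⟨i, rfl⟩)))⟩
  let κ₁ : Idx W → L := fun i => ⟨κ i, hL (Or.inr (Or.inr (Or.inr ⟨i, rfl⟩)))⟩
  have hV₁ : mapV K V₁ = V := rfl
  have hc₁ : (fun g => algebraMap L K (cPar W V₁ k₁ g)) = cPar W V k := by
    funext g
    rw [cPar_map]
    rfl
  have hx : ∀ (y : G → F) {d : ℕ} (τ : G → Matrix (Fin d) (Fin d) K),
      (∀ g, algebraMap F K (y g) = (τ g).trace) →
      (fun g => algebraMap L K (algebraMap F L (y g))) = fun g => (τ g).trace := by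
    intro y d τ hy
    funext g
    rw [← IsScalarTower.algebraMap_apply F L K, hy]
  have hdown : SepCh V₁ (cPar W V₁ k₁) d (fun g => algebraMap F L (x g)) d'
      (fun g => algebraMap F L (x' g)) := by
    have key : ∀ (c : G → K) (y y' : G → K), c = (fun g => algebraMap L K (cPar W V₁ k₁ g)) →
        y = (fun g => algebraMap L K (algebraMap F L (x g))) →
        y' = (fun g => algebraMap L K (algebraMap F L (x' g))) →
        ∀ e : Hbar V c, e = toH V c w → e * e = e → (∀ a, e * a = a * e) →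
        e * pCh V c d y - pCh V c d y ∈ leftY V c → e * pCh V c d' y' ∈ leftY V c →
        SepCh V₁ (cPar W V₁ k₁) d (fun g => algebraMap F L (x g)) d'
          (fun g => algebraMap F L (x' g)) := by
      rintro c y y' rfl rfl rfl e he h1 h2 h3 h4
      exact sepCh_down L K V₁ (cPar W V₁ k₁) w₁ e (by rw [he, hw₁]; rfl) h1 h2 h3 h4
    exact key _ _ _ hc₁.symm (hx x σ hσ).symm (hx x' σ' hσ').symm e hw.symm h1 h2 h3 h4
  obtain ⟨φ⟩ := exists_embedding F L
  let _ : Algebra L ℂ := φ.toRingHom.toAlgebra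
  have hφ : ∀ a : L, algebraMap L ℂ a = φ a := fun a => rfl
  have hφF : ∀ a : F, algebraMap L ℂ (algebraMap F L a) = algebraMap F ℂ a :=
    fun a => φ.commutes a
  have hup := sepCh_up ℂ hdown
  simp only [hφF, hρ, hρ'] at hup
  have hrep₁ : IsRep V₁ := by
    have hinj : Function.Injective
        (fun M : Matrix (Fin n) (Fin n) L => M.map (algebraMap L K)) :=
      Matrix.map_injective (algebraMap L K).injective
    constructor
    · apply hinj
      show mapV K V₁ 1 = (1 : Matrix (Fin n) (Fin n) L).map (algebraMap L K)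
      rw [hV₁, hV.1, Matrix.map_one _ (map_zero _) (map_one _)]
    · intro g h
      apply hinj
      show mapV K V₁ (g * h) = (V₁ g * V₁ h).map (algebraMap L K)
      rw [hV₁, hV.2, Matrix.map_mul]
      rfl
  have hrep : IsRep (mapV ℂ V₁) := by
    constructor
    · show (V₁ 1).map (algebraMap L ℂ) = 1
      rw [hrep₁.1, Matrix.map_one _ (map_zero _) (map_one _)]
    · intro g h
      show (V₁ (g * h)).map (algebraMap L ℂ) = _
      rw [hrep₁.2, Matrix.map_mul]
      rfl
  have htr : ∀ g, (mapV ℂ V₁ g).trace = (W g).trace := by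
    intro g
    have h5 : (V₁ g).trace = algebraMap F L (t g) := by
      apply (algebraMap L K).injective
      rw [← IsScalarTower.algebraMap_apply F L K, htV]
      simp only [Matrix.trace, map_sum]
      rfl
    have h6 : (mapV ℂ V₁ g).trace = algebraMap L ℂ (V₁ g).trace := by
      simp only [Matrix.trace, map_sum]
      rfl
    rw [h6, h5, hφF, htW]
  obtain ⟨P, Q, hPQ, hQP, hVW⟩ := exists_conj hrep hW hirr htr
  have hW' := sepCh_conj hPQ hQP hVW hup
  refine ⟨fun i => algebraMap L ℂ (k₁ i), fun i => algebraMap L ℂ (κ₁ i), ?_, ?_, ?_⟩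
  · intro i j hij
    have h5 : κ₁ i = k₁ j := Subtype.ext hij
    exact congrArg (algebraMap L ℂ) h5
  · intro a
    have h5 : pairing a κ = algebraMap L K (pairing a κ₁) := by
      rw [pairing_map]
      rfl
    rw [h5, ← pairing_map (algebraMap L ℂ), map_eq_zero, map_eq_zero]
  · rw [cmsep_iff]
    have h5 : (fun g => algebraMap L ℂ (cPar W V₁ k₁ g)) =
        cPar W W (fun i => algebraMap L ℂ (k₁ i)) := by
      funext g
      rw [cPar_map]
      exact congrFun (cPar_det W _ _ _ fun s => det_conj_eq hPQ (hVW s)) g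
    rw [← h5]
    exact hW'

end

end Pool.Agent.CMFP.Lef
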