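import Pool.Agent.CMF.G10
import Pool.Agent.CMF.KDefs
import Pool.Agent.CMF.LefF
import Pool.Agent.CMF.ExM

/-! Project CMF: the rank 2 theorem over an arbitrary field of characteristic zero. -/

namespace Pool.Agent.CMFP

theorem plane_K (G : Type) [Group G] [Fintype G] (K : Type) [Field K] [CharZero K]
    (V : G → Matrix (Fin 2) (Fin 2) K) (hV : IsReflGroup V)
    (W : G → Matrix (Fin 2) (Fin 2) ℂ) (hW : IsReflGroup W)
    (F : Type) [Field F] [Algebra F K] [Algebra F ℂ]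
    (hF : (algebraMap F ℂ).fieldRange = Subfield.closure (Set.range fun g => (W g).trace))
    (hVW : SameChar F V W) (Λ : Type) [Fintype Λ] (d : Λ → ℕ)
    (σ : ∀ l, G → Matrix (Fin (d l)) (Fin (d l)) K) (hσ : IsIrrFam d σ)
    (ρ : ∀ l, G → Matrix (Fin (d l)) (Fin (d l)) ℂ) (hρ : IsIrrFam d ρ)
    (hσρ : ∀ l, SameChar F (σ l) (ρ l))
    (v₀ : Fin 2 → ℂ) (hv₀ : Reg W v₀) (D : StdHk F W v₀ d) (hD : D.Specialises ρ)
    (S : SchurForm F D.schurElt) (k κ : Idx W → K)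
    (hκ : ∀ s hs j, κ (idx W s hs j) = k (idx W s hs (-j))) (χ ψ : Λ)
    (h : CMSep V (cPar W V k) (σ χ) (σ ψ)) :
    (∃ m : Idx W → ℤ, SameEssential S κ m) ∧
      ∀ m : Idx W → ℤ, SameEssential S κ m → D.RouSep m χ ψ := by
  have hfin : Finite (Idx W) := CMF.idx_finite hW.1
  refine ⟨Lef.exists_sameEssential S κ, fun m hm => ?_⟩
  have hcF : Countable F := Lef.countable_of_range F _ (Set.countable_range _) hF
  choose t ht using hVW
  choose x hx using hσρ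
  obtain ⟨k', κ', h1, h2, h3⟩ := Lef.cmsep_descend V W hV.1 hW.1 hW.2.2.2 t
    (fun g => (ht g).1) (fun g => (ht g).2) (σ χ) (σ ψ) (ρ χ) (ρ ψ) (x χ) (x ψ)
    (fun g => (hx χ g).1) (fun g => (hx χ g).2) (fun g => (hx ψ g).1) (fun g => (hx ψ g).2)
    k κ h
  refine CMF.plane_main hW hρ hF hv₀ D hD S k' κ'
    (fun s hs j => h1 _ _ (hκ s hs j)) m (fun l i hl => ?_) χ ψ h3
  rw [← h2]
  exact hm l i hl

end Pool.Agent.CMFP
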