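import Pool.Agent.CMF.Defs
import Pool.Agent.CMF.Pres

/-!
CMF, module G2: Calogero-Moser separation for `(G, V)` gives Calogero-Moser separation for the
subgroup `N` of `GL₂`.
-/

namespace Pool.Agent.CMF

open Matrix

noncomputable section

namespace G2X

variable {K : Type} [Field K] {G : Type} [Group G] [Fintype G]
  (V : G → Matrix (Fin 2) (Fin 2) K) (N : Subgroup (GL (Fin 2) K)) [Fintype N] (φ : G ≃* N)

/-- the map of free algebras followed by the quotient map -/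
def pre (c' : N → K) : FreeAlgebra K (CMFP.Gen 2 G) →ₐ[K] Hbar N c' :=
  FreeAlgebra.lift K fun a => match a with
    | CMFP.Gen.X i => hq N c' (fX i)
    | CMFP.Gen.Y i => hq N c' (fY i)
    | CMFP.Gen.T g => hq N c' (fT (φ g))

variable {N} (c' : N → K)

omit [Fintype G] in
@[simp] lemma pre_X (i : Fin 2) : pre N φ c' (CMFP.gX i) = hq N c' (fX i) := by
  unfold pre CMFP.gX
  rw [FreeAlgebra.lift_ι_apply]

omit [Fintype G] in
@[simp] lemma pre_Y (i : Fin 2) : pre N φ c' (CMFP.gY i) = hq N c' (fY i) := by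
  unfold pre CMFP.gY
  rw [FreeAlgebra.lift_ι_apply]

omit [Fintype G] in
@[simp] lemma pre_T (g : G) : pre N φ c' (CMFP.gT g) = hq N c' (fT (φ g)) := by
  unfold pre CMFP.gT
  rw [FreeAlgebra.lift_ι_apply]

lemma hq_rel {x y : FA K N} (h : HbRel N c' x y) : hq N c' x = hq N c' y :=
  RingQuot.mkAlgHom_rel K h

omit [Fintype N] in
lemma evP_map {A B : Type} [Ring A] [Algebra K A] [Ring B] [Algebra K B] (f : A →ₐ[K] B)
    (a : Fin 2 → A) (b : Fin 2 → B) (h : ∀ i, f (a i) = b i) (p : MvPolynomial (Fin 2) K) :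
    f (CMFP.evP a p) = evP b p := by
  unfold CMFP.evP evP
  rw [map_sum]
  apply Finset.sum_congr rfl
  intro m _
  rw [map_smul, Algebra.smul_def]
  congr 1
  simp [List.ofFn_succ, h]

variable {V}

omit [Fintype G] [Fintype N] in
lemma invX_of (hφ : ∀ g, (φ g).1.1 = V g) (p : MvPolynomial (Fin 2) K)
    (h : CMFP.IsInv V p) : InvX N p := by
  refine ⟨h.1, ?_⟩
  intro g hg
  have h1 := h.2 (φ.symm ⟨g, hg⟩)
  rw [← hφ] at h1
  simpa using h1

omit [Fintype G] [Fintype N] in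
lemma invY_of (hφ : ∀ g, (φ g).1.1 = V g) (p : MvPolynomial (Fin 2) K)
    (h : CMFP.IsInv (fun g => (V g)ᵀ) p) : InvY N p := by
  refine ⟨h.1, ?_⟩
  intro g hg
  have h1 := h.2 (φ.symm ⟨g, hg⟩)
  simp only [Matrix.transpose_apply] at h1
  rw [← hφ] at h1
  simpa using h1

lemma pre_rel (hφ : ∀ g, (φ g).1.1 = V g) (c : G → K)
    (hc : ∀ g, IsRefl (φ g).1 → c' (φ g) = c g) (hc0 : ∀ g, ¬ IsRefl (φ g).1 → c g = 0)
    ⦃x y : FreeAlgebra K (CMFP.Gen 2 G)⦄ (h : CMFP.HRel V c x y) :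
    pre N φ c' x = pre N φ c' y := by
  classical
  cases h with
  | one =>
    rw [pre_T, map_one, map_one]
    have := hq_rel c' (HbRel.one (N := N) (c := c'))
    rw [this, map_one]
  | mul g h =>
    rw [pre_T, map_mul, map_mul, pre_T, pre_T]
    have := hq_rel c' (HbRel.mul (N := N) (c := c') (φ g) (φ h))
    rw [this, map_mul]
  | TY g i =>
    rw [map_mul, map_mul, pre_T, pre_Y, map_sum]
    have := hq_rel c' (HbRel.TY (N := N) (c := c') (φ g) i)
    rw [map_mul] at this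
    rw [this, map_mul, map_sum]
    congr 1
    apply Finset.sum_congr rfl
    intro j _
    rw [map_smul, pre_Y, map_mul, AlgHom.commutes, ← Algebra.smul_def, hφ]
  | TX g i =>
    rw [map_mul, map_mul, pre_T, pre_X, map_sum]
    have := hq_rel c' (HbRel.TX (N := N) (c := c') (φ g) i)
    rw [map_mul] at this
    rw [this, map_mul, map_sum]
    congr 1
    apply Finset.sum_congr rfl
    intro j _
    rw [map_smul, pre_X, map_mul, AlgHom.commutes, ← Algebra.smul_def, ← map_inv, hφ]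
  | XX i j =>
    rw [map_mul, map_mul, pre_X, pre_X, ← map_mul, ← map_mul]
    exact hq_rel c' (HbRel.XX (N := N) (c := c') i j)
  | YY i j =>
    rw [map_mul, map_mul, pre_Y, pre_Y, ← map_mul, ← map_mul]
    exact hq_rel c' (HbRel.YY (N := N) (c := c') i j)
  | YX i j =>
    rw [map_mul, pre_Y, pre_X, ← map_mul, hq_rel c' (HbRel.YX (N := N) (c := c') i j),
      map_add, map_add, map_mul, map_mul, pre_X, pre_Y, map_sum, map_sum]
    congr 1
    symm
    apply Fintype.sum_equiv φ.toEquiv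
    intro s
    show pre N φ c' ((c s * ((1 - V s) j i / (1 - (V s).det))) • CMFP.gT s) =
      hq N c' (algebraMap K _ (if IsRefl (φ s).1 then
        c' (φ s) * ((1 - (φ s).1.1) j i / (1 - (φ s).1.1.det)) else 0) * fT (φ s))
    rw [map_smul, pre_T, map_mul, AlgHom.commutes, ← Algebra.smul_def, hφ]
    by_cases hs : IsRefl (φ s).1
    · rw [if_pos hs, hc s hs]
    · rw [if_neg hs, hc0 s hs, zero_mul]
  | invX p hp =>
    rw [map_zero, evP_map (pre N φ c') CMFP.gX (fun i => hq N c' (fX i)) (fun i => pre_X φ c' i)]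
    have h1 := hq_rel c' (HbRel.invX (N := N) (c := c') p (invX_of φ hφ p hp))
    rw [map_zero] at h1
    rw [← h1]
    unfold evP
    rw [map_sum]
    apply Finset.sum_congr rfl
    intro m _
    rw [map_mul, AlgHom.commutes, map_mul, map_pow, map_pow]
  | invY p hp =>
    rw [map_zero, evP_map (pre N φ c') CMFP.gY (fun i => hq N c' (fY i)) (fun i => pre_Y φ c' i)]
    have h1 := hq_rel c' (HbRel.invY (N := N) (c := c') p (invY_of φ hφ p hp))
    rw [map_zero] at h1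
    rw [← h1]
    unfold evP
    rw [map_sum]
    apply Finset.sum_congr rfl
    intro m _
    rw [map_mul, AlgHom.commutes, map_mul, map_pow, map_pow]

/-- the map of restricted Cherednik algebras -/
def tr (hφ : ∀ g, (φ g).1.1 = V g) (c : G → K)
    (hc : ∀ g, IsRefl (φ g).1 → c' (φ g) = c g) (hc0 : ∀ g, ¬ IsRefl (φ g).1 → c g = 0) :
    CMFP.Hbar V c →+* Hbar N c' :=
  RingQuot.lift ⟨(pre N φ c').toRingHom, fun _ _ h => pre_rel φ c' hφ c hc hc0 h⟩

lemma tr_toH (hφ : ∀ g, (φ g).1.1 = V g) (c : G → K)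
    (hc : ∀ g, IsRefl (φ g).1 → c' (φ g) = c g) (hc0 : ∀ g, ¬ IsRefl (φ g).1 → c g = 0)
    (x : FreeAlgebra K (CMFP.Gen 2 G)) :
    tr φ c' hφ c hc hc0 (CMFP.toH V c x) = pre N φ c' x := by
  unfold tr CMFP.toH
  exact RingQuot.lift_mkRingHom_apply _ _ _

lemma tr_surj (hφ : ∀ g, (φ g).1.1 = V g) (c : G → K)
    (hc : ∀ g, IsRefl (φ g).1 → c' (φ g) = c g) (hc0 : ∀ g, ¬ IsRefl (φ g).1 → c g = 0) :
    Function.Surjective (tr φ c' hφ c hc hc0) := by
  intro a
  obtain ⟨b, rfl⟩ := RingQuot.mkAlgHom_surjective K (HbRel N c') a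
  suffices h : ∃ x, pre N φ c' x = hq N c' b by
    obtain ⟨x, hx⟩ := h
    exact ⟨CMFP.toH V c x, by rw [tr_toH, hx]⟩
  induction b using FreeAlgebra.induction with
  | grade0 r => exact ⟨algebraMap K _ r, by rw [AlgHom.commutes, AlgHom.commutes]⟩
  | grade1 x =>
    cases x with
    | X i => exact ⟨CMFP.gX i, pre_X φ c' i⟩
    | Y i => exact ⟨CMFP.gY i, pre_Y φ c' i⟩
    | T g => exact ⟨CMFP.gT (φ.symm g), by rw [pre_T, MulEquiv.apply_symm_apply]; rfl⟩
  | mul a b ha hb =>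
    obtain ⟨x, hx⟩ := ha
    obtain ⟨y, hy⟩ := hb
    exact ⟨x * y, by rw [map_mul, map_mul, hx, hy]⟩
  | add a b ha hb =>
    obtain ⟨x, hx⟩ := ha
    obtain ⟨y, hy⟩ := hb
    exact ⟨x + y, by rw [map_add, map_add, hx, hy]⟩

lemma tr_pRep (hφ : ∀ g, (φ g).1.1 = V g) (c : G → K)
    (hc : ∀ g, IsRefl (φ g).1 → c' (φ g) = c g) (hc0 : ∀ g, ¬ IsRefl (φ g).1 → c g = 0)
    {d : ℕ} (ρ : G → Matrix (Fin d) (Fin d) K) (ρ' : N →* Matrix (Fin d) (Fin d) K)
    (hρ : ∀ g, ρ' (φ g) = ρ g) :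
    tr φ c' hφ c hc hc0 (CMFP.pRep V c ρ) = pRep N c' ρ' := by
  unfold CMFP.pRep pRep
  rw [tr_toH, map_sum]
  apply Fintype.sum_equiv φ.toEquiv
  intro g
  show pre N φ c' (((d : K) / (Fintype.card G : K) * (ρ g⁻¹).trace) • CMFP.gT g) =
    algebraMap K _ (((d : K) / (Fintype.card N : K)) * (ρ' (φ g)⁻¹).trace) * hq N c' (fT (φ g))
  rw [map_smul, pre_T, Algebra.smul_def, ← map_inv, hρ, Fintype.card_congr φ.toEquiv]

lemma tr_leftY (hφ : ∀ g, (φ g).1.1 = V g) (c : G → K)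
    (hc : ∀ g, IsRefl (φ g).1 → c' (φ g) = c g) (hc0 : ∀ g, ¬ IsRefl (φ g).1 → c g = 0)
    (x : CMFP.Hbar V c) (hx : x ∈ CMFP.leftY V c) : tr φ c' hφ c hc hc0 x ∈ leftY N c' := by
  unfold CMFP.leftY at hx
  induction hx using Submodule.span_induction with
  | mem x hx =>
    obtain ⟨i, rfl⟩ := hx
    show tr φ c' hφ c hc hc0 (CMFP.toH V c (CMFP.gY i)) ∈ leftY N c'
    rw [tr_toH, pre_Y]
    unfold leftY
    apply Ideal.subset_span
    fin_cases i
    · left; rfl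
    · right; rfl
  | zero => rw [map_zero]; exact Submodule.zero_mem _
  | add x y _ _ hx hy => rw [map_add]; exact Submodule.add_mem _ hx hy
  | smul a x _ hx =>
    rw [smul_eq_mul, map_mul]
    exact Ideal.mul_mem_left _ _ hx

end G2X

open G2X in
/-- Calogero-Moser separation for `(G, V)` implies the one for `N`. -/
theorem cmSep_of {K : Type} [Field K] {G : Type} [Group G] [Fintype G]
    (V : G → Matrix (Fin 2) (Fin 2) K) (N : Subgroup (GL (Fin 2) K)) [Fintype N] (φ : G ≃* N)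
    (hφ : ∀ g, (φ g).1.1 = V g) (c : G → K) (c' : N → K)
    (hc : ∀ g, IsRefl (φ g).1 → c' (φ g) = c g) (hc0 : ∀ g, ¬ IsRefl (φ g).1 → c g = 0)
    {d d' : ℕ} (ρ : G → Matrix (Fin d) (Fin d) K) (σ : G → Matrix (Fin d') (Fin d') K)
    (ρ' : N →* Matrix (Fin d) (Fin d) K) (σ' : N →* Matrix (Fin d') (Fin d') K)
    (hρ : ∀ g, ρ' (φ g) = ρ g) (hσ : ∀ g, σ' (φ g) = σ g)
    (h : CMFP.CMSep V c ρ σ) : CMSep N c' ρ' σ' := by
  obtain ⟨e, he, hcen, h1, h2⟩ := h
  refine ⟨tr φ c' hφ c hc hc0 e, ?_, ?_, ?_, ?_⟩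
  · rw [← map_mul, he]
  · intro a
    obtain ⟨b, rfl⟩ := tr_surj φ c' hφ c hc hc0 a
    rw [← map_mul, hcen, map_mul]
  · rw [← tr_pRep φ c' hφ c hc hc0 ρ ρ' hρ, ← map_mul, ← map_sub]
    exact tr_leftY φ c' hφ c hc hc0 _ h1
  · rw [← tr_pRep φ c' hφ c hc hc0 σ σ' hσ, ← map_mul]
    exact tr_leftY φ c' hφ c hc hc0 _ h2

end

end Pool.Agent.CMF
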