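import Pool.Agent.CMF.Pres
import Pool.Agent.CMF.DDefs
import Pool.Agent.CMF.Braid
import Pool.Agent.CMF.BRefl
import Pool.Agent.CMF.IDefs

/-! Project CMF: glue between the presentation (namespace CMFP: an abstract finite group `G` with a
matrix representation `V`) and the development (namespace CMF: a subgroup `N` of `GL₂(ℂ)`). -/

namespace Pool.Agent.CMFG

open Matrix Pool.Agent

noncomputable section

variable {G : Type} [Group G] [Fintype G] {V : G → Matrix (Fin 2) (Fin 2) ℂ}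

/-- `V` as a homomorphism to `GL₂(ℂ)`. -/
def toGL (hV : CMFP.IsReflGroup V) : G →* GL (Fin 2) ℂ where
  toFun g := ⟨V g, V g⁻¹, by rw [← hV.1.2, mul_inv_cancel, hV.1.1],
    by rw [← hV.1.2, inv_mul_cancel, hV.1.1]⟩
  map_one' := Units.ext hV.1.1
  map_mul' g h := Units.ext (hV.1.2 g h)

lemma toGL_val (hV : CMFP.IsReflGroup V) (g : G) : (toGL hV g).1 = V g := rfl

lemma toGL_inj (hV : CMFP.IsReflGroup V) : Function.Injective (toGL hV) := fun g h e =>
  hV.2.1 (congrArg (fun u : GL (Fin 2) ℂ => u.1) e)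

/-- The image of `G` in `GL₂(ℂ)`. -/
abbrev NN (hV : CMFP.IsReflGroup V) : CMF.SG := (toGL hV).range

/-- `G ≅ N`. -/
def th (hV : CMFP.IsReflGroup V) : G ≃* NN hV := MonoidHom.ofInjective (toGL_inj hV)

lemma th_val (hV : CMFP.IsReflGroup V) (g : G) : (th hV g).1.1 = V g := rfl

instance fintypeNN (hV : CMFP.IsReflGroup V) : Fintype (NN hV) :=
  Fintype.ofEquiv G (th hV).toEquiv

/-- The irreducible representations, on `N`. -/
def irr (hV : CMFP.IsReflGroup V) {Λ : Type} [Fintype Λ] {d : Λ → ℕ}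
    {ρ : ∀ l, G → Matrix (Fin (d l)) (Fin (d l)) ℂ} (hρ : CMFP.IsIrrFam d ρ) (l : Λ) :
    NN hV →* Matrix (Fin (d l)) (Fin (d l)) ℂ where
  toFun g := ρ l ((th hV).symm g)
  map_one' := by rw [map_one]; exact (hρ.1 l).2.1
  map_mul' g h := by rw [map_mul]; exact (hρ.1 l).2.2 _ _

/-- The line of a reflection. -/
def arr (hV : CMFP.IsReflGroup V) (s : G) (hs : CMF.IsRefl (th hV s).1) : CMF.Arr (NN hV) :=
  ⟨CMF.fixL (th hV s).1, (th hV s).1, (th hV s).2, hs, rfl⟩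

/-- Two equivalent index sets. -/
structure IsIdxEquiv (hV : CMFP.IsReflGroup V) (e : CMFP.Idx V ≃ CMF.Idx (NN hV)) : Prop where
  idx : ∀ (s : G) (hs : CMFP.IsRefl V s) (hs' : CMF.IsRefl (th hV s).1) (j : ℤ),
    e (CMFP.idx V s hs j) = CMF.idx (arr hV s hs') j

/-- The properties of the map from the pairs `(g, f)` of the presentation to the braid group. -/
structure IsBr (hV : CMFP.IsReflGroup V) {v₀ : Fin 2 → ℂ} (v : CMF.VReg (NN hV))
    (br : CMFP.BP V v₀ → CMF.Braid (NN hV) v) : Prop where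
  homot : ∀ a b, CMFP.Homot a b → br a = br b
  one : ∀ a : CMFP.BP V v₀, a.g = 1 → (∀ t ∈ Set.Icc (0 : ℝ) 1, a.f t = v₀) → br a = 1
  mul : ∀ a b c : CMFP.BP V v₀, c.g = a.g * b.g →
    (∀ t ∈ Set.Icc (0 : ℝ) (1 / 2), c.f t = a.f (2 * t)) →
    (∀ t ∈ Set.Icc (1 / 2 : ℝ) 1, c.f t = V a.g *ᵥ b.f (2 * t - 1)) → br c = br a * br b
  refl : ∀ (b : CMFP.BP V v₀) (_ : CMFP.IsRefl V b.g) (hs' : CMF.IsRefl (th hV b.g).1),
    CMFP.IsBraidRefl b → CMF.IsBraidRefl (arr hV b.g hs') (br b)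
  proj : ∀ b, CMF.Braid.proj (br b) = th hV b.g
  surj : Function.Surjective br

/-- The parameter `k` of the development for which `κ = k^♯`. -/
def kap (hV : CMFP.IsReflGroup V) (e : CMFP.Idx V ≃ CMF.Idx (NN hV)) (κ : CMFP.Idx V → ℂ) :
    CMF.Idx (NN hV) → ℂ := fun x => κ (e.symm (CMF.sharp x))

end

end Pool.Agent.CMFG
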