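import Pool.Agent.CMF.Pres

/-! Project CMF: representations of the Hecke algebra `Hk` from families of matrices indexed by the
braids. -/

namespace Pool.Agent.CMFP

open Matrix

noncomputable section

namespace GRepX

variable {G : Type} [Group G] {n : ℕ} {V : G → Matrix (Fin n) (Fin n) ℂ} {v₀ : Fin n → ℂ}
  {Z : Type} [CommRing Z] [Algebra Z ℂ] {R : Type} [CommRing R] [Algebra Z R] (u : Idx V → R)
  {ι : Type} [Fintype ι] [DecidableEq ι]

/-- A map from the braids to the matrices over `ℂ` which respects the relations of the Hecke algebra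
(after evaluation `ev` of the coefficients) gives a representation of the Hecke algebra. -/
theorem exists_lift (ev : R →+* ℂ) (hev : ∀ z, ev (algebraMap Z R z) = algebraMap Z ℂ z)
    (T : BP V v₀ → Matrix ι ι ℂ)
    (homot : ∀ a b, Homot a b → T a = T b)
    (one : ∀ a : BP V v₀, a.g = 1 → (∀ t ∈ Set.Icc (0 : ℝ) 1, a.f t = v₀) → T a = 1)
    (mul : ∀ a b c : BP V v₀, c.g = a.g * b.g →
      (∀ t ∈ Set.Icc (0 : ℝ) (1 / 2), c.f t = a.f (2 * t)) →
      (∀ t ∈ Set.Icc (1 / 2 : ℝ) 1, c.f t = V a.g *ᵥ b.f (2 * t - 1)) → T c = T a * T b)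
    (hecke : ∀ (b : BP V v₀) (hs : IsRefl V b.g), IsBraidRefl b →
      ((List.range (ordH V b.g)).map fun j : ℕ => T b -
        (rot V b.g 1 ^ j * ev (u (idx V b.g hs (j : ℤ))) ^ mu Z) • (1 : Matrix ι ι ℂ)).prod = 0) :
    ∃ P : Hk Z V v₀ u →+* Matrix ι ι ℂ, (∀ (r : R) (h : Hk Z V v₀ u), P (r • h) = ev r • P h) ∧
      ∀ b, P (hT Z u b) = T b := by
  -- the algebra structure of the matrices over `R`
  let a0 : Algebra R ℂ := ev.toAlgebra
  let L : FreeAlgebra R (BP V v₀) →ₐ[R] Matrix ι ι ℂ := FreeAlgebra.lift R T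
  have hL : ∀ b, L (FreeAlgebra.ι R b) = T b := fun b => FreeAlgebra.lift_ι_apply T b
  have hsm : ∀ (r : R) (A : Matrix ι ι ℂ), r • A = ev r • A := by
    intro r A
    ext i j
    rfl
  have hal : ∀ r : R, L (algebraMap R _ r) = ev r • (1 : Matrix ι ι ℂ) := by
    intro r
    rw [AlgHom.commutes, Algebra.algebraMap_eq_smul_one, hsm]
  have hrel : ∀ x y, HkRel Z V v₀ u x y → L x = L y := by
    intro x y h
    induction h with
    | homot a b h => rw [hL, hL, homot a b h]
    | one a hg h => rw [hL, one a hg h, map_one]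
    | mul a b c hg h1 h2 => rw [map_mul, hL, hL, hL, mul a b c hg h1 h2]
    | hecke b hs hb ζ hζ =>
      rw [map_zero, map_list_prod, List.map_map, ← hecke b hs hb]
      congr 1
      refine List.map_congr_left fun j _ => ?_
      simp only [Function.comp_apply]
      rw [map_sub, hL, hal, map_mul, map_pow, map_pow, hev, hζ]
  let P : Hk Z V v₀ u →+* Matrix ι ι ℂ := RingQuot.lift ⟨(L : FreeAlgebra R (BP V v₀) →+* _), hrel⟩
  have hP : ∀ x, P (RingQuot.mkRingHom (HkRel Z V v₀ u) x) = L x := fun x =>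
    RingQuot.lift_mkRingHom_apply _ _ _
  refine ⟨P, fun r h => ?_, fun b => ?_⟩
  · have h1 : r • h = algebraMap R (Hk Z V v₀ u) r * h := Algebra.smul_def r h
    have h2 : algebraMap R (Hk Z V v₀ u) r =
        RingQuot.mkRingHom (HkRel Z V v₀ u) (algebraMap R _ r) := by
      have h3 := (RingQuot.mkAlgHom R (HkRel Z V v₀ u)).commutes r
      have h4 := congrArg (fun f : FreeAlgebra R (BP V v₀) →+* RingQuot (HkRel Z V v₀ u) =>
        f (algebraMap R _ r)) (RingQuot.mkAlgHom_coe R (HkRel Z V v₀ u))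
      exact h3.symm.trans h4
    rw [h1, map_mul, h2, hP, hal, smul_mul_assoc, one_mul]
  · exact (hP _).trans (hL b)

end GRepX

end

end Pool.Agent.CMFP
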