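import Pool.Agent.CMF.IDefs
import Pool.Agent.CMF.BaireA

/-! Project CMF (MP_4af2a6_al), module I4: a generic point of `ℂ^n` for countably many
non-zero holomorphic functions and all non-zero Laurent polynomials over a countable ring. -/

namespace Pool.Agent.CMF

open Matrix Polynomial

noncomputable section

namespace I4X

/-- The constant in the exponent is non-zero. -/
theorem const_ne {M : ℕ} (hM : 0 < M) : -(2 * (Real.pi : ℂ) * Complex.I / M) ≠ 0 := by
  have hM' : (M : ℂ) ≠ 0 := by exact_mod_cast hM.ne'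
  have hpi : (Real.pi : ℂ) ≠ 0 := by exact_mod_cast Real.pi_ne_zero
  exact neg_ne_zero.mpr (div_ne_zero (mul_ne_zero (mul_ne_zero two_ne_zero hpi)
    Complex.I_ne_zero) hM')

theorem pairC_eq {n : ℕ} (a : Fin n →₀ ℤ) (x : Fin n → ℂ) :
    pairC a x = ∑ i, (a i : ℂ) * x i := by
  unfold pairC pair
  exact Finsupp.sum_fintype a (fun i m => (m : ℂ) * x i) (fun i => by simp)

theorem pairC_single {n : ℕ} (a : Fin n →₀ ℤ) (i : Fin n) (t : ℂ) :
    pairC a (Pi.single i t) = (a i : ℂ) * t := by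
  classical
  rw [pairC_eq, Finset.sum_eq_single i]
  · rw [Pi.single_eq_same]
  · intro j _ hj
    rw [Pi.single_eq_of_ne hj, mul_zero]
  · intro h
    exact absurd (Finset.mem_univ i) h

/-- The character `x ↦ exp (-(2πi/M) ⟨a, x⟩)` of `ℂ^n`. -/
def chr {n : ℕ} (M : ℕ) (a : Fin n →₀ ℤ) : Multiplicative (Fin n → ℂ) →* ℂ where
  toFun x := Complex.exp (-(2 * Real.pi * Complex.I / M) * pairC a (Multiplicative.toAdd x))
  map_one' := by simp [pairC, pair]
  map_mul' x y := by
    rw [← Complex.exp_add]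
    congr 1
    rw [← mul_add, pairC_eq, pairC_eq, pairC_eq, ← Finset.sum_add_distrib]
    congr 1
    apply Finset.sum_congr rfl
    intro i _
    rw [toAdd_mul, Pi.add_apply, mul_add]

theorem chr_apply {n : ℕ} (M : ℕ) (a : Fin n →₀ ℤ) (x : Fin n → ℂ) :
    chr M a (Multiplicative.ofAdd x)
      = Complex.exp (-(2 * Real.pi * Complex.I / M) * pairC a x) := rfl

theorem chr_injective {n : ℕ} {M : ℕ} (hM : 0 < M) :
    Function.Injective (chr (n := n) M) := by
  classical
  intro a b hab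
  ext i
  by_contra hne
  have hc := const_ne hM
  generalize hcdef : -(2 * (Real.pi : ℂ) * Complex.I / M) = c at hc
  have hd : ((a i : ℂ) - (b i : ℂ)) ≠ 0 := by
    intro h
    apply hne
    have h2 : (a i : ℂ) = (b i : ℂ) := sub_eq_zero.mp h
    exact_mod_cast h2
  have key : ∀ t : ℂ, Complex.exp (c * ((a i : ℂ) * t)) = Complex.exp (c * ((b i : ℂ) * t)) := by
    intro t
    have h := congrArg (fun f => f (Multiplicative.ofAdd (Pi.single i t : Fin n → ℂ))) hab
    simp only [chr_apply] at h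
    rw [pairC_single, pairC_single, hcdef] at h
    exact h
  have h1 := key (1 / (c * ((a i : ℂ) - (b i : ℂ))))
  have h3 : (1 : ℂ) = c * ((a i : ℂ) * (1 / (c * ((a i : ℂ) - (b i : ℂ))))) -
      c * ((b i : ℂ) * (1 / (c * ((a i : ℂ) - (b i : ℂ))))) := by
    field_simp
  have h2 : Complex.exp 1 = 1 := by
    rw [h3, Complex.exp_sub, h1, div_self (Complex.exp_ne_zero _)]
    exact h3
  have h4 : (1 : ℝ) = 0 := by
    have h6 : Real.exp 1 = 1 := by
      have : ((Real.exp 1 : ℝ) : ℂ) = ((1 : ℝ) : ℂ) := by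
        push_cast
        exact h2
      exact_mod_cast this
    exact (Real.exp_eq_one_iff 1).mp h6
  exact one_ne_zero h4

variable {Z : Type} [CommRing Z] [Algebra Z ℂ]

theorem evL_eq {ι : Type} (M : ℕ) (κ : ι → ℂ) (p : Lau Z ι) :
    evL Z M κ p = ∑ a ∈ p.coeff.support, algebraMap Z ℂ (p.coeff a) *
      Complex.exp (-(2 * Real.pi * Complex.I / M) * pairC a κ) := by
  have h : evL Z M κ p = AddMonoidAlgebra.lift Z ℂ (ι →₀ ℤ) (expChar M κ) p := rfl
  rw [h, AddMonoidAlgebra.lift_apply]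
  refine Finset.sum_congr rfl fun a _ => ?_
  beta_reduce
  rw [Algebra.smul_def]
  rfl

theorem lineHol_evL {n : ℕ} (M : ℕ) (p : Lau Z (Fin n)) :
    LineHol (fun x : Fin n → ℂ => evL Z M x p) := by
  have h : (fun x : Fin n → ℂ => evL Z M x p) = fun x : Fin n → ℂ =>
      ∑ a ∈ p.coeff.support, algebraMap Z ℂ (p.coeff a) *
        Complex.exp (-(2 * Real.pi * Complex.I / M) * ∑ i, (a i : ℂ) * x i) := by
    funext x
    rw [evL_eq]
    apply Finset.sum_congr rfl
    intro a _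
    rw [pairC_eq]
  rw [h]
  refine LineHol.sum _ fun a _ => (LineHol.const _).mul (LineHol.exp ((LineHol.const _).mul ?_))
  refine LineHol.sum _ fun i _ => (LineHol.const _).mul ?_
  exact LineHol.clm (ContinuousLinearMap.proj (R := ℂ) (φ := fun _ : Fin n => ℂ) i)

theorem exists_evL_ne_zero (hinj : Function.Injective (algebraMap Z ℂ)) {n : ℕ} {M : ℕ}
    (hM : 0 < M) (p : Lau Z (Fin n)) (hp : p ≠ 0) :
    ∃ x : Fin n → ℂ, evL Z M x p ≠ 0 := by
  classical
  by_contra hcon
  have hall : ∀ x : Fin n → ℂ, evL Z M x p = 0 := by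
    intro x
    by_contra h
    exact hcon ⟨x, h⟩
  apply hp
  have hli : LinearIndependent ℂ
      (fun a : Fin n →₀ ℤ => ((chr M a : Multiplicative (Fin n → ℂ) →* ℂ) :
        Multiplicative (Fin n → ℂ) → ℂ)) :=
    (linearIndependent_monoidHom (Multiplicative (Fin n → ℂ)) ℂ).comp (chr M)
      (chr_injective hM)
  rw [linearIndependent_iff'] at hli
  have h1 := hli p.coeff.support (fun a => algebraMap Z ℂ (p.coeff a)) (by
    funext x
    rw [Finset.sum_apply, Pi.zero_apply, ← hall (Multiplicative.toAdd x), evL_eq]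
    rfl)
  ext a
  by_cases ha : a ∈ p.coeff.support
  · have h2 := h1 a ha
    rw [map_eq_zero_iff _ hinj] at h2
    rw [h2]
    rfl
  · rw [Finsupp.notMem_support_iff.mp ha]
    rfl

end I4X

variable {Z : Type} [CommRing Z] [Algebra Z ℂ]

theorem exists_generic (hZ : Countable Z) (hinj : Function.Injective (algebraMap Z ℂ)) {M : ℕ} (hM : 0 < M) (n : ℕ)
    (f : ℚ → ℕ → (Fin n → ℂ) → ℂ) (hf : ∀ r j, LineHol (f r j)) (hne : ∀ r j, ∃ x, f r j x ≠ 0) :
    ∃ x : Fin n → ℂ, (∀ r j, f r j x ≠ 0) ∧ ∀ p : Lau Z (Fin n), p ≠ 0 → evL Z M x p ≠ 0 := by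
  classical
  have hZ' : Countable Z := hZ
  have hL : Countable (Lau Z (Fin n)) :=
    (AddMonoidAlgebra.coeff_injective (R := Z) (M := Fin n →₀ ℤ)).countable
  have hd : Dense {x : Fin n → ℂ | ∀ j : (ℚ × ℕ) ⊕ {p : Lau Z (Fin n) // p ≠ 0},
      Sum.elim (fun q : ℚ × ℕ => f q.1 q.2)
        (fun (p : {p : Lau Z (Fin n) // p ≠ 0}) (x : Fin n → ℂ) => evL Z M x p.1) j x ≠ 0} := by
    apply dense_generic
    · rintro (q | p)
      · exact hf q.1 q.2
      · exact I4X.lineHol_evL M p.1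
    · rintro (q | p)
      · exact hne q.1 q.2
      · exact I4X.exists_evL_ne_zero hinj hM p.1 p.2
  obtain ⟨x, hx⟩ := hd.nonempty
  exact ⟨x, fun r j => hx (Sum.inl (r, j)), fun p hp => hx (Sum.inr ⟨p, hp⟩)⟩

end

end Pool.Agent.CMF
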