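import Pool.Agent.CMF.IDefs
import Pool.Agent.CMF.I2

/-! Project CMF (MP_4af2a6_al), module I5 (helper60): regularity at the points of the line, by
the Newton iteration `P ↦ 3P² - 2P³`. -/

namespace Pool.Agent.CMF

open Matrix Polynomial Filter Topology Asymptotics

noncomputable section

variable {Z : Type} [CommRing Z] [IsDomain Z] [Algebra Z ℂ] {ι : Type}

namespace I5X

/-! ### Differentiability of the evaluation along a line -/

theorem pairC_line (a : ι →₀ ℤ) (κ₁ : ι → ℂ) (l : ι → ℂ) (s : ℂ) :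
    pairC a (κ₁ + s • l) = pairC a κ₁ + s * pairC a l := by
  unfold pairC pair
  simp only [Finsupp.sum, Pi.add_apply, Pi.smul_apply, smul_eq_mul]
  rw [Finset.mul_sum, ← Finset.sum_add_distrib]
  apply Finset.sum_congr rfl
  intro i _
  ring

theorem evL_single {M : ℕ} (κ : ι → ℂ) (a : ι →₀ ℤ) (z : Z) :
    evL Z M κ (AddMonoidAlgebra.single a z : Lau Z ι) =
      algebraMap Z ℂ z * Complex.exp (-(2 * Real.pi * Complex.I / M) * pairC a κ) := by
  unfold evL
  simp only [AlgHom.toRingHom_eq_coe, RingHom.coe_coe]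
  rw [AddMonoidAlgebra.lift_single, Algebra.smul_def]
  rfl

theorem evL_line {M : ℕ} (p : Lau Z ι) (κ₁ : ι → ℂ) (l : ι → ℂ) :
    Differentiable ℂ (fun s : ℂ => evL Z M (κ₁ + s • l) p) := by
  induction p using AddMonoidAlgebra.induction_linear with
  | zero =>
      simp only [map_zero]
      exact differentiable_const 0
  | add p q hp hq =>
      simp only [map_add]
      exact hp.add hq
  | single a z =>
      simp only [evL_single, pairC_line]
      fun_prop

/-! ### Matrix valued functions which vanish to a certain order -/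

/-- all the entries are `O((s - r)^k)` -/
def BO {m : ℕ} (r : ℂ) (X : ℂ → Matrix (Fin m) (Fin m) ℂ) (k : ℕ) : Prop :=
  ∀ p q, (fun s => X s p q) =O[𝓝 r] (fun s => (s - r) ^ k)

theorem pow_isBigO (r : ℂ) {k k' : ℕ} (h : k' ≤ k) :
    (fun s : ℂ => (s - r) ^ k) =O[𝓝 r] (fun s => (s - r) ^ k') := by
  have h1 : (fun s : ℂ => (s - r) ^ (k - k')) =O[𝓝 r] (fun _ => (1 : ℂ)) := by
    have hcont : Continuous (fun s : ℂ => (s - r) ^ (k - k')) := by fun_prop
    exact (hcont.tendsto r).isBigO_one ℂ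
  have h2 := h1.mul (isBigO_refl (fun s : ℂ => (s - r) ^ k') (𝓝 r))
  refine (h2.congr_left ?_).congr_right ?_
  · intro s
    rw [← pow_add, Nat.sub_add_cancel h]
  · intro s
    rw [one_mul]

theorem BO.mono {m : ℕ} {r : ℂ} {X : ℂ → Matrix (Fin m) (Fin m) ℂ} {k k' : ℕ} (h : BO r X k)
    (hk : k' ≤ k) : BO r X k' :=
  fun p q => (h p q).trans (pow_isBigO r hk)

theorem BO.mul {m : ℕ} {r : ℂ} {X Y : ℂ → Matrix (Fin m) (Fin m) ℂ} {k k' : ℕ} (hX : BO r X k)
    (hY : BO r Y k') : BO r (fun s => X s * Y s) (k + k') := by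
  intro p q
  simp only [Matrix.mul_apply, pow_add]
  apply IsBigO.fun_sum
  intro t _
  exact (hX p t).mul (hY t q)

theorem BO.add {m : ℕ} {r : ℂ} {X Y : ℂ → Matrix (Fin m) (Fin m) ℂ} {k : ℕ} (hX : BO r X k)
    (hY : BO r Y k) : BO r (fun s => X s + Y s) k := by
  intro p q
  exact (hX p q).add (hY p q)

theorem BO.smul {m : ℕ} {r : ℂ} {X : ℂ → Matrix (Fin m) (Fin m) ℂ} {k : ℕ} (hX : BO r X k)
    (c : ℂ) : BO r (fun s => c • X s) k := by
  intro p q
  exact (hX p q).const_mul_left c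

/-! ### The multiplication of the specialised algebra -/

/-- the multiplication of coordinate vectors at the parameter `κ` -/
def mulK (D : HData Z ι) (M : ℕ) (κ : ι → ℂ) (γ δ : D.J → ℂ) : D.J → ℂ :=
  fun k => ∑ i, ∑ j, γ i * δ j * evL Z M κ (D.b.repr (D.b i * D.b j) k)

/-- the iteration -/
def newt (D : HData Z ι) (M : ℕ) (κ : ι → ℂ) (c : D.J → ℂ) : ℕ → D.J → ℂ
  | 0 => c
  | n + 1 => (3 : ℂ) • mulK D M κ (newt D M κ c n) (newt D M κ c n) -
      (2 : ℂ) • mulK D M κ (newt D M κ c n) (mulK D M κ (newt D M κ c n) (newt D M κ c n))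

theorem mulK_line (D : HData Z ι) (M : ℕ) (κ₁ l : ι → ℂ) (γ δ : ℂ → D.J → ℂ)
    (hγ : ∀ i, Differentiable ℂ (fun s => γ s i)) (hδ : ∀ i, Differentiable ℂ (fun s => δ s i))
    (k : D.J) : Differentiable ℂ (fun s => mulK D M (κ₁ + s • l) (γ s) (δ s) k) := by
  unfold mulK
  refine Differentiable.fun_sum fun i _ => Differentiable.fun_sum fun j _ => ?_
  exact ((hγ i).mul (hδ j)).mul (evL_line _ κ₁ l)

theorem newt_line (D : HData Z ι) (M : ℕ) (κ₁ l : ι → ℂ) (c : D.J → ℂ) (n : ℕ) :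
    ∀ k, Differentiable ℂ (fun s : ℂ => newt D M (κ₁ + s • l) c n k) := by
  induction n with
  | zero =>
      intro k
      exact differentiable_const _
  | succ n ih =>
      intro k
      have h1 := mulK_line D M κ₁ l _ _ ih ih
      have h2 := mulK_line D M κ₁ l _ _ ih h1
      exact ((h1 k).const_mul 3).sub ((h2 k).const_mul 2)

section

variable [Fintype ι] {D : HData Z ι} {M : ℕ} (Q : KZData D M)

/-- the value of a coordinate vector in the representation -/
def Rv (κ : ι → ℂ) (l : D.Λ) (γ : D.J → ℂ) : Matrix (Fin (D.d l)) (Fin (D.d l)) ℂ :=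
  ∑ j, γ j • Q.ρ κ l (D.b j)

theorem ρ_eq (κ : ι → ℂ) (l : D.Λ) (h : D.H) :
    Q.ρ κ l h = ∑ k, evL Z M κ (D.b.repr h k) • Q.ρ κ l (D.b k) := by
  conv_lhs => rw [← D.b.sum_repr h]
  rw [map_sum]
  apply Finset.sum_congr rfl
  intro k _
  rw [Q.ρ_smul]

theorem Rv_mul (κ : ι → ℂ) (l : D.Λ) (γ δ : D.J → ℂ) :
    Rv Q κ l (mulK D M κ γ δ) = Rv Q κ l γ * Rv Q κ l δ := by
  have h1 : Rv Q κ l γ * Rv Q κ l δ = ∑ i, ∑ j, ∑ k,
      (γ i * δ j * evL Z M κ (D.b.repr (D.b i * D.b j) k)) • Q.ρ κ l (D.b k) := by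
    unfold Rv
    rw [Finset.sum_mul_sum]
    apply Finset.sum_congr rfl
    intro i _
    apply Finset.sum_congr rfl
    intro j _
    rw [smul_mul_smul_comm, ← map_mul, ρ_eq Q κ l (D.b i * D.b j), Finset.smul_sum]
    apply Finset.sum_congr rfl
    intro k _
    rw [smul_smul]
  rw [h1]
  unfold Rv mulK
  simp only [Finset.sum_smul]
  rw [Finset.sum_comm]
  apply Finset.sum_congr rfl
  intro i _
  rw [Finset.sum_comm]

theorem Rv_sub (κ : ι → ℂ) (l : D.Λ) (γ δ : D.J → ℂ) :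
    Rv Q κ l (γ - δ) = Rv Q κ l γ - Rv Q κ l δ := by
  unfold Rv
  rw [← Finset.sum_sub_distrib]
  apply Finset.sum_congr rfl
  intro i _
  rw [Pi.sub_apply, sub_smul]

theorem Rv_smul (κ : ι → ℂ) (l : D.Λ) (a : ℂ) (γ : D.J → ℂ) :
    Rv Q κ l (a • γ) = a • Rv Q κ l γ := by
  unfold Rv
  rw [Finset.smul_sum]
  apply Finset.sum_congr rfl
  intro i _
  rw [Pi.smul_apply, smul_eq_mul, mul_smul]

theorem Rv_newt_succ (κ : ι → ℂ) (l : D.Λ) (c : D.J → ℂ) (n : ℕ) :
    Rv Q κ l (newt D M κ c (n + 1)) =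
      (3 : ℂ) • (Rv Q κ l (newt D M κ c n) * Rv Q κ l (newt D M κ c n)) -
      (2 : ℂ) • (Rv Q κ l (newt D M κ c n) * (Rv Q κ l (newt D M κ c n) *
        Rv Q κ l (newt D M κ c n))) := by
  rw [newt, Rv_sub, Rv_smul, Rv_smul, Rv_mul, Rv_mul, Rv_mul]

/-- every matrix entry is differentiable along the line -/
theorem ρ_line (κ₁ l : ι → ℂ) (l' : D.Λ) (h : D.H) (p q : Fin (D.d l')) :
    Differentiable ℂ (fun s : ℂ => Q.ρ (κ₁ + s • l) l' h p q) :=
  (Q.hol l' h p q).2 κ₁ l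

/-- the order of vanishing of the error is doubled at each step -/
theorem newt_BO (F : D.Λ → Prop) [DecidablePred F] (κ₁ l : ι → ℂ) (r : ℂ) (c : D.J → ℂ)
    (hc : ∀ l', Rv Q (κ₁ + r • l) l' c = if F l' then 1 else 0) (l' : D.Λ) (n : ℕ) :
    BO r (fun s => Rv Q (κ₁ + s • l) l' (newt D M (κ₁ + s • l) c n) - if F l' then 1 else 0)
      (2 ^ n) := by
  induction n with
  | zero =>
      intro p q
      have hd : Differentiable ℂ (fun s : ℂ => Rv Q (κ₁ + s • l) l' c p q) := by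
        unfold Rv
        simp only [Matrix.sum_apply, Matrix.smul_apply, smul_eq_mul]
        refine Differentiable.fun_sum fun j _ => ?_
        exact (ρ_line Q κ₁ l l' (D.b j) p q).const_mul (c j)
      have h1 := (hd r).isBigO_sub
      have h2 : Rv Q (κ₁ + r • l) l' c p q =
          (if F l' then 1 else 0 : Matrix (Fin (D.d l')) (Fin (D.d l')) ℂ) p q := by
        rw [hc l']
      rw [h2] at h1
      simpa [newt] using h1
  | succ n ih =>
      set E : ℂ → Matrix (Fin (D.d l')) (Fin (D.d l')) ℂ := fun s =>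
        Rv Q (κ₁ + s • l) l' (newt D M (κ₁ + s • l) c n) - if F l' then 1 else 0 with hE
      have hE1 : BO r E (2 ^ n) := ih
      have hE2 : BO r (fun s => E s * E s) (2 ^ (n + 1)) := by
        have := hE1.mul hE1
        rwa [show 2 ^ n + 2 ^ n = 2 ^ (n + 1) by ring] at this
      have hE3 : BO r (fun s => E s * (E s * E s)) (2 ^ (n + 1)) := by
        refine (hE1.mul hE2).mono ?_
        exact Nat.le_add_left _ _
      have key : ∀ s, Rv Q (κ₁ + s • l) l' (newt D M (κ₁ + s • l) c (n + 1)) -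
          (if F l' then 1 else 0) =
          (if F l' then (-3 : ℂ) else 3) • (E s * E s) + (-2 : ℂ) • (E s * (E s * E s)) := by
        intro s
        rw [Rv_newt_succ]
        have hP : Rv Q (κ₁ + s • l) l' (newt D M (κ₁ + s • l) c n) =
            E s + if F l' then 1 else 0 := by
          rw [hE]
          simp
        rw [hP]
        by_cases hF : F l'
        · simp only [hF, if_true]
          generalize E s = X
          simp only [mul_add, add_mul, mul_one, one_mul, smul_add]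
          module
        · simp only [hF, if_false]
          generalize E s = X
          simp only [add_zero, sub_zero]
          module
      intro p q
      simp only [key]
      exact ((hE2.smul _).add (hE3.smul _)) p q

end

end I5X

open I5X in
/-- `κ(s) = κ₁ + s l`.  At `s = r` the set `F` is separated by constant coefficients `c`. -/
theorem regular_at [Fintype ι] {D : HData Z ι} {M : ℕ} (hM : 0 < M) (Q : KZData D M)
    (F : D.Λ → Prop) [DecidablePred F] (hF : ∀ l m, Q.a l = Q.a m → (F l ↔ F m))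
    (κ₁ : ι → ℂ) (l : ι → ℤ) (hS : evL Z M κ₁ D.S ≠ 0) (r : ℂ) (c : D.J → ℂ)
    (hc : ∀ l', (∑ i, c i • Q.ρ (κ₁ + r • (fun i => (l i : ℂ))) l' (D.b i)) = if F l' then 1 else 0)
    (i : D.J) :
    ∃ C : ℝ, ∀ᶠ s in nhdsWithin r {r}ᶜ,
      ‖evL Z M (κ₁ + s • (fun i => (l i : ℂ))) (D.b.repr (Q.XF F) i)‖ ≤
        C * ‖evL Z M (κ₁ + s • (fun i => (l i : ℂ))) Q.Bden‖ := by
  set L : ι → ℂ := fun i => (l i : ℂ) with hL
  -- the function `S` on the line
  set S : ℂ → ℂ := fun s => evL Z M (κ₁ + s • L) D.S with hSdef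
  have hSd : Differentiable ℂ S := evL_line D.S κ₁ L
  have hS0 : S 0 ≠ 0 := by
    rw [hSdef]
    simpa using hS
  have hSan : AnalyticOnNhd ℂ S Set.univ := hSd.differentiableOn.analyticOnNhd isOpen_univ
  have hSr : ¬ ∀ᶠ s in 𝓝 r, S s = 0 := by
    intro h
    have := hSan.eqOn_zero_of_preconnected_of_eventuallyEq_zero isPreconnected_univ
      (Set.mem_univ r) h (Set.mem_univ 0)
    exact hS0 this
  obtain ⟨k, g, hg, hgr, hSg⟩ := (hSan r (Set.mem_univ r)).exists_eventuallyEq_pow_smul_nonzero_iff.2 hSr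
  -- the approximate coordinates
  set γ : ℂ → D.J → ℂ := fun s => newt D M (κ₁ + s • L) c k with hγ
  have hk : k ≤ 2 ^ k := Nat.lt_two_pow_self.le
  have hBO : ∀ l', BO r (fun s => Rv Q (κ₁ + s • L) l' (γ s) - if F l' then 1 else 0) k :=
    fun l' => (newt_BO Q F κ₁ L r c hc l' k).mono hk
  -- the error
  set T : ℂ → ℂ := fun s => ∑ l', evL Z M (κ₁ + s • L) (∏ m ∈ Finset.univ.erase l', D.s m) *
      ((Rv Q (κ₁ + s • L) l' (γ s) - if F l' then 1 else 0) *
        Q.ρ (κ₁ + s • L) l' (D.b' i)).trace with hT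
  have hTO : T =O[𝓝 r] (fun s => (s - r) ^ k) := by
    rw [hT]
    apply IsBigO.fun_sum
    intro l' _
    have h1 : (fun s : ℂ => evL Z M (κ₁ + s • L) (∏ m ∈ Finset.univ.erase l', D.s m)) =O[𝓝 r]
        (fun _ => (1 : ℂ)) :=
      ((evL_line (M := M) (∏ m ∈ Finset.univ.erase l', D.s m) κ₁ L).continuous.tendsto r).isBigO_one ℂ
    have h2 : BO r (fun s => Q.ρ (κ₁ + s • L) l' (D.b' i)) 0 := by
      intro p q
      simp only [pow_zero]
      exact ((ρ_line Q κ₁ L l' (D.b' i) p q).continuous.tendsto r).isBigO_one ℂ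
    have h3 := (hBO l').mul h2
    have h4 : (fun s : ℂ => ((Rv Q (κ₁ + s • L) l' (γ s) - if F l' then 1 else 0) *
        Q.ρ (κ₁ + s • L) l' (D.b' i)).trace) =O[𝓝 r] (fun s => (s - r) ^ k) := by
      simp only [Matrix.trace, Matrix.diag_apply]
      apply IsBigO.fun_sum
      intro p _
      exact h3 p p
    refine (h1.mul h4).congr_right ?_
    intro s
    rw [one_mul]
  -- the identity
  have hid : ∀ s, S s * evL Z M (κ₁ + s • L) (D.b.repr (Q.XF F) i) =
      evL Z M (κ₁ + s • L) Q.Bden * (S s * γ s i - T s) := by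
    intro s
    set κ : ι → ℂ := κ₁ + s • L with hκ
    have h1 := Q.coord κ (fun j => evL Z M κ (D.b.repr (Q.XF F) j)) i
    have h2 := Q.coord κ (γ s) i
    have h3 : ∀ l', (∑ j, evL Z M κ (D.b.repr (Q.XF F) j) • Q.ρ κ l' (D.b j)) =
        if F l' then evL Z M κ Q.Bden • 1 else 0 := by
      intro l'
      rw [← ρ_eq Q κ l' (Q.XF F), Q.ρ_XF F hF κ l']
    have h4 : S s * evL Z M κ (D.b.repr (Q.XF F) i) = ∑ l', evL Z M κ
        (∏ m ∈ Finset.univ.erase l', D.s m) * (evL Z M κ Q.Bden *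
          ((if F l' then 1 else 0 : Matrix (Fin (D.d l')) (Fin (D.d l')) ℂ) *
            Q.ρ κ l' (D.b' i)).trace) := by
      rw [hSdef]
      simp only
      rw [h1]
      apply Finset.sum_congr rfl
      intro l' _
      rw [h3 l']
      by_cases hl : F l'
      · simp only [hl, if_true, smul_mul_assoc, one_mul, Matrix.trace_smul, smul_eq_mul]
      · simp only [hl, if_false, zero_mul, Matrix.trace_zero, mul_zero]
    have h5 : S s * γ s i = ∑ l', evL Z M κ (∏ m ∈ Finset.univ.erase l', D.s m) *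
        (Rv Q κ l' (γ s) * Q.ρ κ l' (D.b' i)).trace := h2
    rw [h4, h5, hT]
    simp only
    rw [← Finset.sum_sub_distrib, Finset.mul_sum]
    apply Finset.sum_congr rfl
    intro l' _
    rw [← hκ, sub_mul, Matrix.trace_sub]
    ring
  -- bounds
  obtain ⟨C1, hC1⟩ := hTO.bound
  have hγd : Differentiable ℂ (fun s => γ s i) := newt_line D M κ₁ L c k i
  have hγb : ∀ᶠ s in 𝓝 r, ‖γ s i‖ ≤ ‖γ r i‖ + 1 := by
    have h1 : Tendsto (fun s => ‖γ s i‖) (𝓝 r) (𝓝 ‖γ r i‖) :=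
      (hγd.continuous.norm).tendsto r
    exact (h1.eventually (gt_mem_nhds (lt_add_one _))).mono fun s hs => hs.le
  have hgpos : 0 < ‖g r‖ := norm_pos_iff.2 hgr
  have hgb : ∀ᶠ s in 𝓝 r, ‖g r‖ / 2 ≤ ‖g s‖ := by
    have h1 : Tendsto (fun s => ‖g s‖) (𝓝 r) (𝓝 ‖g r‖) := hg.continuousAt.norm
    exact (h1.eventually (lt_mem_nhds (half_lt_self hgpos))).mono fun s hs => hs.le
  refine ⟨‖γ r i‖ + 1 + |C1| / (‖g r‖ / 2), ?_⟩
  rw [eventually_nhdsWithin_iff]
  filter_upwards [hSg, hC1, hγb, hgb] with s hs1 hs2 hs3 hs4 hsr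
  have hne : s - r ≠ 0 := sub_ne_zero.2 hsr
  have hpow : 0 < ‖(s - r) ^ k‖ := norm_pos_iff.2 (pow_ne_zero k hne)
  set x := evL Z M (κ₁ + s • L) (D.b.repr (Q.XF F) i) with hx
  set B := evL Z M (κ₁ + s • L) Q.Bden with hB
  have e1 : S s * (x - B * γ s i) = - (B * T s) := by
    have := hid s
    rw [← hx, ← hB] at this
    linear_combination this
  have e2 : ‖S s‖ * ‖x - B * γ s i‖ = ‖B‖ * ‖T s‖ := by
    rw [← norm_mul, e1, norm_neg, norm_mul]
  have e3 : ‖S s‖ = ‖(s - r) ^ k‖ * ‖g s‖ := by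
    rw [hs1, norm_smul]
  have e4 : ‖(s - r) ^ k‖ * (‖g r‖ / 2) * ‖x - B * γ s i‖ ≤ ‖B‖ * (|C1| * ‖(s - r) ^ k‖) := by
    calc ‖(s - r) ^ k‖ * (‖g r‖ / 2) * ‖x - B * γ s i‖ ≤ ‖S s‖ * ‖x - B * γ s i‖ := by
          rw [e3]
          gcongr
      _ = ‖B‖ * ‖T s‖ := e2
      _ ≤ ‖B‖ * (|C1| * ‖(s - r) ^ k‖) := by
          have : C1 * ‖(s - r) ^ k‖ ≤ |C1| * ‖(s - r) ^ k‖ := by
            gcongr
            exact le_abs_self C1
          gcongr
          exact hs2.trans this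
  have e5 : ‖x - B * γ s i‖ ≤ |C1| / (‖g r‖ / 2) * ‖B‖ := by
    rw [div_mul_eq_mul_div, le_div_iff₀ (by positivity)]
    have e6 : ‖(s - r) ^ k‖ * (‖x - B * γ s i‖ * (‖g r‖ / 2)) ≤
        ‖(s - r) ^ k‖ * (|C1| * ‖B‖) := by linarith
    exact le_of_mul_le_mul_left e6 hpow
  calc ‖x‖ = ‖B * γ s i + (x - B * γ s i)‖ := by
        congr 1
        ring
    _ ≤ ‖B * γ s i‖ + ‖x - B * γ s i‖ := norm_add_le _ _
    _ ≤ ‖B‖ * (‖γ r i‖ + 1) + |C1| / (‖g r‖ / 2) * ‖B‖ := by
        rw [norm_mul]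
        gcongr
    _ = (‖γ r i‖ + 1 + |C1| / (‖g r‖ / 2)) * ‖B‖ := by ring

end

end Pool.Agent.CMF
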