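import Mathlib

/-! Project CMF (MP_4af2a6_al), module I5b (helper69): comparison of root multiplicities from a
bound near a point of the line. -/

namespace Pool.Agent.CMF

open Filter Topology

/-- Comparison of root multiplicities from a bound near a point of the line. -/
theorem rootMultiplicity_le_of_bound {M : ℕ} (hM : 0 < M) (P B : Polynomial ℂ) (hP : P ≠ 0)
    (k k' : ℤ) (r : ℂ) (C : ℝ)
    (h : ∀ᶠ s in nhdsWithin r {r}ᶜ,
      ‖Complex.exp (-(2 * Real.pi * Complex.I / M) * s) ^ k *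
          P.eval (Complex.exp (-(2 * Real.pi * Complex.I / M) * s))‖ ≤
        C * ‖Complex.exp (-(2 * Real.pi * Complex.I / M) * s) ^ k' *
          B.eval (Complex.exp (-(2 * Real.pi * Complex.I / M) * s))‖) :
    B.rootMultiplicity (Complex.exp (-(2 * Real.pi * Complex.I / M) * r)) ≤
      P.rootMultiplicity (Complex.exp (-(2 * Real.pi * Complex.I / M) * r)) := by
  by_contra hlt
  push Not at hlt
  set c : ℂ := -(2 * Real.pi * Complex.I / M) with hc
  have hc0 : c ≠ 0 := by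
    have hpi : (Real.pi : ℂ) ≠ 0 := Complex.ofReal_ne_zero.2 Real.pi_ne_zero
    have hM' : (M : ℂ) ≠ 0 := by exact_mod_cast hM.ne'
    rw [hc]
    exact neg_ne_zero.2 (div_ne_zero (mul_ne_zero (mul_ne_zero two_ne_zero hpi)
      Complex.I_ne_zero) hM')
  set q : ℂ := Complex.exp (c * r) with hq
  have hq0 : q ≠ 0 := Complex.exp_ne_zero _
  have hB : B ≠ 0 := by
    rintro rfl
    simp at hlt
  obtain ⟨P1, hP1, hP1'⟩ := Polynomial.exists_eq_pow_rootMultiplicity_mul_and_not_dvd P hP q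
  obtain ⟨B1, hB1, -⟩ := Polynomial.exists_eq_pow_rootMultiplicity_mul_and_not_dvd B hB q
  set m := P.rootMultiplicity q with hm
  set n := B.rootMultiplicity q with hn
  have hP1q : P1.eval q ≠ 0 := by
    intro h0
    exact hP1' (Polynomial.dvd_iff_isRoot.2 h0)
  have hderiv : HasDerivAt (fun s : ℂ => Complex.exp (c * s)) (Complex.exp (c * r) * (c * 1)) r :=
    ((hasDerivAt_id r).const_mul c).cexp
  have hd0 : Complex.exp (c * r) * (c * 1) ≠ 0 :=
    mul_ne_zero hq0 (mul_ne_zero hc0 one_ne_zero)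
  have hne : ∀ᶠ s in nhdsWithin r {r}ᶜ, Complex.exp (c * s) ≠ q :=
    hderiv.eventually_ne hd0
  have hcont : Tendsto (fun s : ℂ => Complex.exp (c * s)) (nhdsWithin r {r}ᶜ) (𝓝 q) :=
    (hderiv.continuousAt.tendsto).mono_left nhdsWithin_le_nhds
  have hz : ∀ j : ℤ, Tendsto (fun s : ℂ => ‖Complex.exp (c * s) ^ j‖) (nhdsWithin r {r}ᶜ)
      (𝓝 ‖q ^ j‖) := fun j => (hcont.zpow₀ j (Or.inl hq0)).norm
  have hpoly : ∀ A : Polynomial ℂ, Tendsto (fun s : ℂ => A.eval (Complex.exp (c * s)))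
      (nhdsWithin r {r}ᶜ) (𝓝 (A.eval q)) := fun A =>
    (A.continuous.tendsto q).comp hcont
  have hineq : ∀ᶠ s in nhdsWithin r {r}ᶜ,
      ‖Complex.exp (c * s) ^ k‖ * ‖P1.eval (Complex.exp (c * s))‖ ≤
        C * (‖Complex.exp (c * s) ^ k'‖ * (‖Complex.exp (c * s) - q‖ ^ (n - m) *
          ‖B1.eval (Complex.exp (c * s))‖)) := by
    filter_upwards [h, hne] with s hs hsne
    have hpos : 0 < ‖Complex.exp (c * s) - q‖ ^ m :=
      pow_pos (norm_pos_iff.2 (sub_ne_zero.2 hsne)) _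
    have e1 : P.eval (Complex.exp (c * s)) = (Complex.exp (c * s) - q) ^ m *
        P1.eval (Complex.exp (c * s)) := by
      conv_lhs => rw [hP1]
      simp
    have e2 : B.eval (Complex.exp (c * s)) = (Complex.exp (c * s) - q) ^ n *
        B1.eval (Complex.exp (c * s)) := by
      conv_lhs => rw [hB1]
      simp
    rw [e1, e2] at hs
    simp only [norm_mul, norm_pow] at hs
    have e3 : ‖Complex.exp (c * s) - q‖ ^ n =
        ‖Complex.exp (c * s) - q‖ ^ m * ‖Complex.exp (c * s) - q‖ ^ (n - m) := by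
      rw [← pow_add]
      congr 1
      omega
    rw [e3] at hs
    refine le_of_mul_le_mul_left ?_ hpos
    calc ‖Complex.exp (c * s) - q‖ ^ m * (‖Complex.exp (c * s) ^ k‖ *
          ‖P1.eval (Complex.exp (c * s))‖)
        = ‖Complex.exp (c * s) ^ k‖ * (‖Complex.exp (c * s) - q‖ ^ m *
          ‖P1.eval (Complex.exp (c * s))‖) := by ring
      _ ≤ _ := hs
      _ = _ := by ring
  have hL : Tendsto (fun s : ℂ => ‖Complex.exp (c * s) ^ k‖ *
      ‖P1.eval (Complex.exp (c * s))‖) (nhdsWithin r {r}ᶜ) (𝓝 (‖q ^ k‖ * ‖P1.eval q‖)) :=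
    (hz k).mul (hpoly P1).norm
  have hR : Tendsto (fun s : ℂ => C * (‖Complex.exp (c * s) ^ k'‖ *
      (‖Complex.exp (c * s) - q‖ ^ (n - m) * ‖B1.eval (Complex.exp (c * s))‖)))
      (nhdsWithin r {r}ᶜ) (𝓝 (C * (‖q ^ k'‖ * (‖q - q‖ ^ (n - m) * ‖B1.eval q‖)))) :=
    ((hz k').mul (((hcont.sub_const q).norm.pow (n - m)).mul (hpoly B1).norm)).const_mul C
  have hle := le_of_tendsto_of_tendsto hL hR hineq
  have h0 : C * (‖q ^ k'‖ * (‖q - q‖ ^ (n - m) * ‖B1.eval q‖)) = 0 := by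
    rw [sub_self, norm_zero, zero_pow (by omega)]
    ring
  rw [h0] at hle
  have hpos : 0 < ‖q ^ k‖ * ‖P1.eval q‖ :=
    mul_pos (norm_pos_iff.2 (zpow_ne_zero _ hq0)) (norm_pos_iff.2 hP1q)
  exact absurd hle (not_le.2 hpos)

end Pool.Agent.CMF
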