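import Pool.Agent.CMF.I2
import Pool.Agent.CMF.I5
import Pool.Agent.CMF.I5b

/-! Project CMF, block I/N (helper77): the line `κ(s) = κ(x) + s l`, factorisation of the
denominator, monic division. -/

set_option linter.unusedSectionVars false

namespace Pool.Agent.CMF

open Matrix Polynomial

noncomputable section

variable {Z : Type} [CommRing Z] [IsDomain Z] [Algebra Z ℂ] {ι : Type} {n : ℕ}

/-- `a ↦ (⟨a, B_j⟩)_j`. -/
def resHom (B : Fin n → ι → ℤ) : (ι →₀ ℤ) →+ (Fin n →₀ ℤ) where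
  toFun a := Finsupp.equivFunOnFinite.symm fun j => pairHom (B j) a
  map_zero' := by ext j; simp
  map_add' a b := by ext j; simp

lemma resHom_apply (B : Fin n → ι → ℤ) (a : ι →₀ ℤ) (j : Fin n) :
    resHom B a j = pairZ a (B j) := rfl

/-- Restriction to the span of the `B_j`: `v^a ↦ Π_j w_j^{⟨a, B_j⟩}`. -/
def res (Z : Type) [CommRing Z] (B : Fin n → ι → ℤ) : Lau Z ι →+* Lau Z (Fin n) :=
  AddMonoidAlgebra.mapDomainRingHom Z (resHom B)

lemma res_single (B : Fin n → ι → ℤ) (a : ι →₀ ℤ) (z : Z) :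
    res Z B (AddMonoidAlgebra.single a z) = AddMonoidAlgebra.single (resHom B a) z := by
  simp [res]

lemma res_mon (B : Fin n → ι → ℤ) (a : ι →₀ ℤ) : res Z B (mon a) = mon (resHom B a) :=
  res_single B a 1

lemma mon_mul {R : Type} [CommRing R] (a b : ι →₀ ℤ) : (mon a : Lau R ι) * mon b = mon (a + b) := by
  simp [mon, AddMonoidAlgebra.single_mul_single]

lemma mon_zero {R : Type} [CommRing R] : (mon 0 : Lau R ι) = 1 := rfl

lemma isUnit_mon {R : Type} [CommRing R] (a : ι →₀ ℤ) : IsUnit (mon a : Lau R ι) :=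
  IsUnit.of_mul_eq_one (mon (-a)) (by rw [mon_mul, add_neg_cancel, mon_zero])

/-- `v^a ↦ w^{B a} T^{⟨a,l⟩}`. -/
def lin (Z : Type) [CommRing Z] (B : Fin n → ι → ℤ) (l : ι → ℤ) :
    Lau Z ι →+* LaurentPolynomial (Lau Z (Fin n)) :=
  AddMonoidAlgebra.liftNCRingHom
    ((LaurentPolynomial.C (R := Lau Z (Fin n))).comp (algebraMap Z (Lau Z (Fin n))))
    { toFun := fun a => LaurentPolynomial.C (mon (resHom B (Multiplicative.toAdd a))) *
        LaurentPolynomial.T (pairHom l (Multiplicative.toAdd a))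
      map_one' := by simp [mon_zero]
      map_mul' := fun a b => by
        rw [toAdd_mul, map_add, map_add, ← mon_mul, map_mul, LaurentPolynomial.T_add]
        ring }
    (fun _ _ => Commute.all _ _)

lemma lin_single (B : Fin n → ι → ℤ) (l : ι → ℤ) (a : ι →₀ ℤ) (z : Z) :
    lin Z B l (AddMonoidAlgebra.single a z) =
      LaurentPolynomial.C (algebraMap Z (Lau Z (Fin n)) z) *
        (LaurentPolynomial.C (mon (resHom B a)) * LaurentPolynomial.T (pairZ a l)) :=
  AddMonoidAlgebra.liftNCRingHom_single _ _ _ _ _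

lemma lin_mon (B : Fin n → ι → ℤ) (l : ι → ℤ) (a : ι →₀ ℤ) : lin Z B l (mon a) =
    LaurentPolynomial.C (mon (resHom B a)) * LaurentPolynomial.T (pairZ a l) := by
  rw [mon, lin_single, map_one, map_one, one_mul]

/-- `T ↦ 1`. -/
def augT (S : Type) [CommRing S] : LaurentPolynomial S →+* S :=
  LaurentPolynomial.eval₂ (RingHom.id S) 1

lemma augT_lin (B : Fin n → ι → ℤ) (l : ι → ℤ) (p : Lau Z ι) :
    augT _ (lin Z B l p) = res Z B p := by
  have h : (augT _).comp (lin Z B l) = res Z B := by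
    apply AddMonoidAlgebra.ringHom_ext
    · intro z
      rw [RingHom.comp_apply, lin_single, res_single]
      simp [augT, mon, pairZ, pair]
    · intro a
      rw [RingHom.comp_apply, lin_single, res_single]
      simp [augT, mon]
  rw [← h]; rfl

/-- The number `u = exp(-2πi s/M)` as a unit. -/
def uS (M : ℕ) (s : ℂ) : ℂˣ :=
  Units.mk0 (Complex.exp (-(2 * Real.pi * Complex.I / M) * s)) (Complex.exp_ne_zero _)

/-- Evaluation at `(x, s)`. -/
def evT (Z : Type) [CommRing Z] [Algebra Z ℂ] (M : ℕ) (x : Fin n → ℂ) (s : ℂ) :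
    LaurentPolynomial (Lau Z (Fin n)) →+* ℂ :=
  LaurentPolynomial.eval₂ (evL Z M x) (uS M s)

lemma pairC_res [Fintype ι] (B : Fin n → ι → ℤ) (a : ι →₀ ℤ) (x : Fin n → ℂ) :
    pairC (resHom B a) x = pairC a (∑ j, x j • fun i => (B j i : ℂ)) := by
  rw [pairC_eq_sum, pairC_eq_sum]
  have h : ∀ j, ((resHom B a j : ℤ) : ℂ) = ∑ i, (a i : ℂ) * (B j i : ℂ) := by
    intro j
    rw [resHom_apply, pairZ, pair, Finsupp.sum_fintype _ _ (by simp)]
    simp
  simp only [h, Finset.sum_mul, Finset.sum_apply, Pi.smul_apply, smul_eq_mul, Finset.mul_sum]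
  rw [Finset.sum_comm]
  refine Finset.sum_congr rfl fun i _ => Finset.sum_congr rfl fun j _ => by ring

lemma pairC_int [Fintype ι] (a : ι →₀ ℤ) (l : ι → ℤ) :
    pairC a (fun i => (l i : ℂ)) = (pairZ a l : ℂ) := by
  rw [pairC_eq_sum, pairZ, pair, Finsupp.sum_fintype _ _ (by simp)]
  simp

lemma evT_lin [Fintype ι] {M : ℕ} (B : Fin n → ι → ℤ) (l : ι → ℤ) (x : Fin n → ℂ) (s : ℂ)
    (p : Lau Z ι) : evT Z M x s (lin Z B l p) =
      evL Z M ((∑ j, x j • fun i => (B j i : ℂ)) + s • fun i => (l i : ℂ)) p := by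
  have h : (evT Z M x s).comp (lin Z B l) =
      evL Z M ((∑ j, x j • fun i => (B j i : ℂ)) + s • fun i => (l i : ℂ)) := by
    apply AddMonoidAlgebra.ringHom_ext
    · intro z
      have h0 : (mon (resHom B 0) : Lau Z (Fin n)) = 1 := by rw [map_zero, mon_zero]
      have h1 : pairZ (0 : ι →₀ ℤ) l = 0 := by simp [pairZ, pair]
      rw [RingHom.comp_apply, lin_single, evL_single, h0, h1, LaurentPolynomial.T_zero, map_one,
        mul_one, mul_one, evT, LaurentPolynomial.eval₂_C]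
      have h3 : algebraMap Z (Lau Z (Fin n)) z = AddMonoidAlgebra.single 0 z := rfl
      rw [h3, evL_single]
      simp [pairC, pair]
    · intro a
      have h2 : (AddMonoidAlgebra.single a 1 : Lau Z ι) = mon a := rfl
      rw [RingHom.comp_apply, h2, lin_mon, evL_mon, pairC_add, pairC_smul, pairC_int, ← pairC_res]
      rw [evT, LaurentPolynomial.eval₂_C_mul_T, evL_mon, mul_add, Complex.exp_add]
      congr 1
      rw [Units.val_zpow_eq_zpow_val]
      simp only [uS, Units.val_mk0]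
      rw [← Complex.exp_int_mul]
      congr 1; ring
  rw [← h]; rfl

lemma evT_toLaurent {M : ℕ} (x : Fin n → ℂ) (s : ℂ) (P : Polynomial (Lau Z (Fin n))) :
    evT Z M x s (Polynomial.toLaurent P) = (P.map (evL Z M x)).eval (uS M s : ℂ) := by
  rw [evT, LaurentPolynomial.eval₂_toLaurent, Polynomial.eval_map]

lemma evL_res [Fintype ι] {M : ℕ} (B : Fin n → ι → ℤ) (x : Fin n → ℂ) (p : Lau Z ι) :
    evL Z M x (res Z B p) = evL Z M (∑ j, x j • fun i => (B j i : ℂ)) p := by
  have h : (evL Z M x).comp (res Z B) = evL Z M (∑ j, x j • fun i => (B j i : ℂ)) := by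
    apply AddMonoidAlgebra.ringHom_ext
    · intro z
      rw [RingHom.comp_apply, res_single, evL_single, evL_single, pairC_res]
    · intro a
      have h2 : (AddMonoidAlgebra.single a 1 : Lau Z ι) = mon a := rfl
      rw [RingHom.comp_apply, h2, res_mon, evL_mon, evL_mon, pairC_res]
  rw [← h]; rfl

/-- Orientation of a difference of exponents. -/
def ori (l : ι → ℤ) (p : (ι →₀ ℤ) × (ι →₀ ℤ)) : ι →₀ ℤ :=
  if 0 < pairZ (p.1 - p.2) l then p.1 - p.2 else p.2 - p.1

lemma ori_ne (l : ι → ℤ) (p : (ι →₀ ℤ) × (ι →₀ ℤ)) (h : p.1 ≠ p.2) : ori l p ≠ 0 := by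
  rw [ori]; split_ifs
  · exact sub_ne_zero.2 h
  · exact sub_ne_zero.2 (Ne.symm h)

lemma ori_pos (l : ι → ℤ) (p : (ι →₀ ℤ) × (ι →₀ ℤ)) (h : pairZ (p.1 - p.2) l ≠ 0) :
    0 < pairZ (ori l p) l := by
  rw [ori]; split_ifs with h1
  · exact h1
  · have h2 : pairZ (p.2 - p.1) l = - pairZ (p.1 - p.2) l := by
      have : (p.2 - p.1) = -(p.1 - p.2) := by abel
      rw [this]
      exact map_neg (pairHom l) _
    rw [h2]
    omega

lemma sub_mon_eq (l : ι → ℤ) (p : (ι →₀ ℤ) × (ι →₀ ℤ)) : ∃ w : Lau Z ι, IsUnit w ∧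
    (mon p.1 - mon p.2 : Lau Z ι) = w * (mon (ori l p) - 1) := by
  rw [ori]; split_ifs with h1
  · refine ⟨mon p.2, isUnit_mon _, ?_⟩
    rw [mul_sub, mon_mul, mul_one]
    congr 2; abel
  · refine ⟨- mon p.1, (isUnit_mon _).neg, ?_⟩
    rw [mul_sub, neg_mul, mon_mul]
    have : p.1 + (p.2 - p.1) = p.2 := by abel
    rw [this]; ring

variable [Fintype ι] {D : HData Z ι} {M : ℕ} (Q : KZData D M)

open Classical in
lemma Bden_eq (l : ι → ℤ) : ∃ w : Lau Z ι, IsUnit w ∧
    Q.Bden = w * ∏ p ∈ Q.T.offDiag, (mon (ori l p) - 1) := by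
  have h1 : Q.Bden = ∏ p ∈ Q.T.offDiag, (mon p.1 - mon p.2 : Lau Z ι) := by
    have h2 : ∀ a ∈ Q.T, Q.P a = ∏ a' ∈ Q.T, if a ≠ a' then (mon a - mon a' : Lau Z ι) else 1 := by
      intro a _
      rw [KZData.P, ← Finset.prod_filter]
      apply Finset.prod_congr _ (fun _ _ => rfl)
      ext a'
      simp only [Finset.mem_erase, Finset.mem_filter]
      exact ⟨fun h => ⟨h.2, Ne.symm h.1⟩, fun h => ⟨Ne.symm h.2, h.1⟩⟩
    rw [KZData.Bden, Finset.prod_congr rfl h2,
      ← Finset.prod_product' Q.T Q.T (fun a a' => if a ≠ a' then (mon a - mon a' : Lau Z ι) else 1),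
      ← Finset.prod_filter]
    apply Finset.prod_congr _ (fun _ _ => rfl)
    ext p
    simp only [Finset.mem_filter, Finset.mem_product, Finset.mem_offDiag]
    tauto
  choose w hw hw' using sub_mon_eq (Z := Z) l
  refine ⟨∏ p ∈ Q.T.offDiag, w p, ?_, ?_⟩
  · exact Finset.prod_induction _ IsUnit (fun _ _ => IsUnit.mul) isUnit_one fun p _ => hw p
  · rw [h1, ← Finset.prod_mul_distrib]
    exact Finset.prod_congr rfl fun p _ => hw' p

/-- The polynomial `w^{Bβ} X^k - 1`, `k = ⟨β, l⟩ > 0`. -/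
def gPol (Z : Type) [CommRing Z] (B : Fin n → ι → ℤ) (l : ι → ℤ) (β : ι →₀ ℤ) :
    Polynomial (Lau Z (Fin n)) :=
  Polynomial.C (mon (resHom B β)) * Polynomial.X ^ (pairZ β l).toNat - 1

omit [Fintype ι] in
lemma toLaurent_gPol (B : Fin n → ι → ℤ) (l : ι → ℤ) (β : ι →₀ ℤ) (h : 0 < pairZ β l) :
    Polynomial.toLaurent (gPol Z B l β) = lin Z B l (mon β - 1) := by
  rw [gPol, map_sub, map_sub, map_one, map_one, lin_mon, Polynomial.toLaurent_C_mul_X_pow]
  congr 3
  exact (Int.toNat_of_nonneg h.le)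

/-! ### The main statement on the line -/

/-- Divisibility over `ℂ` by a product of `X^k - 1` from root multiplicities at roots of unity. -/
lemma prod_dvd_of_rootMultiplicity {J' : Type} (s : Finset J') (k : J' → ℕ)
    (hk : ∀ j ∈ s, 0 < k j) (P : Polynomial ℂ)
    (h : ∀ u : ℂ, (∃ m : ℕ, 0 < m ∧ u ^ m = 1) →
      (∏ j ∈ s, (Polynomial.X ^ k j - 1 : Polynomial ℂ)).rootMultiplicity u ≤
        P.rootMultiplicity u) :
    (∏ j ∈ s, (Polynomial.X ^ k j - 1 : Polynomial ℂ)) ∣ P := by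
  by_cases hP : P = 0
  · rw [hP]; exact dvd_zero _
  have hne : (∏ j ∈ s, (Polynomial.X ^ k j - 1 : Polynomial ℂ)) ≠ 0 := by
    rw [Finset.prod_ne_zero_iff]
    intro j hj h0
    have := Polynomial.X_pow_sub_C_ne_zero (hk j hj) (1 : ℂ)
    rw [map_one] at this
    exact this h0
  refine (IsAlgClosed.splits _).dvd_of_roots_le_roots hne ?_
  rw [Multiset.le_iff_count]
  intro u
  rw [Polynomial.count_roots, Polynomial.count_roots]
  by_cases hu : ∃ m : ℕ, 0 < m ∧ u ^ m = 1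
  · exact h u hu
  · have h0 : (∏ j ∈ s, (Polynomial.X ^ k j - 1 : Polynomial ℂ)).rootMultiplicity u = 0 := by
      apply Polynomial.rootMultiplicity_eq_zero
      rw [Polynomial.IsRoot.def, Polynomial.eval_prod, Finset.prod_eq_zero_iff]
      rintro ⟨j, hj, h1⟩
      apply hu
      refine ⟨k j, hk j hj, ?_⟩
      simpa [sub_eq_zero] using h1
    rw [h0]; exact Nat.zero_le _

/-- Every root of unity is on the line at a rational parameter. -/
lemma exists_rat_of_root {M : ℕ} (hM : 0 < M) (u : ℂ) (h : ∃ m : ℕ, 0 < m ∧ u ^ m = 1) :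
    ∃ r : ℚ, Complex.exp (-(2 * Real.pi * Complex.I / M) * (r : ℂ)) = u := by
  obtain ⟨m, hm, hu⟩ := h
  have hm' : (m : ℂ) ≠ 0 := by exact_mod_cast hm.ne'
  have hM' : (M : ℂ) ≠ 0 := by exact_mod_cast hM.ne'
  have : NeZero m := ⟨hm.ne'⟩
  obtain ⟨i, -, hi⟩ := (Complex.mem_rootsOfUnity m (Units.mk0 u (by
    rintro rfl; rw [zero_pow hm.ne'] at hu; exact zero_ne_one hu))).1 (by
      rw [mem_rootsOfUnity]; ext; simpa using hu)
  refine ⟨-(i * M / m : ℚ), ?_⟩
  rw [Units.val_mk0] at hi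
  rw [← hi]
  congr 1
  push_cast
  field_simp

lemma evL_x_injective {M : ℕ} {x : Fin n → ℂ} (hx : ∀ p : Lau Z (Fin n), p ≠ 0 → evL Z M x p ≠ 0) :
    Function.Injective (evL Z M x) := by
  rw [injective_iff_map_eq_zero]
  intro p hp
  by_contra h
  exact hx p h hp

open Classical in
theorem line_main (hinj : Function.Injective (algebraMap Z ℂ)) (hM : 0 < M) (F : D.Λ → Prop) [DecidablePred F]
    (hF : ∀ l m, Q.a l = Q.a m → (F l ↔ F m)) (B : Fin n → ι → ℤ) (l : ι → ℤ)
    (hl : ∀ p ∈ Q.T.offDiag, pairZ (p.1 - p.2) l ≠ 0) (x : Fin n → ℂ)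
    (hx : ∀ p : Lau Z (Fin n), p ≠ 0 → evL Z M x p ≠ 0)
    (hc : ∀ r : ℚ, ∃ c : D.J → ℂ, ∀ l', (∑ i, c i •
      Q.ρ ((∑ j, x j • fun i => (B j i : ℂ)) + (r : ℂ) • fun i => (l i : ℂ)) l' (D.b i)) =
        if F l' then 1 else 0) :
    ∃ (s : Finset ((ι →₀ ℤ) × (ι →₀ ℤ))) (α : (ι →₀ ℤ) × (ι →₀ ℤ) → (Fin n →₀ ℤ)),
      (∀ j ∈ s, α j ≠ 0) ∧ ∀ i, ∃ q : Lau Z (Fin n), res Z B D.S * q =
        (∏ j ∈ s, (mon (α j) - 1)) * res Z B (D.b.repr (D.CF F) i) := by
  obtain ⟨w, hw, hB⟩ := Bden_eq Q l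
  set κ₁ : ι → ℂ := ∑ j, x j • fun i => (B j i : ℂ) with hκ₁
  set s1 := Q.T.offDiag.filter (fun p => resHom B (ori l p) = 0) with hs1
  set s2 := Q.T.offDiag.filter (fun p => ¬ resHom B (ori l p) = 0) with hs2
  have hpos : ∀ p ∈ Q.T.offDiag, 0 < pairZ (ori l p) l := fun p hp => ori_pos l p (hl p hp)
  have hpos' : ∀ p ∈ Q.T.offDiag, 0 < (pairZ (ori l p) l).toNat := fun p hp => by
    have := hpos p hp; omega
  refine ⟨s2, fun p => resHom B (ori l p), fun j hj => (Finset.mem_filter.1 hj).2, ?_⟩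
  intro i
  set Z1 : Polynomial (Lau Z (Fin n)) :=
    ∏ p ∈ s1, (Polynomial.X ^ (pairZ (ori l p) l).toNat - 1) with hZ1
  set Z2 : Polynomial (Lau Z (Fin n)) := ∏ p ∈ s2, gPol Z B l (ori l p) with hZ2
  have hZ12 : Z1 * Z2 = ∏ p ∈ Q.T.offDiag, gPol Z B l (ori l p) := by
    rw [← Finset.prod_filter_mul_prod_filter_not Q.T.offDiag (fun p => resHom B (ori l p) = 0)]
    congr 1
    refine Finset.prod_congr rfl fun p hp => ?_
    rw [gPol, (Finset.mem_filter.1 hp).2, mon_zero, map_one, one_mul]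
  have hlB : lin Z B l Q.Bden = lin Z B l w * Polynomial.toLaurent (Z1 * Z2) := by
    rw [hB, map_mul, hZ12, map_prod, map_prod]
    congr 1
    exact Finset.prod_congr rfl fun p hp => (toLaurent_gPol B l _ (hpos p hp)).symm
  have hZ1mon : Z1.Monic := by
    apply Polynomial.monic_prod_of_monic
    intro p hp
    have := Polynomial.monic_X_pow_sub_C (1 : Lau Z (Fin n))
      (hpos' p (Finset.mem_filter.1 hp).1).ne'
    rwa [map_one] at this
  obtain ⟨K, P, hP⟩ := LaurentPolynomial.exists_T_pow (lin Z B l (D.b.repr (Q.XF F) i))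
  -- the value of `S` on the line is not identically zero
  have hS0 : evL Z M κ₁ D.S ≠ 0 := by
    rw [hκ₁, ← evL_res]
    apply hx
    intro h0
    have h1 : evL Z M (0 : Fin n → ℂ) (res Z B D.S) = 0 := by rw [h0, map_zero]
    rw [evL_res] at h1
    simp only [Pi.zero_apply, zero_smul, Finset.sum_const_zero] at h1
    rw [HData.S, map_prod, Finset.prod_eq_zero_iff] at h1
    obtain ⟨m, -, hm⟩ := h1
    exact Q.s_zero_ne m hm
  have hdvd : Z1.map (evL Z M x) ∣ P.map (evL Z M x) := by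
    have e1 : Z1.map (evL Z M x) =
        ∏ p ∈ s1, (Polynomial.X ^ (pairZ (ori l p) l).toNat - 1 : Polynomial ℂ) := by
      rw [hZ1, Polynomial.map_prod]
      refine Finset.prod_congr rfl fun p _ => ?_
      simp
    rw [e1]
    by_cases hP0 : P.map (evL Z M x) = 0
    · rw [hP0]; exact dvd_zero _
    apply prod_dvd_of_rootMultiplicity _ _ (fun p hp => hpos' p (Finset.mem_filter.1 hp).1)
    intro u hu
    obtain ⟨r, hr⟩ := exists_rat_of_root hM u hu
    obtain ⟨c, hc⟩ := hc r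
    obtain ⟨C, hC⟩ := regular_at hM Q F hF κ₁ l hS0 (r : ℂ) c hc i
    have hne : (Z1 * Z2).map (evL Z M x) ≠ 0 := by
      rw [Polynomial.map_ne_zero_iff (evL_x_injective hx), hZ12, Finset.prod_ne_zero_iff]
      intro p hp h0
      have h1 := congrArg (fun q => Polynomial.coeff q (pairZ (ori l p) l).toNat) h0
      have h2 := hpos' p hp
      simp only [gPol, Polynomial.coeff_sub, Polynomial.coeff_C_mul, Polynomial.coeff_X_pow,
        if_true, mul_one, Polynomial.coeff_one, Polynomial.coeff_zero] at h1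
      rw [if_neg (by omega), sub_zero] at h1
      exact (isUnit_mon (R := Z) (resHom B (ori l p))).ne_zero h1
    have hle : ((Z1 * Z2).map (evL Z M x)).rootMultiplicity u ≤
        (P.map (evL Z M x)).rootMultiplicity u := by
      rw [← hr]
      have hcont : Continuous fun s : ℂ => evL Z M (κ₁ + s • fun i => (l i : ℂ)) w :=
        (evL_hol w).1.comp (continuous_const.add (continuous_id.smul continuous_const))
      have hw1 : ∀ᶠ s in nhdsWithin (r : ℂ) {(r : ℂ)}ᶜ,
          ‖evL Z M (κ₁ + s • fun i => (l i : ℂ)) w‖ <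
            ‖evL Z M (κ₁ + (r : ℂ) • fun i => (l i : ℂ)) w‖ + 1 :=
        nhdsWithin_le_nhds (hcont.norm.continuousAt.eventually
          (gt_mem_nhds (lt_add_one _)))
      refine rootMultiplicity_le_of_bound hM _ _ hP0 (-(K : ℤ)) 0 (r : ℂ)
        (|C| * (‖evL Z M (κ₁ + (r : ℂ) • fun i => (l i : ℂ)) w‖ + 1)) ?_
      filter_upwards [hC, hw1] with s hs hs1
      have e2 : evL Z M (κ₁ + s • fun i => (l i : ℂ)) (D.b.repr (Q.XF F) i) =
          (uS M s : ℂ) ^ (-(K : ℤ)) * (P.map (evL Z M x)).eval (uS M s : ℂ) := by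
        rw [← evT_toLaurent, hP, map_mul, hκ₁, evT_lin, evT, LaurentPolynomial.eval₂_T,
          Units.val_zpow_eq_zpow_val, _root_.zpow_neg]
        have h3 : ((uS M s : ℂˣ) : ℂ) ^ (K : ℤ) ≠ 0 := zpow_ne_zero _ (Units.ne_zero _)
        field_simp
      have e3 : evL Z M (κ₁ + s • fun i => (l i : ℂ)) Q.Bden =
          evL Z M (κ₁ + s • fun i => (l i : ℂ)) w *
            ((Z1 * Z2).map (evL Z M x)).eval (uS M s : ℂ) := by
        rw [← evT_toLaurent, hκ₁, ← evT_lin, hlB, map_mul, evT_lin]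
      rw [e2, e3] at hs
      have e4 : (Complex.exp (-(2 * Real.pi * Complex.I / M) * s)) = (uS M s : ℂ) := rfl
      rw [e4, zpow_zero, one_mul]
      refine hs.trans ?_
      rw [norm_mul]
      calc C * (‖evL Z M (κ₁ + s • fun i => (l i : ℂ)) w‖ *
            ‖((Z1 * Z2).map (evL Z M x)).eval (uS M s : ℂ)‖)
          ≤ |C| * (‖evL Z M (κ₁ + s • fun i => (l i : ℂ)) w‖ *
            ‖((Z1 * Z2).map (evL Z M x)).eval (uS M s : ℂ)‖) :=
            mul_le_mul_of_nonneg_right (le_abs_self C) (by positivity)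
        _ ≤ |C| * ((‖evL Z M (κ₁ + (r : ℂ) • fun i => (l i : ℂ)) w‖ + 1) *
            ‖((Z1 * Z2).map (evL Z M x)).eval (uS M s : ℂ)‖) := by
            gcongr
        _ = _ := by ring
    rw [← e1]
    refine le_trans ?_ hle
    rw [Polynomial.map_mul] at hne ⊢
    rw [Polynomial.rootMultiplicity_mul hne]
    exact Nat.le_add_right _ _
  obtain ⟨Q1, hQ1⟩ := (Polynomial.map_dvd_map _ (evL_x_injective hx) hZ1mon).1 hdvd
  have hid : D.S * D.b.repr (Q.XF F) i = Q.Bden * D.b.repr (D.CF F) i := by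
    have := congrArg (fun h => D.b.repr h i) (Q.S_XF hinj hM F hF)
    simpa using this
  have hid2 : lin Z B l D.S * Polynomial.toLaurent Q1 = lin Z B l w *
      Polynomial.toLaurent Z2 * lin Z B l (D.b.repr (D.CF F) i) * LaurentPolynomial.T K := by
    have h1 := congrArg (lin Z B l) hid
    rw [map_mul, map_mul, hlB, map_mul] at h1
    have h2 : Polynomial.toLaurent Z1 ≠ 0 := Polynomial.toLaurent_ne_zero.2 hZ1mon.ne_zero
    apply mul_left_cancel₀ h2
    have h3 : Polynomial.toLaurent Z1 * Polynomial.toLaurent Q1 =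
        lin Z B l (D.b.repr (Q.XF F) i) * LaurentPolynomial.T K := by
      rw [← map_mul, ← hQ1, hP]
    calc Polynomial.toLaurent Z1 * (lin Z B l D.S * Polynomial.toLaurent Q1)
        = lin Z B l D.S * (Polynomial.toLaurent Z1 * Polynomial.toLaurent Q1) := by ring
      _ = lin Z B l D.S * lin Z B l (D.b.repr (Q.XF F) i) * LaurentPolynomial.T K := by
          rw [h3]; ring
      _ = _ := by rw [h1]; ring
  have hid3 := congrArg (augT _) hid2
  rw [map_mul, map_mul, map_mul, map_mul, augT_lin, augT_lin, augT_lin] at hid3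
  have haT : augT (Lau Z (Fin n)) (LaurentPolynomial.T K) = 1 := by
    simp [augT]
  have haZ : augT (Lau Z (Fin n)) (Polynomial.toLaurent Z2) =
      ∏ p ∈ s2, (mon (resHom B (ori l p)) - 1) := by
    rw [augT, LaurentPolynomial.eval₂_toLaurent, hZ2, Polynomial.eval₂_finsetProd]
    refine Finset.prod_congr rfl fun p _ => ?_
    simp [gPol]
  rw [haT, haZ, mul_one] at hid3
  obtain ⟨w', hw'⟩ := (hw.map (res Z B)).exists_right_inv
  refine ⟨augT _ (Polynomial.toLaurent Q1) * w', ?_⟩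
  calc res Z B D.S * (augT _ (Polynomial.toLaurent Q1) * w')
      = (res Z B D.S * augT _ (Polynomial.toLaurent Q1)) * w' := by ring
    _ = (res Z B w * w') * ((∏ p ∈ s2, (mon (resHom B (ori l p)) - 1)) *
        res Z B (D.b.repr (D.CF F) i)) := by rw [hid3]; ring
    _ = _ := by rw [hw', one_mul]

end

end Pool.Agent.CMF
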