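import Pool.Agent.CMF.I6
import Pool.Agent.CMF.AlgA

/-! Project CMF, block I/N (helper77): removal of the constant `ξ'` from the denominator. -/

namespace Pool.Agent.CMF

open Matrix Polynomial

noncomputable section

variable {Z : Type} [CommRing Z] [IsDomain Z] [Algebra Z ℂ] {ι : Type} {n : ℕ}

open Classical in
/-- The constant factor of the restricted Schur elements. -/
def SchurFac.xi {D : HData Z ι} (Φ : SchurFac D) (B : Fin n → ι → ℤ) : Z :=
  ∏ l, (Φ.ξ l * ∏ i ∈ Finset.univ.filter (fun i => resHom B (Φ.E l i) = 0), (Φ.Ψ l i).eval 1)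

/-- The monomial factor. -/
def SchurFac.U {D : HData Z ι} (Φ : SchurFac D) (B : Fin n → ι → ℤ) : Lau Z (Fin n) :=
  ∏ l, mon (resHom B (Φ.N l))

open Classical in
/-- The cyclotomic factors which do not vanish identically. -/
def SchurFac.Q {D : HData Z ι} (Φ : SchurFac D) (B : Fin n → ι → ℤ) : Lau Z (Fin n) :=
  ∏ l, ∏ i ∈ Finset.univ.filter (fun i => ¬ resHom B (Φ.E l i) = 0),
    Polynomial.eval₂ (algebraMap Z (Lau Z (Fin n))) (mon (resHom B (Φ.E l i))) (Φ.Ψ l i)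

lemma res_algebraMap (B : Fin n → ι → ℤ) (z : Z) :
    res Z B (algebraMap Z (Lau Z ι) z) = algebraMap Z (Lau Z (Fin n)) z := by
  have h1 : algebraMap Z (Lau Z ι) z = AddMonoidAlgebra.single 0 z := rfl
  have h2 : algebraMap Z (Lau Z (Fin n)) z = AddMonoidAlgebra.single 0 z := rfl
  rw [h1, h2, res_single, map_zero]

theorem SchurFac.res_S {D : HData Z ι} (Φ : SchurFac D) (B : Fin n → ι → ℤ) :
    res Z B D.S = algebraMap Z (Lau Z (Fin n)) (Φ.xi B) * Φ.U B * Φ.Q B := by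
  classical
  rw [HData.S, map_prod, SchurFac.xi, SchurFac.U, SchurFac.Q, map_prod, ← Finset.prod_mul_distrib,
    ← Finset.prod_mul_distrib]
  refine Finset.prod_congr rfl fun l _ => ?_
  rw [Φ.fac l, map_mul, map_mul, res_algebraMap, res_mon, map_mul, map_prod, map_prod]
  rw [← Finset.prod_filter_mul_prod_filter_not Finset.univ
    (fun i => resHom B (Φ.E l i) = 0)]
  have h1 : ∀ i, res Z B (Polynomial.eval₂ (algebraMap Z (Lau Z ι)) (mon (Φ.E l i)) (Φ.Ψ l i)) =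
      Polynomial.eval₂ (algebraMap Z (Lau Z (Fin n))) (mon (resHom B (Φ.E l i))) (Φ.Ψ l i) := by
    intro i
    rw [Polynomial.hom_eval₂, res_mon]
    congr 1
    exact RingHom.ext fun z => res_algebraMap B z
  simp only [h1]
  have h2 : ∀ i ∈ Finset.univ.filter (fun i => resHom B (Φ.E l i) = 0),
      Polynomial.eval₂ (algebraMap Z (Lau Z (Fin n))) (mon (resHom B (Φ.E l i))) (Φ.Ψ l i) =
        algebraMap Z (Lau Z (Fin n)) ((Φ.Ψ l i).eval 1) := by
    intro i hi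
    rw [(Finset.mem_filter.1 hi).2, mon_zero]
    rw [Polynomial.eval₂_at_one]
  rw [Finset.prod_congr rfl h2]
  ring

theorem SchurFac.xi_ne [Fintype ι] {D : HData Z ι} {M : ℕ} (Q : KZData D M) (Φ : SchurFac D)
    (B : Fin n → ι → ℤ) : Φ.xi B ≠ 0 := by
  classical
  rw [SchurFac.xi, Finset.prod_ne_zero_iff]
  intro l _
  have h := Q.s_zero_ne l
  rw [Φ.fac l, map_mul, map_mul, map_prod] at h
  have h1 : evL Z M 0 (algebraMap Z (Lau Z ι) (Φ.ξ l)) ≠ 0 := left_ne_zero_of_mul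
    (left_ne_zero_of_mul h)
  have h2 := right_ne_zero_of_mul h
  rw [Finset.prod_ne_zero_iff] at h2
  refine mul_ne_zero ?_ ?_
  · rintro h0
    rw [h0, map_zero, map_zero] at h1
    exact h1 rfl
  · rw [Finset.prod_ne_zero_iff]
    intro i _ h0
    apply h2 i (Finset.mem_univ i)
    rw [Polynomial.hom_eval₂]
    have h3 : evL Z M 0 (mon (Φ.E l i)) = 1 := by
      rw [evL_mon, pairC_zero, mul_zero, Complex.exp_zero]
    rw [h3, Polynomial.eval₂_at_one, h0, map_zero]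

open Classical in
/-- The restricted coordinates of `S e_F` are divisible by the constant `ξ'`. -/
theorem exists_g (hinj : Function.Injective (algebraMap Z ℂ)) [Fintype ι] {D : HData Z ι} {M : ℕ} (Q : KZData D M) (Φ : SchurFac D)
    (hM : 0 < M) (F : D.Λ → Prop) [DecidablePred F]
    (hF : ∀ l m, Q.a l = Q.a m → (F l ↔ F m)) (B : Fin n → ι → ℤ) (l : ι → ℤ)
    (hl : ∀ p ∈ Q.T.offDiag, pairZ (p.1 - p.2) l ≠ 0) (x : Fin n → ℂ)
    (hx : ∀ p : Lau Z (Fin n), p ≠ 0 → evL Z M x p ≠ 0)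
    (hc : ∀ r : ℚ, ∃ c : D.J → ℂ, ∀ l', (∑ i, c i •
      Q.ρ ((∑ j, x j • fun i => (B j i : ℂ)) + (r : ℂ) • fun i => (l i : ℂ)) l' (D.b i)) =
        if F l' then 1 else 0) :
    ∃ g : D.J → Lau Z (Fin n), ∀ i, res Z B (D.b.repr (D.CF F) i) =
      algebraMap Z (Lau Z (Fin n)) (Φ.xi B) * g i := by
  obtain ⟨s, α, hα, h⟩ := line_main Q hinj hM F hF B l hl x hx hc
  have h1 : ∀ i, algebraMap Z (Lau Z (Fin n)) (Φ.xi B) ∣ res Z B (D.b.repr (D.CF F) i) := by
    intro i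
    obtain ⟨q, hq⟩ := h i
    apply dvd_of_prod_dvd (Φ.xi B) s α hα
    refine ⟨Φ.U B * Φ.Q B * q, ?_⟩
    have h2 : (∏ j ∈ s, (AddMonoidAlgebra.single (α j) (1 : Z) - 1)) *
        res Z B (D.b.repr (D.CF F) i) = res Z B D.S * q := hq.symm
    rw [h2, Φ.res_S]
    ring
  choose g hg using h1
  exact ⟨g, hg⟩

end

end Pool.Agent.CMF
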