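import Pool.Agent.CMF.I4
import Pool.Agent.CMF.I7
import Pool.Agent.CMF.AlgC

/-! Project CMF, block I/N (helper77): the block idempotent over `O_y`. -/

set_option linter.unusedSectionVars false

namespace Pool.Agent.CMF

open Matrix Polynomial

noncomputable section

variable {Z : Type} [CommRing Z] [IsDomain Z] [Algebra Z ℂ] {ι : Type} {n : ℕ}

/-! ### Specialisation -/

/-- `y^k` in `O_y`. -/
def yT (Z : Type) [CommRing Z] (k : ℤ) : Oy Z :=
  algebraMap (LaurentPolynomial Z) (Oy Z) (LaurentPolynomial.T k)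

lemma yT_add (k l : ℤ) : yT Z (k + l) = yT Z k * yT Z l := by
  rw [yT, LaurentPolynomial.T_add, map_mul]; rfl

lemma yT_zero : yT Z 0 = 1 := by rw [yT, LaurentPolynomial.T_zero, map_one]

lemma isUnit_yT (k : ℤ) : IsUnit (yT Z k) :=
  IsUnit.of_mul_eq_one (yT Z (-k)) (by rw [← yT_add, add_neg_cancel, yT_zero])

lemma yT_pow (k : ℤ) (j : ℕ) : yT Z k ^ j = yT Z (k * j) := by
  induction j with
  | zero => simp [yT_zero]
  | succ j ih => rw [pow_succ, ih, ← yT_add]; congr 1; push_cast; ring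

lemma isUnit_yT_sub_one_pos (k : ℤ) (hk : 0 < k) : IsUnit (yT Z k - 1) := by
  have h1 : (LaurentPolynomial.T k - 1 : LaurentPolynomial Z) ∈ yMon Z := by
    apply Submonoid.subset_closure
    refine ⟨k.toNat, by omega, ?_⟩
    rw [Int.toNat_of_nonneg hk.le]
  have h2 := IsLocalization.map_units (Oy Z) (⟨_, h1⟩ : yMon Z)
  simpa [yT] using h2

lemma isUnit_yT_sub_one (k : ℤ) (hk : k ≠ 0) : IsUnit (yT Z k - 1) := by
  rcases lt_or_gt_of_ne hk with h | h
  · have h1 : yT Z k - 1 = -(yT Z k * (yT Z (-k) - 1)) := by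
      rw [mul_sub, ← yT_add, add_neg_cancel, yT_zero]; ring
    rw [h1]
    exact ((isUnit_yT (Z := Z) k).mul (isUnit_yT_sub_one_pos (Z := Z) (-k) (by omega))).neg
  · exact isUnit_yT_sub_one_pos k h

lemma spec_single (m : ι → ℤ) (a : ι →₀ ℤ) (z : Z) : spec Z m (AddMonoidAlgebra.single a z) =
    algebraMap (LaurentPolynomial Z) (Oy Z) (AddMonoidAlgebra.single (pairZ a m) z) := by
  rw [spec, RingHom.comp_apply, AddMonoidAlgebra.mapDomainRingHom_apply,
    AddMonoidAlgebra.mapDomain_single]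
  rfl

lemma spec_mon (m : ι → ℤ) (a : ι →₀ ℤ) : spec Z m (mon a) = yT Z (pairZ a m) :=
  spec_single m a 1

lemma spec_algebraMap (m : ι → ℤ) (z : Z) : spec Z m (algebraMap Z (Lau Z ι) z) =
    algebraMap Z (Oy Z) z := by
  have h1 : algebraMap Z (Lau Z ι) z = AddMonoidAlgebra.single 0 z := rfl
  rw [h1, spec_single]
  have h2 : pairZ (0 : ι →₀ ℤ) m = 0 := by simp [pair]
  rw [h2, IsScalarTower.algebraMap_apply Z (LaurentPolynomial Z) (Oy Z)]
  rfl

/-- The first coordinate. -/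
def e0 (r : ℕ) : Fin (r + 1) → ℤ := Pi.single 0 1

lemma pair_e0 (r : ℕ) (a : Fin (r + 1) →₀ ℤ) : pairZ a (e0 r) = a 0 := by
  rw [pairZ, pair, Finsupp.sum_fintype _ _ (by simp)]
  rw [Finset.sum_eq_single 0]
  · simp [e0]
  · intro j _ hj; simp [e0, hj]
  · intro h; exact absurd (Finset.mem_univ _) h

lemma spec_res {r : ℕ} (B : Fin (r + 1) → ι → ℤ) (p : Lau Z ι) :
    spec Z (e0 r) (res Z B p) = spec Z (B 0) p := by
  have h : (spec Z (e0 r)).comp (res Z B) = spec Z (B 0) := by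
    apply AddMonoidAlgebra.ringHom_ext
    · intro z
      rw [RingHom.comp_apply, res_single, spec_single, spec_single, pair_e0, resHom_apply]
    · intro a
      rw [RingHom.comp_apply, res_single, spec_single, spec_single, pair_e0, resHom_apply]
  rw [← h]; rfl

/-- The cyclotomic factors become units. -/
theorem SchurFac.isUnit_Q {D : HData Z ι} (Φ : SchurFac D) {r : ℕ} (B : Fin (r + 1) → ι → ℤ)
    (hB : ∀ l i, ¬ IsUnit ((Φ.Ψ l i).eval 1) → pairZ (Φ.E l i) (B 0) = 0 →
      resHom B (Φ.E l i) = 0) : IsUnit (spec Z (e0 r) (Φ.Q B)) := by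
  classical
  rw [SchurFac.Q, map_prod]
  refine Finset.prod_induction _ IsUnit (fun _ _ => IsUnit.mul) isUnit_one fun l _ => ?_
  rw [map_prod]
  refine Finset.prod_induction _ IsUnit (fun _ _ => IsUnit.mul) isUnit_one fun i hi => ?_
  have hi' := (Finset.mem_filter.1 hi).2
  rw [Polynomial.hom_eval₂, spec_mon, pair_e0, resHom_apply]
  by_cases hk : pairZ (Φ.E l i) (B 0) = 0
  · have hu : IsUnit ((Φ.Ψ l i).eval 1) := by
      by_contra h
      exact hi' (hB l i h hk)
    rw [hk, yT_zero, Polynomial.eval₂_at_one]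
    exact hu.map _
  · obtain ⟨j, hj, hd⟩ := Φ.cyc l i
    obtain ⟨G, hG⟩ := hd
    have h1 : IsUnit (yT Z (pairZ (Φ.E l i) (B 0)) ^ j - 1) := by
      rw [yT_pow]
      apply isUnit_yT_sub_one
      have : (j : ℤ) ≠ 0 := by exact_mod_cast hj.ne'
      exact mul_ne_zero hk this
    have h2 := congrArg (Polynomial.eval₂ ((spec Z (e0 r)).comp (algebraMap Z (Lau Z (Fin (r + 1)))))
      (yT Z (pairZ (Φ.E l i) (B 0)))) hG
    rw [Polynomial.eval₂_mul, Polynomial.eval₂_sub, Polynomial.eval₂_pow, Polynomial.eval₂_X,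
      Polynomial.eval₂_one] at h2
    rw [h2] at h1
    exact isUnit_of_mul_isUnit_left h1

lemma isUnit_U {D : HData Z ι} (Φ : SchurFac D) {r : ℕ} (B : Fin (r + 1) → ι → ℤ) :
    IsUnit (spec Z (e0 r) (Φ.U B)) := by
  rw [SchurFac.U, map_prod]
  refine Finset.prod_induction _ IsUnit (fun _ _ => IsUnit.mul) isUnit_one fun l _ => ?_
  rw [spec_mon]
  exact isUnit_yT _

/-! ### Coordinates -/

section Coord

variable {D : HData Z ι} (F : D.Λ → Prop) [DecidablePred F]

lemma coord_sq (k : D.J) : ∑ i, ∑ j, D.b.repr (D.CF F) i * D.b.repr (D.CF F) j *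
    D.b.repr (D.b i * D.b j) k = D.S * D.b.repr (D.CF F) k := by
  have h := congrArg (fun h => D.b.repr h k) (D.CF_sq F)
  simp only [map_smul, Finsupp.smul_apply, smul_eq_mul] at h
  rw [← h]
  conv_rhs => rw [← D.b.sum_repr (D.CF F)]
  rw [Finset.sum_mul_sum, map_sum, Finsupp.finsetSum_apply]
  refine Finset.sum_congr rfl fun i _ => ?_
  rw [map_sum, Finsupp.finsetSum_apply]
  refine Finset.sum_congr rfl fun j _ => ?_
  rw [smul_mul_smul_comm, map_smul, Finsupp.smul_apply, smul_eq_mul]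

lemma coord_comm (j k : D.J) : ∑ i, D.b.repr (D.CF F) i * D.b.repr (D.b i * D.b j) k =
    ∑ i, D.b.repr (D.CF F) i * D.b.repr (D.b j * D.b i) k := by
  have h := congrArg (fun h => D.b.repr h k) (D.CF_comm F (D.b j))
  have h1 : D.b.repr (D.CF F * D.b j) k =
      ∑ i, D.b.repr (D.CF F) i * D.b.repr (D.b i * D.b j) k := by
    conv_lhs => rw [← D.b.sum_repr (D.CF F)]
    rw [Finset.sum_mul, map_sum, Finsupp.finsetSum_apply]
    refine Finset.sum_congr rfl fun i _ => ?_
    rw [smul_mul_assoc, map_smul, Finsupp.smul_apply, smul_eq_mul]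
  have h2 : D.b.repr (D.b j * D.CF F) k =
      ∑ i, D.b.repr (D.CF F) i * D.b.repr (D.b j * D.b i) k := by
    conv_lhs => rw [← D.b.sum_repr (D.CF F)]
    rw [Finset.mul_sum, map_sum, Finsupp.finsetSum_apply]
    refine Finset.sum_congr rfl fun i _ => ?_
    rw [mul_smul_comm, map_smul, Finsupp.smul_apply, smul_eq_mul]
  rw [← h1, ← h2]
  exact h

lemma coord_X (μ : D.Λ) : ∑ i, D.b.repr (D.CF F) i * D.X μ (D.b i) =
    if F μ then D.S * (D.d μ : Lau Z ι) else 0 := by
  rw [← D.X_CF F μ]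
  conv_rhs => rw [← D.b.sum_repr (D.CF F)]
  rw [map_sum]
  refine Finset.sum_congr rfl fun i _ => ?_
  rw [map_smul, smul_eq_mul]

end Coord

open Classical in
/-- The main theorem of the block, in coordinates. -/
theorem HData.final [Fintype ι] (hZ : Countable Z) (hinj : Function.Injective (algebraMap Z ℂ))
    (D : HData Z ι) {M : ℕ} (hM : 0 < M) (Q : KZData D M) (Φ : SchurFac D) (F : D.Λ → Prop)
    [DecidablePred F] (hF : ∀ l m, Q.a l = Q.a m → (F l ↔ F m)) (κ₀ : ι → ℂ) (m : ι → ℤ)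
    (hess : SameEss Φ κ₀ m) (hS : ThmS D Q F κ₀) :
    ∃ e : D.J → Oy Z,
      (∀ k, ∑ i, ∑ j, e i * e j * spec Z m (D.b.repr (D.b i * D.b j) k) = e k) ∧
      (∀ j k, ∑ i, e i * spec Z m (D.b.repr (D.b i * D.b j) k) =
        ∑ i, e i * spec Z m (D.b.repr (D.b j * D.b i) k)) ∧
      ∀ μ, ∑ i, e i * spec Z m (D.X μ (D.b i)) = if F μ then (D.d μ : Oy Z) else 0 := by
  -- the family of parameters
  obtain ⟨r, b, c, hb, hc⟩ := int_solutions
    {a : ι → ℤ | ∃ l i, (∀ j, a j = Φ.E l i j) ∧ ¬ IsUnit ((Φ.Ψ l i).eval 1) ∧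
      pairC (Φ.E l i) κ₀ = 0} κ₀ (by
        rintro a ⟨l, i, ha, -, h0⟩
        rw [pairC_eq_sum] at h0
        rw [← h0]
        exact Finset.sum_congr rfl fun j _ => by rw [ha j])
  set B : Fin (r + 1) → ι → ℤ := Fin.cons m b with hBdef
  set x₀ : Fin (r + 1) → ℂ := Fin.cons 0 c with hx₀
  have hB0 : B 0 = m := rfl
  have hκ₀ : ∑ j, x₀ j • (fun i => (B j i : ℂ)) = κ₀ := by
    rw [Fin.sum_univ_succ]
    funext i
    simp [hx₀, hBdef, Finset.sum_apply, hc i]
  -- the direction of the line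
  obtain ⟨l, hl⟩ := exists_avoid {a : ι → ℤ | ∃ p ∈ Q.T.offDiag, a = fun i => p.1 i - p.2 i}
    (by
      refine Set.Finite.subset (Set.toFinite
        ((fun (p : (ι →₀ ℤ) × (ι →₀ ℤ)) (i : ι) => p.1 i - p.2 i) '' (Q.T.offDiag : Set _))) ?_
      rintro a ⟨p, hp, rfl⟩
      exact ⟨p, hp, rfl⟩)
    (by
      rintro a ⟨p, hp, rfl⟩ h0
      apply (Finset.mem_offDiag.1 hp).2.2
      ext i
      exact sub_eq_zero.1 (congrFun h0 i))
  have hl' : ∀ p ∈ Q.T.offDiag, pairZ (p.1 - p.2) l ≠ 0 := by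
    intro p hp
    have h1 := hl _ ⟨p, hp, rfl⟩
    rw [pairZ, pair, Finsupp.sum_fintype _ _ (by simp)]
    simpa using h1
  -- the generic point
  have h1 : ∀ r' : ℚ, _ := fun r' => hS (r + 1) (fun j i => (B j i : ℂ)) x₀ hκ₀
    (fun i => (l i : ℂ)) (r' : ℂ)
  choose f hf1 hf2 hf3 using h1
  obtain ⟨x, hx1, hx2⟩ := exists_generic hZ hinj hM (r + 1) f hf1 hf2
  obtain ⟨g, hg⟩ := exists_g hinj Q Φ hM F hF B l hl' x hx2 (fun r' => hf3 r' x (hx1 r'))
  -- units
  have hQ : IsUnit (spec Z (e0 r) (Φ.Q B)) := by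
    apply Φ.isUnit_Q
    intro l' i hu h0
    rw [hB0] at h0
    have h2 : pairC (Φ.E l' i) κ₀ = 0 := (hess l' i hu).2 h0
    ext j
    rw [resHom_apply, Finsupp.zero_apply]
    refine Fin.cases ?_ (fun j => ?_) j
    · exact h0
    · have h3 := hb j (fun i' => Φ.E l' i i') ⟨l', i, fun _ => rfl, hu, h2⟩
      rw [pairZ, pair, Finsupp.sum_fintype _ _ (by simp)]
      simpa [hBdef] using h3
  have hU := isUnit_U Φ B
  obtain ⟨v, hv⟩ := (hU.mul hQ).exists_right_inv
  set η := spec Z (e0 r) with hη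
  have hres : ∀ p : Lau Z ι, η (res Z B p) = spec Z m p := fun p => spec_res B p
  have hξ : algebraMap Z (Lau Z (Fin (r + 1))) (Φ.xi B) ≠ 0 := by
    intro h0
    have h2 := Φ.xi_ne Q B
    apply h2
    have h3 : (AddMonoidAlgebra.single 0 (Φ.xi B) : Lau Z (Fin (r + 1))) = 0 := h0
    simpa using h3
  refine ⟨fun i => v * η (g i), ?_, ?_, ?_⟩
  · intro k
    have h2 := congrArg (res Z B) (coord_sq F k)
    simp only [map_sum, map_mul, hg, Φ.res_S] at h2
    have h3 : ∑ i, ∑ j, g i * g j * res Z B (D.b.repr (D.b i * D.b j) k) =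
        Φ.U B * Φ.Q B * g k := by
      apply mul_left_cancel₀ (mul_ne_zero hξ hξ)
      rw [Finset.mul_sum]
      calc ∑ i, algebraMap Z (Lau Z (Fin (r + 1))) (Φ.xi B) *
            algebraMap Z (Lau Z (Fin (r + 1))) (Φ.xi B) *
            ∑ j, g i * g j * res Z B (D.b.repr (D.b i * D.b j) k)
          = ∑ i, ∑ j, algebraMap Z (Lau Z (Fin (r + 1))) (Φ.xi B) * g i *
              (algebraMap Z (Lau Z (Fin (r + 1))) (Φ.xi B) * g j) *
              res Z B (D.b.repr (D.b i * D.b j) k) := by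
            refine Finset.sum_congr rfl fun i _ => ?_
            rw [Finset.mul_sum]
            exact Finset.sum_congr rfl fun j _ => by ring
        _ = _ := by rw [h2]; ring
    have h4 := congrArg η h3
    simp only [map_sum, map_mul, hres] at h4
    calc ∑ i, ∑ j, v * η (g i) * (v * η (g j)) * spec Z m (D.b.repr (D.b i * D.b j) k)
        = v * v * ∑ i, ∑ j, η (g i) * η (g j) * spec Z m (D.b.repr (D.b i * D.b j) k) := by
          rw [Finset.mul_sum]
          refine Finset.sum_congr rfl fun i _ => ?_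
          rw [Finset.mul_sum]
          exact Finset.sum_congr rfl fun j _ => by ring
      _ = (η (Φ.U B) * η (Φ.Q B) * v) * (v * η (g k)) := by rw [h4]; ring
      _ = v * η (g k) := by rw [hv, one_mul]
  · intro j k
    have h2 := congrArg (res Z B) (coord_comm F j k)
    simp only [map_sum, map_mul, hg] at h2
    have h3 : ∑ i, g i * res Z B (D.b.repr (D.b i * D.b j) k) =
        ∑ i, g i * res Z B (D.b.repr (D.b j * D.b i) k) := by
      apply mul_left_cancel₀ hξ
      rw [Finset.mul_sum, Finset.mul_sum]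
      simp only [← mul_assoc]
      exact h2
    have h4 := congrArg η h3
    simp only [map_sum, map_mul, hres] at h4
    simp only [mul_assoc, ← Finset.mul_sum]
    rw [h4]
  · intro μ
    have h2 := congrArg (res Z B) (coord_X F μ)
    simp only [map_sum, map_mul, hg] at h2
    have h3 : ∑ i, g i * res Z B (D.X μ (D.b i)) =
        if F μ then Φ.U B * Φ.Q B * (D.d μ : Lau Z (Fin (r + 1))) else 0 := by
      apply mul_left_cancel₀ hξ
      rw [Finset.mul_sum]
      simp only [← mul_assoc]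
      rw [h2]
      split_ifs
      · rw [map_mul, Φ.res_S, map_natCast]
        ring
      · rw [map_zero, mul_zero]
    have h4 := congrArg η h3
    simp only [map_sum, map_mul, hres] at h4
    simp only [mul_assoc, ← Finset.mul_sum]
    rw [h4]
    split_ifs
    · rw [map_mul, map_mul, map_natCast]
      calc v * (η (Φ.U B) * η (Φ.Q B) * (D.d μ : Oy Z)) =
          (η (Φ.U B) * η (Φ.Q B) * v) * (D.d μ : Oy Z) := by ring
        _ = _ := by rw [hv, one_mul]
    · rw [map_zero, mul_zero]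

end

end Pool.Agent.CMF
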