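import Pool.Agent.CMF.Pres

/-! Project CMF, module LefA: the restricted Cherednik algebra, elementary facts and change of
the base field. -/

namespace Pool.Agent.CMFP.Lef

open Matrix

noncomputable section

/-! ### The algebra -/

section basic

variable {K : Type} [Field K] {G : Type} [Group G] [Fintype G] {n : ℕ}

instance hbAlg (V : G → Matrix (Fin n) (Fin n) K) (c : G → K) : Algebra K (Hbar V c) :=
  RingQuot.instAlgebra (HRel V c)

/-- `toH` as an algebra homomorphism. -/
def toHA (V : G → Matrix (Fin n) (Fin n) K) (c : G → K) :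
    FreeAlgebra K (Gen n G) →ₐ[K] Hbar V c := RingQuot.mkAlgHom K (HRel V c)

variable (V : G → Matrix (Fin n) (Fin n) K) (c : G → K)

lemma toHA_apply (x : FreeAlgebra K (Gen n G)) : toHA V c x = toH V c x :=
  DFunLike.congr_fun (RingQuot.mkAlgHom_coe K (HRel V c)) x

lemma toH_surj : Function.Surjective (toH V c) := RingQuot.mkRingHom_surjective _

variable {V c}

lemma toH_rel {x y : FreeAlgebra K (Gen n G)} (h : HRel V c x y) : toH V c x = toH V c y :=
  RingQuot.mkRingHom_rel h

lemma exists_lift {T : Type} [Ring T] (f : FreeAlgebra K (Gen n G) →+* T)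
    (h : ∀ x y, HRel V c x y → f x = f y) :
    ∃ φ : Hbar V c →+* T, ∀ x, φ (toH V c x) = f x :=
  ⟨RingQuot.lift ⟨f, fun x y hxy => h x y hxy⟩,
    fun x => RingQuot.lift_mkRingHom_apply f (fun x y hxy => h x y hxy) x⟩

end basic

/-! ### Ordered evaluation of polynomials -/

section ev

variable {K : Type} [Field K] {n : ℕ} {A B : Type} [Ring A] [Algebra K A] [Ring B] [Algebra K B]

/-- Ordered monomial. -/
def mo (a : Fin n → A) (m : Fin n →₀ ℕ) : A := (List.ofFn fun i => a i ^ m i).prod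

lemma evP_eq (a : Fin n → A) (p : MvPolynomial (Fin n) K) (s : Finset (Fin n →₀ ℕ))
    (hs : p.support ⊆ s) : evP a p = ∑ m ∈ s, p.coeff m • mo a m := by
  unfold evP
  refine Finset.sum_subset hs fun m _ hm => ?_
  rw [MvPolynomial.notMem_support_iff.1 hm, zero_smul]

lemma map_mo {F : Type} [FunLike F A B] [MonoidHomClass F A B] (f : F) (a : Fin n → A)
    (m : Fin n →₀ ℕ) : f (mo a m) = mo (fun i => f (a i)) m := by
  unfold mo
  rw [map_list_prod, List.map_ofFn]
  congr 2
  funext i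
  simp

lemma map_evP (f : A →ₐ[K] B) (a : Fin n → A) (p : MvPolynomial (Fin n) K) :
    f (evP a p) = evP (fun i => f (a i)) p := by
  rw [evP_eq a p _ subset_rfl, evP_eq _ p _ subset_rfl, map_sum]
  refine Finset.sum_congr rfl fun m _ => ?_
  rw [map_smul, map_mo]

lemma hom_eq_evP (ψ : MvPolynomial (Fin n) K →ₐ[K] A) (p : MvPolynomial (Fin n) K) :
    ψ p = evP (fun i => ψ (MvPolynomial.X i)) p := by
  conv_lhs => rw [p.as_sum]
  rw [evP_eq _ p _ subset_rfl, map_sum]
  refine Finset.sum_congr rfl fun m _ => ?_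
  rw [← map_mo ψ, MvPolynomial.monomial_eq, ← map_smul, MvPolynomial.smul_eq_C_mul]
  congr 2
  unfold mo
  rw [List.prod_ofFn, Finsupp.prod_fintype _ _ (fun i => pow_zero _)]

/-- For commuting elements `evP` is an algebra homomorphism. -/
lemma exists_evP_hom (a : Fin n → A) (ha : ∀ i j, a i * a j = a j * a i) :
    ∃ ψ : MvPolynomial (Fin n) K →ₐ[K] A, (∀ p, ψ p = evP a p) ∧
      ∀ i, ψ (MvPolynomial.X i) = a i := by
  let S := Algebra.adjoin K (Set.range a)
  let _ : CommRing S := Algebra.adjoinCommRingOfComm K (by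
    rintro _ ⟨i, rfl⟩ _ ⟨j, rfl⟩; exact ha i j)
  let b : Fin n → S := fun i => ⟨a i, Algebra.subset_adjoin ⟨i, rfl⟩⟩
  let ψ : MvPolynomial (Fin n) K →ₐ[K] A := S.val.comp (MvPolynomial.aeval b)
  have hX : ∀ i, ψ (MvPolynomial.X i) = a i := by
    intro i
    show S.val (MvPolynomial.aeval b (MvPolynomial.X i)) = a i
    rw [MvPolynomial.aeval_X]
    rfl
  refine ⟨ψ, fun p => ?_, hX⟩
  rw [hom_eq_evP ψ p]
  simp only [hX]

lemma evP_bind (a : Fin n → A) (ha : ∀ i j, a i * a j = a j * a i)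
    (f : Fin n → MvPolynomial (Fin n) K) (p : MvPolynomial (Fin n) K) :
    evP a (MvPolynomial.bind₁ f p) = evP (fun i => evP a (f i)) p := by
  obtain ⟨ψ, hψ, -⟩ := exists_evP_hom (K := K) a ha
  rw [← hψ]
  have h := hom_eq_evP (ψ.comp (MvPolynomial.bind₁ f)) p
  rw [AlgHom.comp_apply] at h
  rw [h]
  congr 1
  funext i
  rw [AlgHom.comp_apply, MvPolynomial.bind₁_X_right, hψ]

lemma evP_lin (a : Fin n → A) (ha : ∀ i j, a i * a j = a j * a i) (q : Fin n → K) :
    evP a (∑ j, MvPolynomial.C (q j) * MvPolynomial.X j) = ∑ j, q j • a j := by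
  obtain ⟨ψ, hψ, hX⟩ := exists_evP_hom (K := K) a ha
  rw [← hψ, map_sum]
  refine Finset.sum_congr rfl fun j _ => ?_
  rw [map_mul, hX, ← MvPolynomial.algebraMap_eq, AlgHom.commutes, Algebra.smul_def]

end ev

end

end Pool.Agent.CMFP.Lef
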