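import Pool.Agent.CMF.LefA

/-! Project CMF, module LefB: extension of the base field, upwards. -/

namespace Pool.Agent.CMFP.Lef

open Matrix

noncomputable section

/-! ### Characters instead of representations -/

section ch

variable {K : Type} [Field K] {G : Type} [Group G] [Fintype G] {n : ℕ}

/-- `(d/|G|) Σ_g x(g⁻¹) g`. -/
def pCh (V : G → Matrix (Fin n) (Fin n) K) (c : G → K) (d : ℕ) (x : G → K) : Hbar V c :=
  toH V c (∑ g : G, ((d : K) / (Fintype.card G : K) * x g⁻¹) • gT g)

/-- `CMSep` in terms of characters. -/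
def SepCh (V : G → Matrix (Fin n) (Fin n) K) (c : G → K) (d : ℕ) (x : G → K) (d' : ℕ)
    (x' : G → K) : Prop :=
  ∃ e : Hbar V c, e * e = e ∧ (∀ a, e * a = a * e) ∧
    e * pCh V c d x - pCh V c d x ∈ leftY V c ∧ e * pCh V c d' x' ∈ leftY V c

lemma cmsep_iff (V : G → Matrix (Fin n) (Fin n) K) (c : G → K) {d d' : ℕ}
    (ρ : G → Matrix (Fin d) (Fin d) K) (σ : G → Matrix (Fin d') (Fin d') K) :
    CMSep V c ρ σ ↔ SepCh V c d (fun g => (ρ g).trace) d' (fun g => (σ g).trace) := Iff.rfl

end ch

section bc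

variable (L K : Type) [Field L] [Field K] [Algebra L K]

/-- Extension of the base field of a free algebra. -/
def bc (X : Type) : FreeAlgebra L X →ₐ[L] FreeAlgebra K X := FreeAlgebra.lift L (FreeAlgebra.ι K)

variable {L} {X : Type}

@[simp] lemma bc_ι (a : X) : bc L K X (FreeAlgebra.ι L a) = FreeAlgebra.ι K a :=
  FreeAlgebra.lift_ι_apply _ _

variable {G : Type} [Group G] [Fintype G] {n : ℕ}

@[simp] lemma bc_gX (i : Fin n) : bc L K (Gen n G) (gX i) = gX i := bc_ι K _
@[simp] lemma bc_gY (i : Fin n) : bc L K (Gen n G) (gY i) = gY i := bc_ι K _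
@[simp] lemma bc_gT (g : G) : bc L K (Gen n G) (gT g) = gT g := bc_ι K _

lemma bc_smul (a : L) (x : FreeAlgebra L X) : bc L K X (a • x) = algebraMap L K a • bc L K X x := by
  rw [map_smul, algebraMap_smul]

lemma bc_evP (a : Fin n → FreeAlgebra L X) (p : MvPolynomial (Fin n) L) :
    bc L K X (evP a p) = evP (fun i => bc L K X (a i)) (MvPolynomial.map (algebraMap L K) p) := by
  rw [evP_eq a p _ subset_rfl,
    evP_eq _ (MvPolynomial.map (algebraMap L K) p) p.support (MvPolynomial.support_map_subset _ _),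
    map_sum]
  refine Finset.sum_congr rfl fun m _ => ?_
  rw [bc_smul, map_mo, MvPolynomial.coeff_map]

/-- The matrices over the bigger field. -/
def mapV (V : G → Matrix (Fin n) (Fin n) L) (g : G) : Matrix (Fin n) (Fin n) K :=
  (V g).map (algebraMap L K)

omit [Group G] [Fintype G] in
lemma mapV_apply (V : G → Matrix (Fin n) (Fin n) L) (g : G) (i j : Fin n) :
    mapV K V g i j = algebraMap L K (V g i j) := rfl

lemma isInv_map {V : G → Matrix (Fin n) (Fin n) L} {p : MvPolynomial (Fin n) L}
    (h : IsInv V p) : IsInv (mapV K V) (MvPolynomial.map (algebraMap L K) p) := by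
  refine ⟨by rw [MvPolynomial.constantCoeff_map, h.1, map_zero], fun g => ?_⟩
  conv_rhs => rw [← h.2 g]
  rw [MvPolynomial.map_bind₁]
  congr 2
  funext i
  simp [mapV_apply]

lemma map_num (V : G → Matrix (Fin n) (Fin n) L) (s : G) (i j : Fin n) :
    algebraMap L K ((1 - V s) j i / (1 - (V s).det)) =
      (1 - mapV K V s) j i / (1 - (mapV K V s).det) := by
  have h1 : (mapV K V s).det = algebraMap L K (V s).det := by
    rw [RingHom.map_det]; rfl
  have h2 : (1 - mapV K V s) j i = algebraMap L K ((1 - V s) j i) := by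
    simp only [Matrix.sub_apply, Matrix.one_apply, mapV_apply, map_sub]
    split_ifs <;> simp
  rw [map_div₀, h1, h2, map_sub, map_one]

lemma rel_bc {V : G → Matrix (Fin n) (Fin n) L} {c : G → L} {x y : FreeAlgebra L (Gen n G)}
    (h : HRel V c x y) :
    HRel (mapV K V) (fun g => algebraMap L K (c g)) (bc L K _ x) (bc L K _ y) := by
  cases h with
  | one => rw [bc_gT, map_one]; exact HRel.one
  | mul g h => rw [map_mul, bc_gT, bc_gT, bc_gT]; exact HRel.mul g h
  | TY g i =>
    rw [map_mul, map_mul, map_sum, bc_gT, bc_gY]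
    simp only [bc_smul, bc_gY]
    exact HRel.TY g i
  | TX g i =>
    rw [map_mul, map_mul, map_sum, bc_gT, bc_gX]
    simp only [bc_smul, bc_gX]
    exact HRel.TX g i
  | XX i j => rw [map_mul, map_mul, bc_gX, bc_gX]; exact HRel.XX i j
  | YY i j => rw [map_mul, map_mul, bc_gY, bc_gY]; exact HRel.YY i j
  | YX i j =>
    rw [map_mul, map_add, map_mul, map_sum, bc_gX, bc_gY]
    simp only [bc_smul, bc_gT, map_mul, map_num]
    exact HRel.YX i j
  | invX p hp =>
    rw [bc_evP, map_zero]
    simp only [bc_gX]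
    exact HRel.invX _ (isInv_map K hp)
  | invY p hp =>
    rw [bc_evP, map_zero]
    simp only [bc_gY]
    exact HRel.invY _ (isInv_map K hp)

lemma exists_up (V : G → Matrix (Fin n) (Fin n) L) (c : G → L) :
    ∃ φ : Hbar V c →+* Hbar (mapV K V) (fun g => algebraMap L K (c g)),
      ∀ w, φ (toH V c w) = toH _ _ (bc L K _ w) :=
  exists_lift ((toH (mapV K V) (fun g => algebraMap L K (c g))).comp (bc L K (Gen n G)).toRingHom)
    (fun _ _ h => toH_rel (rel_bc K h))

lemma comm_of_gen {V : G → Matrix (Fin n) (Fin n) K} {c : G → K} (e : Hbar V c)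
    (h : ∀ a : Gen n G, e * toH V c (FreeAlgebra.ι K a) = toH V c (FreeAlgebra.ι K a) * e)
    (a : Hbar V c) : e * a = a * e := by
  obtain ⟨y, rfl⟩ := toH_surj V c a
  induction y using FreeAlgebra.induction with
  | grade0 r =>
    rw [← toHA_apply, AlgHom.commutes]
    exact (Algebra.commutes r e).symm
  | grade1 x => exact h x
  | mul x y hx hy => rw [map_mul, ← mul_assoc, hx, mul_assoc, hy, mul_assoc]
  | add x y hx hy => rw [map_add, mul_add, add_mul, hx, hy]

lemma bc_pCh (d : ℕ) (x : G → L) :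
    bc L K (Gen n G) (∑ g : G, ((d : L) / (Fintype.card G : L) * x g⁻¹) • gT g) =
      ∑ g : G, ((d : K) / (Fintype.card G : K) * algebraMap L K (x g⁻¹)) • gT g := by
  rw [map_sum]
  refine Finset.sum_congr rfl fun g _ => ?_
  rw [bc_smul, bc_gT, map_mul, map_div₀, map_natCast, map_natCast]

theorem sepCh_up {V : G → Matrix (Fin n) (Fin n) L} {c : G → L} {d d' : ℕ} {x x' : G → L}
    (h : SepCh V c d x d' x') :
    SepCh (mapV K V) (fun g => algebraMap L K (c g)) d (fun g => algebraMap L K (x g)) d'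
      (fun g => algebraMap L K (x' g)) := by
  obtain ⟨e, h1, h2, h3, h4⟩ := h
  obtain ⟨φ, hφ⟩ := exists_up K V c
  have hp : ∀ (d : ℕ) (x : G → L), φ (pCh V c d x) = pCh (mapV K V) (fun g => algebraMap L K (c g))
      d (fun g => algebraMap L K (x g)) := by
    intro d x
    unfold pCh
    rw [hφ, bc_pCh]
  have hJ : ∀ z ∈ leftY V c, φ z ∈ leftY (mapV K V) (fun g => algebraMap L K (c g)) := by
    intro z hz
    unfold leftY at hz
    induction hz using Submodule.span_induction with
    | mem z hz =>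
      obtain ⟨i, rfl⟩ := hz
      refine Ideal.subset_span ⟨i, ?_⟩
      show toH _ _ (gY i) = φ (toH V c (gY i))
      rw [hφ, bc_gY]
    | zero => rw [map_zero]; exact Ideal.zero_mem _
    | add x y _ _ hx hy => rw [map_add]; exact Ideal.add_mem _ hx hy
    | smul a x _ hx =>
      rw [smul_eq_mul, map_mul]
      exact Ideal.mul_mem_left _ _ hx
  refine ⟨φ e, by rw [← map_mul, h1], ?_, ?_, ?_⟩
  · refine comm_of_gen K _ fun a => ?_
    have h5 : toH (mapV K V) (fun g => algebraMap L K (c g)) (FreeAlgebra.ι K a) =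
        φ (toH V c (FreeAlgebra.ι L a)) := by rw [hφ, bc_ι]
    rw [h5, ← map_mul, h2, map_mul]
  · rw [← hp, ← map_mul, ← map_sub]
    exact hJ _ h3
  · rw [← hp, ← map_mul]
    exact hJ _ h4

end bc

end

end Pool.Agent.CMFP.Lef
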