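import Pool.Agent.CMF.LefB

/-! Project CMF, module LefC: extension of the base field, downwards. -/

namespace Pool.Agent.CMFP.Lef

open Matrix TensorProduct

noncomputable section

/-! ### Linear functionals applied to the coefficients of a polynomial -/

section lam

variable {L K : Type} [Field L] [Field K] [Algebra L K] {n : ℕ}

/-- Apply `f` to all coefficients. -/
def lam (f : K →ₗ[L] L) (p : MvPolynomial (Fin n) K) : MvPolynomial (Fin n) L :=
  ∑ m ∈ p.support, MvPolynomial.monomial m (f (p.coeff m))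

lemma coeff_lam (f : K →ₗ[L] L) (p : MvPolynomial (Fin n) K) (m : Fin n →₀ ℕ) :
    (lam f p).coeff m = f (p.coeff m) := by
  classical
  unfold lam
  rw [MvPolynomial.coeff_sum]
  simp only [MvPolynomial.coeff_monomial]
  rw [Finset.sum_ite_eq']
  split_ifs with h
  · rfl
  · rw [MvPolynomial.notMem_support_iff.1 h, map_zero]

lemma support_lam (f : K →ₗ[L] L) (p : MvPolynomial (Fin n) K) :
    (lam f p).support ⊆ p.support := by
  intro m hm
  rw [MvPolynomial.mem_support_iff, coeff_lam] at hm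
  rw [MvPolynomial.mem_support_iff]
  intro h
  rw [h, map_zero] at hm
  exact hm rfl

lemma lam_add (f : K →ₗ[L] L) (p q : MvPolynomial (Fin n) K) :
    lam f (p + q) = lam f p + lam f q := by
  ext m
  simp only [coeff_lam, MvPolynomial.coeff_add, map_add]

lemma lam_C_mul_map (f : K →ₗ[L] L) (a : K) (r : MvPolynomial (Fin n) L) :
    lam f (MvPolynomial.C a * MvPolynomial.map (algebraMap L K) r) =
      MvPolynomial.C (f a) * r := by
  ext m
  rw [coeff_lam, MvPolynomial.coeff_C_mul, MvPolynomial.coeff_C_mul, MvPolynomial.coeff_map,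
    mul_comm a, ← Algebra.smul_def, map_smul, smul_eq_mul, mul_comm]

lemma lam_monomial (f : K →ₗ[L] L) (m : Fin n →₀ ℕ) (a : K) :
    lam f (MvPolynomial.monomial m a) = MvPolynomial.monomial m (f a) := by
  classical
  ext m'
  rw [coeff_lam, MvPolynomial.coeff_monomial, MvPolynomial.coeff_monomial]
  split_ifs <;> simp

lemma lam_bind (f : K →ₗ[L] L) (q : Fin n → MvPolynomial (Fin n) L)
    (p : MvPolynomial (Fin n) K) :
    lam f (MvPolynomial.bind₁ (fun i => MvPolynomial.map (algebraMap L K) (q i)) p) =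
      MvPolynomial.bind₁ q (lam f p) := by
  refine MvPolynomial.induction_on' p (fun m a => ?_) (fun p q hp hq => ?_)
  · rw [lam_monomial, MvPolynomial.bind₁_monomial, MvPolynomial.bind₁_monomial, ← lam_C_mul_map,
      map_prod]
    simp only [map_pow]
  · rw [map_add, lam_add, lam_add, map_add, hp, hq]

variable {G : Type}

lemma isInv_lam {V : G → Matrix (Fin n) (Fin n) L} (f : K →ₗ[L] L)
    {p : MvPolynomial (Fin n) K} (h : IsInv (mapV K V) p) : IsInv V (lam f p) := by
  refine ⟨?_, fun g => ?_⟩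
  · have h1 := h.1
    rw [MvPolynomial.constantCoeff_eq] at h1 ⊢
    rw [coeff_lam, h1, map_zero]
  · rw [← lam_bind]
    have h2 : (fun i => MvPolynomial.map (algebraMap L K)
        (∑ j, MvPolynomial.C (V g i j) * MvPolynomial.X j : MvPolynomial (Fin n) L)) =
        fun i => ∑ j, MvPolynomial.C (mapV K V g i j) * MvPolynomial.X j := by
      funext i
      simp [mapV_apply]
    rw [h2, h.2 g]

end lam

/-! ### Functionals on the first factor of a tensor product -/

section ctr

variable {L K : Type} [Field L] [Field K] [Algebra L K] {N : Type} [AddCommMonoid N] [Module L N]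

/-- `a ⊗ m ↦ f(a) m`. -/
def ctr (f : K →ₗ[L] L) : K ⊗[L] N →ₗ[L] N := (TensorProduct.lid L N) ∘ₗ (f.rTensor N)

lemma ctr_tmul (f : K →ₗ[L] L) (a : K) (m : N) : ctr f (a ⊗ₜ[L] m) = f a • m := by
  simp [ctr]

lemma eq_zero_of_ctr (z : K ⊗[L] N) (h : ∀ f : K →ₗ[L] L, ctr f z = 0) : z = 0 := by
  classical
  let B := Module.Basis.ofVectorSpace L K
  apply (TensorProduct.equivFinsuppOfBasisLeft (N := N) B).injective
  rw [map_zero]
  ext i
  have h1 : ∀ z : K ⊗[L] N,
      (TensorProduct.equivFinsuppOfBasisLeft B z) i = ctr (B.coord i) z := by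
    intro z
    induction z with
    | zero => simp
    | tmul a m => rw [ctr_tmul]; simp
    | add x y hx hy => rw [map_add, map_add, Finsupp.add_apply, hx, hy]
  rw [h1, h]
  rfl

lemma exists_retract : ∃ f : K →ₗ[L] L, f 1 = 1 := by
  obtain ⟨f, hf⟩ := LinearMap.exists_leftInverse_of_injective (Algebra.linearMap L K)
    (LinearMap.ker_eq_bot.2 (algebraMap L K).injective)
  refine ⟨f, ?_⟩
  have := LinearMap.congr_fun hf 1
  simpa using this

end ctr

section ctrmul

variable {L K : Type} [Field L] [Field K] [Algebra L K] {N : Type} [Ring N] [Algebra L N]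

lemma ctr_mul (f : K →ₗ[L] L) (a : K) (m : N) (t : K ⊗[L] N) :
    ctr f ((a ⊗ₜ[L] m) * t) = m * ctr (f ∘ₗ LinearMap.mulLeft L a) t := by
  induction t with
  | zero => simp
  | tmul b m' => rw [Algebra.TensorProduct.tmul_mul_tmul, ctr_tmul, ctr_tmul]; simp
  | add x y hx hy => rw [mul_add, map_add, map_add, hx, hy, mul_add]

lemma ctr_mem (J : Ideal N) (t : K ⊗[L] N) (ht : ∀ f : K →ₗ[L] L, ctr f t ∈ J)
    (s : K ⊗[L] N) (f : K →ₗ[L] L) : ctr f (s * t) ∈ J := by
  induction s with
  | zero => simp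
  | tmul a m => rw [ctr_mul]; exact J.mul_mem_left _ (ht _)
  | add x y hx hy => rw [add_mul, map_add]; exact J.add_mem hx hy

end ctrmul

/-! ### The comparison map -/

section down

variable (L K : Type) [Field L] [Field K] [Algebra L K] {G : Type} [Group G] [Fintype G] {n : ℕ}
variable (V : G → Matrix (Fin n) (Fin n) L) (c : G → L)

/-- The letters go to `1 ⊗ letter`. -/
def th0 : FreeAlgebra K (Gen n G) →ₐ[K] K ⊗[L] Hbar V c :=
  FreeAlgebra.lift K fun a => 1 ⊗ₜ[L] toH V c (FreeAlgebra.ι L a)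

lemma th0_ι (a : Gen n G) : th0 L K V c (FreeAlgebra.ι K a) = 1 ⊗ₜ[L] toH V c (FreeAlgebra.ι L a) :=
  FreeAlgebra.lift_ι_apply _ _

lemma th0_bc (w : FreeAlgebra L (Gen n G)) :
    th0 L K V c (bc L K _ w) = 1 ⊗ₜ[L] toH V c w := by
  have h : ((th0 L K V c).restrictScalars L).comp (bc L K (Gen n G)) =
      (Algebra.TensorProduct.includeRight).comp (toHA V c) := by
    apply FreeAlgebra.hom_ext
    funext a
    show th0 L K V c (bc L K _ (FreeAlgebra.ι L a)) = 1 ⊗ₜ[L] (toHA V c (FreeAlgebra.ι L a))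
    rw [bc_ι, th0_ι, toHA_apply]
  have h2 := DFunLike.congr_fun h w
  show th0 L K V c (bc L K _ w) = _
  rw [← toHA_apply]
  exact h2

lemma th0_rel_bc {x y : FreeAlgebra L (Gen n G)} (h : HRel V c x y) :
    th0 L K V c (bc L K _ x) = th0 L K V c (bc L K _ y) := by
  rw [th0_bc, th0_bc, toH_rel h]

lemma th0_evP (a : Fin n → FreeAlgebra L (Gen n G)) (p : MvPolynomial (Fin n) K)
    (h : ∀ f : K →ₗ[L] L, toH V c (evP a (lam f p)) = 0) :
    th0 L K V c (evP (fun i => bc L K _ (a i)) p) = 0 := by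
  rw [map_evP]
  simp only [th0_bc]
  apply eq_zero_of_ctr
  intro f
  have h1 : ∀ m : Fin n →₀ ℕ, mo (fun i => (1 : K) ⊗ₜ[L] toH V c (a i)) m =
      (1 : K) ⊗ₜ[L] mo (fun i => toH V c (a i)) m := by
    intro m
    exact (map_mo (Algebra.TensorProduct.includeRight : Hbar V c →ₐ[L] K ⊗[L] Hbar V c)
      (fun i => toH V c (a i)) m).symm
  rw [evP_eq _ p _ subset_rfl, map_sum, ← h f, ← toHA_apply, map_evP,
    evP_eq _ (lam f p) _ (support_lam f p)]
  refine Finset.sum_congr rfl fun m _ => ?_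
  rw [h1, TensorProduct.smul_tmul', ctr_tmul, coeff_lam, smul_eq_mul, mul_one]
  simp only [toHA_apply]

lemma th0_rel {x y : FreeAlgebra K (Gen n G)}
    (h : HRel (mapV K V) (fun g => algebraMap L K (c g)) x y) :
    th0 L K V c x = th0 L K V c y := by
  cases h with
  | one =>
    have h1 := th0_rel_bc L K V c (HRel.one)
    rwa [bc_gT, map_one] at h1
  | mul g h =>
    have h1 := th0_rel_bc L K V c (HRel.mul g h)
    rwa [map_mul, bc_gT, bc_gT, bc_gT] at h1
  | TY g i =>
    have h1 := th0_rel_bc L K V c (HRel.TY g i)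
    rw [map_mul (bc L K (Gen n G)), map_mul (bc L K (Gen n G)), map_sum (bc L K (Gen n G)),
      bc_gT, bc_gY] at h1
    simp only [bc_smul, bc_gY] at h1
    exact h1
  | TX g i =>
    have h1 := th0_rel_bc L K V c (HRel.TX g i)
    rw [map_mul (bc L K (Gen n G)), map_mul (bc L K (Gen n G)), map_sum (bc L K (Gen n G)),
      bc_gT, bc_gX] at h1
    simp only [bc_smul, bc_gX] at h1
    exact h1
  | XX i j =>
    have h1 := th0_rel_bc L K V c (HRel.XX i j)
    rwa [map_mul (bc L K (Gen n G)), map_mul (bc L K (Gen n G)), bc_gX, bc_gX] at h1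
  | YY i j =>
    have h1 := th0_rel_bc L K V c (HRel.YY i j)
    rwa [map_mul (bc L K (Gen n G)), map_mul (bc L K (Gen n G)), bc_gY, bc_gY] at h1
  | YX i j =>
    have h1 := th0_rel_bc L K V c (HRel.YX i j)
    rw [map_mul (bc L K (Gen n G)), map_add (bc L K (Gen n G)), map_mul (bc L K (Gen n G)),
      map_sum (bc L K (Gen n G)), bc_gX, bc_gY] at h1
    simp only [bc_smul, bc_gT, map_mul (algebraMap L K), map_num] at h1
    exact h1
  | invX p hp =>
    have h1 := th0_evP L K V c gX p fun f => by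
      rw [toH_rel (HRel.invX _ (isInv_lam f hp)), map_zero]
    simp only [bc_gX] at h1
    rw [h1, map_zero]
  | invY p hp =>
    have h1 := th0_evP L K V c gY p fun f => by
      rw [toH_rel (HRel.invY _ (isInv_lam (V := fun g => (V g)ᵀ) f hp)), map_zero]
    simp only [bc_gY] at h1
    rw [h1, map_zero]

theorem sepCh_down {d d' : ℕ} {x x' : G → L} (w : FreeAlgebra L (Gen n G))
    (e : Hbar (mapV K V) (fun g => algebraMap L K (c g)))
    (he : e = toH (mapV K V) (fun g => algebraMap L K (c g)) (bc L K _ w))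
    (h1 : e * e = e) (h2 : ∀ a, e * a = a * e)
    (h3 : e * pCh (mapV K V) (fun g => algebraMap L K (c g)) d (fun g => algebraMap L K (x g)) -
      pCh (mapV K V) (fun g => algebraMap L K (c g)) d (fun g => algebraMap L K (x g)) ∈
      leftY (mapV K V) (fun g => algebraMap L K (c g)))
    (h4 : e * pCh (mapV K V) (fun g => algebraMap L K (c g)) d' (fun g => algebraMap L K (x' g)) ∈
      leftY (mapV K V) (fun g => algebraMap L K (c g))) :
    SepCh V c d x d' x' := by
  obtain ⟨θ, hθ⟩ := exists_lift (T := K ⊗[L] Hbar V c) (V := mapV K V)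
    (c := fun g => algebraMap L K (c g)) (th0 L K V c).toRingHom
    (fun a b hab => th0_rel L K V c hab)
  have hθ' : ∀ w : FreeAlgebra L (Gen n G),
      θ (toH (mapV K V) (fun g => algebraMap L K (c g)) (bc L K _ w)) = 1 ⊗ₜ[L] toH V c w := by
    intro w
    rw [hθ]
    exact th0_bc L K V c w
  obtain ⟨f₀, hf₀⟩ := exists_retract (L := L) (K := K)
  have hinj : ∀ u v : Hbar V c, (1 : K) ⊗ₜ[L] u = 1 ⊗ₜ[L] v → u = v := by
    intro u v huv
    have := congrArg (ctr f₀) huv
    simpa [ctr_tmul, hf₀] using this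
  have hp : ∀ (d : ℕ) (x : G → L), pCh (mapV K V) (fun g => algebraMap L K (c g)) d
      (fun g => algebraMap L K (x g)) = toH _ _ (bc L K _
        (∑ g : G, ((d : L) / (Fintype.card G : L) * x g⁻¹) • gT g)) := by
    intro d x
    rw [bc_pCh]
    rfl
  have hJ : ∀ z ∈ leftY (mapV K V) (fun g => algebraMap L K (c g)), ∀ f : K →ₗ[L] L,
      ctr f (θ z) ∈ leftY V c := by
    intro z hz
    unfold leftY at hz
    induction hz using Submodule.span_induction with
    | mem z hz =>
      obtain ⟨i, rfl⟩ := hz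
      intro f
      have h5 : θ (toH (mapV K V) (fun g => algebraMap L K (c g)) (gY i)) =
          1 ⊗ₜ[L] toH V c (gY i) := by rw [← hθ', bc_gY]
      show ctr f (θ (toH _ _ (gY i))) ∈ _
      rw [h5, ctr_tmul, Algebra.smul_def]
      exact Ideal.mul_mem_left _ _ (Ideal.subset_span ⟨i, rfl⟩)
    | zero => intro f; rw [map_zero, map_zero]; exact Ideal.zero_mem _
    | add x y _ _ hx hy => intro f; rw [map_add, map_add]; exact Ideal.add_mem _ (hx f) (hy f)
    | smul a x _ hx =>
      intro f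
      rw [smul_eq_mul, map_mul]
      exact ctr_mem _ _ hx _ f
  have hJ' : ∀ u : FreeAlgebra L (Gen n G), toH (mapV K V) (fun g => algebraMap L K (c g))
      (bc L K _ u) ∈ leftY (mapV K V) (fun g => algebraMap L K (c g)) →
      toH V c u ∈ leftY V c := by
    intro u hu
    have h5 := hJ _ hu f₀
    rwa [hθ', ctr_tmul, hf₀, one_smul] at h5
  refine ⟨toH V c w, ?_, fun a => ?_, ?_, ?_⟩
  · apply hinj
    rw [← map_mul, ← hθ', ← hθ', map_mul, map_mul, ← he, h1]
  · obtain ⟨y, rfl⟩ := toH_surj V c a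
    apply hinj
    have h5 := congrArg θ (h2 (toH _ _ (bc L K _ y)))
    rw [he, ← map_mul (toH _ _), ← map_mul (toH _ _), ← map_mul (bc L K _),
      ← map_mul (bc L K _), hθ', hθ', map_mul (toH V c), map_mul (toH V c)] at h5
    exact h5
  · have h5 := hJ' (w * (∑ g : G, ((d : L) / (Fintype.card G : L) * x g⁻¹) • gT g) -
      (∑ g : G, ((d : L) / (Fintype.card G : L) * x g⁻¹) • gT g)) (by
        rw [map_sub, map_sub, map_mul, map_mul, ← he, ← hp]
        exact h3)
    rwa [map_sub, map_mul] at h5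
  · have h5 := hJ' (w * (∑ g : G, ((d' : L) / (Fintype.card G : L) * x' g⁻¹) • gT g)) (by
        rw [map_mul, map_mul, ← he, ← hp]
        exact h4)
    rwa [map_mul] at h5

end down

end

end Pool.Agent.CMFP.Lef
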