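import Pool.Agent.CMF.LefC

/-! Project CMF, module LefD: conjugate representations. -/

namespace Pool.Agent.CMFP.Lef

open Matrix

noncomputable section

/-! ### Linear substitutions -/

section lin

variable {K : Type} [Field K] {G : Type} {n : ℕ}

/-- The linear forms given by the rows of a matrix. -/
def lin (M : Matrix (Fin n) (Fin n) K) (i : Fin n) : MvPolynomial (Fin n) K :=
  ∑ j, MvPolynomial.C (M i j) * MvPolynomial.X j

lemma bind_lin (M M' : Matrix (Fin n) (Fin n) K) (p : MvPolynomial (Fin n) K) :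
    MvPolynomial.bind₁ (lin M) (MvPolynomial.bind₁ (lin M') p) =
      MvPolynomial.bind₁ (lin (M' * M)) p := by
  rw [MvPolynomial.bind₁_bind₁]
  congr 2
  funext i
  unfold lin
  simp only [map_sum, map_mul, MvPolynomial.bind₁_C_right, MvPolynomial.bind₁_X_right,
    Matrix.mul_apply, Finset.mul_sum, Finset.sum_mul]
  rw [Finset.sum_comm]
  refine Finset.sum_congr rfl fun j _ => Finset.sum_congr rfl fun l _ => ?_
  rw [mul_assoc]

lemma isInv_conj {V W : G → Matrix (Fin n) (Fin n) K} (Q : Matrix (Fin n) (Fin n) K)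
    (hQ : ∀ g, Q * W g = V g * Q) {p : MvPolynomial (Fin n) K} (h : IsInv V p) :
    IsInv W (MvPolynomial.bind₁ (lin Q) p) := by
  refine ⟨?_, fun g => ?_⟩
  · have h1 := h.1
    have h2 : ∀ p : MvPolynomial (Fin n) K, MvPolynomial.constantCoeff
        (MvPolynomial.bind₁ (lin Q) p) = MvPolynomial.constantCoeff p := by
      intro p
      induction p using MvPolynomial.induction_on with
      | C a => rw [MvPolynomial.bind₁_C_right]
      | add p q hp hq => rw [map_add, map_add, map_add, hp, hq]
      | mul_X p i hp =>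
        rw [map_mul, map_mul, map_mul, MvPolynomial.constantCoeff_X, mul_zero,
          MvPolynomial.bind₁_X_right]
        have h3 : MvPolynomial.constantCoeff (lin Q i) = 0 := by
          unfold lin
          rw [map_sum]
          refine Finset.sum_eq_zero fun j _ => ?_
          rw [map_mul, MvPolynomial.constantCoeff_X, mul_zero]
        rw [h3, mul_zero]
    rw [h2, h1]
  · show MvPolynomial.bind₁ (lin (W g)) (MvPolynomial.bind₁ (lin Q) p) = _
    rw [bind_lin, hQ, ← bind_lin]
    congr 1
    exact h.2 g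

end lin

/-! ### Linear combinations in an algebra -/

section LC

variable {K A : Type} [Field K] [Ring A] [Algebra K A] {n : ℕ}

/-- `Σ_j a_j y_j`. -/
def LC (y : Fin n → A) (a : Fin n → K) : A := ∑ j, a j • y j

lemma LC_sum {ι : Type} (y : Fin n → A) (s : Finset ι) (r : ι → K) (a : ι → Fin n → K) :
    ∑ i ∈ s, r i • LC y (a i) = LC y (fun j => ∑ i ∈ s, r i * a i j) := by
  unfold LC
  simp only [Finset.smul_sum, Finset.sum_smul, smul_smul]
  rw [Finset.sum_comm]

lemma T_LY (t : A) (y : Fin n → A) (M : Matrix (Fin n) (Fin n) K)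
    (h : ∀ j, t * y j = LC y (fun k => M k j) * t) (a : Fin n → K) :
    t * LC y a = LC y (M *ᵥ a) * t := by
  have h1 : LC y (M *ᵥ a) = ∑ j, a j • LC y (fun k => M k j) := by
    rw [LC_sum]
    congr 1
    funext k
    simp only [Matrix.mulVec, dotProduct]
    exact Finset.sum_congr rfl fun j _ => mul_comm _ _
  rw [h1, Finset.sum_mul]
  conv_lhs => rw [LC, Finset.mul_sum]
  refine Finset.sum_congr rfl fun j _ => ?_
  rw [mul_smul_comm, h, smul_mul_assoc]

lemma T_LX (t : A) (x : Fin n → A) (M : Matrix (Fin n) (Fin n) K)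
    (h : ∀ j, t * x j = LC x (fun k => M j k) * t) (b : Fin n → K) :
    t * LC x b = LC x (b ᵥ* M) * t := by
  have h1 : LC x (b ᵥ* M) = ∑ j, b j • LC x (fun k => M j k) := by
    rw [LC_sum]
    rfl
  rw [h1, Finset.sum_mul]
  conv_lhs => rw [LC, Finset.mul_sum]
  refine Finset.sum_congr rfl fun j _ => ?_
  rw [mul_smul_comm, h, smul_mul_assoc]

lemma LC_comm (y : Fin n → A) (h : ∀ i j, y i * y j = y j * y i) (a b : Fin n → K) :
    LC y a * LC y b = LC y b * LC y a := by
  unfold LC
  rw [Finset.sum_mul_sum, Finset.sum_mul_sum, Finset.sum_comm]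
  refine Finset.sum_congr rfl fun i _ => Finset.sum_congr rfl fun j _ => ?_
  rw [smul_mul_smul_comm, smul_mul_smul_comm, mul_comm (a j), h]

lemma LY_LX {S : Type} [Fintype S] (y x : Fin n → A) (t : S → A) (c δ : S → K)
    (M : S → Matrix (Fin n) (Fin n) K)
    (h : ∀ i j, y i * x j = x j * y i + ∑ s, (c s * (M s j i / δ s)) • t s)
    (a b : Fin n → K) :
    LC y a * LC x b = LC x b * LC y a + ∑ s, (c s * ((b ⬝ᵥ (M s *ᵥ a)) / δ s)) • t s := by
  have h1 : LC y a * LC x b = ∑ i, ∑ j, (a i * b j) • (y i * x j) := by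
    unfold LC
    rw [Finset.sum_mul_sum]
    refine Finset.sum_congr rfl fun i _ => Finset.sum_congr rfl fun j _ => ?_
    rw [smul_mul_smul_comm]
  have h2 : LC x b * LC y a = ∑ i, ∑ j, (a i * b j) • (x j * y i) := by
    unfold LC
    rw [Finset.sum_mul_sum, Finset.sum_comm]
    refine Finset.sum_congr rfl fun i _ => Finset.sum_congr rfl fun j _ => ?_
    rw [smul_mul_smul_comm, mul_comm (b j)]
  rw [h1, h2]
  simp only [h, smul_add, Finset.sum_add_distrib]
  congr 1
  simp only [Finset.smul_sum, smul_smul]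
  rw [Finset.sum_congr rfl fun i _ => Finset.sum_comm, Finset.sum_comm]
  refine Finset.sum_congr rfl fun s _ => ?_
  simp only [← Finset.sum_smul]
  congr 1
  simp only [dotProduct, Matrix.mulVec, Finset.mul_sum, Finset.sum_div]
  rw [Finset.sum_comm]
  refine Finset.sum_congr rfl fun i _ => Finset.sum_congr rfl fun j _ => ?_
  ring

end LC

/-! ### Transport of the algebra -/

section conj

variable {K : Type} [Field K] {G : Type} [Group G] [Fintype G] {n : ℕ}

section rels

variable (W : G → Matrix (Fin n) (Fin n) K) (c : G → K)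

lemma rTY (g : G) (j : Fin n) : toH W c (gT g) * toH W c (gY j) =
    LC (fun j => toH W c (gY j)) (fun k => W g k j) * toH W c (gT g) := by
  rw [← map_mul, toH_rel (HRel.TY g j), map_mul]
  congr 1
  simp only [← toHA_apply, map_sum, map_smul, LC]

lemma rTX (g : G) (j : Fin n) : toH W c (gT g) * toH W c (gX j) =
    LC (fun j => toH W c (gX j)) (fun k => W g⁻¹ j k) * toH W c (gT g) := by
  rw [← map_mul, toH_rel (HRel.TX g j), map_mul]
  congr 1
  simp only [← toHA_apply, map_sum, map_smul, LC]

lemma rYY (i j : Fin n) : toH W c (gY i) * toH W c (gY j) = toH W c (gY j) * toH W c (gY i) := by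
  rw [← map_mul, toH_rel (HRel.YY i j), map_mul]

lemma rXX (i j : Fin n) : toH W c (gX i) * toH W c (gX j) = toH W c (gX j) * toH W c (gX i) := by
  rw [← map_mul, toH_rel (HRel.XX i j), map_mul]

lemma rYX (i j : Fin n) : toH W c (gY i) * toH W c (gX j) = toH W c (gX j) * toH W c (gY i) +
    ∑ s : G, (c s * ((1 - W s) j i / (1 - (W s).det))) • toH W c (gT s) := by
  rw [← map_mul, toH_rel (HRel.YX i j), map_add, map_mul]
  congr 1
  simp only [← toHA_apply, map_sum, map_smul]

lemma rX (p : MvPolynomial (Fin n) K) (hp : IsInv W p) :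
    evP (fun j => toH W c (gX j)) p = 0 := by
  have h := toH_rel (V := W) (c := c) (HRel.invX p hp)
  rw [← toHA_apply, map_evP, map_zero] at h
  simpa only [toHA_apply] using h

lemma rY (p : MvPolynomial (Fin n) K) (hp : IsInv (fun g => (W g)ᵀ) p) :
    evP (fun j => toH W c (gY j)) p = 0 := by
  have h := toH_rel (V := W) (c := c) (HRel.invY p hp)
  rw [← toHA_apply, map_evP, map_zero] at h
  simpa only [toHA_apply] using h

end rels

/-- Images of the letters under the change of basis. -/
def cj (W : G → Matrix (Fin n) (Fin n) K) (c : G → K) (P Q : Matrix (Fin n) (Fin n) K) :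
    Gen n G → Hbar W c
  | Gen.X i => LC (fun j => toH W c (gX j)) (Q i)
  | Gen.Y i => LC (fun j => toH W c (gY j)) (fun j => P j i)
  | Gen.T g => toH W c (gT g)

lemma LC_one (W : G → Matrix (Fin n) (Fin n) K) (c : G → K) (y : Fin n → Hbar W c) (i : Fin n) :
    LC y ((1 : Matrix (Fin n) (Fin n) K) i) = y i := by
  unfold LC
  rw [Finset.sum_eq_single i]
  · rw [Matrix.one_apply_eq, one_smul]
  · intro j _ hj
    rw [Matrix.one_apply_ne (Ne.symm hj), zero_smul]
  · intro h; exact absurd (Finset.mem_univ i) h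

lemma det_conj_eq {V W : Matrix (Fin n) (Fin n) K} {P Q : Matrix (Fin n) (Fin n) K}
    (hPQ : P * Q = 1) (h : W * P = P * V) : V.det = W.det := by
  have h1 : W = P * V * Q := by rw [← h, Matrix.mul_assoc, hPQ, Matrix.mul_one]
  rw [h1, Matrix.det_mul, Matrix.det_mul, mul_right_comm, ← Matrix.det_mul, hPQ, Matrix.det_one,
    one_mul]

theorem sepCh_conj {V W : G → Matrix (Fin n) (Fin n) K} {c : G → K}
    {P Q : Matrix (Fin n) (Fin n) K} (hPQ : P * Q = 1) (hQP : Q * P = 1)
    (hVW : ∀ g, W g * P = P * V g) {d d' : ℕ} {x x' : G → K} (h : SepCh V c d x d' x') :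
    SepCh W c d x d' x' := by
  have hQ : ∀ g, Q * W g = V g * Q := by
    intro g
    calc Q * W g = Q * (W g * P) * Q := by rw [Matrix.mul_assoc, Matrix.mul_assoc, hPQ,
          Matrix.mul_one]
      _ = V g * Q := by rw [hVW, ← Matrix.mul_assoc, hQP, Matrix.one_mul]
  let f : FreeAlgebra K (Gen n G) →ₐ[K] Hbar W c := FreeAlgebra.lift K (cj W c P Q)
  have fX : ∀ i, f (gX i) = LC (fun j => toH W c (gX j)) (Q i) :=
    fun i => FreeAlgebra.lift_ι_apply _ _
  have fY : ∀ i, f (gY i) = LC (fun j => toH W c (gY j)) (fun j => P j i) :=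
    fun i => FreeAlgebra.lift_ι_apply _ _
  have fT : ∀ g, f (gT g) = toH W c (gT g) := fun g => FreeAlgebra.lift_ι_apply _ _
  have hf : ∀ a b, HRel V c a b → f a = f b := by
    intro a b hab
    cases hab with
    | one => rw [fT, toH_rel HRel.one, map_one, map_one]
    | mul g h => rw [map_mul, fT, fT, fT, toH_rel (HRel.mul g h), map_mul]
    | TY g i =>
      rw [map_mul, map_mul, map_sum, fT, fY, T_LY _ _ _ (rTY W c g)]
      congr 1
      simp only [map_smul, fY]
      rw [LC_sum]
      congr 1
      funext l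
      have h1 := congrFun (congrFun (hVW g) l) i
      rw [Matrix.mul_apply, Matrix.mul_apply] at h1
      simp only [Matrix.mulVec, dotProduct]
      rw [h1]
      exact Finset.sum_congr rfl fun j _ => mul_comm _ _
    | TX g i =>
      rw [map_mul, map_mul, map_sum, fT, fX, T_LX _ _ _ (rTX W c g)]
      congr 1
      simp only [map_smul, fX]
      refine Eq.trans ?_ (LC_sum (fun j => toH W c (gX j)) Finset.univ (fun j => V g⁻¹ i j)
        (fun j => Q j)).symm
      congr 1
      funext l
      have h1 := congrFun (congrFun (hQ g⁻¹) i) l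
      rw [Matrix.mul_apply, Matrix.mul_apply] at h1
      simp only [Matrix.vecMul, dotProduct]
      rw [h1]
    | XX i j => rw [map_mul, map_mul, fX, fX]; exact LC_comm _ (rXX W c) _ _
    | YY i j => rw [map_mul, map_mul, fY, fY]; exact LC_comm _ (rYY W c) _ _
    | YX i j =>
      rw [map_mul, map_add, map_mul, map_sum, fX, fY,
        LY_LX _ _ _ _ _ (fun s => 1 - W s) (rYX W c)]
      congr 1
      refine Finset.sum_congr rfl fun s _ => ?_
      rw [map_smul, fT, det_conj_eq hPQ (hVW s)]
      congr 3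
      have h1 : Q * ((1 - W s) * P) = 1 - V s := by
        rw [Matrix.sub_mul, Matrix.one_mul, Matrix.mul_sub, hQP, hVW, ← Matrix.mul_assoc, hQP,
          Matrix.one_mul]
      have h2 := congrFun (congrFun h1 j) i
      rw [← h2, Matrix.mul_apply]
      simp only [dotProduct, Matrix.mulVec, Matrix.mul_apply]
    | invX p hp =>
      rw [map_evP, map_zero]
      simp only [fX]
      have h1 := rX W c _ (isInv_conj Q hQ hp)
      rw [evP_bind _ (rXX W c)] at h1
      have h2 : (fun i => evP (fun j => toH W c (gX j)) (lin Q i)) =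
          fun i => LC (fun j => toH W c (gX j)) (Q i) := by
        funext i
        exact evP_lin _ (rXX W c) _
      rwa [h2] at h1
    | invY p hp =>
      rw [map_evP, map_zero]
      simp only [fY]
      have hQ' : ∀ g, Pᵀ * (fun g => (W g)ᵀ) g = (fun g => (V g)ᵀ) g * Pᵀ := by
        intro g
        show Pᵀ * (W g)ᵀ = (V g)ᵀ * Pᵀ
        rw [← Matrix.transpose_mul, hVW, Matrix.transpose_mul]
      have h1 := rY W c _ (isInv_conj Pᵀ hQ' hp)
      rw [evP_bind _ (rYY W c)] at h1
      have h2 : (fun i => evP (fun j => toH W c (gY j)) (lin Pᵀ i)) =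
          fun i => LC (fun j => toH W c (gY j)) (fun j => P j i) := by
        funext i
        exact evP_lin _ (rYY W c) _
      rwa [h2] at h1
  obtain ⟨φ, hφ⟩ := exists_lift f.toRingHom hf
  have hφ' : ∀ w, φ (toH V c w) = f w := hφ
  obtain ⟨e, h1, h2, h3, h4⟩ := h
  have hp : ∀ (d : ℕ) (x : G → K), φ (pCh V c d x) = pCh W c d x := by
    intro d x
    unfold pCh
    rw [hφ', map_sum, ← toHA_apply, map_sum]
    refine Finset.sum_congr rfl fun g _ => ?_
    rw [map_smul, fT, map_smul, toHA_apply]
  have hJ : ∀ z ∈ leftY V c, φ z ∈ leftY W c := by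
    intro z hz
    unfold leftY at hz
    induction hz using Submodule.span_induction with
    | mem z hz =>
      obtain ⟨i, rfl⟩ := hz
      show φ (toH V c (gY i)) ∈ _
      rw [hφ', fY]
      refine Ideal.sum_mem _ fun j _ => ?_
      rw [Algebra.smul_def]
      exact Ideal.mul_mem_left _ _ (Ideal.subset_span ⟨j, rfl⟩)
    | zero => rw [map_zero]; exact Ideal.zero_mem _
    | add x y _ _ hx hy => rw [map_add]; exact Ideal.add_mem _ hx hy
    | smul a x _ hx =>
      rw [smul_eq_mul, map_mul]
      exact Ideal.mul_mem_left _ _ hx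
  refine ⟨φ e, by rw [← map_mul, h1], ?_, ?_, ?_⟩
  · refine comm_of_gen K _ fun a => ?_
    obtain ⟨y, hy⟩ : ∃ y, φ y = toH W c (FreeAlgebra.ι K a) := by
      cases a with
      | X i =>
        refine ⟨toH V c (∑ j, P i j • gX j), ?_⟩
        rw [hφ', map_sum]
        simp only [map_smul, fX]
        refine (LC_sum (fun j => toH W c (gX j)) Finset.univ (fun j => P i j)
          (fun j => Q j)).trans ?_
        have h5 : (fun j => ∑ l, P i l * Q l j) = (1 : Matrix (Fin n) (Fin n) K) i := by
          rw [← hPQ]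
          funext l
          rw [Matrix.mul_apply]
        rw [h5]
        exact LC_one W c _ i
      | Y i =>
        refine ⟨toH V c (∑ j, Q j i • gY j), ?_⟩
        rw [hφ', map_sum]
        simp only [map_smul, fY]
        rw [LC_sum]
        have h5 : (fun j => ∑ l, Q l i * P j l) = (1 : Matrix (Fin n) (Fin n) K) i := by
          funext l
          have h6 : ∑ k, Q k i * P l k = (P * Q) l i := by
            rw [Matrix.mul_apply]
            exact Finset.sum_congr rfl fun j _ => mul_comm _ _
          rw [h6, hPQ, Matrix.one_apply, Matrix.one_apply]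
          simp only [eq_comm]
        rw [h5]
        exact LC_one W c _ i
      | T g => exact ⟨toH V c (gT g), by rw [hφ', fT]; rfl⟩
    rw [← hy, ← map_mul, h2, map_mul]
  · rw [← hp, ← map_mul, ← map_sub]
    exact hJ _ h3
  · rw [← hp, ← map_mul]
    exact hJ _ h4

end conj

end

end Pool.Agent.CMFP.Lef
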