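import Mathlib

/-!
# CMF module LemL0: abstract part of Lemma L

Intertwiners of representations of free algebras, locally nilpotent operators, interpolation.
-/

namespace Pool.Agent.CMF

open Polynomial in
/-- If `z₁ - 1` is locally nilpotent on `P₁`, `z₂` is locally nilpotent on `P₂` and both are
intertwined with `zN` by surjective maps to `N`, then `N = 0`. -/
theorem nilp_contra {K P₁ P₂ N : Type*} [Field K] [AddCommGroup P₁] [Module K P₁]
    [AddCommGroup P₂] [Module K P₂] [AddCommGroup N] [Module K N]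
    (Φ₁ : P₁ →ₗ[K] N) (Φ₂ : P₂ →ₗ[K] N) (hs₁ : Function.Surjective Φ₁)
    (hs₂ : Function.Surjective Φ₂)
    (z₁ : Module.End K P₁) (z₂ : Module.End K P₂) (zN : Module.End K N)
    (h₁ : ∀ f, Φ₁ (z₁ f) = zN (Φ₁ f)) (h₂ : ∀ f, Φ₂ (z₂ f) = zN (Φ₂ f))
    (n₁ : ∀ f, ∃ j : ℕ, ((z₁ - 1) ^ j) f = 0) (n₂ : ∀ f, ∃ j : ℕ, (z₂ ^ j) f = 0)
    (F : N) : F = 0 := by
  obtain ⟨f₁, hf₁⟩ := hs₁ F
  obtain ⟨f₂, hf₂⟩ := hs₂ F
  obtain ⟨j₁, hj₁⟩ := n₁ f₁
  obtain ⟨j₂, hj₂⟩ := n₂ f₂
  have e₁ : ∀ (j : ℕ) (f : P₁), Φ₁ (((z₁ - 1) ^ j) f) = ((zN - 1) ^ j) (Φ₁ f) := by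
    intro j
    induction j with
    | zero => intro f; simp
    | succ j ih =>
      intro f
      rw [pow_succ, pow_succ, Module.End.mul_apply, Module.End.mul_apply, ih]
      congr 1
      simp [h₁]
  have e₂ : ∀ (j : ℕ) (f : P₂), Φ₂ ((z₂ ^ j) f) = (zN ^ j) (Φ₂ f) := by
    intro j
    induction j with
    | zero => intro f; simp
    | succ j ih =>
      intro f
      rw [pow_succ, pow_succ, Module.End.mul_apply, Module.End.mul_apply, ih, h₂]
  have a₁ : ((zN - 1) ^ j₁) F = 0 := by rw [← hf₁, ← e₁, hj₁, map_zero]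
  have a₂ : (zN ^ j₂) F = 0 := by rw [← hf₂, ← e₂, hj₂, map_zero]
  have hc : IsCoprime ((X - C 1 : K[X]) ^ j₁) (X ^ j₂) := by
    apply IsCoprime.pow
    refine ⟨-1, 1, ?_⟩
    simp
  obtain ⟨a, b, hab⟩ := hc
  have := congrArg (fun p => Polynomial.aeval zN p F) hab
  simp only [map_add, map_mul, map_pow, map_sub, Polynomial.aeval_X,
    map_one, LinearMap.add_apply, Module.End.mul_apply, Module.End.one_apply] at this
  rw [a₁, a₂] at this
  simpa using this.symm

/-- Intertwiners on generators are intertwiners. -/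
theorem lift_intertwine {K L P N : Type*} [Field K] [AddCommGroup P] [Module K P]
    [AddCommGroup N] [Module K N] (a : L → Module.End K P) (b : L → Module.End K N)
    (Φ : P →ₗ[K] N) (h : ∀ l f, Φ (a l f) = b l (Φ f)) (w : FreeAlgebra K L) :
    ∀ f, Φ (FreeAlgebra.lift K a w f) = FreeAlgebra.lift K b w (Φ f) := by
  induction w using FreeAlgebra.induction with
  | grade0 r => intro f; simp
  | grade1 x => intro f; simp [h]
  | mul x y hx hy => intro f; simp [hx, hy]
  | add x y hx hy => intro f; simp [hx, hy]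

/-- Interpolation at finitely many points. -/
theorem exists_interp {K ι κ : Type*} [Field K] [Finite κ] (pt : κ → ι → K)
    (hpt : Function.Injective pt) (g : κ) :
    ∃ p : MvPolynomial ι K, MvPolynomial.eval (pt g) p = 1 ∧
      ∀ h, h ≠ g → MvPolynomial.eval (pt h) p = 0 := by
  classical
  have := Fintype.ofFinite κ
  have hi : ∀ h : κ, h ≠ g → ∃ i, pt h i ≠ pt g i := by
    intro h hh
    by_contra hcon
    push Not at hcon
    exact hh (hpt (funext hcon))
  choose i hi using hi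
  refine ⟨∏ h : {h : κ // h ≠ g}, (MvPolynomial.C ((pt g (i h h.2) - pt h (i h h.2))⁻¹) *
    (MvPolynomial.X (i h h.2) - MvPolynomial.C (pt h (i h h.2)))), ?_, ?_⟩
  · rw [map_prod]
    apply Finset.prod_eq_one
    rintro ⟨h, hh⟩ -
    have hne : pt g (i h hh) - pt h (i h hh) ≠ 0 := sub_ne_zero.2 (hi h hh).symm
    simp [inv_mul_cancel₀ hne]
  · intro h hh
    rw [map_prod]
    apply Finset.prod_eq_zero (Finset.mem_univ ⟨h, hh⟩)
    simp

end Pool.Agent.CMF
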