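import Pool.Agent.CMF.LemL0

/-!
# CMF module LemL1: Lemma L, pointwise form

`V = ι → ℂ`, `σ` the action of a finite group `G` on `V`, `ρ` a representation on `E`, `P` the
`E`-valued polynomials with evaluation maps `ev v : P → E`. The letters are `inl i` (coordinate
functions), `inr (inl i)` (Dunkl operators for the basis vectors), `inr (inr g)` (elements of `G`).
-/

namespace Pool.Agent.CMF

open scoped BigOperators

/-- The operators `X i`, `Y i`, `T g` on the `E`-valued polynomials `P`, described by the values at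
the points of `reg`. -/
structure PolyAct {G ι E P : Type*} [Group G] [DecidableEq ι] [AddCommGroup E] [Module ℂ E]
    [AddCommGroup P] [Module ℂ P] (σ : G →* Module.End ℂ (ι → ℂ)) (S : Finset G)
    (a : G → (ι → ℂ) → (ι → ℂ) → ℂ) (reg : Set (ι → ℂ)) (ρ : G →* Module.End ℂ E)
    (ev : (ι → ℂ) → P →ₗ[ℂ] E) (X Y : ι → Module.End ℂ P) (T : G → Module.End ℂ P) : Prop where
  evX : ∀ v ∈ reg, ∀ i f, ev v (X i f) = v i • ev v f
  evT : ∀ v ∈ reg, ∀ g f, ev v (T g f) = ρ g (ev (σ g⁻¹ v) f)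
  evY : ∀ v ∈ reg, ∀ i f, ev v (Y i f) =
    ∑ s ∈ S, a s (Pi.single i 1) v • ρ s (ev (σ s⁻¹ v) f - ev v f)
  interp : ∀ (p : MvPolynomial ι ℂ) (u : E), ∃ f, ∀ v ∈ reg, ev v f = MvPolynomial.eval v p • u

section

variable {G ι : Type*} [Group G] [DecidableEq ι] (σ : G →* Module.End ℂ (ι → ℂ))
  (S : Finset G) (a : G → (ι → ℂ) → (ι → ℂ) → ℂ) (x : ι → ℂ) (ξ : (ι → ℂ) →ₗ[ℂ] ℂ)

/-- The module of functions on the orbit of `x`: action of the coordinate functions. -/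
def nX (i : ι) : Module.End ℂ (G → ℂ) where
  toFun F := fun g => σ g x i * F g
  map_add' F F' := by funext g; simp [mul_add]
  map_smul' c F := by funext g; simp; ring

/-- action of the group -/
def nT (h : G) : Module.End ℂ (G → ℂ) where
  toFun F := fun g => F (h⁻¹ * g)
  map_add' F F' := by funext g; simp
  map_smul' c F := by funext g; simp

/-- action of the Dunkl operators -/
def nY (i : ι) : Module.End ℂ (G → ℂ) where
  toFun F := fun g => ∑ s ∈ S, a s (Pi.single i 1) (σ g x) * F (s⁻¹ * g) -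
    ξ (σ g⁻¹ (Pi.single i 1)) * F g
  map_add' F F' := by
    funext g
    simp only [Pi.add_apply, mul_add, Finset.sum_add_distrib]
    ring
  map_smul' c F := by
    funext g
    simp only [Pi.smul_apply, smul_eq_mul, RingHom.id_apply, mul_sub, Finset.mul_sum]
    congr 1
    · exact Finset.sum_congr rfl fun s _ => by ring
    · ring

/-- all letters -/
def nL : ι ⊕ ι ⊕ G → Module.End ℂ (G → ℂ)
  | .inl i => nX σ x i
  | .inr (.inl i) => nY σ S a x ξ i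
  | .inr (.inr g) => nT g

/-- all letters on `P` -/
def pL {P : Type*} [AddCommGroup P] [Module ℂ P] (X Y : ι → Module.End ℂ P)
    (T : G → Module.End ℂ P) : ι ⊕ ι ⊕ G → Module.End ℂ P
  | .inl i => X i
  | .inr (.inl i) => Y i
  | .inr (.inr g) => T g

variable {σ S a x ξ}

/-- The map to the functions on the orbit. -/
def toN {E P : Type*} [AddCommGroup E] [Module ℂ E] [AddCommGroup P] [Module ℂ P]
    (σ : G →* Module.End ℂ (ι → ℂ)) (x : ι → ℂ) (ρ : G →* Module.End ℂ E)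
    (ev : (ι → ℂ) → P →ₗ[ℂ] E) (η : E →ₗ[ℂ] ℂ) : P →ₗ[ℂ] (G → ℂ) where
  toFun f := fun g => η (ρ g⁻¹ (ev (σ g x) f))
  map_add' f f' := by funext g; simp
  map_smul' c f := by funext g; simp

theorem toN_letter {E P : Type*} [AddCommGroup E] [Module ℂ E] [AddCommGroup P] [Module ℂ P]
    {reg : Set (ι → ℂ)} {ρ : G →* Module.End ℂ E}
    {ev : (ι → ℂ) → P →ₗ[ℂ] E} {X Y : ι → Module.End ℂ P} {T : G → Module.End ℂ P}
    (hP : PolyAct σ S a reg ρ ev X Y T)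
    (hS : ∀ g s, s ∈ S → g * s * g⁻¹ ∈ S)
    (ha : ∀ g, ∀ s ∈ S, ∀ y v, a (g * s * g⁻¹) (σ g y) (σ g v) = a s y v)
    (hx : ∀ g, σ g x ∈ reg) (η : E →ₗ[ℂ] ℂ)
    (hη : ∀ y u, ∑ s ∈ S, a s y x * η (ρ s u) = ξ y * η u)
    (l : ι ⊕ ι ⊕ G) (f : P) :
    toN σ x ρ ev η (pL X Y T l f) = nL σ S a x ξ l (toN σ x ρ ev η f) := by
  funext g
  rcases l with i | i | h
  · show η (ρ g⁻¹ (ev (σ g x) (X i f))) = σ g x i * η (ρ g⁻¹ (ev (σ g x) f))
    rw [hP.evX _ (hx g)]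
    simp
  · show η (ρ g⁻¹ (ev (σ g x) (Y i f))) = ∑ s ∈ S, a s (Pi.single i 1) (σ g x) *
      η (ρ (s⁻¹ * g)⁻¹ (ev (σ (s⁻¹ * g) x) f)) - ξ (σ g⁻¹ (Pi.single i 1)) *
      η (ρ g⁻¹ (ev (σ g x) f))
    rw [hP.evY _ (hx g), map_sum, map_sum, ← hη]
    have e1 : ∑ s ∈ S, a s (σ g⁻¹ (Pi.single i 1)) x * η (ρ s (ρ g⁻¹ (ev (σ g x) f))) =
        ∑ s ∈ S, a s (Pi.single i 1) (σ g x) * η (ρ g⁻¹ (ρ s (ev (σ g x) f))) := by
      refine Finset.sum_bij' (fun s _ => g * s * g⁻¹) (fun s _ => g⁻¹ * s * g) ?_ ?_ ?_ ?_ ?_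
      · intro s hs; exact hS g s hs
      · intro s hs
        have := hS g⁻¹ s hs
        rwa [inv_inv] at this
      · intro s _; group
      · intro s _; group
      · intro s hs
        have h1 := ha g s hs (σ g⁻¹ (Pi.single i 1)) x
        have h2 : σ g (σ g⁻¹ (Pi.single i 1)) = Pi.single i 1 := by
          rw [← Module.End.mul_apply, ← map_mul, mul_inv_cancel, map_one, Module.End.one_apply]
        rw [h2] at h1
        rw [h1]
        congr 2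
        rw [← Module.End.mul_apply, ← map_mul, ← Module.End.mul_apply, ← map_mul]
        congr 2
        group
    rw [e1, ← Finset.sum_sub_distrib]
    refine Finset.sum_congr rfl fun s _ => ?_
    have h3 : ρ (s⁻¹ * g)⁻¹ = ρ g⁻¹ * ρ s := by rw [← map_mul]; congr 1; group
    have h4 : σ (s⁻¹ * g) x = σ s⁻¹ (σ g x) := by rw [map_mul, Module.End.mul_apply]
    rw [h3, h4, Module.End.mul_apply, map_smul, map_smul, map_sub, map_sub, map_sub, smul_eq_mul,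
      mul_sub]
  · show η (ρ g⁻¹ (ev (σ g x) (T h f))) = η (ρ (h⁻¹ * g)⁻¹ (ev (σ (h⁻¹ * g) x) f))
    rw [hP.evT _ (hx g)]
    have h3 : ρ (h⁻¹ * g)⁻¹ = ρ g⁻¹ * ρ h := by rw [← map_mul]; congr 1; group
    have h4 : σ (h⁻¹ * g) x = σ h⁻¹ (σ g x) := by rw [map_mul, Module.End.mul_apply]
    rw [h3, h4, Module.End.mul_apply]

theorem toN_surj [Finite G] {E P : Type*} [AddCommGroup E] [Module ℂ E] [AddCommGroup P]
    [Module ℂ P] {reg : Set (ι → ℂ)} {ρ : G →* Module.End ℂ E}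
    {ev : (ι → ℂ) → P →ₗ[ℂ] E} {X Y : ι → Module.End ℂ P} {T : G → Module.End ℂ P}
    (hP : PolyAct σ S a reg ρ ev X Y T)
    (hx : ∀ g, σ g x ∈ reg) (hfree : ∀ g, σ g x = x → g = 1) (η : E →ₗ[ℂ] ℂ) (hη0 : η ≠ 0) :
    Function.Surjective (toN σ x ρ ev η) := by
  classical
  have := Fintype.ofFinite G
  obtain ⟨u, hu⟩ : ∃ u, η u ≠ 0 := by
    by_contra hcon
    push Not at hcon
    exact hη0 (LinearMap.ext hcon)
  have hinj : Function.Injective (fun g : G => σ g x) := by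
    intro g h hgh
    have hgh' : σ g x = σ h x := hgh
    have : σ (h⁻¹ * g) x = x := by
      rw [map_mul, Module.End.mul_apply, hgh', ← Module.End.mul_apply, ← map_mul,
        inv_mul_cancel, map_one, Module.End.one_apply]
    have := hfree _ this
    exact (inv_mul_eq_one.1 this).symm
  intro F
  choose p hp1 hp0 using fun g : G => exists_interp (fun g : G => σ g x) hinj g
  choose f hf using fun g : G => hP.interp (p g) ((F g * (η u)⁻¹) • ρ g u)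
  refine ⟨∑ g, f g, ?_⟩
  funext h
  show η (ρ h⁻¹ (ev (σ h x) (∑ g, f g))) = F h
  rw [map_sum, map_sum, map_sum, Finset.sum_eq_single h]
  · rw [hf h _ (hx h), hp1 h, one_smul, map_smul, map_smul, ← Module.End.mul_apply, ← map_mul,
      inv_mul_cancel, map_one, Module.End.one_apply, smul_eq_mul, mul_assoc,
      inv_mul_cancel₀ hu, mul_one]
  · intro g _ hg
    rw [hf g _ (hx h), hp0 g h hg.symm, zero_smul, map_zero, map_zero]
  · intro hh; exact absurd (Finset.mem_univ h) hh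

/-- **Lemma L.** If the transposed Gaudin operators of `ρ₁` and `ρ₂` have a common joint eigenvalue
`ξ` at a point `x` with free regular orbit, then no word acts locally unipotently on the
`E₁`-valued polynomials and locally nilpotently on the `E₂`-valued polynomials. -/
theorem lemmaL_word [Finite G] {E₁ P₁ E₂ P₂ : Type*} [AddCommGroup E₁] [Module ℂ E₁]
    [AddCommGroup P₁] [Module ℂ P₁] [AddCommGroup E₂] [Module ℂ E₂]
    [AddCommGroup P₂] [Module ℂ P₂] {reg : Set (ι → ℂ)}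
    {ρ₁ : G →* Module.End ℂ E₁} {ev₁ : (ι → ℂ) → P₁ →ₗ[ℂ] E₁} {X₁ Y₁ : ι → Module.End ℂ P₁}
    {T₁ : G → Module.End ℂ P₁}
    {ρ₂ : G →* Module.End ℂ E₂} {ev₂ : (ι → ℂ) → P₂ →ₗ[ℂ] E₂} {X₂ Y₂ : ι → Module.End ℂ P₂}
    {T₂ : G → Module.End ℂ P₂}
    (hP₁ : PolyAct σ S a reg ρ₁ ev₁ X₁ Y₁ T₁) (hP₂ : PolyAct σ S a reg ρ₂ ev₂ X₂ Y₂ T₂)
    (hS : ∀ g s, s ∈ S → g * s * g⁻¹ ∈ S)
    (ha : ∀ g, ∀ s ∈ S, ∀ y v, a (g * s * g⁻¹) (σ g y) (σ g v) = a s y v)
    (hx : ∀ g, σ g x ∈ reg) (hfree : ∀ g, σ g x = x → g = 1)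
    (η₁ : E₁ →ₗ[ℂ] ℂ) (η₂ : E₂ →ₗ[ℂ] ℂ) (h₁ : η₁ ≠ 0) (h₂ : η₂ ≠ 0)
    (hη₁ : ∀ y u, ∑ s ∈ S, a s y x * η₁ (ρ₁ s u) = ξ y * η₁ u)
    (hη₂ : ∀ y u, ∑ s ∈ S, a s y x * η₂ (ρ₂ s u) = ξ y * η₂ u)
    (w : FreeAlgebra ℂ (ι ⊕ ι ⊕ G))
    (n₁ : ∀ f, ∃ j : ℕ, ((FreeAlgebra.lift ℂ (pL X₁ Y₁ T₁) w - 1) ^ j) f = 0)
    (n₂ : ∀ f, ∃ j : ℕ, ((FreeAlgebra.lift ℂ (pL X₂ Y₂ T₂) w) ^ j) f = 0) : False := by
  have key := nilp_contra (toN σ x ρ₁ ev₁ η₁) (toN σ x ρ₂ ev₂ η₂)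
    (toN_surj hP₁ hx hfree η₁ h₁) (toN_surj hP₂ hx hfree η₂ h₂)
    (FreeAlgebra.lift ℂ (pL X₁ Y₁ T₁) w) (FreeAlgebra.lift ℂ (pL X₂ Y₂ T₂) w)
    (FreeAlgebra.lift ℂ (nL σ S a x ξ) w)
    (lift_intertwine _ _ _ (toN_letter hP₁ hS ha hx η₁ hη₁) w)
    (lift_intertwine _ _ _ (toN_letter hP₂ hS ha hx η₂ hη₂) w) n₁ n₂ (fun _ => 1)
  have := congrFun key 1
  simp at this

end

end Pool.Agent.CMF
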