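import Pool.Agent.CMF.LemL1

/-!
# CMF module LemL2: Lemma L in rank two

If `A X = X B` for some `X ≠ 0` then the transposes of `A`, `B` have a common eigenvalue. In rank
two, `x` and a second vector `th` span `V`, so a common left eigenvalue of the operators
`∑ s ∈ S, a s th x • ρ s` together with equal Euler scalars `∑ s ∈ S, a s x x • ρ s = c` gives the
hypothesis of `lemmaL_word`.
-/

namespace Pool.Agent.CMF

open scoped BigOperators

theorem exists_left_eigen {E : Type*} [AddCommGroup E] [Module ℂ E]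
    {A : Module.End ℂ E} {lam : ℂ} (h : ¬ Function.Surjective (A - algebraMap ℂ (Module.End ℂ E) lam)) :
    ∃ η : E →ₗ[ℂ] ℂ, η ≠ 0 ∧ ∀ u, η (A u) = lam * η u := by
  have hlt : LinearMap.range (A - algebraMap ℂ (Module.End ℂ E) lam) < ⊤ := by
    rw [lt_top_iff_ne_top]
    intro hh
    exact h (LinearMap.range_eq_top.1 hh)
  obtain ⟨η, hη, hle⟩ := Submodule.exists_le_ker_of_lt_top _ hlt
  refine ⟨η, hη, fun u => ?_⟩
  have := hle (LinearMap.mem_range_self (A - algebraMap ℂ (Module.End ℂ E) lam) u)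
  rw [LinearMap.mem_ker] at this
  simp only [LinearMap.sub_apply, Module.algebraMap_end_apply, map_sub, map_smul, smul_eq_mul]
    at this
  exact sub_eq_zero.1 this

theorem exists_common_left_eigen {E₁ E₂ : Type*} [AddCommGroup E₁] [Module ℂ E₁]
    [FiniteDimensional ℂ E₁] [AddCommGroup E₂] [Module ℂ E₂]
    (A : Module.End ℂ E₁) (B : Module.End ℂ E₂) (X : E₂ →ₗ[ℂ] E₁) (hX : X ≠ 0)
    (h : ∀ u, A (X u) = X (B u)) :
    ∃ (lam : ℂ) (η₁ : E₁ →ₗ[ℂ] ℂ) (η₂ : E₂ →ₗ[ℂ] ℂ), η₁ ≠ 0 ∧ η₂ ≠ 0 ∧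
      (∀ u, η₁ (A u) = lam * η₁ u) ∧ ∀ u, η₂ (B u) = lam * η₂ u := by
  set R := LinearMap.range X with hR
  have hAR : ∀ r ∈ R, A r ∈ R := by
    rintro _ ⟨u, rfl⟩
    exact ⟨B u, (h u).symm⟩
  set A' : Module.End ℂ R := A.restrict hAR with hA'
  have hnt : Nontrivial R := by
    rw [Submodule.nontrivial_iff_ne_bot, hR, Ne, LinearMap.range_eq_bot]
    exact hX
  obtain ⟨lam, hlam⟩ := Module.End.exists_eigenvalue A'
  have hinj' : ¬ Function.Injective (A' - algebraMap ℂ (Module.End ℂ R) lam) := by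
    obtain ⟨v, hv⟩ := hlam.exists_hasEigenvector
    intro hinj
    apply hv.2
    apply hinj
    rw [map_zero]
    simp [hv.apply_eq_smul]
  have hsurj' : ¬ Function.Surjective (A' - algebraMap ℂ (Module.End ℂ R) lam) := by
    intro hs
    exact hinj' (LinearMap.injective_iff_surjective.2 hs)
  have hA : ¬ Function.Surjective (A - algebraMap ℂ (Module.End ℂ E₁) lam) := by
    intro hs
    have hi := LinearMap.injective_iff_surjective.2 hs
    apply hinj'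
    intro r r' hrr
    apply Subtype.ext
    apply hi
    have := congrArg Subtype.val hrr
    simpa [hA'] using this
  have hB : ¬ Function.Surjective (B - algebraMap ℂ (Module.End ℂ E₂) lam) := by
    intro hs
    apply hsurj'
    rintro ⟨_, ⟨u, rfl⟩⟩
    obtain ⟨w, hw⟩ := hs u
    refine ⟨⟨X w, ⟨w, rfl⟩⟩, ?_⟩
    apply Subtype.ext
    rw [← hw]
    simp [hA', h]
  obtain ⟨η₁, h1, h1'⟩ := exists_left_eigen hA
  obtain ⟨η₂, h2, h2'⟩ := exists_left_eigen hB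
  exact ⟨lam, η₁, η₂, h1, h2, h1', h2'⟩

/-- the Gaudin operator -/
def gaudin {G ι E : Type*} [Group G] [AddCommGroup E] [Module ℂ E] (S : Finset G)
    (a : G → (ι → ℂ) → (ι → ℂ) → ℂ) (ρ : G →* Module.End ℂ E) (y x : ι → ℂ) : Module.End ℂ E :=
  ∑ s ∈ S, a s y x • ρ s

/-- the linear form with the values `c` at `x` and `lam` at `th` -/
noncomputable def xiForm (x th : Fin 2 → ℂ) (c lam : ℂ) : (Fin 2 → ℂ) →ₗ[ℂ] ℂ :=
  (c / (x 0 * th 1 - x 1 * th 0)) • (th 1 • LinearMap.proj 0 - th 0 • LinearMap.proj 1) +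
    (lam / (x 0 * th 1 - x 1 * th 0)) • (x 0 • LinearMap.proj 1 - x 1 • LinearMap.proj 0)

theorem joint_of_two {G : Type*} [Group G] {S : Finset G}
    {a : G → (Fin 2 → ℂ) → (Fin 2 → ℂ) → ℂ} {x th : Fin 2 → ℂ}
    {E : Type*} [AddCommGroup E] [Module ℂ E] {ρ : G →* Module.End ℂ E}
    (hlin : ∀ s ∈ S, IsLinearMap ℂ fun y => a s y x)
    (hind : x 0 * th 1 ≠ x 1 * th 0) {c lam : ℂ} {η : E →ₗ[ℂ] ℂ}
    (hc : gaudin S a ρ x x = c • 1) (hl : ∀ u, η (gaudin S a ρ th x u) = lam * η u)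
    (y : Fin 2 → ℂ) (u : E) :
    ∑ s ∈ S, a s y x * η (ρ s u) = xiForm x th c lam y * η u := by
  have hD : x 0 * th 1 - x 1 * th 0 ≠ 0 := sub_ne_zero.2 hind
  have hξ : xiForm x th c lam y = c / (x 0 * th 1 - x 1 * th 0) * (th 1 * y 0 - th 0 * y 1) +
      lam / (x 0 * th 1 - x 1 * th 0) * (x 0 * y 1 - x 1 * y 0) := by
    simp [xiForm]
  rw [hξ]
  clear hξ
  set D := x 0 * th 1 - x 1 * th 0 with hDdef
  have hdec : y = ((th 1 * y 0 - th 0 * y 1) / D) • x +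
      ((x 0 * y 1 - x 1 * y 0) / D) • th := by
    funext i
    fin_cases i
    · simp only [Fin.zero_eta, Pi.add_apply, Pi.smul_apply, smul_eq_mul]
      field_simp
      rw [hDdef]; ring
    · simp only [Fin.mk_one, Pi.add_apply, Pi.smul_apply, smul_eq_mul]
      field_simp
      rw [hDdef]; ring
  have hx1 : ∑ s ∈ S, a s x x * η (ρ s u) = c * η u := by
    have := congrArg (fun f : Module.End ℂ E => η (f u)) hc
    simpa [gaudin] using this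
  have ht1 : ∑ s ∈ S, a s th x * η (ρ s u) = lam * η u := by
    have := hl u
    simpa [gaudin] using this
  have hy : ∀ s ∈ S, a s y x = ((th 1 * y 0 - th 0 * y 1) / D) * a s x x +
      ((x 0 * y 1 - x 1 * y 0) / D) * a s th x := by
    intro s hs
    conv_lhs => rw [hdec]
    rw [(hlin s hs).map_add, (hlin s hs).map_smul, (hlin s hs).map_smul]
    simp
  calc ∑ s ∈ S, a s y x * η (ρ s u)
      = ∑ s ∈ S, (((th 1 * y 0 - th 0 * y 1) / D) * (a s x x * η (ρ s u)) +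
        ((x 0 * y 1 - x 1 * y 0) / D) * (a s th x * η (ρ s u))) := by
        refine Finset.sum_congr rfl fun s hs => ?_
        rw [hy s hs]; ring
    _ = ((th 1 * y 0 - th 0 * y 1) / D) * (c * η u) +
        ((x 0 * y 1 - x 1 * y 0) / D) * (lam * η u) := by
        rw [Finset.sum_add_distrib, ← Finset.mul_sum, ← Finset.mul_sum, hx1, ht1]
    _ = _ := by ring

/-- **Lemma L in rank two**, with an intertwiner `Z` of the Gaudin operators in a direction `th`. -/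
theorem lemmaL_rank2 {G : Type*} [Group G] [Finite G] {σ : G →* Module.End ℂ (Fin 2 → ℂ)}
    {S : Finset G} {a : G → (Fin 2 → ℂ) → (Fin 2 → ℂ) → ℂ} {x th : Fin 2 → ℂ}
    {E₁ P₁ E₂ P₂ : Type*} [AddCommGroup E₁] [Module ℂ E₁] [FiniteDimensional ℂ E₁]
    [AddCommGroup P₁] [Module ℂ P₁] [AddCommGroup E₂] [Module ℂ E₂]
    [AddCommGroup P₂] [Module ℂ P₂] {reg : Set (Fin 2 → ℂ)}
    {ρ₁ : G →* Module.End ℂ E₁} {ev₁ : (Fin 2 → ℂ) → P₁ →ₗ[ℂ] E₁}
    {X₁ Y₁ : Fin 2 → Module.End ℂ P₁} {T₁ : G → Module.End ℂ P₁}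
    {ρ₂ : G →* Module.End ℂ E₂} {ev₂ : (Fin 2 → ℂ) → P₂ →ₗ[ℂ] E₂}
    {X₂ Y₂ : Fin 2 → Module.End ℂ P₂} {T₂ : G → Module.End ℂ P₂}
    (hP₁ : PolyAct σ S a reg ρ₁ ev₁ X₁ Y₁ T₁) (hP₂ : PolyAct σ S a reg ρ₂ ev₂ X₂ Y₂ T₂)
    (hS : ∀ g s, s ∈ S → g * s * g⁻¹ ∈ S)
    (ha : ∀ g, ∀ s ∈ S, ∀ y v, a (g * s * g⁻¹) (σ g y) (σ g v) = a s y v)
    (hlin : ∀ s ∈ S, IsLinearMap ℂ fun y => a s y x)
    (hx : ∀ g, σ g x ∈ reg) (hfree : ∀ g, σ g x = x → g = 1)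
    (hind : x 0 * th 1 ≠ x 1 * th 0) {c : ℂ}
    (hc₁ : gaudin S a ρ₁ x x = c • 1) (hc₂ : gaudin S a ρ₂ x x = c • 1)
    (Z : E₂ →ₗ[ℂ] E₁) (hZ : Z ≠ 0)
    (hZZ : ∀ u, gaudin S a ρ₁ th x (Z u) = Z (gaudin S a ρ₂ th x u))
    (w : FreeAlgebra ℂ (Fin 2 ⊕ Fin 2 ⊕ G))
    (n₁ : ∀ f, ∃ j : ℕ, ((FreeAlgebra.lift ℂ (pL X₁ Y₁ T₁) w - 1) ^ j) f = 0)
    (n₂ : ∀ f, ∃ j : ℕ, ((FreeAlgebra.lift ℂ (pL X₂ Y₂ T₂) w) ^ j) f = 0) : False := by
  obtain ⟨lam, η₁, η₂, h1, h2, h1', h2'⟩ := exists_common_left_eigen _ _ Z hZ hZZ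
  exact lemmaL_word hP₁ hP₂ hS ha hx hfree η₁ η₂ h1 h2
    (joint_of_two hlin hind hc₁ h1') (joint_of_two hlin hind hc₂ h2') w n₁ n₂

end Pool.Agent.CMF
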