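import Mathlib

/-! Project CMF, local monodromy: the analytic core (a linear differential equation with a regular
singular point, imaginary exponents). -/

namespace Pool.Agent.CMF.LocMonX

open Matrix Complex

noncomputable section

section gron

variable {E : Type} [NormedAddCommGroup E] [NormedSpace ℝ E]

theorem gron {f f' : ℝ → E} {K a b : ℝ} (hab : a ≤ b)
    (hf : ∀ x ∈ Set.Icc a b, HasDerivAt f (f' x) x)
    (hb : ∀ x ∈ Set.Icc a b, ‖f' x‖ ≤ K * ‖f x‖) :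
    ‖f b‖ ≤ ‖f a‖ * Real.exp (K * (b - a)) := by
  have h := norm_le_gronwallBound_of_norm_deriv_right_le (f := f) (f' := f') (δ := ‖f a‖) (K := K)
    (ε := 0) (a := a) (b := b) (fun x hx => (hf x hx).continuousAt.continuousWithinAt)
    (fun x hx => (hf x ⟨hx.1, hx.2.le⟩).hasDerivWithinAt) le_rfl
    (fun x hx => by simpa using hb x ⟨hx.1, hx.2.le⟩) b ⟨hab, le_rfl⟩
  rwa [gronwallBound_ε0] at h

theorem gron' {f f' : ℝ → E} {K a b : ℝ} (hab : a ≤ b)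
    (hf : ∀ x ∈ Set.Icc a b, HasDerivAt f (f' x) x)
    (hb : ∀ x ∈ Set.Icc a b, ‖f' x‖ ≤ K * ‖f x‖) :
    ‖f a‖ ≤ ‖f b‖ * Real.exp (K * (b - a)) := by
  have h := gron (f := fun x => f (a + b - x)) (f' := fun x => (-1 : ℝ) • f' (a + b - x)) (K := K)
    hab (by
      intro x hx
      have h1 : a + b - x ∈ Set.Icc a b := ⟨by linarith [hx.2], by linarith [hx.1]⟩
      have h2 : HasDerivAt (fun x : ℝ => a + b - x) (-1) x := by
        simpa using (hasDerivAt_id x).const_sub (a + b)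
      exact (hf _ h1).scomp x h2) (by
      intro x hx
      have h1 : a + b - x ∈ Set.Icc a b := ⟨by linarith [hx.2], by linarith [hx.1]⟩
      have h2 := hb _ h1
      rw [norm_smul]
      simpa using h2)
  simpa using h

end gron

variable {ι : Type} [Fintype ι]

theorem mulVec_bd (A : Matrix ι ι ℂ) (c : ℝ) (h : ∀ p q, ‖A p q‖ ≤ c) (hc : 0 ≤ c)
    (v : ι → ℂ) : ‖A *ᵥ v‖ ≤ (Fintype.card ι * c) * ‖v‖ := by
  refine (pi_norm_le_iff_of_nonneg (by positivity)).2 fun p => ?_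
  calc ‖(A *ᵥ v) p‖ = ‖∑ q, A p q * v q‖ := rfl
    _ ≤ ∑ q, ‖A p q * v q‖ := norm_sum_le _ _
    _ ≤ ∑ _q : ι, c * ‖v‖ := by
        refine Finset.sum_le_sum fun q _ => ?_
        rw [norm_mul]
        exact mul_le_mul (h p q) (norm_le_pi_norm v q) (norm_nonneg _) hc
    _ = (Fintype.card ι * c) * ‖v‖ := by
        rw [Finset.sum_const, Finset.card_univ, nsmul_eq_mul]
        ring

theorem exists_bd (A : Matrix ι ι ℂ) : ∃ c : ℝ, 0 ≤ c ∧ ∀ v : ι → ℂ, ‖A *ᵥ v‖ ≤ c * ‖v‖ := by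
  refine ⟨Fintype.card ι * ∑ p, ∑ q, ‖A p q‖, by positivity, fun v => ?_⟩
  refine mulVec_bd A _ (fun p q => ?_) (by positivity) v
  exact (Finset.single_le_sum (f := fun q => ‖A p q‖) (fun _ _ => norm_nonneg _)
    (Finset.mem_univ q)).trans (Finset.single_le_sum (f := fun p => ∑ q, ‖A p q‖)
    (fun _ _ => by positivity) (Finset.mem_univ p))

/-- a derivative of matrix-valued functions, applied to a vector -/
theorem hasDerivAt_mulVec {X : ℂ → Matrix ι ι ℂ} {X' : Matrix ι ι ℂ} {w : ℂ}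
    (h : ∀ p q, HasDerivAt (fun w => X w p q) (X' p q) w) (v : ι → ℂ) :
    HasDerivAt (fun w => X w *ᵥ v) (X' *ᵥ v) w := by
  rw [hasDerivAt_pi]
  intro p
  have h1 : HasDerivAt (fun w => ∑ q, X w p q * v q) (∑ q, X' p q * v q) w :=
    HasDerivAt.fun_sum fun q _ => (h p q).mul_const (v q)
  exact h1

/-- a constant matrix times a vector-valued function -/
theorem hasDerivAt_const_mulVec (A : Matrix ι ι ℂ) {G : ℂ → ι → ℂ} {G' : ι → ℂ} {w : ℂ}
    (h : HasDerivAt G G' w) : HasDerivAt (fun w => A *ᵥ G w) (A *ᵥ G') w := by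
  rw [hasDerivAt_pi] at h ⊢
  intro p
  have h1 : HasDerivAt (fun w => ∑ q, A p q * G w q) (∑ q, A p q * G' q) w :=
    HasDerivAt.fun_sum fun q _ => (h q).const_mul (A p q)
  exact h1

/-- The data: `a = ∑ κ_j ε_j` with imaginary `κ_j` and idempotents `ε_j`, `B` bounded on the unit
disc, `X' = (a + e^w B(e^w)) X` for `Re w ≤ 0`. -/
structure Dat (ι : Type) [Fintype ι] [DecidableEq ι] where
  n : ℕ
  ε : ℕ → Matrix ι ι ℂ
  κ : ℕ → ℂ
  a : Matrix ι ι ℂ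
  B : ℂ → Matrix ι ι ℂ
  X : ℂ → Matrix ι ι ℂ
  K : ℝ
  sum_ε : ∑ j ∈ Finset.range n, ε j = 1
  mul_ε : ∀ i ∈ Finset.range n, ∀ j ∈ Finset.range n, ε i * ε j = if i = j then ε j else 0
  mul_a : ∀ j ∈ Finset.range n, ε j * a = κ j • ε j
  re_κ : ∀ j, (κ j).re = 0
  hB : ∀ z, ‖z‖ ≤ 1 → ∀ p q, ‖B z p q‖ ≤ K
  hX : ∀ w : ℂ, w.re ≤ 0 → ∀ p q,
    HasDerivAt (fun w => X w p q) (((a + exp w • B (exp w)) * X w) p q) w

namespace Dat

variable [DecidableEq ι] (D : Dat ι)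

/-- the components -/
def E (j : ℕ) (v : ι → ℂ) (w : ℂ) : ι → ℂ := exp (-(D.κ j * w)) • (D.ε j *ᵥ (D.X w *ᵥ v))

/-- the sum of the components -/
def Z (v : ι → ℂ) (w : ℂ) : ι → ℂ := ∑ j ∈ Finset.range D.n, D.E j v w

theorem hasDerivAt_G (v : ι → ℂ) {w : ℂ} (hw : w.re ≤ 0) :
    HasDerivAt (fun w => D.X w *ᵥ v) ((D.a + exp w • D.B (exp w)) *ᵥ (D.X w *ᵥ v)) w := by
  rw [Matrix.mulVec_mulVec]
  exact hasDerivAt_mulVec (D.hX w hw) v

theorem hasDerivAt_E {j : ℕ} (hj : j ∈ Finset.range D.n) (v : ι → ℂ) {w : ℂ} (hw : w.re ≤ 0) :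
    HasDerivAt (D.E j v)
      ((exp (-(D.κ j * w)) * exp w) • (D.ε j *ᵥ (D.B (exp w) *ᵥ (D.X w *ᵥ v)))) w := by
  have h1 := hasDerivAt_const_mulVec (D.ε j) (D.hasDerivAt_G v hw)
  have h2 : HasDerivAt (fun w : ℂ => exp (-(D.κ j * w)))
      (exp (-(D.κ j * w)) * -(D.κ j * 1)) w :=
    (((hasDerivAt_id w).const_mul (D.κ j)).neg).cexp
  have h3 := h2.smul h1
  have h4 : exp (-(D.κ j * w)) • (D.ε j *ᵥ ((D.a + exp w • D.B (exp w)) *ᵥ (D.X w *ᵥ v))) +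
      (exp (-(D.κ j * w)) * -(D.κ j * 1)) • (D.ε j *ᵥ (D.X w *ᵥ v)) =
      (exp (-(D.κ j * w)) * exp w) • (D.ε j *ᵥ (D.B (exp w) *ᵥ (D.X w *ᵥ v))) := by
    rw [Matrix.add_mulVec, Matrix.mulVec_add, Matrix.mulVec_mulVec (D.X w *ᵥ v) (D.ε j) D.a,
      D.mul_a j hj, Matrix.smul_mulVec, Matrix.smul_mulVec, Matrix.mulVec_smul]
    module
  rw [h4] at h3
  exact h3

theorem E_eq {j : ℕ} (hj : j ∈ Finset.range D.n) (v : ι → ℂ) (w : ℂ) :
    D.E j v w = D.ε j *ᵥ D.Z v w := by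
  unfold Z
  rw [Matrix.mulVec_sum, Finset.sum_eq_single j]
  · unfold E
    rw [Matrix.mulVec_smul, Matrix.mulVec_mulVec (D.X w *ᵥ v) (D.ε j) (D.ε j),
      D.mul_ε j hj j hj, if_pos rfl]
  · intro i hi hij
    unfold E
    rw [Matrix.mulVec_smul, Matrix.mulVec_mulVec (D.X w *ᵥ v) (D.ε j) (D.ε i),
      D.mul_ε j hj i hi, if_neg (Ne.symm hij), Matrix.zero_mulVec, smul_zero]
  · intro h
    exact absurd hj h

theorem G_eq (v : ι → ℂ) (w : ℂ) :
    D.X w *ᵥ v = ∑ j ∈ Finset.range D.n, exp (D.κ j * w) • D.E j v w := by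
  have h1 : ∀ j, exp (D.κ j * w) • D.E j v w = D.ε j *ᵥ (D.X w *ᵥ v) := by
    intro j
    unfold E
    rw [smul_smul, ← Complex.exp_add, add_neg_cancel, Complex.exp_zero, one_smul]
  rw [Finset.sum_congr rfl (fun j _ => h1 j), ← Matrix.sum_mulVec, D.sum_ε, Matrix.one_mulVec]

/-- the derivative of the components -/
def dE (j : ℕ) (v : ι → ℂ) (w : ℂ) : ι → ℂ :=
  (exp (-(D.κ j * w)) * exp w) • (D.ε j *ᵥ (D.B (exp w) *ᵥ (D.X w *ᵥ v)))

theorem hasDerivAt_Z (v : ι → ℂ) {w : ℂ} (hw : w.re ≤ 0) :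
    HasDerivAt (D.Z v) (∑ j ∈ Finset.range D.n, D.dE j v w) w := by
  have h : HasDerivAt (fun w => ∑ j ∈ Finset.range D.n, D.E j v w)
      (∑ j ∈ Finset.range D.n, D.dE j v w) w :=
    HasDerivAt.fun_sum fun j hj => D.hasDerivAt_E hj v hw
  exact h

/-- the strip -/
def strip (θ : ℝ) : Set ℂ := {w | w.re ≤ 0 ∧ 0 ≤ w.im ∧ w.im ≤ θ}

theorem exp_bd {θ : ℝ} (j : ℕ) (hj : j ∈ Finset.range D.n) {w : ℂ} (hw : w ∈ strip θ) :
    ‖exp (D.κ j * w)‖ ≤ Real.exp ((∑ j ∈ Finset.range D.n, ‖D.κ j‖) * θ) ∧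
    ‖exp (-(D.κ j * w))‖ ≤ Real.exp ((∑ j ∈ Finset.range D.n, ‖D.κ j‖) * θ) := by
  obtain ⟨-, h1, h2⟩ := hw
  have h3 : |(D.κ j).im| ≤ ∑ j ∈ Finset.range D.n, ‖D.κ j‖ :=
    (Complex.abs_im_le_norm _).trans
      (Finset.single_le_sum (f := fun j => ‖D.κ j‖) (fun _ _ => norm_nonneg _) hj)
  have h4 : |(D.κ j).im * w.im| ≤ (∑ j ∈ Finset.range D.n, ‖D.κ j‖) * θ := by
    rw [abs_mul, abs_of_nonneg h1]
    exact mul_le_mul h3 h2 h1 ((abs_nonneg _).trans h3)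
  have h5 := abs_le.1 h4
  have h6 : (D.κ j * w).re = -((D.κ j).im * w.im) := by
    rw [Complex.mul_re, D.re_κ]
    ring
  constructor
  · rw [Complex.norm_exp, h6]
    exact Real.exp_le_exp.2 (by linarith)
  · rw [Complex.norm_exp, Complex.neg_re, h6]
    exact Real.exp_le_exp.2 (by linarith)

theorem G_bd (θ : ℝ) : ∃ C : ℝ, 0 ≤ C ∧ ∀ v : ι → ℂ, ∀ w ∈ strip θ,
    ‖D.X w *ᵥ v‖ ≤ C * ‖D.Z v w‖ := by
  choose c hc0 hc using fun j => exists_bd (D.ε j)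
  refine ⟨∑ j ∈ Finset.range D.n,
    Real.exp ((∑ j ∈ Finset.range D.n, ‖D.κ j‖) * θ) * c j, ?_, fun v w hw => ?_⟩
  · exact Finset.sum_nonneg fun j _ => mul_nonneg (Real.exp_pos _).le (hc0 j)
  · rw [D.G_eq v w, Finset.sum_mul]
    refine (norm_sum_le _ _).trans (Finset.sum_le_sum fun j hj => ?_)
    rw [norm_smul, D.E_eq hj v w, mul_assoc]
    exact mul_le_mul (D.exp_bd j hj hw).1 (hc j _) (norm_nonneg _) (Real.exp_pos _).le

theorem dE_bd (θ : ℝ) : ∃ C : ℝ, 0 ≤ C ∧ ∀ v : ι → ℂ, ∀ w ∈ strip θ,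
    (∀ j ∈ Finset.range D.n, ‖D.dE j v w‖ ≤ C * Real.exp w.re * ‖D.Z v w‖) ∧
    ‖∑ j ∈ Finset.range D.n, D.dE j v w‖ ≤ C * Real.exp w.re * ‖D.Z v w‖ := by
  choose c hc0 hc using fun j => exists_bd (D.ε j)
  obtain ⟨C1, hC1, hG⟩ := D.G_bd θ
  set m : ℝ := Real.exp ((∑ j ∈ Finset.range D.n, ‖D.κ j‖) * θ) with hm
  have hm0 : 0 ≤ m := (Real.exp_pos _).le
  set K' : ℝ := Fintype.card ι * |D.K| with hK'
  have hK0 : 0 ≤ K' := by positivity
  have hB : ∀ w ∈ strip θ, ∀ u : ι → ℂ, ‖D.B (exp w) *ᵥ u‖ ≤ K' * ‖u‖ := by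
    intro w hw u
    have h1 : ‖exp w‖ ≤ 1 := by
      rw [Complex.norm_exp, Real.exp_le_one_iff]
      exact hw.1
    exact mulVec_bd _ _ (fun p q => (D.hB _ h1 p q).trans (le_abs_self _)) (abs_nonneg _) u
  have key : ∀ v : ι → ℂ, ∀ w ∈ strip θ, ∀ j ∈ Finset.range D.n,
      ‖D.dE j v w‖ ≤ (m * c j * K' * C1) * Real.exp w.re * ‖D.Z v w‖ := by
    intro v w hw j hj
    unfold dE
    rw [norm_smul, norm_mul]
    have h1 := (D.exp_bd j hj hw).2
    have h2 : ‖exp w‖ = Real.exp w.re := Complex.norm_exp w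
    have h3 : ‖D.ε j *ᵥ (D.B (exp w) *ᵥ (D.X w *ᵥ v))‖ ≤ c j * (K' * (C1 * ‖D.Z v w‖)) := by
      refine (hc j _).trans (mul_le_mul_of_nonneg_left ?_ (hc0 j))
      exact (hB w hw _).trans (mul_le_mul_of_nonneg_left (hG v w hw) hK0)
    rw [h2]
    calc ‖exp (-(D.κ j * w))‖ * Real.exp w.re * ‖D.ε j *ᵥ (D.B (exp w) *ᵥ (D.X w *ᵥ v))‖
        ≤ m * Real.exp w.re * (c j * (K' * (C1 * ‖D.Z v w‖))) := by
          refine mul_le_mul (mul_le_mul_of_nonneg_right h1 (Real.exp_pos _).le) h3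
            (norm_nonneg _) (by positivity)
      _ = (m * c j * K' * C1) * Real.exp w.re * ‖D.Z v w‖ := by ring
  refine ⟨∑ j ∈ Finset.range D.n, m * c j * K' * C1, ?_, fun v w hw => ⟨fun j hj => ?_, ?_⟩⟩
  · exact Finset.sum_nonneg fun j _ => by have := hc0 j; positivity
  · refine (key v w hw j hj).trans ?_
    have h4 : m * c j * K' * C1 ≤ ∑ j ∈ Finset.range D.n, m * c j * K' * C1 :=
      Finset.single_le_sum (f := fun j => m * c j * K' * C1)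
        (fun j _ => by have := hc0 j; positivity) hj
    have h5 : 0 ≤ Real.exp w.re * ‖D.Z v w‖ := by positivity
    nlinarith
  · rw [Finset.sum_mul, Finset.sum_mul]
    exact (norm_sum_le _ _).trans (Finset.sum_le_sum fun j hj => key v w hw j hj)

/-- the horizontal estimate -/
theorem horiz {C : ℝ} (hC0 : 0 ≤ C)
    (hC : ∀ v : ι → ℂ, ∀ w ∈ strip 0,
      ‖∑ j ∈ Finset.range D.n, D.dE j v w‖ ≤ C * Real.exp w.re * ‖D.Z v w‖)
    (v : ι → ℂ) {x : ℝ} (hx : 0 < x) (hx1 : x ≤ 1) :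
    ‖D.Z v 0‖ ≤ ‖D.Z v (Real.log x)‖ * Real.exp C ∧
    ‖D.Z v (Real.log x)‖ ≤ ‖D.Z v 0‖ * Real.exp C := by
  have hd : ∀ y ∈ Set.Icc x 1, HasDerivAt (fun y : ℝ => D.Z v (Real.log y))
      (((y⁻¹ : ℝ) : ℂ) • ∑ j ∈ Finset.range D.n, D.dE j v (Real.log y)) y := by
    intro y hy
    have hy0 : 0 < y := hx.trans_le hy.1
    have h1 : HasDerivAt (fun y : ℝ => ((Real.log y : ℝ) : ℂ)) ((y⁻¹ : ℝ) : ℂ) y :=
      (Real.hasDerivAt_log hy0.ne').ofReal_comp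
    have h2 : ((Real.log y : ℝ) : ℂ).re ≤ 0 := by
      rw [Complex.ofReal_re]
      exact Real.log_nonpos hy0.le hy.2
    exact (D.hasDerivAt_Z v h2).scomp y h1
  have hb : ∀ y ∈ Set.Icc x 1, ‖((y⁻¹ : ℝ) : ℂ) • ∑ j ∈ Finset.range D.n,
      D.dE j v (Real.log y)‖ ≤ C * ‖D.Z v (Real.log y)‖ := by
    intro y hy
    have hy0 : 0 < y := hx.trans_le hy.1
    have h1 : ((Real.log y : ℝ) : ℂ) ∈ strip 0 := by
      refine ⟨?_, ?_, ?_⟩
      · rw [Complex.ofReal_re]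
        exact Real.log_nonpos hy0.le hy.2
      · rw [Complex.ofReal_im]
      · rw [Complex.ofReal_im]
    have h2 := hC v _ h1
    rw [Complex.ofReal_re, Real.exp_log hy0] at h2
    rw [norm_smul, Complex.norm_real, Real.norm_of_nonneg (inv_nonneg.2 hy0.le)]
    calc y⁻¹ * ‖∑ j ∈ Finset.range D.n, D.dE j v (Real.log y)‖
        ≤ y⁻¹ * (C * y * ‖D.Z v (Real.log y)‖) :=
          mul_le_mul_of_nonneg_left h2 (inv_nonneg.2 hy0.le)
      _ = C * ‖D.Z v (Real.log y)‖ := by field_simp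
  have e1 : D.Z v ((Real.log 1 : ℝ) : ℂ) = D.Z v 0 := by simp
  have h3 : Real.exp (C * (1 - x)) ≤ Real.exp C := Real.exp_le_exp.2 (by nlinarith)
  have g1 := gron hx1 hd hb
  have g2 := gron' hx1 hd hb
  rw [e1] at g1 g2
  exact ⟨g1.trans (mul_le_mul_of_nonneg_left h3 (norm_nonneg _)),
    g2.trans (mul_le_mul_of_nonneg_left h3 (norm_nonneg _))⟩

/-- the vertical estimate -/
theorem vert (θ : ℝ) (hθ : 0 ≤ θ) (v : ι → ℂ) : ∃ C : ℝ, ∀ j ∈ Finset.range D.n,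
    ∀ x : ℝ, 0 < x → x ≤ 1 →
    ‖D.E j v (Real.log x + θ * I) - D.E j v (Real.log x)‖ ≤ C * x := by
  obtain ⟨C, hC0, hC⟩ := D.dE_bd θ
  have hsub : strip 0 ⊆ strip θ := fun w hw => ⟨hw.1, hw.2.1, hw.2.2.trans hθ⟩
  have hh := fun (x : ℝ) (hx : 0 < x) (hx1 : x ≤ 1) =>
    (D.horiz hC0 (fun v w hw => (hC v w (hsub hw)).2) v hx hx1).2
  refine ⟨C * (‖D.Z v 0‖ * Real.exp C * Real.exp (C * θ)) * θ, fun j hj x hx hx1 => ?_⟩
  have hst : ∀ τ ∈ Set.Icc 0 θ, ((Real.log x : ℝ) : ℂ) + (τ : ℂ) * I ∈ strip θ := by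
    intro τ hτ
    refine ⟨?_, ?_, ?_⟩
    · simpa using Real.log_nonpos hx.le hx1
    · simpa using hτ.1
    · simpa using hτ.2
  have hre : ∀ τ : ℝ, (((Real.log x : ℝ) : ℂ) + (τ : ℂ) * I).re = Real.log x := by
    intro τ
    simp
  have hpath : ∀ τ : ℝ, HasDerivAt (fun τ : ℝ => ((Real.log x : ℝ) : ℂ) + (τ : ℂ) * I) I τ := by
    intro τ
    have h1 : HasDerivAt (fun τ : ℝ => (τ : ℂ)) 1 τ := by
      simpa using (hasDerivAt_id τ).ofReal_comp
    simpa using (h1.mul_const I).const_add ((Real.log x : ℝ) : ℂ)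
  -- bound for `Z` on the vertical segment
  have hZ : ∀ τ ∈ Set.Icc 0 θ, ‖D.Z v (Real.log x + τ * I)‖ ≤
      ‖D.Z v 0‖ * Real.exp C * Real.exp (C * θ) := by
    intro τ hτ
    have hd : ∀ y ∈ Set.Icc 0 τ, HasDerivAt (fun y : ℝ => D.Z v (Real.log x + y * I))
        (I • ∑ j ∈ Finset.range D.n, D.dE j v (Real.log x + y * I)) y := by
      intro y hy
      exact (D.hasDerivAt_Z v (hst y ⟨hy.1, hy.2.trans hτ.2⟩).1).scomp y (hpath y)
    have hb : ∀ y ∈ Set.Icc 0 τ, ‖I • ∑ j ∈ Finset.range D.n,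
        D.dE j v (Real.log x + y * I)‖ ≤ C * ‖D.Z v (Real.log x + y * I)‖ := by
      intro y hy
      have h2 := (hC v _ (hst y ⟨hy.1, hy.2.trans hτ.2⟩)).2
      rw [hre, Real.exp_log hx] at h2
      rw [norm_smul, Complex.norm_I, one_mul]
      refine h2.trans (mul_le_mul_of_nonneg_right ?_ (norm_nonneg _))
      nlinarith
    have g1 := gron hτ.1 hd hb
    have e0 : D.Z v (Real.log x + ((0 : ℝ) : ℂ) * I) = D.Z v (Real.log x) := by simp
    rw [e0] at g1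
    refine g1.trans (mul_le_mul (hh x hx hx1) (Real.exp_le_exp.2 ?_) (Real.exp_pos _).le
      (by positivity))
    have := hτ.2
    nlinarith
  have hd : ∀ y ∈ Set.Icc 0 θ, HasDerivWithinAt (fun y : ℝ => D.E j v (Real.log x + y * I))
      (I • D.dE j v (Real.log x + y * I)) (Set.Icc 0 θ) y := by
    intro y hy
    exact ((D.hasDerivAt_E hj v (hst y hy).1).scomp y (hpath y)).hasDerivWithinAt
  have hb : ∀ y ∈ Set.Ico 0 θ, ‖I • D.dE j v (Real.log x + y * I)‖ ≤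
      C * x * (‖D.Z v 0‖ * Real.exp C * Real.exp (C * θ)) := by
    intro y hy
    have hy' : y ∈ Set.Icc 0 θ := ⟨hy.1, hy.2.le⟩
    have h2 := (hC v _ (hst y hy')).1 j hj
    rw [hre, Real.exp_log hx] at h2
    rw [norm_smul, Complex.norm_I, one_mul]
    exact h2.trans (mul_le_mul_of_nonneg_left (hZ y hy') (by positivity))
  have h3 := norm_image_sub_le_of_norm_deriv_le_segment' hd hb θ ⟨hθ, le_rfl⟩
  have e0 : D.E j v (Real.log x + ((0 : ℝ) : ℂ) * I) = D.E j v (Real.log x) := by simp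
  rw [e0] at h3
  refine h3.trans (le_of_eq ?_)
  ring

/-- **The core.** -/
theorem main (θ : ℝ) (hθ : 0 ≤ θ) (S T : Matrix ι ι ℂ) (σ : ℕ → ℂ)
    (hS : ∀ j ∈ Finset.range D.n, D.ε j * S = σ j • D.ε j)
    (hT : ∀ w : ℂ, w.re ≤ 0 → D.X (w + θ * I) * T = S * D.X w) (h0 : IsUnit (D.X 0))
    (P : Polynomial ℂ)
    (hP : ∀ j ∈ Finset.range D.n,
      (Polynomial.X - Polynomial.C (σ j * exp (-(D.κ j * (θ * I))))) ∣ P) :
    Polynomial.aeval T P = 0 := by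
  -- the components of `(T - λ_j) u` are small
  have key : ∀ j ∈ Finset.range D.n, ∀ u : ι → ℂ, ∃ C : ℝ, ∀ x : ℝ, 0 < x → x ≤ 1 →
      ‖D.E j (T *ᵥ u - (σ j * exp (-(D.κ j * (θ * I)))) • u) (Real.log x)‖ ≤ C * x := by
    intro j hj u
    obtain ⟨C, hC⟩ := D.vert θ hθ (T *ᵥ u)
    refine ⟨C, fun x hx hx1 => ?_⟩
    have h1 := hC j hj x hx hx1
    have h2 : D.E j (T *ᵥ u) (Real.log x + θ * I) =
        (σ j * exp (-(D.κ j * (θ * I)))) • D.E j u (Real.log x) := by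
      unfold E
      have h3 : ((Real.log x : ℝ) : ℂ).re ≤ 0 := by
        rw [Complex.ofReal_re]
        exact Real.log_nonpos hx.le hx1
      rw [Matrix.mulVec_mulVec u (D.X (Real.log x + θ * I)) T, hT _ h3,
        Matrix.mulVec_mulVec u (D.ε j) (S * D.X (Real.log x)), ← Matrix.mul_assoc, hS j hj,
        Matrix.smul_mul, Matrix.smul_mulVec, mul_add, neg_add, Complex.exp_add,
        ← Matrix.mulVec_mulVec u (D.ε j) (D.X (Real.log x)), smul_smul, smul_smul]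
      congr 1
      ring
    have h4 : D.E j (T *ᵥ u - (σ j * exp (-(D.κ j * (θ * I)))) • u) (Real.log x) =
        D.E j (T *ᵥ u) (Real.log x) -
          (σ j * exp (-(D.κ j * (θ * I)))) • D.E j u (Real.log x) := by
      unfold E
      rw [Matrix.mulVec_sub, Matrix.mulVec_sub, Matrix.mulVec_smul, Matrix.mulVec_smul, smul_sub,
        smul_comm]
    rw [h4, ← h2, norm_sub_rev]
    exact h1
  obtain ⟨C, hC0, hC⟩ := D.dE_bd 0
  have hvec : ∀ u : ι → ℂ, (Polynomial.aeval T P) *ᵥ u = 0 := by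
    intro u
    set y := (Polynomial.aeval T P) *ᵥ u with hy
    have h1 : ∀ j ∈ Finset.range D.n, ∃ C : ℝ, ∀ x : ℝ, 0 < x → x ≤ 1 →
        ‖D.E j y (Real.log x)‖ ≤ C * x := by
      intro j hj
      obtain ⟨Q, hQ⟩ := hP j hj
      obtain ⟨C, hC⟩ := key j hj ((Polynomial.aeval T Q) *ᵥ u)
      refine ⟨C, fun x hx hx1 => ?_⟩
      have h2 : y = T *ᵥ ((Polynomial.aeval T Q) *ᵥ u) -
          (σ j * exp (-(D.κ j * (θ * I)))) • ((Polynomial.aeval T Q) *ᵥ u) := by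
        rw [hy, hQ, map_mul, map_sub, Polynomial.aeval_X, Polynomial.aeval_C, sub_mul,
          Matrix.sub_mulVec, ← Matrix.mulVec_mulVec, ← Matrix.mulVec_mulVec,
          Algebra.algebraMap_eq_smul_one, Matrix.smul_mulVec, Matrix.one_mulVec]
      rw [h2]
      exact hC x hx hx1
    choose! c hc using h1
    have h2 : ∀ x : ℝ, 0 < x → x ≤ 1 → ‖D.Z y 0‖ ≤
        ((∑ j ∈ Finset.range D.n, c j) * Real.exp C) * x := by
      intro x hx hx1
      have h3 := (D.horiz hC0 (fun v w hw => (hC v w hw).2) y hx hx1).1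
      have h4 : ‖D.Z y (Real.log x)‖ ≤ (∑ j ∈ Finset.range D.n, c j) * x := by
        unfold Z
        rw [Finset.sum_mul]
        exact (norm_sum_le _ _).trans (Finset.sum_le_sum fun j hj => hc j hj x hx hx1)
      calc ‖D.Z y 0‖ ≤ ‖D.Z y (Real.log x)‖ * Real.exp C := h3
        _ ≤ ((∑ j ∈ Finset.range D.n, c j) * x) * Real.exp C :=
          mul_le_mul_of_nonneg_right h4 (Real.exp_pos _).le
        _ = _ := by ring
    have h5 : ‖D.Z y 0‖ ≤ 0 := by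
      by_contra h
      push Not at h
      set c' := (∑ j ∈ Finset.range D.n, c j) * Real.exp C with hc'
      have h6 := h2 1 one_pos le_rfl
      have h7 : 0 < c' := by linarith
      have h8 := h2 (min 1 (‖D.Z y 0‖ / (2 * c'))) (lt_min one_pos (by positivity)) (min_le_left _ _)
      have h9 : c' * min 1 (‖D.Z y 0‖ / (2 * c')) ≤ c' * (‖D.Z y 0‖ / (2 * c')) :=
        mul_le_mul_of_nonneg_left (min_le_right _ _) h7.le
      have h10 : c' * (‖D.Z y 0‖ / (2 * c')) = ‖D.Z y 0‖ / 2 := by field_simp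
      linarith
    have h6 : D.X 0 *ᵥ y = 0 := by
      have h7 : D.Z y 0 = D.X 0 *ᵥ y := by
        unfold Z E
        simp only [mul_zero, neg_zero, Complex.exp_zero, one_smul]
        rw [← Matrix.sum_mulVec, D.sum_ε, Matrix.one_mulVec]
      rw [← h7]
      exact norm_le_zero_iff.1 h5
    obtain ⟨U, hU⟩ := h0
    have h8 : (U⁻¹).1 *ᵥ (D.X 0 *ᵥ y) = y := by
      rw [Matrix.mulVec_mulVec, ← hU, Units.inv_mul, Matrix.one_mulVec]
    rw [← h8, h6, Matrix.mulVec_zero]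
  ext p q
  have h := congrFun (hvec (Pi.single q 1)) p
  simpa using h

end Dat

end

end Pool.Agent.CMF.LocMonX
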