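import Pool.Agent.CMF.G11

/-! Martino's conjecture (Rouquier families refine Calogero-Moser families) for all irreducible
complex reflection groups of rank 2, in particular the exceptional groups G4, ..., G22, at all
parameters with values in any field of characteristic zero. -/

namespace Pool.Agent.Results.MP_4af2a6_al.Plane

open Pool.Agent.CMFP

theorem result (G : Type) [Group G] [Fintype G] (K : Type) [Field K] [CharZero K]
    (V : G → Matrix (Fin 2) (Fin 2) K) (hV : IsReflGroup V)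
    (W : G → Matrix (Fin 2) (Fin 2) ℂ) (hW : IsReflGroup W)
    (F : Type) [Field F] [Algebra F K] [Algebra F ℂ]
    (hF : (algebraMap F ℂ).fieldRange = Subfield.closure (Set.range fun g => (W g).trace))
    (hVW : SameChar F V W) (Λ : Type) [Fintype Λ] (d : Λ → ℕ)
    (σ : ∀ l, G → Matrix (Fin (d l)) (Fin (d l)) K) (hσ : IsIrrFam d σ)
    (ρ : ∀ l, G → Matrix (Fin (d l)) (Fin (d l)) ℂ) (hρ : IsIrrFam d ρ)
    (hσρ : ∀ l, SameChar F (σ l) (ρ l))
    (v₀ : Fin 2 → ℂ) (hv₀ : Reg W v₀) (D : StdHk F W v₀ d) (hD : D.Specialises ρ)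
    (S : SchurForm F D.schurElt) (k κ : Idx W → K)
    (hκ : ∀ s hs j, κ (idx W s hs j) = k (idx W s hs (-j))) (χ ψ : Λ)
    (h : CMSep V (cPar W V k) (σ χ) (σ ψ)) :
    (∃ m : Idx W → ℤ, SameEssential S κ m) ∧
      ∀ m : Idx W → ℤ, SameEssential S κ m → D.RouSep m χ ψ :=
  plane_K G K V hV W hW F hF hVW Λ d σ hσ ρ hρ hσρ v₀ hv₀ D hD S k κ hκ χ ψ h

end Pool.Agent.Results.MP_4af2a6_al.Plane
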