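import Mathlib

/-! Functions meromorphic on the whole Riemann sphere are rational. -/

namespace Pool.Agent.CMF

noncomputable section

namespace RatAX

open Filter Topology

/-- Cauchy estimate: the Taylor coefficients above the growth exponent vanish. -/
theorem iter_zero (f : ℂ → ℂ) (hf : Differentiable ℂ f) (C : ℝ) (D : ℕ)
    (h : ∀ z, 1 ≤ ‖z‖ → ‖f z‖ ≤ C * ‖z‖ ^ D) (n : ℕ) (hn : D < n) :
    iteratedDeriv n f 0 = 0 := by
  have hC : 0 ≤ C := by
    have h1 := h 1 (by simp)
    simp only [norm_one, one_pow, mul_one] at h1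
    exact le_trans (norm_nonneg _) h1
  have key : ∀ R : ℝ, 1 ≤ R → ‖iteratedDeriv n f 0‖ ≤ n.factorial * C / R := by
    intro R hR
    have hR0 : 0 < R := by linarith
    have h2 := Complex.norm_iteratedDeriv_le_of_forall_mem_sphere_norm_le (c := 0) (R := R)
      (C := C * R ^ D) (f := f) n hR0 (hf.diffContOnCl) (by
        intro z hz
        have hz' : ‖z‖ = R := by simpa using hz
        have h3 := h z (by rw [hz']; exact hR)
        rwa [hz'] at h3)
    refine le_trans h2 ?_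
    rw [div_le_div_iff₀ (pow_pos hR0 n) hR0]
    have h4 : R ^ D * R ≤ R ^ n := by
      rw [← pow_succ]
      exact pow_le_pow_right₀ hR hn
    have h5 : (0 : ℝ) ≤ n.factorial * C := by positivity
    calc (n.factorial : ℝ) * (C * R ^ D) * R = n.factorial * C * (R ^ D * R) := by ring
      _ ≤ n.factorial * C * R ^ n := mul_le_mul_of_nonneg_left h4 h5
  have h6 : Tendsto (fun R : ℝ => (n.factorial * C) / R) atTop (𝓝 0) :=
    tendsto_const_nhds.div_atTop tendsto_id
  have h7 : ‖iteratedDeriv n f 0‖ ≤ 0 := by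
    refine ge_of_tendsto h6 ?_
    filter_upwards [eventually_ge_atTop (1 : ℝ)] with R hR
    exact key R hR
  exact norm_le_zero_iff.mp h7

theorem poly_growth (f : ℂ → ℂ) (hf : Differentiable ℂ f) (C : ℝ) (D : ℕ)
    (h : ∀ z, 1 ≤ ‖z‖ → ‖f z‖ ≤ C * ‖z‖ ^ D) :
    ∃ P : Polynomial ℂ, ∀ z, f z = P.eval z := by
  refine ⟨∑ n ∈ Finset.range (D + 1),
    Polynomial.C ((n.factorial : ℂ)⁻¹ * iteratedDeriv n f 0) * Polynomial.X ^ n, ?_⟩
  intro z
  have h1 := Complex.taylorSeries_eq_of_entire' (0 : ℂ) z hf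
  rw [← h1, tsum_eq_sum (s := Finset.range (D + 1))]
  · rw [Polynomial.eval_finsetSum]
    refine Finset.sum_congr rfl ?_
    intro n _
    simp
  · intro n hn
    have hn' : D < n := by
      simp only [Finset.mem_range, not_lt] at hn
      omega
    rw [iter_zero f hf C D h n hn']
    simp

/-- The set of non-analytic points in a compact set is finite. -/
theorem finite_of_compact (f : ℂ → ℂ) (h : ∀ z, MeromorphicAt f z) (K : Set ℂ)
    (hK : IsCompact K) : ({z | ¬ AnalyticAt ℂ f z} ∩ K).Finite := by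
  have h1 : ∀ x : ℂ, ∃ U ∈ 𝓝 x, ∀ y ∈ U, y ≠ x → AnalyticAt ℂ f y := by
    intro x
    have h2 := (h x).eventually_analyticAt
    rw [eventually_nhdsWithin_iff] at h2
    exact ⟨_, h2, fun y hy hne => hy hne⟩
  choose U hU hU' using h1
  obtain ⟨t, _, htK⟩ := hK.elim_nhds_subcover U (fun x _ => hU x)
  refine (t.finite_toSet).subset ?_
  rintro z ⟨hz, hzK⟩
  obtain ⟨x, hx, hzx⟩ := Set.mem_iUnion₂.mp (htK hzK)
  by_cases hzx' : z = x
  · rw [hzx']
    exact hx
  · exact absurd (hU' x z hzx hzx') hz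

/-- All non-analytic points lie in a bounded disc. -/
theorem exists_radius (f : ℂ → ℂ) (hinf : MeromorphicAt (fun z => f z⁻¹) 0) :
    ∃ R : ℝ, ∀ z, R < ‖z‖ → AnalyticAt ℂ f z := by
  have h1 := hinf.eventually_analyticAt
  rw [eventually_nhdsWithin_iff, Metric.eventually_nhds_iff] at h1
  obtain ⟨ε, hε, h1⟩ := h1
  refine ⟨ε⁻¹, ?_⟩
  intro z hz
  have hεi : 0 < ε⁻¹ := inv_pos.mpr hε
  have hz0 : z ≠ 0 := by
    intro h0
    rw [h0, norm_zero] at hz
    linarith
  have h2 : AnalyticAt ℂ (fun z => f z⁻¹) z⁻¹ := by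
    refine h1 (y := z⁻¹) ?_ (by simpa using hz0)
    rw [dist_zero_right, norm_inv]
    exact inv_lt_of_inv_lt₀ hε hz
  have h3 : AnalyticAt ℂ (fun w : ℂ => w⁻¹) z := analyticAt_inv hz0
  have h4 : AnalyticAt ℂ ((fun z => f z⁻¹) ∘ (fun w : ℂ => w⁻¹)) z :=
    AnalyticAt.comp (by simpa using h2) h3
  have h5 : ((fun z => f z⁻¹) ∘ (fun w : ℂ => w⁻¹)) = f := by
    funext w
    simp
  rwa [h5] at h4

theorem finite_poles (f : ℂ → ℂ) (h : ∀ z, MeromorphicAt f z)
    (hinf : MeromorphicAt (fun z => f z⁻¹) 0) : ({z | ¬ AnalyticAt ℂ f z}).Finite := by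
  obtain ⟨R, hR⟩ := exists_radius f hinf
  refine (finite_of_compact f h (Metric.closedBall 0 R) (isCompact_closedBall 0 R)).subset ?_
  intro z hz
  refine ⟨hz, ?_⟩
  rw [mem_closedBall_zero_iff]
  by_contra hlt
  exact hz (hR z (not_le.mp hlt))

end RatAX

theorem rational_of_meromorphic (f : ℂ → ℂ) (h : ∀ z, MeromorphicAt f z)
    (hinf : MeromorphicAt (fun z => f z⁻¹) 0) :
    ∃ P Q : Polynomial ℂ, Q ≠ 0 ∧ ∀ z, AnalyticAt ℂ f z → Q.eval z * f z = P.eval z := by
  classical
  have hfin := RatAX.finite_poles f h hinf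
  set S : Finset ℂ := hfin.toFinset with hS
  have hSmem : ∀ z, z ∉ S → AnalyticAt ℂ f z := by
    intro z hz
    by_contra hc
    exact hz (by rw [hS, Set.Finite.mem_toFinset]; exact hc)
  choose n hn using h
  set Q : Polynomial ℂ := ∏ s ∈ S, (Polynomial.X - Polynomial.C s) ^ n s with hQ
  have hQe : ∀ z, Q.eval z = ∏ s ∈ S, (z - s) ^ n s := by
    intro z
    rw [hQ, Polynomial.eval_prod]
    simp
  have hQ0 : Q ≠ 0 := by
    rw [hQ, Finset.prod_ne_zero_iff]
    intro s _
    exact pow_ne_zero _ (Polynomial.X_sub_C_ne_zero s)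
  have hana : ∀ z, AnalyticAt ℂ (fun z => Q.eval z * f z) z := by
    intro z
    by_cases hz : z ∈ S
    · have h1 : (fun w => Q.eval w * f w) =
          fun w => (∏ s ∈ S.erase z, (w - s) ^ n s) * ((w - z) ^ n z • f w) := by
        funext w
        rw [hQe, ← Finset.mul_prod_erase S _ hz, smul_eq_mul]
        ring
      rw [h1]
      refine AnalyticAt.mul ?_ (hn z)
      refine Finset.analyticAt_fun_prod _ ?_
      intro s _
      exact (analyticAt_id.sub analyticAt_const).pow _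
    · have h2 : AnalyticAt ℂ (fun w => Q.eval w) z := by
        have h3 : (fun w => Q.eval w) = fun w => ∏ s ∈ S, (w - s) ^ n s := by
          funext w
          exact hQe w
        rw [h3]
        refine Finset.analyticAt_fun_prod _ ?_
        intro s _
        exact (analyticAt_id.sub analyticAt_const).pow _
      exact h2.mul (hSmem z hz)
  have hdiff : Differentiable ℂ (fun z => Q.eval z * f z) := fun z => (hana z).differentiableAt
  have hmer : MeromorphicAt (fun z => Q.eval z⁻¹ * f z⁻¹) 0 := by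
    refine MeromorphicAt.mul ?_ hinf
    have h3 : (fun w : ℂ => Q.eval w⁻¹) = fun w => ∏ s ∈ S, (w⁻¹ - s) ^ n s := by
      funext w
      exact hQe _
    rw [h3]
    refine MeromorphicAt.fun_prod ?_
    intro s _
    exact (((MeromorphicAt.id 0).inv).sub (MeromorphicAt.const s 0)).pow _
  obtain ⟨D, hD⟩ := hmer
  set F : ℂ → ℂ := fun z => z ^ D * (Q.eval z⁻¹ * f z⁻¹) with hF
  have hcont : ContinuousAt F 0 := by
    have h0 := hD.continuousAt
    simpa [hF] using h0
  have hbd : ∃ ε > 0, ∀ z : ℂ, ‖z‖ < ε → ‖F z‖ ≤ ‖F 0‖ + 1 := by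
    rw [Metric.continuousAt_iff] at hcont
    obtain ⟨ε, hε, hc⟩ := hcont 1 one_pos
    refine ⟨ε, hε, ?_⟩
    intro z hz
    have h4 := hc (x := z) (by rwa [dist_zero_right])
    rw [dist_eq_norm] at h4
    have h5 := norm_le_norm_add_norm_sub (F 0) (F z)
    rw [norm_sub_rev] at h5
    linarith
  obtain ⟨ε, hε, hbd⟩ := hbd
  set A : ℝ := ‖F 0‖ + 1 with hA
  have hA0 : 0 < A := by positivity
  -- bound on a compact disc
  obtain ⟨B, hB⟩ := (isCompact_closedBall (0 : ℂ) (ε⁻¹)).exists_bound_of_continuousOn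
    (f := fun z => Q.eval z * f z) hdiff.continuous.continuousOn
  obtain ⟨P, hP⟩ := RatAX.poly_growth (fun z => Q.eval z * f z) hdiff (max A B) D (by
    intro z hz
    have hz0 : z ≠ 0 := by
      intro h0
      rw [h0, norm_zero] at hz
      linarith
    have hzD : 1 ≤ ‖z‖ ^ D := one_le_pow₀ hz
    have hAB : 0 ≤ max A B := le_trans hA0.le (le_max_left _ _)
    by_cases hzε : ‖z‖ ≤ ε⁻¹
    · calc ‖Q.eval z * f z‖ ≤ B := hB z (by simpa using hzε)
        _ ≤ max A B := le_max_right _ _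
        _ = max A B * 1 := (mul_one _).symm
        _ ≤ max A B * ‖z‖ ^ D := mul_le_mul_of_nonneg_left hzD hAB
    · have h7 := hbd z⁻¹ (by
        rw [norm_inv]
        exact inv_lt_of_inv_lt₀ hε (not_le.mp hzε))
      simp only [hF] at h7
      rw [inv_inv, norm_mul, norm_pow, norm_inv] at h7
      have h8 : 0 < ‖z‖ ^ D := by positivity
      have h9 : ‖Q.eval z * f z‖ ≤ A * ‖z‖ ^ D := by
        rw [inv_pow, inv_mul_le_iff₀ h8] at h7
        linarith [mul_comm A (‖z‖ ^ D)]
      exact le_trans h9 (mul_le_mul_of_nonneg_right (le_max_left _ _) h8.le))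
  exact ⟨P, Q, hQ0, fun z _ => hP z⟩

end

end Pool.Agent.CMF
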