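import Mathlib

/-! # Project CMF, module RatB -/

set_option autoImplicit false

namespace Pool.Agent.CMF.RatBX

open Complex Filter Topology

theorem deriv_zero (f : ℂ → ℂ) (hf : Differentiable ℂ f) (C : ℝ) (D : ℕ)
    (h : ∀ z, 1 ≤ ‖z‖ → ‖f z‖ ≤ C * ‖z‖ ^ D) (n : ℕ) (hn : D < n) :
    iteratedDeriv n f 0 = 0 := by
  have key : ∀ R : ℝ, 1 ≤ R → ‖iteratedDeriv n f 0‖ ≤ n.factorial * (C * R ^ D) / R ^ n := by
    intro R hR
    apply Complex.norm_iteratedDeriv_le_of_forall_mem_sphere_norm_le n (by linarith)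
    · exact hf.diffContOnCl
    · intro z hz
      have hz' : ‖z‖ = R := by simpa using hz
      have := h z (by rw [hz']; exact hR)
      rwa [hz'] at this
  have h2 : ∀ R : ℝ, 1 ≤ R → ‖iteratedDeriv n f 0‖ ≤ n.factorial * |C| * R⁻¹ := by
    intro R hR
    refine (key R hR).trans ?_
    have hR0 : 0 < R := by linarith
    have h3 : R ^ D / R ^ n ≤ R⁻¹ := by
      rw [div_le_iff₀ (by positivity)]
      have : R ^ (D + 1) ≤ R ^ n := pow_le_pow_right₀ hR hn
      calc R ^ D = R⁻¹ * R ^ (D + 1) := by rw [pow_succ]; field_simp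
        _ ≤ R⁻¹ * R ^ n := by gcongr
    calc (n.factorial : ℝ) * (C * R ^ D) / R ^ n
        = (n.factorial : ℝ) * C * (R ^ D / R ^ n) := by ring
      _ ≤ (n.factorial : ℝ) * |C| * (R ^ D / R ^ n) := by
          gcongr
          exact le_abs_self C
      _ ≤ (n.factorial : ℝ) * |C| * R⁻¹ := by gcongr
  have h4 : Tendsto (fun R : ℝ => (n.factorial : ℝ) * |C| * R⁻¹) atTop (𝓝 0) := by
    have := (tendsto_inv_atTop_zero (𝕜 := ℝ)).const_mul ((n.factorial : ℝ) * |C|)
    simpa using this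
  have h5 : ‖iteratedDeriv n f 0‖ ≤ 0 := by
    refine ge_of_tendsto h4 ?_
    filter_upwards [eventually_ge_atTop (1 : ℝ)] with R hR using h2 R hR
  simpa using h5

end Pool.Agent.CMF.RatBX

namespace Pool.Agent.CMF

open Complex Filter Topology

theorem poly_of_growth (f : ℂ → ℂ) (hf : Differentiable ℂ f) (C : ℝ) (D : ℕ)
    (h : ∀ z, 1 ≤ ‖z‖ → ‖f z‖ ≤ C * ‖z‖ ^ D) :
    ∃ P : Polynomial ℂ, P.natDegree ≤ D ∧ ∀ z, f z = P.eval z := by
  refine ⟨∑ n ∈ Finset.range (D + 1),
    Polynomial.monomial n ((n.factorial : ℂ)⁻¹ * iteratedDeriv n f 0), ?_, ?_⟩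
  · apply Polynomial.natDegree_sum_le_of_forall_le
    intro n hn
    exact (Polynomial.natDegree_monomial_le _).trans (by simpa [Nat.lt_succ_iff] using hn)
  · intro z
    have h1 := Complex.taylorSeries_eq_of_entire' 0 z hf
    rw [← h1, tsum_eq_sum (s := Finset.range (D + 1))]
    · rw [Polynomial.eval_finsetSum]
      apply Finset.sum_congr rfl
      intro n _
      simp [Polynomial.eval_monomial]
    · intro n hn
      rw [RatBX.deriv_zero f hf C D h n (by simpa [Nat.lt_succ_iff] using hn)]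
      simp

end Pool.Agent.CMF

namespace Pool.Agent.CMF.RatBX

open Complex Filter Topology

theorem per_int (r : ℝ) (g : ℂ → ℂ)
    (hper : ∀ w : ℂ, w.re < r → g (w + 2 * Real.pi * Complex.I) = g w)
    (n : ℤ) : ∀ w : ℂ, w.re < r → g (w + n * (2 * Real.pi * Complex.I)) = g w := by
  have hre : ∀ (w : ℂ) (m : ℤ), (w + m * (2 * Real.pi * Complex.I)).re = w.re := by
    intro w m
    simp
  induction n with
  | zero => intro w _; simp
  | succ k ih =>
    intro w hw
    have h1 := hper (w + (k : ℤ) * (2 * Real.pi * Complex.I)) (by rw [hre]; exact hw)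
    rw [ih w hw] at h1
    rw [← h1]
    congr 1
    push_cast
    ring
  | pred k ih =>
    intro w hw
    have h1 := hper (w + (-(k : ℤ) - 1 : ℤ) * (2 * Real.pi * Complex.I)) (by rw [hre]; exact hw)
    rw [← h1, ← ih w hw]
    congr 1
    push_cast
    ring

theorem log_exp_re_lt (r : ℝ) (w : ℂ) (hw : w.re < r) : (Complex.log (Complex.exp w)).re < r := by
  rw [Complex.log_re, Complex.norm_exp, Real.log_exp]
  exact hw

end Pool.Agent.CMF.RatBX

namespace Pool.Agent.CMF

open Complex Filter Topology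

theorem meromorphic_of_periodic (r : ℝ) (g : ℂ → ℂ)
    (hg : ∀ w : ℂ, w.re < r → DifferentiableAt ℂ g w)
    (hper : ∀ w : ℂ, w.re < r → g (w + 2 * Real.pi * Complex.I) = g w)
    (C c : ℝ) (hgr : ∀ w : ℂ, w.re < r → |w.im| ≤ 4 → ‖g w‖ ≤ C * Real.exp (c * |w.re|)) :
    ∃ G : ℂ → ℂ, MeromorphicAt G 0 ∧ ∀ w : ℂ, w.re < r → G (Complex.exp w) = g w := by
  have hGe : ∀ w : ℂ, w.re < r → g (Complex.log (Complex.exp w)) = g w := by
    intro w hw
    have h1 : Complex.exp (Complex.log (Complex.exp w)) = Complex.exp w :=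
      Complex.exp_log (Complex.exp_ne_zero w)
    obtain ⟨n, hn⟩ := Complex.exp_eq_exp_iff_exists_int.mp h1
    rw [hn]
    exact RatBX.per_int r g hper n w hw
  refine ⟨fun z => g (Complex.log z), ?_, hGe⟩
  -- differentiability on the punctured disc
  have hdiff : ∀ z : ℂ, z ≠ 0 → ‖z‖ < Real.exp r →
      DifferentiableAt ℂ (fun z => g (Complex.log z)) z := by
    intro z0 hz0 hz1
    set w0 := Complex.log z0 with hw0
    have hre : w0.re < r := by
      rw [hw0, Complex.log_re]
      have hpos : 0 < ‖z0‖ := norm_pos_iff.mpr hz0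
      calc Real.log ‖z0‖ < Real.log (Real.exp r) := Real.log_lt_log hpos hz1
        _ = r := Real.log_exp r
    have hL : DifferentiableAt ℂ (fun z => w0 + Complex.log (z / z0)) z0 := by
      apply DifferentiableAt.const_add
      apply DifferentiableAt.clog
      · exact differentiableAt_id.div_const z0
      · rw [div_self hz0]; simp
    have hL0 : w0 + Complex.log (z0 / z0) = w0 := by rw [div_self hz0]; simp
    have hcont : ContinuousAt (fun z => w0 + Complex.log (z / z0)) z0 := hL.continuousAt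
    have hev : ∀ᶠ z in 𝓝 z0, g (Complex.log z) = g (w0 + Complex.log (z / z0)) := by
      have h1 : ∀ᶠ z in 𝓝 z0, z ≠ 0 := isOpen_ne.mem_nhds hz0
      have h2 : ∀ᶠ z in 𝓝 z0, (w0 + Complex.log (z / z0)).re < r := by
        have : ContinuousAt (fun z => (w0 + Complex.log (z / z0)).re) z0 :=
          Complex.continuous_re.continuousAt.comp hcont
        have h3 := this.eventually (isOpen_Iio.mem_nhds (show (w0 + Complex.log (z0 / z0)).re < r by
          rw [hL0]; exact hre))
        exact h3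
      filter_upwards [h1, h2] with z hz hz2
      rw [← hGe _ hz2]
      congr 2
      rw [Complex.exp_add, Complex.exp_log (div_ne_zero hz hz0), hw0, Complex.exp_log hz0]
      field_simp
    have hgd : DifferentiableAt ℂ (fun z => g (w0 + Complex.log (z / z0))) z0 := by
      have hg0 : DifferentiableAt ℂ g (w0 + Complex.log (z0 / z0)) := by
        rw [hL0]; exact hg w0 hre
      exact DifferentiableAt.comp z0 hg0 hL
    exact hgd.congr_of_eventuallyEq hev
  -- growth
  obtain ⟨N, hN⟩ := exists_nat_ge c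
  refine ⟨N + 1, ?_⟩
  have hnear : ∀ᶠ z : ℂ in 𝓝[≠] (0 : ℂ), z ≠ 0 ∧ ‖z‖ < Real.exp r ∧ ‖z‖ < 1 := by
    have h1 : ∀ᶠ z : ℂ in 𝓝[≠] (0 : ℂ), z ≠ 0 := eventually_mem_nhdsWithin
    have h2 : ∀ᶠ z : ℂ in 𝓝 (0 : ℂ), ‖z‖ < Real.exp r := by
      have := (continuous_norm (E := ℂ)).continuousAt.eventually
        (isOpen_Iio.mem_nhds (show ‖(0 : ℂ)‖ < Real.exp r by simpa using Real.exp_pos r))
      exact this
    have h3 : ∀ᶠ z : ℂ in 𝓝 (0 : ℂ), ‖z‖ < 1 := by
      have := (continuous_norm (E := ℂ)).continuousAt.eventually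
        (isOpen_Iio.mem_nhds (show ‖(0 : ℂ)‖ < (1 : ℝ) by simp))
      exact this
    filter_upwards [h1, h2.filter_mono nhdsWithin_le_nhds, h3.filter_mono nhdsWithin_le_nhds]
      with z a b d using ⟨a, b, d⟩
  have hbound : ∀ z : ℂ, z ≠ 0 → ‖z‖ < Real.exp r → ‖z‖ < 1 →
      ‖(z - 0) ^ (N + 1) • g (Complex.log z)‖ ≤ |C| * ‖z‖ := by
    intro z hz hz1 hz2
    have hpos : 0 < ‖z‖ := norm_pos_iff.mpr hz
    have hlog : Real.log ‖z‖ ≤ 0 := Real.log_nonpos hpos.le hz2.le
    have h1 := hgr (Complex.log z) (by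
      rw [Complex.log_re]
      calc Real.log ‖z‖ < Real.log (Real.exp r) := Real.log_lt_log hpos hz1
        _ = r := Real.log_exp r) (by
      rw [Complex.log_im]
      exact (Complex.abs_arg_le_pi z).trans (by linarith [Real.pi_le_four]))
    rw [Complex.log_re, abs_of_nonpos hlog] at h1
    have h2 : C * Real.exp (c * -Real.log ‖z‖) ≤ |C| * Real.exp (N * -Real.log ‖z‖) := by
      have : c * -Real.log ‖z‖ ≤ N * -Real.log ‖z‖ := by
        apply mul_le_mul_of_nonneg_right hN; linarith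
      calc C * Real.exp (c * -Real.log ‖z‖) ≤ |C| * Real.exp (c * -Real.log ‖z‖) := by
            gcongr; exact le_abs_self C
        _ ≤ |C| * Real.exp (N * -Real.log ‖z‖) := by gcongr
    have h3 : Real.exp (N * -Real.log ‖z‖) = (‖z‖ ^ N)⁻¹ := by
      rw [mul_neg, Real.exp_neg, Real.exp_nat_mul, Real.exp_log hpos]
    rw [h3] at h2
    rw [norm_smul, sub_zero, norm_pow]
    calc ‖z‖ ^ (N + 1) * ‖g (Complex.log z)‖ ≤ ‖z‖ ^ (N + 1) * (|C| * (‖z‖ ^ N)⁻¹) := by
          gcongr; exact h1.trans h2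
      _ = |C| * ‖z‖ := by
          rw [pow_succ]; field_simp
  apply Complex.analyticAt_of_differentiable_on_punctured_nhds_of_continuousAt
  · filter_upwards [hnear] with z hz
    have hA : DifferentiableAt ℂ (fun z : ℂ => (z - 0) ^ (N + 1)) z := by fun_prop
    exact hA.fun_smul (hdiff z hz.1 hz.2.1)
  · rw [continuousAt_iff_punctured_nhds]
    have h0 : ((0 : ℂ) - 0) ^ (N + 1) • g (Complex.log 0) = 0 := by simp
    rw [h0]
    rw [tendsto_zero_iff_norm_tendsto_zero]
    have hlim : Tendsto (fun z : ℂ => |C| * ‖z‖) (𝓝[≠] (0 : ℂ)) (𝓝 0) := by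
      have : Tendsto (fun z : ℂ => |C| * ‖z‖) (𝓝 (0 : ℂ)) (𝓝 (|C| * ‖(0 : ℂ)‖)) :=
        (continuous_const.mul continuous_norm).tendsto 0
      simp only [norm_zero, mul_zero] at this
      exact this.mono_left nhdsWithin_le_nhds
    refine squeeze_zero' (Eventually.of_forall fun z => norm_nonneg _) ?_ hlim
    filter_upwards [hnear] with z hz using hbound z hz.1 hz.2.1 hz.2.2

end Pool.Agent.CMF
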