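import Pool.Agent.CMF.DDefs

/-! Project CMF: data for the algebraicity of flat subbundles on a slice. -/

namespace Pool.Agent.CMF

open Matrix

/-- `X` (defined up to right multiplication by invertible matrices) extends along the
logarithmic coordinate `w ↦ e w`, `Re w < r`, with at most exponential growth in `w`. -/
def PunctAt {ι : Type} [Fintype ι] [DecidableEq ι] {m : ℕ} (A : Finset ℂ)
    (X : ℂ → Matrix ι (Fin m) ℂ) (e : ℂ → ℂ) : Prop :=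
  ∃ (r : ℝ) (Φ : ℂ → Matrix ι ι ℂ) (X₁ : Matrix ι (Fin m) ℂ) (C₀ : Matrix ι ι ℂ) (C c : ℝ),
    (∀ w : ℂ, w.re < r → e w ∉ A) ∧
    (∀ w : ℂ, w.re < r → ∀ p q, DifferentiableAt ℂ (fun w => Φ w p q) w) ∧
    (∀ w : ℂ, w.re < r → IsUnit (Φ w)) ∧
    (∀ w : ℂ, w.re < r → Φ (w + 2 * Real.pi * Complex.I) = Φ w * C₀) ∧
    (∀ w : ℂ, w.re < r → ∀ p q, ‖Φ w p q‖ ≤ C * Real.exp (c * ‖w‖)) ∧
    (∀ w : ℂ, w.re < r → ∃ M : Matrix (Fin m) (Fin m) ℂ, IsUnit M ∧ X (e w) = Φ w * X₁ * M)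

/-- Local triviality of `X` (up to right multiplication) on `ℂ ∖ A`. -/
def LocTriv {ι : Type} [Fintype ι] [DecidableEq ι] {m : ℕ} (A : Finset ℂ)
    (X : ℂ → Matrix ι (Fin m) ℂ) : Prop :=
  ∀ z ∉ A, ∃ (r : ℝ) (F : ℂ → Matrix ι ι ℂ), 0 < r ∧ (∀ z' ∈ Metric.ball z r, z' ∉ A) ∧
    (∀ p q, DifferentiableOn ℂ (fun z' => F z' p q) (Metric.ball z r)) ∧
    (∀ z' ∈ Metric.ball z r, IsUnit (F z')) ∧
    ∀ z' ∈ Metric.ball z r, ∃ M : Matrix (Fin m) (Fin m) ℂ, IsUnit M ∧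
      X z' = F z' * (F z)⁻¹ * X z * M

end Pool.Agent.CMF
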