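import Pool.Agent.CMF.SDefs
import Pool.Agent.CMF.Curve
import Pool.Agent.CMF.KZ
import Pool.Agent.CMF.Conn
import Pool.Agent.CMF.ODE1
import Pool.Agent.CMF.ODE2

/-! Project CMF, file Sec2: the flat subbundle on the slice `x = 1`. -/

namespace Pool.Agent.CMF

open Matrix

noncomputable section

namespace Sec2X

/-! ### Linear algebra -/

lemma exists_equiv {V W : Type} [AddCommGroup V] [Module ℂ V] [FiniteDimensional ℂ V]
    [AddCommGroup W] [Module ℂ W] (f g : V →ₗ[ℂ] W) (h : LinearMap.range f = LinearMap.range g) :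
    ∃ e : V →ₗ[ℂ] V, Function.Injective e ∧ g ∘ₗ e = f := by
  have hfg : ∀ v, f v ∈ LinearMap.range g := fun v => h ▸ LinearMap.mem_range_self f v
  let f' : V →ₗ[ℂ] LinearMap.range g := f.codRestrict _ hfg
  let g' : V →ₗ[ℂ] LinearMap.range g := g.rangeRestrict
  have hf' : LinearMap.range f' = ⊤ := by
    rw [LinearMap.range_eq_top]
    rintro ⟨w, hw⟩
    rw [← h] at hw
    obtain ⟨v, hv⟩ := hw
    exact ⟨v, Subtype.ext hv⟩
  have hg' : LinearMap.range g' = ⊤ := LinearMap.range_rangeRestrict g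
  obtain ⟨sg, hsg⟩ := g'.exists_rightInverse_of_surjective hg'
  obtain ⟨sf, hsf⟩ := f'.exists_rightInverse_of_surjective hf'
  have h1 := f'.finrank_range_add_finrank_ker
  have h2 := g'.finrank_range_add_finrank_ker
  rw [hf'] at h1
  rw [hg'] at h2
  have h3 : Module.finrank ℂ (LinearMap.ker f') = Module.finrank ℂ (LinearMap.ker g') := by omega
  let φ : LinearMap.ker f' ≃ₗ[ℂ] LinearMap.ker g' := LinearEquiv.ofFinrankEq _ _ h3
  have hk : ∀ v, v - sf (f' v) ∈ LinearMap.ker f' := by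
    intro v
    rw [LinearMap.mem_ker, map_sub]
    have : f' (sf (f' v)) = f' v := by
      have := congrArg (fun l => l (f' v)) hsf
      simpa using this
    rw [this, sub_self]
  let π : V →ₗ[ℂ] LinearMap.ker f' := (LinearMap.id - sf ∘ₗ f').codRestrict _ hk
  let e : V →ₗ[ℂ] V := (LinearMap.ker g').subtype ∘ₗ φ.toLinearMap ∘ₗ π + sg ∘ₗ f'
  have hge : ∀ v, g' (e v) = f' v := by
    intro v
    show g' (((φ (π v) : LinearMap.ker g') : V) + sg (f' v)) = f' v
    rw [map_add]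
    have h4 : g' ((φ (π v) : LinearMap.ker g') : V) = 0 := (φ (π v)).2
    have h5 : g' (sg (f' v)) = f' v := by
      have := congrArg (fun l => l (f' v)) hsg
      simpa using this
    rw [h4, h5, zero_add]
  refine ⟨e, ?_, ?_⟩
  · rw [injective_iff_map_eq_zero]
    intro v hv
    have h4 : f' v = 0 := by rw [← hge v, hv, map_zero]
    have h5 : e v = ((φ (π v) : LinearMap.ker g') : V) := by
      show ((φ (π v) : LinearMap.ker g') : V) + sg (f' v) = _
      rw [h4, map_zero, add_zero]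
    have h6 : φ (π v) = 0 := Subtype.ext (by rw [← h5, hv]; rfl)
    have h7 : π v = 0 := by
      have := congrArg φ.symm h6
      simpa using this
    have h8 : ((π v : LinearMap.ker f') : V) = v - sf (f' v) := rfl
    rw [h7, h4, map_zero, sub_zero] at h8
    exact h8.symm
  · ext v
    have := congrArg (fun z : LinearMap.range g => (z : W)) (hge v)
    exact this

lemma exists_unit {ι : Type} [Fintype ι] [DecidableEq ι] {m : ℕ} (X₀ : Matrix ι (Fin m) ℂ)
    (P : Matrix ι ι ℂ) (hP : IsUnit P) (h : ∃ M : Matrix (Fin m) (Fin m) ℂ, P * X₀ = X₀ * M) :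
    ∃ M : Matrix (Fin m) (Fin m) ℂ, IsUnit M ∧ P * X₀ = X₀ * M := by
  obtain ⟨M, hM⟩ := h
  have h1 : LinearMap.range (Matrix.toLin' (P * X₀)) ≤ LinearMap.range (Matrix.toLin' X₀) := by
    rw [hM, Matrix.toLin'_mul]
    exact LinearMap.range_comp_le_range _ _
  have hinj : Function.Injective (Matrix.toLin' P) := by
    have hu : IsUnit P.det := (Matrix.isUnit_iff_isUnit_det P).1 hP
    intro a b hab
    have := congrArg (fun v => P⁻¹ *ᵥ v) hab
    simpa [Matrix.nonsing_inv_mul _ hu] using this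
  have h2 : LinearMap.range (Matrix.toLin' (P * X₀)) = LinearMap.range (Matrix.toLin' X₀) := by
    apply Submodule.eq_of_le_of_finrank_eq h1
    rw [Matrix.toLin'_mul, LinearMap.range_comp]
    exact (Submodule.equivMapOfInjective (Matrix.toLin' P) hinj
      (LinearMap.range (Matrix.toLin' X₀))).finrank_eq.symm
  obtain ⟨e, he, hge⟩ := exists_equiv _ _ h2
  refine ⟨LinearMap.toMatrix' e, ?_, ?_⟩
  · rw [LinearMap.isUnit_toMatrix'_iff, LinearMap.isUnit_iff_ker_eq_bot]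
    exact LinearMap.ker_eq_bot.2 he
  · apply Matrix.toLin'.injective
    rw [← hge, Matrix.toLin'_mul, Matrix.toLin'_toMatrix']

/-! ### Paths and the monodromy -/

variable {N : SG} [Fintype N] {ι : Type} [Fintype ι] [DecidableEq ι] {v₀ : VReg N}

lemma PP_loop (hN : ∃ s ∈ N, IsRefl s) (ρ : N →* Matrix ι ι ℂ) (k : Idx N → ℂ)
    {m : ℕ} (X₀ : Matrix ι (Fin m) ℂ)
    (hΓ : ∀ b : Braid N v₀, ∃ M : Matrix (Fin m) (Fin m) ℂ, KZ hN ρ k b * X₀ = X₀ * M)
    (l : Path v₀ v₀) :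
    ∃ M : Matrix (Fin m) (Fin m) ℂ, (PP hN ρ k l.toContinuousMap)⁻¹ * X₀ = X₀ * M := by
  obtain ⟨M, hM⟩ := hΓ (Quotient.mk _ (BPath.ofPath 1 (l.cast rfl (one_smul _ _))))
  refine ⟨M, ?_⟩
  rw [KZ_mk] at hM
  have h1 : (BPath.ofPath (1 : N) (l.cast rfl (one_smul _ _))).f = l.toContinuousMap := rfl
  have h2 : (BPath.ofPath (1 : N) (l.cast rfl (one_smul _ _))).g = 1 := rfl
  rw [h1, h2, map_one, mul_one] at hM
  exact hM

/-- Two paths to the same point: the results differ by an invertible matrix. -/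
lemma PP_two (hN : ∃ s ∈ N, IsRefl s) (ρ : N →* Matrix ι ι ℂ) (k : Idx N → ℂ)
    {m : ℕ} (X₀ : Matrix ι (Fin m) ℂ)
    (hΓ : ∀ b : Braid N v₀, ∃ M : Matrix (Fin m) (Fin m) ℂ, KZ hN ρ k b * X₀ = X₀ * M)
    {v : VReg N} (q q' : Path v₀ v) :
    ∃ M : Matrix (Fin m) (Fin m) ℂ, IsUnit M ∧
      PP hN ρ k q'.toContinuousMap * X₀ = PP hN ρ k q.toContinuousMap * X₀ * M := by
  have hu := PP_unit hN ρ k q.toContinuousMap
  have hu' := PP_unit hN ρ k q'.toContinuousMap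
  have hud : IsUnit (PP hN ρ k q.toContinuousMap).det := (Matrix.isUnit_iff_isUnit_det _).1 hu
  have hud' : IsUnit (PP hN ρ k q'.toContinuousMap).det := (Matrix.isUnit_iff_isUnit_det _).1 hu'
  have h1 : (PP hN ρ k (q.trans q'.symm).toContinuousMap)⁻¹ =
      (PP hN ρ k q.toContinuousMap)⁻¹ * PP hN ρ k q'.toContinuousMap := by
    rw [PP_trans, PP_symm, Matrix.mul_inv_rev, Matrix.nonsing_inv_nonsing_inv _ hud']
  have h2 := PP_loop hN ρ k X₀ hΓ (q.trans q'.symm)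
  rw [h1] at h2
  have hP : IsUnit ((PP hN ρ k q.toContinuousMap)⁻¹ * PP hN ρ k q'.toContinuousMap) :=
    (Matrix.isUnit_nonsing_inv_iff.2 hu).mul hu'
  obtain ⟨M, hM, h3⟩ := exists_unit X₀ _ hP h2
  refine ⟨M, hM, ?_⟩
  have h4 : PP hN ρ k q.toContinuousMap * ((PP hN ρ k q.toContinuousMap)⁻¹ *
      PP hN ρ k q'.toContinuousMap * X₀) = PP hN ρ k q'.toContinuousMap * X₀ := by
    rw [← Matrix.mul_assoc, ← Matrix.mul_assoc, Matrix.mul_nonsing_inv _ hud, Matrix.one_mul]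
  rw [← h4, h3, Matrix.mul_assoc]

/-! ### The slice -/

/-- Good points of the slice. -/
def Good (N : SG) (z : ℂ) : Prop := ∀ g ∈ N, IsRefl g → g.1 *ᵥ ![1, z] ≠ ![1, z]

lemma dot1 (a : Fin 2 → ℂ) (z : ℂ) : a ⬝ᵥ ![1, z] = a 0 + a 1 * z := by
  simp [dotProduct, Fin.sum_univ_two]

lemma dot0 (a : Fin 2 → ℂ) (z : ℂ) : a ⬝ᵥ ![0, z] = a 1 * z := by
  simp [dotProduct, Fin.sum_univ_two]

lemma good_ne {z : ℂ} (h : Good N z) (H : Arr N) : lf H.1 0 + lf H.1 1 * z ≠ 0 := by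
  have := (vreg_iff (N := N) ![1, z]).1 h H
  rwa [dot1] at this

lemma bad_finite (N : SG) [Fintype N] : {z : ℂ | ¬ Good N z}.Finite := by
  refine (Set.finite_range (fun H : Arr N => -lf H.1 0 / lf H.1 1)).subset ?_
  intro z hz
  have h1 : ¬ ∀ H : Arr N, lf H.1 ⬝ᵥ ![1, z] ≠ 0 := fun h => hz ((vreg_iff _).2 h)
  push Not at h1
  obtain ⟨H, hH⟩ := h1
  rw [dot1] at hH
  have h2 : lf H.1 1 ≠ 0 := by
    intro h
    apply (lf_spec H).1
    rw [h, zero_mul, add_zero] at hH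
    funext i
    fin_cases i
    · exact hH
    · exact h
  refine ⟨H, ?_⟩
  show -lf H.1 0 / lf H.1 1 = z
  rw [div_eq_iff h2]
  linear_combination -hH

lemma rat_val (H : Submodule ℂ (Fin 2 → ℂ)) (y z : ℂ) :
    rat H ![0, y] ![1, z] = (lf H 1 * y) / (lf H 0 + lf H 1 * z) := by
  rw [rat, dot0, dot1]

lemma om_entry (ρ : N →* Matrix ι ι ℂ) (k : Idx N → ℂ) (v y : Fin 2 → ℂ) (p q : ι) :
    om ρ k v y p q = ∑ w : N, (cr k w * rat (fixL w.1) y v) * ρ w p q +
      (∑ H : Arr N, cs k H * rat H.1 y v) * (1 : Matrix ι ι ℂ) p q := by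
  simp [om, gau, Matrix.add_apply, Matrix.sum_apply, Matrix.smul_apply]

lemma rat_diff {U : Set ℂ} {e e' : ℂ → ℂ} (he : DifferentiableOn ℂ e U)
    (he' : DifferentiableOn ℂ e' U) (hA : ∀ w ∈ U, Good N (e w)) (H : Arr N) :
    DifferentiableOn ℂ (fun w => rat H.1 ![0, e' w] ![1, e w]) U := by
  simp only [rat_val]
  exact (he'.const_mul _).div ((he.const_mul _).const_add _) fun w hw => good_ne (hA w hw) H

omit [Fintype N] in
lemma cr_zero (k : Idx N → ℂ) (w : N) (h : ¬ IsRefl w.1) : cr k w = 0 := by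
  rw [cr, dif_neg h]

lemma om_diff (ρ : N →* Matrix ι ι ℂ) (k : Idx N → ℂ) {U : Set ℂ} {e e' : ℂ → ℂ}
    (he : DifferentiableOn ℂ e U) (he' : DifferentiableOn ℂ e' U)
    (hA : ∀ w ∈ U, Good N (e w)) (p q : ι) :
    DifferentiableOn ℂ (fun w => om ρ k ![1, e w] ![0, e' w] p q) U := by
  simp only [om_entry]
  refine DifferentiableOn.add ?_ ?_
  · refine DifferentiableOn.fun_sum fun g _ => ?_
    by_cases hg : IsRefl g.1
    · exact ((rat_diff he he' hA ⟨fixL g.1, g.1, g.2, hg, rfl⟩).const_mul _).mul_const _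
    · simp only [cr_zero k g hg, zero_mul]
      exact differentiableOn_const _
  · refine DifferentiableOn.mul_const ?_ _
    exact DifferentiableOn.fun_sum fun H _ => (rat_diff he he' hA H).const_mul _

lemma om_bound (ρ : N →* Matrix ι ι ℂ) (k : Idx N → ℂ) {U : Set ℂ} {e e' : ℂ → ℂ}
    (hb : ∀ w ∈ U, ∀ H : Arr N, ‖rat H.1 ![0, e' w] ![1, e w]‖ ≤ 2) :
    ∃ K : ℝ, ∀ w ∈ U, ∀ p q, ‖om ρ k ![1, e w] ![0, e' w] p q‖ ≤ K := by
  let K₁ : ι → ι → ℝ := fun p q => ∑ g : N, ‖cr k g‖ * 2 * ‖ρ g p q‖ +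
    (∑ H : Arr N, ‖cs k H‖ * 2) * ‖(1 : Matrix ι ι ℂ) p q‖
  have h0 : ∀ p q, 0 ≤ K₁ p q := fun p q => by positivity
  refine ⟨∑ p, ∑ q, K₁ p q, fun w hw p q => ?_⟩
  have h1 : ‖om ρ k ![1, e w] ![0, e' w] p q‖ ≤ K₁ p q := by
    rw [om_entry]
    refine (norm_add_le _ _).trans (add_le_add ?_ ?_)
    · refine (norm_sum_le _ _).trans (Finset.sum_le_sum fun g _ => ?_)
      rw [norm_mul, norm_mul]
      by_cases hg : IsRefl g.1
      · have := hb w hw ⟨fixL g.1, g.1, g.2, hg, rfl⟩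
        gcongr
      · simp [cr_zero k g hg]
    · rw [norm_mul]
      gcongr
      refine (norm_sum_le _ _).trans (Finset.sum_le_sum fun H _ => ?_)
      rw [norm_mul]
      have := hb w hw H
      gcongr
  have h2 : K₁ p q ≤ ∑ q, K₁ p q :=
    Finset.single_le_sum (f := fun q => K₁ p q) (fun q _ => h0 p q) (Finset.mem_univ q)
  have h3 : ∑ q, K₁ p q ≤ ∑ p, ∑ q, K₁ p q :=
    Finset.single_le_sum (f := fun p => ∑ q, K₁ p q)
      (fun p _ => Finset.sum_nonneg fun q _ => h0 p q) (Finset.mem_univ p)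
  exact h1.trans (h2.trans h3)

/-- Transport along a holomorphic curve in the slice. -/
lemma tr_slice (hN : ∃ s ∈ N, IsRefl s) (ρ : N →* Matrix ι ι ℂ) (k : Idx N → ℂ)
    {m : ℕ} (X₀ : Matrix ι (Fin m) ℂ)
    (hΓ : ∀ b : Braid N v₀, ∃ M : Matrix (Fin m) (Fin m) ℂ, KZ hN ρ k b * X₀ = X₀ * M)
    (X : ℂ → Matrix ι (Fin m) ℂ)
    (hX : ∀ (v : VReg N) (z : ℂ), v.1 = ![1, z] → ∃ q : Path v₀ v,
        X z = PP hN ρ k q.toContinuousMap * X₀)
    (U : Set ℂ) (hU : IsOpen U) (hc : Convex ℝ U) (e e' : ℂ → ℂ)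
    (he : ∀ w ∈ U, HasDerivAt e (e' w) w) (hA : ∀ w ∈ U, Good N (e w))
    (Φ : ℂ → Matrix ι ι ℂ)
    (hΦ : ∀ w ∈ U, ∀ p q, HasDerivAt (fun w => Φ w p q)
      ((om ρ k ![1, e w] ![0, e' w] * Φ w) p q) w)
    (hu : ∀ w ∈ U, IsUnit (Φ w)) (w : ℂ) (hw : w ∈ U) (w' : ℂ) (hw' : w' ∈ U) :
    ∃ M : Matrix (Fin m) (Fin m) ℂ, IsUnit M ∧
      X (e w') = Φ w' * (Φ w)⁻¹ * X (e w) * M := by
  let c : C(unitInterval, ℂ) := ⟨fun t => w + (t : ℝ) • (w' - w), by fun_prop⟩
  have hcU : ∀ t, c t ∈ U := by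
    intro t
    have h1 : c t = (1 - (t : ℝ)) • w + (t : ℝ) • w' := by
      show w + (t : ℝ) • (w' - w) = _
      rw [smul_sub, sub_smul, one_smul]
      abel
    rw [h1]
    exact hc hw hw' (by linarith [t.2.2]) t.2.1 (by ring)
  have hec : Continuous fun t : unitInterval => e (c t) := by
    rw [continuous_iff_continuousAt]
    intro t
    have h1 : ContinuousAt e (c t) := (he _ (hcU t)).continuousAt
    exact ContinuousAt.comp (f := fun t : unitInterval => c t) h1 c.continuous.continuousAt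
  let v : VReg N := ⟨![1, e w], hA w hw⟩
  let v' : VReg N := ⟨![1, e w'], hA w' hw'⟩
  let γ : C(unitInterval, VReg N) :=
    ⟨fun t => ⟨![1, e (c t)], hA _ (hcU t)⟩, by
      refine Continuous.subtype_mk ?_ _
      refine continuous_pi fun i => ?_
      fin_cases i
      · exact continuous_const
      · exact hec⟩
  have hc0 : c 0 = w := by
    show w + ((0 : unitInterval) : ℝ) • (w' - w) = w
    simp
  have hc1 : c 1 = w' := by
    show w + ((1 : unitInterval) : ℝ) • (w' - w) = w'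
    simp
  let p : Path v v' :=
    { toContinuousMap := γ
      source' := by
        apply Subtype.ext
        show ![1, e (c 0)] = ![1, e w]
        rw [hc0]
      target' := by
        apply Subtype.ext
        show ![1, e (c 1)] = ![1, e w']
        rw [hc1] }
  have hp : PP hN ρ k p.toContinuousMap = Φ w' * (Φ w)⁻¹ := by
    have := PP_curve hN ρ k U hU hc (fun w => ![1, e w]) (fun w => ![0, e' w])
      (fun w hw a => by
        fin_cases a
        · exact hasDerivAt_const w (1 : ℂ)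
        · exact he w hw) hA Φ hΦ hu γ c (fun t => ⟨hcU t, rfl⟩)
    rw [hc0, hc1] at this
    exact this
  obtain ⟨q, hq⟩ := hX v (e w) rfl
  obtain ⟨q', hq'⟩ := hX v' (e w') rfl
  obtain ⟨M, hM, h⟩ := PP_two hN ρ k X₀ hΓ (q.trans p) q'
  refine ⟨M, hM, ?_⟩
  rw [hq', h, PP_trans, hp, hq]
  simp only [Matrix.mul_assoc]

lemma good_compl (N : SG) [Fintype N] (A : Finset ℂ) (hA : ∀ z, z ∉ A ↔ Good N z) :
    IsOpen {z : ℂ | Good N z} := by
  have h1 : {z : ℂ | Good N z} = (A : Set ℂ)ᶜ := by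
    ext z
    show Good N z ↔ z ∉ (A : Set ℂ)
    rw [Finset.mem_coe]
    exact (hA z).symm
  rw [h1]
  exact A.finite_toSet.isClosed.isOpen_compl

/-- Local triviality. -/
lemma locTriv (hN : ∃ s ∈ N, IsRefl s) (ρ : N →* Matrix ι ι ℂ) (k : Idx N → ℂ)
    {m : ℕ} (X₀ : Matrix ι (Fin m) ℂ)
    (hΓ : ∀ b : Braid N v₀, ∃ M : Matrix (Fin m) (Fin m) ℂ, KZ hN ρ k b * X₀ = X₀ * M)
    (A : Finset ℂ) (hA : ∀ z, z ∉ A ↔ Good N z) (X : ℂ → Matrix ι (Fin m) ℂ)
    (hX : ∀ (v : VReg N) (z : ℂ), v.1 = ![1, z] → ∃ q : Path v₀ v,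
        X z = PP hN ρ k q.toContinuousMap * X₀) : LocTriv A X := by
  intro z hz
  obtain ⟨r, hr, hball⟩ := Metric.isOpen_iff.1 (good_compl N A hA) z ((hA z).1 hz)
  have hg : ∀ w ∈ Metric.ball z r, Good N ((fun w => w) w) := fun w hw => hball hw
  obtain ⟨F, hF0, hF, hFu⟩ := exists_ode (Metric.ball z r) Metric.isOpen_ball
    (convex_ball z r) z (Metric.mem_ball_self hr)
    (fun w => om ρ k ![1, w] ![0, (fun _ => (1 : ℂ)) w])
    (fun p q => om_diff ρ k (e := fun w => w) (e' := fun _ => 1) differentiableOn_id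
      (differentiableOn_const _) hg p q)
  refine ⟨r, F, hr, fun z' hz' => (hA z').2 (hball hz'), fun p q z' hz' =>
    (hF z' hz' p q).differentiableAt.differentiableWithinAt, hFu, fun z' hz' => ?_⟩
  exact tr_slice hN ρ k X₀ hΓ X hX (Metric.ball z r) Metric.isOpen_ball (convex_ball z r)
    (fun w => w) (fun _ => 1) (fun w _ => hasDerivAt_id w) hg F hF hFu z
    (Metric.mem_ball_self hr) z' hz'

/-- Behaviour at a puncture, in a logarithmic coordinate. -/
lemma punctAt (hN : ∃ s ∈ N, IsRefl s) (ρ : N →* Matrix ι ι ℂ) (k : Idx N → ℂ)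
    {m : ℕ} (X₀ : Matrix ι (Fin m) ℂ)
    (hΓ : ∀ b : Braid N v₀, ∃ M : Matrix (Fin m) (Fin m) ℂ, KZ hN ρ k b * X₀ = X₀ * M)
    (A : Finset ℂ) (hA : ∀ z, z ∉ A ↔ Good N z) (X : ℂ → Matrix ι (Fin m) ℂ)
    (hX : ∀ (v : VReg N) (z : ℂ), v.1 = ![1, z] → ∃ q : Path v₀ v,
        X z = PP hN ρ k q.toContinuousMap * X₀)
    (e e' : ℂ → ℂ) (r : ℝ) (he : ∀ w : ℂ, w.re < r → HasDerivAt e (e' w) w)
    (he' : ∀ w : ℂ, w.re < r → DifferentiableAt ℂ e' w)
    (hg : ∀ w : ℂ, w.re < r → Good N (e w))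
    (per : ∀ w : ℂ, e (w + 2 * Real.pi * Complex.I) = e w)
    (per' : ∀ w : ℂ, e' (w + 2 * Real.pi * Complex.I) = e' w)
    (hb : ∀ w : ℂ, w.re < r → ∀ H : Arr N, ‖rat H.1 ![0, e' w] ![1, e w]‖ ≤ 2) :
    PunctAt A X e := by
  let U : Set ℂ := {w : ℂ | w.re < r}
  have hUo : IsOpen U := isOpen_lt Complex.continuous_re continuous_const
  have hUc : Convex ℝ U := convex_halfSpace_re_lt r
  let w₀ : ℂ := ((r - 1 : ℝ) : ℂ)
  have hw₀ : w₀ ∈ U := by
    show ((r - 1 : ℝ) : ℂ).re < r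
    rw [Complex.ofReal_re]
    linarith
  obtain ⟨Φ, hΦ0, hΦ, hΦu⟩ := exists_ode U hUo hUc w₀ hw₀
    (fun w => om ρ k ![1, e w] ![0, e' w])
    (fun p q => om_diff ρ k (fun w hw => (he w hw).differentiableAt.differentiableWithinAt)
      (fun w hw => (he' w hw).differentiableWithinAt) hg p q)
  have hre : ∀ w : ℂ, (w + 2 * Real.pi * Complex.I).re = w.re := by
    intro w
    simp
  have hper : ∀ w ∈ U, w + 2 * Real.pi * Complex.I ∈ U := by
    intro w hw
    show (w + 2 * Real.pi * Complex.I).re < r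
    rw [hre]
    exact hw
  have hG : ∀ w ∈ U, ∀ p q, HasDerivAt
      (fun w => (fun w => Φ (w + 2 * Real.pi * Complex.I)) w p q)
      ((om ρ k ![1, e w] ![0, e' w] * (fun w => Φ (w + 2 * Real.pi * Complex.I)) w) p q) w := by
    intro w hw p q
    have h1 := hΦ _ (hper w hw) p q
    simp only [per, per'] at h1
    exact h1.comp_add_const w (2 * Real.pi * Complex.I)
  have hmon := ode_unique U hUo hUc (fun w => om ρ k ![1, e w] ![0, e' w]) Φ
    (fun w => Φ (w + 2 * Real.pi * Complex.I)) hΦ hG hΦu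
  obtain ⟨K, hK⟩ := om_bound ρ k (U := U) (e := e) (e' := e') hb
  obtain ⟨C, c, hC⟩ := ode_growth r (fun w => om ρ k ![1, e w] ![0, e' w]) Φ K
    (fun w hw p q => hK w hw p q) hΦ w₀ hw₀
  refine ⟨r, Φ, (Φ w₀)⁻¹ * X (e w₀), (Φ w₀)⁻¹ * Φ (w₀ + 2 * Real.pi * Complex.I),
    |C| * Real.exp (|c| * ‖w₀‖), |c|, fun w hw => (hA _).2 (hg w hw),
    fun w hw p q => (hΦ w hw p q).differentiableAt, hΦu, fun w hw => ?_, fun w hw p q => ?_,
    fun w hw => ?_⟩
  · have h1 := hmon w hw w₀ hw₀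
    have hd : IsUnit (Φ w).det := (Matrix.isUnit_iff_isUnit_det _).1 (hΦu w hw)
    beta_reduce at h1
    rw [← h1, ← Matrix.mul_assoc, Matrix.mul_nonsing_inv _ hd, Matrix.one_mul]
  · refine (hC w hw p q).trans ?_
    have h1 : ‖w - w₀‖ ≤ ‖w‖ + ‖w₀‖ := norm_sub_le _ _
    have h2 : c * ‖w - w₀‖ ≤ |c| * ‖w₀‖ + |c| * ‖w‖ := by
      calc c * ‖w - w₀‖ ≤ |c| * ‖w - w₀‖ :=
            mul_le_mul_of_nonneg_right (le_abs_self c) (norm_nonneg _)
        _ ≤ |c| * (‖w‖ + ‖w₀‖) := mul_le_mul_of_nonneg_left h1 (abs_nonneg c)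
        _ = |c| * ‖w₀‖ + |c| * ‖w‖ := by ring
    calc C * Real.exp (c * ‖w - w₀‖) ≤ |C| * Real.exp (c * ‖w - w₀‖) :=
          mul_le_mul_of_nonneg_right (le_abs_self C) (Real.exp_pos _).le
      _ ≤ |C| * Real.exp (|c| * ‖w₀‖ + |c| * ‖w‖) :=
          mul_le_mul_of_nonneg_left (Real.exp_le_exp.2 h2) (abs_nonneg C)
      _ = |C| * Real.exp (|c| * ‖w₀‖) * Real.exp (|c| * ‖w‖) := by
          rw [Real.exp_add, mul_assoc]
  · obtain ⟨M, hM, h⟩ := tr_slice hN ρ k X₀ hΓ X hX U hUo hUc e e' he hg Φ hΦ hΦu w₀ hw₀ w hw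
    exact ⟨M, hM, by rw [h]; simp only [Matrix.mul_assoc]⟩

lemma rat_bound (A : Finset ℂ) (hA : ∀ z, z ∉ A ↔ Good N z) {e e' : ℂ}
    (h : ∀ a ∈ A, ‖e'‖ ≤ 2 * ‖e - a‖) (H : Arr N) :
    ‖rat H.1 ![0, e'] ![1, e]‖ ≤ 2 := by
  rw [rat_val]
  by_cases h1 : lf H.1 1 = 0
  · rw [h1, zero_mul, zero_div, norm_zero]
    norm_num
  · have h2 : -lf H.1 0 / lf H.1 1 ∈ A := by
      by_contra hcon
      have h3 := good_ne ((hA _).1 hcon) H
      apply h3
      field_simp
      ring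
    have h4 : lf H.1 0 + lf H.1 1 * e = lf H.1 1 * (e - -lf H.1 0 / lf H.1 1) := by
      field_simp
      ring
    have h5 := h _ h2
    rw [h4, mul_div_mul_left _ _ h1, norm_div]
    refine div_le_of_le_mul₀ (norm_nonneg _) (by norm_num) h5

end Sec2X

open Sec2X in
/-- The flat subbundle generated by `Γ`, restricted to the slice `{(1,z)}`. -/
theorem slice_data {N : SG} [Fintype N] {ι : Type} [Fintype ι] [DecidableEq ι] {v₀ : VReg N}
    (hN : ∃ s ∈ N, IsRefl s) (ρ : N →* Matrix ι ι ℂ) (k : Idx N → ℂ)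
    {m : ℕ} (X₀ : Matrix ι (Fin m) ℂ)
    (hΓ : ∀ b : Braid N v₀, ∃ M : Matrix (Fin m) (Fin m) ℂ, KZ hN ρ k b * X₀ = X₀ * M) :
    ∃ (A : Finset ℂ) (X : ℂ → Matrix ι (Fin m) ℂ),
      (∀ z, z ∉ A ↔ ∀ g ∈ N, IsRefl g → g.1 *ᵥ ![1, z] ≠ ![1, z]) ∧
      (∀ (v : VReg N) (z : ℂ), v.1 = ![1, z] → ∃ q : Path v₀ v,
        X z = PP hN ρ k q.toContinuousMap * X₀) ∧
      LocTriv A X ∧ (∀ a ∈ A, PunctAt A X (fun w => a + Complex.exp w)) ∧
      PunctAt A X (fun w => Complex.exp (-w)) := by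
  classical
  let A : Finset ℂ := (bad_finite N).toFinset
  have hA : ∀ z, z ∉ A ↔ Good N z := by
    intro z
    rw [Set.Finite.mem_toFinset]
    exact not_not
  let X : ℂ → Matrix ι (Fin m) ℂ := fun z => if h : Good N z then
    PP hN ρ k (Classical.choice (vreg_path hN v₀ ⟨![1, z], h⟩)).toContinuousMap * X₀ else 0
  have hX : ∀ (v : VReg N) (z : ℂ), v.1 = ![1, z] → ∃ q : Path v₀ v,
      X z = PP hN ρ k q.toContinuousMap * X₀ := by
    rintro ⟨v, hv⟩ z rfl
    exact ⟨Classical.choice (vreg_path hN v₀ ⟨![1, z], hv⟩), dif_pos hv⟩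
  refine ⟨A, X, hA, hX, locTriv hN ρ k X₀ hΓ A hA X hX, fun a ha => ?_, ?_⟩
  · have h1 : IsClosed ((A.erase a : Finset ℂ) : Set ℂ) := (A.erase a).finite_toSet.isClosed
    have h2 : a ∈ (((A.erase a : Finset ℂ) : Set ℂ))ᶜ := by simp
    obtain ⟨ε, hε, hball⟩ := Metric.isOpen_iff.1 h1.isOpen_compl a h2
    have hd : ∀ a' ∈ A, a' ≠ a → ε ≤ ‖a - a'‖ := by
      intro a' ha' hne
      by_contra hcon
      push Not at hcon
      have h3 : a' ∈ Metric.ball a ε := by
        rw [Metric.mem_ball, dist_comm, dist_eq_norm]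
        exact hcon
      have h4 := hball h3
      exact h4 (Finset.mem_coe.2 (Finset.mem_erase.2 ⟨hne, ha'⟩))
    have hexp : ∀ w : ℂ, w.re < Real.log (ε / 2) → ‖Complex.exp w‖ < ε / 2 := by
      intro w hw
      rw [Complex.norm_exp, ← Real.lt_log_iff_exp_lt (by positivity)]
      exact hw
    have hgood : ∀ w : ℂ, w.re < Real.log (ε / 2) → Good N (a + Complex.exp w) := by
      intro w hw
      rw [← hA]
      intro hcon
      have h5 : a + Complex.exp w ≠ a := by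
        intro h
        exact Complex.exp_ne_zero w (by linear_combination h)
      have h6 := hd _ hcon h5
      have h7 : a - (a + Complex.exp w) = -Complex.exp w := by ring
      rw [h7, norm_neg] at h6
      have := hexp w hw
      linarith
    refine punctAt hN ρ k X₀ hΓ A hA X hX _ (fun w => Complex.exp w) (Real.log (ε / 2))
      (fun w _ => (Complex.hasDerivAt_exp w).const_add a)
      (fun w _ => (Complex.hasDerivAt_exp w).differentiableAt) hgood
      (fun w => by rw [Complex.exp_periodic w]) (fun w => Complex.exp_periodic w) ?_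
    intro w hw H
    refine rat_bound A hA (fun a' ha' => ?_) H
    by_cases hne : a' = a
    · rw [hne, add_sub_cancel_left]
      linarith [norm_nonneg (Complex.exp w)]
    · have h5 := hd a' ha' hne
      have h6 := hexp w hw
      have h7 : ‖a - a'‖ ≤ ‖a + Complex.exp w - a'‖ + ‖Complex.exp w‖ := by
        calc ‖a - a'‖ = ‖(a + Complex.exp w - a') - Complex.exp w‖ := by congr 1; ring
          _ ≤ _ := norm_sub_le _ _
      linarith [norm_nonneg (a + Complex.exp w - a')]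
  · obtain ⟨R, hR0, hR⟩ : ∃ R : ℝ, 0 < R ∧ ∀ a ∈ A, ‖a‖ ≤ R := by
      refine ⟨∑ a ∈ A, ‖a‖ + 1, by positivity, fun a ha => ?_⟩
      have := Finset.single_le_sum (f := fun a : ℂ => ‖a‖) (fun a _ => norm_nonneg a) ha
      linarith
    have hexp : ∀ w : ℂ, w.re < -Real.log (2 * R) → 2 * R < ‖Complex.exp (-w)‖ := by
      intro w hw
      rw [Complex.norm_exp, ← Real.log_lt_iff_lt_exp (by positivity), Complex.neg_re]
      linarith
    have hgood : ∀ w : ℂ, w.re < -Real.log (2 * R) → Good N (Complex.exp (-w)) := by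
      intro w hw
      rw [← hA]
      intro hcon
      have h1 := hR _ hcon
      have h2 := hexp w hw
      linarith
    have hder : ∀ w : ℂ, HasDerivAt (fun w => Complex.exp (-w)) (-Complex.exp (-w)) w := by
      intro w
      have h1 := (hasDerivAt_neg w).cexp
      simpa using h1
    have hperiod : ∀ w : ℂ, Complex.exp (-(w + 2 * Real.pi * Complex.I)) =
        Complex.exp (-w) := by
      intro w
      rw [neg_add, ← sub_eq_add_neg]
      exact Complex.exp_periodic.sub_eq (-w)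
    refine punctAt hN ρ k X₀ hΓ A hA X hX _ (fun w => -Complex.exp (-w)) (-Real.log (2 * R))
      (fun w _ => hder w) (fun w _ => (hder w).differentiableAt.neg) hgood
      hperiod (fun w => by rw [hperiod w]) ?_
    intro w hw H
    refine rat_bound A hA (fun a' ha' => ?_) H
    have h1 := hR a' ha'
    have h2 := hexp w hw
    have h3 : ‖Complex.exp (-w)‖ ≤ ‖Complex.exp (-w) - a'‖ + ‖a'‖ := by
      calc ‖Complex.exp (-w)‖ = ‖(Complex.exp (-w) - a') + a'‖ := by congr 1; ring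
        _ ≤ _ := norm_add_le _ _
    rw [norm_neg]
    linarith

end

end Pool.Agent.CMF
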