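import Pool.Agent.CMF.Curve
import Pool.Agent.CMF.MG
import Pool.Agent.CMF.Conn

/-! Project CMF, module Sec3: from the slice `x = 1` to the plane. -/

namespace Pool.Agent.CMF

open Matrix

noncomputable section

variable {N : SG} [Fintype N] {ι : Type} [Fintype ι] [DecidableEq ι] {v₀ : VReg N}

namespace Sec3X

omit [Fintype N] in
lemma reg_smul (v : Fin 2 → ℂ) (hv : ∀ g ∈ N, IsRefl g → g.1 *ᵥ v ≠ v) (c : ℂ) (hc : c ≠ 0) :
    ∀ g ∈ N, IsRefl g → g.1 *ᵥ (c • v) ≠ c • v := by
  intro s hs hr h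
  rw [Matrix.mulVec_smul] at h
  exact hv s hs hr (smul_right_injective _ hc h)

lemma rat_self (H : Arr N) (v : VReg N) : rat H.1 v.1 v.1 = 1 := by
  unfold rat
  exact div_self ((vreg_iff v.1).1 v.2 H)

lemma om_self (ρ : N →* Matrix ι ι ℂ) (k : Idx N → ℂ) (v : VReg N) :
    om ρ k v.1 v.1 = Ainf ρ k := by
  unfold om gau Ainf
  congr 1
  · refine Finset.sum_congr rfl fun w _ => ?_
    by_cases h : IsRefl w.1
    · have h1 : rat (fixL w.1) v.1 v.1 = 1 := rat_self ⟨fixL w.1, w.1, w.2, h, rfl⟩ v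
      rw [h1, mul_one]
    · have h0 : cr k w = 0 := by
        unfold cr
        rw [dif_neg h]
      rw [h0, zero_mul]
  · congr 1
    refine Finset.sum_congr rfl fun H _ => ?_
    rw [rat_self, mul_one]

end Sec3X

open Sec3X

open Complex in
/-- Scaling: `PP` along `t ↦ exp(t w) v` is `exp(w A_∞)` for diagonal `A_∞`. -/
theorem PP_scale (hN : ∃ s ∈ N, IsRefl s) (ρ : N →* Matrix ι ι ℂ) (k : Idx N → ℂ)
    (a : ι → ℂ) (hA : Ainf ρ k = Matrix.diagonal a) (w : ℂ) (γ : C(unitInterval, VReg N))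
    (h : ∀ t : unitInterval, (γ t).1 = exp ((t : ℝ) * w) • (γ 0).1) :
    PP hN ρ k γ = Matrix.diagonal (fun i => exp (w * a i)) := by
  have hreg : ∀ u : ℂ, ∀ s ∈ N, IsRefl s →
      s.1 *ᵥ (exp u • (γ 0).1) ≠ exp u • (γ 0).1 :=
    fun u => reg_smul (γ 0).1 (γ 0).2 _ (exp_ne_zero u)
  have hom : ∀ u : ℂ, om ρ k (exp u • (γ 0).1) (exp u • (γ 0).1) = Matrix.diagonal a := by
    intro u
    rw [← hA]
    exact om_self ρ k ⟨exp u • (γ 0).1, hreg u⟩
  have key := PP_curve hN ρ k Set.univ isOpen_univ convex_univ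
    (fun u => exp u • (γ 0).1) (fun u => exp u • (γ 0).1)
    (fun u _ b => by
      have h1 : HasDerivAt (fun w : ℂ => exp w * (γ 0).1 b) (exp u * (γ 0).1 b) u :=
        (hasDerivAt_exp u).mul_const _
      exact h1)
    (fun u _ => hreg u)
    (fun u => Matrix.diagonal fun i => exp (u * a i))
    (fun u _ p q => by
      have e1 : (om ρ k (exp u • (γ 0).1) (exp u • (γ 0).1) *
          (Matrix.diagonal fun i => exp (u * a i))) p q =
          if p = q then exp (u * a p) * a p else 0 := by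
        rw [hom u, Matrix.diagonal_mul_diagonal]
        by_cases hpq : p = q
        · subst hpq
          rw [Matrix.diagonal_apply_eq, if_pos rfl, mul_comm]
        · rw [Matrix.diagonal_apply_ne _ hpq, if_neg hpq]
      show HasDerivAt (fun w : ℂ => (Matrix.diagonal fun i => exp (w * a i)) p q)
        ((om ρ k (exp u • (γ 0).1) (exp u • (γ 0).1) *
          (Matrix.diagonal fun i => exp (u * a i))) p q) u
      rw [e1]
      by_cases hpq : p = q
      · subst hpq
        rw [if_pos rfl]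
        have e2 : (fun w : ℂ => (Matrix.diagonal fun i => exp (w * a i)) p p) =
            fun w : ℂ => exp (w * a p) := by
          funext w
          rw [Matrix.diagonal_apply_eq]
        rw [e2]
        have h2 : HasDerivAt (fun w : ℂ => w * a p) (1 * a p) u :=
          (hasDerivAt_id u).mul_const (a p)
        rw [one_mul] at h2
        exact h2.cexp
      · rw [if_neg hpq]
        have e2 : (fun w : ℂ => (Matrix.diagonal fun i => exp (w * a i)) p q) =
            fun _ : ℂ => (0 : ℂ) := by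
          funext w
          rw [Matrix.diagonal_apply_ne _ hpq]
        rw [e2]
        exact hasDerivAt_const u 0)
    (fun u _ => by
      rw [Matrix.isUnit_iff_isUnit_det, Matrix.det_diagonal, isUnit_iff_ne_zero]
      exact Finset.prod_ne_zero_iff.2 fun i _ => exp_ne_zero _)
    γ ⟨fun t => (t : ℝ) * w, by fun_prop⟩ (fun t => ⟨Set.mem_univ _, h t⟩)
  rw [key]
  have e3 : (Matrix.diagonal fun i => exp (((0 : unitInterval) : ℝ) * w * a i)) =
      (1 : Matrix ι ι ℂ) := by
    simp
  show (Matrix.diagonal fun i => exp ((((1 : unitInterval) : ℝ) : ℂ) * w * a i)) *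
    (Matrix.diagonal fun i => exp ((((0 : unitInterval) : ℝ) : ℂ) * w * a i))⁻¹ = _
  rw [e3, inv_one, mul_one]
  simp

namespace Sec3X

/-- The scaled point. -/
def scal (c : ℂ) (hc : c ≠ 0) (v : VReg N) : VReg N := ⟨c • v.1, reg_smul v.1 v.2 c hc⟩

open Complex in
/-- The scaling path. -/
def scalPath (v w : VReg N) (u : ℂ) (h : w.1 = exp u • v.1) : Path v w where
  toFun t := scal (exp ((t : ℝ) * u)) (exp_ne_zero _) v
  continuous_toFun := by
    refine Continuous.subtype_mk ?_ _
    fun_prop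
  source' := by
    apply Subtype.ext
    show exp ((((0 : unitInterval) : ℝ) : ℂ) * u) • v.1 = v.1
    simp
  target' := by
    apply Subtype.ext
    show exp ((((1 : unitInterval) : ℝ) : ℂ) * u) • v.1 = w.1
    rw [h]
    simp

/-- Homogenisation. -/
def homg (q : Polynomial ℂ) (M : ℕ) : MvPolynomial (Fin 2) ℂ :=
  ∑ j ∈ Finset.range (q.natDegree + 1),
    MvPolynomial.C (q.coeff j) * (MvPolynomial.X 0 ^ (M - j) * MvPolynomial.X 1 ^ j)

lemma eval_homg (q : Polynomial ℂ) (M : ℕ) (v : Fin 2 → ℂ) :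
    MvPolynomial.eval v (homg q M) =
      ∑ j ∈ Finset.range (q.natDegree + 1), q.coeff j * (v 0 ^ (M - j) * v 1 ^ j) := by
  unfold homg
  simp

lemma eval_homg_one (q : Polynomial ℂ) (M : ℕ) (z : ℂ) :
    MvPolynomial.eval ![1, z] (homg q M) = q.eval z := by
  rw [eval_homg, Polynomial.eval_eq_sum_range]
  refine Finset.sum_congr rfl fun j _ => ?_
  simp

lemma eval_homg_smul (q : Polynomial ℂ) (M : ℕ) (hM : q.natDegree ≤ M) (x z : ℂ) :
    MvPolynomial.eval (x • ![1, z]) (homg q M) = x ^ M * q.eval z := by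
  rw [eval_homg, Polynomial.eval_eq_sum_range, Finset.mul_sum]
  refine Finset.sum_congr rfl fun j hj => ?_
  have hj' : j ≤ M := by
    have := Finset.mem_range.1 hj
    omega
  have e : x ^ M = x ^ (M - j) * x ^ j := by
    rw [← pow_add]
    congr 1
    omega
  rw [e]
  simp [mul_pow]
  ring

open Complex in
/-- The main computation, at the points with non-zero first coordinate. -/
lemma homog_aux (hN : ∃ s ∈ N, IsRefl s) (ρ : N →* Matrix ι ι ℂ) (k : Idx N → ℂ)
    (κ : ℂ) (n : ι → ℤ) (hA : Ainf ρ k = Matrix.diagonal (fun i => κ + n i))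
    (Γ : Submodule ℂ (ι → ℂ)) (q : ι → Polynomial ℂ)
    (hq : ∀ (v : VReg N) (z : ℂ), v.1 = ![1, z] → ∀ p : Path v₀ v, ∃ x ∈ Γ,
      (fun i => (q i).eval z) = PP hN ρ k p.toContinuousMap *ᵥ x)
    (K : ℕ) (M : ι → ℕ) (hM : ∀ i, (M i : ℤ) = K + n i) (hd : ∀ i, (q i).natDegree ≤ M i)
    (w : VReg N) (hw : w.1 0 ≠ 0) (p : Path v₀ w) :
    ∃ x ∈ Γ, evE (fun i => homg (q i) (M i)) w.1 = PP hN ρ k p.toContinuousMap *ᵥ x := by
  obtain ⟨x, hx⟩ : ∃ x : ℂ, x = w.1 0 := ⟨_, rfl⟩
  obtain ⟨z, hz⟩ : ∃ z : ℂ, z = w.1 1 / w.1 0 := ⟨_, rfl⟩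
  have hx0 : x ≠ 0 := by rw [hx]; exact hw
  obtain ⟨u, hu⟩ : ∃ u : ℂ, exp u = x := ⟨log x, exp_log hx0⟩
  have hwz : w.1 = x • ![1, z] := by
    funext b
    fin_cases b
    · show w.1 0 = x * 1
      rw [hx, mul_one]
    · show w.1 1 = x * z
      rw [hx, hz, mul_div_cancel₀ _ hw]
  have hvreg : ∀ g ∈ N, IsRefl g → g.1 *ᵥ ![1, z] ≠ ![1, z] := by
    have h1 := reg_smul w.1 w.2 x⁻¹ (inv_ne_zero hx0)
    rw [hwz, smul_smul, inv_mul_cancel₀ hx0, one_smul] at h1
    exact h1
  obtain ⟨v, hv⟩ : ∃ v : VReg N, v.1 = ![1, z] := ⟨⟨![1, z], hvreg⟩, rfl⟩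
  have hwv : w.1 = exp u • v.1 := by rw [hu, hv, hwz]
  obtain ⟨γ, hγ⟩ : ∃ γ : Path v w, γ = scalPath v w u hwv := ⟨_, rfl⟩
  have hPγ : PP hN ρ k γ.toContinuousMap = Matrix.diagonal (fun i => exp (u * (κ + n i))) := by
    refine PP_scale hN ρ k _ hA u γ.toContinuousMap ?_
    intro t
    have e1 : γ.toContinuousMap t = scal (exp ((t : ℝ) * u)) (exp_ne_zero _) v := by
      rw [hγ]
      rfl
    have e2 : γ.toContinuousMap 0 = v := γ.source
    rw [e1, e2]
    rfl
  obtain ⟨y, hy, hyq⟩ := hq v z hv (p.trans γ.symm)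
  rw [PP_trans, PP_symm] at hyq
  refine ⟨(x ^ K * exp (-(u * κ))) • y, Γ.smul_mem _ hy, ?_⟩
  have hunit := PP_unit hN ρ k γ.toContinuousMap
  have hdet : IsUnit (PP hN ρ k γ.toContinuousMap).det := (Matrix.isUnit_iff_isUnit_det _).1 hunit
  have h3 : PP hN ρ k p.toContinuousMap *ᵥ y =
      PP hN ρ k γ.toContinuousMap *ᵥ (fun i => (q i).eval z) := by
    rw [hyq, Matrix.mulVec_mulVec, ← mul_assoc, Matrix.mul_nonsing_inv _ hdet, one_mul]
  rw [Matrix.mulVec_smul, h3, hPγ]
  funext i
  show MvPolynomial.eval w.1 (homg (q i) (M i)) = (x ^ K * exp (-(u * κ))) *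
    ((Matrix.diagonal (fun i => exp (u * (κ + n i))) *ᵥ (fun i => (q i).eval z)) i)
  rw [Matrix.mulVec_diagonal, hwz, eval_homg_smul _ _ (hd i)]
  have h4 : exp (u * (κ + n i)) = exp (u * κ) * x ^ (n i) := by
    rw [mul_add, exp_add, ← hu, ← exp_int_mul, mul_comm u (n i : ℂ)]
  have h5 : x ^ (M i) = x ^ K * x ^ (n i) := by
    rw [← zpow_natCast x (M i), hM i, zpow_add₀ hx0, zpow_natCast]
  have h6 : exp (-(u * κ)) * exp (u * κ) = 1 := by
    rw [← exp_add, neg_add_cancel, exp_zero]
  rw [h4, h5]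
  linear_combination (-(x ^ K * x ^ (n i) * (q i).eval z)) * h6

/-- The segment from `w` to `w + s e₀` inside a ball of regular points. -/
def segPath (w : VReg N) (r : ℝ) (hr : ∀ w' ∈ Metric.ball w.1 r, ∀ g ∈ N, IsRefl g → g.1 *ᵥ w' ≠ w')
    (d : Fin 2 → ℂ) (hd : ‖d‖ < r) : Path w ⟨w.1 + d, hr _ (by
      rw [Metric.mem_ball, dist_eq_norm, add_sub_cancel_left]; exact hd)⟩ where
  toFun t := ⟨w.1 + (((t : ℝ) : ℂ)) • d, hr _ (by
    rw [Metric.mem_ball, dist_eq_norm, add_sub_cancel_left, norm_smul, Complex.norm_real,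
      Real.norm_eq_abs, abs_of_nonneg t.2.1]
    exact lt_of_le_of_lt (mul_le_of_le_one_left (norm_nonneg _) t.2.2) hd)⟩
  continuous_toFun := by
    refine Continuous.subtype_mk ?_ _
    fun_prop
  source' := by
    apply Subtype.ext
    show w.1 + ((((0 : unitInterval) : ℝ) : ℂ)) • d = w.1
    simp
  target' := by
    apply Subtype.ext
    show w.1 + ((((1 : unitInterval) : ℝ) : ℂ)) • d = w.1 + d
    simp

end Sec3X

/-- Homogenisation of sections on the slice. -/
theorem homog_section (hN : ∃ s ∈ N, IsRefl s) (ρ : N →* Matrix ι ι ℂ) (k : Idx N → ℂ)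
    (κ : ℂ) (n : ι → ℤ) (hA : Ainf ρ k = Matrix.diagonal (fun i => κ + n i))
    (Γ : Submodule ℂ (ι → ℂ)) (hΓ : ∀ b : Braid N v₀, ∀ x ∈ Γ, KZ hN ρ k b *ᵥ x ∈ Γ)
    (q : ι → Polynomial ℂ)
    (hq : ∀ (v : VReg N) (z : ℂ), v.1 = ![1, z] → ∀ p : Path v₀ v, ∃ x ∈ Γ,
      (fun i => (q i).eval z) = PP hN ρ k p.toContinuousMap *ᵥ x) :
    ∃ f ∈ MG hN ρ k v₀ Γ, ∀ z, evE f ![1, z] = fun i => (q i).eval z := by
  obtain ⟨K, hK⟩ : ∃ K : ℕ, ∀ i, ((q i).natDegree : ℤ) ≤ K + n i := by
    refine ⟨∑ i, ((q i).natDegree + (n i).natAbs), fun i => ?_⟩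
    have h1 : (q i).natDegree + (n i).natAbs ≤ ∑ i, ((q i).natDegree + (n i).natAbs) :=
      Finset.single_le_sum (f := fun i => (q i).natDegree + (n i).natAbs)
        (fun _ _ => Nat.zero_le _) (Finset.mem_univ i)
    omega
  obtain ⟨M, hM⟩ : ∃ M : ι → ℕ, ∀ i, (M i : ℤ) = K + n i := by
    refine ⟨fun i => (K + n i).toNat, fun i => ?_⟩
    have h1 := hK i
    show (((K : ℤ) + n i).toNat : ℤ) = K + n i
    omega
  have hd : ∀ i, (q i).natDegree ≤ M i := by
    intro i
    have h1 := hK i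
    have h2 := hM i
    omega
  refine ⟨fun i => homg (q i) (M i), ?_, ?_⟩
  · intro w p
    by_cases hw : w.1 0 = 0
    · obtain ⟨r, F, hr0, hr, hF1, hFH, -⟩ := exists_frame hN ρ w
      have hF := hFH k
      have hFk := hF1 k
      -- the subspace
      obtain ⟨S, hS⟩ : ∃ S : Submodule ℂ (ι → ℂ),
          S = Γ.map (Matrix.mulVecLin (PP hN ρ k p.toContinuousMap)) := ⟨_, rfl⟩
      have hSc : IsClosed (S : Set (ι → ℂ)) := Submodule.closed_of_finiteDimensional S
      obtain ⟨d, hdef⟩ : ∃ d : ℂ → (Fin 2 → ℂ), d = fun s => s • ![1, 0] := ⟨_, rfl⟩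
      have hdc : Continuous d := by
        rw [hdef]
        fun_prop
      have hd0 : d 0 = 0 := by
        rw [hdef]
        simp
      have hFc : ∀ a b, ContinuousAt (fun s => F k (w.1 + d s) a b) 0 := by
        intro a b
        have h1 : DifferentiableAt ℂ (fun v => F k v a b) w.1 :=
          ((hF w.1 (Metric.mem_ball_self hr0)).2 a b).1
        have h2 : ContinuousAt (fun v => F k v a b) (w.1 + d 0) := by
          rw [hd0, add_zero]
          exact h1.continuousAt
        exact ContinuousAt.comp (f := fun s => w.1 + d s) (g := fun v => F k v a b) h2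
          (by fun_prop)
      have hFm : ContinuousAt (fun s => F k (w.1 + d s)) 0 := by
        have h1 : ContinuousAt (Y := ι → ι → ℂ) (fun s => F k (w.1 + d s)) 0 :=
          continuousAt_pi.2 fun a => continuousAt_pi.2 fun b => hFc a b
        exact h1
      have hadj : ContinuousAt (fun s => (F k (w.1 + d s)).adjugate) 0 :=
        ContinuousAt.comp (f := fun s => F k (w.1 + d s))
          (g := fun A : Matrix ι ι ℂ => A.adjugate)
          (Continuous.matrix_adjugate continuous_id).continuousAt hFm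
      have hev : Continuous (fun v : Fin 2 → ℂ => evE (fun i => homg (q i) (M i)) v) := by
        refine continuous_pi fun i => ?_
        show Continuous (fun v : Fin 2 → ℂ => MvPolynomial.eval v (homg (q i) (M i)))
        exact MvPolynomial.continuous_eval _
      have hevc : ContinuousAt (fun s => evE (fun i => homg (q i) (M i)) (w.1 + d s)) 0 :=
        (hev.comp (continuous_const.add hdc)).continuousAt
      have hu : ContinuousAt (fun s => (F k (w.1 + d s)).adjugate *ᵥ
          evE (fun i => homg (q i) (M i)) (w.1 + d s)) 0 := by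
        have h1 : Continuous (fun A : Matrix ι ι ℂ × (ι → ℂ) => A.1 *ᵥ A.2) :=
          Continuous.matrix_mulVec continuous_fst continuous_snd
        exact ContinuousAt.comp (f := fun s => ((F k (w.1 + d s)).adjugate,
          evE (fun i => homg (q i) (M i)) (w.1 + d s)))
          (g := fun A : Matrix ι ι ℂ × (ι → ℂ) => A.1 *ᵥ A.2) h1.continuousAt
          (hadj.prodMk hevc)
      have hmem : evE (fun i => homg (q i) (M i)) w.1 ∈ S := by
        have h1 : Filter.Tendsto (fun s => (F k (w.1 + d s)).adjugate *ᵥ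
            evE (fun i => homg (q i) (M i)) (w.1 + d s)) (nhdsWithin 0 {0}ᶜ)
            (nhds (evE (fun i => homg (q i) (M i)) w.1)) := by
          have h2 := hu.tendsto
          rw [hd0, add_zero, hFk, Matrix.adjugate_one, Matrix.one_mulVec] at h2
          exact h2.mono_left nhdsWithin_le_nhds
        refine hSc.mem_of_tendsto h1 ?_
        have h3 : ∀ᶠ s in nhds (0 : ℂ), ‖d s‖ < r := by
          have h4 : Filter.Tendsto (fun s => ‖d s‖) (nhds 0) (nhds 0) := by
            have := (hdc.norm).tendsto 0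
            rw [hd0, norm_zero] at this
            exact this
          exact h4.eventually (gt_mem_nhds hr0)
        filter_upwards [self_mem_nhdsWithin, nhdsWithin_le_nhds h3] with s hs0 hsr
        have hs0' : s ≠ 0 := hs0
        obtain ⟨ws, hws⟩ : ∃ ws : VReg N, ws = ⟨w.1 + d s, hr _ (by
          rw [Metric.mem_ball, dist_eq_norm, add_sub_cancel_left]; exact hsr)⟩ := ⟨_, rfl⟩
        subst hws
        obtain ⟨y, hy, hyq⟩ := homog_aux hN ρ k κ n hA Γ q hq K M hM hd
          ⟨w.1 + d s, hr _ (by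
            rw [Metric.mem_ball, dist_eq_norm, add_sub_cancel_left]; exact hsr)⟩
          (by
            show w.1 0 + d s 0 ≠ 0
            rw [hw, zero_add, hdef]
            show s * 1 ≠ 0
            rw [mul_one]
            exact hs0')
          (p.trans (segPath w r hr (d s) hsr))
        rw [PP_trans] at hyq
        have h5 : PP hN ρ k (segPath w r hr (d s) hsr).toContinuousMap =
            F k (w.1 + d s) := by
          have h6 := PP_local hN ρ k (Metric.ball w.1 r) Metric.isOpen_ball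
            (convex_ball w.1 r) (F k) hF (segPath w r hr (d s) hsr).toContinuousMap
            (by
              intro t
              show w.1 + (((t : ℝ) : ℂ)) • d s ∈ Metric.ball w.1 r
              rw [Metric.mem_ball, dist_eq_norm, add_sub_cancel_left, norm_smul,
                Complex.norm_real, Real.norm_eq_abs, abs_of_nonneg t.2.1]
              exact lt_of_le_of_lt (mul_le_of_le_one_left (norm_nonneg _) t.2.2) hsr)
          rw [h6]
          have e1 : ((segPath w r hr (d s) hsr).toContinuousMap 1).1 = w.1 + d s := by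
            have := (segPath w r hr (d s) hsr).target
            exact congrArg Subtype.val this
          have e0 : ((segPath w r hr (d s) hsr).toContinuousMap 0).1 = w.1 := by
            have := (segPath w r hr (d s) hsr).source
            exact congrArg Subtype.val this
          rw [e1, e0, hFk, inv_one, mul_one]
        rw [h5] at hyq
        have h7 : (F k (w.1 + d s)).adjugate *ᵥ
            evE (fun i => homg (q i) (M i)) (w.1 + d s) =
            (F k (w.1 + d s)).det • (PP hN ρ k p.toContinuousMap *ᵥ y) := by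
          have h8 : evE (fun i => homg (q i) (M i)) (w.1 + d s) =
              (F k (w.1 + d s) * PP hN ρ k p.toContinuousMap) *ᵥ y := hyq
          rw [h8, Matrix.mulVec_mulVec, ← mul_assoc, Matrix.adjugate_mul, Matrix.smul_mul,
            one_mul, Matrix.smul_mulVec]
        show (F k (w.1 + d s)).adjugate *ᵥ
            evE (fun i => homg (q i) (M i)) (w.1 + d s) ∈ S
        rw [h7, hS]
        exact Submodule.smul_mem _ _ ⟨y, hy, rfl⟩
      rw [hS] at hmem
      obtain ⟨y, hy, hyq⟩ := hmem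
      exact ⟨y, hy, hyq.symm⟩
    · exact homog_aux hN ρ k κ n hA Γ q hq K M hM hd w hw p
  · intro z
    funext i
    exact eval_homg_one (q i) (M i) z

end

end Pool.Agent.CMF
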