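import Pool.Agent.CMF.Sec1
import Pool.Agent.CMF.Sec2
import Pool.Agent.CMF.Sec3

/-! Project CMF, file Sec: polynomial sections generate the flat subbundle at some point. -/

namespace Pool.Agent.CMF

open Matrix

noncomputable section

variable {N : SG} [Fintype N] {ι : Type} [Fintype ι] [DecidableEq ι] {v₀ : VReg N}
variable (hN : ∃ s ∈ N, IsRefl s)

/-- If `A_∞` is diagonal with entries `κ + n_i`, `n_i ∈ ℤ`, the polynomial sections generate the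
flat subbundle at some point. -/
theorem exists_section (ρ : N →* Matrix ι ι ℂ) (k : Idx N → ℂ) (κ : ℂ) (n : ι → ℤ)
    (hA : Ainf ρ k = Matrix.diagonal (fun i => κ + n i)) (Γ : Submodule ℂ (ι → ℂ))
    (hΓ : ∀ b : Braid N v₀, ∀ x ∈ Γ, KZ hN ρ k b *ᵥ x ∈ Γ) :
    ∃ (v : VReg N) (p : Path v₀ v), ∀ x ∈ Γ, ∃ f ∈ MG hN ρ k v₀ Γ,
      evE f v.1 = PP hN ρ k p.toContinuousMap *ᵥ x := by
  -- a basis of `Γ`
  obtain ⟨m, ⟨B⟩⟩ : ∃ m : ℕ, Nonempty (Module.Basis (Fin m) ℂ Γ) :=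
    ⟨Module.finrank ℂ Γ, ⟨Module.finBasis ℂ Γ⟩⟩
  set X₀ : Matrix ι (Fin m) ℂ := Matrix.of fun i j => (B j : ι → ℂ) i with hX₀
  have hmul : ∀ c : Fin m → ℂ, X₀ *ᵥ c = ((∑ j, c j • B j : Γ) : ι → ℂ) := by
    intro c
    funext i
    simp only [hX₀, Matrix.mulVec, dotProduct, Matrix.of_apply, Submodule.coe_sum,
      Submodule.coe_smul, Finset.sum_apply, Pi.smul_apply, smul_eq_mul]
    exact Finset.sum_congr rfl fun j _ => mul_comm _ _
  have hmem : ∀ c : Fin m → ℂ, X₀ *ᵥ c ∈ Γ := by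
    intro c; rw [hmul]; exact Submodule.coe_mem _
  have hsur : ∀ x ∈ Γ, ∃ c : Fin m → ℂ, X₀ *ᵥ c = x := by
    intro x hx
    refine ⟨B.repr ⟨x, hx⟩, ?_⟩
    rw [hmul, B.sum_repr]
  have hinj : Function.Injective (fun c : Fin m → ℂ => X₀ *ᵥ c) := by
    intro c c' h
    have h1 : (∑ j, c j • B j : Γ) = ∑ j, c' j • B j := by
      apply Subtype.ext
      rw [← hmul, ← hmul]; exact h
    have h2 := congrArg (fun y => B.repr y) h1
    funext j
    have h3 := DFunLike.congr_fun h2 j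
    simpa [Finsupp.single_apply] using h3
  have hΓ' : ∀ b : Braid N v₀, ∃ M : Matrix (Fin m) (Fin m) ℂ,
      KZ hN ρ k b * X₀ = X₀ * M := by
    intro b
    have h1 : ∀ j : Fin m, ∃ c : Fin m → ℂ, X₀ *ᵥ c = KZ hN ρ k b *ᵥ (B j : ι → ℂ) :=
      fun j => hsur _ (hΓ b _ (Submodule.coe_mem _))
    choose c hc using h1
    refine ⟨Matrix.of fun i j => c j i, ?_⟩
    ext i j
    have h2 := congrFun (hc j) i
    simp only [Matrix.mul_apply, Matrix.of_apply, hX₀]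
    simp only [Matrix.mulVec, dotProduct, hX₀, Matrix.of_apply] at h2
    exact h2.symm
  obtain ⟨A, X, hA1, hX1, hlt, hp, hinf⟩ := slice_data hN ρ k X₀ hΓ'
  have hXinj : ∀ z ∉ A, Function.Injective (fun x : Fin m → ℂ => X z *ᵥ x) := by
    intro z hz x y hxy
    obtain ⟨q, hq⟩ := hX1 ⟨![1, z], fun g hg hr => (hA1 z).1 hz g hg hr⟩ z rfl
    have hu := (Matrix.isUnit_iff_isUnit_det _).1 (PP_unit hN ρ k q.toContinuousMap)
    apply hinj
    show X₀ *ᵥ x = X₀ *ᵥ y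
    have h1 : X z *ᵥ x = X z *ᵥ y := hxy
    rw [hq, ← Matrix.mulVec_mulVec, ← Matrix.mulVec_mulVec] at h1
    have h2 := congrArg (fun u => (PP hN ρ k q.toContinuousMap)⁻¹ *ᵥ u) h1
    simpa only [Matrix.mulVec_mulVec, ← Matrix.mul_assoc, Matrix.nonsing_inv_mul _ hu,
      Matrix.one_mul] using h2
  obtain ⟨q, hq, z₀, hz₀, C, hC, hqC⟩ := alg_span m A X hXinj hlt hp hinf
  set v : VReg N := ⟨![1, z₀], fun g hg hr => (hA1 z₀).1 hz₀ g hg hr⟩ with hv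
  obtain ⟨p, hpX⟩ := hX1 v z₀ rfl
  refine ⟨v, p, fun x hx => ?_⟩
  obtain ⟨c, rfl⟩ := hsur x hx
  have hCd := (Matrix.isUnit_iff_isUnit_det _).1 hC
  set d : Fin m → ℂ := C⁻¹ *ᵥ c with hd
  have hev : ∀ z : ℂ, (fun i => (∑ j, Polynomial.C (d j) * q i j).eval z) =
      (q.map fun p => p.eval z) *ᵥ d := by
    intro z
    funext i
    simp only [Polynomial.eval_finsetSum, Polynomial.eval_mul, Polynomial.eval_C,
      Matrix.mulVec, dotProduct, Matrix.map_apply]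
    exact Finset.sum_congr rfl fun j _ => mul_comm _ _
  obtain ⟨f, hf, hfe⟩ := homog_section hN ρ k κ n hA Γ hΓ
    (fun i => ∑ j, Polynomial.C (d j) * q i j) (by
      intro w z hw r
      have hz : z ∉ A := (hA1 z).2 (fun g hg hr => by rw [← hw]; exact w.2 g hg hr)
      obtain ⟨s, hs⟩ := hX1 w z hw
      obtain ⟨C', hC'⟩ := hq z hz
      obtain ⟨M, -, hM⟩ := Sec2X.PP_two hN ρ k X₀ hΓ' r s
      refine ⟨X₀ *ᵥ (M *ᵥ (C' *ᵥ d)), hmem _, ?_⟩
      rw [hev, hC', hs, hM]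
      simp only [Matrix.mulVec_mulVec, Matrix.mul_assoc])
  refine ⟨f, hf, ?_⟩
  show evE f ![1, z₀] = _
  rw [hfe, hev, hqC, hpX]
  simp only [hd, Matrix.mulVec_mulVec, Matrix.mul_assoc, Matrix.mul_nonsing_inv _ hCd,
    Matrix.mul_one]

end

end Pool.Agent.CMF
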