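import Pool.Agent.CMF.SDefs
import Pool.Agent.CMF.RatA
import Pool.Agent.CMF.RatB

/-! Project CMF, module Sec1: algebraicity of a flat subbundle with moderate growth. -/

namespace Pool.Agent.CMF

open Matrix Filter Topology

noncomputable section

namespace Sec1X

/-! ### Determinants and products in a subalgebra of functions -/

section alg

variable {T : Type} (S : Subalgebra ℂ (T → ℂ))

lemma const_mem (c : ℂ) : (fun _ : T => c) ∈ S := S.algebraMap_mem c

lemma mulM_mem {l m n : Type} [Fintype m] (Y : T → Matrix l m ℂ) (Z : T → Matrix m n ℂ)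
    (hY : ∀ i j, (fun w => Y w i j) ∈ S) (hZ : ∀ i j, (fun w => Z w i j) ∈ S) (i : l) (j : n) :
    (fun w => (Y w * Z w) i j) ∈ S := by
  have : (fun w => (Y w * Z w) i j) = ∑ k, (fun w => Y w i k) * (fun w => Z w k j) := by
    funext w
    simp [Matrix.mul_apply]
  rw [this]
  exact S.sum_mem fun k _ => S.mul_mem (hY i k) (hZ k j)

lemma det_mem {n : Type} [Fintype n] [DecidableEq n] (Y : T → Matrix n n ℂ)
    (hY : ∀ i j, (fun w => Y w i j) ∈ S) : (fun w => (Y w).det) ∈ S := by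
  have : (fun w => (Y w).det) = ∑ σ : Equiv.Perm n,
      (((Equiv.Perm.sign σ : ℤˣ) : ℤ) : ℂ) • ∏ i, (fun w => Y w (σ i) i) := by
    funext w
    rw [Matrix.det_apply']
    simp
  rw [this]
  exact S.sum_mem fun σ _ => S.smul_mem (S.prod_mem fun i _ => hY _ _) _

lemma adj_mem {n : Type} [Fintype n] [DecidableEq n] (Y : T → Matrix n n ℂ)
    (hY : ∀ i j, (fun w => Y w i j) ∈ S) (i j : n) :
    (fun w => (Y w).adjugate i j) ∈ S := by
  simp only [Matrix.adjugate_apply]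
  apply det_mem
  intro i' j'
  by_cases h : i' = j
  · subst h
    simp only [Matrix.updateRow_self]
    exact const_mem S _
  · simp only [Matrix.updateRow_ne h]
    exact hY _ _

end alg

/-! ### The normalised basis -/

variable {ι : Type} [Fintype ι] [DecidableEq ι] {m : ℕ}

/-- `Y (L Y)⁻¹`. -/
def QQ (L : Matrix (Fin m) ι ℂ) (Y : Matrix ι (Fin m) ℂ) : Matrix ι (Fin m) ℂ := Y * (L * Y)⁻¹

omit [DecidableEq ι] in
lemma QQ_apply (L : Matrix (Fin m) ι ℂ) (Y : Matrix ι (Fin m) ℂ) (i : ι) (j : Fin m) :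
    QQ L Y i j = ((L * Y).det)⁻¹ * (Y * (L * Y).adjugate) i j := by
  rw [QQ, Matrix.inv_def, Ring.inverse_eq_inv, Matrix.mul_smul, Matrix.smul_apply, smul_eq_mul]

omit [DecidableEq ι] in
lemma QQ_mul (L : Matrix (Fin m) ι ℂ) (Y : Matrix ι (Fin m) ℂ) (M : Matrix (Fin m) (Fin m) ℂ)
    (hM : IsUnit M) : QQ L (Y * M) = QQ L Y := by
  have hd : IsUnit M.det := (Matrix.isUnit_iff_isUnit_det M).1 hM
  rw [QQ, QQ, ← Matrix.mul_assoc L Y M, Matrix.mul_inv_rev, Matrix.mul_assoc Y M,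
    ← Matrix.mul_assoc M, Matrix.mul_nonsing_inv _ hd, Matrix.one_mul]

/-! ### Subalgebras of functions -/

/-- Functions analytic at `z`. -/
def anS (z : ℂ) : Subalgebra ℂ (ℂ → ℂ) where
  carrier := {f | AnalyticAt ℂ f z}
  mul_mem' h h' := h.mul h'
  add_mem' h h' := h.add h'
  algebraMap_mem' _ := analyticAt_const

/-- Functions meromorphic at `z`. -/
def meS (z : ℂ) : Subalgebra ℂ (ℂ → ℂ) where
  carrier := {f | MeromorphicAt f z}
  mul_mem' h h' := h.mul h'
  add_mem' h h' := h.add h'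
  algebraMap_mem' c := MeromorphicAt.const c z

/-- Holomorphic functions of exponential growth on a half plane. -/
def grS (r : ℝ) : Subalgebra ℂ (ℂ → ℂ) where
  carrier := {f | (∀ w : ℂ, w.re < r → DifferentiableAt ℂ f w) ∧ ∃ C c : ℝ, 0 ≤ C ∧ 0 ≤ c ∧
    ∀ w : ℂ, w.re < r → ‖f w‖ ≤ C * Real.exp (c * ‖w‖)}
  mul_mem' := by
    rintro f g ⟨hf, C, c, hC, hc, h⟩ ⟨hg, C', c', hC', hc', h'⟩
    refine ⟨fun w hw => (hf w hw).mul (hg w hw), C * C', c + c', by positivity, by positivity,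
      fun w hw => ?_⟩
    have h1 := mul_le_mul (h w hw) (h' w hw) (norm_nonneg _) (by positivity)
    rw [Pi.mul_apply, norm_mul, add_mul, Real.exp_add]
    calc ‖f w‖ * ‖g w‖ ≤ _ := h1
      _ = _ := by ring
  add_mem' := by
    rintro f g ⟨hf, C, c, hC, hc, h⟩ ⟨hg, C', c', hC', hc', h'⟩
    refine ⟨fun w hw => (hf w hw).add (hg w hw), C + C', c + c', by positivity, by positivity,
      fun w hw => ?_⟩
    have h1 : Real.exp (c * ‖w‖) ≤ Real.exp ((c + c') * ‖w‖) := by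
      apply Real.exp_le_exp.2
      nlinarith [norm_nonneg w]
    have h2 : Real.exp (c' * ‖w‖) ≤ Real.exp ((c + c') * ‖w‖) := by
      apply Real.exp_le_exp.2
      nlinarith [norm_nonneg w]
    calc ‖(f + g) w‖ ≤ ‖f w‖ + ‖g w‖ := norm_add_le _ _
      _ ≤ C * Real.exp (c * ‖w‖) + C' * Real.exp (c' * ‖w‖) := add_le_add (h w hw) (h' w hw)
      _ ≤ C * Real.exp ((c + c') * ‖w‖) + C' * Real.exp ((c + c') * ‖w‖) :=
        add_le_add (mul_le_mul_of_nonneg_left h1 hC) (mul_le_mul_of_nonneg_left h2 hC')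
      _ = _ := by ring
  algebraMap_mem' a := by
    refine ⟨fun w _ => differentiableAt_const _, ‖a‖, 0, norm_nonneg _, le_rfl, fun w _ => ?_⟩
    simp

lemma exp_mem_grS (r : ℝ) (b : ℂ) : (fun w : ℂ => Complex.exp (b * w)) ∈ grS r := by
  refine ⟨fun w _ => ?_, 1, ‖b‖, zero_le_one, norm_nonneg _, fun w _ => ?_⟩
  · exact ((differentiableAt_id.const_mul b).cexp)
  · rw [Complex.norm_exp, one_mul, ← norm_mul]
    exact Real.exp_le_exp.2 (Complex.re_le_norm _)

lemma grS_periodic (r : ℝ) (g : ℂ → ℂ) (hg : g ∈ grS r)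
    (hper : ∀ w : ℂ, w.re < r → g (w + 2 * Real.pi * Complex.I) = g w) :
    ∃ G : ℂ → ℂ, MeromorphicAt G 0 ∧ ∀ w : ℂ, w.re < r → G (Complex.exp w) = g w := by
  obtain ⟨h1, C, c, hC, hc, h⟩ := hg
  refine meromorphic_of_periodic r g h1 hper (C * Real.exp (4 * c)) c fun w hw hw4 => ?_
  refine (h w hw).trans ?_
  rw [mul_assoc, ← Real.exp_add]
  apply mul_le_mul_of_nonneg_left _ hC
  apply Real.exp_le_exp.2
  have h2 := Complex.norm_le_abs_re_add_abs_im w
  nlinarith

/-! ### Meromorphy at a puncture -/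

lemma punct_mero (A : Finset ℂ) (X : ℂ → Matrix ι (Fin m) ℂ) (e : ℂ → ℂ)
    (he : ∀ w, e (w + 2 * Real.pi * Complex.I) = e w) (h : PunctAt A X e)
    (L : Matrix (Fin m) ι ℂ) : ∃ (r : ℝ) (G : ℂ → Matrix ι (Fin m) ℂ),
      (∀ i j, MeromorphicAt (fun u => G u i j) 0) ∧
      ∀ w : ℂ, w.re < r → G (Complex.exp w) = QQ L (X (e w)) := by
  obtain ⟨r, Φ, X₁, C₀, C, c, -, hd, hu, hm, hg, hX⟩ := h
  have hre : ∀ w : ℂ, (w + 2 * Real.pi * Complex.I).re = w.re := by
    intro w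
    simp
  -- the entries of Φ
  have hΦ : ∀ p q, (fun w => Φ w p q) ∈ grS r := by
    intro p q
    refine ⟨fun w hw => hd w hw p q, |C|, |c|, abs_nonneg _, abs_nonneg _, fun w hw => ?_⟩
    refine (hg w hw p q).trans ?_
    apply mul_le_mul (le_abs_self _) _ (Real.exp_pos _).le (abs_nonneg _)
    exact Real.exp_le_exp.2 (mul_le_mul_of_nonneg_right (le_abs_self _) (norm_nonneg _))
  -- the monodromy on the columns of X₁
  obtain ⟨M₀, hM₀, hCX⟩ : ∃ M₀ : Matrix (Fin m) (Fin m) ℂ, IsUnit M₀ ∧ C₀ * X₁ = X₁ * M₀ := by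
    have hw₁ : (((r - 1 : ℝ) : ℂ)).re < r := by simp
    set w₁ : ℂ := ((r - 1 : ℝ) : ℂ)
    obtain ⟨M, hM, h1⟩ := hX w₁ hw₁
    obtain ⟨M', hM', h2⟩ := hX (w₁ + 2 * Real.pi * Complex.I) (by rw [hre]; exact hw₁)
    rw [he, hm w₁ hw₁] at h2
    have hd1 : IsUnit (Φ w₁).det := (Matrix.isUnit_iff_isUnit_det _).1 (hu w₁ hw₁)
    have hd2 : IsUnit M'.det := (Matrix.isUnit_iff_isUnit_det _).1 hM'
    have h3 : X₁ * M = C₀ * X₁ * M' := by
      have h4 := congrArg (fun Z => (Φ w₁)⁻¹ * Z) (h1.symm.trans h2)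
      simp only [Matrix.mul_assoc] at h4
      rw [← Matrix.mul_assoc, ← Matrix.mul_assoc (Φ w₁)⁻¹ (Φ w₁) (C₀ * (X₁ * M')),
        Matrix.nonsing_inv_mul _ hd1, Matrix.one_mul, Matrix.one_mul] at h4
      rw [h4, Matrix.mul_assoc]
    refine ⟨M * M'⁻¹, hM.mul ((Matrix.isUnit_nonsing_inv_iff).2 hM'), ?_⟩
    rw [← Matrix.mul_assoc, h3, Matrix.mul_assoc (C₀ * X₁), Matrix.mul_nonsing_inv _ hd2,
      Matrix.mul_one]
  set Z : ℂ → Matrix ι (Fin m) ℂ := fun w => Φ w * X₁ with hZ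
  have hZper : ∀ w : ℂ, w.re < r → Z (w + 2 * Real.pi * Complex.I) = Z w * M₀ := by
    intro w hw
    simp only [hZ]
    rw [hm w hw, Matrix.mul_assoc, hCX, Matrix.mul_assoc]
  have hZm : ∀ i j, (fun w => Z w i j) ∈ grS r := fun i j =>
    mulM_mem (grS r) Φ (fun _ => X₁) hΦ (fun _ _ => const_mem _ _) i j
  have hLZ : ∀ i j, (fun w => (L * Z w) i j) ∈ grS r := fun i j =>
    mulM_mem (grS r) (fun _ => L) Z (fun _ _ => const_mem _ _) hZm i j
  have hδ : M₀.det ≠ 0 := ((Matrix.isUnit_iff_isUnit_det _).1 hM₀).ne_zero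
  have hpi : (2 * Real.pi * Complex.I : ℂ) ≠ 0 := Complex.two_pi_I_ne_zero
  set b : ℂ := -(Complex.log M₀.det / (2 * Real.pi * Complex.I)) with hb
  have hE : ∀ w : ℂ, Complex.exp (b * (w + 2 * Real.pi * Complex.I)) =
      Complex.exp (b * w) * (M₀.det)⁻¹ := by
    intro w
    have : b * (w + 2 * Real.pi * Complex.I) = b * w + -Complex.log M₀.det := by
      rw [hb]
      field_simp
      ring
    rw [this, Complex.exp_add, Complex.exp_neg, Complex.exp_log hδ]
  obtain ⟨GD, hGD, hGD'⟩ := grS_periodic r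
    (fun w => (L * Z w).det * Complex.exp (b * w))
    ((grS r).mul_mem (det_mem (grS r) (fun w => L * Z w) hLZ) (exp_mem_grS r b)) (by
      intro w hw
      show (L * Z (w + 2 * Real.pi * Complex.I)).det *
        Complex.exp (b * (w + 2 * Real.pi * Complex.I)) = _
      rw [hZper w hw, hE, ← Matrix.mul_assoc, Matrix.det_mul]
      field_simp)
  have hN : ∀ i j, ∃ G : ℂ → ℂ, MeromorphicAt G 0 ∧ ∀ w : ℂ, w.re < r →
      G (Complex.exp w) = (Z w * (L * Z w).adjugate) i j * Complex.exp (b * w) := by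
    intro i j
    refine grS_periodic r (fun w => (Z w * (L * Z w).adjugate) i j * Complex.exp (b * w))
      ((grS r).mul_mem (mulM_mem (grS r) Z (fun w => (L * Z w).adjugate) hZm
        (adj_mem (grS r) (fun w => L * Z w) hLZ) i j) (exp_mem_grS r b)) ?_
    intro w hw
    show (Z (w + 2 * Real.pi * Complex.I) *
      (L * Z (w + 2 * Real.pi * Complex.I)).adjugate) i j *
        Complex.exp (b * (w + 2 * Real.pi * Complex.I)) = _
    have h5 : Z w * M₀ * (L * (Z w * M₀)).adjugate = M₀.det • (Z w * (L * Z w).adjugate) := by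
      rw [← Matrix.mul_assoc L, Matrix.adjugate_mul_distrib, Matrix.mul_assoc (Z w) M₀,
        ← Matrix.mul_assoc M₀, Matrix.mul_adjugate, Matrix.smul_mul, Matrix.one_mul,
        Matrix.mul_smul]
    rw [hZper w hw, hE, h5, Matrix.smul_apply, smul_eq_mul]
    field_simp
  choose GN hGN hGN' using hN
  refine ⟨r, fun u => Matrix.of fun i j => (GD u)⁻¹ * GN i j u, fun i j => ?_, fun w hw => ?_⟩
  · exact hGD.inv.mul (hGN i j)
  · obtain ⟨M, hM, h1⟩ := hX w hw
    rw [h1, QQ_mul _ _ _ hM]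
    ext i j
    show (GD (Complex.exp w))⁻¹ * GN i j (Complex.exp w) = QQ L (Z w) i j
    rw [hGD' w hw, hGN' i j w hw, QQ_apply]
    have hne := Complex.exp_ne_zero (b * w)
    have : ((L * Z w).det * Complex.exp (b * w))⁻¹ *
        ((Z w * (L * Z w).adjugate) i j * Complex.exp (b * w)) =
        ((L * Z w).det)⁻¹ * (Z w * (L * Z w).adjugate) i j := by
      rw [mul_inv]
      field_simp
    exact this

/-! ### Meromorphy of the normalised basis -/

omit [DecidableEq ι] in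
lemma QQ_mero (L : Matrix (Fin m) ι ℂ) (Y : ℂ → Matrix ι (Fin m) ℂ) (z : ℂ)
    (hY : ∀ i j, AnalyticAt ℂ (fun w => Y w i j) z) (i : ι) (j : Fin m) :
    MeromorphicAt (fun w => QQ L (Y w) i j) z := by
  have hLY : ∀ i j, (fun w => (L * Y w) i j) ∈ anS z := fun i j =>
    mulM_mem (anS z) (fun _ => L) Y (fun _ _ => const_mem _ _) hY i j
  have h1 : (fun w => QQ L (Y w) i j) =
      fun w => ((L * Y w).det)⁻¹ * (Y w * (L * Y w).adjugate) i j := by
    funext w
    exact QQ_apply _ _ _ _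
  rw [h1]
  have hd : AnalyticAt ℂ (fun w => (L * Y w).det) z := det_mem (anS z) _ hLY
  have hn : AnalyticAt ℂ (fun w => (Y w * (L * Y w).adjugate) i j) z :=
    mulM_mem (anS z) Y (fun w => (L * Y w).adjugate) hY (adj_mem (anS z) _ hLY) i j
  exact hd.meromorphicAt.inv.mul hn.meromorphicAt

omit [DecidableEq ι] in
lemma QQ_analytic (L : Matrix (Fin m) ι ℂ) (Y : ℂ → Matrix ι (Fin m) ℂ) (z : ℂ)
    (hY : ∀ i j, AnalyticAt ℂ (fun w => Y w i j) z) (hz : (L * Y z).det ≠ 0)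
    (i : ι) (j : Fin m) : AnalyticAt ℂ (fun w => QQ L (Y w) i j) z := by
  have hLY : ∀ i j, (fun w => (L * Y w) i j) ∈ anS z := fun i j =>
    mulM_mem (anS z) (fun _ => L) Y (fun _ _ => const_mem _ _) hY i j
  have h1 : (fun w => QQ L (Y w) i j) =
      fun w => ((L * Y w).det)⁻¹ * (Y w * (L * Y w).adjugate) i j := by
    funext w
    exact QQ_apply _ _ _ _
  rw [h1]
  have hd : AnalyticAt ℂ (fun w => (L * Y w).det) z := det_mem (anS z) _ hLY
  have hn : AnalyticAt ℂ (fun w => (Y w * (L * Y w).adjugate) i j) z :=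
    mulM_mem (anS z) Y (fun w => (L * Y w).adjugate) hY (adj_mem (anS z) _ hLY) i j
  exact (hd.inv hz).mul hn

/-- A local analytic representative. -/
lemma local_rep (A : Finset ℂ) (X : ℂ → Matrix ι (Fin m) ℂ) (h1 : LocTriv A X) (z : ℂ)
    (hz : z ∉ A) : ∃ (Y : ℂ → Matrix ι (Fin m) ℂ), (∀ i j, AnalyticAt ℂ (fun w => Y w i j) z) ∧
      Y z = X z ∧ ∀ᶠ w in 𝓝 z, w ∉ A ∧ ∃ M : Matrix (Fin m) (Fin m) ℂ, IsUnit M ∧ X w = Y w * M := by
  obtain ⟨r, F, hr, hA, hF, hu, hX⟩ := h1 z hz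
  have hd : IsUnit (F z).det := (Matrix.isUnit_iff_isUnit_det _).1 (hu z (Metric.mem_ball_self hr))
  refine ⟨fun w => F w * (F z)⁻¹ * X z, ?_, ?_, ?_⟩
  · intro i j
    have hF' : ∀ i j, (fun w => F w i j) ∈ anS z := fun i j =>
      (hF i j).analyticAt (Metric.ball_mem_nhds z hr)
    exact mulM_mem (anS z) (fun w => F w * (F z)⁻¹) (fun _ => X z)
      (fun i j => mulM_mem (anS z) F (fun _ => (F z)⁻¹) hF' (fun _ _ => const_mem _ _) i j)
      (fun _ _ => const_mem _ _) i j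
  · show F z * (F z)⁻¹ * X z = X z
    rw [Matrix.mul_nonsing_inv _ hd, Matrix.one_mul]
  · filter_upwards [Metric.ball_mem_nhds z hr] with w hw
    exact ⟨hA w hw, hX w hw⟩

lemma mero_at_puncture (A : Finset ℂ) (X : ℂ → Matrix ι (Fin m) ℂ)
    (L : Matrix (Fin m) ι ℂ) (a : ℂ) (h : PunctAt A X (fun w => a + Complex.exp w))
    (i : ι) (j : Fin m) : MeromorphicAt (fun z => QQ L (X z) i j) a := by
  obtain ⟨r, G, hG, hGX⟩ := punct_mero A X (fun w => a + Complex.exp w) (fun w => by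
    show a + Complex.exp (w + 2 * Real.pi * Complex.I) = a + Complex.exp w
    rw [Complex.exp_add, Complex.exp_two_pi_mul_I, mul_one]) h L
  have h1 : MeromorphicAt (fun z => G (z - a) i j) a := by
    have h2 := (meromorphicAt_fun_comp_sub_const_iff_meromorphicAt (x := a) (c := a)
      (f := fun u => G u i j)).2 (by rw [sub_self]; exact hG i j)
    exact h2
  refine h1.congr ?_
  have h3 : ∀ᶠ z in 𝓝[≠] a, z ∈ Metric.ball a (Real.exp r) :=
    nhdsWithin_le_nhds (Metric.ball_mem_nhds a (Real.exp_pos r))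
  filter_upwards [h3, self_mem_nhdsWithin] with z hz hza
  have hne : z - a ≠ 0 := sub_ne_zero.2 hza
  have h4 : (Complex.log (z - a)).re < r := by
    rw [Complex.log_re, Real.log_lt_iff_lt_exp (norm_pos_iff.2 hne), ← dist_eq_norm]
    exact hz
  have h5 := hGX _ h4
  simp only [Complex.exp_log hne, add_sub_cancel] at h5
  rw [h5]

lemma mero_at_infty (A : Finset ℂ) (X : ℂ → Matrix ι (Fin m) ℂ)
    (L : Matrix (Fin m) ι ℂ) (h : PunctAt A X (fun w => Complex.exp (-w)))
    (i : ι) (j : Fin m) : MeromorphicAt (fun z => QQ L (X z⁻¹) i j) 0 := by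
  obtain ⟨r, G, hG, hGX⟩ := punct_mero A X (fun w => Complex.exp (-w)) (fun w => by
    show Complex.exp (-(w + 2 * Real.pi * Complex.I)) = Complex.exp (-w)
    rw [Complex.exp_neg, Complex.exp_add, Complex.exp_two_pi_mul_I, mul_one, Complex.exp_neg]) h L
  refine (hG i j).congr ?_
  have h3 : ∀ᶠ z in 𝓝[≠] (0:ℂ), z ∈ Metric.ball (0:ℂ) (Real.exp r) :=
    nhdsWithin_le_nhds (Metric.ball_mem_nhds 0 (Real.exp_pos r))
  filter_upwards [h3, self_mem_nhdsWithin] with z hz hza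
  have hne : z ≠ 0 := hza
  have h4 : (Complex.log z).re < r := by
    rw [Complex.log_re, Real.log_lt_iff_lt_exp (norm_pos_iff.2 hne)]
    simpa using hz
  have h5 := hGX _ h4
  simp only [Complex.exp_neg, Complex.exp_log hne] at h5
  rw [h5]

/-- The matrices whose columns lie in the column space of `Y`. -/
def colS (Y : Matrix ι (Fin m) ℂ) : Submodule ℂ (Matrix ι (Fin m) ℂ) where
  carrier := {W | ∃ C : Matrix (Fin m) (Fin m) ℂ, W = Y * C}
  add_mem' := by
    rintro _ _ ⟨C, rfl⟩ ⟨C', rfl⟩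
    exact ⟨C + C', by rw [Matrix.mul_add]⟩
  zero_mem' := ⟨0, by rw [Matrix.mul_zero]⟩
  smul_mem' := by
    rintro c _ ⟨C, rfl⟩
    exact ⟨c • C, by rw [Matrix.mul_smul]⟩

omit [DecidableEq ι] in
lemma isClosed_colS (Y : Matrix ι (Fin m) ℂ) :
    IsClosed ((colS Y : Submodule ℂ (Matrix ι (Fin m) ℂ)) : Set (Matrix ι (Fin m) ℂ)) :=
  (colS Y).closed_of_finiteDimensional

end Sec1X

open Sec1X

/-- A flat subbundle with moderate growth on `ℂ ∖ A` is generated by polynomial sections. -/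
theorem alg_span {ι : Type} [Fintype ι] [DecidableEq ι] (m : ℕ) (A : Finset ℂ)
    (X : ℂ → Matrix ι (Fin m) ℂ)
    (hX : ∀ z ∉ A, Function.Injective (fun x : Fin m → ℂ => X z *ᵥ x))
    (h1 : LocTriv A X) (h2 : ∀ a ∈ A, PunctAt A X (fun w => a + Complex.exp w))
    (h3 : PunctAt A X (fun w => Complex.exp (-w))) :
    ∃ q : Matrix ι (Fin m) (Polynomial ℂ),
      (∀ z ∉ A, ∃ C : Matrix (Fin m) (Fin m) ℂ, (q.map fun p => p.eval z) = X z * C) ∧
      ∃ z ∉ A, ∃ C : Matrix (Fin m) (Fin m) ℂ, IsUnit C ∧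
        (q.map fun p => p.eval z) = X z * C := by
  classical
  -- a base point and a left inverse
  obtain ⟨z₀, hz₀⟩ : ∃ z₀, z₀ ∉ A := Infinite.exists_notMem_finset A
  obtain ⟨L, hL⟩ : ∃ L : Matrix (Fin m) ι ℂ, L * X z₀ = 1 := by
    have hinj : Function.Injective (Matrix.toLin' (X z₀)) := by
      intro x y hxy
      rw [Matrix.toLin'_apply, Matrix.toLin'_apply] at hxy
      exact hX z₀ hz₀ hxy
    obtain ⟨g, hg⟩ := (Matrix.toLin' (X z₀)).exists_leftInverse_of_injective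
      (LinearMap.ker_eq_bot.2 hinj)
    refine ⟨LinearMap.toMatrix' g, ?_⟩
    have := congrArg LinearMap.toMatrix' hg
    rw [LinearMap.toMatrix'_comp, LinearMap.toMatrix'_toLin', LinearMap.toMatrix'_id] at this
    exact this
  -- meromorphy
  have hmer : ∀ i j z, MeromorphicAt (fun z => QQ L (X z) i j) z := by
    intro i j z
    by_cases hz : z ∈ A
    · exact mero_at_puncture A X L z (h2 z hz) i j
    · obtain ⟨Y, hY, -, hXY⟩ := local_rep A X h1 z hz
      refine (QQ_mero L Y z hY i j).congr ?_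
      have : ∀ᶠ w in 𝓝 z, QQ L (Y w) i j = QQ L (X w) i j := by
        filter_upwards [hXY] with w hw
        obtain ⟨-, M, hM, hw⟩ := hw
        rw [hw, QQ_mul _ _ _ hM]
      exact nhdsWithin_le_nhds this
  have hinf : ∀ i j, MeromorphicAt (fun z => QQ L (X z⁻¹) i j) 0 := mero_at_infty A X L h3
  have hrat := fun i j => rational_of_meromorphic (fun z => QQ L (X z) i j) (hmer i j) (hinf i j)
  choose P R hR hPR using hrat
  -- the generic set
  set g : ℂ → ℂ := fun z => (L * QQ L (X z)).det with hg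
  have hgm : ∀ z, MeromorphicAt g z := fun z =>
    det_mem (meS z) (fun w => L * QQ L (X w)) (fun i j =>
      mulM_mem (meS z) (fun _ => L) (fun w => QQ L (X w)) (fun _ _ => const_mem _ _)
        (fun i j => hmer i j z) i j)
  have hg0 : ∀ z, g z ≠ 0 → (L * X z).det ≠ 0 := by
    intro z hz h0
    have hm : Nonempty (Fin m) := by
      rcases Nat.eq_zero_or_pos m with rfl | hpos
      · simp at h0
      · exact ⟨⟨0, hpos⟩⟩
    apply hz
    have h4 : (L * X z)⁻¹ = 0 := by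
      rw [Matrix.inv_def, h0, Ring.inverse_zero, zero_smul]
    show (L * QQ L (X z)).det = 0
    rw [QQ, h4, Matrix.mul_zero, Matrix.mul_zero, Matrix.det_zero]
  have hg1 : ∀ z, (L * X z).det ≠ 0 → g z ≠ 0 := by
    intro z hz
    have h4 : IsUnit (L * X z).det := isUnit_iff_ne_zero.2 hz
    show (L * QQ L (X z)).det ≠ 0
    rw [QQ, ← Matrix.mul_assoc, Matrix.mul_nonsing_inv _ h4, Matrix.det_one]
    exact one_ne_zero
  have hgz₀ : ∀ᶠ z in 𝓝 z₀, (L * X z).det ≠ 0 := by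
    obtain ⟨Y, hY, hYz, hXY⟩ := local_rep A X h1 z₀ hz₀
    have hLY : AnalyticAt ℂ (fun w => (L * Y w).det) z₀ :=
      det_mem (anS z₀) (fun w => L * Y w) (fun i j =>
        mulM_mem (anS z₀) (fun _ => L) Y (fun _ _ => const_mem _ _) hY i j)
    have h4 : ∀ᶠ w in 𝓝 z₀, (L * Y w).det ≠ 0 := by
      apply hLY.continuousAt.eventually_ne
      rw [hYz, hL, Matrix.det_one]
      exact one_ne_zero
    filter_upwards [hXY, h4] with w hw hw4
    obtain ⟨-, M, hM, hw⟩ := hw
    rw [hw, ← Matrix.mul_assoc, Matrix.det_mul]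
    exact mul_ne_zero hw4 ((Matrix.isUnit_iff_isUnit_det _).1 hM).ne_zero
  have hgen : ∀ z, ∀ᶠ w in 𝓝[≠] z, (L * X w).det ≠ 0 := by
    intro z
    have h4 : ∃ u, meromorphicOrderAt g u ≠ ⊤ := by
      refine ⟨z₀, (meromorphicOrderAt_ne_top_iff_eventually_ne_zero (hgm z₀)).2 ?_⟩
      have : ∀ᶠ w in 𝓝[≠] z₀, (L * X w).det ≠ 0 := nhdsWithin_le_nhds hgz₀
      filter_upwards [this] with w hw
      exact hg1 w hw
    have h5 := (Meromorphic.exists_meromorphicOrderAt_ne_top_iff_forall (f := g) hgm).1 h4 z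
    filter_upwards [(meromorphicOrderAt_ne_top_iff_eventually_ne_zero (hgm z)).1 h5] with w hw
    exact hg0 w hw
  -- the polynomials
  set Rt : Polynomial ℂ := ∏ i, ∏ j, R i j with hRt
  have hRt0 : Rt ≠ 0 := Finset.prod_ne_zero_iff.2 fun i _ =>
    Finset.prod_ne_zero_iff.2 fun j _ => hR i j
  have hdvd : ∀ i j, R i j ∣ Rt := fun i j =>
    (Finset.dvd_prod_of_mem (fun j => R i j) (Finset.mem_univ j)).trans
      (Finset.dvd_prod_of_mem (fun i => ∏ j, R i j) (Finset.mem_univ i))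
  choose T hT using hdvd
  set q : Matrix ι (Fin m) (Polynomial ℂ) := Matrix.of fun i j => P i j * T i j with hq
  have hqz : ∀ z ∉ A, (L * X z).det ≠ 0 →
      (q.map fun p => p.eval z) = X z * (Rt.eval z • (L * X z)⁻¹) := by
    intro z hz hdz
    have han : ∀ i j, AnalyticAt ℂ (fun z => QQ L (X z) i j) z := by
      intro i j
      obtain ⟨Y, hY, hYz, hXY⟩ := local_rep A X h1 z hz
      refine (QQ_analytic L Y z hY (by rw [hYz]; exact hdz) i j).congr ?_
      filter_upwards [hXY] with w hw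
      obtain ⟨-, M, hM, hw⟩ := hw
      rw [hw, QQ_mul _ _ _ hM]
    rw [Matrix.mul_smul]
    ext i j
    have h4 := hPR i j z (han i j)
    have h5 := congrArg (Polynomial.eval z) (hT i j)
    rw [Polynomial.eval_mul] at h5
    show (P i j * T i j).eval z = Rt.eval z * QQ L (X z) i j
    rw [Polynomial.eval_mul, ← h4, h5]
    ring
  refine ⟨q, ?_, ?_⟩
  · -- closedness
    intro z hz
    obtain ⟨r, F, hr, hA, hF, hu, hXF⟩ := h1 z hz
    have hdz : (F z).det ≠ 0 :=
      ((Matrix.isUnit_iff_isUnit_det _).1 (hu z (Metric.mem_ball_self hr))).ne_zero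
    have hF' : ∀ i j, (fun w => F w i j) ∈ anS z := fun i j =>
      (hF i j).analyticAt (Metric.ball_mem_nhds z hr)
    have hFi : ∀ i j, (fun w => (F w)⁻¹ i j) ∈ anS z := by
      intro i j
      have h4 : (fun w => (F w)⁻¹ i j) = fun w => ((F w).det)⁻¹ * (F w).adjugate i j := by
        funext w
        rw [Matrix.inv_def, Ring.inverse_eq_inv, Matrix.smul_apply, smul_eq_mul]
      rw [h4]
      have h5 : AnalyticAt ℂ (fun w => (F w).det) z := det_mem (anS z) F hF'
      have h6 : AnalyticAt ℂ (fun w => (F w).adjugate i j) z := adj_mem (anS z) F hF' i j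
      exact (h5.inv hdz).mul h6
    have hqa : ∀ i j, (fun w => (q.map fun p => p.eval w) i j) ∈ anS z := by
      intro i j
      show AnalyticAt ℂ (fun w => (q i j).eval w) z
      exact (q i j).differentiable.analyticAt z
    set W : ℂ → Matrix ι (Fin m) ℂ := fun w => F z * (F w)⁻¹ * (q.map fun p => p.eval w) with hW
    have hWa : ∀ i j, (fun w => W w i j) ∈ anS z := fun i j =>
      mulM_mem (anS z) (fun w => F z * (F w)⁻¹) (fun w => q.map fun p => p.eval w)
        (fun i j => mulM_mem (anS z) (fun _ => F z) (fun w => (F w)⁻¹)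
          (fun _ _ => const_mem _ _) hFi i j) hqa i j
    have hWc : ContinuousAt W z := by
      refine continuousAt_pi.2 fun i => continuousAt_pi.2 fun j => ?_
      exact (show AnalyticAt ℂ (fun w => W w i j) z from hWa i j).continuousAt
    have hWz : W z = (q.map fun p => p.eval z) := by
      simp only [hW]
      rw [Matrix.mul_nonsing_inv _ (isUnit_iff_ne_zero.2 hdz), Matrix.one_mul]
    have hmem : W z ∈ colS (X z) := by
      refine (isClosed_colS (X z)).mem_of_tendsto (hWc.mono_left nhdsWithin_le_nhds :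
        Tendsto W (𝓝[≠] z) (𝓝 (W z))) ?_
      have hb : ∀ᶠ w in 𝓝[≠] z, w ∈ Metric.ball z r :=
        nhdsWithin_le_nhds (Metric.ball_mem_nhds z hr)
      filter_upwards [hgen z, hb] with w hw hwb
      obtain ⟨M, hM, hXw⟩ := hXF w hwb
      have h7 := hqz w (hA w hwb) hw
      have hdw : IsUnit (F w).det := (Matrix.isUnit_iff_isUnit_det _).1 (hu w hwb)
      refine ⟨M * (Rt.eval w • (L * X w)⁻¹), ?_⟩
      show F z * (F w)⁻¹ * (q.map fun p => p.eval w) = _
      rw [h7]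
      generalize Rt.eval w • (L * X w)⁻¹ = C'
      rw [hXw]
      calc F z * (F w)⁻¹ * (F w * (F z)⁻¹ * X z * M * C')
          = F z * ((F w)⁻¹ * F w) * ((F z)⁻¹ * (X z * (M * C'))) := by
            simp only [Matrix.mul_assoc]
        _ = (F z * (F z)⁻¹) * (X z * (M * C')) := by
            rw [Matrix.nonsing_inv_mul _ hdw, Matrix.mul_one, Matrix.mul_assoc]
        _ = X z * (M * C') := by
            rw [Matrix.mul_nonsing_inv _ (isUnit_iff_ne_zero.2 hdz), Matrix.one_mul]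
    obtain ⟨C, hC⟩ := hmem
    exact ⟨C, by rw [← hWz, hC]⟩
  · have hb : ∀ᶠ w in 𝓝[≠] z₀, w ∉ A := by
      apply nhdsWithin_le_nhds
      exact (A.finite_toSet.isClosed.isOpen_compl).mem_nhds hz₀
    have hroot : ∀ᶠ w in 𝓝[≠] z₀, Rt.eval w ≠ 0 := by
      have h4 : ∀ᶠ w in 𝓝[≠] z₀, w ∉ (Rt.roots.toFinset : Set ℂ) \ {z₀} := by
        apply nhdsWithin_le_nhds
        refine ((Rt.roots.toFinset.finite_toSet.subset Set.sdiff_subset).isClosed.isOpen_compl).mem_nhds ?_
        simp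
      filter_upwards [h4, self_mem_nhdsWithin] with w hw hw0 h0
      apply hw
      refine ⟨?_, hw0⟩
      rw [Finset.mem_coe, Multiset.mem_toFinset, Polynomial.mem_roots hRt0]
      exact h0
    obtain ⟨w, hw1, hw2, hw3⟩ := ((hgen z₀).and (hb.and hroot)).exists
    refine ⟨w, hw2, Rt.eval w • (L * X w)⁻¹, ?_, hqz w hw2 hw1⟩
    rw [Matrix.isUnit_iff_isUnit_det, Matrix.det_smul]
    refine (isUnit_iff_ne_zero.2 (pow_ne_zero _ hw3)).mul ?_
    rw [← Matrix.isUnit_iff_isUnit_det, Matrix.isUnit_nonsing_inv_iff,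
      Matrix.isUnit_iff_isUnit_det]
    exact isUnit_iff_ne_zero.2 hw1

end

end Pool.Agent.CMF
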