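import Mathlib

/-!
CMF, module T0A: linear forms in two variables, semi-invariant polynomials and a
determinant divisibility lemma.
-/

open MvPolynomial

namespace Pool.Agent.CMF.CM3X

/-- polynomials in two variables -/
abbrev P2 := MvPolynomial (Fin 2) ℂ

/-- value of the linear form with coefficients `a` at `v` -/
def lfv (a v : Fin 2 → ℂ) : ℂ := a 0 * v 0 + a 1 * v 1

/-- two by two determinant -/
def br (a b : Fin 2 → ℂ) : ℂ := a 0 * b 1 - a 1 * b 0

/-- the linear form as a polynomial -/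
noncomputable def Lf (a : Fin 2 → ℂ) : P2 := C (a 0) * X 0 + C (a 1) * X 1

lemma eval_Lf (a v : Fin 2 → ℂ) : eval v (Lf a) = lfv a v := by
  simp [Lf, lfv]

/-- a spanning vector of the line `a = 0` -/
def jv (a : Fin 2 → ℂ) : Fin 2 → ℂ := ![a 1, -a 0]

lemma lf_jv (b a : Fin 2 → ℂ) : lfv b (jv a) = br b a := by
  simp [lfv, jv, br]; ring

lemma lf_jv_self (a : Fin 2 → ℂ) : lfv a (jv a) = 0 := by
  simp [lf_jv, br]; ring

/-- substitution by a matrix -/
noncomputable def sub2 (w : Matrix (Fin 2) (Fin 2) ℂ) : P2 →ₐ[ℂ] P2 :=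
  aeval (fun i => C (w i 0) * X 0 + C (w i 1) * X 1)

lemma eval_sub2 (w : Matrix (Fin 2) (Fin 2) ℂ) (f : P2) (v : Fin 2 → ℂ) :
    eval v (sub2 w f) = eval (w.mulVec v) f := by
  unfold sub2
  induction f using MvPolynomial.induction_on with
  | C c => simp
  | add p q hp hq => simp only [map_add, hp, hq]
  | mul_X p i hp =>
    rw [map_mul, map_mul, hp, map_mul, aeval_X, eval_X]
    congr 1
    simp [Matrix.mulVec, dotProduct, Fin.sum_univ_two]

lemma eval_aeval2 (u : Fin 2 → P2) (f : P2) (v : Fin 2 → ℂ) :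
    eval v (aeval u f : P2) = eval (fun i => eval v (u i)) f := by
  induction f using MvPolynomial.induction_on with
  | C c => simp
  | add p q hp hq => rw [map_add, map_add, hp, hq, map_add]
  | mul_X p i hp => rw [map_mul, map_mul, hp, aeval_X, map_mul, eval_X]

/-- a polynomial vanishing on the line `a = 0` is divisible by the linear form -/
lemma Lf_dvd_of_vanish (a : Fin 2 → ℂ) (ha : a ≠ 0) (f : P2)
    (hf : ∀ v, lfv a v = 0 → eval v f = 0) : Lf a ∣ f := by
  -- the projection along the line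
  have key : ∀ (u : Fin 2 → P2), (∀ i, Lf a ∣ X i - u i) →
      (∀ v, lfv a (fun i => eval v (u i)) = 0) → Lf a ∣ f := by
    intro u hu hv
    have h1 : aeval u f = (0 : P2) := by
      apply MvPolynomial.funext
      intro v
      have h2 := hf (fun i => eval v (u i)) (hv v)
      rw [map_zero, ← h2, eval_aeval2]
    have h3 : ∀ g : P2, Lf a ∣ g - aeval u g := by
      intro g
      induction g using MvPolynomial.induction_on with
      | C c => simp
      | add p q hp hq =>
        have : p + q - aeval u (p + q) = (p - aeval u p) + (q - aeval u q) := by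
          rw [map_add]; ring
        rw [this]; exact dvd_add hp hq
      | mul_X p i hp =>
        have : p * X i - aeval u (p * X i) = (p - aeval u p) * X i + aeval u p * (X i - u i) := by
          rw [map_mul, aeval_X]; ring
        rw [this]; exact dvd_add (Dvd.dvd.mul_right hp _) (Dvd.dvd.mul_left (hu i) _)
    have h4 := h3 f
    rwa [h1, sub_zero] at h4
  by_cases h0 : a 0 = 0
  · have h1 : a 1 ≠ 0 := by
      intro h1; apply ha; ext i; fin_cases i <;> simp [h0, h1]
    apply key ![X 0, 0]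
    · intro i
      fin_cases i
      · simp
      · refine ⟨C (a 1)⁻¹, ?_⟩
        simp only [Lf, h0, map_zero, zero_mul, zero_add, Fin.mk_one, Matrix.cons_val_one,
          Matrix.cons_val_fin_one, sub_zero]
        rw [mul_right_comm, ← C_mul, mul_inv_cancel₀ h1]; simp
    · intro v; simp [lfv, h0]
  · apply key ![- C (a 1 / a 0) * X 1, X 1]
    · intro i
      fin_cases i
      · refine ⟨C (a 0)⁻¹, ?_⟩
        simp only [Lf, Fin.zero_eta, Matrix.cons_val_zero]
        rw [add_mul, mul_right_comm, ← C_mul, mul_right_comm, ← C_mul, mul_inv_cancel₀ h0]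
        simp [div_eq_mul_inv]
      · simp
    · intro v
      simp [lfv]; field_simp; ring

lemma Lf_ne_zero (a : Fin 2 → ℂ) (ha : a ≠ 0) : Lf a ≠ 0 := by
  intro h
  apply ha
  ext i
  have h1 : ∀ v, lfv a v = 0 := by intro v; rw [← eval_Lf, h, map_zero]
  fin_cases i
  · simpa [lfv] using h1 ![1, 0]
  · simpa [lfv] using h1 ![0, 1]

lemma Lf_dvd_iff (a : Fin 2 → ℂ) (ha : a ≠ 0) (f : P2) :
    Lf a ∣ f ↔ ∀ v, lfv a v = 0 → eval v f = 0 := by
  refine ⟨?_, Lf_dvd_of_vanish a ha f⟩
  rintro ⟨g, rfl⟩ v hv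
  rw [map_mul, eval_Lf, hv, zero_mul]

lemma lf_zero_iff (a : Fin 2 → ℂ) (ha : a ≠ 0) (v : Fin 2 → ℂ) :
    lfv a v = 0 ↔ ∃ t : ℂ, v = t • jv a := by
  constructor
  · intro h
    by_cases h0 : a 0 = 0
    · have h1 : a 1 ≠ 0 := by
        intro h1; apply ha; ext i; fin_cases i <;> simp [h0, h1]
      refine ⟨v 0 / a 1, ?_⟩
      have : v 1 = 0 := by
        have := h; simp [lfv, h0, h1] at this; exact this
      ext i; fin_cases i
      · simp [jv]; field_simp
      · simp [jv, this, h0]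
    · refine ⟨- (v 1 / a 0), ?_⟩
      have : v 0 = - (a 1 * v 1) / a 0 := by
        field_simp; unfold lfv at h; linear_combination h
      ext i; fin_cases i
      · simp [jv, this]; field_simp
      · simp [jv]; field_simp
  · rintro ⟨t, rfl⟩
    have := lf_jv_self a
    simp only [lfv, Pi.smul_apply, smul_eq_mul] at this ⊢
    linear_combination t * this

lemma Lf_prime (a : Fin 2 → ℂ) (ha : a ≠ 0) : Prime (Lf a) := by
  refine ⟨Lf_ne_zero a ha, ?_, ?_⟩
  · intro hu
    have h1 : IsUnit (eval (0 : Fin 2 → ℂ) (Lf a)) := hu.map _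
    rw [eval_Lf] at h1
    simp [lfv] at h1
  · intro f g hfg
    -- one variable: t ↦ f (t • jv a)
    let φ : P2 →ₐ[ℂ] Polynomial ℂ := aeval (fun i => Polynomial.C (jv a i) * Polynomial.X)
    have hφ : ∀ (h : P2) (t : ℂ), (φ h).eval t = eval (t • jv a) h := by
      intro h t
      induction h using MvPolynomial.induction_on with
      | C c => simp [φ]
      | add p q hp hq => simp [hp, hq]
      | mul_X p i hp =>
        rw [map_mul, Polynomial.eval_mul, hp, map_mul, eval_X]
        congr 1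
        simp only [φ, aeval_X, Polynomial.eval_mul, Polynomial.eval_C, Polynomial.eval_X,
          Pi.smul_apply, smul_eq_mul]
        ring
    have hz : ∀ h : P2, Lf a ∣ h ↔ φ h = 0 := by
      intro h
      rw [Lf_dvd_iff a ha]
      constructor
      · intro hv
        apply Polynomial.funext
        intro t
        rw [hφ, hv _ ((lf_zero_iff a ha _).2 ⟨t, rfl⟩)]; simp
      · intro h0 v hv
        obtain ⟨t, rfl⟩ := (lf_zero_iff a ha v).1 hv
        rw [← hφ, h0]; simp
    rw [hz] at hfg ⊢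
    rw [hz]
    rw [map_mul] at hfg
    exact mul_eq_zero.1 hfg

lemma Lf_isRelPrime (a b : Fin 2 → ℂ) (ha : a ≠ 0) (hab : br a b ≠ 0) (m k : ℕ) :
    IsRelPrime (Lf a ^ m) (Lf b ^ k) := by
  apply IsRelPrime.pow
  rw [(Lf_prime a ha).irreducible.isRelPrime_iff_not_dvd, Lf_dvd_iff a ha]
  intro h
  have := h (jv a) (lf_jv_self a)
  rw [eval_Lf, lf_jv] at this
  apply hab
  unfold br at this ⊢
  linear_combination -this

lemma totalDegree_Lf (a : Fin 2 → ℂ) (ha : a ≠ 0) : (Lf a).totalDegree = 1 := by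
  apply le_antisymm
  · unfold Lf
    refine (totalDegree_add _ _).trans (max_le ?_ ?_) <;>
    · refine (totalDegree_mul _ _).trans ?_
      simp
  · by_contra h
    have h0 : (Lf a).totalDegree = 0 := by omega
    rw [totalDegree_eq_zero_iff_eq_C] at h0
    have hc : coeff 0 (Lf a) = 0 := by simp [Lf]
    rw [hc] at h0
    apply Lf_ne_zero a ha
    rw [h0, map_zero]

lemma Lf_mulVec (a b : Fin 2 → ℂ) (w : Matrix (Fin 2) (Fin 2) ℂ) (c : ℂ)
    (h : ∀ v, lfv b (w.mulVec v) = c * lfv a v) : sub2 w (Lf b) = C c * Lf a := by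
  apply MvPolynomial.funext
  intro v
  rw [eval_sub2, eval_Lf, h, map_mul, eval_C, eval_Lf]

/-- semi-invariants are divisible by powers of the form -/
lemma semi_dvd (a : Fin 2 → ℂ) (ha : a ≠ 0) (w : Matrix (Fin 2) (Fin 2) ℂ) (ζ : ℂ) (e : ℕ)
    (hζ : IsPrimitiveRoot ζ e)
    (hw : ∀ v, lfv a (w.mulVec v) = ζ * lfv a v) (hwH : ∀ v, lfv a v = 0 → w.mulVec v = v)
    (m : ℕ) (hm : m < e) (f : P2) (hf : sub2 w f = C (ζ ^ m) * f) : Lf a ^ m ∣ f := by
  have hζ0 : ζ ≠ 0 := hζ.ne_zero (by omega)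
  induction m generalizing f with
  | zero => simp
  | succ m ih =>
    have h1 : Lf a ∣ f := by
      apply Lf_dvd_of_vanish a ha
      intro v hv
      have h2 := congrArg (eval v) hf
      rw [eval_sub2, hwH v hv, map_mul, eval_C] at h2
      have h3 : ζ ^ (m + 1) ≠ 1 := hζ.pow_ne_one_of_pos_of_lt (by omega) hm
      have h4 : (1 - ζ ^ (m + 1)) * eval v f = 0 := by linear_combination h2
      rcases mul_eq_zero.1 h4 with h5 | h5
      · exact absurd (by linear_combination -h5) h3
      · exact h5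
    obtain ⟨g, rfl⟩ := h1
    rw [map_mul, Lf_mulVec a a w ζ hw] at hf
    have h2 : sub2 w g = C (ζ ^ m) * g := by
      have h3 : C ζ * Lf a ≠ 0 := mul_ne_zero (by simpa using hζ0) (Lf_ne_zero a ha)
      apply mul_left_cancel₀ h3
      rw [hf, pow_succ, C_mul]; ring
    have h4 := ih (by omega) g h2
    rw [pow_succ']
    exact mul_dvd_mul_left _ h4

lemma inv_dvd (a : Fin 2 → ℂ) (ha : a ≠ 0) (w : Matrix (Fin 2) (Fin 2) ℂ) (ζ : ℂ) (e : ℕ)
    (he : 0 < e) (hζ : IsPrimitiveRoot ζ e)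
    (hw : ∀ v, lfv a (w.mulVec v) = ζ * lfv a v) (hwH : ∀ v, lfv a v = 0 → w.mulVec v = v)
    (f : P2) (hf : sub2 w f = f) (hv : ∀ v, lfv a v = 0 → eval v f = 0) : Lf a ^ e ∣ f := by
  have hζ0 : ζ ≠ 0 := hζ.ne_zero (by omega)
  obtain ⟨g, rfl⟩ := Lf_dvd_of_vanish a ha f hv
  rw [map_mul, Lf_mulVec a a w ζ hw] at hf
  have h2 : sub2 w g = C (ζ ^ (e - 1)) * g := by
    have h3 : C ζ * Lf a ≠ 0 := mul_ne_zero (by simpa using hζ0) (Lf_ne_zero a ha)
    apply mul_left_cancel₀ h3
    rw [hf]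
    have h5 : (C ζ * C (ζ ^ (e - 1)) : P2) = 1 := by
      rw [← C_mul, ← pow_succ', Nat.sub_add_cancel he, hζ.pow_eq_one, C_1]
    calc Lf a * g = (C ζ * C (ζ ^ (e - 1))) * (Lf a * g) := by rw [h5, one_mul]
      _ = _ := by ring
  have h4 := semi_dvd a ha w ζ e hζ hw hwH (e - 1) (by omega) g h2
  have h5 : Lf a ^ e = Lf a * Lf a ^ (e - 1) := by
    rw [← pow_succ', Nat.sub_add_cancel he]
  rw [h5]
  exact mul_dvd_mul_left _ h4

/-- the gauge lemma for determinants -/
lemma det_gauge {S : Type*} [CommRing S] [IsDomain S] {n : Type*} [Fintype n] [DecidableEq n]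
    (M : Matrix n n S) (p : S) (hp : p ≠ 0) (γ : n → ℕ) (e : ℕ)
    (h : ∀ r s, p ^ (γ r + if γ r = 0 then e else 0) ∣ M r s * p ^ (γ s)) :
    p ^ (e * (Finset.univ.filter (fun r => γ r = 0)).card) ∣ M.det := by
  choose N hN using h
  have h1 : M * Matrix.diagonal (fun s => p ^ (γ s)) =
      Matrix.diagonal (fun r => p ^ (γ r + if γ r = 0 then e else 0)) * Matrix.of N := by
    ext r s
    rw [Matrix.mul_diagonal, Matrix.diagonal_mul, hN]; rfl
  have h2 := congrArg Matrix.det h1
  rw [Matrix.det_mul, Matrix.det_mul, Matrix.det_diagonal, Matrix.det_diagonal] at h2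
  have h3 : (∏ r, p ^ (γ r + if γ r = 0 then e else 0)) =
      (∏ r, p ^ γ r) * p ^ (e * (Finset.univ.filter (fun r => γ r = 0)).card) := by
    simp_rw [pow_add]
    rw [Finset.prod_mul_distrib]
    congr 1
    rw [Finset.prod_pow_eq_pow_sum]
    congr 1
    rw [← Finset.sum_filter, Finset.sum_const, smul_eq_mul, mul_comm]
  rw [h3] at h2
  have h4 : (∏ r, p ^ γ r) ≠ 0 := Finset.prod_ne_zero_iff.2 (fun r _ => pow_ne_zero _ hp)
  refine ⟨(Matrix.of N).det, ?_⟩
  apply mul_left_cancel₀ h4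
  rw [mul_comm _ M.det, h2]; ring

end Pool.Agent.CMF.CM3X
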