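import Pool.Agent.CMF.T0A

/-!
CMF, module T0B: reflection arrangements in the plane, the polynomials `q_H`, and the
divisibility of the determinant.
-/

open MvPolynomial

namespace Pool.Agent.CMF.CM3X

/-- lines in the plane with, for each line, a linear map fixing the line pointwise and
permuting the lines -/
structure RefArr (ι : Type*) where
  a : ι → Fin 2 → ℂ
  ha : ∀ i, a i ≠ 0
  hind : ∀ i j, i ≠ j → br (a i) (a j) ≠ 0
  e : ι → ℕ
  he : ∀ i, 0 < e i
  ζ : ι → ℂ
  hζ : ∀ i, IsPrimitiveRoot (ζ i) (e i)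
  w : ι → Matrix (Fin 2) (Fin 2) ℂ
  hw : ∀ i v, lfv (a i) ((w i).mulVec v) = ζ i * lfv (a i) v
  hwH : ∀ i v, lfv (a i) v = 0 → (w i).mulVec v = v
  σ : ι → Equiv.Perm ι
  κ : ι → ι → ℂ
  hperm : ∀ i j v, lfv (a (σ i j)) ((w i).mulVec v) = κ i j * lfv (a j) v

variable {ι : Type*} [Fintype ι] [DecidableEq ι]

/-- the polynomial `alpha_j (theta) / alpha_j` -/
noncomputable def qp (a : ι → Fin 2 → ℂ) (j : ι) : P2 :=
  ∑ k ∈ Finset.univ.erase j, C (br (a j) (a k)) *
    ∏ l ∈ (Finset.univ.erase j).erase k, Lf (a l)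

omit [DecidableEq ι] in
lemma br_self (a : Fin 2 → ℂ) : br a a = 0 := by unfold br; ring

omit [DecidableEq ι] in
lemma br_swap (a b : Fin 2 → ℂ) : br a b = - br b a := by unfold br; ring

/-- the vector field theta at a point off the lines -/
noncomputable def thv (a : ι → Fin 2 → ℂ) (x : Fin 2 → ℂ) : Fin 2 → ℂ :=
  (∏ l, lfv (a l) x) • ∑ k, (lfv (a k) x)⁻¹ • jv (a k)

omit [DecidableEq ι] [Fintype ι] in
lemma lf_smul (a : Fin 2 → ℂ) (c : ℂ) (v : Fin 2 → ℂ) : lfv a (c • v) = c * lfv a v := by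
  simp [lfv]; ring

omit [DecidableEq ι] [Fintype ι] in
lemma lf_add (a v w : Fin 2 → ℂ) : lfv a (v + w) = lfv a v + lfv a w := by
  simp [lfv]; ring

omit [DecidableEq ι] [Fintype ι] in
lemma lf_sum {κ : Type*} (s : Finset κ) (a : Fin 2 → ℂ) (f : κ → Fin 2 → ℂ) :
    lfv a (∑ k ∈ s, f k) = ∑ k ∈ s, lfv a (f k) := by
  classical
  induction s using Finset.induction_on with
  | empty => simp [lfv]
  | insert b s hb ih => rw [Finset.sum_insert hb, Finset.sum_insert hb, lf_add, ih]

lemma eval_qp (a : ι → Fin 2 → ℂ) (x : Fin 2 → ℂ) (hx : ∀ i, lfv (a i) x ≠ 0) (j : ι) :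
    eval x (qp a j) = lfv (a j) (thv a x) / lfv (a j) x := by
  unfold qp thv
  rw [map_sum, lf_smul, lf_sum, eq_div_iff (hx j), Finset.sum_mul]
  rw [← Finset.add_sum_erase _ _ (Finset.mem_univ j), lf_smul, lf_jv_self, mul_zero, zero_add,
    Finset.mul_sum]
  apply Finset.sum_congr rfl
  intro k hk
  have hkj : k ≠ j := Finset.ne_of_mem_erase hk
  rw [map_mul, eval_C, map_prod, lf_smul, lf_jv]
  simp_rw [eval_Lf]
  have h1 : (∏ l, lfv (a l) x) = lfv (a j) x * (lfv (a k) x *
      ∏ l ∈ (Finset.univ.erase j).erase k, lfv (a l) x) := by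
    rw [Finset.mul_prod_erase _ (fun l => lfv (a l) x) hk,
      Finset.mul_prod_erase _ (fun l => lfv (a l) x) (Finset.mem_univ j)]
  rw [h1]
  have := hx k
  field_simp

/-- at points of the line `H_i` -/
lemma eval_qp_line (a : ι → Fin 2 → ℂ) (i j : ι) (t : ℂ) :
    t * eval (t • jv (a i)) (qp a j) =
      if j = i then - ((Fintype.card ι : ℂ) - 1) *
          ∏ l ∈ Finset.univ.erase i, lfv (a l) (t • jv (a i))
      else ∏ l ∈ Finset.univ.erase i, lfv (a l) (t • jv (a i)) := by
  set v := t • jv (a i) with hv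
  have hl : ∀ l, lfv (a l) v = t * br (a l) (a i) := by
    intro l; rw [hv, lf_smul, lf_jv]
  split_ifs with hji
  · subst hji
    unfold qp
    rw [map_sum, Finset.mul_sum]
    have h1 : ∀ k ∈ Finset.univ.erase j,
        t * eval v (C (br (a j) (a k)) * ∏ l ∈ (Finset.univ.erase j).erase k, Lf (a l)) =
        - ∏ l ∈ Finset.univ.erase j, lfv (a l) v := by
      intro k hk
      rw [map_mul, eval_C, map_prod]
      simp_rw [eval_Lf]
      rw [← Finset.mul_prod_erase _ _ hk, hl k, br_swap (a k) (a j)]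
      ring
    rw [Finset.sum_congr rfl h1, Finset.sum_const, Finset.card_erase_of_mem (Finset.mem_univ j),
      Finset.card_univ, nsmul_eq_mul, Nat.cast_sub (Fintype.card_pos_iff.2 ⟨j⟩)]
    push_cast
    ring
  · unfold qp
    rw [map_sum, Finset.mul_sum]
    have hi : i ∈ Finset.univ.erase j := Finset.mem_erase.2 ⟨fun h => hji h.symm,
      Finset.mem_univ i⟩
    rw [Finset.sum_eq_single_of_mem i hi]
    · rw [map_mul, eval_C, map_prod]
      simp_rw [eval_Lf]
      have hj : j ∈ Finset.univ.erase i := Finset.mem_erase.2 ⟨hji, Finset.mem_univ j⟩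
      rw [← Finset.mul_prod_erase _ _ hj, hl j, Finset.erase_right_comm]
      ring
    · intro k hk hki
      rw [map_mul, eval_C, map_prod]
      have : i ∈ (Finset.univ.erase j).erase k := Finset.mem_erase.2 ⟨fun h => hki h.symm, hi⟩
      rw [Finset.prod_eq_zero this]
      · simp
      · rw [eval_Lf, hl i, br_self, mul_zero]

/-- polynomials vanishing at `t • v` after multiplication by `t` vanish there -/
lemma eval_line_zero (f : P2) (v : Fin 2 → ℂ) (h : ∀ t : ℂ, t * eval (t • v) f = 0) (t : ℂ) :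
    eval (t • v) f = 0 := by
  let φ : P2 →ₐ[ℂ] Polynomial ℂ := aeval (fun i => Polynomial.C (v i) * Polynomial.X)
  have hφ : ∀ (h : P2) (t : ℂ), (φ h).eval t = eval (t • v) h := by
    intro h t
    induction h using MvPolynomial.induction_on with
    | C c => simp [φ]
    | add p q hp hq => simp [hp, hq]
    | mul_X p i hp =>
      rw [map_mul, Polynomial.eval_mul, hp, map_mul, eval_X]
      congr 1
      simp only [φ, aeval_X, Polynomial.eval_mul, Polynomial.eval_C, Polynomial.eval_X,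
        Pi.smul_apply, smul_eq_mul]
      ring
  have h1 : Polynomial.X * φ f = 0 := by
    apply Polynomial.funext
    intro s
    rw [Polynomial.eval_mul, Polynomial.eval_X, hφ, h s]; simp
  have h2 : φ f = 0 := by
    rcases mul_eq_zero.1 h1 with h3 | h3
    · exact absurd h3 Polynomial.X_ne_zero
    · exact h3
  rw [← hφ, h2]; simp

namespace RefArr

variable (A : RefArr ι)

omit [Fintype ι] [DecidableEq ι] in
lemma sigma_self (i : ι) : A.σ i i = i := by
  by_contra h
  have h1 := A.hind _ _ h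
  apply h1
  have h2 := A.hperm i i (jv (A.a i))
  rw [A.hwH i _ (lf_jv_self _), lf_jv_self, mul_zero, lf_jv] at h2
  exact h2

omit [Fintype ι] [DecidableEq ι] in
lemma exists_lf_ne (i : ι) : ∃ v, lfv (A.a i) v ≠ 0 := by
  by_contra h
  push Not at h
  apply Lf_ne_zero _ (A.ha i)
  apply MvPolynomial.funext
  intro v
  rw [eval_Lf, h v, map_zero]

omit [Fintype ι] [DecidableEq ι] in
lemma kappa_self (i : ι) : A.κ i i = A.ζ i := by
  obtain ⟨v, hv⟩ := A.exists_lf_ne i
  have h1 := A.hperm i i v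
  rw [A.sigma_self, A.hw] at h1
  exact (mul_right_cancel₀ hv h1).symm

omit [Fintype ι] [DecidableEq ι] in
lemma row_eq (i j : ι) (u : Fin 2) : A.a (A.σ i j) 0 * A.w i 0 u + A.a (A.σ i j) 1 * A.w i 1 u =
    A.κ i j * A.a j u := by
  have h := A.hperm i j (Pi.single u 1)
  rw [Matrix.mulVec_single_one] at h
  simp only [lfv, Matrix.col_apply] at h
  rw [h]
  fin_cases u <;> simp

omit [Fintype ι] [DecidableEq ι] in
lemma br_w (i j k : ι) : br (A.a (A.σ i j)) (A.a (A.σ i k)) * (A.w i).det =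
    A.κ i j * A.κ i k * br (A.a j) (A.a k) := by
  rw [Matrix.det_fin_two]
  unfold br
  have h1 := A.row_eq i j 0
  have h2 := A.row_eq i j 1
  have h3 := A.row_eq i k 0
  have h4 := A.row_eq i k 1
  linear_combination (A.a (A.σ i k) 0 * A.w i 0 1 + A.a (A.σ i k) 1 * A.w i 1 1) * h1 -
    (A.a (A.σ i k) 0 * A.w i 0 0 + A.a (A.σ i k) 1 * A.w i 1 0) * h2 +
    A.κ i j * A.a j 0 * h4 - A.κ i j * A.a j 1 * h3

omit [Fintype ι] [DecidableEq ι] in
lemma det_w (i : ι) : (A.w i).det = A.ζ i := by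
  obtain ⟨u, hu⟩ := A.exists_lf_ne i
  have h1 := A.hwH i (jv (A.a i)) (lf_jv_self _)
  have h2 := A.hw i u
  have h3 : ((A.w i).mulVec (jv (A.a i))) 0 = jv (A.a i) 0 := by rw [h1]
  have h4 : ((A.w i).mulVec (jv (A.a i))) 1 = jv (A.a i) 1 := by rw [h1]
  simp only [Matrix.mulVec, dotProduct, Fin.sum_univ_two, jv, Matrix.cons_val_zero,
    Matrix.cons_val_one, Matrix.cons_val_fin_one] at h3 h4
  simp only [lfv, Matrix.mulVec, dotProduct, Fin.sum_univ_two] at h2
  apply mul_right_cancel₀ hu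
  rw [Matrix.det_fin_two]
  unfold lfv
  rw [← h2]
  linear_combination (A.w i 1 0 * u 0 + A.w i 1 1 * u 1) * h3 -
    (A.w i 0 0 * u 0 + A.w i 0 1 * u 1) * h4

lemma prod_kappa_erase (i : ι) : ∏ l ∈ Finset.univ.erase i, A.κ i l = 1 := by
  have h1 : ∏ l ∈ Finset.univ.erase i, lfv (A.a l) (jv (A.a i)) ≠ 0 := by
    apply Finset.prod_ne_zero_iff.2
    intro l hl
    rw [lf_jv]
    exact A.hind _ _ (Finset.ne_of_mem_erase hl)
  have h2 : ∏ l ∈ Finset.univ.erase i, lfv (A.a (A.σ i l)) ((A.w i).mulVec (jv (A.a i))) =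
      ∏ l ∈ Finset.univ.erase i, lfv (A.a l) (jv (A.a i)) := by
    rw [A.hwH i _ (lf_jv_self _)]
    apply Finset.prod_equiv (A.σ i)
    · intro l
      simp only [Finset.mem_erase, Finset.mem_univ, and_true]
      constructor
      · intro h h'
        apply h
        apply (A.σ i).injective
        rw [h', A.sigma_self]
      · intro h h'
        apply h
        rw [h', A.sigma_self]
    · intro l _; rfl
  simp_rw [A.hperm] at h2
  rw [Finset.prod_mul_distrib] at h2
  exact mul_right_cancel₀ h1 (by rw [h2, one_mul])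

lemma prod_kappa (i : ι) : ∏ l, A.κ i l = (A.w i).det := by
  rw [← Finset.mul_prod_erase _ _ (Finset.mem_univ i), A.prod_kappa_erase, mul_one, A.kappa_self,
    A.det_w]

lemma sub2_qp (i j : ι) : sub2 (A.w i) (qp A.a (A.σ i j)) = qp A.a j := by
  unfold qp
  rw [map_sum]
  symm
  apply Finset.sum_equiv (A.σ i)
  · intro k
    simp only [Finset.mem_erase, Finset.mem_univ, and_true]
    constructor
    · intro h h'; exact h ((A.σ i).injective h')
    · intro h h'; exact h (by rw [h'])
  · intro k hk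
    have hkj : k ≠ j := Finset.ne_of_mem_erase hk
    rw [map_mul, map_prod]
    have h1 : ∏ l ∈ (Finset.univ.erase (A.σ i j)).erase (A.σ i k), sub2 (A.w i) (Lf (A.a l)) =
        ∏ l ∈ (Finset.univ.erase j).erase k, (C (A.κ i l) * Lf (A.a l)) := by
      symm
      apply Finset.prod_equiv (A.σ i)
      · intro l
        simp only [Finset.mem_erase, Finset.mem_univ, and_true]
        constructor
        · rintro ⟨h1, h2⟩
          exact ⟨fun h => h1 ((A.σ i).injective h), fun h => h2 ((A.σ i).injective h)⟩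
        · rintro ⟨h1, h2⟩
          exact ⟨fun h => h1 (by rw [h]), fun h => h2 (by rw [h])⟩
      · intro l _
        rw [Lf_mulVec _ _ _ _ (A.hperm i l)]
    rw [h1, Finset.prod_mul_distrib, ← map_prod C]
    have h2 : sub2 (A.w i) (C (br (A.a (A.σ i j)) (A.a (A.σ i k)))) =
        C (br (A.a (A.σ i j)) (A.a (A.σ i k))) := by
      unfold sub2; simp
    rw [h2, ← mul_assoc, ← C_mul]
    congr 2
    have h3 := A.br_w i j k
    have hd : (A.w i).det ≠ 0 := by
      rw [A.det_w]; exact (A.hζ i).ne_zero (by have := A.he i; omega)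
    have h4 : (A.w i).det = A.κ i j * (A.κ i k *
        ∏ l ∈ (Finset.univ.erase j).erase k, A.κ i l) := by
      rw [Finset.mul_prod_erase _ _ hk, Finset.mul_prod_erase _ _ (Finset.mem_univ j),
        A.prod_kappa]
    apply mul_right_cancel₀ hd
    calc br (A.a j) (A.a k) * (A.w i).det
        = (A.κ i j * A.κ i k * br (A.a j) (A.a k)) *
          ∏ l ∈ (Finset.univ.erase j).erase k, A.κ i l := by rw [h4]; ring
      _ = _ := by rw [← h3]; ring

end RefArr

end Pool.Agent.CMF.CM3X
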