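import Pool.Agent.CMF.T0B

/-!
CMF, module T0C: theorem T0, abstract form: the Gaudin operators of a rank two reflection
arrangement are singular when the fixed spaces are large.
-/

open MvPolynomial

namespace Pool.Agent.CMF.CM3X

section Diag

variable {E : Type*} [AddCommGroup E] [Module ℂ E] [FiniteDimensional ℂ E]

lemma diag_basis (W : Module.End ℂ E) (e : ℕ) (he : 0 < e) (ζ : ℂ) (hζ : IsPrimitiveRoot ζ e)
    (hW : W ^ e = 1) :
    ∃ (n : Type) (_ : Fintype n) (_ : DecidableEq n) (b : Module.Basis n ℂ E) (γ : n → ℕ),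
      (∀ r, γ r < e) ∧ (∀ r, W (b r) = ζ ^ γ r • b r) ∧
      (Finset.univ.filter (fun r => γ r = 0)).card =
        Module.finrank ℂ (LinearMap.ker (W - 1)) := by
  classical
  have hss : W.IsSemisimple := by
    apply Module.End.isSemisimple_of_squarefree_aeval_eq_zero
      (p := Polynomial.X ^ e - Polynomial.C 1)
    · exact (Polynomial.separable_X_pow_sub_C (1 : ℂ) (by exact_mod_cast he.ne')
        one_ne_zero).squarefree
    · simp [hW]
  have htop := hss.iSup_eigenspace_eq_top
  let A : Fin e → Submodule ℂ E := fun i => W.eigenspace (ζ ^ (i : ℕ))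
  have hA1 : iSupIndep A :=
    (W.eigenspaces_iSupIndep).comp (fun i j h => Fin.ext (hζ.pow_inj i.2 j.2 h))
  have hA2 : ⨆ i, A i = ⊤ := by
    rw [eq_top_iff, ← htop]
    apply iSup_le
    intro μ
    by_cases hμ : W.eigenspace μ = ⊥
    · rw [hμ]; exact bot_le
    · obtain ⟨x, hx, hx0⟩ := (Submodule.ne_bot_iff _).1 hμ
      have hx' : W x = μ • x := Module.End.mem_eigenspace_iff.1 hx
      have h1 : ∀ m : ℕ, (W ^ m) x = μ ^ m • x := by
        intro m
        induction m with
        | zero => simp
        | succ m ih =>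
          rw [pow_succ', Module.End.mul_apply, ih, map_smul, hx', smul_smul, pow_succ]
      have h2 : μ ^ e = 1 := by
        have h3 := h1 e
        rw [hW, Module.End.one_apply] at h3
        have h4 : (μ ^ e - 1) • x = 0 := by rw [sub_smul, one_smul, ← h3, sub_self]
        rcases smul_eq_zero.1 h4 with h5 | h5
        · exact sub_eq_zero.1 h5
        · exact absurd h5 hx0
      have : NeZero e := ⟨he.ne'⟩
      obtain ⟨i, hi, rfl⟩ := hζ.eq_pow_of_pow_eq_one h2
      exact le_iSup A ⟨i, hi⟩
  have hint := DirectSum.isInternal_submodule_of_iSupIndep_of_iSup_eq_top hA1 hA2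
  let v : ∀ i, Module.Basis (Fin (Module.finrank ℂ (A i))) ℂ (A i) :=
    fun i => Module.finBasis ℂ (A i)
  refine ⟨Σ i, Fin (Module.finrank ℂ (A i)), inferInstance, inferInstance,
    hint.collectedBasis v, fun r => (r.1 : ℕ), fun r => r.1.2, ?_, ?_⟩
  · intro r
    exact Module.End.mem_eigenspace_iff.1 (hint.collectedBasis_mem v r)
  · have h0 : LinearMap.ker (W - 1) = A ⟨0, he⟩ := by
      ext x
      simp only [A, LinearMap.mem_ker, Module.End.mem_eigenspace_iff, pow_zero, one_smul,
        LinearMap.sub_apply, Module.End.one_apply, sub_eq_zero]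
    rw [h0, ← Fintype.card_fin (Module.finrank ℂ (A ⟨0, he⟩)), ← Finset.card_univ]
    symm
    apply Finset.card_bij (fun j _ => (⟨⟨0, he⟩, j⟩ : Σ i, Fin (Module.finrank ℂ (A i))))
    · intro j _; simp
    · intro j _ k _ h
      simpa using h
    · rintro ⟨⟨i, hi⟩, j⟩ h
      simp only [Finset.mem_filter, Finset.mem_univ, true_and] at h
      subst h
      exact ⟨j, Finset.mem_univ _, rfl⟩

end Diag

variable {ι : Type*} [Fintype ι] [DecidableEq ι]
variable {E : Type*} [AddCommGroup E] [Module ℂ E]

/-- the matrix of the polynomial Gaudin operator in a basis -/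
noncomputable def MM (a : ι → Fin 2 → ℂ) (R : ι → Module.End ℂ E) {n : Type} [Fintype n]
    [DecidableEq n] (b : Module.Basis n ℂ E) : Matrix n n P2 :=
  Matrix.of fun r s => ∑ j, qp a j * C (LinearMap.toMatrix b b (R j) r s)

lemma eval_MM (a : ι → Fin 2 → ℂ) (R : ι → Module.End ℂ E) {n : Type} [Fintype n]
    [DecidableEq n] (b : Module.Basis n ℂ E) (x : Fin 2 → ℂ) :
    eval x (MM a R b).det = LinearMap.det (∑ j, eval x (qp a j) • R j) := by
  rw [← LinearMap.det_toMatrix b, RingHom.map_det]
  congr 1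
  ext r s
  simp [MM, map_sum, Matrix.sum_apply]

lemma MM_det_indep (a : ι → Fin 2 → ℂ) (R : ι → Module.End ℂ E) {n m : Type} [Fintype n]
    [DecidableEq n] [Fintype m] [DecidableEq m] (b : Module.Basis n ℂ E)
    (c : Module.Basis m ℂ E) : (MM a R b).det = (MM a R c).det := by
  apply MvPolynomial.funext
  intro x
  rw [eval_MM, eval_MM]

lemma totalDegree_qp (a : ι → Fin 2 → ℂ) (ha : ∀ i, a i ≠ 0) (j : ι) :
    (qp a j).totalDegree ≤ Fintype.card ι - 2 := by
  unfold qp
  apply totalDegree_finsetSum_le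
  intro k hk
  refine (totalDegree_mul _ _).trans ?_
  rw [totalDegree_C, zero_add]
  refine (totalDegree_finsetProd _ _).trans ?_
  rw [Finset.sum_congr rfl (fun l _ => totalDegree_Lf (a l) (ha l)), Finset.sum_const,
    Finset.card_erase_of_mem hk, Finset.card_erase_of_mem (Finset.mem_univ j), Finset.card_univ,
    smul_eq_mul, mul_one]
  omega

lemma totalDegree_det (a : ι → Fin 2 → ℂ) (ha : ∀ i, a i ≠ 0) (R : ι → Module.End ℂ E)
    {n : Type} [Fintype n] [DecidableEq n] (b : Module.Basis n ℂ E) :
    (MM a R b).det.totalDegree ≤ Fintype.card n * (Fintype.card ι - 2) := by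
  rw [Matrix.det_apply]
  apply totalDegree_finsetSum_le
  intro τ _
  have h1 : (∏ i, MM a R b (τ i) i).totalDegree ≤ Fintype.card n * (Fintype.card ι - 2) := by
    refine (totalDegree_finsetProd _ _).trans ?_
    rw [← Finset.card_univ, ← smul_eq_mul, ← Finset.sum_const]
    apply Finset.sum_le_sum
    intro i _
    unfold MM
    simp only [Matrix.of_apply]
    apply totalDegree_finsetSum_le
    intro j _
    refine (totalDegree_mul _ _).trans ?_
    rw [totalDegree_C, add_zero]
    exact totalDegree_qp a ha j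
  rcases Int.units_eq_one_or (Equiv.Perm.sign τ) with h | h
  · rw [h, one_smul]; exact h1
  · rw [h]
    have : ((-1 : ℤˣ) • ∏ i, MM a R b (τ i) i) = - ∏ i, MM a R b (τ i) i := by
      rw [Units.smul_def]; simp
    rw [this, totalDegree_neg]
    exact h1

namespace RefArr

variable (A : RefArr ι)

lemma local_dvd (R : ι → Module.End ℂ E) (hR : ∑ j, R j = 0) (i : ι) (W : Module.End ℂ E)
    (hWR : ∀ j, W * R j = R (A.σ i j) * W) (hker : ∀ x, W x = x → R i x = 0)
    {n : Type} [Fintype n] [DecidableEq n] (b : Module.Basis n ℂ E) (γ : n → ℕ)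
    (hγ : ∀ r, γ r < A.e i) (hb : ∀ r, W (b r) = A.ζ i ^ γ r • b r) :
    Lf (A.a i) ^ (A.e i * (Finset.univ.filter (fun r => γ r = 0)).card) ∣ (MM A.a R b).det := by
  apply det_gauge _ _ (Lf_ne_zero _ (A.ha i))
  intro r s
  have hζ0 : A.ζ i ≠ 0 := (A.hζ i).ne_zero (by have := A.he i; omega)
  -- entries
  have hW : LinearMap.toMatrix b b W = Matrix.diagonal (fun r => A.ζ i ^ γ r) := by
    ext r s
    rw [LinearMap.toMatrix_apply, hb, map_smul, Module.Basis.repr_self, Finsupp.smul_apply,
      Finsupp.single_apply, Matrix.diagonal_apply, smul_eq_mul]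
    by_cases h : r = s
    · subst h; simp
    · rw [if_neg h, if_neg (fun h' => h h'.symm)]; simp
  have hent : ∀ j, A.ζ i ^ γ r * LinearMap.toMatrix b b (R j) r s =
      LinearMap.toMatrix b b (R (A.σ i j)) r s * A.ζ i ^ γ s := by
    intro j
    have h1 := congrArg (LinearMap.toMatrix b b) (hWR j)
    rw [LinearMap.toMatrix_mul, LinearMap.toMatrix_mul, hW] at h1
    have h2 := congrFun (congrFun h1 r) s
    rwa [Matrix.diagonal_mul, Matrix.mul_diagonal] at h2
  set f : P2 := MM A.a R b r s with hf
  have hsub : C (A.ζ i ^ γ s) * sub2 (A.w i) f = C (A.ζ i ^ γ r) * f := by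
    rw [hf]
    unfold MM
    simp only [Matrix.of_apply]
    rw [map_sum, Finset.mul_sum, Finset.mul_sum]
    symm
    apply Finset.sum_equiv (A.σ i)
    · intro j; simp
    · intro j _
      rw [map_mul, A.sub2_qp]
      have h2 : sub2 (A.w i) (C (LinearMap.toMatrix b b (R (A.σ i j)) r s)) =
          C (LinearMap.toMatrix b b (R (A.σ i j)) r s) := by unfold sub2; simp
      rw [h2]
      have h3 := congrArg (C : ℂ → P2) (hent j)
      rw [C_mul, C_mul] at h3
      calc C (A.ζ i ^ γ r) * (qp A.a j * C (LinearMap.toMatrix b b (R j) r s))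
          = qp A.a j * (C (A.ζ i ^ γ r) * C (LinearMap.toMatrix b b (R j) r s)) := by ring
        _ = _ := by rw [h3]; ring
  have hsub' : sub2 (A.w i) (f * Lf (A.a i) ^ γ s) = C (A.ζ i ^ γ r) * (f * Lf (A.a i) ^ γ s) := by
    rw [map_mul, map_pow, Lf_mulVec _ _ _ _ (A.hw i), mul_pow, ← C_pow]
    calc sub2 (A.w i) f * (C (A.ζ i ^ γ s) * Lf (A.a i) ^ γ s)
        = (C (A.ζ i ^ γ s) * sub2 (A.w i) f) * Lf (A.a i) ^ γ s := by ring
      _ = _ := by rw [hsub]; ring
  by_cases hr : γ r = 0
  · rw [if_pos hr, hr, zero_add]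
    rw [hr, pow_zero, C_1, one_mul] at hsub'
    apply inv_dvd _ (A.ha i) (A.w i) (A.ζ i) (A.e i) (A.he i) (A.hζ i) (A.hw i) (A.hwH i) _ hsub'
    intro v hv
    obtain ⟨t, rfl⟩ := (lf_zero_iff _ (A.ha i) v).1 hv
    by_cases hs : γ s = 0
    · rw [hs, pow_zero, mul_one]
      apply eval_line_zero
      intro t
      have hRi : LinearMap.toMatrix b b (R i) r s = 0 := by
        rw [LinearMap.toMatrix_apply, hker (b s) (by rw [hb, hs, pow_zero, one_smul])]
        simp
      have hsum : ∑ j, LinearMap.toMatrix b b (R j) r s = 0 := by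
        have h1 := congrArg (LinearMap.toMatrix b b) hR
        rw [map_sum, map_zero] at h1
        have h2 := congrFun (congrFun h1 r) s
        rwa [Matrix.sum_apply] at h2
      rw [hf]
      unfold MM
      simp only [Matrix.of_apply, map_sum, map_mul, eval_C]
      rw [Finset.mul_sum]
      have h3 : ∀ j, t * (eval (t • jv (A.a i)) (qp A.a j) *
          LinearMap.toMatrix b b (R j) r s) =
          (∏ l ∈ Finset.univ.erase i, lfv (A.a l) (t • jv (A.a i))) *
            LinearMap.toMatrix b b (R j) r s := by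
        intro j
        rw [← mul_assoc, eval_qp_line]
        split_ifs with h
        · rw [h, hRi]; simp
        · rfl
      rw [Finset.sum_congr rfl (fun j _ => h3 j), ← Finset.mul_sum, hsum, mul_zero]
    · rw [map_mul, map_pow, eval_Lf, lf_smul, lf_jv_self, mul_zero, zero_pow hs, mul_zero]
  · rw [if_neg hr, add_zero]
    exact semi_dvd _ (A.ha i) (A.w i) (A.ζ i) (A.e i) (A.hζ i) (A.hw i) (A.hwH i) _ (hγ r) _ hsub'

/-- THEOREM T0, polynomial form -/
theorem det_qp_zero [FiniteDimensional ℂ E] (R W : ι → Module.End ℂ E) (hR : ∑ j, R j = 0)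
    (hW : ∀ i, W i ^ A.e i = 1)
    (hWR : ∀ i j, W i * R j = R (A.σ i j) * W i) (hker : ∀ i x, W i x = x → R i x = 0)
    (hcount : Fintype.card ι * Module.finrank ℂ E <
      ∑ i, A.e i * Module.finrank ℂ (LinearMap.ker (W i - 1)) + 2 * Module.finrank ℂ E)
    (x : Fin 2 → ℂ) : LinearMap.det (∑ j, eval x (qp A.a j) • R j) = 0 := by
  have b := Module.finBasis ℂ E
  rw [← eval_MM A.a R b]
  have key : (MM A.a R b).det = 0 := by
    by_contra hne
    have h1 : ∀ i, Lf (A.a i) ^ (A.e i * Module.finrank ℂ (LinearMap.ker (W i - 1))) ∣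
        (MM A.a R b).det := by
      intro i
      obtain ⟨n, i1, i2, c, γ, hγ, hc, hcard⟩ := diag_basis (W i) (A.e i) (A.he i) (A.ζ i)
        (A.hζ i) (hW i)
      rw [MM_det_indep A.a R b c, ← hcard]
      exact A.local_dvd R hR i (W i) (hWR i) (hker i) c γ hγ hc
    have h2 : (∏ i, Lf (A.a i) ^ (A.e i * Module.finrank ℂ (LinearMap.ker (W i - 1)))) ∣
        (MM A.a R b).det := by
      apply Fintype.prod_dvd_of_isRelPrime _ h1
      intro i j hij
      exact Lf_isRelPrime _ _ (A.ha i) (A.hind i j hij) _ _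
    have h3 : ∀ s : Finset ι,
        (∏ i ∈ s, Lf (A.a i) ^ (A.e i * Module.finrank ℂ (LinearMap.ker (W i - 1)))).totalDegree =
        ∑ i ∈ s, A.e i * Module.finrank ℂ (LinearMap.ker (W i - 1)) := by
      intro s
      have hp : ∀ (i : ι) (m : ℕ), (Lf (A.a i) ^ m).totalDegree = m := by
        intro i m
        induction m with
        | zero => simp
        | succ m ih =>
          rw [pow_succ, totalDegree_mul_of_isDomain (pow_ne_zero _ (Lf_ne_zero _ (A.ha i)))
            (Lf_ne_zero _ (A.ha i)), ih, totalDegree_Lf _ (A.ha i)]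
      induction s using Finset.induction_on with
      | empty => simp
      | insert i s his ih =>
        rw [Finset.prod_insert his, Finset.sum_insert his, totalDegree_mul_of_isDomain
          (pow_ne_zero _ (Lf_ne_zero _ (A.ha i)))
          (Finset.prod_ne_zero_iff.2 (fun j _ => pow_ne_zero _ (Lf_ne_zero _ (A.ha j)))), ih, hp]
    have h4 := totalDegree_le_of_dvd_of_isDomain h2 hne
    rw [h3] at h4
    have h5 := totalDegree_det A.a A.ha R b
    rw [Fintype.card_fin] at h5
    have h6 := h4.trans h5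
    by_cases hc : 2 ≤ Fintype.card ι
    · obtain ⟨c, hc'⟩ := Nat.exists_eq_add_of_le hc
      rw [hc'] at h6 hcount
      rw [Nat.add_sub_cancel_left] at h6
      nlinarith
    · -- the operator is zero
      apply hne
      have hq : ∀ j, qp A.a j = 0 := by
        intro j
        unfold qp
        apply Finset.sum_eq_zero
        intro k hk
        exfalso
        have hkj := Finset.ne_of_mem_erase hk
        have : 1 < Fintype.card ι := Fintype.one_lt_card_iff.2 ⟨k, j, hkj⟩
        omega
      have hM : MM A.a R b = 0 := by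
        ext r s
        simp [MM, hq]
      have hpos : 0 < Module.finrank ℂ E := by
        by_contra h0
        have h0' : Module.finrank ℂ E = 0 := by omega
        have h7 : ∀ i, Module.finrank ℂ (LinearMap.ker (W i - 1)) = 0 := by
          intro i
          have := Submodule.finrank_le (LinearMap.ker (W i - 1))
          omega
        rw [h0'] at hcount
        simp [h7] at hcount
      have : Nonempty (Fin (Module.finrank ℂ E)) := ⟨⟨0, hpos⟩⟩
      rw [hM, Matrix.det_zero]
  rw [key, map_zero]

end RefArr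

end Pool.Agent.CMF.CM3X
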