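import Pool.Agent.CMF.T0C

/-!
CMF, module T0D: linear algebra for the determinant argument: the operators
`X ↦ P X - X Q` and `X ↦ P X Q` on rectangular matrices, a dimension count, common
eigenvalues.
-/

open MvPolynomial Matrix

namespace Pool.Agent.CMF.CM3X

/-- `X ↦ P X - X Q` -/
def opE {d d' : ℕ} (P : Matrix (Fin d) (Fin d) ℂ) (Q : Matrix (Fin d') (Fin d') ℂ) :
    Module.End ℂ (Matrix (Fin d) (Fin d') ℂ) where
  toFun X := P * X - X * Q
  map_add' X Y := by rw [Matrix.mul_add, Matrix.add_mul]; abel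
  map_smul' c X := by simp [smul_sub]

/-- `X ↦ P X Q` -/
def conjE {d d' : ℕ} (P : Matrix (Fin d) (Fin d) ℂ) (Q : Matrix (Fin d') (Fin d') ℂ) :
    Module.End ℂ (Matrix (Fin d) (Fin d') ℂ) where
  toFun X := P * X * Q
  map_add' X Y := by rw [Matrix.mul_add, Matrix.add_mul]
  map_smul' c X := by simp

lemma conjE_pow {d d' : ℕ} (P : Matrix (Fin d) (Fin d) ℂ) (Q : Matrix (Fin d') (Fin d') ℂ)
    (m : ℕ) : conjE P Q ^ m = conjE (P ^ m) (Q ^ m) := by
  induction m with
  | zero => ext X : 1; simp [conjE]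
  | succ m ih =>
    rw [pow_succ, ih]
    apply LinearMap.ext
    intro X
    show P ^ m * (P * X * Q) * Q ^ m = P ^ (m + 1) * X * Q ^ (m + 1)
    rw [pow_succ P, pow_succ' Q]
    simp only [Matrix.mul_assoc]

/-- rectangular matrices as functions on pairs -/
def vecE (d d' : ℕ) : Matrix (Fin d) (Fin d') ℂ ≃ₗ[ℂ] (Fin d × Fin d' → ℂ) where
  toFun X := fun p => X p.1 p.2
  map_add' _ _ := rfl
  map_smul' _ _ := rfl
  invFun v := Matrix.of fun i j => v (i, j)
  left_inv _ := rfl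
  right_inv _ := rfl

lemma trace_conjE {d d' : ℕ} (P : Matrix (Fin d) (Fin d) ℂ) (Q : Matrix (Fin d') (Fin d') ℂ) :
    LinearMap.trace ℂ _ (conjE P Q) = P.trace * Q.trace := by
  have h1 : (vecE d d').conj (conjE P Q) =
      Matrix.toLin' (Matrix.kroneckerMap (fun a b => a * b) P Qᵀ) := by
    apply LinearMap.ext
    intro v
    funext p
    obtain ⟨i, j⟩ := p
    rw [Matrix.toLin'_apply]
    show (P * (Matrix.of fun i j => v (i, j)) * Q) i j = _
    simp only [Matrix.mul_apply, Matrix.mulVec, dotProduct, Matrix.kroneckerMap_apply,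
      Matrix.transpose_apply, Matrix.of_apply]
    rw [Fintype.sum_prod_type, Finset.sum_comm]
    apply Finset.sum_congr rfl
    intro l _
    rw [Finset.sum_mul]
    apply Finset.sum_congr rfl
    intro k _
    ring
  rw [← LinearMap.trace_conj' (conjE P Q) (vecE d d'), h1, Matrix.trace_toLin'_eq]
  have h2 := Matrix.trace_kronecker P Qᵀ
  rw [Matrix.trace_transpose] at h2
  exact h2

section

variable {E : Type*} [AddCommGroup E] [Module ℂ E] [FiniteDimensional ℂ E]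

omit [FiniteDimensional ℂ E] in
lemma trace_diag {n : Type} [Fintype n] [DecidableEq n] (b : Module.Basis n ℂ E)
    (W : Module.End ℂ E) (ζ : ℂ) (γ : n → ℕ) (hb : ∀ r, W (b r) = ζ ^ γ r • b r) (m : ℕ) :
    LinearMap.trace ℂ E (W ^ m) = ∑ r, (ζ ^ γ r) ^ m := by
  rw [LinearMap.trace_eq_matrix_trace ℂ b]
  unfold Matrix.trace
  apply Finset.sum_congr rfl
  intro r _
  have h1 : (W ^ m) (b r) = (ζ ^ γ r) ^ m • b r := by
    induction m with
    | zero => simp
    | succ m ih =>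
      rw [pow_succ', Module.End.mul_apply, ih, map_smul, hb, smul_smul, ← pow_succ]
  rw [Matrix.diag_apply, LinearMap.toMatrix_apply, h1, map_smul, Module.Basis.repr_self]
  simp

/-- the average of the traces of the powers is the dimension of the fixed space -/
lemma sum_trace_pow (W : Module.End ℂ E) (e : ℕ) (he : 0 < e) (ζ : ℂ)
    (hζ : IsPrimitiveRoot ζ e) (hW : W ^ e = 1) :
    ∑ m ∈ Finset.range e, LinearMap.trace ℂ E (W ^ m) =
      (e : ℂ) * (Module.finrank ℂ (LinearMap.ker (W - 1)) : ℂ) := by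
  obtain ⟨n, i1, i2, b, γ, hγ, hb, hcard⟩ := diag_basis W e he ζ hζ hW
  simp_rw [trace_diag b W ζ γ hb]
  rw [Finset.sum_comm, ← hcard, Finset.card_filter, Nat.cast_sum, Finset.mul_sum]
  apply Finset.sum_congr rfl
  intro r _
  by_cases h : γ r = 0
  · simp [h]
  · rw [if_neg h]
    have h1 : ζ ^ γ r ≠ 1 := hζ.pow_ne_one_of_pos_of_lt h (hγ r)
    have h2 : (ζ ^ γ r) ^ e = 1 := by rw [← pow_mul, mul_comm, pow_mul, hζ.pow_eq_one, one_pow]
    have h3 := mul_geom_sum (ζ ^ γ r) e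
    rw [h2, sub_self] at h3
    rcases mul_eq_zero.1 h3 with h4 | h4
    · exact absurd (sub_eq_zero.1 h4) h1
    · rw [h4]; simp

/-- traces of inverse powers are complex conjugate -/
lemma trace_pow_conj (W : Module.End ℂ E) (e : ℕ) (he : 0 < e) (ζ : ℂ)
    (hζ : IsPrimitiveRoot ζ e) (hW : W ^ e = 1) (m : ℕ) :
    LinearMap.trace ℂ E ((W ^ (e - 1)) ^ m) = star (LinearMap.trace ℂ E (W ^ m)) := by
  obtain ⟨n, i1, i2, b, γ, hγ, hb, hcard⟩ := diag_basis W e he ζ hζ hW
  rw [← pow_mul, trace_diag b W ζ γ hb, trace_diag b W ζ γ hb, star_sum]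
  apply Finset.sum_congr rfl
  intro r _
  have h1 : star ζ = ζ⁻¹ := by
    have h2 : ‖ζ‖ = 1 := hζ.norm'_eq_one (by omega)
    rw [Complex.inv_def, Complex.normSq_eq_norm_sq, h2]
    simp
  have h0 : ζ ≠ 0 := hζ.ne_zero (by omega)
  have h3 : ζ ^ (e - 1) = ζ⁻¹ := by
    apply eq_inv_of_mul_eq_one_left
    rw [← pow_succ, Nat.sub_add_cancel he, hζ.pow_eq_one]
  rw [star_pow, star_pow, h1, pow_mul, ← h3]
  ring

end

/-- the dimension count on one line -/
lemma line_count {d d' : ℕ} (hd : 0 < d) (hd' : 0 < d') (R : Matrix (Fin d) (Fin d) ℂ)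
    (S : Matrix (Fin d') (Fin d') ℂ) (e : ℕ) (he : 0 < e) (ζ : ℂ) (hζ : IsPrimitiveRoot ζ e)
    (hR : R ^ e = 1) (hS : S ^ e = 1)
    (h : ∀ i, 0 < i → i < e → (R ^ i).trace * d' = (S ^ i).trace * d) :
    d * d' ≤ e * Module.finrank ℂ (LinearMap.ker (conjE R (S ^ (e - 1)) - 1)) := by
  have hW : conjE R (S ^ (e - 1)) ^ e = 1 := by
    rw [conjE_pow, hR, ← pow_mul, mul_comm, pow_mul, hS, one_pow]
    apply LinearMap.ext
    intro X
    simp [conjE]
  have h1 := sum_trace_pow (conjE R (S ^ (e - 1))) e he ζ hζ hW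
  have hSt : ∀ i, ((S ^ (e - 1)) ^ i).trace = star ((S ^ i).trace) := by
    intro i
    have h2 := trace_pow_conj (Matrix.toLin' S) e he ζ hζ
      (by rw [← Matrix.toLin'_pow, hS, Matrix.toLin'_one]; rfl) i
    rw [← Matrix.toLin'_pow, ← Matrix.toLin'_pow, ← Matrix.toLin'_pow] at h2
    rwa [Matrix.trace_toLin'_eq, Matrix.trace_toLin'_eq] at h2
  have h2 : ∀ i ∈ Finset.range e, LinearMap.trace ℂ _ (conjE R (S ^ (e - 1)) ^ i) =
      if i = 0 then (d * d' : ℂ) else ((d / d' * ‖(S ^ i).trace‖ ^ 2 : ℝ) : ℂ) := by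
    intro i hi
    rw [conjE_pow, trace_conjE]
    split_ifs with hi0
    · subst hi0; simp
    · rw [hSt i]
      have h3 := h i (Nat.pos_of_ne_zero hi0) (Finset.mem_range.1 hi)
      have hd0 : (d' : ℂ) ≠ 0 := by exact_mod_cast hd'.ne'
      have h4 : (R ^ i).trace = (S ^ i).trace * d / d' := by
        rw [eq_div_iff hd0, h3]
      have h5 : ((‖(S ^ i).trace‖ ^ 2 : ℝ) : ℂ) = (S ^ i).trace * star (S ^ i).trace := by
        have := Complex.mul_conj ((S ^ i).trace)
        rw [Complex.normSq_eq_norm_sq] at this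
        rw [← this]; rfl
      rw [h4]
      push_cast at h5 ⊢
      rw [h5]; ring
  rw [Finset.sum_congr rfl h2] at h1
  rw [← Finset.add_sum_erase _ _ (Finset.mem_range.2 he), if_pos rfl] at h1
  have h3 : ∑ i ∈ (Finset.range e).erase 0,
      (if i = 0 then (d * d' : ℂ) else ((d / d' * ‖(S ^ i).trace‖ ^ 2 : ℝ) : ℂ)) =
      ((∑ i ∈ (Finset.range e).erase 0, (d / d' * ‖(S ^ i).trace‖ ^ 2 : ℝ) : ℝ) : ℂ) := by
    rw [Complex.ofReal_sum]
    apply Finset.sum_congr rfl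
    intro i hi
    rw [if_neg (Finset.ne_of_mem_erase hi)]
  rw [h3] at h1
  have h4 : ((d * d' : ℝ)) + ∑ i ∈ (Finset.range e).erase 0, (d / d' * ‖(S ^ i).trace‖ ^ 2 : ℝ)
      = (e * Module.finrank ℂ (LinearMap.ker (conjE R (S ^ (e - 1)) - 1)) : ℝ) := by
    have := h1
    exact_mod_cast this
  have h5 : 0 ≤ ∑ i ∈ (Finset.range e).erase 0, (d / d' * ‖(S ^ i).trace‖ ^ 2 : ℝ) := by
    apply Finset.sum_nonneg
    intro i _
    positivity
  have h6 : (d * d' : ℝ) ≤
      (e * Module.finrank ℂ (LinearMap.ker (conjE R (S ^ (e - 1)) - 1)) : ℝ) := by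
    linarith
  exact_mod_cast h6

/-- intertwined matrices have a common eigenvalue (on row vectors) -/
lemma common_eigen {d d' : ℕ} (P : Matrix (Fin d) (Fin d) ℂ) (Q : Matrix (Fin d') (Fin d') ℂ)
    (X : Matrix (Fin d) (Fin d') ℂ) (hX : X ≠ 0) (h : P * X = X * Q) :
    ∃ (μ : ℂ) (η : Fin d → ℂ) (η' : Fin d' → ℂ), η ≠ 0 ∧ η' ≠ 0 ∧
      η ᵥ* P = μ • η ∧ η' ᵥ* Q = μ • η' := by
  let rX : (Fin d → ℂ) →ₗ[ℂ] (Fin d' → ℂ) := Matrix.vecMulLinear X
  let rP : Module.End ℂ (Fin d → ℂ) := Matrix.vecMulLinear P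
  let rQ : Module.End ℂ (Fin d' → ℂ) := Matrix.vecMulLinear Q
  have hcomm : ∀ u, rQ (rX u) = rX (rP u) := by
    intro u
    show (u ᵥ* X) ᵥ* Q = (u ᵥ* P) ᵥ* X
    rw [Matrix.vecMul_vecMul, Matrix.vecMul_vecMul, h]
  let U : Submodule ℂ (Fin d' → ℂ) := LinearMap.range rX
  have hU : ∀ v ∈ U, rQ v ∈ U := by
    rintro v ⟨u, rfl⟩
    exact ⟨rP u, (hcomm u).symm⟩
  have hU0 : U ≠ ⊥ := by
    intro hb
    apply hX
    ext i j
    have h1 : rX (Pi.single i 1) ∈ U := ⟨_, rfl⟩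
    rw [hb, Submodule.mem_bot] at h1
    have h2 : (Pi.single i (1 : ℂ)) ᵥ* X = 0 := h1
    rw [Matrix.single_one_vecMul] at h2
    exact congrFun h2 j
  have : Nontrivial U := Submodule.nontrivial_iff_ne_bot.2 hU0
  obtain ⟨μ, hμ⟩ := Module.End.exists_eigenvalue (rQ.restrict hU)
  obtain ⟨v, hv⟩ := hμ.exists_hasEigenvector
  have hv1 : rQ.restrict hU v = μ • v := hv.apply_eq_smul
  have hv2 : v ≠ 0 := hv.2
  -- eigenvector of `P`
  have hP : ∃ u : Fin d → ℂ, u ≠ 0 ∧ rP u = μ • u := by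
    by_contra hno
    push Not at hno
    have hinj : Function.Injective (rP - μ • (1 : Module.End ℂ (Fin d → ℂ))) := by
      rw [← LinearMap.ker_eq_bot, LinearMap.ker_eq_bot']
      intro u hu
      by_contra hu0
      apply hno u hu0
      rw [LinearMap.sub_apply, LinearMap.smul_apply, Module.End.one_apply, sub_eq_zero] at hu
      exact hu
    have hsurj := LinearMap.surjective_of_injective hinj
    -- then `rQ - μ` is surjective on `U`
    have hs2 : Function.Surjective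
        (rQ.restrict hU - μ • (1 : Module.End ℂ U)) := by
      rintro ⟨w, u, rfl⟩
      obtain ⟨u', hu'⟩ := hsurj u
      refine ⟨⟨rX u', ⟨u', rfl⟩⟩, ?_⟩
      apply Subtype.ext
      show rQ (rX u') - μ • rX u' = rX u
      rw [hcomm, ← hu', LinearMap.sub_apply, LinearMap.smul_apply, Module.End.one_apply,
        map_sub, map_smul]
    have hi2 := LinearMap.injective_iff_surjective.2 hs2
    apply hv2
    apply hi2
    rw [map_zero, LinearMap.sub_apply, LinearMap.smul_apply, Module.End.one_apply, hv1, sub_self]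
  obtain ⟨u, hu0, hu⟩ := hP
  refine ⟨μ, u, v.1, hu0, fun h0 => hv2 (Subtype.ext h0), hu, ?_⟩
  exact congrArg Subtype.val hv1

end Pool.Agent.CMF.CM3X
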