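import Pool.Agent.CMF.DunA
import Pool.Agent.CMF.T0D

/-!
CMF, module T0E: the action of `N` on its reflecting lines, cyclic pointwise stabilisers,
the operators attached to the lines.
-/

namespace Pool.Agent.CMF

open Matrix

noncomputable section

namespace CM3X

variable {N : SG} [Fintype N]

omit [Fintype N] in
lemma mem_mapL (g : GL (Fin 2) ℂ) (H : Submodule ℂ (Fin 2 → ℂ)) (v : Fin 2 → ℂ) :
    v ∈ mapL g H ↔ (g⁻¹).1 *ᵥ v ∈ H := by
  unfold mapL
  rw [Submodule.mem_map]
  constructor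
  · rintro ⟨u, hu, rfl⟩
    rw [Matrix.toLin'_apply, Matrix.mulVec_mulVec, ← Units.val_mul, inv_mul_cancel]
    simpa using hu
  · intro h
    refine ⟨_, h, ?_⟩
    rw [Matrix.toLin'_apply, Matrix.mulVec_mulVec, ← Units.val_mul, mul_inv_cancel]
    simp

omit [Fintype N] in
lemma fixL_conj (g s : GL (Fin 2) ℂ) : fixL (g * s * g⁻¹) = mapL g (fixL s) := by
  ext v
  rw [mem_mapL, DunAX.mem_fixL, DunAX.mem_fixL]
  have h1 : (g * s * g⁻¹).1 *ᵥ v = g.1 *ᵥ (s.1 *ᵥ ((g⁻¹).1 *ᵥ v)) := by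
    rw [Units.val_mul, Units.val_mul, ← Matrix.mulVec_mulVec, ← Matrix.mulVec_mulVec]
  rw [h1]
  constructor
  · intro h
    have h2 := congrArg (fun u => (g⁻¹).1 *ᵥ u) h
    simp only [Matrix.mulVec_mulVec, ← Units.val_mul, inv_mul_cancel_left] at h2
    rw [Units.val_mul, ← Matrix.mulVec_mulVec] at h2
    exact h2
  · intro h
    rw [h, Matrix.mulVec_mulVec, ← Units.val_mul, mul_inv_cancel]
    simp

/-- the action of `g` on the lines -/
def actH (g : N) (H : Arr N) : Arr N :=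
  ⟨mapL g.1 H.1, by
    obtain ⟨H, s, hs, hr, rfl⟩ := H
    exact ⟨g.1 * s * g.1⁻¹, N.mul_mem (N.mul_mem g.2 hs) (N.inv_mem g.2),
      isRefl_conj (G := N) hr, (fixL_conj _ _).symm⟩⟩

omit [Fintype N] in
lemma mapL_mapL (g h : GL (Fin 2) ℂ) (H : Submodule ℂ (Fin 2 → ℂ)) :
    mapL g (mapL h H) = mapL (g * h) H := by
  ext v
  rw [mem_mapL, mem_mapL, mem_mapL, Matrix.mulVec_mulVec, ← Units.val_mul, _root_.mul_inv_rev]

omit [Fintype N] in
lemma mapL_one (H : Submodule ℂ (Fin 2 → ℂ)) : mapL 1 H = H := by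
  ext v
  rw [mem_mapL]
  simp

/-- the permutation of the lines -/
def permH (g : N) : Equiv.Perm (Arr N) where
  toFun := actH g
  invFun := actH g⁻¹
  left_inv H := by
    apply Subtype.ext
    show mapL (g⁻¹).1 (mapL g.1 H.1) = H.1
    rw [mapL_mapL, ← Subgroup.coe_mul, inv_mul_cancel]
    exact mapL_one _
  right_inv H := by
    apply Subtype.ext
    show mapL g.1 (mapL (g⁻¹).1 H.1) = H.1
    rw [mapL_mapL, ← Subgroup.coe_mul, mul_inv_cancel]
    exact mapL_one _

omit [Fintype N] in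
lemma eH_mapL (g : N) (H : Submodule ℂ (Fin 2 → ℂ)) : eH N (mapL g.1 H) = eH N H := by
  unfold eH
  apply Nat.card_congr
  have key : ∀ (g : N) (H : Submodule ℂ (Fin 2 → ℂ)) (a : GL (Fin 2) ℂ), a ∈ ptStab N H →
      g.1 * a * g.1⁻¹ ∈ ptStab N (mapL g.1 H) := by
    intro g H a ha
    refine ⟨N.mul_mem (N.mul_mem g.2 ha.1) (N.inv_mem g.2), ?_⟩
    intro v hv
    rw [mem_mapL] at hv
    rw [Units.val_mul, Units.val_mul, ← Matrix.mulVec_mulVec, ← Matrix.mulVec_mulVec,
      ha.2 _ hv, Matrix.mulVec_mulVec, ← Units.val_mul, mul_inv_cancel]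
    simp
  refine ⟨fun a => ⟨g.1⁻¹ * a.1 * g.1, ?_⟩, fun a => ⟨g.1 * a.1 * g.1⁻¹, key g H a.1 a.2⟩,
    ?_, ?_⟩
  · have h1 := key g⁻¹ (mapL g.1 H) a.1 a.2
    rw [mapL_mapL, ← Subgroup.coe_mul, inv_mul_cancel] at h1
    have h2 : mapL ((1 : N) : GL (Fin 2) ℂ) H = H := mapL_one H
    rw [h2] at h1
    simpa using h1
  · intro a
    apply Subtype.ext
    simp [mul_assoc]
  · intro a
    apply Subtype.ext
    simp [mul_assoc]

omit [Fintype N] in
lemma cr_conj (k : Idx N → ℂ) (g w : N) : cr k (g * w * g⁻¹) = cr k w := by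
  by_cases h : IsRefl w.1
  · have h' : IsRefl (g * w * g⁻¹).1 := by
      have := isRefl_conj (G := N) (g := g.1) h
      simpa using this
    unfold cr
    rw [dif_pos h, dif_pos h']
    unfold cf
    have hfix : fixL (g * w * g⁻¹).1 = mapL g.1 (fixL w.1) := by
      rw [← fixL_conj]; simp
    have he : eH N (fixL (g * w * g⁻¹).1) = eH N (fixL w.1) := by
      rw [hfix, eH_mapL]
    have hdet : (g * w * g⁻¹).1.1.det = w.1.1.det := by
      have h1 : (g * w * g⁻¹).1.1 = g.1.1 * w.1.1 * (g.1⁻¹).1 := by simp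
      rw [h1, Matrix.det_mul, Matrix.det_mul]
      have h2 : g.1.1.det * (g.1⁻¹).1.det = 1 := by
        rw [← Matrix.det_mul, ← Units.val_mul, mul_inv_cancel]; simp
      linear_combination w.1.1.det * h2
    show ∑ j ∈ Finset.range (eH N (fixL (g * w * g⁻¹).1)), _ * (g * w * g⁻¹).1.1.det ^ j = _
    rw [he, hdet]
    apply Finset.sum_congr rfl
    intro j _
    congr 2
    apply Eq.symm
    apply Quot.sound
    refine ⟨⟨g.1, g.2, ?_⟩, ?_⟩
    · exact hfix
    · show (eH N (fixL w.1) : ℤ) ∣ (j : ℤ) - j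
      simp
  · have h' : ¬ IsRefl (g * w * g⁻¹).1 := by
      intro h'
      apply h
      have := isRefl_conj (G := N) (g := (g⁻¹).1) h'
      have h2 : (g⁻¹).1 * (g * w * g⁻¹).1 * (g⁻¹).1⁻¹ = w.1 := by
        simp [mul_assoc]
      rwa [h2] at this
    unfold cr
    rw [dif_neg h, dif_neg h']

omit [Fintype N] in
lemma cr_zero (k : Idx N → ℂ) (w : N) (h : ¬ IsRefl w.1) : cr k w = 0 := by
  unfold cr
  rw [dif_neg h]

/-- the operator of a line -/
def opL {d : ℕ} (ρ : N →* Matrix (Fin d) (Fin d) ℂ) (k : Idx N → ℂ) (H : Arr N) :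
    Matrix (Fin d) (Fin d) ℂ :=
  open Classical in ∑ w : N, (if fixL w.1 = H.1 then cr k w else 0) • ρ w

lemma opL_conj {d : ℕ} (ρ : N →* Matrix (Fin d) (Fin d) ℂ) (k : Idx N → ℂ) (H : Arr N)
    (g : N) : ρ g * opL ρ k H = opL ρ k (permH g H) * ρ g := by
  classical
  have h1 : ρ g * opL ρ k H * ρ g⁻¹ = opL ρ k (permH g H) := by
    unfold opL
    rw [Finset.mul_sum, Finset.sum_mul]
    apply Finset.sum_equiv (MulAut.conj g).toEquiv
    · intro w; simp
    · intro w _
      show ρ g * ((if fixL w.1 = H.1 then cr k w else 0) • ρ w) * ρ g⁻¹ =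
        (if fixL (g * w * g⁻¹).1 = (permH g H).1 then cr k (g * w * g⁻¹) else 0) •
          ρ (g * w * g⁻¹)
      rw [cr_conj, map_mul, map_mul, mul_smul_comm, smul_mul_assoc]
      have hfix : fixL (g * w * g⁻¹).1 = mapL g.1 (fixL w.1) := by
        rw [← fixL_conj]; simp
      have hiff : (fixL (g * w * g⁻¹).1 = (permH g H).1) ↔ fixL w.1 = H.1 := by
        rw [hfix]
        show mapL g.1 (fixL w.1) = mapL g.1 H.1 ↔ _
        constructor
        · intro h
          have h2 := congrArg (mapL (g⁻¹).1) h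
          rw [mapL_mapL, mapL_mapL, ← Subgroup.coe_mul, inv_mul_cancel] at h2
          have h3 : ∀ K, mapL ((1 : N) : GL (Fin 2) ℂ) K = K := fun K => mapL_one K
          rwa [h3, h3] at h2
        · intro h; rw [h]
      simp only [hiff]
  rw [← h1, mul_assoc, ← map_mul, inv_mul_cancel, map_one, mul_one]

lemma gau_eq {d : ℕ} (ρ : N →* Matrix (Fin d) (Fin d) ℂ) (k : Idx N → ℂ) (v y : Fin 2 → ℂ) :
    gau ρ k v y = ∑ H : Arr N, rat H.1 y v • opL ρ k H := by
  classical
  unfold gau opL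
  simp_rw [Finset.smul_sum]
  rw [Finset.sum_comm]
  apply Finset.sum_congr rfl
  intro w _
  by_cases h : IsRefl w.1
  · have h1 := Finset.sum_eq_single (s := Finset.univ)
      (f := fun H : Arr N => rat H.1 y v • (if fixL w.1 = H.1 then cr k w else 0) • ρ w)
      (⟨fixL w.1, w.1, w.2, h, rfl⟩ : Arr N)
      (by
        intro H _ hne
        show rat H.1 y v • (if fixL w.1 = H.1 then cr k w else 0) • ρ w = 0
        rw [if_neg (fun h' => hne (Subtype.ext h'.symm)), zero_smul, smul_zero])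
      (fun h' => absurd (Finset.mem_univ _) h')
    refine Eq.trans ?_ h1.symm
    show (cr k w * rat (fixL w.1) y v) • ρ w =
      rat (fixL w.1) y v • (if fixL w.1 = fixL w.1 then cr k w else 0) • ρ w
    rw [if_pos rfl, smul_smul, mul_comm]
  · rw [cr_zero k w h]
    simp

/-- pointwise stabiliser as a subgroup of `N` -/
def stH (H : Arr N) : Subgroup N where
  carrier := {g | ∀ v ∈ H.1, g.1.1 *ᵥ v = v}
  mul_mem' {a b} ha hb v hv := by
    show (a.1 * b.1).1 *ᵥ v = v
    rw [Units.val_mul, ← Matrix.mulVec_mulVec, hb v hv, ha v hv]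
  one_mem' v _ := by simp
  inv_mem' {a} ha v hv := by
    have h1 := ha v hv
    have h2 := congrArg (fun u => (a.1⁻¹).1 *ᵥ u) h1
    simp only [Matrix.mulVec_mulVec, ← Units.val_mul, inv_mul_cancel] at h2
    show (a.1⁻¹).1 *ᵥ v = v
    rw [← h2]; simp

omit [Fintype N] in
lemma card_stH (H : Arr N) : Nat.card (stH H) = eH N H.1 := by
  unfold eH
  apply Nat.card_congr
  refine ⟨fun a => ⟨a.1.1, a.1.2, a.2⟩, fun a => ⟨⟨a.1, a.2.1⟩, a.2.2⟩, ?_, ?_⟩
  · intro a; rfl
  · intro a; rfl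

/-- the determinant on the pointwise stabiliser -/
def detH (H : Arr N) : stH H →* ℂ where
  toFun g := g.1.1.1.det
  map_one' := by simp
  map_mul' a b := by simp

lemma detH_inj (H : Arr N) : Function.Injective (detH H) := by
  intro a b h
  exact Subtype.ext (refl_ext H a.1 b.1 a.2 b.2 h)

lemma exists_gen (H : Arr N) : ∃ w : N, (∀ v ∈ H.1, w.1.1 *ᵥ v = v) ∧
    IsPrimitiveRoot w.1.1.det (eH N H.1) ∧ w ^ (eH N H.1) = 1 ∧
    (∀ g : N, (∀ v ∈ H.1, g.1.1 *ᵥ v = v) → ∃ i : ℕ, g = w ^ i) ∧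
    (∀ i, 0 < i → i < eH N H.1 → IsRefl (w ^ i).1) := by
  have hc : IsCyclic (stH H) := isCyclic_of_injective_ringHom (detH H) (detH_inj H)
  obtain ⟨w, hw⟩ := hc.exists_generator
  have hord : orderOf w = eH N H.1 := by
    rw [← card_stH, orderOf_eq_card_of_forall_mem_zpowers hw]
  have hdet : IsPrimitiveRoot w.1.1.1.det (eH N H.1) := by
    have h1 := IsPrimitiveRoot.orderOf (detH H w)
    rwa [orderOf_injective (detH H) (detH_inj H), hord] at h1
  have hpow : w.1 ^ (eH N H.1) = 1 := by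
    have h1 := pow_orderOf_eq_one w
    rw [hord] at h1
    exact congrArg Subtype.val h1
  refine ⟨w.1, w.2, hdet, hpow, ?_, ?_⟩
  · intro g hg
    have h1 := hw ⟨g, hg⟩
    rw [← mem_powers_iff_mem_zpowers] at h1
    obtain ⟨i, hi⟩ := h1
    exact ⟨i, (congrArg Subtype.val hi).symm⟩
  · intro i hi0 hie
    have hmem : ∀ v ∈ H.1, (w.1 ^ i).1.1 *ᵥ v = v := (w ^ i).2
    refine ⟨?_, ?_⟩
    · intro h
      have h1 : w.1 ^ i = 1 := Subtype.ext h
      have h2 : w ^ i = 1 := Subtype.ext h1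
      have h3 := orderOf_dvd_of_pow_eq_one h2
      rw [hord] at h3
      exact absurd (Nat.le_of_dvd hi0 h3) (by omega)
    · apply Matrix.exists_mulVec_eq_zero_iff.1
      have hs := lf_spec H
      refine ⟨jv (lf H.1), ?_, ?_⟩
      · intro h0
        apply hs.1
        ext j
        fin_cases j
        · have := congrFun h0 1
          simp only [jv, Matrix.cons_val_one, Matrix.cons_val_fin_one, Pi.zero_apply,
            neg_eq_zero] at this
          exact this
        · have := congrFun h0 0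
          simpa [jv] using this
      · rw [Matrix.sub_mulVec, Matrix.one_mulVec]
        have h1 : jv (lf H.1) ∈ H.1 := by
          rw [hs.2, DunAX.dot2]
          exact lf_jv_self (lf H.1)
        rw [hmem _ h1, sub_self]

end CM3X

end

end Pool.Agent.CMF
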