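import Pool.Agent.CMF.KZ

/-! Project CMF, module Twist: the full twist. -/

namespace Pool.Agent.CMF

open Matrix

noncomputable section

variable {N : SG}

namespace TwistX

theorem rot_mem {v : Fin 2 → ℂ} (hv : ∀ g ∈ N, IsRefl g → g.1 *ᵥ v ≠ v) {z : ℂ} (hz : z ≠ 0) :
    ∀ g ∈ N, IsRefl g → g.1 *ᵥ (z • v) ≠ z • v := by
  intro g hg hr h
  rw [Matrix.mulVec_smul] at h
  exact hv g hg hr (smul_right_injective _ hz h)

/-- Rotation of a point of `V^reg`. -/
def rot (z : ℂ) (v : VReg N) : VReg N := ⟨Complex.exp z • v.1, rot_mem v.2 (Complex.exp_ne_zero z)⟩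

theorem rot_val (z : ℂ) (v : VReg N) : (rot z v).1 = Complex.exp z • v.1 := rfl

theorem continuous_rot : Continuous (fun p : ℂ × VReg N => rot p.1 p.2) := by
  refine Continuous.subtype_mk ?_ _
  exact ((Complex.continuous_exp.comp continuous_fst).smul
    (continuous_subtype_val.comp continuous_snd))

theorem rot_smul (z : ℂ) (g : N) (v : VReg N) : rot z (g • v) = g • rot z v := by
  apply Subtype.ext
  rw [rot_val, smul_val, smul_val, rot_val, Matrix.mulVec_smul]

theorem rot_zero (v : VReg N) : rot 0 v = v := by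
  apply Subtype.ext
  rw [rot_val, Complex.exp_zero, one_smul]

theorem rot_one (v : VReg N) : rot (2 * Real.pi * Complex.I * ((1 : ℝ) : ℂ)) v = v := by
  apply Subtype.ext
  rw [rot_val, Complex.ofReal_one, mul_one, Complex.exp_two_pi_mul_I, one_smul]

end TwistX

open Complex in
/-- The full twist. -/
def piB (v₀ : VReg N) : Braid N v₀ := Quotient.mk _
  { g := 1
    f := ⟨fun t => ⟨exp (2 * Real.pi * I * (t : ℝ)) • v₀.1,
      TwistX.rot_mem v₀.2 (Complex.exp_ne_zero _)⟩, by
        refine Continuous.subtype_mk ?_ _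
        refine Continuous.smul (f := fun t : unitInterval => exp (2 * Real.pi * I * (t : ℝ)))
          (g := fun _ => v₀.1) ?_ continuous_const
        refine Complex.continuous_exp.comp ?_
        exact continuous_const.mul (Complex.continuous_ofReal.comp continuous_subtype_val)⟩
    h0 := by
      apply Subtype.ext
      show exp (2 * Real.pi * I * (((0 : unitInterval) : ℝ) : ℂ)) • v₀.1 = v₀.1
      rw [Set.Icc.coe_zero, Complex.ofReal_zero, mul_zero, Complex.exp_zero, one_smul]
    h1 := by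
      apply Subtype.ext
      show exp (2 * Real.pi * I * (((1 : unitInterval) : ℝ) : ℂ)) • v₀.1 = ((1 : N) • v₀).1
      rw [one_smul, Set.Icc.coe_one, Complex.ofReal_one, mul_one, Complex.exp_two_pi_mul_I,
        one_smul] }

namespace TwistX

variable {v₀ : VReg N}

open Complex in
/-- The full twist as a `BPath`. -/
def piP (v₀ : VReg N) : BPath N v₀ :=
  { g := 1
    f := ⟨fun t => rot (2 * Real.pi * I * ((t : ℝ) : ℂ)) v₀, by
        refine continuous_rot.comp (Continuous.prodMk ?_ continuous_const)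
        exact continuous_const.mul (Complex.continuous_ofReal.comp continuous_subtype_val)⟩
    h0 := by
      show rot (2 * Real.pi * I * (((0 : unitInterval) : ℝ) : ℂ)) v₀ = v₀
      rw [Set.Icc.coe_zero, Complex.ofReal_zero, mul_zero, rot_zero]
    h1 := by
      show rot (2 * Real.pi * I * (((1 : unitInterval) : ℝ) : ℂ)) v₀ = (1 : N) • v₀
      rw [one_smul, Set.Icc.coe_one, rot_one] }

theorem piB_eq (v₀ : VReg N) : piB v₀ = Quotient.mk _ (piP v₀) := rfl

theorem piP_f (t : unitInterval) :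
    (piP v₀).f t = rot (2 * Real.pi * Complex.I * ((t : ℝ) : ℂ)) v₀ := rfl

theorem mul_f (a b : BPath N v₀) (t : unitInterval) : (a.mul b).f t =
    if h : (t : ℝ) ≤ 1 / 2 then a.f ⟨2 * t, (unitInterval.mul_pos_mem_iff zero_lt_two).2 ⟨t.2.1, h⟩⟩
    else a.g • b.f ⟨2 * t - 1, unitInterval.two_mul_sub_one_mem_iff.2 ⟨(not_le.1 h).le, t.2.2⟩⟩ := by
  show (a.toPath.trans (b.toPath.map (continuous_const_smul a.g))) t = _
  rw [Path.trans_apply]
  rfl

/-- The square. -/
def sq (a : BPath N v₀) : C(ℝ × ℝ, VReg N) :=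
  ⟨fun p => rot (2 * Real.pi * Complex.I * ((p.1 : ℝ) : ℂ))
      (a.f (Set.projIcc 0 1 zero_le_one p.2)), by
    refine continuous_rot.comp (Continuous.prodMk ?_ ?_)
    · exact continuous_const.mul (Complex.continuous_ofReal.comp continuous_fst)
    · exact a.f.continuous.comp (continuous_projIcc.comp continuous_snd)⟩

theorem sq_apply (a : BPath N v₀) (x y : ℝ) : sq a (x, y) =
    rot (2 * Real.pi * Complex.I * ((x : ℝ) : ℂ)) (a.f (Set.projIcc 0 1 zero_le_one y)) := rfl

/-- Horizontal segment. -/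
def hseg (y : ℝ) : Path ((0 : ℝ), y) ((1 : ℝ), y) :=
  ⟨⟨fun t => ((t : ℝ), y), by fun_prop⟩, by simp, by simp⟩

/-- Vertical segment. -/
def vseg (x : ℝ) : Path (x, (0 : ℝ)) (x, (1 : ℝ)) :=
  ⟨⟨fun t => (x, (t : ℝ)), by fun_prop⟩, by simp, by simp⟩

theorem central_rel (a : BPath N v₀) : (piP v₀).mul a ≈ a.mul (piP v₀) := by
  refine ⟨(one_mul _).trans (mul_one _).symm, ?_⟩
  have h1 : ((piP v₀).mul a).f =
      (((hseg 0).trans (vseg 1)).map (sq a).continuous).toContinuousMap := by
    ext1 t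
    rw [mul_f]
    show _ = sq a (((hseg 0).trans (vseg 1)) t)
    rw [Path.trans_apply]
    split_ifs with h
    · rw [piP_f]
      show _ = sq a (2 * (t : ℝ), 0)
      rw [sq_apply, Set.projIcc_left]
      show _ = rot _ (a.f 0)
      rw [a.h0]
    · show (1 : N) • _ = sq a (1, 2 * (t : ℝ) - 1)
      rw [one_smul, sq_apply, rot_one,
        Set.projIcc_of_mem zero_le_one
          (unitInterval.two_mul_sub_one_mem_iff.2 ⟨(not_le.1 h).le, t.2.2⟩)]
  have h2 : (a.mul (piP v₀)).f =
      (((vseg 0).trans (hseg 1)).map (sq a).continuous).toContinuousMap := by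
    ext1 t
    rw [mul_f]
    show _ = sq a (((vseg 0).trans (hseg 1)) t)
    rw [Path.trans_apply]
    split_ifs with h
    · show _ = sq a (0, 2 * (t : ℝ))
      rw [sq_apply, Complex.ofReal_zero, mul_zero, rot_zero,
        Set.projIcc_of_mem zero_le_one
          ((unitInterval.mul_pos_mem_iff zero_lt_two).2 ⟨t.2.1, h⟩)]
    · rw [piP_f]
      show _ = sq a (2 * (t : ℝ) - 1, 1)
      rw [sq_apply, Set.projIcc_right]
      show _ = rot _ (a.f 1)
      rw [a.h1, rot_smul]
  rw [h1, h2]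
  exact (SimplyConnectedSpace.paths_homotopic ((hseg 0).trans (vseg 1))
    ((vseg 0).trans (hseg 1))).map (sq a)

end TwistX

variable [Fintype N] {ι : Type} [Fintype ι] [DecidableEq ι] (hN : ∃ s ∈ N, IsRefl s)

variable {v₀ : VReg N}

theorem piB_central (b : Braid N v₀) : piB v₀ * b = b * piB v₀ := by
  induction b using Quotient.inductionOn with
  | h a => exact Quotient.sound (TwistX.central_rel a)

theorem proj_piB : Braid.proj (piB v₀) = 1 := rfl

namespace TwistX

theorem rat_self {H : Arr N} {v : Fin 2 → ℂ} (hv : ∀ g ∈ N, IsRefl g → g.1 *ᵥ v ≠ v) :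
    rat H.1 v v = 1 := by
  unfold rat
  exact div_self ((vreg_iff v).1 hv H)

theorem om_self (ρ : N →* Matrix ι ι ℂ) (k : Idx N → ℂ) {v : Fin 2 → ℂ}
    (hv : ∀ g ∈ N, IsRefl g → g.1 *ᵥ v ≠ v) : om ρ k v v = Ainf ρ k := by
  unfold om gau Ainf
  congr 1
  · refine Finset.sum_congr rfl fun w _ => ?_
    by_cases hw : IsRefl w.1
    · have := rat_self (H := (⟨fixL w.1, w.1, w.2, hw, rfl⟩ : Arr N)) hv
      rw [show rat (fixL w.1) v v = 1 from this, mul_one]
    · have : cr k w = 0 := by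
        unfold cr
        rw [dif_neg hw]
      rw [this, zero_mul]
  · congr 1
    refine Finset.sum_congr rfl fun H _ => ?_
    rw [rat_self hv, mul_one]

theorem radial (ρ : N →* Matrix ι ι ℂ) (k : Idx N → ℂ) (c : ℂ)
    (h : Ainf ρ k = c • (1 : Matrix ι ι ℂ)) (U : Set (Fin 2 → ℂ)) (hU : IsOpen U)
    (F : (Fin 2 → ℂ) → Matrix ι ι ℂ) (hF : Horiz ρ k U F)
    (hreg : ∀ w ∈ U, ∀ g ∈ N, IsRefl g → g.1 *ᵥ w ≠ w) (v : Fin 2 → ℂ) (hv : v ∈ U) :
    ∃ ε > 0, ∀ z : ℂ, ‖z‖ < ε →
      F (Complex.exp z • v) = Complex.exp (c * z) • F v := by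
  have hcont : Continuous (fun z : ℂ => Complex.exp z • v) :=
    Complex.continuous_exp.smul continuous_const
  have hopen : IsOpen ((fun z : ℂ => Complex.exp z • v) ⁻¹' U) := hU.preimage hcont
  have h0 : (0 : ℂ) ∈ ((fun z : ℂ => Complex.exp z • v) ⁻¹' U) := by
    show Complex.exp 0 • v ∈ U
    rw [Complex.exp_zero, one_smul]
    exact hv
  obtain ⟨ε, hε, hball⟩ := Metric.isOpen_iff.1 hopen 0 h0
  refine ⟨ε, hε, fun z hz => ?_⟩
  ext p q
  have hder : ∀ z ∈ Metric.ball (0 : ℂ) ε, HasDerivAt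
      (fun z => Complex.exp (-(c * z)) * F (Complex.exp z • v) p q) 0 z := by
    intro z hz
    have hmem : Complex.exp z • v ∈ U := hball hz
    have hd := (hF _ hmem).2 p q
    have h1 : HasDerivAt (fun z : ℂ => Complex.exp z • v) (Complex.exp z • v) z :=
      (Complex.hasDerivAt_exp z).smul_const v
    have h2 : HasDerivAt (fun z : ℂ => F (Complex.exp z • v) p q)
        (fderiv ℂ (fun v => F v p q) (Complex.exp z • v) (Complex.exp z • v)) z :=
      HasFDerivAt.comp_hasDerivAt (l := fun w => F w p q) (f := fun z : ℂ => Complex.exp z • v) z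
        hd.1.hasFDerivAt h1
    rw [hd.2, om_self ρ k (hreg _ hmem), h, Matrix.smul_mul, one_mul, Matrix.smul_apply,
      smul_eq_mul] at h2
    have h3 : HasDerivAt (fun z : ℂ => Complex.exp (-(c * z)))
        (Complex.exp (-(c * z)) * (-(c * 1))) z :=
      (((hasDerivAt_id z).const_mul c).neg).cexp
    have h4 := h3.mul h2
    have e : Complex.exp (-(c * z)) * (-(c * 1)) * F (Complex.exp z • v) p q +
        Complex.exp (-(c * z)) * (c * F (Complex.exp z • v) p q) = 0 := by ring
    rw [e] at h4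
    exact h4
  have hconst : Complex.exp (-(c * z)) * F (Complex.exp z • v) p q =
      Complex.exp (-(c * 0)) * F (Complex.exp 0 • v) p q := by
    refine Metric.isOpen_ball.is_const_of_deriv_eq_zero
      (f := fun z => Complex.exp (-(c * z)) * F (Complex.exp z • v) p q)
      (convex_ball (0 : ℂ) ε).isPreconnected
      (fun z hz => (hder z hz).differentiableAt.differentiableWithinAt)
      (fun z hz => (hder z hz).deriv) (by simpa using hz) (Metric.mem_ball_self hε)
  rw [mul_zero, neg_zero, Complex.exp_zero, one_mul, one_smul] at hconst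
  rw [Matrix.smul_apply, smul_eq_mul, ← hconst, ← mul_assoc, ← Complex.exp_add]
  rw [add_neg_cancel, Complex.exp_zero, one_mul]

theorem PP_piP (hN : ∃ s ∈ N, IsRefl s) (ρ : N →* Matrix ι ι ℂ) (k : Idx N → ℂ) (c : ℂ)
    (h : Ainf ρ k = c • (1 : Matrix ι ι ℂ)) :
    PP hN ρ k (piP v₀).f = Complex.exp (2 * Real.pi * Complex.I * c) • (1 : Matrix ι ι ℂ) := by
  have key := PP_lift hN ρ k (piP v₀).f
    (fun t => Complex.exp (2 * Real.pi * Complex.I * ((t : ℝ) : ℂ) * c) • (1 : Matrix ι ι ℂ))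
    (by
      show Complex.exp (2 * Real.pi * Complex.I * (((0 : unitInterval) : ℝ) : ℂ) * c) • _ = _
      rw [Set.Icc.coe_zero, Complex.ofReal_zero, mul_zero, zero_mul, Complex.exp_zero, one_smul])
    (by
      intro t₀
      obtain ⟨r, F, hr, hreg, hF1, hH, -⟩ := exists_frame hN ρ ((piP v₀).f t₀)
      refine ⟨Metric.ball ((piP v₀).f t₀).1 r, F k, Metric.isOpen_ball, Metric.mem_ball_self hr,
        hH k, ?_⟩
      obtain ⟨ε, hε, hrad⟩ := radial ρ k c h _ Metric.isOpen_ball (F k) (hH k) hreg _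
        (Metric.mem_ball_self hr)
      have hc : Continuous (fun t : unitInterval =>
          2 * Real.pi * Complex.I * ((t : ℝ) : ℂ) - 2 * Real.pi * Complex.I * ((t₀ : ℝ) : ℂ)) :=
        (continuous_const.mul (Complex.continuous_ofReal.comp continuous_subtype_val)).sub
          continuous_const
      have hev : ∀ᶠ t : unitInterval in nhds t₀, ‖2 * Real.pi * Complex.I * ((t : ℝ) : ℂ) -
          2 * Real.pi * Complex.I * ((t₀ : ℝ) : ℂ)‖ < ε := by
        refine (hc.norm.tendsto t₀).eventually (gt_mem_nhds ?_)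
        rw [sub_self, norm_zero]
        exact hε
      filter_upwards [hev] with t ht
      have e1 : ((piP v₀).f t).1 = Complex.exp (2 * Real.pi * Complex.I * ((t : ℝ) : ℂ) -
          2 * Real.pi * Complex.I * ((t₀ : ℝ) : ℂ)) • ((piP v₀).f t₀).1 := by
        rw [piP_f, piP_f, rot_val, rot_val, smul_smul, ← Complex.exp_add, sub_add_cancel]
      have hu : IsUnit (F k ((piP v₀).f t₀).1) := (hH k _ (Metric.mem_ball_self hr)).1
      have hu' : F k ((piP v₀).f t₀).1 * (F k ((piP v₀).f t₀).1)⁻¹ = 1 :=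
        Matrix.mul_nonsing_inv _ ((Matrix.isUnit_iff_isUnit_det _).1 hu)
      rw [e1, hrad _ ht, Matrix.smul_mul, hu', smul_mul_assoc, one_mul, smul_smul,
        ← Complex.exp_add]
      congr 2
      ring)
  rw [key]
  show Complex.exp (2 * Real.pi * Complex.I * (((1 : unitInterval) : ℝ) : ℂ) * c) • _ = _
  rw [Set.Icc.coe_one, Complex.ofReal_one, mul_one]

end TwistX

open Complex in
theorem KZ_piB (ρ : N →* Matrix ι ι ℂ) (k : Idx N → ℂ) (c : ℂ)
    (h : Ainf ρ k = c • (1 : Matrix ι ι ℂ)) :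
    KZ hN ρ k (piB v₀) = exp (-(2 * Real.pi * I) * c) • (1 : Matrix ι ι ℂ) := by
  rw [TwistX.piB_eq, KZ_mk, TwistX.PP_piP hN ρ k c h]
  have e1 : ρ (TwistX.piP v₀).g = 1 := map_one ρ
  rw [e1, mul_one]
  refine Matrix.inv_eq_right_inv ?_
  rw [Matrix.smul_mul, one_mul, smul_smul, ← Complex.exp_add]
  rw [show 2 * (Real.pi : ℂ) * I * c + -(2 * Real.pi * I) * c = 0 by ring, Complex.exp_zero,
    one_smul]

end

end Pool.Agent.CMF
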