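import Pool.Agent.CMF.Sec
import Pool.Agent.CMF.Twist
import Pool.Agent.CMF.CM5

/-! Project CMF, module ThmS: Theorem S. -/

namespace Pool.Agent.CMF

open Matrix

noncomputable section

variable {N : SG} [Fintype N]

namespace ThmSX

open CM5X

/-- The image of an irreducible representation spans the matrix algebra. -/
lemma span_top (Φ : IrrFam N) (l : Φ.Λ) : Submodule.span ℂ (Set.range (Φ.ρ l)) = ⊤ := by
  rw [eq_top_iff]
  intro M _
  obtain ⟨a, ha⟩ := Φ.bij.2 (fun l' => if h : l' = l then h ▸ M else 0)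
  have h1 := congrFun ha l
  simp only [dif_pos] at h1
  have h2 : MonoidAlgebra.lift ℂ _ N (Φ.ρ l) a = M := h1
  rw [← h2, MonoidAlgebra.lift_apply]
  apply Submodule.sum_mem
  intro g _
  exact Submodule.smul_mem _ _ (Submodule.subset_span ⟨g, rfl⟩)

/-- The scalar by which `A_∞` acts. -/
lemma exists_c (Φ : IrrFam N) (k : Idx N → ℂ) :
    ∃ c : Φ.Λ → ℂ, ∀ l, Ainf (Φ.ρ l) k = c l • (1 : Matrix (Fin (Φ.d l)) (Fin (Φ.d l)) ℂ) := by
  have h : ∀ l, ∃ c : ℂ, Ainf (Φ.ρ l) k = c • (1 : Matrix (Fin (Φ.d l)) (Fin (Φ.d l)) ℂ) := by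
    intro l
    have : Nonempty (Fin (Φ.d l)) := ⟨⟨0, Φ.pos l⟩⟩
    exact ⟨_, Ainf_scalar (Φ.ρ l) k (span_top Φ l)⟩
  choose c hc using h
  exact ⟨c, hc⟩

lemma Ainf_intertwine {ι ι' : Type} [Fintype ι] [DecidableEq ι] [Fintype ι'] [DecidableEq ι']
    (ρ : N →* Matrix ι ι ℂ) (ρ' : N →* Matrix ι' ι' ℂ) (k : Idx N → ℂ) (P : Matrix ι' ι ℂ)
    (h : ∀ g, P * ρ g = ρ' g * P) : P * Ainf ρ k = Ainf ρ' k * P := by
  unfold Ainf
  rw [Matrix.mul_add, Matrix.add_mul, Matrix.mul_sum, Matrix.sum_mul]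
  congr 1
  · apply Finset.sum_congr rfl
    intro w _
    rw [Matrix.mul_smul, Matrix.smul_mul, h]
  · rw [Matrix.mul_smul, Matrix.smul_mul, Matrix.mul_one, Matrix.one_mul]

section tot

variable (Φ : IrrFam N) {Λ' : Type} [Fintype Λ'] [DecidableEq Λ'] (j : Λ' → Φ.Λ)

/-- The projection to the `m`-th column of the `l`-block. -/
def pm (l : Λ') (m : Fin (Φ.d (j l))) : Matrix (Fin (Φ.d (j l))) (TI Φ j) ℂ :=
  fun i y => if y = ⟨l, (i, m)⟩ then 1 else 0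

lemma pm_mulVec (l : Λ') (m : Fin (Φ.d (j l))) (u : TI Φ j → ℂ) (i : Fin (Φ.d (j l))) :
    (pm Φ j l m *ᵥ u) i = u ⟨l, (i, m)⟩ := by
  show ∑ y, (if y = ⟨l, (i, m)⟩ then (1 : ℂ) else 0) * u y = _
  rw [Fintype.sum_eq_single (⟨l, (i, m)⟩ : TI Φ j)]
  · rw [if_pos rfl, one_mul]
  · intro y hy
    rw [if_neg hy, zero_mul]

lemma pm_mul {κ : Type} [Fintype κ] (l : Λ') (m : Fin (Φ.d (j l))) (M : Matrix (TI Φ j) κ ℂ)
    (i : Fin (Φ.d (j l))) (y : κ) : (pm Φ j l m * M) i y = M ⟨l, (i, m)⟩ y := by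
  rw [Matrix.mul_apply]
  exact pm_mulVec Φ j l m (fun x => M x y) i

lemma pm_comm (l : Λ') (m : Fin (Φ.d (j l))) (g : N) :
    pm Φ j l m * totRep' Φ j g = Φ.ρ (j l) g * pm Φ j l m := by
  ext i y
  rw [pm_mul, Matrix.mul_apply]
  have h := tot_sum Φ j (RingHom.id ℂ) g l i m (fun x => if x = y then 1 else 0)
  have h1 : ∑ x, (RingHom.id ℂ) (totRep' Φ j g ⟨l, (i, m)⟩ x) * (if x = y then 1 else 0) =
      totRep' Φ j g ⟨l, (i, m)⟩ y := by
    rw [Fintype.sum_eq_single y]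
    · simp
    · intro x hx
      rw [if_neg hx, mul_zero]
  rw [h1] at h
  rw [h]
  apply Finset.sum_congr rfl
  intro i' _
  show Φ.ρ (j l) g i i' * _ = Φ.ρ (j l) g i i' * (if y = ⟨l, (i', m)⟩ then 1 else 0)
  congr 1
  by_cases hy : y = ⟨l, (i', m)⟩
  · rw [if_pos hy, if_pos hy.symm]
  · rw [if_neg hy, if_neg (fun h => hy h.symm)]

lemma Ainf_tot (k : Idx N → ℂ) (c : Φ.Λ → ℂ)
    (hc : ∀ l, Ainf (Φ.ρ l) k = c l • (1 : Matrix (Fin (Φ.d l)) (Fin (Φ.d l)) ℂ)) :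
    Ainf (totRep' Φ j) k = Matrix.diagonal (fun x : TI Φ j => c (j x.1)) := by
  ext ⟨l, i, m⟩ y
  have h := Ainf_intertwine (totRep' Φ j) (Φ.ρ (j l)) k (pm Φ j l m) (pm_comm Φ j l m)
  have h1 := congrFun (congrFun h i) y
  rw [pm_mul, hc, Matrix.smul_mul, Matrix.one_mul, Matrix.smul_apply] at h1
  rw [h1, Matrix.diagonal_apply]
  show c (j l) • (if y = ⟨l, (i, m)⟩ then (1 : ℂ) else 0) = _
  by_cases hy : y = ⟨l, (i, m)⟩
  · rw [if_pos hy, if_pos hy.symm, smul_eq_mul, mul_one]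
  · rw [if_neg hy, if_neg (fun h => hy h.symm), smul_zero]

/-- The unit element. -/
def one : TI Φ j → ℂ := fun x => if x.2.1 = x.2.2 then 1 else 0

variable (hN : ∃ s ∈ N, IsRefl s) {v₀ : VReg N} (k : Idx N → ℂ)

/-- The linear extension of the monodromy representation. -/
def LK {ι : Type} [Fintype ι] [DecidableEq ι] (ρ : N →* Matrix ι ι ℂ) :
    MonoidAlgebra ℂ (Braid N v₀) →ₐ[ℂ] Matrix ι ι ℂ :=
  MonoidAlgebra.lift ℂ _ (Braid N v₀) (KZ hN ρ k)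

lemma LK_intertwine {ι ι' : Type} [Fintype ι] [DecidableEq ι] [Fintype ι'] [DecidableEq ι']
    (ρ : N →* Matrix ι ι ℂ) (ρ' : N →* Matrix ι' ι' ℂ) (P : Matrix ι' ι ℂ)
    (h : ∀ g, P * ρ g = ρ' g * P) (a : MonoidAlgebra ℂ (Braid N v₀)) :
    P * LK hN k ρ a = LK hN k ρ' a * P := by
  unfold LK
  rw [MonoidAlgebra.lift_apply, MonoidAlgebra.lift_apply, Finsupp.sum, Finsupp.sum,
    Matrix.mul_sum, Matrix.sum_mul]
  apply Finset.sum_congr rfl
  intro b _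
  rw [Matrix.mul_smul, Matrix.smul_mul, KZ_intertwine hN ρ ρ' k P h b]

/-- `Γ = ℂ[B] · 1`. -/
def Gam (v₀ : VReg N) : Submodule ℂ (TI Φ j → ℂ) where
  carrier := {x | ∃ a : MonoidAlgebra ℂ (Braid N v₀), LK hN k (totRep' Φ j) a *ᵥ one Φ j = x}
  add_mem' := by
    rintro _ _ ⟨a, rfl⟩ ⟨b, rfl⟩
    exact ⟨a + b, by rw [map_add, Matrix.add_mulVec]⟩
  zero_mem' := ⟨0, by rw [map_zero, Matrix.zero_mulVec]⟩
  smul_mem' := by
    rintro c _ ⟨a, rfl⟩
    exact ⟨c • a, by rw [map_smul, Matrix.smul_mulVec]⟩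

lemma Gam_stable (b : Braid N v₀) (x : TI Φ j → ℂ) (hx : x ∈ Gam Φ j hN k v₀) :
    KZ hN (totRep' Φ j) k b *ᵥ x ∈ Gam Φ j hN k v₀ := by
  obtain ⟨a, rfl⟩ := hx
  refine ⟨MonoidAlgebra.of ℂ _ b * a, ?_⟩
  rw [map_mul, ← Matrix.mulVec_mulVec]
  congr 1
  unfold LK
  rw [MonoidAlgebra.lift_of]

lemma one_mem : one Φ j ∈ Gam Φ j hN k v₀ :=
  ⟨1, by rw [map_one, Matrix.one_mulVec]⟩

lemma LK_entry (a : MonoidAlgebra ℂ (Braid N v₀)) (l : Λ') (i m : Fin (Φ.d (j l))) :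
    (LK hN k (totRep' Φ j) a *ᵥ one Φ j) ⟨l, (i, m)⟩ =
      (LK hN k (Φ.ρ (j l)) a : Matrix (Fin (Φ.d (j l))) (Fin (Φ.d (j l))) ℂ) i m := by
  have h0 := pm_mulVec Φ j l m (LK hN k (totRep' Φ j) a *ᵥ one Φ j) i
  rw [← h0, Matrix.mulVec_mulVec,
    LK_intertwine hN k (totRep' Φ j) (Φ.ρ (j l)) (pm Φ j l m) (pm_comm Φ j l m) a,
    ← Matrix.mulVec_mulVec]
  have h : pm Φ j l m *ᵥ one Φ j = Pi.single m 1 := by
    funext i'
    rw [pm_mulVec]
    show (if i' = m then (1 : ℂ) else 0) = _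
    rw [Pi.single_apply]
  rw [h, Matrix.mulVec_single_one]
  rfl

/-- The `Ft`-projection commutes with the representation. -/
lemma qm_comm (Ft : Φ.Λ → Prop) [DecidablePred Ft] (g : N) :
    Matrix.diagonal (fun x : TI Φ j => if Ft (j x.1) then (1 : ℂ) else 0) * totRep' Φ j g =
      totRep' Φ j g * Matrix.diagonal (fun x : TI Φ j => if Ft (j x.1) then (1 : ℂ) else 0) := by
  ext ⟨l, x⟩ ⟨l', y⟩
  rw [Matrix.diagonal_mul, Matrix.mul_diagonal, mul_comm]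
  by_cases h : l = l'
  · subst h
    rfl
  · rw [tot_eq, Matrix.blockDiagonal'_apply_ne _ _ _ h, zero_mul, zero_mul]

/-- One class. -/
lemma class_split (Ft : Φ.Λ → Prop) [DecidablePred Ft] (hs : SplitAt Φ k Ft) (c : Φ.Λ → ℂ)
    (hc : ∀ l, Ainf (Φ.ρ l) k = c l • (1 : Matrix (Fin (Φ.d l)) (Fin (Φ.d l)) ℂ))
    (κ : ℂ) (n : Λ' → ℤ) (hn : ∀ l, c (j l) = κ + n l) :
    ∃ a : MonoidAlgebra ℂ (Braid N v₀), ∀ l : Λ',
      LK hN k (Φ.ρ (j l)) a = if Ft (j l) then 1 else 0 := by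
  have hA : Ainf (totRep' Φ j) k = Matrix.diagonal (fun x : TI Φ j => κ + (n x.1 : ℤ)) := by
    rw [Ainf_tot Φ j k c hc]
    congr 1
    funext x
    exact hn x.1
  obtain ⟨v, p, hp⟩ := exists_section hN (totRep' Φ j) k κ (fun x => n x.1) hA
    (Gam Φ j hN k v₀) (fun b x hx => Gam_stable Φ j hN k b x hx)
  obtain ⟨f, hf, hfv⟩ := hp (one Φ j) (one_mem Φ j hN k)
  have hf' := split_sub' Φ j k Ft hs (MG hN (totRep' Φ j) k v₀ (Gam Φ j hN k v₀))
    (fun a f hf => MG_x hN (totRep' Φ j) k _ a f hf)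
    (fun g f hf => MG_g hN (totRep' Φ j) k _ (fun b x hx => Gam_stable Φ j hN k b x hx) g f hf)
    (fun y f hf => MG_D hN (totRep' Φ j) k _ (fun b x hx => Gam_stable Φ j hN k b x hx) y f hf)
    f hf
  obtain ⟨x, ⟨a, ha⟩, hx⟩ := hf' v p
  set Q : Matrix (TI Φ j) (TI Φ j) ℂ :=
    Matrix.diagonal (fun x : TI Φ j => if Ft (j x.1) then (1 : ℂ) else 0) with hQ
  have h1 : evE (fun i => if Ft (j i.1) then f i else 0) v.1 = Q *ᵥ evE f v.1 := by
    funext y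
    rw [hQ, Matrix.mulVec_diagonal]
    show MvPolynomial.eval v.1 (if Ft (j y.1) then f y else 0) = _
    split_ifs
    · rw [one_mul]
      rfl
    · rw [zero_mul, map_zero]
  have h2 : PP hN (totRep' Φ j) k p.toContinuousMap *ᵥ (Q *ᵥ one Φ j) =
      PP hN (totRep' Φ j) k p.toContinuousMap *ᵥ x := by
    rw [← hx, h1, hfv, Matrix.mulVec_mulVec, Matrix.mulVec_mulVec,
      PP_intertwine hN (totRep' Φ j) (totRep' Φ j) k Q (qm_comm Φ j Ft)]
  have h3 : Q *ᵥ one Φ j = x := by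
    have hu := PP_unit hN (totRep' Φ j) k p.toContinuousMap
    have hu' := (Matrix.isUnit_iff_isUnit_det _).1 hu
    have h4 := congrArg (fun z => (PP hN (totRep' Φ j) k p.toContinuousMap)⁻¹ *ᵥ z) h2
    simp only [Matrix.mulVec_mulVec] at h4
    rw [Matrix.nonsing_inv_mul_cancel_left _ _ hu', Matrix.nonsing_inv_mul _ hu',
      Matrix.one_mulVec] at h4
    exact h4
  refine ⟨a, fun l => ?_⟩
  ext i m
  rw [← LK_entry Φ j hN k a l i m, ha, ← h3, hQ, Matrix.mulVec_diagonal]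
  show (if Ft (j l) then (1 : ℂ) else 0) * (if i = m then 1 else 0) = _
  split_ifs <;> simp [Matrix.one_apply, *]

end tot

end ThmSX

open ThmSX

variable (hN : ∃ s ∈ N, IsRefl s) {v₀ : VReg N}

theorem theoremS (Φ : IrrFam N) (k' : Idx N → ℂ) (Ft : Φ.Λ → Prop) [DecidablePred Ft]
    (hs : SplitAt Φ k' Ft) :
    ∃ h : MonoidAlgebra ℂ (Braid N v₀), ∀ l : Φ.Λ,
      MonoidAlgebra.lift ℂ _ (Braid N v₀) (KZ hN (Φ.ρ l) k') h = if Ft l then 1 else 0 := by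
  classical
  obtain ⟨c, hc⟩ := exists_c Φ k'
  set e : Φ.Λ → ℂ := fun l => Complex.exp (-(2 * Real.pi * Complex.I) * c l) with he
  have h1 : ∀ s : ℂ, ∃ h : MonoidAlgebra ℂ (Braid N v₀), ∀ l, e l = s →
      LK hN k' (Φ.ρ l) h = if Ft l then 1 else 0 := by
    intro s
    by_cases hs' : ∃ a, e a = s
    · obtain ⟨a, rfl⟩ := hs'
      have hn : ∀ l : {l : Φ.Λ // e l = e a}, ∃ n : ℤ, c l.1 = c a + n := by
        rintro ⟨l, hl⟩
        obtain ⟨n, hn⟩ := Complex.exp_eq_exp_iff_exists_int.1 hl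
        refine ⟨-n, ?_⟩
        have h2 : (2 * (Real.pi : ℂ) * Complex.I) ≠ 0 := Complex.two_pi_I_ne_zero
        have h3 : (2 * (Real.pi : ℂ) * Complex.I) * (c l - c a - ((-n : ℤ) : ℂ)) = 0 := by
          push_cast
          linear_combination -hn
        have h4 := (mul_eq_zero.1 h3).resolve_left h2
        show c l = c a + ((-n : ℤ) : ℂ)
        linear_combination h4
      choose n hn using hn
      obtain ⟨h, hh⟩ := class_split Φ (fun l : {l : Φ.Λ // e l = e a} => l.1) hN (v₀ := v₀) k'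
        Ft hs c hc (c a) n hn
      exact ⟨h, fun l hl => hh ⟨l, hl⟩⟩
    · exact ⟨0, fun l hl => (hs' ⟨l, hl⟩).elim⟩
  choose H hH using h1
  refine ⟨∑ s ∈ Finset.univ.image e, Polynomial.aeval (MonoidAlgebra.of ℂ _ (piB v₀))
    (Lagrange.basis (Finset.univ.image e) id s) * H s, fun l => ?_⟩
  show LK hN k' (Φ.ρ l) _ = _
  have hpi : LK hN k' (Φ.ρ l) (MonoidAlgebra.of ℂ _ (piB v₀)) = algebraMap ℂ _ (e l) := by
    unfold LK
    rw [MonoidAlgebra.lift_of, KZ_piB hN (Φ.ρ l) k' (c l) (hc l), Algebra.algebraMap_eq_smul_one]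
  have hel : e l ∈ Finset.univ.image e := Finset.mem_image_of_mem _ (Finset.mem_univ l)
  rw [map_sum, Finset.sum_eq_single (e l)]
  · rw [map_mul, ← Polynomial.aeval_algHom_apply, hpi, Polynomial.aeval_algebraMap_apply,
      Polynomial.coe_aeval_eq_eval]
    have h2 := Lagrange.eval_basis_self (F := ℂ) (s := Finset.univ.image e) (v := id)
      (Set.injOn_id _) hel
    rw [id] at h2
    rw [h2, map_one, one_mul]
    exact hH (e l) l rfl
  · intro s _ hsl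
    rw [map_mul, ← Polynomial.aeval_algHom_apply, hpi, Polynomial.aeval_algebraMap_apply,
      Polynomial.coe_aeval_eq_eval]
    have h2 := Lagrange.eval_basis_of_ne (F := ℂ) (s := Finset.univ.image e) (v := id) hsl hel
    rw [id] at h2
    rw [h2, map_zero, zero_mul]
  · intro h
    exact (h hel).elim

end

end Pool.Agent.CMF
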