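import Pool.Agent.CMF.LDefs

/-! Project CMF: local systems and transport along paths. -/

namespace Pool.Agent.CMF

open unitInterval

noncomputable section

section Top

variable {X Γ : Type} [TopologicalSpace X] [Group Γ]

namespace TopX

/-- A lift of the path: locally `F_i (γ t)` times a constant. -/
def IsLift (L : LocSys X Γ) (γ : C(I, X)) (P : I → Γ) : Prop :=
  ∀ t₀, ∃ i, γ t₀ ∈ L.U i ∧ ∀ᶠ t in nhds t₀, P t = L.F i (γ t) * (L.F i (γ t₀))⁻¹ * P t₀

lemma IsLift.any {L : LocSys X Γ} {γ : C(I, X)} {P : I → Γ} (h : IsLift L γ P) (t₀ : I) (j : L.ι)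
    (hj : γ t₀ ∈ L.U j) :
    ∀ᶠ t in nhds t₀, γ t ∈ L.U j ∧ P t = L.F j (γ t) * (L.F j (γ t₀))⁻¹ * P t₀ := by
  obtain ⟨i, hi, hP⟩ := h t₀
  have h1 : ∀ᶠ t in nhds t₀, γ t ∈ L.U i := γ.continuous.continuousAt ((L.isOpen i).mem_nhds hi)
  have h2 : ∀ᶠ t in nhds t₀, γ t ∈ L.U j := γ.continuous.continuousAt ((L.isOpen j).mem_nhds hj)
  filter_upwards [h1, h2, hP] with t ht1 ht2 ht
  refine ⟨ht2, ?_⟩
  rw [ht, L.compat i j _ _ hi hj ht1 ht2]

lemma IsLift.inv_mul_const {L : LocSys X Γ} {γ : C(I, X)} {P Q : I → Γ} (hP : IsLift L γ P)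
    (hQ : IsLift L γ Q) (s t : I) : (P s)⁻¹ * Q s = (P t)⁻¹ * Q t := by
  have hl : IsLocallyConstant (fun t => (P t)⁻¹ * Q t) := by
    rw [IsLocallyConstant.iff_eventually_eq]
    intro t₀
    obtain ⟨i, hi⟩ := L.cover (γ t₀)
    filter_upwards [hP.any t₀ i hi, hQ.any t₀ i hi] with t h1 h2
    rw [h1.2, h2.2]
    group
  exact hl.apply_eq_of_preconnectedSpace s t

lemma IsLift.inv_F_const {L : LocSys X Γ} {γ : C(I, X)} {P : I → Γ} (hP : IsLift L γ P) (i : L.ι)
    (s t : I) (h : ∀ r ∈ Set.uIcc s t, γ r ∈ L.U i) :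
    (L.F i (γ s))⁻¹ * P s = (L.F i (γ t))⁻¹ * P t := by
  let _ : TopologicalSpace Γ := ⊥
  have _ : DiscreteTopology Γ := ⟨rfl⟩
  have hc : ContinuousOn (fun r => (L.F i (γ r))⁻¹ * P r) (Set.uIcc s t) := by
    intro r hr
    apply ContinuousAt.continuousWithinAt
    have he : (fun r => (L.F i (γ r))⁻¹ * P r) =ᶠ[nhds r] fun _ => (L.F i (γ r))⁻¹ * P r := by
      filter_upwards [hP.any r i (h r hr)] with t h1
      rw [h1.2]
      group
    exact continuousAt_const.congr he.symm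
  exact (isPreconnected_uIcc (a := s) (b := t)).constant hc Set.left_mem_uIcc Set.right_mem_uIcc

lemma IsLift.isTransport {L : LocSys X Γ} {γ : C(I, X)} {P : I → Γ} (hP : IsLift L γ P) :
    IsTransport L γ (fun s t => P t * (P s)⁻¹) := by
  refine ⟨fun s t u => by group, fun i s t h => ?_⟩
  have h1 := hP.inv_F_const i s t h
  have h2 : P t = L.F i (γ t) * ((L.F i (γ s))⁻¹ * P s) := by
    rw [h1]; group
  rw [h2]; group

lemma isLift_of_isTransport {L : LocSys X Γ} {γ : C(I, X)} {P : I → I → Γ}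
    (hP : IsTransport L γ P) (s : I) : IsLift L γ (P s) := by
  intro t₀
  obtain ⟨i, hi⟩ := L.cover (γ t₀)
  refine ⟨i, hi, ?_⟩
  have h1 : ∀ᶠ t in nhds t₀, γ t ∈ L.U i := γ.continuous.continuousAt ((L.isOpen i).mem_nhds hi)
  have h2 : Filter.Tendsto (fun t => Set.uIcc t₀ t) (nhds t₀) (nhds t₀).smallSets :=
    tendsto_const_nhds.uIcc Filter.tendsto_id
  have h3 : ∀ᶠ t in nhds t₀, ∀ r ∈ Set.uIcc t₀ t, γ r ∈ L.U i := by
    have := h2.eventually (h1.smallSets)
    exact this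
  filter_upwards [h3] with t ht
  rw [← hP.comp s t₀ t, hP.loc i t₀ t ht]

lemma isTransport_self {L : LocSys X Γ} {γ : C(I, X)} {P : I → I → Γ}
    (hP : IsTransport L γ P) (s : I) : P s s = 1 := by
  have := hP.comp s s s
  exact mul_eq_left.mp this

lemma IsLift.comp {L : LocSys X Γ} {γ : C(I, X)} {P : I → Γ} (hP : IsLift L γ P) (φ : C(I, I)) :
    IsLift L (γ.comp φ) (fun t => P (φ t)) := by
  intro t₀
  obtain ⟨i, hi, h⟩ := hP (φ t₀)
  exact ⟨i, hi, φ.continuous.continuousAt.eventually h⟩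

/-- The bundle with discrete fibre attached to a local system. -/
def core [TopologicalSpace Γ] [DiscreteTopology Γ] (L : LocSys X Γ) : FiberBundleCore L.ι X Γ where
  baseSet := L.U
  isOpen_baseSet := L.isOpen
  indexAt := fun x => (L.cover x).choose
  mem_baseSet_at := fun x => (L.cover x).choose_spec
  coordChange := fun i j x v => (L.F j x)⁻¹ * L.F i x * v
  coordChange_self := fun i x _ v => by group
  continuousOn_coordChange := fun i j => by
    rcases Set.eq_empty_or_nonempty (L.U i ∩ L.U j) with h | ⟨x₀, h₀⟩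
    · rw [h, Set.empty_prod]; exact continuousOn_empty _
    · have hc : Continuous (fun p : X × Γ => (L.F j x₀)⁻¹ * L.F i x₀ * p.2) :=
        (continuous_of_discreteTopology (f := fun v : Γ => (L.F j x₀)⁻¹ * L.F i x₀ * v)).comp
          continuous_snd
      refine hc.continuousOn.congr ?_
      rintro ⟨x, v⟩ ⟨hx, -⟩
      have h1 := L.compat i j x₀ x h₀.1 h₀.2 hx.1 hx.2
      have h2 : (L.F j x)⁻¹ * L.F i x = (L.F j x₀)⁻¹ * L.F i x₀ := by
        have : L.F i x = L.F j x * (L.F j x₀)⁻¹ * L.F i x₀ := by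
          rw [← h1]; group
        rw [this]; group
      simp only [h2]
  coordChange_comp := fun i j k x _ v => by group

theorem isCov [TopologicalSpace Γ] [DiscreteTopology Γ] (L : LocSys X Γ) :
    IsCoveringMap (Bundle.TotalSpace.proj : (core L).TotalSpace → X) :=
  FiberBundle.isCoveringMap (F := Γ) (E := (core L).Fiber)

/-- The value of a point of the total space. -/
def val [TopologicalSpace Γ] [DiscreteTopology Γ] (L : LocSys X Γ) (e : (core L).TotalSpace) : Γ :=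
  L.F ((core L).indexAt e.proj) e.proj * (show Γ from e.snd)

lemma isLift_of_lift [TopologicalSpace Γ] [DiscreteTopology Γ] (L : LocSys X Γ) (γ : C(I, X))
    (Λ : C(I, (core L).TotalSpace)) (h : ∀ t, (Λ t).proj = γ t) :
    IsLift L γ (fun t => val L (Λ t)) := by
  intro t₀
  obtain ⟨i, hi⟩ := L.cover (γ t₀)
  refine ⟨i, hi, ?_⟩
  have hsrc : Λ t₀ ∈ ((core L).localTriv i).source := by
    rw [(core L).mem_localTriv_source]
    rw [h t₀]
    exact hi
  have hcont : ContinuousAt (fun t => ((core L).localTriv i (Λ t)).2) t₀ :=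
    continuousAt_snd.comp ((((core L).localTriv i).continuousAt hsrc).comp Λ.continuous.continuousAt)
  have hev : ∀ᶠ t in nhds t₀, ((core L).localTriv i (Λ t)).2 = ((core L).localTriv i (Λ t₀)).2 := by
    have := hcont.tendsto
    rw [nhds_discrete Γ] at this
    exact Filter.tendsto_pure.mp this
  have key : ∀ t, ((core L).localTriv i (Λ t)).2 = (L.F i (γ t))⁻¹ * val L (Λ t) := by
    intro t
    rw [(core L).localTriv_apply]
    have e : (Λ t).proj = γ t := h t
    change (L.F i (Λ t).proj)⁻¹ * L.F ((core L).indexAt (Λ t).proj) (Λ t).proj *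
      (show Γ from (Λ t).snd) = _
    rw [← e, mul_assoc]
    rfl
  filter_upwards [hev] with t ht
  rw [key t, key t₀] at ht
  have : val L (Λ t) = L.F i (γ t) * ((L.F i (γ t))⁻¹ * val L (Λ t)) := by group
  rw [this, ht]
  group

/-- A point over `x` with value `g`. -/
def pt [TopologicalSpace Γ] [DiscreteTopology Γ] (L : LocSys X Γ) (x : X) (g : Γ) :
    (core L).TotalSpace :=
  ⟨x, (L.F ((core L).indexAt x) x)⁻¹ * g⟩

lemma val_pt [TopologicalSpace Γ] [DiscreteTopology Γ] (L : LocSys X Γ) (x : X) (g : Γ) :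
    val L (pt L x g) = g := by
  change L.F ((core L).indexAt x) x * ((L.F ((core L).indexAt x) x)⁻¹ * g) = g
  group

lemma exists_lift (L : LocSys X Γ) (γ : C(I, X)) : ∃ P, P 0 = 1 ∧ IsLift L γ P := by
  let _ : TopologicalSpace Γ := ⊥
  have _ : DiscreteTopology Γ := ⟨rfl⟩
  have h0 : γ 0 = Bundle.TotalSpace.proj (pt L (γ 0) 1) := rfl
  have hl := (isCov L).liftPath_lifts γ (pt L (γ 0) 1) h0
  refine ⟨fun t => val L ((isCov L).liftPath γ (pt L (γ 0) 1) h0 t), ?_, ?_⟩
  · beta_reduce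
    rw [(isCov L).liftPath_zero, val_pt]
  · exact isLift_of_lift L γ _ (fun t => congrFun hl t)

end TopX

open TopX

theorem exists_transport (L : LocSys X Γ) (γ : C(I, X)) : ∃ P, IsTransport L γ P := by
  obtain ⟨P, -, hP⟩ := exists_lift L γ
  exact ⟨_, hP.isTransport⟩

theorem transport_unique (L : LocSys X Γ) (γ : C(I, X)) (P Q : I → I → Γ)
    (hP : IsTransport L γ P) (hQ : IsTransport L γ Q) : P = Q := by
  funext s t
  have h := (isLift_of_isTransport hP s).inv_mul_const (isLift_of_isTransport hQ s) s t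
  rw [isTransport_self hP, isTransport_self hQ] at h
  rw [inv_one, one_mul] at h
  exact (inv_mul_eq_one.mp h.symm)

/-- Transport along a path. -/
def LocSys.tr (L : LocSys X Γ) (γ : C(I, X)) : Γ := (exists_transport L γ).choose 0 1

theorem LocSys.tr_eq (L : LocSys X Γ) (γ : C(I, X)) (P) (hP : IsTransport L γ P) :
    L.tr γ = P 0 1 := by
  unfold LocSys.tr
  rw [transport_unique L γ _ P (exists_transport L γ).choose_spec hP]

lemma TopX.tr_of_lift {L : LocSys X Γ} {γ : C(I, X)} {P : I → Γ} (hP : IsLift L γ P) :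
    L.tr γ = P 1 * (P 0)⁻¹ :=
  L.tr_eq γ _ hP.isTransport

/-- A function `P : I → Γ` that is locally `F_i(γ t) · const` computes the transport. -/
theorem LocSys.tr_eq_of_lift (L : LocSys X Γ) (γ : C(I, X)) (P : I → Γ) (h0 : P 0 = 1)
    (hP : ∀ t₀, ∃ i, γ t₀ ∈ L.U i ∧ ∀ᶠ t in nhds t₀,
      P t = L.F i (γ t) * (L.F i (γ t₀))⁻¹ * P t₀) :
    L.tr γ = P 1 := by
  have h : IsLift L γ P := hP
  rw [tr_of_lift h, h0, inv_one, mul_one]

theorem LocSys.tr_local (L : LocSys X Γ) (γ : C(I, X)) (i) (h : ∀ t, γ t ∈ L.U i) :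
    L.tr γ = L.F i (γ 1) * (L.F i (γ 0))⁻¹ := by
  have hl : IsLift L γ (fun t => L.F i (γ t)) := fun t₀ =>
    ⟨i, h t₀, Filter.Eventually.of_forall fun t => by group⟩
  exact tr_of_lift hl

theorem LocSys.tr_homotopic (L : LocSys X Γ) (γ γ' : C(I, X)) (h : γ.HomotopicRel γ' {0, 1}) :
    L.tr γ = L.tr γ' := by
  let _ : TopologicalSpace Γ := ⊥
  have _ : DiscreteTopology Γ := ⟨rfl⟩
  have h0 : γ 0 = Bundle.TotalSpace.proj (pt L (γ 0) 1) := rfl
  have h0' : γ' 0 = Bundle.TotalSpace.proj (pt L (γ 0) 1) := by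
    have := h.some.fst_eq_snd (x := 0) (by simp)
    exact this.symm
  have hl := (isCov L).liftPath_lifts γ (pt L (γ 0) 1) h0
  have hl' := (isCov L).liftPath_lifts γ' (pt L (γ 0) 1) h0'
  have e := (isCov L).liftPath_apply_one_eq_of_homotopicRel h (pt L (γ 0) 1) h0 h0'
  rw [tr_of_lift (isLift_of_lift L γ _ (fun t => congrFun hl t)),
    tr_of_lift (isLift_of_lift L γ' _ (fun t => congrFun hl' t)), (isCov L).liftPath_zero,
    (isCov L).liftPath_zero, e]

theorem LocSys.tr_trans (L : LocSys X Γ) {x y z : X} (p : Path x y) (q : Path y z) :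
    L.tr (p.trans q).toContinuousMap = L.tr q.toContinuousMap * L.tr p.toContinuousMap := by
  obtain ⟨P, -, hP⟩ := exists_lift L (p.trans q).toContinuousMap
  have half : ((1 : ℝ) / 2) ∈ Set.Icc (0 : ℝ) 1 := by constructor <;> norm_num
  let φ : C(I, I) := ⟨fun t => ⟨t / 2, by
    have := t.2.1; have := t.2.2; constructor <;> linarith⟩, by fun_prop⟩
  let ψ : C(I, I) := ⟨fun t => ⟨(1 + t) / 2, by
    have := t.2.1; have := t.2.2; constructor <;> linarith⟩, by fun_prop⟩
  have e1 : (p.trans q).toContinuousMap.comp φ = p.toContinuousMap := by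
    ext t
    have h1 : ((φ t : I) : ℝ) ≤ 1 / 2 := by
      change (t : ℝ) / 2 ≤ 1 / 2
      have := t.2.2; linarith
    change (p.trans q) (φ t) = p t
    rw [Path.trans_apply, dif_pos h1]
    congr 1
    apply Subtype.ext
    change 2 * ((t : ℝ) / 2) = t
    ring
  have e2 : (p.trans q).toContinuousMap.comp ψ = q.toContinuousMap := by
    ext t
    change (p.trans q) (ψ t) = q t
    rw [Path.trans_apply]
    split_ifs with h1
    · have h2 : (1 + (t : ℝ)) / 2 ≤ 1 / 2 := h1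
      have h3 := t.2.1
      have h4 : t = 0 := Subtype.ext (by change (t : ℝ) = 0; linarith)
      subst h4
      rw [q.source]
      have : (⟨2 * ((ψ 0 : I) : ℝ), (unitInterval.mul_pos_mem_iff zero_lt_two).2
          ⟨(ψ 0).2.1, h1⟩⟩ : I) = 1 := by
        apply Subtype.ext
        change 2 * ((1 + ((0 : I) : ℝ)) / 2) = 1
        simp
      rw [this, p.target]
    · congr 1
      apply Subtype.ext
      change 2 * ((1 + (t : ℝ)) / 2) - 1 = t
      ring
  have h1 := tr_of_lift (hP.comp φ)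
  have h2 := tr_of_lift (hP.comp ψ)
  rw [e1] at h1
  rw [e2] at h2
  rw [h1, h2, tr_of_lift hP]
  have f0 : φ 0 = 0 := Subtype.ext (by change ((0 : I) : ℝ) / 2 = 0; simp)
  have f1 : φ 1 = ψ 0 := Subtype.ext (by
    change ((1 : I) : ℝ) / 2 = (1 + ((0 : I) : ℝ)) / 2; simp)
  have f2 : ψ 1 = 1 := Subtype.ext (by change (1 + ((1 : I) : ℝ)) / 2 = 1; norm_num)
  rw [f0, f1, f2]
  group

theorem LocSys.tr_symm (L : LocSys X Γ) {x y : X} (p : Path x y) :
    L.tr p.symm.toContinuousMap = (L.tr p.toContinuousMap)⁻¹ := by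
  obtain ⟨P, -, hP⟩ := exists_lift L p.toContinuousMap
  let φ : C(I, I) := ⟨σ, continuous_symm⟩
  have e1 : p.toContinuousMap.comp φ = p.symm.toContinuousMap := rfl
  have h1 := tr_of_lift (hP.comp φ)
  rw [e1] at h1
  rw [h1, tr_of_lift hP]
  have f0 : φ 0 = 1 := symm_zero
  have f1 : φ 1 = 0 := symm_one
  rw [f0, f1]
  group

theorem LocSys.tr_const (L : LocSys X Γ) (x : X) : L.tr (ContinuousMap.const I x) = 1 := by
  obtain ⟨i, hi⟩ := L.cover x
  rw [L.tr_local _ i (fun _ => hi)]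
  simp

/-- Functoriality (used for symmetries, inclusions, evaluation at a parameter). -/
theorem LocSys.tr_map {X' Γ' : Type} [TopologicalSpace X'] [Group Γ'] (L : LocSys X Γ)
    (L' : LocSys X' Γ') (φ : C(X, X')) (θ : Γ →* Γ')
    (h : ∀ x, ∃ W : Set X, IsOpen W ∧ x ∈ W ∧ ∃ i j, W ⊆ L.U i ∧ (∀ y ∈ W, φ y ∈ L'.U j) ∧
      ∀ y ∈ W, ∀ z ∈ W, L'.F j (φ z) * (L'.F j (φ y))⁻¹ = θ (L.F i z * (L.F i y)⁻¹))
    (γ : C(I, X)) : L'.tr (φ.comp γ) = θ (L.tr γ) := by
  obtain ⟨P, -, hP⟩ := exists_lift L γ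
  have hl : IsLift L' (φ.comp γ) (fun t => θ (P t)) := by
    intro t₀
    obtain ⟨W, hW, hx, i, j, hi, hj, hF⟩ := h (γ t₀)
    refine ⟨j, hj _ hx, ?_⟩
    have h1 : ∀ᶠ t in nhds t₀, γ t ∈ W := γ.continuous.continuousAt (hW.mem_nhds hx)
    filter_upwards [h1, hP.any t₀ i (hi hx)] with t ht1 ht2
    rw [ht2.2, map_mul]
    congr 1
    exact (hF _ hx _ ht1).symm
  rw [tr_of_lift hl, tr_of_lift hP, map_mul, map_inv]

theorem LocSys.tr_mem (L : LocSys X Γ) (S : Subgroup Γ)
    (h : ∀ i, ∀ x ∈ L.U i, ∀ y ∈ L.U i, L.F i y * (L.F i x)⁻¹ ∈ S) (γ : C(I, X)) :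
    L.tr γ ∈ S := by
  obtain ⟨P, h0, hP⟩ := exists_lift L γ
  have hl : IsLocallyConstant (fun t => P t ∈ S) := by
    rw [IsLocallyConstant.iff_eventually_eq]
    intro t₀
    obtain ⟨i, hi⟩ := L.cover (γ t₀)
    filter_upwards [hP.any t₀ i hi] with t ht
    rw [ht.2]
    exact propext (S.mul_mem_cancel_left (h i _ hi _ ht.1))
  have h1 := hl.apply_eq_of_preconnectedSpace 1 0
  rw [tr_of_lift hP, h0, inv_one, mul_one]
  simp only [h0] at h1
  exact h1 ▸ S.one_mem

end Top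

end

end Pool.Agent.CMF
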